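import Pool.Agent.Lib.MP_711ea9_lc.FH.Base
import Pool.Agent.Lib.MP_711ea9_lc.FH.Adj

section

set_option autoImplicit false

namespace Pool.Agent.Lib.MP_711ea9_lc.FH

private lemma A1_fire {V : Type*} [Fintype V] [DecidableEq V] (G : SimpleGraph V) (s : V)
    (S : Finset V) (i : ℕ) : ((fireF G s S i : Finset V) : Set V) = Fr G s (S : Set V) i := by
  induction i with
  | zero => simp [fireF, Fr]
  | succ i ih =>
    ext w
    rw [Finset.mem_coe, mem_fireF_succ, mem_Fr_succ, ← ih]
    simp only [Finset.mem_coe]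

private lemma A1_thr {V : Type*} [Fintype V] [DecidableEq V] (G : SimpleGraph V) (s : V)
    (S : Finset V) (i : ℕ) : ((thr G s S i : Finset V) : Set V) = Th G s (S : Set V) i := by
  cases i with
  | zero => simp [thr, Th]
  | succ i =>
    ext w
    rw [Finset.mem_coe, mem_thr_succ, mem_Th_succ, ← A1_fire]
    simp only [Finset.mem_coe]

private lemma A1_stable {V : Type*} [Fintype V] [DecidableEq V] (G : SimpleGraph V) (s : V)
    (S : Finset V) (i : ℕ) : fireF G s S i ⊆ fireF G s S (Fintype.card V) := by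
  rcases le_total i (Fintype.card V) with h | h
  · exact fireF_mono h
  · by_cases hex : ∃ j, j ≤ Fintype.card V ∧ fireF G s S (j + 1) = fireF G s S j
    · obtain ⟨j, hj, hj'⟩ := hex
      rw [fireF_stable_of hj' i (hj.trans h), fireF_stable_of hj' _ hj]
    · push Not at hex
      have key : ∀ j, j ≤ Fintype.card V + 1 → j + 1 ≤ (fireF G s S j).card := by
        intro j
        induction j with
        | zero =>
          intro _
          exact Finset.card_pos.2 ⟨s, source_mem 0⟩
        | succ j ih =>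
          intro hj
          have h1 := ih (by omega)
          have h2 : fireF G s S j ⊂ fireF G s S (j + 1) :=
            lt_of_le_of_ne (fireF_mono_succ j) (hex j (by omega)).symm
          have h3 := Finset.card_lt_card h2
          omega
      have h1 := key (Fintype.card V) (by omega)
      have h2 := Finset.card_le_univ (fireF G s S (Fintype.card V))
      omega

/-- TASK A1. The Firefighter problem on `Fin n` in the static form.
Proof. Library: `firefighter_iff` (Process.lean) says
`Firefighter G s k ↔ ∃ S : Finset V, Feas G s S ∧ (fireF G s S (Fintype.card V)).card ≤ k`.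
First show by induction on `i` (use `mem_fireF_succ`, `mem_Fr_succ`) that for a finset `S`
`((fireF G s S i : Finset _) : Set _) = Fr G s (S : Set _) i` and then
`((thr G s S i : Finset _) : Set _) = Th G s (S : Set _) i`; so the encards are the cards
(`Set.encard_coe_eq_coe_finsetCard`).
(→) take the same set. For all `i`: `Fr i ⊆ Fr (card V)`: for `i ≤ card V` by monotonicity. Otherwise:
the sets `fireF i` grow; if `fireF (i+1) = fireF i` for some `i ≤ card V` then they are constant from
`i` on (`fireF_stable_of`); if not, then `(fireF i).card ≥ i + 1` for all `i ≤ card V + 1`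
(strict inclusions), which is more than `card V`.
(←) `S : Set (Fin n)` is finite: use `S.toFinset` (classical) and `Set.coe_toFinset`; take
`i = card V` in the second condition. -/
theorem firefighter_iff_FF {n : ℕ} (G : SimpleGraph (Fin n)) (s : Fin n) (k : ℕ) :
    Firefighter G s k ↔ FF G s k := by
  classical
  rw [firefighter_iff]
  constructor
  · rintro ⟨S, ⟨hs, hT⟩, hk⟩
    refine ⟨(S : Set (Fin n)), by simpa using hs, fun i => ?_, fun i => ?_⟩
    · rw [← A1_thr, Set.encard_coe_eq_coe_finsetCard]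
      exact_mod_cast hT i
    · rw [← A1_fire, Set.encard_coe_eq_coe_finsetCard]
      have h := (Finset.card_le_card (A1_stable G s S i)).trans hk
      exact_mod_cast h
  · rintro ⟨S, hs, hT, hk⟩
    have hS : ((S.toFinset : Finset (Fin n)) : Set (Fin n)) = S := Set.coe_toFinset S
    refine ⟨S.toFinset, ⟨by simpa using hs, fun i => ?_⟩, ?_⟩
    · have h := hT i
      rw [← hS, ← A1_thr, Set.encard_coe_eq_coe_finsetCard] at h
      exact_mod_cast h
    · have h := hk (Fintype.card (Fin n))
      rw [← hS, ← A1_fire, Set.encard_coe_eq_coe_finsetCard] at h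
      exact_mod_cast h

end Pool.Agent.Lib.MP_711ea9_lc.FH
end

section

set_option autoImplicit false

namespace Pool.Agent.Lib.MP_711ea9_lc.FH

/-- TASK A2. Transfer along an injective map `f` whose range contains all non-isolated vertices.
Proof. Let `G' = G.comap f`, so `G'.Adj a b ↔ G.Adj (f a) (f b)` (`SimpleGraph.comap_adj`).
Claim 1: for `S : Set V` and `S' = f ⁻¹' S`, `f s' ∉ S`: for all `i`, `Fr G (f s') S i = f '' Fr G' s' S' i`
(induction; for a new vertex `w` next to `u = f a`: `G.Adj u w`, so `w ∈ range f` by `hr` applied to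
`G.Adj w u`), hence `Th G (f s') S i = f '' Th G' s' S' i` (case `i = 0` and `i + 1`).
`Set.InjOn.encard_image`/`Function.Injective.encard_image` gives equal encards.
(→) given `S'` for `G'` put `S = f '' S'`; then `f ⁻¹' S = S'` by injectivity. (←) given `S` put
`S' = f ⁻¹' S`. -/
theorem FF_comap {V W : Type*} (G : SimpleGraph V) (f : W → V) (hf : Function.Injective f)
    (hr : ∀ u v, G.Adj u v → u ∈ Set.range f) (s' : W) (k : ℕ) :
    FF (G.comap f) s' k ↔ FF G (f s') k := by
  have key : ∀ (S : Set V) (i : ℕ), Fr G (f s') S i = f '' Fr (G.comap f) s' (f ⁻¹' S) i := by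
    intro S i
    induction i with
    | zero => simp [Fr]
    | succ i ih =>
      ext w
      constructor
      · intro h
        rcases h with h | ⟨hw, u, hu, huw⟩
        · rw [ih] at h
          obtain ⟨a, ha, rfl⟩ := h
          exact ⟨a, Or.inl ha, rfl⟩
        · obtain ⟨b, rfl⟩ := hr w u huw.symm
          rw [ih] at hu
          obtain ⟨a, ha, rfl⟩ := hu
          exact ⟨b, Or.inr ⟨hw, a, ha, huw⟩, rfl⟩
      · rintro ⟨b, h, rfl⟩
        rcases h with h | ⟨hw, a, ha, hab⟩
        · left
          rw [ih]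
          exact ⟨b, h, rfl⟩
        · right
          refine ⟨hw, f a, ?_, hab⟩
          rw [ih]
          exact ⟨a, ha, rfl⟩
  have key2 : ∀ (S : Set V) (i : ℕ), Th G (f s') S i = f '' Th (G.comap f) s' (f ⁻¹' S) i := by
    intro S i
    cases i with
    | zero => simp [Th]
    | succ i =>
      ext w
      constructor
      · rintro ⟨hw, u, hu, huw⟩
        obtain ⟨b, rfl⟩ := hr w u huw.symm
        rw [key] at hu
        obtain ⟨a, ha, rfl⟩ := hu
        exact ⟨b, ⟨hw, a, ha, huw⟩, rfl⟩
      · rintro ⟨b, ⟨hw, a, ha, hab⟩, rfl⟩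
        refine ⟨hw, f a, ?_, hab⟩
        rw [key]
        exact ⟨a, ha, rfl⟩
  constructor
  · rintro ⟨S', h1, h2, h3⟩
    have hS : f ⁻¹' (f '' S') = S' := Set.preimage_image_eq S' hf
    refine ⟨f '' S', ?_, fun i => ?_, fun i => ?_⟩
    · rintro ⟨a, ha, hs⟩
      exact h1 (hf hs ▸ ha)
    · rw [key2, hS, hf.encard_image]
      exact h2 i
    · rw [key, hS, hf.encard_image]
      exact h3 i
  · rintro ⟨S, h1, h2, h3⟩
    refine ⟨f ⁻¹' S, h1, fun i => ?_, fun i => ?_⟩
    · have := h2 i
      rwa [key2, hf.encard_image] at this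
    · have := h3 i
      rwa [key, hf.encard_image] at this

end Pool.Agent.Lib.MP_711ea9_lc.FH
end

section

set_option autoImplicit false

namespace Pool.Agent.Lib.MP_711ea9_lc.FH

open Finset

/-- TASK C1. Fire climbs one level of a region inside the frame `a`.
(The hypothesis `hcl` says that every vertex of the frame next to a burning vertex burns next.)
Proof. All adjacencies come from the case reg-reg of `Net.E` (use `Net.adj_of_E`, `Net.adj_of_E'`, then
`simp [Net.E]`, bounds by omega after `generalize 2 ^ N.h = q`; note `600 * i + a < 600 * q`).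
(1) by induction on `r`, for `a + r ≤ 299`: `reg σ l (a + r) (600 * i + a) ∈ F (y + r)` (this vertex is in the
frame because `(600 * i + a) % 300 = a`). (2) the edge from row 299 to the next level
(`(600*i+a) % 600 = a < 300`, `(600*i+a)/600 = i`): `reg σ (l+1) 0 (300 * i + a) ∈ F (y + 300 - a)`.
(3) induction: `reg σ (l+1) r (300 * i + a) ∈ F (y + 300 - a + r)` for `r ≤ a`; so
`reg σ (l+1) a (300 * i + a) ∈ F (y + 300)`. (4) if `i` is even then `300 * i = 600 * (i/2)`: done by `Net.F_mono`.
If `i` is odd, `300 * i + a = 600 * (i/2) + a + 300`: go along row `a` (in the frame) to the left, 300 steps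
(induction on `s ≤ 300`: `reg σ (l+1) a (600 * (i/2) + a + 300 - s) ∈ F (y + 300 + s)`). -/
theorem hub_up {N : Net} {S : Set Vtx} {σ a R : ℕ} (ha : a < 300) (hσ : σ < 22 + N.K)
    (hcl : ∀ i < R, ∀ u ∈ N.F S i, ∀ v ∈ frame σ a, N.G.Adj u v → v ∈ N.F S (i + 1))
    {l i y : ℕ} (hl : l < N.h) (hi : i < 2 ^ N.h) (hy : y + 900 ≤ R)
    (h0 : Vtx.reg σ l a (600 * i + a) ∈ N.F S y) :
    Vtx.reg σ (l + 1) a (600 * (i / 2) + a) ∈ N.F S (y + 900) := by
  have hxq : 600 * i + a < 600 * 2 ^ N.h := by
    generalize 2 ^ N.h = q at *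
    omega
  have hxq' : 300 * i + a < 600 * 2 ^ N.h := by omega
  have hfr : (600 * i + a) % 300 = a := by omega
  have hfr' : (300 * i + a) % 300 = a := by omega
  -- upwards in level l
  have h1 : ∀ r, a + r ≤ 299 → Vtx.reg σ l (a + r) (600 * i + a) ∈ N.F S (y + r) := by
    intro r
    induction r with
    | zero => intro _; exact h0
    | succ r ih =>
      intro hr
      have hu := ih (by omega)
      refine hcl (y + r) (by omega) _ hu _ ⟨l, a + (r + 1), 600 * i + a, rfl, Or.inr hfr⟩
        (Net.adj_of_E ?_)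
      exact ⟨rfl, hσ, hl.le, hl.le, by omega, by omega, hxq, hxq,
        Or.inr (Or.inl ⟨rfl, by omega, rfl⟩)⟩
  -- to the next level
  have h2 : Vtx.reg σ (l + 1) 0 (300 * i + a) ∈ N.F S (y + (300 - a)) := by
    have hu := h1 (299 - a) (by omega)
    have e1 : a + (299 - a) = 299 := by omega
    rw [e1] at hu
    have e2 : y + (300 - a) = y + (299 - a) + 1 := by omega
    rw [e2]
    refine hcl (y + (299 - a)) (by omega) _ hu _ ⟨l + 1, 0, 300 * i + a, rfl, Or.inr hfr'⟩
      (Net.adj_of_E ?_)
    exact ⟨rfl, hσ, hl.le, hl, by omega, by omega, hxq, hxq',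
      Or.inr (Or.inr ⟨rfl, rfl, rfl, by omega, by omega⟩)⟩
  have h3 : ∀ r, r ≤ a → Vtx.reg σ (l + 1) r (300 * i + a) ∈ N.F S (y + (300 - a) + r) := by
    intro r
    induction r with
    | zero => intro _; exact h2
    | succ r ih =>
      intro hr
      have hu := ih (by omega)
      refine hcl (y + (300 - a) + r) (by omega) _ hu _
        ⟨l + 1, r + 1, 300 * i + a, rfl, Or.inr hfr'⟩ (Net.adj_of_E ?_)
      exact ⟨rfl, hσ, hl, hl, by omega, by omega, hxq', hxq',
        Or.inr (Or.inl ⟨rfl, by omega, rfl⟩)⟩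
  have h4 : Vtx.reg σ (l + 1) a (300 * i + a) ∈ N.F S (y + 300) := by
    have := h3 a le_rfl
    have e : y + (300 - a) + a = y + 300 := by omega
    rwa [e] at this
  rcases Nat.even_or_odd' i with ⟨j, hj | hj⟩
  · have e : 600 * (i / 2) + a = 300 * i + a := by omega
    rw [e]
    exact Net.F_mono (by omega) h4
  · have h5 : ∀ s, s ≤ 300 → Vtx.reg σ (l + 1) a (600 * j + a + 300 - s) ∈ N.F S (y + 300 + s) := by
      intro s
      induction s with
      | zero =>
        intro _
        have e : 600 * j + a + 300 - 0 = 300 * i + a := by omega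
        rw [e]
        exact h4
      | succ s ih =>
        intro hs
        have hu := ih (by omega)
        refine hcl (y + 300 + s) (by omega) _ hu _
          ⟨l + 1, a, 600 * j + a + 300 - (s + 1), rfl, Or.inl rfl⟩ (Net.adj_of_E' ?_)
        exact ⟨rfl, hσ, hl, hl, ha, ha, by omega, by omega,
          Or.inl ⟨rfl, rfl, by omega⟩⟩
    have h6 := h5 300 le_rfl
    have e : 600 * (i / 2) + a = 600 * j + a + 300 - 300 := by omega
    rw [e]
    exact Net.F_mono (by omega) h6

end Pool.Agent.Lib.MP_711ea9_lc.FH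
end

section

set_option autoImplicit false

namespace Pool.Agent.Lib.MP_711ea9_lc.FH

open Finset

/-- TASK C2. Fire descends one level of a region inside the frame `a` (same style as C1).
Proof. Let `i = i' / 2`. (1) along row `a` of level `l+1` to the right: 0 steps if `i'` is even, 300 steps if
`i'` is odd: `reg σ (l+1) a (300 * i' + a) ∈ F (y + 300)`. (2) down the column (row `a`, `a-1`, ..., `0`; it is in
the frame since `(300 * i' + a) % 300 = a`): `reg σ (l+1) 0 (300 * i' + a) ∈ F (y + 300 + a)`.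
(3) the edge between the levels (`Net.adj_of_E'`): `reg σ l 299 (600 * i' + a) ∈ F (y + 301 + a)`. (4) down the
column of level `l` from row 299 to row `a`: `reg σ l a (600 * i' + a) ∈ F (y + 301 + a + (299 - a))`, which is
`F (y + 600)`; use `Net.F_mono`. -/
theorem hub_down {N : Net} {S : Set Vtx} {σ a R : ℕ} (ha : a < 300) (hσ : σ < 22 + N.K)
    (hcl : ∀ i < R, ∀ u ∈ N.F S i, ∀ v ∈ frame σ a, N.G.Adj u v → v ∈ N.F S (i + 1))
    {l i' y : ℕ} (hl : l < N.h) (hi : i' < 2 ^ N.h) (hy : y + 900 ≤ R)
    (h0 : Vtx.reg σ (l + 1) a (600 * (i' / 2) + a) ∈ N.F S y) :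
    Vtx.reg σ l a (600 * i' + a) ∈ N.F S (y + 900) := by
  obtain ⟨q, hq⟩ : ∃ q, q = 2 ^ N.h := ⟨_, rfl⟩
  have hi1 : i' < q := by rw [hq]; exact hi
  -- (1) along the row to the right
  have h1 : ∀ s, s ≤ 300 → Vtx.reg σ (l + 1) a (600 * (i' / 2) + a + s) ∈ N.F S (y + s) ∨
      600 * q ≤ 600 * (i' / 2) + a + s := by
    intro s
    induction s with
    | zero => intro _; exact Or.inl h0
    | succ s ih =>
      intro hs
      rcases Nat.lt_or_ge (600 * (i' / 2) + a + (s + 1)) (600 * q) with hlt | hge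
      · left
        rcases ih (by omega) with h | h
        · have hadj : N.G.Adj (Vtx.reg σ (l + 1) a (600 * (i' / 2) + a + s))
              (Vtx.reg σ (l + 1) a (600 * (i' / 2) + a + (s + 1))) := by
            apply Net.adj_of_E
            show σ = σ ∧ σ < 22 + N.K ∧ l + 1 ≤ N.h ∧ l + 1 ≤ N.h ∧ a < 300 ∧ a < 300 ∧
              600 * (i' / 2) + a + s < 600 * 2 ^ N.h ∧ 600 * (i' / 2) + a + (s + 1) < 600 * 2 ^ N.h ∧ _
            rw [← hq]
            exact ⟨rfl, hσ, hl, hl, ha, ha, by omega, hlt, Or.inl ⟨rfl, rfl, rfl⟩⟩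
          exact hcl (y + s) (by omega) _ h _ ⟨l + 1, a, _, rfl, Or.inl rfl⟩ hadj
        · omega
      · exact Or.inr hge
  have h2 : Vtx.reg σ (l + 1) a (300 * i' + a) ∈ N.F S (y + 300) := by
    rcases Nat.even_or_odd i' with he | ho
    · obtain ⟨k, hk⟩ := he
      have e1 : 300 * i' + a = 600 * (i' / 2) + a := by omega
      rw [e1]
      exact Net.F_mono (by omega) h0
    · obtain ⟨k, hk⟩ := ho
      have e1 : 300 * i' + a = 600 * (i' / 2) + a + 300 := by omega
      rw [e1]
      rcases h1 300 le_rfl with h | h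
      · exact h
      · omega
  -- (2) down the column
  have h3 : ∀ r, r ≤ a → Vtx.reg σ (l + 1) (a - r) (300 * i' + a) ∈ N.F S (y + 300 + r) := by
    intro r
    induction r with
    | zero => intro _; exact h2
    | succ r ih =>
      intro hr
      have h := ih (by omega)
      have hadj : N.G.Adj (Vtx.reg σ (l + 1) (a - r) (300 * i' + a))
          (Vtx.reg σ (l + 1) (a - (r + 1)) (300 * i' + a)) := by
        apply Net.adj_of_E'
        show σ = σ ∧ σ < 22 + N.K ∧ l + 1 ≤ N.h ∧ l + 1 ≤ N.h ∧ a - (r + 1) < 300 ∧ a - r < 300 ∧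
          300 * i' + a < 600 * 2 ^ N.h ∧ 300 * i' + a < 600 * 2 ^ N.h ∧ _
        rw [← hq]
        exact ⟨rfl, hσ, hl, hl, by omega, by omega, by omega, by omega,
          Or.inr (Or.inl ⟨rfl, by omega, rfl⟩)⟩
      exact hcl (y + 300 + r) (by omega) _ h _ ⟨l + 1, _, _, rfl, Or.inr (by omega)⟩ hadj
  have h4 : Vtx.reg σ (l + 1) 0 (300 * i' + a) ∈ N.F S (y + 300 + a) := by
    have := h3 a le_rfl
    rwa [Nat.sub_self] at this
  -- (3) the edge between the levels
  have h5 : Vtx.reg σ l 299 (600 * i' + a) ∈ N.F S (y + 300 + a + 1) := by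
    have hadj : N.G.Adj (Vtx.reg σ (l + 1) 0 (300 * i' + a)) (Vtx.reg σ l 299 (600 * i' + a)) := by
      apply Net.adj_of_E'
      show σ = σ ∧ σ < 22 + N.K ∧ l ≤ N.h ∧ l + 1 ≤ N.h ∧ 299 < 300 ∧ 0 < 300 ∧
        600 * i' + a < 600 * 2 ^ N.h ∧ 300 * i' + a < 600 * 2 ^ N.h ∧ _
      rw [← hq]
      exact ⟨rfl, hσ, by omega, hl, by omega, by omega, by omega, by omega,
        Or.inr (Or.inr ⟨rfl, rfl, rfl, by omega, by omega⟩)⟩
    exact hcl (y + 300 + a) (by omega) _ h4 _ ⟨l, _, _, rfl, Or.inr (by omega)⟩ hadj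
  -- (4) down the column of level `l`
  have h6 : ∀ r, r ≤ 299 - a →
      Vtx.reg σ l (299 - r) (600 * i' + a) ∈ N.F S (y + 300 + a + 1 + r) := by
    intro r
    induction r with
    | zero => intro _; exact h5
    | succ r ih =>
      intro hr
      have h := ih (by omega)
      have hadj : N.G.Adj (Vtx.reg σ l (299 - r) (600 * i' + a))
          (Vtx.reg σ l (299 - (r + 1)) (600 * i' + a)) := by
        apply Net.adj_of_E'
        show σ = σ ∧ σ < 22 + N.K ∧ l ≤ N.h ∧ l ≤ N.h ∧ 299 - (r + 1) < 300 ∧ 299 - r < 300 ∧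
          600 * i' + a < 600 * 2 ^ N.h ∧ 600 * i' + a < 600 * 2 ^ N.h ∧ _
        rw [← hq]
        exact ⟨rfl, hσ, by omega, by omega, by omega, by omega, by omega, by omega,
          Or.inr (Or.inl ⟨rfl, by omega, rfl⟩)⟩
      exact hcl (y + 300 + a + 1 + r) (by omega) _ h _ ⟨l, _, _, rfl, Or.inr (by omega)⟩ hadj
  have h7 := h6 (299 - a) le_rfl
  rw [show 299 - (299 - a) = a by omega] at h7
  exact Net.F_mono (by omega) h7

end Pool.Agent.Lib.MP_711ea9_lc.FH
end

section

set_option autoImplicit false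

namespace Pool.Agent.Lib.MP_711ea9_lc.FH

open Finset

open scoped Classical in
/-- TASK D1a. At most 80 rounds in a time interval of length at most `Lam` belong to the data part.
Proof. If `t ∈ Ioc i0 i` is not `clk` then (`1 ≤ t`) it is a slot or a guard round, so `t % Lam ∈ Icc 17 96`
(slot: `t % Lam ≤ 16 + e ≤ 23` by `hV.e_le`). The map `t ↦ t % Lam` is injective on `Ioc i0 i` because
`i ≤ i0 + Lam` (two different elements differ by less than `Lam`: use `Nat.div_add_mod`). So the number of non-clk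
rounds is at most `(Icc 17 96).card = 80` (`Finset.card_le_card_of_injOn`); and
`(Ioc i0 i).card = i - i0` splits into clk and non-clk rounds (`Finset.card_filter_add_card_filter_not`). -/
theorem clk_count {N : Net} {k : ℕ} (hV : N.Valid k) {i0 i : ℕ} (h : i ≤ i0 + N.Lam) :
    i - i0 ≤ ((Ioc i0 i).filter (fun t => N.clk t)).card + 80 := by
  have h1 := Finset.card_filter_add_card_filter_not (s := Ioc i0 i) (fun t => N.clk t)
  have h2 : ((Ioc i0 i).filter (fun t => ¬ N.clk t)).card ≤ (Icc 17 96).card := by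
    refine Finset.card_le_card_of_injOn (fun t => t % N.Lam) ?_ ?_
    · intro t ht
      have ht' := Finset.mem_filter.1 (Finset.mem_coe.1 ht)
      have hm := Finset.mem_Ioc.1 ht'.1
      have hc : N.slot t ∨ N.guard t := by
        by_contra hcon
        rw [not_or] at hcon
        exact ht'.2 ⟨by omega, Or.inr hcon⟩
      have he := hV.e_le (t / N.Lam)
      refine Finset.mem_coe.2 (Finset.mem_Icc.2 ?_)
      rcases hc with hc | hc
      · obtain ⟨-, h3, h4⟩ := hc
        exact ⟨h3, by show t % N.Lam ≤ 96; omega⟩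
      · obtain ⟨h3, h4⟩ := hc
        exact ⟨by show 17 ≤ t % N.Lam; omega, h4⟩
    · intro t ht t' ht' he
      have hm := Finset.mem_Ioc.1 (Finset.mem_filter.1 (Finset.mem_coe.1 ht)).1
      have hm' := Finset.mem_Ioc.1 (Finset.mem_filter.1 (Finset.mem_coe.1 ht')).1
      have he' : t ≡ t' [MOD N.Lam] := he
      rcases le_total t t' with hle | hle
      · have hd := (Nat.modEq_iff_dvd' hle).1 he'
        obtain ⟨c, hc⟩ := hd
        rcases Nat.eq_zero_or_pos c with h0 | h0
        · subst h0; omega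
        · have : N.Lam ≤ N.Lam * c := Nat.le_mul_of_pos_right _ h0
          omega
      · have hd := (Nat.modEq_iff_dvd' hle).1 he'.symm
        obtain ⟨c, hc⟩ := hd
        rcases Nat.eq_zero_or_pos c with h0 | h0
        · subst h0; omega
        · have : N.Lam ≤ N.Lam * c := Nat.le_mul_of_pos_right _ h0
          omega
  have h3 : (Icc 17 96).card = 80 := by simp
  rw [h3] at h2
  rw [Nat.card_Ioc] at h1
  omega

/-- TASK D1b. The strands of the clk rounds of a time interval of length at most `K` are different.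
Proof. Unfold `Net.cs`. Both `t, t' ≤ 6`: clear. `t ≤ 6 < t'`: `15 + K + t ≥ 16 + K > 16 + t' % K` (`1 ≤ t` from
`N.clk t`, `K > 0` by `hV.hK`). Both `> 6`: `t % K = t' % K` and `|t - t'| < K` give `t = t'` (`Nat.div_add_mod`). -/
theorem cs_inj {N : Net} {k : ℕ} (hV : N.Valid k) {i0 i t t' : ℕ} (h : i ≤ i0 + N.K)
    (ht : t ∈ Ioc i0 i) (ht' : t' ∈ Ioc i0 i) (hc : N.clk t) (hc' : N.clk t')
    (he : N.cs t = N.cs t') : t = t' := by
  have hK : 0 < N.K := by have := hV.hK; omega
  have hm := Finset.mem_Ioc.1 ht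
  have hm' := Finset.mem_Ioc.1 ht'
  have h1 := hc.1
  have h1' := hc'.1
  have hl := Nat.mod_lt t hK
  have hl' := Nat.mod_lt t' hK
  unfold Net.cs at he
  split_ifs at he with a b b
  · omega
  · omega
  · omega
  · have he' : t ≡ t' [MOD N.K] := by
      show t % N.K = t' % N.K
      omega
    rcases le_total t t' with hle | hle
    · obtain ⟨c, hc⟩ := (Nat.modEq_iff_dvd' hle).1 he'
      rcases Nat.eq_zero_or_pos c with h0 | h0
      · subst h0; omega
      · have : N.K ≤ N.K * c := Nat.le_mul_of_pos_right _ h0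
        omega
    · obtain ⟨c, hc⟩ := (Nat.modEq_iff_dvd' hle).1 he'.symm
      rcases Nat.eq_zero_or_pos c with h0 | h0
      · subst h0; omega
      · have : N.K ≤ N.K * c := Nat.le_mul_of_pos_right _ h0
        omega

/-- TASK D1c. Strands of clk rounds. `K > 0` by `hV.hK`; `1 ≤ t` by `hc`. -/
theorem cs_bounds {N : Net} {k : ℕ} (hV : N.Valid k) {t : ℕ} (hc : N.clk t) :
    16 ≤ N.cs t ∧ N.cs t < 22 + N.K := by
  have hK : 0 < N.K := by have := hV.hK; omega
  have h1 := hc.1
  have hl := Nat.mod_lt t hK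
  unfold Net.cs
  split_ifs with a
  · omega
  · omega

/-- TASK D1d. The door of a clk round exists. Case `t ≤ 6`: `max t 6 = 6`, first alternative of `Net.isDoor`
(`1 ≤ t` by `hc`). Case `t ≥ 7`: `max t 6 = t`, second alternative; `N.own t = 16 + t % K` as `t` is no guard round. -/
theorem isDoor_clk {N : Net} {k : ℕ} (hV : N.Valid k) {t : ℕ} (hc : N.clk t) (hT : t ≤ N.T) :
    N.isDoor (N.cs t) (max t 6) := by
  have h1 := hc.1
  by_cases h6 : t ≤ 6
  · left
    have : max t 6 = 6 := by omega
    unfold Net.cs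
    rw [if_pos h6]
    omega
  · right
    have hm : max t 6 = t := by omega
    rw [hm]
    rcases hc.2 with h | ⟨h2, h3⟩
    · omega
    · refine ⟨by omega, hT, h2, ?_⟩
      have h4 : ¬ (33 ≤ t % N.Lam ∧ t % N.Lam ≤ 96) := h3
      unfold Net.cs Net.own
      rw [if_neg h6, if_neg h4]

end Pool.Agent.Lib.MP_711ea9_lc.FH
end

section

set_option autoImplicit false

namespace Pool.Agent.Lib.MP_711ea9_lc.FH

open Finset

/-- TASK D2. In a clk round `t > i0` the door burns, or a vertex of the strand is due.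
Proof. Let `σ = N.cs t`, `d = max t 6`, `16 ≤ σ < 22 + K` (`cs_bounds`). Claim: for all `s` with `s ≤ d - 1`:
either some `path σ j` with `i0 < j ≤ s` is in `H j`, or (`1 ≤ s → path σ s ∈ F s`). Induction on `s`.
`s = 0` clear. Step `s → s+1 ≤ d - 1` (`≤ N.T`, because `t ≤ N.T` and `N.T ≥ 16` by `hV.hT`): if the first
alternative holds for `s`, keep it. Otherwise: if `s + 1 ≤ i0` then `6 ≤ i0`, `t ≥ 7`, `σ = 16 + t % K < 16 + K`, and
`hp` gives `path σ (s+1) ∈ F (s+1)`. If `s + 1 > i0`: `path σ (s+1)` is next to `path σ s ∈ F s` (or to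
`src 0 ∈ F 0` for `s = 0`; `Net.src_mem_F`), so it is in `F (s+1)` or in `H (s+1)` (`Net.burn_or_due`).
Finally `s = d - 1 ≥ 5 ≥ 1`: in the first case `v = path σ j ∈ H j ⊆ H d`. Otherwise `path σ (d-1) ∈ F (d-1)` is next to
`door σ d` (`isDoor_clk`), which is in `F d` or in `H d`. -/
theorem clk_unit {N : Net} {k : ℕ} (hV : N.Valid k) {S : Set Vtx} {i0 t : ℕ}
    (h0 : i0 = 0 ∨ 6 ≤ i0)
    (hp : ∀ σ s, σ < 16 + N.K → 1 ≤ s → s ≤ i0 → Vtx.path σ s ∈ N.F S s)
    (ht0 : i0 < t) (htT : t ≤ N.T) (hc : N.clk t) :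
    Vtx.door (N.cs t) (max t 6) ∈ N.F S (max t 6) ∨
    ∃ v ∈ N.H S (max t 6), (∃ j, i0 < j ∧ j < max t 6 ∧ v = Vtx.path (N.cs t) j) ∨
      v = Vtx.door (N.cs t) (max t 6) := by
  have hb := cs_bounds hV hc
  have hdoor := isDoor_clk hV hc htT
  have hT16 : 16 ≤ N.T := by
    have := hV.hT
    have h2 : N.rho 0 ≤ N.rho N.nw := Net.rho_mono (Nat.zero_le _)
    have h3 : N.rho 0 = 16 := by simp [Net.rho]
    omega
  set σ := N.cs t with hσ
  have hd6 : 6 ≤ max t 6 := le_max_right _ _
  have hdT : max t 6 ≤ N.T := max_le htT (by omega)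
  have hdt : t ≤ 6 → max t 6 = 6 := fun h => max_eq_right h
  generalize max t 6 = d at *
  have claim : ∀ s, s ≤ d - 1 → (∃ j, i0 < j ∧ j ≤ s ∧ Vtx.path σ j ∈ N.H S j) ∨
      (1 ≤ s → Vtx.path σ s ∈ N.F S s) := by
    intro s
    induction s with
    | zero => intro _; exact Or.inr (fun h => absurd h (by omega))
    | succ s ih =>
      intro hs
      have ih' := ih (by omega)
      clear ih
      rcases ih' with ⟨j, h1, h2, h3⟩ | h
      · exact Or.inl ⟨j, h1, by omega, h3⟩
      · by_cases hsi : s + 1 ≤ i0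
        · right
          intro _
          have h6 : 6 ≤ i0 := by omega
          have ht7 : 7 ≤ t := by
            by_contra hc7
            have := hdt (by omega)
            omega
          have hKp : 0 < N.K := by have := hV.hK; omega
          have hlt : σ < 16 + N.K := by
            rw [hσ]; unfold Net.cs
            rw [if_neg (by omega)]
            have := Nat.mod_lt t hKp
            omega
          exact hp σ (s + 1) hlt (by omega) hsi
        · have hadj : ∃ u ∈ N.F S s, N.G.Adj u (Vtx.path σ (s + 1)) := by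
            rcases Nat.eq_zero_or_pos s with rfl | hpos
            · refine ⟨Vtx.src 0, Net.src_mem_F 0, Net.adj_of_E ?_⟩
              show _ ∧ _
              exact ⟨rfl, rfl, hb.2⟩
            · refine ⟨Vtx.path σ s, h hpos, Net.adj_of_E ?_⟩
              show _ ∧ _
              exact ⟨rfl, hb.2, hpos, rfl, by omega⟩
          obtain ⟨u, hu, hadj⟩ := hadj
          rcases Net.burn_or_due hu hadj with ⟨_, h'⟩ | ⟨_, h'⟩
          · exact Or.inr (fun _ => h')
          · exact Or.inl ⟨s + 1, by omega, le_rfl, h'⟩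
  rcases claim (d - 1) le_rfl with ⟨j, h1, h2, h3⟩ | h
  · right
    refine ⟨Vtx.path σ j, Net.H_mono (by omega) h3, Or.inl ⟨j, h1, by omega, rfl⟩⟩
  · have hburn := h (by omega)
    have hadj : N.G.Adj (Vtx.path σ (d - 1)) (Vtx.door σ d) := by
      refine Net.adj_of_E ?_
      show _ ∧ _
      exact ⟨rfl, by omega, hdoor⟩
    have hd1 : d - 1 + 1 = d := by omega
    rcases Net.burn_or_due hburn hadj with ⟨_, h'⟩ | ⟨_, h'⟩
    · left
      rwa [hd1] at h'
    · right
      rw [hd1] at h'
      exact ⟨_, h', Or.inr rfl⟩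

end Pool.Agent.Lib.MP_711ea9_lc.FH
end
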