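import Pool.Agent.Lib.MP_711ea9_lc.FH.J1
import Pool.Agent.Lib.MP_711ea9_lc.FH.Sat
import Pool.Agent.Lib.MP_711ea9_lc.FH.Code
import Pool.Agent.Lib.MP_711ea9_lc.FH.L1
import Pool.Agent.Lib.MP_711ea9_lc.Mg.G003

section

set_option autoImplicit false

namespace Pool.Agent.Lib.MP_711ea9_lc.FH

open Finset

/-- `y` is a power of two (closed form). -/
def isp2 (y : ℕ) : Prop :=
  y ≠ 0 ∧ (∑ d ∈ range (y + 1), if d % 2 = 1 ∧ d ≠ 1 ∧ y % d = 0 then 1 else 0) = 0

/-- TASK J4a. Proof: (→) `y = 2 ^ j * m` with `m` odd (`Nat.exists_eq_two_pow_mul_odd`), `m` is an odd divisor, `m ≤ y`, so `m = 1` (a sum of naturals vanishes iff all terms do: `Finset.sum_eq_zero_iff`). (←) odd divisors of `2 ^ j` are 1 (`Nat.Coprime`, or `(Nat.dvd_prime_pow Nat.prime_two).1`). -/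
theorem isp2_iff (y : ℕ) : isp2 y ↔ ∃ j, y = 2 ^ j := by
  unfold isp2
  constructor
  · rintro ⟨h0, hs⟩
    obtain ⟨j, m, hodd, hy⟩ := Nat.exists_eq_two_pow_mul_odd h0
    refine ⟨j, ?_⟩
    have h1 := Finset.sum_eq_zero_iff.mp hs m (by
      rw [Finset.mem_range, Nat.lt_succ_iff]
      rw [hy]
      exact Nat.le_mul_of_pos_left m (by positivity))
    have h2 : m % 2 = 1 := Nat.odd_iff.mp hodd
    have h3 : y % m = 0 := by
      rw [hy]
      exact Nat.mul_mod_left _ _
    by_cases hm : m = 1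
    · rw [hy, hm, mul_one]
    · rw [if_pos ⟨h2, hm, h3⟩] at h1
      exact absurd h1 one_ne_zero
  · rintro ⟨j, rfl⟩
    refine ⟨by positivity, Finset.sum_eq_zero fun d _ => ?_⟩
    rw [if_neg]
    rintro ⟨h1, h2, h3⟩
    have h4 : d ∣ 2 ^ j := Nat.dvd_of_mod_eq_zero h3
    obtain ⟨i, _, hi⟩ := (Nat.dvd_prime_pow Nat.prime_two).1 h4
    rcases Nat.eq_zero_or_pos i with h5 | h5
    · rw [h5, pow_zero] at hi
      exact h2 hi
    · have h6 : 2 ∣ d := by
        rw [hi]
        exact dvd_pow_self 2 h5.ne'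
      omega

open scoped Classical in
/-- TASK J4b. Proof: `{y ≤ x | y power of two}` is the image of `range (log x + 1)` under `2 ^ ·` for `x ≥ 1` (`Nat.pow_le_iff_le_log`/`Nat.le_log_iff_pow_le`), and is empty for `x = 0`. -/
theorem log_eq (x : ℕ) :
    Nat.log 2 x = (∑ y ∈ range (x + 1), if isp2 y then 1 else 0) - 1 := by
  rw [← Finset.card_filter]
  rcases Nat.eq_zero_or_pos x with hx | hx
  · subst hx
    have h1 : (range (0 + 1)).filter isp2 = ∅ := by
      rw [Finset.filter_eq_empty_iff]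
      intro y hy h
      rw [Finset.mem_range] at hy
      exact h.1 (by omega)
    rw [h1]
    simp
  · have h1 : (range (x + 1)).filter isp2 = (range (Nat.log 2 x + 1)).image (fun j => 2 ^ j) := by
      ext y
      rw [Finset.mem_filter, Finset.mem_image, Finset.mem_range]
      constructor
      · rintro ⟨h2, h3⟩
        obtain ⟨j, rfl⟩ := (isp2_iff y).1 h3
        refine ⟨j, ?_, rfl⟩
        rw [Finset.mem_range, Nat.lt_succ_iff]
        exact Nat.le_log_of_pow_le (by norm_num) (by omega)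
      · rintro ⟨j, h2, rfl⟩
        rw [Finset.mem_range, Nat.lt_succ_iff] at h2
        refine ⟨?_, (isp2_iff _).2 ⟨j, rfl⟩⟩
        have h3 : 2 ^ j ≤ 2 ^ Nat.log 2 x := Nat.pow_le_pow_right (by norm_num) h2
        have h4 := Nat.pow_log_le_self 2 hx.ne'
        omega
    rw [h1, Finset.card_image_of_injective _ (Nat.pow_right_injective (le_refl 2)),
      Finset.card_range]
    rfl

open scoped Classical in
/-- TASK J4c. Proof: at most one `y` qualifies, `y = 2 ^ t` (`Nat.log_pow`); it is in the range iff `2 ^ t ≤ x`. -/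
theorem pw_eq (t x : ℕ) :
    (∑ y ∈ range (x + 1), if isp2 y ∧ Nat.log 2 y = t then y else 0) =
      if 2 ^ t ≤ x then 2 ^ t else 0 := by
  have h1 : ∀ y, (isp2 y ∧ Nat.log 2 y = t) ↔ y = 2 ^ t := by
    intro y
    constructor
    · rintro ⟨h2, h3⟩
      obtain ⟨j, rfl⟩ := (isp2_iff y).1 h2
      rw [Nat.log_pow (by norm_num)] at h3
      rw [h3]
    · rintro rfl
      exact ⟨(isp2_iff _).2 ⟨t, rfl⟩, Nat.log_pow (by norm_num) t⟩
  have h2 : ∀ y ∈ range (x + 1), (if isp2 y ∧ Nat.log 2 y = t then y else 0) =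
      if y = 2 ^ t then 2 ^ t else 0 := by
    intro y _
    by_cases h : y = 2 ^ t
    · rw [if_pos ((h1 y).2 h), if_pos h, h]
    · rw [if_neg (fun h3 => h ((h1 y).1 h3)), if_neg h]
  rw [Finset.sum_congr rfl h2, Finset.sum_ite_eq']
  by_cases h : 2 ^ t ≤ x
  · rw [if_pos h, if_pos (Finset.mem_range.2 (by omega))]
  · rw [if_neg h, if_neg (fun h3 => h (by have := Finset.mem_range.1 h3; omega))]

variable {k : ℕ} {f g : (ℕ → ℕ) → (Fin k → ℕ) → ℕ}

/-- TASK J4d. Proof: unfold `isp2`; `Pp.and`, `Pp.ne`, `Pp.eq`, `Cp.sum`, `Cp.ite`, `Cp.weak`, `Cp.var (Fin.last _)`. -/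
theorem Pp.isp2 (hf : Cp f) : Pp (fun A e => isp2 (f A e)) := by
  unfold FH.isp2
  refine Pp.and (Pp.ne hf (Cp.const 0)) (Pp.eq ?_ (Cp.const 0))
  refine Cp.sum (F := fun A e d => if d % 2 = 1 ∧ d ≠ 1 ∧ f A e % d = 0 then 1 else 0)
    (Cp.add hf (Cp.const 1)) ?_
  exact Cp.ite (p := fun A (e : Fin (k + 1) → ℕ) => e (Fin.last k) % 2 = 1 ∧ e (Fin.last k) ≠ 1 ∧
    f A (fun i => e i.castSucc) % e (Fin.last k) = 0)
    (Pp.and (Pp.eq (Cp.mod (Cp.var (Fin.last k)) (Cp.const 2)) (Cp.const 1))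
      (Pp.and (Pp.ne (Cp.var (Fin.last k)) (Cp.const 1))
        (Pp.eq (Cp.mod (Cp.weak hf) (Cp.var (Fin.last k))) (Cp.const 0))))
    (Cp.const 1) (Cp.const 0)

/-- TASK J4e. Proof: `log_eq` with `Cp.congr`, `Cp.sum`, `Cp.ite`. -/
theorem Cp.log (hf : Cp f) : Cp (fun A e => Nat.log 2 (f A e)) := by
  classical
  refine Cp.congr (f := fun A e =>
    (∑ y ∈ range (f A e + 1), if FH.isp2 y then 1 else 0) - 1) ?_ (fun A e => (log_eq _).symm)
  refine Cp.sub ?_ (Cp.const 1)
  refine Cp.sum (F := fun A e y => if FH.isp2 y then 1 else 0) (Cp.add hf (Cp.const 1)) ?_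
  exact Cp.ite (p := fun A (e : Fin (k + 1) → ℕ) => FH.isp2 (e (Fin.last k)))
    (Pp.isp2 (Cp.var (Fin.last k))) (Cp.const 1) (Cp.const 0)

open scoped Classical in
private theorem j4_pw (hf : Cp f) (hg : Cp g) :
    Cp (fun A e => if 2 ^ (g A e) ≤ f A e then 2 ^ (g A e) else 0) := by
  refine Cp.congr (f := fun A e =>
    ∑ y ∈ range (f A e + 1), if FH.isp2 y ∧ Nat.log 2 y = g A e then y else 0) ?_
    (fun A e => pw_eq _ _)
  refine Cp.sum (F := fun A e y => if FH.isp2 y ∧ Nat.log 2 y = g A e then y else 0)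
    (Cp.add hf (Cp.const 1)) ?_
  exact Cp.ite (p := fun A (e : Fin (k + 1) → ℕ) => FH.isp2 (e (Fin.last k)) ∧
    Nat.log 2 (e (Fin.last k)) = g A (fun i => e i.castSucc))
    (Pp.and (Pp.isp2 (Cp.var (Fin.last k))) (Pp.eq (Cp.log (Cp.var (Fin.last k))) (Cp.weak hg)))
    (Cp.var (Fin.last k)) (Cp.const 0)

/-- TASK J4f. Proof: `x % 2 ^ t = x % (pw t x)`, `pw` as in `pw_eq`: if `2 ^ t ≤ x` clear, otherwise `x % 2 ^ t = x = x % 0`. -/
theorem Cp.modpow (hf : Cp f) (hg : Cp g) : Cp (fun A e => f A e % 2 ^ (g A e)) := by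
  refine Cp.congr (Cp.mod hf (j4_pw hf hg)) (fun A e => ?_)
  beta_reduce
  by_cases h : 2 ^ (g A e) ≤ f A e
  · rw [if_pos h]
  · rw [if_neg h, Nat.mod_zero, Nat.mod_eq_of_lt (by omega)]

/-- TASK J4g. Proof: `x / 2 ^ t = x / (pw t x)`: if `x < 2 ^ t` both sides are 0 (`x / 0 = 0`). -/
theorem Cp.divpow (hf : Cp f) (hg : Cp g) : Cp (fun A e => f A e / 2 ^ (g A e)) := by
  refine Cp.congr (Cp.div hf (j4_pw hf hg)) (fun A e => ?_)
  beta_reduce
  by_cases h : 2 ^ (g A e) ≤ f A e
  · rw [if_pos h]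
  · rw [if_neg h, Nat.div_zero, Nat.div_eq_of_lt (by omega)]

/-- TASK J4h. Proof: `2 ^ (log x + 1) = 2 * pw (log x) (max x 1)`: for `x ≥ 1`, `2 ^ log x ≤ x` (`Nat.pow_log_le_self`); for `x = 0` it is 2. Use the bound `x + 1` instead of `max x 1`. -/
theorem Cp.powlog (hf : Cp f) : Cp (fun A e => 2 ^ (Nat.log 2 (f A e) + 1)) := by
  refine Cp.congr (Cp.mul (Cp.const 2) (j4_pw (Cp.add hf (Cp.const 1)) (Cp.log hf)))
    (fun A e => ?_)
  beta_reduce
  have h : 2 ^ Nat.log 2 (f A e) ≤ f A e + 1 := by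
    rcases Nat.eq_zero_or_pos (f A e) with h0 | h0
    · rw [h0]
      simp
    · exact (Nat.pow_log_le_self 2 h0.ne').trans (Nat.le_succ _)
  rw [if_pos h, pow_succ, mul_comm]

end Pool.Agent.Lib.MP_711ea9_lc.FH
end

section

set_option autoImplicit false

namespace Pool.Agent.Lib.MP_711ea9_lc.FH

open Finset

variable {k : ℕ} {m t x w p b c : (ℕ → ℕ) → (Fin k → ℕ) → ℕ}

/-- TASK J5 (all lemmas: unfold the definition, apply the closure lemmas `Cp.*`, `Pp.*`; inside a `Cp.sum` the old functions are used through `Cp.weak`, the new variable is `Cp.var (Fin.last _)`).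
`aa = 2 * Nat.log 2 (3 * M) + 1`. -/
theorem cp_aa (hm : Cp m) : Cp (fun A e => Sn.aa (m A e)) := by
  exact Cp.add (Cp.mul (Cp.const 2) (Cp.log (Cp.mul (Cp.const 3) hm))) (Cp.const 1)

theorem cp_ky0 (hm : Cp m) (hx : Cp x) : Cp (fun A e => Sn.ky0 A (m A e) (x A e)) := by
  exact Cp.add (Cp.mul (Cp.div (Cp.arr hx) (Cp.const 2)) (Cp.mul (Cp.const 3) hm)) hx

/-- `rkn (Sn.ky0 A M) (3 * M) κ` -/
theorem cp_rk0 (hm : Cp m) (hx : Cp x) :
    Cp (fun A e => rkn (Sn.ky0 A (m A e)) (3 * m A e) (x A e)) := by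
  unfold rkn
  refine Cp.sum (F := fun A e κ' =>
    if Sn.ky0 A (m A e) κ' < Sn.ky0 A (m A e) (x A e) then 1 else 0)
    (Cp.mul (Cp.const 3) hm) ?_
  exact Cp.ite (p := fun A (e : Fin (k + 1) → ℕ) =>
    Sn.ky0 A (m A (fun i => e i.castSucc)) (e (Fin.last k)) <
      Sn.ky0 A (m A (fun i => e i.castSucc)) (x A (fun i => e i.castSucc)))
    (Pp.lt (cp_ky0 (Cp.weak hm) (Cp.var (Fin.last k))) (Cp.weak (cp_ky0 hm hx)))
    (Cp.const 1) (Cp.const 0)

/-- `κ % 2 ^ (t - 1)` by `Cp.modpow` -/
theorem cp_ky (hm : Cp m) (ht : Cp t) (hx : Cp x) :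
    Cp (fun A e => Sn.ky A (m A e) (t A e) (x A e)) := by
  unfold Sn.ky
  exact Cp.ite (p := fun A e => t A e = 0) (Pp.eq ht (Cp.const 0)) (cp_ky0 hm hx)
    (Cp.add (Cp.mul (Cp.modpow hx (Cp.sub ht (Cp.const 1))) (Cp.mul (Cp.const 3) hm))
      (cp_rk0 hm hx))

theorem cp_rk (hm : Cp m) (ht : Cp t) (hx : Cp x) :
    Cp (fun A e => Sn.rk A (m A e) (t A e) (x A e)) := by
  unfold Sn.rk rkn
  refine Cp.sum (F := fun A e κ' =>
    if Sn.ky A (m A e) (t A e) κ' < Sn.ky A (m A e) (t A e) (x A e) then 1 else 0)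
    (Cp.mul (Cp.const 3) hm) ?_
  exact Cp.ite (p := fun A (e : Fin (k + 1) → ℕ) =>
    Sn.ky A (m A (fun i => e i.castSucc)) (t A (fun i => e i.castSucc)) (e (Fin.last k)) <
      Sn.ky A (m A (fun i => e i.castSucc)) (t A (fun i => e i.castSucc))
        (x A (fun i => e i.castSucc)))
    (Pp.lt (cp_ky (Cp.weak hm) (Cp.weak ht) (Cp.var (Fin.last k))) (Cp.weak (cp_ky hm ht hx)))
    (Cp.const 1) (Cp.const 0)

theorem cp_ps (hm : Cp m) (ht : Cp t) (hx : Cp x) :
    Cp (fun A e => Sn.ps A (m A e) (t A e) (x A e)) := by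
  unfold Sn.ps
  exact Cp.ite (p := fun A e => t A e % 2 = 1) (Pp.eq (Cp.mod ht (Cp.const 2)) (Cp.const 1))
    (Cp.sub (Cp.sub (Cp.mul (Cp.const 3) hm) (Cp.const 1)) (cp_rk hm ht hx)) (cp_rk hm ht hx)

theorem cp_el (hm : Cp m) (ht : Cp t) (hx : Cp x) :
    Cp (fun A e => Sn.el A (m A e) (t A e) (x A e)) := by
  unfold Sn.el
  refine Cp.sum (F := fun A e κ => if Sn.ps A (m A e) (t A e) κ = x A e then κ else 0)
    (Cp.mul (Cp.const 3) hm) ?_
  exact Cp.ite (p := fun A (e : Fin (k + 1) → ℕ) =>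
    Sn.ps A (m A (fun i => e i.castSucc)) (t A (fun i => e i.castSucc)) (e (Fin.last k)) =
      x A (fun i => e i.castSucc))
    (Pp.eq (cp_ps (Cp.weak hm) (Cp.weak ht) (Cp.var (Fin.last k))) (Cp.weak hx))
    (Cp.var (Fin.last k)) (Cp.const 0)

theorem cp_wn (hm : Cp m) (ht : Cp t) (hx : Cp x) :
    Cp (fun A e => Sn.wn A (m A e) (t A e) (x A e)) := by
  unfold Sn.wn
  exact Cp.add (Cp.mul ht (Cp.add (Cp.mul (Cp.const 3) hm) (Cp.const 1))) (cp_ps hm ht hx)

theorem cp_c0 (hm : Cp m) : Cp (fun A e => Sn.c0 (m A e)) := by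
  unfold Sn.c0
  exact Cp.mul (Cp.add (cp_aa hm) (Cp.const 2)) (Cp.add (Cp.mul (Cp.const 3) hm) (Cp.const 1))

theorem cp_tt (hm : Cp m) (hw : Cp w) : Cp (fun A e => Sn.tt (m A e) (w A e)) := by
  unfold Sn.tt
  exact Cp.div hw (Cp.add (Cp.mul (Cp.const 3) hm) (Cp.const 1))

theorem cp_xx (hm : Cp m) (hw : Cp w) : Cp (fun A e => Sn.xx (m A e) (w A e)) := by
  unfold Sn.xx
  exact Cp.mod hw (Cp.add (Cp.mul (Cp.const 3) hm) (Cp.const 1))

theorem cp_kap (hm : Cp m) (hw : Cp w) : Cp (fun A e => Sn.kap A (m A e) (w A e)) := by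
  unfold Sn.kap
  exact cp_el hm (cp_tt hm hw) (cp_xx hm hw)

theorem cp_gate (hm : Cp m) (hw : Cp w) : Cp (fun A e => Sn.gate A (m A e) (w A e)) := by
  unfold Sn.gate
  refine Cp.ite (p := fun A e => Sn.c0 (m A e) ≤ w A e) (Pp.le (cp_c0 hm) hw) ?_ ?_
  · exact Cp.ite (p := fun A e => w A e < Sn.c0 (m A e) + m A e)
      (Pp.lt hw (Cp.add (cp_c0 hm) hm)) (Cp.const 6) (Cp.const 0)
  refine Cp.ite (p := fun A e => Sn.xx (m A e) (w A e) = 3 * m A e)
    (Pp.eq (cp_xx hm hw) (Cp.mul (Cp.const 3) hm)) ?_ ?_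
  · exact Cp.ite (p := fun A e => Sn.tt (m A e) (w A e) = 0)
      (Pp.eq (cp_tt hm hw) (Cp.const 0)) (Cp.const 4) (Cp.const 0)
  refine Cp.ite (p := fun A e => Sn.tt (m A e) (w A e) = 0)
    (Pp.eq (cp_tt hm hw) (Cp.const 0)) ?_ (Cp.const 5)
  refine Cp.ite (p := fun A e => Sn.xx (m A e) (w A e) = 0)
    (Pp.eq (cp_xx hm hw) (Cp.const 0)) (Cp.const 1) ?_
  exact Cp.ite (p := fun A e => A (Sn.el A (m A e) 0 (Sn.xx (m A e) (w A e))) / 2 =
      A (Sn.el A (m A e) 0 (Sn.xx (m A e) (w A e) - 1)) / 2)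
    (Pp.eq (Cp.div (Cp.arr (cp_el hm (Cp.const 0) (cp_xx hm hw))) (Cp.const 2))
      (Cp.div (Cp.arr (cp_el hm (Cp.const 0) (Cp.sub (cp_xx hm hw) (Cp.const 1)))) (Cp.const 2)))
    (Cp.const 2) (Cp.const 3)

/-- `κ / 2 ^ (t - 2)` by `Cp.divpow` -/
theorem cp_rpg (hm : Cp m) (hw : Cp w) : Cp (fun A e => Sn.rpg A (m A e) (w A e)) := by
  unfold Sn.rpg
  refine Cp.ite (p := fun A e => Sn.tt (m A e) (w A e) = 0)
    (Pp.eq (cp_tt hm hw) (Cp.const 0)) ?_ ?_
  · exact Cp.mod (Cp.add (cp_xx hm hw) (Cp.const 1)) (Cp.const 2)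
  refine Cp.ite (p := fun A e => Sn.tt (m A e) (w A e) = 1)
    (Pp.eq (cp_tt hm hw) (Cp.const 1)) ?_ ?_
  · exact Cp.mod (cp_ps hm (Cp.const 0) (cp_kap hm hw)) (Cp.const 2)
  exact Cp.add (Cp.mul (Cp.const 2) (Cp.mod (Cp.sub (cp_tt hm hw) (Cp.const 1)) (Cp.const 2)))
    (Cp.mod (Cp.divpow (cp_kap hm hw) (Cp.sub (cp_tt hm hw) (Cp.const 2))) (Cp.const 2))

theorem cp_wpg (hm : Cp m) (hw : Cp w) : Cp (fun A e => Sn.wpg A (m A e) (w A e)) := by
  unfold Sn.wpg
  refine Cp.ite (p := fun A e => Sn.tt (m A e) (w A e) = 0)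
    (Pp.eq (cp_tt hm hw) (Cp.const 0)) ?_ ?_
  · exact Cp.mod (cp_xx hm hw) (Cp.const 2)
  refine Cp.ite (p := fun A e => Sn.tt (m A e) (w A e) ≤ Sn.aa (m A e))
    (Pp.le (cp_tt hm hw) (cp_aa hm)) ?_ ?_
  · exact Cp.add (Cp.mul (Cp.const 2) (Cp.mod (cp_tt hm hw) (Cp.const 2)))
      (Cp.mod (Cp.divpow (cp_kap hm hw) (Cp.sub (cp_tt hm hw) (Cp.const 1))) (Cp.const 2))
  exact Cp.add (Cp.const 4) (Cp.mod (cp_kap hm hw) (Cp.const 3))

/-- `decide_eq_true_eq`, `Pp.iff_of` -/
theorem pp_rd (hm : Cp m) (hw : Cp w) (hp : Cp p) :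
    Pp (fun A e => Sn.rd A (m A e) (w A e) (p A e) = true) := by
  refine Pp.iff_of (Pp.or (Pp.and (Pp.le (Cp.const 2) (cp_gate hm hw))
    (Pp.and (Pp.le (cp_gate hm hw) (Cp.const 5)) (Pp.eq hp (cp_rpg hm hw))))
    (Pp.and (Pp.eq (cp_gate hm hw) (Cp.const 6)) (Pp.and (Pp.le (Cp.const 4) hp)
      (Pp.le hp (Cp.const 6))))) (fun A e => ?_)
  unfold Sn.rd
  rw [decide_eq_true_eq]

theorem pp_wr (hm : Cp m) (hw : Cp w) (hp : Cp p) :
    Pp (fun A e => Sn.wr A (m A e) (w A e) (p A e) = true) := by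
  refine Pp.iff_of (Pp.and (Pp.or (Pp.eq (cp_gate hm hw) (Cp.const 1))
    (Pp.or (Pp.eq (cp_gate hm hw) (Cp.const 2)) (Pp.or (Pp.eq (cp_gate hm hw) (Cp.const 3))
      (Pp.eq (cp_gate hm hw) (Cp.const 5))))) (Pp.eq hp (cp_wpg hm hw))) (fun A e => ?_)
  unfold Sn.wr
  rw [decide_eq_true_eq]

end Pool.Agent.Lib.MP_711ea9_lc.FH
end

section

set_option autoImplicit false
set_option linter.unreachableTactic false
set_option linter.unusedTactic false
set_option linter.unusedVariables false

namespace Pool.Agent.Lib.MP_711ea9_lc.FH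

open Finset

variable {k : ℕ} {m t x w p b c σ : (ℕ → ℕ) → (Fin k → ℕ) → ℕ}

theorem cp_l1 (hm : Cp m) (hw : Cp w) (hp : Cp p) :
    Cp (fun A e => Sn.l1 A (m A e) (w A e) (p A e)) := by
  unfold Sn.l1
  with_reducible repeat' first
    | exact hm
    | exact hw
    | exact hp
    | exact Cp.const _
    | exact Cp.var _
    | apply pp_wr
    | apply pp_rd
    | apply cp_wpg
    | apply cp_rpg
    | apply cp_gate
    | apply cp_kap
    | apply cp_xx
    | apply cp_tt
    | apply cp_c0
    | apply cp_wn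
    | apply cp_el
    | apply cp_ps
    | apply cp_rk
    | apply cp_ky
    | apply cp_rk0
    | apply cp_ky0
    | apply cp_aa
    | apply Cp.powlog
    | apply Cp.log
    | apply Cp.modpow
    | apply Cp.divpow
    | apply Cp.add
    | apply Cp.sub
    | apply Cp.mul
    | apply Cp.div
    | apply Cp.mod
    | apply Cp.ite
    | apply Cp.arr
    | apply Pp.or
    | apply Pp.and
    | apply Pp.ne
    | apply Pp.eq
    | apply Pp.le
    | apply Pp.lt
    | apply Pp.not

theorem cp_l2 (hm : Cp m) (hw : Cp w) (hp : Cp p) :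
    Cp (fun A e => Sn.l2 A (m A e) (w A e) (p A e)) := by
  unfold Sn.l2
  with_reducible repeat' first
    | exact hm
    | exact hw
    | exact hp
    | exact Cp.const _
    | exact Cp.var _
    | apply cp_l1
    | apply pp_wr
    | apply pp_rd
    | apply cp_wpg
    | apply cp_rpg
    | apply cp_gate
    | apply cp_kap
    | apply cp_xx
    | apply cp_tt
    | apply cp_c0
    | apply cp_wn
    | apply cp_el
    | apply cp_ps
    | apply cp_rk
    | apply cp_ky
    | apply cp_rk0
    | apply cp_ky0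
    | apply cp_aa
    | apply Cp.powlog
    | apply Cp.log
    | apply Cp.modpow
    | apply Cp.divpow
    | apply Cp.add
    | apply Cp.sub
    | apply Cp.mul
    | apply Cp.div
    | apply Cp.mod
    | apply Cp.ite
    | apply Cp.arr
    | apply Pp.or
    | apply Pp.and
    | apply Pp.ne
    | apply Pp.eq
    | apply Pp.le
    | apply Pp.lt
    | apply Pp.not

theorem cp_rel (hm : Cp m) (hw : Cp w) (hp : Cp p) :
    Cp (fun A e => Sn.rel A (m A e) (w A e) (p A e)) := by
  unfold Sn.rel
  with_reducible repeat' first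
    | exact hm
    | exact hw
    | exact hp
    | exact Cp.const _
    | exact Cp.var _
    | apply cp_l2
    | apply cp_l1
    | apply pp_wr
    | apply pp_rd
    | apply cp_wpg
    | apply cp_rpg
    | apply cp_gate
    | apply cp_kap
    | apply cp_xx
    | apply cp_tt
    | apply cp_c0
    | apply cp_wn
    | apply cp_el
    | apply cp_ps
    | apply cp_rk
    | apply cp_ky
    | apply cp_rk0
    | apply cp_ky0
    | apply cp_aa
    | apply Cp.powlog
    | apply Cp.log
    | apply Cp.modpow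
    | apply Cp.divpow
    | apply Cp.add
    | apply Cp.sub
    | apply Cp.mul
    | apply Cp.div
    | apply Cp.mod
    | apply Cp.ite
    | apply Cp.arr
    | apply Pp.or
    | apply Pp.and
    | apply Pp.ne
    | apply Pp.eq
    | apply Pp.le
    | apply Pp.lt
    | apply Pp.not

theorem cp_len (hm : Cp m) (hb : Cp b) (hw : Cp w) (hc : Cp c) :
    Cp (fun A e => Sn.len A (m A e) (b A e) (w A e) (c A e)) := by
  unfold Sn.len Sn.ab
  with_reducible repeat' first
    | exact hm
    | exact hb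
    | exact hw
    | exact hc
    | exact Cp.const _
    | exact Cp.var _
    | apply cp_rel
    | apply cp_l2
    | apply cp_l1
    | apply pp_wr
    | apply pp_rd
    | apply cp_wpg
    | apply cp_rpg
    | apply cp_gate
    | apply cp_kap
    | apply cp_xx
    | apply cp_tt
    | apply cp_c0
    | apply cp_wn
    | apply cp_el
    | apply cp_ps
    | apply cp_rk
    | apply cp_ky
    | apply cp_rk0
    | apply cp_ky0
    | apply cp_aa
    | apply Cp.powlog
    | apply Cp.log
    | apply Cp.modpow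
    | apply Cp.divpow
    | apply Cp.add
    | apply Cp.sub
    | apply Cp.mul
    | apply Cp.div
    | apply Cp.mod
    | apply Cp.ite
    | apply Cp.arr
    | apply Pp.or
    | apply Pp.and
    | apply Pp.ne
    | apply Pp.eq
    | apply Pp.le
    | apply Pp.lt
    | apply Pp.not

theorem cp_e (hm : Cp m) (hw : Cp w) :
    Cp (fun A e => Sn.e A (m A e) (w A e)) := by
  unfold Sn.e
  with_reducible repeat' first
    | exact hm
    | exact hw
    | exact Cp.const _
    | exact Cp.var _
    | apply cp_len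
    | apply cp_rel
    | apply cp_l2
    | apply cp_l1
    | apply pp_wr
    | apply pp_rd
    | apply cp_wpg
    | apply cp_rpg
    | apply cp_gate
    | apply cp_kap
    | apply cp_xx
    | apply cp_tt
    | apply cp_c0
    | apply cp_wn
    | apply cp_el
    | apply cp_ps
    | apply cp_rk
    | apply cp_ky
    | apply cp_rk0
    | apply cp_ky0
    | apply cp_aa
    | apply Cp.powlog
    | apply Cp.log
    | apply Cp.modpow
    | apply Cp.divpow
    | apply Cp.add
    | apply Cp.sub
    | apply Cp.mul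
    | apply Cp.div
    | apply Cp.mod
    | apply Cp.ite
    | apply Cp.arr
    | apply Pp.or
    | apply Pp.and
    | apply Pp.ne
    | apply Pp.eq
    | apply Pp.le
    | apply Pp.lt
    | apply Pp.not

theorem cp_nw (hm : Cp m) :
    Cp (fun A e => Sn.nw (m A e)) := by
  unfold Sn.nw
  with_reducible repeat' first
    | exact hm
    | exact Cp.const _
    | exact Cp.var _
    | apply cp_e
    | apply cp_len
    | apply cp_rel
    | apply cp_l2
    | apply cp_l1
    | apply pp_wr
    | apply pp_rd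
    | apply cp_wpg
    | apply cp_rpg
    | apply cp_gate
    | apply cp_kap
    | apply cp_xx
    | apply cp_tt
    | apply cp_c0
    | apply cp_wn
    | apply cp_el
    | apply cp_ps
    | apply cp_rk
    | apply cp_ky
    | apply cp_rk0
    | apply cp_ky0
    | apply cp_aa
    | apply Cp.powlog
    | apply Cp.log
    | apply Cp.modpow
    | apply Cp.divpow
    | apply Cp.add
    | apply Cp.sub
    | apply Cp.mul
    | apply Cp.div
    | apply Cp.mod
    | apply Cp.ite
    | apply Cp.arr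
    | apply Pp.or
    | apply Pp.and
    | apply Pp.ne
    | apply Pp.eq
    | apply Pp.le
    | apply Pp.lt
    | apply Pp.not

theorem cp_K (hm : Cp m) :
    Cp (fun A e => Sn.K (m A e)) := by
  unfold Sn.K Sn.k0 Sn.tau Sn.hm
  with_reducible repeat' first
    | exact hm
    | exact Cp.const _
    | exact Cp.var _
    | apply cp_nw
    | apply cp_e
    | apply cp_len
    | apply cp_rel
    | apply cp_l2
    | apply cp_l1
    | apply pp_wr
    | apply pp_rd
    | apply cp_wpg
    | apply cp_rpg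
    | apply cp_gate
    | apply cp_kap
    | apply cp_xx
    | apply cp_tt
    | apply cp_c0
    | apply cp_wn
    | apply cp_el
    | apply cp_ps
    | apply cp_rk
    | apply cp_ky
    | apply cp_rk0
    | apply cp_ky0
    | apply cp_aa
    | apply Cp.powlog
    | apply Cp.log
    | apply Cp.modpow
    | apply Cp.divpow
    | apply Cp.add
    | apply Cp.sub
    | apply Cp.mul
    | apply Cp.div
    | apply Cp.mod
    | apply Cp.ite
    | apply Cp.arr
    | apply Pp.or
    | apply Pp.and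
    | apply Pp.ne
    | apply Pp.eq
    | apply Pp.le
    | apply Pp.lt
    | apply Pp.not

theorem cp_Lam (hm : Cp m) :
    Cp (fun A e => Sn.Lam (m A e)) := by
  unfold Sn.Lam
  with_reducible repeat' first
    | exact hm
    | exact Cp.const _
    | exact Cp.var _
    | apply cp_K
    | apply cp_nw
    | apply cp_e
    | apply cp_len
    | apply cp_rel
    | apply cp_l2
    | apply cp_l1
    | apply pp_wr
    | apply pp_rd
    | apply cp_wpg
    | apply cp_rpg
    | apply cp_gate
    | apply cp_kap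
    | apply cp_xx
    | apply cp_tt
    | apply cp_c0
    | apply cp_wn
    | apply cp_el
    | apply cp_ps
    | apply cp_rk
    | apply cp_ky
    | apply cp_rk0
    | apply cp_ky0
    | apply cp_aa
    | apply Cp.powlog
    | apply Cp.log
    | apply Cp.modpow
    | apply Cp.divpow
    | apply Cp.add
    | apply Cp.sub
    | apply Cp.mul
    | apply Cp.div
    | apply Cp.mod
    | apply Cp.ite
    | apply Cp.arr
    | apply Pp.or
    | apply Pp.and
    | apply Pp.ne
    | apply Pp.eq
    | apply Pp.le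
    | apply Pp.lt
    | apply Pp.not

theorem cp_T (hm : Cp m) :
    Cp (fun A e => Sn.T (m A e)) := by
  unfold Sn.T
  with_reducible repeat' first
    | exact hm
    | exact Cp.const _
    | exact Cp.var _
    | apply cp_Lam
    | apply cp_K
    | apply cp_nw
    | apply cp_e
    | apply cp_len
    | apply cp_rel
    | apply cp_l2
    | apply cp_l1
    | apply pp_wr
    | apply pp_rd
    | apply cp_wpg
    | apply cp_rpg
    | apply cp_gate
    | apply cp_kap
    | apply cp_xx
    | apply cp_tt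
    | apply cp_c0
    | apply cp_wn
    | apply cp_el
    | apply cp_ps
    | apply cp_rk
    | apply cp_ky
    | apply cp_rk0
    | apply cp_ky0
    | apply cp_aa
    | apply Cp.powlog
    | apply Cp.log
    | apply Cp.modpow
    | apply Cp.divpow
    | apply Cp.add
    | apply Cp.sub
    | apply Cp.mul
    | apply Cp.div
    | apply Cp.mod
    | apply Cp.ite
    | apply Cp.arr
    | apply Pp.or
    | apply Pp.and
    | apply Pp.ne
    | apply Pp.eq
    | apply Pp.le
    | apply Pp.lt
    | apply Pp.not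

theorem cp_kk (hm : Cp m) :
    Cp (fun A e => Sn.kk (m A e)) := by
  unfold Sn.kk
  with_reducible repeat' first
    | exact hm
    | exact Cp.const _
    | exact Cp.var _
    | apply cp_T
    | apply cp_Lam
    | apply cp_K
    | apply cp_nw
    | apply cp_e
    | apply cp_len
    | apply cp_rel
    | apply cp_l2
    | apply cp_l1
    | apply pp_wr
    | apply pp_rd
    | apply cp_wpg
    | apply cp_rpg
    | apply cp_gate
    | apply cp_kap
    | apply cp_xx
    | apply cp_tt
    | apply cp_c0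
    | apply cp_wn
    | apply cp_el
    | apply cp_ps
    | apply cp_rk
    | apply cp_ky
    | apply cp_rk0
    | apply cp_ky0
    | apply cp_aa
    | apply Cp.powlog
    | apply Cp.log
    | apply Cp.modpow
    | apply Cp.divpow
    | apply Cp.add
    | apply Cp.sub
    | apply Cp.mul
    | apply Cp.div
    | apply Cp.mod
    | apply Cp.ite
    | apply Cp.arr
    | apply Pp.or
    | apply Pp.and
    | apply Pp.ne
    | apply Pp.eq
    | apply Pp.le
    | apply Pp.lt
    | apply Pp.not

theorem cp_h (hm : Cp m) :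
    Cp (fun A e => Sn.h (m A e)) := by
  unfold Sn.h
  with_reducible repeat' first
    | exact hm
    | exact Cp.const _
    | exact Cp.var _
    | apply cp_kk
    | apply cp_T
    | apply cp_Lam
    | apply cp_K
    | apply cp_nw
    | apply cp_e
    | apply cp_len
    | apply cp_rel
    | apply cp_l2
    | apply cp_l1
    | apply pp_wr
    | apply pp_rd
    | apply cp_wpg
    | apply cp_rpg
    | apply cp_gate
    | apply cp_kap
    | apply cp_xx
    | apply cp_tt
    | apply cp_c0
    | apply cp_wn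
    | apply cp_el
    | apply cp_ps
    | apply cp_rk
    | apply cp_ky
    | apply cp_rk0
    | apply cp_ky0
    | apply cp_aa
    | apply Cp.powlog
    | apply Cp.log
    | apply Cp.modpow
    | apply Cp.divpow
    | apply Cp.add
    | apply Cp.sub
    | apply Cp.mul
    | apply Cp.div
    | apply Cp.mod
    | apply Cp.ite
    | apply Cp.arr
    | apply Pp.or
    | apply Pp.and
    | apply Pp.ne
    | apply Pp.eq
    | apply Pp.le
    | apply Pp.lt
    | apply Pp.not

theorem cp_2h (hm : Cp m) :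
    Cp (fun A e => 2 ^ Sn.h (m A e)) := by
  unfold Sn.h
  with_reducible repeat' first
    | exact hm
    | exact Cp.const _
    | exact Cp.var _
    | apply cp_h
    | apply cp_kk
    | apply cp_T
    | apply cp_Lam
    | apply cp_K
    | apply cp_nw
    | apply cp_e
    | apply cp_len
    | apply cp_rel
    | apply cp_l2
    | apply cp_l1
    | apply pp_wr
    | apply pp_rd
    | apply cp_wpg
    | apply cp_rpg
    | apply cp_gate
    | apply cp_kap
    | apply cp_xx
    | apply cp_tt
    | apply cp_c0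
    | apply cp_wn
    | apply cp_el
    | apply cp_ps
    | apply cp_rk
    | apply cp_ky
    | apply cp_rk0
    | apply cp_ky0
    | apply cp_aa
    | apply Cp.powlog
    | apply Cp.log
    | apply Cp.modpow
    | apply Cp.divpow
    | apply Cp.add
    | apply Cp.sub
    | apply Cp.mul
    | apply Cp.div
    | apply Cp.mod
    | apply Cp.ite
    | apply Cp.arr
    | apply Pp.or
    | apply Pp.and
    | apply Pp.ne
    | apply Pp.eq
    | apply Pp.le
    | apply Pp.lt
    | apply Pp.not

theorem cp_rho (hm : Cp m) (hw : Cp w) :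
    Cp (fun A e => (satNet A (m A e)).rho (w A e)) := by
  show Cp (fun A e => Sn.Lam (m A e) * w A e + 16)
  with_reducible repeat' first
    | exact hm
    | exact hw
    | exact Cp.const _
    | exact Cp.var _
    | apply cp_2h
    | apply cp_h
    | apply cp_kk
    | apply cp_T
    | apply cp_Lam
    | apply cp_K
    | apply cp_nw
    | apply cp_e
    | apply cp_len
    | apply cp_rel
    | apply cp_l2
    | apply cp_l1
    | apply pp_wr
    | apply pp_rd
    | apply cp_wpg
    | apply cp_rpg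
    | apply cp_gate
    | apply cp_kap
    | apply cp_xx
    | apply cp_tt
    | apply cp_c0
    | apply cp_wn
    | apply cp_el
    | apply cp_ps
    | apply cp_rk
    | apply cp_ky
    | apply cp_rk0
    | apply cp_ky0
    | apply cp_aa
    | apply Cp.powlog
    | apply Cp.log
    | apply Cp.modpow
    | apply Cp.divpow
    | apply Cp.add
    | apply Cp.sub
    | apply Cp.mul
    | apply Cp.div
    | apply Cp.mod
    | apply Cp.ite
    | apply Cp.arr
    | apply Pp.or
    | apply Pp.and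
    | apply Pp.ne
    | apply Pp.eq
    | apply Pp.le
    | apply Pp.lt
    | apply Pp.not

theorem pp_slot (hm : Cp m) (ht : Cp t) :
    Pp (fun A e => (satNet A (m A e)).slot (t A e)) := by
  show Pp (fun A e => t A e / Sn.Lam (m A e) < Sn.nw (m A e) ∧ 17 ≤ t A e % Sn.Lam (m A e) ∧
    t A e % Sn.Lam (m A e) ≤ 16 + Sn.e A (m A e) (t A e / Sn.Lam (m A e)))
  with_reducible repeat' first
    | exact hm
    | exact ht
    | exact Cp.const _
    | exact Cp.var _
    | apply cp_rho
    | apply cp_2h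
    | apply cp_h
    | apply cp_kk
    | apply cp_T
    | apply cp_Lam
    | apply cp_K
    | apply cp_nw
    | apply cp_e
    | apply cp_len
    | apply cp_rel
    | apply cp_l2
    | apply cp_l1
    | apply pp_wr
    | apply pp_rd
    | apply cp_wpg
    | apply cp_rpg
    | apply cp_gate
    | apply cp_kap
    | apply cp_xx
    | apply cp_tt
    | apply cp_c0
    | apply cp_wn
    | apply cp_el
    | apply cp_ps
    | apply cp_rk
    | apply cp_ky
    | apply cp_rk0
    | apply cp_ky0
    | apply cp_aa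
    | apply Cp.powlog
    | apply Cp.log
    | apply Cp.modpow
    | apply Cp.divpow
    | apply Cp.add
    | apply Cp.sub
    | apply Cp.mul
    | apply Cp.div
    | apply Cp.mod
    | apply Cp.ite
    | apply Cp.arr
    | apply Pp.or
    | apply Pp.and
    | apply Pp.ne
    | apply Pp.eq
    | apply Pp.le
    | apply Pp.lt
    | apply Pp.not

theorem cp_own (hm : Cp m) (ht : Cp t) :
    Cp (fun A e => (satNet A (m A e)).own (t A e)) := by
  show Cp (fun A e => if 33 ≤ t A e % Sn.Lam (m A e) ∧ t A e % Sn.Lam (m A e) ≤ 96 then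
    (t A e % Sn.Lam (m A e) - 33) / 4 else 16 + t A e % Sn.K (m A e))
  with_reducible repeat' first
    | exact hm
    | exact ht
    | exact Cp.const _
    | exact Cp.var _
    | apply pp_slot
    | apply cp_rho
    | apply cp_2h
    | apply cp_h
    | apply cp_kk
    | apply cp_T
    | apply cp_Lam
    | apply cp_K
    | apply cp_nw
    | apply cp_e
    | apply cp_len
    | apply cp_rel
    | apply cp_l2
    | apply cp_l1
    | apply pp_wr
    | apply pp_rd
    | apply cp_wpg
    | apply cp_rpg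
    | apply cp_gate
    | apply cp_kap
    | apply cp_xx
    | apply cp_tt
    | apply cp_c0
    | apply cp_wn
    | apply cp_el
    | apply cp_ps
    | apply cp_rk
    | apply cp_ky
    | apply cp_rk0
    | apply cp_ky0
    | apply cp_aa
    | apply Cp.powlog
    | apply Cp.log
    | apply Cp.modpow
    | apply Cp.divpow
    | apply Cp.add
    | apply Cp.sub
    | apply Cp.mul
    | apply Cp.div
    | apply Cp.mod
    | apply Cp.ite
    | apply Cp.arr
    | apply Pp.or
    | apply Pp.and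
    | apply Pp.ne
    | apply Pp.eq
    | apply Pp.le
    | apply Pp.lt
    | apply Pp.not

theorem pp_isDoor (hm : Cp m) (hσ : Cp σ) (ht : Cp t) :
    Pp (fun A e => (satNet A (m A e)).isDoor (σ A e) (t A e)) := by
  show Pp (fun A e => (t A e = 6 ∧ 16 + Sn.K (m A e) ≤ σ A e ∧ σ A e < 22 + Sn.K (m A e)) ∨
    (7 ≤ t A e ∧ t A e ≤ Sn.T (m A e) ∧ ¬ (satNet A (m A e)).slot (t A e) ∧
      σ A e = (satNet A (m A e)).own (t A e)))
  with_reducible repeat' first
    | exact hm
    | exact hσ
    | exact ht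
    | exact Cp.const _
    | exact Cp.var _
    | apply cp_own
    | apply pp_slot
    | apply cp_rho
    | apply cp_2h
    | apply cp_h
    | apply cp_kk
    | apply cp_T
    | apply cp_Lam
    | apply cp_K
    | apply cp_nw
    | apply cp_e
    | apply cp_len
    | apply cp_rel
    | apply cp_l2
    | apply cp_l1
    | apply pp_wr
    | apply pp_rd
    | apply cp_wpg
    | apply cp_rpg
    | apply cp_gate
    | apply cp_kap
    | apply cp_xx
    | apply cp_tt
    | apply cp_c0
    | apply cp_wn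
    | apply cp_el
    | apply cp_ps
    | apply cp_rk
    | apply cp_ky
    | apply cp_rk0
    | apply cp_ky0
    | apply cp_aa
    | apply Cp.powlog
    | apply Cp.log
    | apply Cp.modpow
    | apply Cp.divpow
    | apply Cp.add
    | apply Cp.sub
    | apply Cp.mul
    | apply Cp.div
    | apply Cp.mod
    | apply Cp.ite
    | apply Cp.arr
    | apply Pp.or
    | apply Pp.and
    | apply Pp.ne
    | apply Pp.eq
    | apply Pp.le
    | apply Pp.lt
    | apply Pp.not

theorem pp_port (hm : Cp m) (hb : Cp b) (hw : Cp w) :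
    Pp (fun A e => (satNet A (m A e)).port (b A e) (w A e)) := by
  show Pp (fun A e => b A e < 16 ∧ w A e < Sn.nw (m A e) ∧
    (Sn.rd A (m A e) (w A e) (b A e / 2) = true ∨ Sn.wr A (m A e) (w A e) (b A e / 2) = true))
  with_reducible repeat' first
    | exact hm
    | exact hb
    | exact hw
    | exact Cp.const _
    | exact Cp.var _
    | apply pp_isDoor
    | apply cp_own
    | apply pp_slot
    | apply cp_rho
    | apply cp_2h
    | apply cp_h
    | apply cp_kk
    | apply cp_T
    | apply cp_Lam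
    | apply cp_K
    | apply cp_nw
    | apply cp_e
    | apply cp_len
    | apply cp_rel
    | apply cp_l2
    | apply cp_l1
    | apply pp_wr
    | apply pp_rd
    | apply cp_wpg
    | apply cp_rpg
    | apply cp_gate
    | apply cp_kap
    | apply cp_xx
    | apply cp_tt
    | apply cp_c0
    | apply cp_wn
    | apply cp_el
    | apply cp_ps
    | apply cp_rk
    | apply cp_ky
    | apply cp_rk0
    | apply cp_ky0
    | apply cp_aa
    | apply Cp.powlog
    | apply Cp.log
    | apply Cp.modpow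
    | apply Cp.divpow
    | apply Cp.add
    | apply Cp.sub
    | apply Cp.mul
    | apply Cp.div
    | apply Cp.mod
    | apply Cp.ite
    | apply Cp.arr
    | apply Pp.or
    | apply Pp.and
    | apply Pp.ne
    | apply Pp.eq
    | apply Pp.le
    | apply Pp.lt
    | apply Pp.not

theorem cp_rt (hm : Cp m) (hb : Cp b) (hw : Cp w) :
    Cp (fun A e => (satNet A (m A e)).rt (b A e) (w A e)) := by
  show Cp (fun A e => (satNet A (m A e)).rho (w A e) +
    (if Sn.wr A (m A e) (w A e) (b A e / 2) = true then 1 else 0))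
  with_reducible repeat' first
    | exact hm
    | exact hb
    | exact hw
    | exact Cp.const _
    | exact Cp.var _
    | apply pp_port
    | apply pp_isDoor
    | apply cp_own
    | apply pp_slot
    | apply cp_rho
    | apply cp_2h
    | apply cp_h
    | apply cp_kk
    | apply cp_T
    | apply cp_Lam
    | apply cp_K
    | apply cp_nw
    | apply cp_e
    | apply cp_len
    | apply cp_rel
    | apply cp_l2
    | apply cp_l1
    | apply pp_wr
    | apply pp_rd
    | apply cp_wpg
    | apply cp_rpg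
    | apply cp_gate
    | apply cp_kap
    | apply cp_xx
    | apply cp_tt
    | apply cp_c0
    | apply cp_wn
    | apply cp_el
    | apply cp_ps
    | apply cp_rk
    | apply cp_ky
    | apply cp_rk0
    | apply cp_ky0
    | apply cp_aa
    | apply Cp.powlog
    | apply Cp.log
    | apply Cp.modpow
    | apply Cp.divpow
    | apply Cp.add
    | apply Cp.sub
    | apply Cp.mul
    | apply Cp.div
    | apply Cp.mod
    | apply Cp.ite
    | apply Cp.arr
    | apply Pp.or
    | apply Pp.and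
    | apply Pp.ne
    | apply Pp.eq
    | apply Pp.le
    | apply Pp.lt
    | apply Pp.not

theorem cp_dl (hb : Cp b) (hc : Cp c) :
    Cp (fun A e => Net.dl (b A e) (c A e)) := by
  unfold Net.dl
  with_reducible repeat' first
    | exact hb
    | exact hc
    | exact Cp.const _
    | exact Cp.var _
    | apply cp_rt
    | apply pp_port
    | apply pp_isDoor
    | apply cp_own
    | apply pp_slot
    | apply cp_rho
    | apply cp_2h
    | apply cp_h
    | apply cp_kk
    | apply cp_T
    | apply cp_Lam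
    | apply cp_K
    | apply cp_nw
    | apply cp_e
    | apply cp_len
    | apply cp_rel
    | apply cp_l2
    | apply cp_l1
    | apply pp_wr
    | apply pp_rd
    | apply cp_wpg
    | apply cp_rpg
    | apply cp_gate
    | apply cp_kap
    | apply cp_xx
    | apply cp_tt
    | apply cp_c0
    | apply cp_wn
    | apply cp_el
    | apply cp_ps
    | apply cp_rk
    | apply cp_ky
    | apply cp_rk0
    | apply cp_ky0
    | apply cp_aa
    | apply Cp.powlog
    | apply Cp.log
    | apply Cp.modpow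
    | apply Cp.divpow
    | apply Cp.add
    | apply Cp.sub
    | apply Cp.mul
    | apply Cp.div
    | apply Cp.mod
    | apply Cp.ite
    | apply Cp.arr
    | apply Pp.or
    | apply Pp.and
    | apply Pp.ne
    | apply Pp.eq
    | apply Pp.le
    | apply Pp.lt
    | apply Pp.not

end Pool.Agent.Lib.MP_711ea9_lc.FH
end

section

set_option autoImplicit false

namespace Pool.Agent.Lib.MP_711ea9_lc.FH

open Finset

variable {k : ℕ} {m t t' x x' w w' p b b' c c' σ σ' l l' r r' j j' q :
  (ℕ → ℕ) → (Fin k → ℕ) → ℕ}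

/-- TASK J7 (14 lemmas, one for each kind of edge: `Net.E` applied to two constructors is by definition a conjunction; use `Pp.iff_of _ (fun A e => Iff.rfl)` or `show Pp _`, and the closure lemmas, J5, J6). -/
theorem pe_src_path (hm : Cp m) (hq : Cp q) (hσ : Cp σ) (ht : Cp t) :
    Pp (fun A e => (satNet A (m A e)).E (.src (q A e)) (.path (σ A e) (t A e))) := by
  exact Pp.iff_of (Pp.and (Pp.eq hq (Cp.const 0)) (Pp.and (Pp.eq ht (Cp.const 1))
    (Pp.lt hσ (Cp.add (Cp.const 22) (cp_K hm))))) (fun A e => Iff.rfl)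

theorem pe_path_path (hm : Cp m) (hσ : Cp σ) (ht : Cp t) (hσ' : Cp σ') (ht' : Cp t') :
    Pp (fun A e => (satNet A (m A e)).E (.path (σ A e) (t A e)) (.path (σ' A e) (t' A e))) := by
  exact Pp.iff_of (Pp.and (Pp.eq hσ' hσ) (Pp.and (Pp.lt hσ (Cp.add (Cp.const 22) (cp_K hm)))
    (Pp.and (Pp.le (Cp.const 1) ht) (Pp.and (Pp.eq ht' (Cp.add ht (Cp.const 1)))
      (Pp.le ht' (cp_T hm)))))) (fun A e => Iff.rfl)

theorem pe_path_door (hm : Cp m) (hσ : Cp σ) (ht : Cp t) (hσ' : Cp σ') (ht' : Cp t') :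
    Pp (fun A e => (satNet A (m A e)).E (.path (σ A e) (t A e)) (.door (σ' A e) (t' A e))) := by
  exact Pp.iff_of (Pp.and (Pp.eq hσ' hσ) (Pp.and (Pp.eq ht' (Cp.add ht (Cp.const 1)))
    (pp_isDoor hm hσ ht'))) (fun A e => Iff.rfl)

theorem pe_door_reg (hm : Cp m) (hσ : Cp σ) (ht : Cp t) (hσ' : Cp σ') (hl : Cp l) (hr : Cp r)
    (hx : Cp x) :
    Pp (fun A e => (satNet A (m A e)).E (.door (σ A e) (t A e))
      (.reg (σ' A e) (l A e) (r A e) (x A e))) := by
  exact Pp.iff_of (Pp.and (Pp.eq hσ' hσ) (Pp.and (pp_isDoor hm hσ ht)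
    (Pp.and (Pp.eq hl (Cp.const 0)) (Pp.and (Pp.eq hr (Cp.const 0))
      (Pp.and (Pp.eq (Cp.div hx (Cp.const 600)) ht)
        (Pp.lt (Cp.mod hx (Cp.const 600)) (Cp.const 300))))))) (fun A e => Iff.rfl)

theorem pe_reg_reg (hm : Cp m) (hσ : Cp σ) (hl : Cp l) (hr : Cp r) (hx : Cp x) (hσ' : Cp σ')
    (hl' : Cp l') (hr' : Cp r') (hx' : Cp x') :
    Pp (fun A e => (satNet A (m A e)).E (.reg (σ A e) (l A e) (r A e) (x A e))
      (.reg (σ' A e) (l' A e) (r' A e) (x' A e))) := by
  exact Pp.iff_of (Pp.and (Pp.eq hσ' hσ) (Pp.and (Pp.lt hσ (Cp.add (Cp.const 22) (cp_K hm)))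
    (Pp.and (Pp.le hl (cp_h hm)) (Pp.and (Pp.le hl' (cp_h hm))
      (Pp.and (Pp.lt hr (Cp.const 300)) (Pp.and (Pp.lt hr' (Cp.const 300))
        (Pp.and (Pp.lt hx (Cp.mul (Cp.const 600) (cp_2h hm)))
          (Pp.and (Pp.lt hx' (Cp.mul (Cp.const 600) (cp_2h hm)))
            (Pp.or (Pp.and (Pp.eq hl' hl) (Pp.and (Pp.eq hr' hr)
                (Pp.eq hx' (Cp.add hx (Cp.const 1)))))
              (Pp.or (Pp.and (Pp.eq hl' hl) (Pp.and (Pp.eq hr' (Cp.add hr (Cp.const 1)))
                  (Pp.eq hx' hx)))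
                (Pp.and (Pp.eq hl' (Cp.add hl (Cp.const 1))) (Pp.and (Pp.eq hr (Cp.const 299))
                  (Pp.and (Pp.eq hr' (Cp.const 0))
                    (Pp.and (Pp.lt (Cp.mod hx (Cp.const 600)) (Cp.const 300))
                      (Pp.eq hx' (Cp.add (Cp.mul (Cp.const 300) (Cp.div hx (Cp.const 600)))
                        (Cp.mod hx (Cp.const 600)))))))))))))))))) (fun A e => Iff.rfl)

theorem pe_path_stem (hm : Cp m) (hσ : Cp σ) (ht : Cp t) (hb : Cp b) (hw : Cp w) (hj : Cp j) :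
    Pp (fun A e => (satNet A (m A e)).E (.path (σ A e) (t A e))
      (.stem (b A e) (w A e) (j A e))) := by
  exact Pp.iff_of (Pp.and (Pp.eq hb hσ) (Pp.and (pp_port hm hb hw) (Pp.and (Pp.eq hj (Cp.const 0))
    (Pp.eq (Cp.add ht (Cp.const 3)) (cp_rt hm hb hw))))) (fun A e => Iff.rfl)

theorem pe_stem_stem (hm : Cp m) (hb : Cp b) (hw : Cp w) (hj : Cp j) (hb' : Cp b') (hw' : Cp w')
    (hj' : Cp j') :
    Pp (fun A e => (satNet A (m A e)).E (.stem (b A e) (w A e) (j A e))
      (.stem (b' A e) (w' A e) (j' A e))) := by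
  exact Pp.iff_of (Pp.and (Pp.eq hb' hb) (Pp.and (Pp.eq hw' hw) (Pp.and (pp_port hm hb hw)
    (Pp.and (Pp.eq hj (Cp.const 0)) (Pp.eq hj' (Cp.const 1)))))) (fun A e => Iff.rfl)

theorem pe_stem_root (hm : Cp m) (hb : Cp b) (hw : Cp w) (hj : Cp j) (hb' : Cp b')
    (hw' : Cp w') :
    Pp (fun A e => (satNet A (m A e)).E (.stem (b A e) (w A e) (j A e))
      (.root (b' A e) (w' A e))) := by
  exact Pp.iff_of (Pp.and (Pp.eq hb' hb) (Pp.and (Pp.eq hw' hw) (Pp.and (pp_port hm hb hw)
    (Pp.eq hj (Cp.const 1))))) (fun A e => Iff.rfl)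

theorem pe_root_root (hm : Cp m) (hb : Cp b) (hw : Cp w) (hb' : Cp b') (hw' : Cp w') :
    Pp (fun A e => (satNet A (m A e)).E (.root (b A e) (w A e)) (.root (b' A e) (w' A e))) := by
  exact Pp.iff_of (Pp.and (Pp.eq hb' hb) (Pp.and (pp_port hm hb hw)
    (Pp.and (pp_wr hm hw (Cp.div hb (Cp.const 2)))
      (Pp.and (Pp.eq hw' (cp_l1 hm hw (Cp.div hb (Cp.const 2)))) (Pp.lt hw hw')))))
    (fun A e => Iff.rfl)

theorem pe_root_nod (hm : Cp m) (hb : Cp b) (hw : Cp w) (hb' : Cp b') (hw' : Cp w') :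
    Pp (fun A e => (satNet A (m A e)).E (.root (b A e) (w A e)) (.nod (b' A e) (w' A e))) := by
  exact Pp.iff_of (Pp.and (Pp.eq hb' hb) (Pp.and (Pp.eq hw' hw) (Pp.and (pp_port hm hb hw)
    (Pp.and (pp_wr hm hw (Cp.div hb (Cp.const 2)))
      (Pp.ne (cp_l2 hm hw (Cp.div hb (Cp.const 2))) (Cp.const 0)))))) (fun A e => Iff.rfl)

theorem pe_nod_root (hm : Cp m) (hb : Cp b) (hw : Cp w) (hb' : Cp b') (hw' : Cp w') :
    Pp (fun A e => (satNet A (m A e)).E (.nod (b A e) (w A e)) (.root (b' A e) (w' A e))) := by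
  exact Pp.iff_of (Pp.and (Pp.eq hb' hb) (Pp.and (pp_port hm hb hw)
    (Pp.and (pp_wr hm hw (Cp.div hb (Cp.const 2)))
      (Pp.and (Pp.ne (cp_l2 hm hw (Cp.div hb (Cp.const 2))) (Cp.const 0))
        (Pp.eq hw' (cp_l2 hm hw (Cp.div hb (Cp.const 2)))))))) (fun A e => Iff.rfl)

theorem pe_root_chain (hm : Cp m) (hb : Cp b) (hw : Cp w) (hb' : Cp b') (hw' : Cp w')
    (hc : Cp c) (hj : Cp j) :
    Pp (fun A e => (satNet A (m A e)).E (.root (b A e) (w A e))
      (.chain (b' A e) (w' A e) (c A e) (j A e))) := by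
  exact Pp.iff_of (Pp.and (Pp.eq hb' hb) (Pp.and (Pp.eq hw' hw) (Pp.and (pp_port hm hb hw)
    (Pp.and (Pp.lt hc (Cp.const 2)) (Pp.eq hj (Cp.const 1)))))) (fun A e => Iff.rfl)

theorem pe_chain_chain (hm : Cp m) (hb : Cp b) (hw : Cp w) (hc : Cp c) (hj : Cp j) (hb' : Cp b')
    (hw' : Cp w') (hc' : Cp c') (hj' : Cp j') :
    Pp (fun A e => (satNet A (m A e)).E (.chain (b A e) (w A e) (c A e) (j A e))
      (.chain (b' A e) (w' A e) (c' A e) (j' A e))) := by
  exact Pp.iff_of (Pp.and (Pp.eq hb' hb) (Pp.and (Pp.eq hw' hw) (Pp.and (Pp.eq hc' hc)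
    (Pp.and (pp_port hm hb hw) (Pp.and (Pp.lt hc (Cp.const 2)) (Pp.and (Pp.le (Cp.const 1) hj)
      (Pp.and (Pp.eq hj' (Cp.add hj (Cp.const 1))) (Pp.le hj' (cp_len hm hb hw hc)))))))))
    (fun A e => Iff.rfl)

theorem pe_chain_path (hm : Cp m) (hb : Cp b) (hw : Cp w) (hc : Cp c) (hj : Cp j) (hσ : Cp σ)
    (ht : Cp t) :
    Pp (fun A e => (satNet A (m A e)).E (.chain (b A e) (w A e) (c A e) (j A e))
      (.path (σ A e) (t A e))) := by
  exact Pp.iff_of (Pp.and (Pp.eq hσ hb) (Pp.and (pp_port hm hb hw)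
    (Pp.and (Pp.lt hc (Cp.const 2)) (Pp.and (Pp.eq hj (cp_len hm hb hw hc))
      (Pp.or (Pp.eq ht (Cp.add (cp_rho hm hw) (cp_dl hb hc)))
        (Pp.eq ht (Cp.add (Cp.add (cp_rho hm hw) (cp_dl hb hc)) (Cp.const 1))))))))
    (fun A e => Iff.rfl)

end Pool.Agent.Lib.MP_711ea9_lc.FH
end

section

set_option autoImplicit false

namespace Pool.Agent.Lib.MP_711ea9_lc.FH

variable {N : Net} {k : ℕ}

/-- TASK K1a. Proof: `X > 0`, `22 + K > 0`. -/
theorem Y_pos (N : Net) : 0 < N.Y := by
  unfold Net.Y Net.X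
  positivity

private theorem K1_ext (m : ℕ) {q r : ℕ} (h1 : q / m = r / m) (h2 : q % m = r % m) : q = r := by
  rw [← Nat.div_add_mod q m, ← Nat.div_add_mod r m, h1, h2]

private def K1_kind : Vtx → ℕ
  | .src _ => 0
  | .path _ _ => 1
  | .door _ _ => 2
  | .reg _ _ _ _ => 3
  | .stem _ _ _ => 4
  | .root _ _ => 5
  | .nod _ _ => 6
  | .chain _ _ _ _ => 7

private theorem K1_eight {a : ℕ} (h : a < 8) : a = 0 ∨ a = 1 ∨ a = 2 ∨ a = 3 ∨ a = 4 ∨ a = 5 ∨
    a = 6 ∨ a = 7 := by omega

private theorem K1_kind_dec {u : ℕ} (h : u / N.Y < 8) : K1_kind (N.dec u) = u / N.Y := by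
  have h1 := K1_eight h
  unfold Net.dec
  rcases h1 with h1 | h1 | h1 | h1 | h1 | h1 | h1 | h1 <;> rw [h1] <;> rfl

private theorem K1_lt {a A b m : ℕ} (ha : a < A) (hb : b < m) : a * m + b < A * m := by
  calc a * m + b < a * m + m := by omega
    _ = (a + 1) * m := by ring
    _ ≤ A * m := Nat.mul_le_mul_right _ ha

private theorem K1_dm {a b m : ℕ} (hb : b < m) : (a * m + b) / m = a ∧ (a * m + b) % m = b := by
  have hm : 0 < m := by omega
  constructor
  · rw [Nat.add_comm, Nat.add_mul_div_right _ _ hm, Nat.div_eq_of_lt hb, Nat.zero_add]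
  · rw [Nat.add_comm, Nat.add_mul_mod_self_right, Nat.mod_eq_of_lt hb]

/-- TASK K1b. Different codes below `8 Y` are different vertices.
Proof. The kind `u / Y < 8` (`Nat.div_lt_iff_lt_mul`) is determined by the constructor (`split_ifs` in both `dec`; `Vtx.noConfusion`/`simp`), then `u % Y = v % Y` by `Nat.div_add_mod` (once or several times: `q = (q / a) * a + q % a`), and `u = v` by `Nat.div_add_mod`. For chain: `q / 8 % 2` and `q / 16 = q / 8 / 2` give `q / 8`. -/
theorem dec_inj (hV : N.Valid k) {u v : ℕ} (hu : u < 8 * N.Y) (hv : v < 8 * N.Y)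
    (h : N.dec u = N.dec v) : u = v := by
  have hY := Y_pos N
  have hu8 : u / N.Y < 8 := by
    rw [Nat.div_lt_iff_lt_mul hY]
    exact hu
  have hv8 : v / N.Y < 8 := by
    rw [Nat.div_lt_iff_lt_mul hY]
    exact hv
  have hk : u / N.Y = v / N.Y := by
    rw [← K1_kind_dec hu8, ← K1_kind_dec hv8, h]
  refine K1_ext N.Y hk ?_
  have h1 := K1_eight hv8
  unfold Net.dec at h
  rcases h1 with h1 | h1 | h1 | h1 | h1 | h1 | h1 | h1 <;> rw [hk, h1] at h
  · exact Vtx.src.inj h
  · obtain ⟨h2, h3⟩ := Vtx.path.inj h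
    exact K1_ext _ h2 h3
  · obtain ⟨h2, h3⟩ := Vtx.door.inj h
    exact K1_ext _ h2 h3
  · obtain ⟨h2, h3, h4, h5⟩ := Vtx.reg.inj h
    exact K1_ext _ (K1_ext _ (K1_ext _ h2 h3) h4) h5
  · obtain ⟨h2, h3, h4⟩ := Vtx.stem.inj h
    exact K1_ext _ (K1_ext _ h2 h3) h4
  · obtain ⟨h2, h3⟩ := Vtx.root.inj h
    exact K1_ext _ h2 h3
  · obtain ⟨h2, h3⟩ := Vtx.nod.inj h
    exact K1_ext _ h2 h3
  · obtain ⟨h2, h3, h4, h5⟩ := Vtx.chain.inj h
    have h6 := K1_ext _ h2 h3
    omega

/-- TASK K1c. Every existing vertex has a code.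
Proof. `u = kind * Y + q`, `q < Y` (then `u / Y = kind`, `u % Y = q`). path: `q = σ (T+1) + t < (22+K)(T+1) ≤ (22+K) * 2 ^ h ≤ Y`. door the same. reg: `q = ((σ (h+1) + l) 300 + r) X + x < Y`. stem: `q = (b nw + w) 2 + j < 32 nw`; root, nod: `q = b nw + w < 16 nw`; chain: `q = ((b nw + w) 2 + c) 8 + j < 256 nw` (`j ≤ 7`). `256 nw ≤ Lam nw ≤ T < 2 ^ h ≤ Y` (`hV.hLam'`, `hV.hT`).
src 0: `u = 0`. -/
theorem dec_surj (hV : N.Valid k) {v : Vtx} (h : N.Ex v) : ∃ u, u < 8 * N.Y ∧ N.dec u = v := by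
  have hY := Y_pos N
  have hh := hV.hh
  have hpow : 2 ^ N.h ≤ N.Y ∧ (22 + N.K) * 2 ^ N.h ≤ N.Y := by
    have h1 : N.Y = (22 + N.K) * 2 ^ N.h * ((N.h + 1) * 300 * 600) := by
      unfold Net.Y Net.X
      ring
    have h2 : (22 + N.K) * 2 ^ N.h ≤ N.Y := by
      rw [h1]
      exact Nat.le_mul_of_pos_right _ (by positivity)
    refine ⟨le_trans ?_ h2, h2⟩
    exact Nat.le_mul_of_pos_left _ (by omega)
  have hnw : 256 * N.nw < N.Y := by
    have h1 := hV.hT
    have h2 := hV.hLam'
    have h3 : 400 * N.nw ≤ N.Lam * N.nw := Nat.mul_le_mul_right _ h2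
    have h4 : N.rho N.nw = N.Lam * N.nw + 16 := rfl
    have h5 := hpow.1
    omega
  have key : ∀ (a q : ℕ), a < 8 → q < N.Y → a * N.Y + q < 8 * N.Y ∧ (a * N.Y + q) / N.Y = a ∧
      (a * N.Y + q) % N.Y = q := by
    intro a q ha hq
    exact ⟨K1_lt ha hq, (K1_dm hq).1, (K1_dm hq).2⟩
  cases v with
  | src q =>
    have hq : q = 0 := h
    obtain ⟨h1, h2, h3⟩ := key 0 0 (by omega) hY
    refine ⟨_, h1, ?_⟩
    unfold Net.dec
    rw [h2, h3, hq]
    rfl
  | path σ t =>
    obtain ⟨ha, hb, hc⟩ := h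
    have ht : t < N.T + 1 := by omega
    obtain ⟨h1, h2, h3⟩ := key 1 (σ * (N.T + 1) + t) (by omega)
      (lt_of_lt_of_le (lt_of_lt_of_le (K1_lt ha ht) (Nat.mul_le_mul_left _ hh)) hpow.2)
    refine ⟨_, h1, ?_⟩
    unfold Net.dec
    rw [h2, h3, (K1_dm ht).1, (K1_dm ht).2]
    rfl
  | door σ t =>
    obtain ⟨ha, hb, hc⟩ := h
    have ht : t < N.T + 1 := by omega
    obtain ⟨h1, h2, h3⟩ := key 2 (σ * (N.T + 1) + t) (by omega)
      (lt_of_lt_of_le (lt_of_lt_of_le (K1_lt ha ht) (Nat.mul_le_mul_left _ hh)) hpow.2)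
    refine ⟨_, h1, ?_⟩
    unfold Net.dec
    rw [h2, h3, (K1_dm ht).1, (K1_dm ht).2]
    rfl
  | reg σ l r x =>
    obtain ⟨ha, hb, hc, hd⟩ := h
    have hx : x < N.X := hd
    have hl : l < N.h + 1 := by omega
    obtain ⟨h1, h2, h3⟩ := key 3 (((σ * (N.h + 1) + l) * 300 + r) * N.X + x) (by omega)
      (K1_lt (K1_lt (K1_lt ha hl) hc) hx)
    refine ⟨_, h1, ?_⟩
    unfold Net.dec
    rw [h2, h3, (K1_dm hx).1, (K1_dm hx).2, (K1_dm hc).1, (K1_dm hc).2, (K1_dm hl).1,
      (K1_dm hl).2]
    rfl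
  | stem b w j =>
    obtain ⟨hp, hj⟩ := h
    have hb := hp.1
    have hw := hp.2.1
    have h4 := K1_lt (K1_lt hb hw) hj
    obtain ⟨h1, h2, h3⟩ := key 4 ((b * N.nw + w) * 2 + j) (by omega) (by omega)
    refine ⟨_, h1, ?_⟩
    unfold Net.dec
    rw [h2, h3, (K1_dm hj).1, (K1_dm hj).2, (K1_dm hw).1, (K1_dm hw).2]
    rfl
  | root b w =>
    have hb := h.1
    have hw := h.2.1
    have h4 := K1_lt hb hw
    obtain ⟨h1, h2, h3⟩ := key 5 (b * N.nw + w) (by omega) (by omega)
    refine ⟨_, h1, ?_⟩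
    unfold Net.dec
    rw [h2, h3, (K1_dm hw).1, (K1_dm hw).2]
    rfl
  | nod b w =>
    have hb := h.1.1
    have hw := h.1.2.1
    have h4 := K1_lt hb hw
    obtain ⟨h1, h2, h3⟩ := key 6 (b * N.nw + w) (by omega) (by omega)
    refine ⟨_, h1, ?_⟩
    unfold Net.dec
    rw [h2, h3, (K1_dm hw).1, (K1_dm hw).2]
    rfl
  | chain b w c j =>
    obtain ⟨hp, hc, hj1, hj2, hj3⟩ := h
    have hb := hp.1
    have hw := hp.2.1
    have hj : j < 8 := by omega
    have h4 := K1_lt (K1_lt (K1_lt hb hw) hc) hj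
    obtain ⟨h1, h2, h3⟩ := key 7 (((b * N.nw + w) * 2 + c) * 8 + j) (by omega) (by omega)
    refine ⟨_, h1, ?_⟩
    have h5 : (((b * N.nw + w) * 2 + c) * 8 + j) / 16 = b * N.nw + w := by omega
    have h6 : (((b * N.nw + w) * 2 + c) * 8 + j) / 8 % 2 = c := by omega
    have h7 : (((b * N.nw + w) * 2 + c) * 8 + j) % 8 = j := by omega
    unfold Net.dec
    rw [h2, h3, h5, h6, h7, (K1_dm hw).1, (K1_dm hw).2]
    rfl

end Pool.Agent.Lib.MP_711ea9_lc.FH
end

section

set_option autoImplicit false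

namespace Pool.Agent.Lib.MP_711ea9_lc.FH

open Finset

/-- TASK C3. A burning door sets all hubs `(0, a, 600 i + a)` of the bottom level on fire, if nothing of the
frame `a` is protected.
Proof. `σ < 22 + N.K` and `t ≤ N.T` (or `t = 6`), so `t < 2 ^ N.h` (`hV.hh`; `N.T ≥ 16` by `hV.hT`) and
`σ = N.own t < 16 + N.K` by `Net.own_lt`, `N.K ≥ 14` by `hV.hK`.
(1) door - reg edge: `reg σ 0 0 (600 * t + a) ∈ F (r + 1)` (in the frame as `(600*t+a) % 300 = a`), then up the column:
`reg σ 0 a (600 * t + a) ∈ F (r + 1 + a)`, so in `F (r + 300)`.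
(2) induction on `l ≤ N.h` with `hub_up`: `reg σ l a (600 * (t / 2 ^ l) + a) ∈ F (r + 300 + 900 * l)`
(`Nat.div_div_eq_div_mul`, `pow_succ`); for `l = N.h`: `t / 2 ^ h = 0`.
(3) descending induction on `l` with `hub_down`, for `m ≤ N.h`: for all `i < 2 ^ m`:
`reg σ (N.h - m) a (600 * i + a) ∈ F (r + 300 + 900 * N.h + 900 * m)`. (4) `m = N.h`, and
`300 + 1800 * N.h ≤ N.tau` by `hV.htau`. All times are `≤ r + N.tau`. -/
theorem hubs_burn {N : Net} {k : ℕ} (hV : N.Valid k) {S : Set Vtx} {σ t r a : ℕ} (ha : a < 300)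
    (hd : N.isDoor σ t) (hdF : Vtx.door σ t ∈ N.F S r)
    (hcl : ∀ i < r + N.tau, ∀ u ∈ N.F S i, ∀ v ∈ frame σ a, N.G.Adj u v → v ∈ N.F S (i + 1))
    {i : ℕ} (hi : i < 2 ^ N.h) :
    Vtx.reg σ 0 a (600 * i + a) ∈ N.F S (r + N.tau) := by
  have hK : 0 < N.K := lt_of_lt_of_le (by omega) hV.hK
  have hT1 := hV.hT
  have hT2 := hV.hh
  have htau := hV.htau
  have hrho : 16 ≤ N.rho N.nw := by unfold Net.rho; omega
  have hσ : σ < 22 + N.K := by
    rcases hd with ⟨_, _, h⟩ | ⟨_, _, _, h⟩
    · exact h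
    · rw [h]
      exact lt_of_lt_of_le (Net.own_lt t hK) (by omega)
  have ht : t < 2 ^ N.h := by
    rcases hd with ⟨h, _, _⟩ | ⟨_, h, _, _⟩
    · omega
    · omega
  -- (1)
  have h1 : Vtx.reg σ 0 0 (600 * t + a) ∈ N.F S (r + 1) := by
    have hadj : N.G.Adj (Vtx.door σ t) (Vtx.reg σ 0 0 (600 * t + a)) := by
      apply Net.adj_of_E
      show σ = σ ∧ N.isDoor σ t ∧ 0 = 0 ∧ 0 = 0 ∧ (600 * t + a) / 600 = t ∧ (600 * t + a) % 600 < 300
      exact ⟨rfl, hd, rfl, rfl, by omega, by omega⟩
    exact hcl r (by omega) _ hdF _ ⟨0, 0, _, rfl, Or.inr (by omega)⟩ hadj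
  have h2 : ∀ s, s ≤ a → Vtx.reg σ 0 s (600 * t + a) ∈ N.F S (r + 1 + s) := by
    intro s
    induction s with
    | zero => intro _; exact h1
    | succ s ih =>
      intro hs
      have h := ih (by omega)
      have hadj : N.G.Adj (Vtx.reg σ 0 s (600 * t + a)) (Vtx.reg σ 0 (s + 1) (600 * t + a)) := by
        apply Net.adj_of_E
        show σ = σ ∧ σ < 22 + N.K ∧ 0 ≤ N.h ∧ 0 ≤ N.h ∧ s < 300 ∧ s + 1 < 300 ∧
          600 * t + a < 600 * 2 ^ N.h ∧ 600 * t + a < 600 * 2 ^ N.h ∧ _
        exact ⟨rfl, hσ, by omega, by omega, by omega, by omega, by omega, by omega,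
          Or.inr (Or.inl ⟨rfl, rfl, rfl⟩)⟩
      exact hcl (r + 1 + s) (by omega) _ h _ ⟨0, _, _, rfl, Or.inr (by omega)⟩ hadj
  have h3 : Vtx.reg σ 0 a (600 * t + a) ∈ N.F S (r + 300) :=
    Net.F_mono (by omega) (h2 a le_rfl)
  -- (2)
  have h4 : ∀ l, l ≤ N.h → Vtx.reg σ l a (600 * (t / 2 ^ l) + a) ∈ N.F S (r + 300 + 900 * l) := by
    intro l
    induction l with
    | zero => intro _; simpa using h3
    | succ l ih =>
      intro hl
      have h := ih (by omega)
      have hlt : t / 2 ^ l < 2 ^ N.h := lt_of_le_of_lt (Nat.div_le_self _ _) ht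
      have h' := hub_up (R := r + N.tau) ha hσ hcl (by omega) hlt (by omega) h
      rw [Nat.div_div_eq_div_mul, ← pow_succ] at h'
      exact Net.F_mono (by omega) h'
  have h5 : Vtx.reg σ N.h a (600 * 0 + a) ∈ N.F S (r + 300 + 900 * N.h) := by
    have := h4 N.h le_rfl
    rwa [Nat.div_eq_of_lt ht] at this
  -- (3)
  have h6 : ∀ m, m ≤ N.h → ∀ i < 2 ^ m,
      Vtx.reg σ (N.h - m) a (600 * i + a) ∈ N.F S (r + 300 + 900 * N.h + 900 * m) := by
    intro m
    induction m with
    | zero =>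
      intro _ i hi
      have : i = 0 := by simpa using hi
      subst this
      exact h5
    | succ m ih =>
      intro hm i hi
      have hi2 : i / 2 < 2 ^ m := by
        rw [pow_succ] at hi
        omega
      have h := ih (by omega) (i / 2) hi2
      have hlt : i < 2 ^ N.h := lt_of_lt_of_le hi (Nat.pow_le_pow_right (by omega) hm)
      have e1 : N.h - m = N.h - (m + 1) + 1 := by omega
      rw [e1] at h
      have h' := hub_down (R := r + N.tau) ha hσ hcl (l := N.h - (m + 1)) (by omega) hlt (by omega) h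
      exact Net.F_mono (by omega) h'
  have h7 := h6 N.h le_rfl i hi
  rw [Nat.sub_self] at h7
  exact Net.F_mono (by omega) h7

end Pool.Agent.Lib.MP_711ea9_lc.FH
end

section

set_option autoImplicit false

namespace Pool.Agent.Lib.MP_711ea9_lc.FH

open Finset

/-- TASK C4a. If a door burns at time `r`, then every frame of its region contains a vertex due by `r + tau`.
Proof. By contradiction. Then the closure hypothesis of `hubs_burn` holds: let `i < r + tau`, `u ∈ F i`, `v` in the
frame, `u ~ v`. If `v ∈ S` then `v ∈ H (i + 1) ⊆ H (r + tau)` (`Net.dues`, `Net.H_mono`), excluded; so `v ∈ F (i+1)`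
(`Net.burns`). So the `2 ^ h` different vertices `reg σ 0 a (600 * i + a)`, `i < 2 ^ h`, are in `F (r + tau)`, whose
encard is at most `k < 2 ^ h` (`hR.fr`, `hV.hk`). (Image of `Finset.range (2 ^ h)` under an injective map;
`Set.encard_le_encard`, `Set.encard_coe_eq_coe_finsetCard`.) -/
theorem frame_hit {N : Net} {k : ℕ} (hV : N.Valid k) {S : Set Vtx} (hR : N.Run S k) {σ t r a : ℕ}
    (ha : a < 300) (hdF : Vtx.door σ t ∈ N.F S r) :
    ∃ v ∈ N.H S (r + N.tau), v ∈ frame σ a := by
  classical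
  by_contra hcon
  push Not at hcon
  have hcl : ∀ i < r + N.tau, ∀ u ∈ N.F S i, ∀ v ∈ frame σ a, N.G.Adj u v →
      v ∈ N.F S (i + 1) := by
    intro i hi u hu v hv huv
    rcases Net.burn_or_due hu huv with h | h
    · exact h.2
    · exact absurd hv (hcon v (Net.H_mono (show i + 1 ≤ r + N.tau from hi) h.2))
  have hall : ∀ i < 2 ^ N.h, Vtx.reg σ 0 a (600 * i + a) ∈ N.F S (r + N.tau) := fun i hi =>
    hubs_burn hV ha (Net.isDoor_of_mem hdF) hdF hcl hi
  let f : ℕ → Vtx := fun i => Vtx.reg σ 0 a (600 * i + a)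
  have hf : Function.Injective f := by
    intro i j hij
    simp only [f, Vtx.reg.injEq] at hij
    omega
  have hsub : ((image f (range (2 ^ N.h)) : Finset Vtx) : Set Vtx) ⊆ N.F S (r + N.tau) := by
    intro v hv
    simp only [coe_image, Set.mem_image, coe_range, Set.mem_Iio] at hv
    obtain ⟨i, hi, rfl⟩ := hv
    exact hall i hi
  have h1 := Set.encard_le_encard hsub
  rw [Set.encard_coe_eq_coe_finsetCard, card_image_of_injective _ hf, card_range] at h1
  have h2 := le_trans h1 (hR.fr (r + N.tau))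
  have h3 : 2 ^ N.h ≤ k := by exact_mod_cast h2
  exact absurd hV.hk (not_lt.2 h3)

/-- TASK C4b. So at least 150 vertices of the region are due by `r + tau`.
Proof. Suppose not; then `X = H ∩ region σ` is finite with `ncard < 150`. Choose (C4a) `f a ∈ X` for `a < 300`,
`f a ∈ frame σ a`. A vertex `reg σ l q x` lies only in the frames `q` and `x % 300`, so every fibre of `f` on `range 300`
has at most two elements; `300 ≤ 2 * card (image f (range 300)) ≤ 2 * 149`
(`Finset.card_le_mul_card_image` with bound 2 for the fibres). -/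
theorem region_due {N : Net} {k : ℕ} (hV : N.Valid k) {S : Set Vtx} (hR : N.Run S k) {σ t r : ℕ}
    (hdF : Vtx.door σ t ∈ N.F S r) :
    (150 : ℕ∞) ≤ (N.H S (r + N.tau) ∩ region σ).encard := by
  classical
  have hex : ∀ a, ∃ v, a < 300 → v ∈ N.H S (r + N.tau) ∧ v ∈ frame σ a := by
    intro a
    by_cases ha : a < 300
    · obtain ⟨v, hv, hv'⟩ := frame_hit hV hR ha hdF
      exact ⟨v, fun _ => ⟨hv, hv'⟩⟩
    · exact ⟨Vtx.src 0, fun h => absurd h ha⟩
  choose f hf using hex
  have hsub : ((image f (range 300) : Finset Vtx) : Set Vtx) ⊆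
      N.H S (r + N.tau) ∩ region σ := by
    intro v hv
    simp only [coe_image, Set.mem_image, coe_range, Set.mem_Iio] at hv
    obtain ⟨a, ha, rfl⟩ := hv
    obtain ⟨h1, l, q, x, h2, -⟩ := hf a ha
    exact ⟨h1, l, q, x, h2⟩
  have h1 := Set.encard_le_encard hsub
  rw [Set.encard_coe_eq_coe_finsetCard] at h1
  have h2 : (range 300).card ≤ 2 * (image f (range 300)).card := by
    refine card_le_mul_card_image (f := f) (range 300) 2 ?_
    intro v hv
    rw [mem_image] at hv
    obtain ⟨a0, ha0, hfa0⟩ := hv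
    obtain ⟨-, l, q, x, hv1, -⟩ := hf a0 (mem_range.1 ha0)
    rw [hfa0] at hv1
    have hs : (range 300).filter (fun a => f a = v) ⊆ {q, x % 300} := by
      intro a ha
      rw [mem_filter] at ha
      obtain ⟨-, l', q', x', hv2, hv3⟩ := hf a (mem_range.1 ha.1)
      rw [ha.2, hv1, Vtx.reg.injEq] at hv2
      obtain ⟨-, -, rfl, rfl⟩ := hv2
      rw [mem_insert, mem_singleton]
      rcases hv3 with h | h
      · exact Or.inl h.symm
      · exact Or.inr h.symm
    exact le_trans (card_le_card hs) (card_le_two)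
  rw [card_range] at h2
  have h3 : 150 ≤ (image f (range 300)).card := by omega
  calc (150 : ℕ∞) = ((150 : ℕ) : ℕ∞) := rfl
    _ ≤ ((image f (range 300)).card : ℕ∞) := by exact_mod_cast h3
    _ ≤ _ := h1

end Pool.Agent.Lib.MP_711ea9_lc.FH
end

section

set_option autoImplicit false

namespace Pool.Agent.Lib.MP_711ea9_lc.FH

open Finset

/-- TASK D3. The growth inequality.
Proof. Let `I` be the finset of all `t ∈ Ioc i0 i` with `N.clk t` and `door (cs t) (max t 6) ∉ F i`
(classical). For `t ∈ I` (`max t 6 ≤ i` since `i ≥ 14`) `clk_unit` and `Net.F_mono`, `Net.H_mono` give `v t ∈ H i`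
which is `path (cs t) j` with `j > i0` or `door (cs t) (max t 6)` (`max t 6 > i0`); choose such a function `v`. It is injective on
`I` by `cs_inj` (the strand of `v t` is `cs t`). Let `O = N.leaks S (i - tau)`; for `σ ∈ O` the set
`R σ = H i ∩ region σ` has encard `≥ 150` (`region_due` with `r = i - tau`, `r + tau = i`); choose finsets
`R' σ ⊆ R σ` with exactly 150 elements (`Set.exists_subset_encard_eq` and finiteness, or
`Set.exists_superset_subset_encard_eq`; `H i` is finite because `encard ≤ i`, so one can work with `Set.Finite.toFinset`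
and `Finset.exists_subset_card_eq`). The finsets `(H i0).toFinset`, `I.image v`, `O.biUnion R'` are pairwise disjoint subsets of `H i`:
`H i0` contains no `v t` and no region vertex by `p3` (`16 ≤ cs t` by `cs_bounds`); `v t` is a path or door vertex, regions are disjoint.
So `i0 + I.card + 150 * O.card ≤ i` (`hR.th i`, `p1`). The clk rounds of `Ioc i0 i` not in `I` have their door in `F i`; `t ↦ cs t` maps
them injectively into `N.leaks S i` (`cs_bounds`). With `clk_count`: `i - i0 ≤ I.card + (leaks i).card + 80`. Combine. -/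
theorem growth_ineq {N : Net} {k : ℕ} (hV : N.Valid k) {S : Set Vtx} (hR : N.Run S k)
    {i0 i : ℕ} (h0 : i0 = 0 ∨ 6 ≤ i0)
    (hp : ∀ σ s, σ < 16 + N.K → 1 ≤ s → s ≤ i0 → Vtx.path σ s ∈ N.F S s)
    (p1 : (i0 : ℕ∞) ≤ (N.H S i0).encard)
    (p3 : ∀ v ∈ N.H S i0, (∀ σ j, v = Vtx.path σ j → 16 ≤ σ → j ≤ i0) ∧
      (∀ σ t, v = Vtx.door σ t → t ≤ i0) ∧ ∀ σ, v ∉ region σ)
    (h14 : i0 + 14 ≤ i) (hL : i ≤ i0 + N.Lam) (hK : i ≤ i0 + N.K) (hT : i ≤ N.T)
    (hτ : N.tau ≤ i) :
    150 * (N.leaks S (i - N.tau)).card ≤ (N.leaks S i).card + 80 := by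
  classical
  -- finiteness of the due sets
  have hfin : ∀ j, (N.H S j).Finite := by
    intro j
    apply Set.finite_of_encard_le_coe (k := j)
    exact hR.th j
  set Hi : Finset Vtx := (hfin i).toFinset with hHi
  set H0 : Finset Vtx := (hfin i0).toFinset with hH0
  have hHi_card : Hi.card ≤ i := by
    have h1 := hR.th i
    rw [(hfin i).encard_eq_coe_toFinset_card] at h1
    exact_mod_cast h1
  have hH0_card : i0 ≤ H0.card := by
    have h1 := p1
    rw [(hfin i0).encard_eq_coe_toFinset_card] at h1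
    exact_mod_cast h1
  have hH0_sub : H0 ⊆ Hi := by
    intro v hv
    rw [hH0, Set.Finite.mem_toFinset] at hv
    rw [hHi, Set.Finite.mem_toFinset]
    exact Net.H_mono (show i0 ≤ i by omega) hv
  -- the clock rounds
  set A : Finset ℕ := (Ioc i0 i).filter (fun t => N.clk t) with hA
  set I : Finset ℕ := A.filter (fun t => Vtx.door (N.cs t) (max t 6) ∉ N.F S i) with hI
  have hex : ∀ t, ∃ v, t ∈ I → v ∈ N.H S i ∧
      ((∃ j, i0 < j ∧ v = Vtx.path (N.cs t) j) ∨
        (v = Vtx.door (N.cs t) (max t 6) ∧ i0 < max t 6)) := by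
    intro t
    by_cases ht : t ∈ I
    · rw [hI, mem_filter, hA, mem_filter, mem_Ioc] at ht
      obtain ⟨⟨⟨h1, h2⟩, h3⟩, h4⟩ := ht
      have hm : max t 6 ≤ i := by omega
      rcases clk_unit hV h0 hp h1 (by omega) h3 with h5 | ⟨v, h5, h6⟩
      · exact absurd (Net.F_mono hm h5) h4
      · refine ⟨v, fun _ => ⟨Net.H_mono hm h5, ?_⟩⟩
        rcases h6 with ⟨j, h7, -, h8⟩ | h7
        · exact Or.inl ⟨j, h7, h8⟩
        · exact Or.inr ⟨h7, by omega⟩
    · exact ⟨Vtx.src 0, fun h => absurd h ht⟩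
  choose v hv using hex
  have hIA : ∀ t ∈ I, t ∈ Ioc i0 i ∧ N.clk t := by
    intro t ht
    rw [hI, mem_filter, hA, mem_filter] at ht
    exact ht.1
  have hvinj : Set.InjOn v (I : Set ℕ) := by
    intro t ht t' ht' h
    have ht1 := hIA t ht
    have ht1' := hIA t' ht'
    refine cs_inj hV hK ht1.1 ht1'.1 ht1.2 ht1'.2 ?_
    rcases (hv t ht).2 with ⟨j, -, h1⟩ | ⟨h1, -⟩ <;>
      rcases (hv t' ht').2 with ⟨j', -, h2⟩ | ⟨h2, -⟩ <;>
      rw [h1, h2] at h
    · exact (Vtx.path.inj h).1
    · cases h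
    · cases h
    · exact (Vtx.door.inj h).1
  -- the regions
  set O : Finset ℕ := N.leaks S (i - N.tau) with hO
  have hRex : ∀ σ, ∃ R : Finset Vtx, σ ∈ O → R.card = 150 ∧ R ⊆ Hi ∧
      ∀ u ∈ R, u ∈ region σ := by
    intro σ
    by_cases hσ : σ ∈ O
    · have hσ' := hσ
      rw [hO] at hσ'
      unfold Net.leaks at hσ'
      rw [mem_filter] at hσ'
      obtain ⟨-, t, ht⟩ := hσ'
      have h1 := region_due hV hR ht
      rw [show i - N.tau + N.tau = i by omega] at h1
      have hf : (N.H S i ∩ region σ).Finite := (hfin i).subset Set.inter_subset_left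
      rw [hf.encard_eq_coe_toFinset_card] at h1
      have h2 : 150 ≤ hf.toFinset.card := by exact_mod_cast h1
      obtain ⟨R, hR1, hR2⟩ := exists_subset_card_eq h2
      refine ⟨R, fun _ => ⟨hR2, ?_, ?_⟩⟩
      · intro u hu
        have := hR1 hu
        rw [Set.Finite.mem_toFinset] at this
        rw [hHi, Set.Finite.mem_toFinset]
        exact this.1
      · intro u hu
        have := hR1 hu
        rw [Set.Finite.mem_toFinset] at this
        exact this.2
    · exact ⟨∅, fun h => absurd h hσ⟩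
  choose R hRR using hRex
  have hRdisj : (O : Set ℕ).PairwiseDisjoint R := by
    intro σ hσ σ' hσ' hne
    rw [Function.onFun, disjoint_left]
    intro u hu hu'
    obtain ⟨l, q, x, h1⟩ := (hRR σ hσ).2.2 u hu
    obtain ⟨l', q', x', h2⟩ := (hRR σ' hσ').2.2 u hu'
    rw [h1] at h2
    exact hne (Vtx.reg.inj h2).1
  have hBcard : (O.biUnion R).card = 150 * O.card := by
    rw [card_biUnion hRdisj]
    rw [sum_congr rfl (fun σ hσ => (hRR σ hσ).1), sum_const, smul_eq_mul, mul_comm]
  have hBsub : O.biUnion R ⊆ Hi := by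
    intro u hu
    obtain ⟨σ, hσ, hu⟩ := mem_biUnion.1 hu
    exact (hRR σ hσ).2.1 hu
  have hVsub : image v I ⊆ Hi := by
    intro u hu
    obtain ⟨t, ht, rfl⟩ := mem_image.1 hu
    rw [hHi, Set.Finite.mem_toFinset]
    exact (hv t ht).1
  -- disjointness
  have hd1 : Disjoint H0 (image v I) := by
    rw [disjoint_left]
    intro u hu hu'
    obtain ⟨t, ht, rfl⟩ := mem_image.1 hu'
    rw [hH0, Set.Finite.mem_toFinset] at hu
    obtain ⟨q1, q2, -⟩ := p3 _ hu
    have hb := cs_bounds hV (hIA t ht).2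
    rcases (hv t ht).2 with ⟨j, h1, h2⟩ | ⟨h1, h2⟩
    · have := q1 _ _ h2 hb.1
      omega
    · have := q2 _ _ h1
      omega
  have hd2 : Disjoint (H0 ∪ image v I) (O.biUnion R) := by
    rw [disjoint_left]
    intro u hu hu'
    obtain ⟨σ, hσ, hu'⟩ := mem_biUnion.1 hu'
    have hreg := (hRR σ hσ).2.2 u hu'
    rcases mem_union.1 hu with hu | hu
    · rw [hH0, Set.Finite.mem_toFinset] at hu
      exact (p3 _ hu).2.2 σ hreg
    · obtain ⟨t, ht, rfl⟩ := mem_image.1 hu
      obtain ⟨l, q, x, h3⟩ := hreg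
      rcases (hv t ht).2 with ⟨j, h1, h2⟩ | ⟨h1, h2⟩
      · rw [h2] at h3; cases h3
      · rw [h1] at h3; cases h3
  have hsum : H0.card + I.card + 150 * O.card ≤ Hi.card := by
    have h1 : ((H0 ∪ image v I) ∪ O.biUnion R).card = H0.card + I.card + 150 * O.card := by
      rw [card_union_of_disjoint hd2, card_union_of_disjoint hd1, card_image_of_injOn hvinj,
        hBcard]
    rw [← h1]
    exact card_le_card (union_subset (union_subset hH0_sub hVsub) hBsub)
  -- the rounds with a burning door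
  have hleak : (A.filter (fun t => ¬ (Vtx.door (N.cs t) (max t 6) ∉ N.F S i))).card ≤
      (N.leaks S i).card := by
    refine card_le_card_of_injOn (fun t => N.cs t) ?_ ?_
    · intro t ht
      rw [mem_coe, mem_filter, hA, mem_filter, not_not] at ht
      have hb := cs_bounds hV ht.1.2
      rw [mem_coe]
      unfold Net.leaks
      rw [mem_filter, mem_range]
      exact ⟨hb.2, _, ht.2⟩
    · intro t ht t' ht' h
      rw [mem_coe, mem_filter, hA, mem_filter] at ht ht'
      exact cs_inj hV hK ht.1.1 ht'.1.1 ht.1.2 ht'.1.2 h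
  have hsplit : I.card +
      (A.filter (fun t => ¬ (Vtx.door (N.cs t) (max t 6) ∉ N.F S i))).card = A.card := by
    rw [hI]
    exact card_filter_add_card_filter_not _
  have hcc : i - i0 ≤ A.card + 80 := by
    have h1 := clk_count hV hL
    rw [hA]
    convert h1
  omega

end Pool.Agent.Lib.MP_711ea9_lc.FH
end

section

set_option autoImplicit false

namespace Pool.Agent.Lib.MP_711ea9_lc.FH

open Finset

variable {N : Net} {k : ℕ}

private theorem Q1_bd {s : Set Vtx} (L : List Vtx) (h : ∀ u ∈ s, u ∈ L) (hL : L.length ≤ 301) :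
    s.encard ≤ 301 := by
  classical
  have h1 : s ⊆ (L.toFinset : Set Vtx) := by
    intro u hu
    rw [Finset.mem_coe, List.mem_toFinset]
    exact h u hu
  calc s.encard ≤ (L.toFinset : Set Vtx).encard := Set.encard_le_encard h1
    _ = (L.toFinset.card : ℕ∞) := Set.encard_coe_eq_coe_finsetCard _
    _ ≤ (301 : ℕ) := by exact_mod_cast (List.toFinset_card_le L).trans hL
    _ = 301 := rfl

private theorem Q1_div {L w a : ℕ} (h : a < L) : (L * w + a) / L = w := by
  rw [Nat.mul_add_div (by omega), Nat.div_eq_of_lt h, add_zero]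

private theorem Q1_rt (N : Net) (b w : ℕ) : N.rt b w = N.Lam * w + 16 ∨ N.rt b w = N.Lam * w + 17 := by
  unfold Net.rt Net.rho
  split_ifs
  · right; rfl
  · left; rfl

private theorem Q1_path (hV : N.Valid k) (σ t : ℕ) :
    (N.G.neighborSet (.path σ t)).encard ≤ 301 := by
  have hLam := hV.hLam'
  refine Q1_bd [.src 0, .path σ (t - 1), .path σ (t + 1), .door σ (t + 1),
    .stem σ ((t - 13) / N.Lam) 0, .chain σ (t / N.Lam) 0 (N.len σ (t / N.Lam) 0),
    .chain σ (t / N.Lam) 1 (N.len σ (t / N.Lam) 1)] ?_ (by simp)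
  intro u hu
  rw [SimpleGraph.mem_neighborSet, Net.adj_iff] at hu
  rcases hu with h | h
  · cases u with
    | src q => simp [Net.E] at h
    | path σ' t' =>
      simp only [Net.E] at h
      obtain ⟨h1, h2, h3, h4, h5⟩ := h
      subst h1; subst h4; simp
    | door σ' t' =>
      simp only [Net.E] at h
      obtain ⟨h1, h2, h3⟩ := h
      subst h1; subst h2; simp
    | reg σ' l r x => simp [Net.E] at h
    | stem b w j =>
      simp only [Net.E] at h
      obtain ⟨h1, h2, h3, h4⟩ := h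
      have h5 : (t - 13) / N.Lam = w := by
        rcases Q1_rt N b w with h6 | h6
        · have : t - 13 = N.Lam * w + 0 := by omega
          rw [this]; exact Q1_div (by omega)
        · have : t - 13 = N.Lam * w + 1 := by omega
          rw [this]; exact Q1_div (by omega)
      rw [h5]; subst h1; subst h3; simp
    | root b w => simp [Net.E] at h
    | nod b w => simp [Net.E] at h
    | chain b w c j => simp [Net.E] at h
  · cases u with
    | src q =>
      simp only [Net.E] at h
      obtain ⟨h1, h2, h3⟩ := h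
      subst h1; simp
    | path σ' t' =>
      simp only [Net.E] at h
      obtain ⟨h1, h2, h3, h4, h5⟩ := h
      subst h1
      have : t' = t - 1 := by omega
      subst this; simp
    | door σ' t' => simp [Net.E] at h
    | reg σ' l r x => simp [Net.E] at h
    | stem b w j => simp [Net.E] at h
    | root b w => simp [Net.E] at h
    | nod b w => simp [Net.E] at h
    | chain b w c j =>
      simp only [Net.E] at h
      obtain ⟨h1, h2, h3, h4, h5⟩ := h
      have hb : b < 16 := h2.1
      have h6 : t / N.Lam = w := by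
        unfold Net.rho Net.dl at h5
        rcases h5 with h5 | h5
        · have : t = N.Lam * w + (32 + 4 * b + 2 * c) := by omega
          rw [this]; exact Q1_div (by omega)
        · have : t = N.Lam * w + (33 + 4 * b + 2 * c) := by omega
          rw [this]; exact Q1_div (by omega)
      rw [h6]; subst h1
      have hc : c = 0 ∨ c = 1 := by omega
      rcases hc with hc | hc
      · subst hc; subst h4; simp
      · subst hc; subst h4; simp

private theorem Q1_door (σ t : ℕ) : (N.G.neighborSet (.door σ t)).encard ≤ 301 := by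
  refine Q1_bd (Vtx.path σ (t - 1) :: (List.range 300).map fun y => Vtx.reg σ 0 0 (600 * t + y))
    ?_ (by simp)
  intro u hu
  rw [SimpleGraph.mem_neighborSet, Net.adj_iff] at hu
  rcases hu with h | h
  · cases u with
    | reg σ' l r x =>
      simp only [Net.E] at h
      obtain ⟨h1, h2, h3, h4, h5, h6⟩ := h
      refine List.mem_cons_of_mem _ (List.mem_map.2 ⟨x % 600, List.mem_range.2 h6, ?_⟩)
      have : 600 * t + x % 600 = x := by omega
      rw [this, h1, h3, h4]
    | _ => simp [Net.E] at h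
  · cases u with
    | path σ' t' =>
      simp only [Net.E] at h
      obtain ⟨h1, h2, h3⟩ := h
      subst h1; subst h2; simp
    | _ => simp [Net.E] at h

private theorem Q1_reg (σ l r x : ℕ) : (N.G.neighborSet (.reg σ l r x)).encard ≤ 301 := by
  refine Q1_bd [.reg σ l r (x + 1), .reg σ l (r + 1) x,
    .reg σ (l + 1) 0 (300 * (x / 600) + x % 600), .reg σ l r (x - 1), .reg σ l (r - 1) x,
    .reg σ (l - 1) 299 (600 * (x / 300) + x % 300), .door σ (x / 600)] ?_ (by simp)
  intro u hu
  rw [SimpleGraph.mem_neighborSet, Net.adj_iff] at hu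
  rcases hu with h | h
  · cases u with
    | reg σ' l' r' x' =>
      simp only [Net.E] at h
      obtain ⟨h1, -, -, -, -, -, -, -, h9⟩ := h
      subst h1
      rcases h9 with ⟨h2, h3, h4⟩ | ⟨h2, h3, h4⟩ | ⟨h2, h3, h4, h5, h6⟩
      · subst h2; subst h3; subst h4; simp
      · subst h2; subst h3; subst h4; simp
      · subst h2; subst h4; subst h6; simp
    | _ => simp [Net.E] at h
  · cases u with
    | door σ' t' =>
      simp only [Net.E] at h
      obtain ⟨h1, h2, h3, h4, h5, h6⟩ := h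
      subst h1; subst h5; simp
    | reg σ' l' r' x' =>
      simp only [Net.E] at h
      obtain ⟨h1, -, -, -, -, -, -, -, h9⟩ := h
      subst h1
      rcases h9 with ⟨h2, h3, h4⟩ | ⟨h2, h3, h4⟩ | ⟨h2, h3, h4, h5, h6⟩
      · subst h2; subst h3
        have : x' = x - 1 := by omega
        subst this; simp
      · subst h2; subst h4
        have : r' = r - 1 := by omega
        subst this; simp
      · have e1 : l' = l - 1 := by omega
        have e2 : x' = 600 * (x / 300) + x % 300 := by omega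
        subst h3
        rw [e1, e2]; simp
    | _ => simp [Net.E] at h

private theorem Q1_stem (b w j : ℕ) : (N.G.neighborSet (.stem b w j)).encard ≤ 301 := by
  refine Q1_bd [.path b (N.rt b w - 3), .stem b w 1, .stem b w 0, .root b w] ?_ (by simp)
  intro u hu
  rw [SimpleGraph.mem_neighborSet, Net.adj_iff] at hu
  rcases hu with h | h
  · cases u with
    | stem b' w' j' =>
      simp only [Net.E] at h
      obtain ⟨h1, h2, h3, h4, h5⟩ := h
      subst h1; subst h2; subst h5; simp
    | root b' w' =>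
      simp only [Net.E] at h
      obtain ⟨h1, h2, h3, h4⟩ := h
      subst h1; subst h2; simp
    | _ => simp [Net.E] at h
  · cases u with
    | path σ t =>
      simp only [Net.E] at h
      obtain ⟨h1, h2, h3, h4⟩ := h
      have : t = N.rt b w - 3 := by omega
      subst h1; subst this; simp
    | stem b' w' j' =>
      simp only [Net.E] at h
      obtain ⟨h1, h2, h3, h4, h5⟩ := h
      subst h1; subst h2; subst h4; simp
    | _ => simp [Net.E] at h

private theorem Q1_root (hV : N.Valid k) (b w : ℕ) : (N.G.neighborSet (.root b w)).encard ≤ 301 := by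
  refine Q1_bd [.stem b w 1, .root b (N.l1 w (b / 2)), .root b (N.fr w (b / 2)), .nod b w,
    .nod b (N.fr w (b / 2)), .chain b w 0 1, .chain b w 1 1] ?_ (by simp)
  intro u hu
  rw [SimpleGraph.mem_neighborSet, Net.adj_iff] at hu
  rcases hu with h | h
  · cases u with
    | root b' w' =>
      simp only [Net.E] at h
      obtain ⟨h1, h2, h3, h4, h5⟩ := h
      subst h1; subst h4; simp
    | nod b' w' =>
      simp only [Net.E] at h
      obtain ⟨h1, h2, h3, h4, h5⟩ := h
      subst h1; subst h2; simp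
    | chain b' w' c j =>
      simp only [Net.E] at h
      obtain ⟨h1, h2, h3, h4, h5⟩ := h
      subst h1; subst h2; subst h5
      have hc : c = 0 ∨ c = 1 := by omega
      rcases hc with hc | hc
      · subst hc; simp
      · subst hc; simp
    | _ => simp [Net.E] at h
  · cases u with
    | stem b' w' j =>
      simp only [Net.E] at h
      obtain ⟨h1, h2, h3, h4⟩ := h
      subst h1; subst h2; subst h4; simp
    | root b' w' =>
      simp only [Net.E] at h
      obtain ⟨h1, h2, h3, h4, h5⟩ := h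
      have h6 := (hV.link1 w' (b' / 2) h2.2.1 (by have := h2.1; omega) h3).2.2.2
      rw [← h4] at h6
      subst h1
      rw [h6]; simp
    | nod b' w' =>
      simp only [Net.E] at h
      obtain ⟨h1, h2, h3, h4, h5⟩ := h
      have h6 := (hV.link2 w' (b' / 2) h2.2.1 (by have := h2.1; omega) h3 h4).2.2.2
      rw [← h5] at h6
      subst h1
      rw [h6]; simp
    | _ => simp [Net.E] at h

private theorem Q1_nod (b w : ℕ) : (N.G.neighborSet (.nod b w)).encard ≤ 301 := by
  refine Q1_bd [.root b w, .root b (N.l2 w (b / 2))] ?_ (by simp)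
  intro u hu
  rw [SimpleGraph.mem_neighborSet, Net.adj_iff] at hu
  rcases hu with h | h
  · cases u with
    | root b' w' =>
      simp only [Net.E] at h
      obtain ⟨h1, h2, h3, h4, h5⟩ := h
      subst h1; subst h5; simp
    | _ => simp [Net.E] at h
  · cases u with
    | root b' w' =>
      simp only [Net.E] at h
      obtain ⟨h1, h2, h3, h4, h5⟩ := h
      subst h1; subst h2; simp
    | _ => simp [Net.E] at h

private theorem Q1_chain (b w c j : ℕ) : (N.G.neighborSet (.chain b w c j)).encard ≤ 301 := by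
  refine Q1_bd [.root b w, .chain b w c (j + 1), .chain b w c (j - 1),
    .path b (N.rho w + Net.dl b c), .path b (N.rho w + Net.dl b c + 1)] ?_ (by simp)
  intro u hu
  rw [SimpleGraph.mem_neighborSet, Net.adj_iff] at hu
  rcases hu with h | h
  · cases u with
    | path σ t =>
      simp only [Net.E] at h
      obtain ⟨h1, h2, h3, h4, h5⟩ := h
      subst h1
      rcases h5 with h5 | h5
      · subst h5; simp
      · subst h5; simp
    | chain b' w' c' j' =>
      simp only [Net.E] at h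
      obtain ⟨h1, h2, h3, h4, h5, h6, h7, h8⟩ := h
      subst h1; subst h2; subst h3; subst h7; simp
    | _ => simp [Net.E] at h
  · cases u with
    | root b' w' =>
      simp only [Net.E] at h
      obtain ⟨h1, h2, h3, h4, h5⟩ := h
      subst h1; subst h2; simp
    | chain b' w' c' j' =>
      simp only [Net.E] at h
      obtain ⟨h1, h2, h3, h4, h5, h6, h7, h8⟩ := h
      subst h1; subst h2; subst h3; subst h7; simp
    | _ => simp [Net.E] at h

/-- TASK Q1a. The neighbours of a vertex which is not `src`: a list of candidates.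
Proof. Write the neighbours as a finset of cardinality at most 301: `Net.adj_iff`, then cases on the neighbour and `simp [Net.E]`.
path σ t: `src 0, path σ (t-1), path σ (t+1), door σ (t+1), stem σ ((t-13)/Lam) 0, chain σ (t/Lam) 0 (len ..), chain σ (t/Lam) 1 (len ..)` (7 candidates): `t + 3 = rt b w ∈ {rho w, rho w + 1}` and `rho w = Lam w + 16`, so `w = (t + 3 - 16) / Lam`; `t = rho w + dl b c (+ 1)`, `32 ≤ t - Lam w ≤ 95 < Lam` (`b < 16`, `c < 2`), so `w = t / Lam`.
door σ t: `path σ (t-1)` and `reg σ 0 0 (600 t + y)`, `y < 300` (301 candidates).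
reg σ l r x: `(l, r, x ± 1), (l, r ± 1, x), (l + 1, 0, 300 (x/600) + x % 600), (l - 1, 299, 600 (x/300) + x % 300), door σ (x/600)` (for the edge from above: `x = 300 (x'/600) + x' % 600` with `x' % 600 < 300`, so `x'/600 = x/300`, `x' % 600 = x % 300`).
stem b w j: `path b (rt b w - 3), stem b w (1 - j), root b w`. root b w: `stem b w 1, root b (l1 w (b/2)), root b (fr w (b/2)), nod b w, nod b (fr w (b/2)), chain b w 0 1, chain b w 1 1` (a root or nod `w'` with a link to `w` has `fr w (b/2) = w'`: `hV.link1`, `hV.link2`). nod b w: `root b w, root b (l2 w (b/2))`. chain b w c j: `root b w, chain b w c (j ± 1), path b (rho w + dl b c), path b (rho w + dl b c + 1)`. -/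
theorem nbr_bound (hV : N.Valid k) (v : Vtx) (hv : ∀ q, v ≠ .src q) :
    (N.G.neighborSet v).encard ≤ 301 := by
  cases v with
  | src q => exact absurd rfl (hv q)
  | path σ t => exact Q1_path hV σ t
  | door σ t => exact Q1_door σ t
  | reg σ l r x => exact Q1_reg σ l r x
  | stem b w j => exact Q1_stem b w j
  | root b w => exact Q1_root hV b w
  | nod b w => exact Q1_nod b w
  | chain b w c j => exact Q1_chain b w c j

/-- TASK Q1b. The degree of the source. Proof: the neighbours of `src q` are of the form `path σ 1` with `σ < 22 + K`. -/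
theorem src_bound (N : Net) (q : ℕ) : (N.G.neighborSet (.src q)).encard ≤ (22 + N.K : ℕ) := by
  classical
  have h1 : N.G.neighborSet (.src q) ⊆
      (((range (22 + N.K)).image fun σ => Vtx.path σ 1 : Finset Vtx) : Set Vtx) := by
    intro u hu
    rw [SimpleGraph.mem_neighborSet, Net.adj_iff] at hu
    rcases hu with h | h
    · cases u with
      | path σ t =>
        simp only [Net.E] at h
        obtain ⟨h1, h2, h3⟩ := h
        subst h2
        rw [Finset.mem_coe, Finset.mem_image]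
        exact ⟨σ, Finset.mem_range.2 h3, rfl⟩
      | _ => simp [Net.E] at h
    · cases u <;> simp [Net.E] at h
  refine (Set.encard_le_encard h1).trans ?_
  rw [Set.encard_coe_eq_coe_finsetCard]
  exact_mod_cast Finset.card_image_le.trans_eq (Finset.card_range _)

/-- TASK Q1c. The degrees in the pulled back graph. Proof: the map `dec` is injective on `Fin (8 Y)` and maps the neighbours of `u` to the neighbours of `dec u` (`Set.encard_le_encard`, `Function.Injective.encard_image`); `ncard` of a set with `encard ≤ c` is `≤ c` (`Set.ncard_le_encard`-type lemma or `ENat.toNat_le_of_le_coe`). -/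
theorem deg_bound (hV : N.Valid k) (u : Fin (8 * N.Y)) :
    ((N.G.comap (fun i : Fin (8 * N.Y) => N.dec i)).neighborSet u).ncard ≤ N.K + 400 := by
  have h1 : (fun i : Fin (8 * N.Y) => N.dec i) ''
      ((N.G.comap (fun i : Fin (8 * N.Y) => N.dec i)).neighborSet u) ⊆
      N.G.neighborSet (N.dec u) := by
    rintro _ ⟨i, hi, rfl⟩
    exact hi
  have hinj : Function.Injective (fun i : Fin (8 * N.Y) => N.dec i) := by
    intro i j hij
    exact Fin.ext (dec_inj hV i.2 j.2 hij)
  have h2 : ((N.G.comap (fun i : Fin (8 * N.Y) => N.dec i)).neighborSet u).encard ≤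
      ((N.K + 400 : ℕ) : ℕ∞) := by
    rw [← hinj.encard_image]
    refine (Set.encard_le_encard h1).trans ?_
    by_cases hs : ∃ q, N.dec u = .src q
    · obtain ⟨q, hq⟩ := hs
      rw [hq]
      refine (src_bound N q).trans ?_
      exact_mod_cast (by omega : 22 + N.K ≤ N.K + 400)
    · refine (nbr_bound hV (N.dec u) (fun q hq => hs ⟨q, hq⟩)).trans ?_
      exact_mod_cast (by omega : 301 ≤ N.K + 400)
  exact (Set.encard_le_coe_iff_finite_ncard_le.1 h2).2

end Pool.Agent.Lib.MP_711ea9_lc.FH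
end
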