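import Pool.Agent.Lib.MP_711ea9_lc.Mg.G001
import Pool.Agent.Lib.MP_711ea9_lc.FH.Code
import Pool.Agent.Lib.MP_711ea9_lc.FH.J10
import Pool.Agent.Lib.MP_711ea9_lc.FH.CNF

section

set_option autoImplicit false
set_option linter.unreachableTactic false
set_option linter.unusedTactic false
set_option linter.unusedVariables false
set_option linter.unusedSimpArgs false

namespace Pool.Agent.Lib.MP_711ea9_lc.FH

open Finset

variable {k : ℕ} {m u v : (ℕ → ℕ) → (Fin k → ℕ) → ℕ}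

theorem cp_X (hm : Cp m) : Cp (fun A e => (satNet A (m A e)).X) := by
  show Cp (fun A e => 600 * 2 ^ Sn.h (m A e))
  exact Cp.mul (Cp.const _) (cp_2h hm)

theorem cp_Y (hm : Cp m) : Cp (fun A e => (satNet A (m A e)).Y) := by
  show Cp (fun A e => (22 + Sn.K (m A e)) * (Sn.h (m A e) + 1) * 300 * (satNet A (m A e)).X)
  exact Cp.mul (Cp.mul (Cp.mul (Cp.add (Cp.const _) (cp_K hm)) (Cp.add (cp_h hm) (Cp.const _)))
    (Cp.const _)) (cp_X hm)

/-- Adjacency of decoded vertices, kind by kind. -/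
theorem J8_E_dec (N : Net) (u v : ℕ) :
    ((u / N.Y = 0 ∧ v / N.Y = 1 ∧ N.E (.src (u % N.Y)) (.path (v % N.Y / (N.T + 1)) (v % N.Y % (N.T + 1)))) ∨
    (u / N.Y = 1 ∧ v / N.Y = 1 ∧ N.E (.path (u % N.Y / (N.T + 1)) (u % N.Y % (N.T + 1)))
      (.path (v % N.Y / (N.T + 1)) (v % N.Y % (N.T + 1)))) ∨
    (u / N.Y = 1 ∧ v / N.Y = 2 ∧ N.E (.path (u % N.Y / (N.T + 1)) (u % N.Y % (N.T + 1)))
      (.door (v % N.Y / (N.T + 1)) (v % N.Y % (N.T + 1)))) ∨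
    (u / N.Y = 2 ∧ v / N.Y = 3 ∧ N.E (.door (u % N.Y / (N.T + 1)) (u % N.Y % (N.T + 1)))
      (.reg (v % N.Y / N.X / 300 / (N.h + 1)) (v % N.Y / N.X / 300 % (N.h + 1))
        (v % N.Y / N.X % 300) (v % N.Y % N.X))) ∨
    (u / N.Y = 3 ∧ v / N.Y = 3 ∧ N.E (.reg (u % N.Y / N.X / 300 / (N.h + 1))
        (u % N.Y / N.X / 300 % (N.h + 1)) (u % N.Y / N.X % 300) (u % N.Y % N.X))
      (.reg (v % N.Y / N.X / 300 / (N.h + 1)) (v % N.Y / N.X / 300 % (N.h + 1))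
        (v % N.Y / N.X % 300) (v % N.Y % N.X))) ∨
    (u / N.Y = 1 ∧ v / N.Y = 4 ∧ N.E (.path (u % N.Y / (N.T + 1)) (u % N.Y % (N.T + 1)))
      (.stem (v % N.Y / 2 / N.nw) (v % N.Y / 2 % N.nw) (v % N.Y % 2))) ∨
    (u / N.Y = 4 ∧ v / N.Y = 4 ∧ N.E
      (.stem (u % N.Y / 2 / N.nw) (u % N.Y / 2 % N.nw) (u % N.Y % 2))
      (.stem (v % N.Y / 2 / N.nw) (v % N.Y / 2 % N.nw) (v % N.Y % 2))) ∨
    (u / N.Y = 4 ∧ v / N.Y = 5 ∧ N.E
      (.stem (u % N.Y / 2 / N.nw) (u % N.Y / 2 % N.nw) (u % N.Y % 2))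
      (.root (v % N.Y / N.nw) (v % N.Y % N.nw))) ∨
    (u / N.Y = 5 ∧ v / N.Y = 5 ∧ N.E (.root (u % N.Y / N.nw) (u % N.Y % N.nw))
      (.root (v % N.Y / N.nw) (v % N.Y % N.nw))) ∨
    (u / N.Y = 5 ∧ v / N.Y = 6 ∧ N.E (.root (u % N.Y / N.nw) (u % N.Y % N.nw))
      (.nod (v % N.Y / N.nw) (v % N.Y % N.nw))) ∨
    (u / N.Y = 6 ∧ v / N.Y = 5 ∧ N.E (.nod (u % N.Y / N.nw) (u % N.Y % N.nw))
      (.root (v % N.Y / N.nw) (v % N.Y % N.nw))) ∨
    (u / N.Y = 5 ∧ 7 ≤ v / N.Y ∧ N.E (.root (u % N.Y / N.nw) (u % N.Y % N.nw))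
      (.chain (v % N.Y / 16 / N.nw) (v % N.Y / 16 % N.nw) (v % N.Y / 8 % 2) (v % N.Y % 8))) ∨
    (7 ≤ u / N.Y ∧ 7 ≤ v / N.Y ∧ N.E
      (.chain (u % N.Y / 16 / N.nw) (u % N.Y / 16 % N.nw) (u % N.Y / 8 % 2) (u % N.Y % 8))
      (.chain (v % N.Y / 16 / N.nw) (v % N.Y / 16 % N.nw) (v % N.Y / 8 % 2) (v % N.Y % 8))) ∨
    (7 ≤ u / N.Y ∧ v / N.Y = 1 ∧ N.E
      (.chain (u % N.Y / 16 / N.nw) (u % N.Y / 16 % N.nw) (u % N.Y / 8 % 2) (u % N.Y % 8))
      (.path (v % N.Y / (N.T + 1)) (v % N.Y % (N.T + 1))))) ↔ N.E (N.dec u) (N.dec v) := by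
  unfold Net.dec
  generalize u / N.Y = a
  generalize v / N.Y = b
  have ha : a = 0 ∨ a = 1 ∨ a = 2 ∨ a = 3 ∨ a = 4 ∨ a = 5 ∨ a = 6 ∨ 7 ≤ a := by omega
  have hb : b = 0 ∨ b = 1 ∨ b = 2 ∨ b = 3 ∨ b = 4 ∨ b = 5 ∨ b = 6 ∨ 7 ≤ b := by omega
  have h7 : ∀ a : ℕ, 7 ≤ a → a ≠ 0 ∧ a ≠ 1 ∧ a ≠ 2 ∧ a ≠ 3 ∧ a ≠ 4 ∧ a ≠ 5 ∧ a ≠ 6 := by
    intro a h; omega
  rcases ha with h | h | h | h | h | h | h | h <;>
  rcases hb with h' | h' | h' | h' | h' | h' | h' | h' <;>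
  first
  | (subst h; subst h'; simp only [Net.E]; norm_num)
  | (obtain ⟨e0, e1, e2, e3, e4, e5, e6⟩ := h7 a h
     subst h'
     simp only [Net.E, e0, e1, e2, e3, e4, e5, e6, h, if_false, false_and, true_and, false_or,
       or_false]
     norm_num)
  | (obtain ⟨e0, e1, e2, e3, e4, e5, e6⟩ := h7 b h'
     subst h
     simp only [Net.E, e0, e1, e2, e3, e4, e5, e6, h', if_false, false_and, true_and, false_or,
       or_false]
     norm_num)
  | (obtain ⟨e0, e1, e2, e3, e4, e5, e6⟩ := h7 b h'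
     obtain ⟨f0, f1, f2, f3, f4, f5, f6⟩ := h7 a h
     simp only [Net.E, e0, e1, e2, e3, e4, e5, e6, f0, f1, f2, f3, f4, f5, f6, h, h',
       if_false, false_and, true_and, false_or, or_false])

/-- TASK J8. Adjacency of codes is computable. -/
theorem pp_E (hm : Cp m) (hu : Cp u) (hv : Cp v) :
    Pp (fun A e => (satNet A (m A e)).E ((satNet A (m A e)).dec (u A e))
      ((satNet A (m A e)).dec (v A e))) := by
  refine Pp.iff_of ?_ (fun A e => J8_E_dec (satNet A (m A e)) (u A e) (v A e))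
  have hX := cp_X hm
  have hY := cp_Y hm
  have hT : Cp (fun A e => (satNet A (m A e)).T) := cp_T hm
  have hn : Cp (fun A e => (satNet A (m A e)).nw) := cp_nw hm
  have hh : Cp (fun A e => (satNet A (m A e)).h) := cp_h hm
  with_reducible repeat' first
    | exact hm
    | exact hu
    | exact hv
    | exact hX
    | exact hY
    | exact hT
    | exact hn
    | exact hh
    | exact Cp.const _
    | apply pe_src_path
    | apply pe_path_path
    | apply pe_path_door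
    | apply pe_door_reg
    | apply pe_reg_reg
    | apply pe_path_stem
    | apply pe_stem_stem
    | apply pe_stem_root
    | apply pe_root_root
    | apply pe_root_nod
    | apply pe_nod_root
    | apply pe_root_chain
    | apply pe_chain_chain
    | apply pe_chain_path
    | apply Cp.add
    | apply Cp.mul
    | apply Cp.div
    | apply Cp.mod
    | apply Pp.or
    | apply Pp.and
    | apply Pp.eq
    | apply Pp.le

end Pool.Agent.Lib.MP_711ea9_lc.FH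
end

section

set_option autoImplicit false

namespace Pool.Agent.Lib.MP_711ea9_lc.FH

open Finset

private theorem j11_code {m : ℕ} (φ : CNF3 m) (c : Fin m) (i : Fin 3) :
    φ.code (3 * (c : ℕ) + (i : ℕ)) =
      2 * ((φ c i).1 : ℕ) + (if (φ c i).2 = true then 1 else 0) := by
  have hc := c.isLt
  have hi := i.isLt
  have h : 3 * (c : ℕ) + (i : ℕ) < 3 * m := by omega
  have e1 : (3 * (c : ℕ) + (i : ℕ)) / 3 = c := by omega
  have e2 : (3 * (c : ℕ) + (i : ℕ)) % 3 = i := by omega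
  have f1 : (⟨(3 * (c : ℕ) + (i : ℕ)) / 3, by omega⟩ : Fin m) = c := Fin.ext e1
  have f2 : (⟨(3 * (c : ℕ) + (i : ℕ)) % 3, by omega⟩ : Fin 3) = i := Fin.ext e2
  unfold CNF3.code
  rw [dif_pos h, f1, f2]

private theorem j11_div {m : ℕ} (φ : CNF3 m) (c : Fin m) (i : Fin 3) :
    φ.code (3 * (c : ℕ) + (i : ℕ)) / 2 = ((φ c i).1 : ℕ) := by
  rw [j11_code]
  split_ifs <;> omega

private theorem j11_mod {m : ℕ} (φ : CNF3 m) (c : Fin m) (i : Fin 3) :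
    φ.code (3 * (c : ℕ) + (i : ℕ)) % 2 = 1 ↔ (φ c i).2 = true := by
  rw [j11_code]
  split_ifs with h
  · exact ⟨fun _ => h, fun _ => by omega⟩
  · exact ⟨fun h' => by omega, fun h' => absurd h' h⟩

private theorem j11_pos {i n a b : ℕ} (ha : a < n) (hb : b < n) (h : i = a * n + b) :
    i < n * n ∧ i / n = a ∧ i % n = b := by
  have hn : 0 < n := by omega
  subst h
  refine ⟨?_, ?_, ?_⟩
  · have h1 : (a + 1) * n ≤ n * n := Nat.mul_le_mul_right n ha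
    have h2 : (a + 1) * n = a * n + n := by ring
    omega
  · rw [Nat.mul_comm, Nat.mul_add_div hn, Nat.div_eq_of_lt hb, Nat.add_zero]
  · rw [Nat.mul_comm, Nat.mul_add_mod, Nat.mod_eq_of_lt hb]

open scoped Classical in
private theorem j11_gen {n K : ℕ} (hn : n = K) (G : SimpleGraph (Fin K)) (P : ℕ → ℕ → Prop)
    (hP : ∀ u v : Fin K, G.Adj u v ↔ P u v) (i : ℕ) :
    (if i < n * n then (if P (i / n) (i % n) then 1 else 0) else 0) =
      (if ∃ u v : Fin K, G.Adj u v ∧ i = u * K + v then 1 else 0) := by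
  subst hn
  have key : (∃ u v : Fin n, G.Adj u v ∧ i = u * n + v) ↔ (i < n * n ∧ P (i / n) (i % n)) := by
    constructor
    · rintro ⟨u, v, hadj, hi⟩
      obtain ⟨h1, h2, h3⟩ := j11_pos u.isLt v.isLt hi
      rw [h2, h3]
      exact ⟨h1, (hP u v).1 hadj⟩
    · rintro ⟨h1, h2⟩
      have hn0 : 0 < n := by
        rcases Nat.eq_zero_or_pos n with h | h
        · subst h
          omega
        · exact h
      refine ⟨⟨i / n, Nat.div_lt_of_lt_mul h1⟩, ⟨i % n, Nat.mod_lt _ hn0⟩, (hP _ _).2 h2, ?_⟩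
      show i = i / n * n + i % n
      rw [Nat.mul_comm]
      exact (Nat.div_add_mod i n).symm
  by_cases h1 : i < n * n
  · rw [if_pos h1]
    by_cases h2 : P (i / n) (i % n)
    · rw [if_pos h2, if_pos (key.2 ⟨h1, h2⟩)]
    · rw [if_neg h2, if_neg (fun h => h2 (key.1 h).2)]
  · rw [if_neg h1, if_neg (fun h => h1 (key.1 h).1)]

/-- TASK J11a. Satisfiability. Proof: (→) given `x : ℕ → Bool` take `fun v => x v`; (←) given `x` on `Fin (3 m)` take `fun v => if h : v < 3 * m then x ⟨v, h⟩ else false`. For `c < m`, `i < 3`: `3 c + i < 3 m`, `(3 c + i) / 3 = c`, `(3 c + i) % 3 = i`, `code / 2 = v`, `code % 2 = 1 ↔ b = true`. -/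
theorem sat3_code {m : ℕ} (φ : CNF3 m) : Sat3 φ.code m ↔ φ.Sat := by
  constructor
  · rintro ⟨x, hx⟩
    refine ⟨fun v => x v, fun c => ?_⟩
    obtain ⟨i, hi, h⟩ := hx c c.isLt
    refine ⟨⟨i, hi⟩, ?_⟩
    have h1 := j11_div φ c ⟨i, hi⟩
    have h2 := j11_mod φ c ⟨i, hi⟩
    simp only at h1 h2
    rw [h1, h2] at h
    exact Bool.eq_iff_iff.2 h
  · rintro ⟨x, hx⟩
    refine ⟨fun v => if h : v < 3 * m then x ⟨v, h⟩ else false, fun c hc => ?_⟩
    obtain ⟨i, h⟩ := hx ⟨c, hc⟩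
    refine ⟨i, i.isLt, ?_⟩
    have h1 := j11_div φ ⟨c, hc⟩ i
    have h2 := j11_mod φ ⟨c, hc⟩ i
    simp only at h1 h2
    rw [h1, h2]
    have h3 : ((φ ⟨c, hc⟩ i).1 : ℕ) < 3 * m := (φ ⟨c, hc⟩ i).1.isLt
    have h4 : (⟨((φ ⟨c, hc⟩ i).1 : ℕ), h3⟩ : Fin (3 * m)) = (φ ⟨c, hc⟩ i).1 := rfl
    show (if h : ((φ ⟨c, hc⟩ i).1 : ℕ) < 3 * m then x ⟨((φ ⟨c, hc⟩ i).1 : ℕ), h⟩ else false) = true ↔
      (φ ⟨c, hc⟩ i).2 = true
    rw [dif_pos h3, h4, h]

/-- TASK J11b. Codes are small. Proof: `2 v + 1 ≤ 6 m`. -/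
theorem code_le {m : ℕ} (φ : CNF3 m) (j : ℕ) : φ.code j ≤ 6 * m ∧ (3 * m ≤ j → φ.code j = 0) := by
  unfold CNF3.code
  constructor
  · split_ifs with h1 h2
    · have h3 := (φ ⟨j / 3, by omega⟩ ⟨j % 3, by omega⟩).1.isLt
      omega
    · have h3 := (φ ⟨j / 3, by omega⟩ ⟨j % 3, by omega⟩).1.isLt
      omega
    · omega
  · intro h
    rw [dif_neg (by omega)]

/-- The entry of the adjacency matrix. -/
def adjB (A : ℕ → ℕ) (M u v : ℕ) : Prop :=
  u ≠ v ∧ ((satNet A M).E ((satNet A M).dec u) ((satNet A M).dec v) ∨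
    (satNet A M).E ((satNet A M).dec v) ((satNet A M).dec u))

open scoped Classical in
/-- TASK J11c. The terms of the reduction. Proof: `cp_Y`, `cp_kk`, `Cp.mul`, `Cp.const`; `Cp.ite` with `pp_E`, `Pp.or`, `Pp.ne`, `Pp.and`, `Cp.div`, `Cp.mod`, `Cp.var`. (Each is an existence statement of the form `Cp ..`.) -/
theorem sat_terms : ∃ (tn tk tq : Tm 1) (tb : Tm 3),
    (∀ A e, tn.eval A e = 8 * (satNet A (e 0)).Y) ∧
    (∀ A e, tk.eval A e = Sn.kk (e 0)) ∧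
    (∀ A e, tq.eval A e = (8 * (satNet A (e 0)).Y) * (8 * (satNet A (e 0)).Y)) ∧
    (∀ A e, tb.eval A e = if adjB A (e 0) (e 2 / e 1) (e 2 % e 1) then 1 else 0) := by
  have hY : Cp (fun A (e : Fin 1 → ℕ) => 8 * (satNet A (e 0)).Y) :=
    (Cp.const 8).mul (cp_Y (Cp.var 0))
  have hk : Cp (fun _ (e : Fin 1 → ℕ) => Sn.kk (e 0)) := cp_kk (Cp.var 0)
  have hq : Cp (fun A (e : Fin 1 → ℕ) => (8 * (satNet A (e 0)).Y) * (8 * (satNet A (e 0)).Y)) :=
    hY.mul hY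
  have hu : Cp (fun _ (e : Fin 3 → ℕ) => e 2 / e 1) := (Cp.var 2).div (Cp.var 1)
  have hv : Cp (fun _ (e : Fin 3 → ℕ) => e 2 % e 1) := (Cp.var 2).mod (Cp.var 1)
  have hm : Cp (fun _ (e : Fin 3 → ℕ) => e 0) := Cp.var 0
  have hb : Pp (fun A (e : Fin 3 → ℕ) => adjB A (e 0) (e 2 / e 1) (e 2 % e 1)) :=
    (Pp.ne hu hv).and ((pp_E hm hu hv).or (pp_E hm hv hu))
  obtain ⟨tn, h1⟩ := hY
  obtain ⟨tk, h2⟩ := hk
  obtain ⟨tq, h3⟩ := hq
  obtain ⟨tb, h4⟩ := hb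
  exact ⟨tn, tk, tq, tb, h1, h2, h3, h4⟩

open scoped Classical in
/-- TASK J11d. The adjacency matrix. Proof: `i < n * n` is `u * n + v` exactly for `u = i / n`, `v = i % n` (`Nat.div_lt_iff_lt_mul`, `Nat.div_add_mod`, for the converse `Nat.add_mul_div`, `Nat.mod_eq_of_lt`); `satG` is a `comap` (`SimpleGraph.comap_adj`), `Net.adj_iff`, and `u ≠ v` follows from adjacency (`SimpleGraph.ne_of_adj`). For `i ≥ n * n` there are no such `u`, `v`. -/
theorem matrix_eq {A : ℕ → ℕ} {M n : ℕ} (hn : n = 8 * (satNet A M).Y) (i : ℕ) :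
    (if i < n * n then (if adjB A M (i / n) (i % n) then 1 else 0) else 0) =
      (if ∃ u v : Fin (8 * (satNet A M).Y), (satG A M).Adj u v ∧
        i = u * (8 * (satNet A M).Y) + v then 1 else 0) := by
  have hP : ∀ u v : Fin (8 * (satNet A M).Y), (satG A M).Adj u v ↔ adjB A M u v := by
    intro u v
    constructor
    · intro h
      refine ⟨fun h' => (satG A M).ne_of_adj h (Fin.ext h'), Net.adj_iff.1 h⟩
    · intro h
      exact Net.adj_iff.2 h.2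
  exact j11_gen hn (satG A M) (adjB A M) hP i

end Pool.Agent.Lib.MP_711ea9_lc.FH
end
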