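import Pool.Agent.Lib.MP_711ea9_lc.Mg.G004
import Pool.Agent.Lib.MP_711ea9_lc.FH.E1
import Pool.Agent.Lib.MP_711ea9_lc.FH.Zone
import Pool.Agent.Lib.MP_711ea9_lc.FH.Sat

section

set_option autoImplicit false

namespace Pool.Agent.Lib.MP_711ea9_lc.FH

open Finset

/-- TASK F3. The invariant at time 6.
Proof. `no_leak` with `i0 = 0` (`hp` void, `H 0` empty; `hV.hT`, `rho nw ≥ 16`): no door in `F 14`. For `t = 1..6` (all `N.clk`, strands `cs t = 15 + K + t`) `clk_unit` with `i0 = 0` gives `v t ∈ H 6`, on strand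
`15 + K + t` (path or door). These six are different. So `encard (H 6) ≥ 6`: field `a`.
Field `b`: suppose `path σ t ∈ S`, `σ < 16 + K`, `1 ≤ t ≤ 6`; take the least such `t` for this `σ` (`Nat.find`): then `path σ (t-1) ∈ F (t-1)` (as in `path_burn`; or `src 0 ∈ F 0`), so `path σ t ∈ H t ⊆ H 6`;
with the `v t` (other strands) these are 7 elements of `H 6`, against `hR.th 6`. Field `c`: `no_leak` and `Net.F_mono`. Fields `b'`, `d`, `e`, `f`, `g`, `h`: void because `rho w ≥ 16` (`rt ≥ 16 > 8`). -/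
theorem inv_six {N : Net} {k : ℕ} (hV : N.Valid k) {S : Set Vtx} (hR : N.Run S k) : N.Inv S 6 := by
  have hT := hV.hT
  have hLam := hV.hLam'
  have hrho0 : ∀ w, 16 ≤ N.rho w := fun w => by unfold Net.rho; omega
  have hrn := hrho0 N.nw
  have hH0 : N.H S 0 = ∅ := rfl
  have hp : ∀ σ s, σ < 16 + N.K → 1 ≤ s → s ≤ 0 → Vtx.path σ s ∈ N.F S s := by
    intro σ s _ h1 h2; omega
  have hnl : ∀ σ t, Vtx.door σ t ∉ N.F S 14 := by
    intro σ t
    have := no_leak hV hR (i0 := 0) (Or.inl rfl) hp (by simp)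
      (by rw [hH0]; intro v hv; exact hv.elim) (by omega) σ t
    simpa using this
  have hc : ∀ σ t, Vtx.door σ t ∉ N.F S 6 := fun σ t h => hnl σ t (Net.F_mono (by norm_num) h)
  -- the units of the six starters
  have hclk : ∀ t, 1 ≤ t → t ≤ 6 → N.clk t := fun t h1 h2 => ⟨h1, Or.inl h2⟩
  have hcs : ∀ t, t ≤ 6 → N.cs t = 15 + N.K + t := fun t h => by unfold Net.cs; rw [if_pos h]
  have hv : ∀ t : ℕ, 1 ≤ t → t ≤ 6 → ∃ v ∈ N.H S 6, (∃ j, v = Vtx.path (15 + N.K + t) j) ∨
      ∃ j, v = Vtx.door (15 + N.K + t) j := by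
    intro t h1 h2
    have h := clk_unit hV (S := S) (i0 := 0) (t := t) (Or.inl rfl) hp (by omega) (by omega)
      (hclk t h1 h2)
    rw [hcs t h2, max_eq_right h2] at h
    rcases h with h | ⟨v, hvm, ⟨j, _, _, hj⟩ | hj⟩
    · exact absurd h (hc _ _)
    · exact ⟨v, hvm, Or.inl ⟨j, hj⟩⟩
    · exact ⟨v, hvm, Or.inr ⟨6, hj⟩⟩
  have hv' : ∀ t : Fin 6, ∃ v ∈ N.H S 6, (∃ j, v = Vtx.path (16 + N.K + t) j) ∨
      ∃ j, v = Vtx.door (16 + N.K + t) j := by
    intro t
    have := hv (t + 1) (by omega) (by omega)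
    have h2 : 15 + N.K + ((t : ℕ) + 1) = 16 + N.K + t := by ring
    rwa [h2] at this
  choose f hfm hf using hv'
  have hinj : Function.Injective f := by
    intro a b hab
    have ha := hf a
    have hb := hf b
    rw [hab] at ha
    ext
    rcases ha with ⟨j, hj⟩ | ⟨j, hj⟩ <;> rcases hb with ⟨j', hj'⟩ | ⟨j', hj'⟩ <;>
      rw [hj'] at hj
    · injection hj with h1 h2; omega
    · exact absurd hj (by simp)
    · exact absurd hj (by simp)
    · injection hj with h1 h2; omega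
  have hsub : Set.range f ⊆ N.H S 6 := by rintro _ ⟨t, rfl⟩; exact hfm t
  have hcard : (Set.range f).encard = 6 := by
    rw [← Set.image_univ, hinj.encard_image, Set.encard_univ]; simp
  have hother : ∀ v ∈ N.H S 6, v ∈ Set.range f := by
    intro v hvm
    by_contra hnot
    have h1 : insert v (Set.range f) ⊆ N.H S 6 := Set.insert_subset hvm hsub
    have h2 : (insert v (Set.range f)).encard = 7 := by
      rw [Set.encard_insert_of_notMem hnot, hcard]; norm_num
    have h3 := (Set.encard_le_encard h1).trans (hR.th 6)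
    rw [h2] at h3
    exact absurd h3 (by decide)
  have hpath : ∀ σ t, σ < 16 + N.K → 1 ≤ t → t ≤ 6 → Vtx.path σ t ∉ S ∧ Vtx.path σ t ∈ N.F S t := by
    intro σ t hσ h1
    induction t, h1 using Nat.le_induction with
    | base =>
      intro _
      have hadj : N.G.Adj (Vtx.src 0) (Vtx.path σ 1) := by
        refine Net.adj_of_E ?_
        show _ ∧ _
        exact ⟨rfl, rfl, by omega⟩
      rcases Net.burn_or_due (Net.src_mem_F (S := S) 0) hadj with ⟨h1, h2⟩ | ⟨h1, h2⟩
      · exact ⟨h1, h2⟩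
      · exfalso
        obtain ⟨x, hx⟩ := hother _ (Net.H_mono (by norm_num : (0 + 1 : ℕ) ≤ 6) h2)
        rcases hf x with ⟨j, hj⟩ | ⟨j, hj⟩
        · rw [hx] at hj; injection hj with h3 h4; omega
        · rw [hx] at hj; exact absurd hj (by simp)
    | succ t h1 ih =>
      intro ht
      obtain ⟨_, ih2⟩ := ih (by omega)
      have hadj : N.G.Adj (Vtx.path σ t) (Vtx.path σ (t + 1)) := by
        refine Net.adj_of_E ?_
        show _ ∧ _
        exact ⟨rfl, by omega, h1, rfl, by omega⟩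
      rcases Net.burn_or_due ih2 hadj with ⟨h1, h2⟩ | ⟨h1, h2⟩
      · exact ⟨h1, h2⟩
      · exfalso
        obtain ⟨x, hx⟩ := hother _ (Net.H_mono (by omega : t + 1 ≤ 6) h2)
        rcases hf x with ⟨j, hj⟩ | ⟨j, hj⟩
        · rw [hx] at hj; injection hj with h3 h4; omega
        · rw [hx] at hj; exact absurd hj (by simp)
  refine ⟨?_, fun σ t hσ h1 h2 => (hpath σ t hσ h1 h2).1, ?_, hc, ?_, ?_, ?_, ?_, ?_⟩
  · calc ((6 : ℕ) : ℕ∞) = (Set.range f).encard := by rw [hcard]; rfl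
      _ ≤ _ := Set.encard_le_encard hsub
  · intro b w j _ _ h
    have h1 := Net.rho_le_rt (N := N) b w
    have h2 := hrho0 w
    omega
  all_goals
    first
    | (intro w _ h; have h2 := hrho0 w; omega)
    | (intro w p _ h; have h2 := hrho0 w; omega)

end Pool.Agent.Lib.MP_711ea9_lc.FH
end

section

set_option autoImplicit false

namespace Pool.Agent.Lib.MP_711ea9_lc.FH

open Finset

/-- TASK E2a. The fire does not leave `U` along an edge of `Net.E` in the reverse direction (`N.E v u`, fire at `u`).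
Proof. Cases as in E1a. `v` = src: the edge src-path has `q = 0`. path (t) - path (t+1), fire at `t+1 ≤ i`: `t ≤ i + 1`, `1 ≤ t` from the edge. path-door, door-reg, reg-reg: `U u` False.
path-stem, fire at the stem `j = 0`: `rt ≤ i + 2`, `t + 3 = rt`, so `t ≤ i + 1`; `1 ≤ t` because `rt ≥ rho w ≥ 16`, `t ≤ N.T` by `Net.rho_lt`, `hV.hT`; `σ = b < 16`.
stem-stem, stem-root (fire at the root: `rt ≤ i`): clear. root b w - root b (l1), fire at the target: `rt b (l1) ≤ i`, so `rho w + Lam ≤ rho l1 ≤ i`, `rt b w ≤ rho w + 1`.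
root-nod, fire at the nod: alternative 1: `root b w ∈ S`, against `hv`; alternative 2: `rho w + 2 ≤ i`. nod-root (l2), fire at the root b (l2), `rho l2 ≤ rt ≤ i`: if `root b w ∈ S`
then alternative 1 (`rho l2 + 1 ≤ i + 1`), else alternative 2 (`rho w + 2 ≤ rho l2`: `w < l2` by `hV.link1, link2`, `Net.rho_lt`). root-chain (`j = 1`), fire at chain 1: first alternative: `rho w + dl + len + 1 ≤ i + 1` gives
`rt ≤ i + 1`; second: `rt + 1 ≤ i`. chain-chain, fire at `j+1`: first alternative: `.. ≤ i + (j + 1) = (i + 1) + j`; second: clear. chain-path, fire at the path vertex `t ≤ i`,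
`t ≥ rho w + dl`: chain `len`: first alternative: `rho w + dl + len + 1 ≤ (i + 1) + len`; `1 ≤ len` by `hV.len_ge`. -/
theorem U_step' {N : Net} {k : ℕ} (hV : N.Valid k) {S : Set Vtx} {M i : ℕ} (hT : N.Tame S M)
    (hi : i < M) {u v : Vtx} (hu : N.U S i u) (huS : u ∉ S) (hv : v ∉ S)
    (hnd : ∀ σ t, v ≠ Vtx.door σ t) (h : N.E v u) : N.U S (i + 1) v := by
  have hL := hV.hLam'
  have hT' := hV.hT
  cases v with
  | src q =>
    cases u <;> simp only [Net.E] at h
    exact h.1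
  | path σ t =>
    cases u <;> simp only [Net.E] at h
    case path σ' t' =>
      obtain ⟨-, h2, h3, h4, h5⟩ := h
      obtain ⟨-, g2, g3, g4⟩ := hu
      exact ⟨h2, h3, by omega, by omega⟩
    case door σ' t' => exact hu.elim
    case stem b w j =>
      obtain ⟨h1, hp, h3, h4⟩ := h
      obtain ⟨-, -, g3⟩ := hu
      obtain ⟨hb, hw, -⟩ := hp
      have h6 := N.rt_le b w
      have h7 := N.rho_le_rt b w
      have h8 := Net.rho_lt (N := N) hw
      have h9 : 16 ≤ N.rho w := by unfold Net.rho; omega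
      exact ⟨by omega, by omega, by omega, by omega⟩
  | door σ t => exact absurd rfl (hnd σ t)
  | reg σ l r x =>
    cases u <;> simp only [Net.E] at h
    exact hu.elim
  | stem b w j =>
    cases u <;> simp only [Net.E] at h
    case stem b' w' j' =>
      obtain ⟨rfl, rfl, hp, h3, h4⟩ := h
      obtain ⟨-, -, g3⟩ := hu
      exact ⟨hp, by omega, by omega⟩
    case root b' w' =>
      obtain ⟨rfl, rfl, hp, h3⟩ := h
      obtain ⟨-, g3⟩ := hu
      exact ⟨hp, by omega, by omega⟩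
  | root b w =>
    cases u <;> simp only [Net.E] at h
    case root b' w' =>
      obtain ⟨rfl, hp, h3, h4, h5⟩ := h
      obtain ⟨-, g3⟩ := hu
      have h6 := N.rt_le b' w
      have h7 := N.rho_le_rt b' w'
      have h8 := Net.rho_lt (N := N) h5
      exact ⟨hp, by omega⟩
    case nod b' w' =>
      obtain ⟨rfl, rfl, hp, h3, h4⟩ := h
      obtain ⟨-, -, -, g⟩ := hu
      have h6 := N.rt_le b' w'
      rcases g with g | g
      · exact absurd g.1 hv
      · exact ⟨hp, by omega⟩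
    case chain b' w' c j =>
      obtain ⟨rfl, rfl, hp, h3, h4⟩ := h
      obtain ⟨-, -, -, g0, g⟩ := hu
      have h6 := N.rt_le b' w'
      rcases g with g | g
      · exact ⟨hp, by omega⟩
      · exact ⟨hp, by omega⟩
  | nod b w =>
    cases u <;> simp only [Net.E] at h
    case root b' w' =>
      obtain ⟨rfl, hp, h3, h4, h5⟩ := h
      obtain ⟨-, g3⟩ := hu
      have hb : b' / 2 < 8 := by have := hp.1; omega
      have h7 := N.rho_le_rt b' w'
      have h8 := (hV.link1 w (b' / 2) hp.2.1 hb h3).1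
      have h9 := (hV.link2 w (b' / 2) hp.2.1 hb h3 h4).1
      have h10 : w < w' := by omega
      have h11 := Net.rho_lt (N := N) h10
      refine ⟨hp, h3, h4, ?_⟩
      by_cases hr : Vtx.root b' w ∈ S
      · refine Or.inl ⟨hr, ?_⟩
        rw [← h5]
        omega
      · exact Or.inr ⟨hr, by omega⟩
  | chain b w c j =>
    cases u <;> simp only [Net.E] at h
    case path σ t =>
      obtain ⟨rfl, hp, h3, h4, h5⟩ := h
      obtain ⟨-, -, g3, -⟩ := hu
      have h6 := hV.len_ge _ _ _ hp h3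
      refine ⟨hp, h3, by omega, by omega, Or.inl ?_⟩
      omega
    case chain b' w' c' j' =>
      obtain ⟨rfl, rfl, rfl, hp, h3, h4, h5, h6⟩ := h
      obtain ⟨-, -, -, g0, g⟩ := hu
      refine ⟨hp, h3, by omega, by omega, ?_⟩
      rcases g with g | ⟨g1, g2, g3⟩
      · exact Or.inl (by omega)
      · exact Or.inr ⟨g1, fun j'' hj1 hj2 => g2 j'' hj1 (by omega), by omega⟩

/-- TASK E2b. `U` grows with time. Proof: `cases v`, each case clear by omega after `simp only [Net.U]`. -/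
theorem U_mono {N : Net} {S : Set Vtx} {i i' : ℕ} (h : i ≤ i') {v : Vtx} (hv : N.U S i v) :
    N.U S i' v := by
  cases v with
  | src q => exact hv
  | path σ t =>
    obtain ⟨h1, h2, h3, h4⟩ := hv
    exact ⟨h1, h2, by omega, h4⟩
  | door σ t => exact hv
  | reg σ l r x => exact hv
  | stem b w j =>
    obtain ⟨h1, h2, h3⟩ := hv
    exact ⟨h1, h2, by omega⟩
  | root b w =>
    obtain ⟨h1, h2⟩ := hv
    exact ⟨h1, by omega⟩
  | nod b w =>
    obtain ⟨h1, h2, h3, h4⟩ := hv
    refine ⟨h1, h2, h3, ?_⟩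
    rcases h4 with h4 | h4
    · exact Or.inl ⟨h4.1, by omega⟩
    · exact Or.inr ⟨h4.1, by omega⟩
  | chain b w c j =>
    obtain ⟨h1, h2, h3, h4, h5⟩ := hv
    refine ⟨h1, h2, h3, h4, ?_⟩
    rcases h5 with h5 | ⟨h5, h6, h7⟩
    · exact Or.inl (by omega)
    · exact Or.inr ⟨h5, h6, by omega⟩

/-- TASK E2c. The fire stays in `U`.
Proof. Induction on `i`. `F 0 = {src 0}`. Step: a new vertex `v ∉ S` is next to some `u ∈ F i`, `U S i u`, `u ∉ S` (`Net.not_mem_of_F`), `v` is no door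
(`hT.door`, `Net.F_mono`: `v ∈ F (i+1) ⊆ F M`); `U_step` or `U_step'` by `Net.adj_iff`. An old vertex: `U_mono`. -/
theorem F_subset_U {N : Net} {k : ℕ} (hV : N.Valid k) {S : Set Vtx} {M i : ℕ} (hT : N.Tame S M)
    (hi : i ≤ M) {v : Vtx} (hv : v ∈ N.F S i) : N.U S i v := by
  induction i generalizing v with
  | zero =>
    have h0 : v = Vtx.src 0 := hv
    rw [h0]
    show (0 : ℕ) = 0
    rfl
  | succ i ih =>
    rcases Net.mem_F_succ.1 hv with h | ⟨h1, u, hu, hadj⟩
    · exact U_mono (Nat.le_succ i) (ih (by omega) h)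
    · have hU := ih (by omega) hu
      have huS := Net.not_mem_of_F hT.src hu
      have hnd : ∀ σ t, v ≠ Vtx.door σ t := fun σ t he =>
        hT.door σ t (by rw [← he]; exact Net.F_mono hi hv)
      rcases Net.adj_iff.1 hadj with h | h
      · exact U_step hV hT (by omega) hU huS h1 hnd h
      · exact U_step' hV hT (by omega) hU huS h1 hnd h

end Pool.Agent.Lib.MP_711ea9_lc.FH
end

section

set_option autoImplicit false

namespace Pool.Agent.Lib.MP_711ea9_lc.FH

open Finset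

variable {N : Net} {k : ℕ} {S : Set Vtx}

/-- TASK W1a. The time of the path vertices at the end of a chain: `t / Lam = w'` and `t % Lam = 32 + 4 b + 2 c + ε`.
Proof: `rho w' + dl b c + ε = Lam * w' + (32 + 4 b + 2 c + ε)` and `32 + 4*15 + 2 + 1 = 95 < 400 ≤ Lam`; `Nat.mul_add_div`, `Nat.mul_add_mod`, `Nat.div_eq_of_lt`, `Nat.mod_eq_of_lt`. -/
theorem end_div (hV : N.Valid k) {b w' c ε : ℕ} (hb : b < 16) (hc : c < 2) (he : ε < 3) :
    (N.rho w' + Net.dl b c + ε) / N.Lam = w' ∧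
    (N.rho w' + Net.dl b c + ε) % N.Lam = 32 + 4 * b + 2 * c + ε := by
  have hL := hV.hLam'
  have h1 : N.rho w' + Net.dl b c + ε = N.Lam * w' + (32 + 4 * b + 2 * c + ε) := by
    unfold Net.rho Net.dl
    omega
  have h2 : 32 + 4 * b + 2 * c + ε < N.Lam := by omega
  rw [h1]
  constructor
  · rw [Nat.mul_add_div (by omega), Nat.div_eq_of_lt h2, Nat.add_zero]
  · rw [Nat.mul_add_mod, Nat.mod_eq_of_lt h2]

/-- TASK W1b. The two guard doors of a chain exist: `isDoor b (rho w' + dl b c + 1 + ε)` for `ε < 2`. Proof: second alternative of `Net.isDoor`; `≥ 7`; `≤ T` (`Net.rho_lt`, `hV.hT`, `hV.hLam'`);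
no slot because `t % Lam ≥ 33 > 23` (`end_div`, `hV.e_le`); `own t = (t % Lam - 33) / 4 = (4 b + 2 c + ε) / 4 = b`. -/
theorem guard_door (hV : N.Valid k) {b w' c ε : ℕ} (hb : b < 16) (hw : w' < N.nw) (hc : c < 2)
    (he : ε < 2) : N.isDoor b (N.rho w' + Net.dl b c + 1 + ε) := by
  have hL := hV.hLam'
  have hr := N.rho_lt hw
  have hT := hV.hT
  have hd : N.rho w' + Net.dl b c + 1 + ε = N.rho w' + Net.dl b c + (1 + ε) := by omega
  obtain ⟨h1, h2⟩ := end_div hV (w' := w') hb hc (show 1 + ε < 3 by omega)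
  rw [hd]
  have hdl : Net.dl b c = 16 + 4 * b + 2 * c := rfl
  right
  refine ⟨by omega, by omega, ?_, ?_⟩
  · rintro ⟨-, -, h3⟩
    have he7 := hV.e_le ((N.rho w' + Net.dl b c + (1 + ε)) / N.Lam)
    omega
  · unfold Net.own
    rw [if_pos (by omega), h2]
    omega

/-- TASK W1c. The cost of a chain whose root burns at time `y`.
Proof. Let `m = len b w' c ≥ 2`. If some vertex `chain b w' c j`, `1 ≤ j ≤ m`, is in `S`, take the least such `j` (`Nat.find`): by induction `chain b w' c i ∈ F (y + i)` for `1 ≤ i < j` (`chain 1` is next to the root), and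
`chain b w' c j` is next to `chain (j-1)` (or the root), so it is in `H (y + j) ⊆ H (y + m)`. Otherwise `chain b w' c m ∈ F (y + m)`. For `ε = 0, 1` with `t = rho w' + dl b c + ε`: `path b t` is next to it: if it is in `S`, it is in
`H (y + m + 1) ⊆ H M`; if not, it is in `F (y + m + 1)`, and the door `(b, t + 1)` (`guard_door`) is next to it and does not burn by time `M ≥ y + m + 2` (`hd`, `Net.F_mono`), so it is in
`S` (otherwise it would burn, `Net.burns`) and in `H (y + m + 2)`. -/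
theorem chain_cost (hV : N.Valid k) {M b w' c y : ℕ} (hd : ∀ σ t, Vtx.door σ t ∉ N.F S M)
    (hp : N.port b w') (hc : c < 2) (hr : Vtx.root b w' ∈ N.F S y) (hy : y + N.len b w' c + 2 ≤ M) :
    (∃ j, 1 ≤ j ∧ j ≤ N.len b w' c ∧ Vtx.chain b w' c j ∈ N.H S (y + N.len b w' c)) ∨
    ((∀ j, 1 ≤ j → j ≤ N.len b w' c → Vtx.chain b w' c j ∉ S) ∧
      ∀ ε < 2, Vtx.path b (N.rho w' + Net.dl b c + ε) ∈ N.H S M ∨
        Vtx.door b (N.rho w' + Net.dl b c + 1 + ε) ∈ N.H S M) := by
  classical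
  have hm := hV.len_ge b w' c hp hc
  -- burning along the chain
  have key : ∀ j, 1 ≤ j → j ≤ N.len b w' c →
      (∀ i, 1 ≤ i → i < j → Vtx.chain b w' c i ∉ S) →
      ∃ u ∈ N.F S (y + (j - 1)), N.G.Adj u (Vtx.chain b w' c j) := by
    intro j
    induction j with
    | zero => intro h; omega
    | succ j ih =>
      intro h1 h2 h3
      rcases Nat.eq_zero_or_pos j with h0 | h0
      · subst h0
        refine ⟨Vtx.root b w', by simpa using hr, Net.adj_of_E ?_⟩
        exact ⟨rfl, rfl, hp, hc, rfl⟩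
      · obtain ⟨u, hu, hadj⟩ := ih h0 (by omega) (fun i hi hij => h3 i hi (by omega))
        have hb := Net.burns hu hadj (h3 j h0 (by omega))
        have he : y + (j - 1) + 1 = y + (j + 1 - 1) := by omega
        rw [he] at hb
        refine ⟨_, hb, Net.adj_of_E ?_⟩
        exact ⟨rfl, rfl, rfl, hp, hc, h0, rfl, h2⟩
  by_cases hex : ∃ j, 1 ≤ j ∧ j ≤ N.len b w' c ∧ Vtx.chain b w' c j ∈ S
  · left
    have hs := Nat.find_spec hex
    have hmin : ∀ i, 1 ≤ i → i < Nat.find hex → Vtx.chain b w' c i ∉ S := by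
      intro i hi hlt hiS
      exact Nat.find_min hex hlt ⟨hi, by have := hs.2.1; omega, hiS⟩
    obtain ⟨u, hu, hadj⟩ := key _ hs.1 hs.2.1 hmin
    have hh := Net.dues hu hadj hs.2.2
    have h1 := hs.1
    have h2 := hs.2.1
    exact ⟨Nat.find hex, h1, h2, Net.H_mono (by omega) hh⟩
  · right
    have hno : ∀ j, 1 ≤ j → j ≤ N.len b w' c → Vtx.chain b w' c j ∉ S :=
      fun j h1 h2 h3 => hex ⟨j, h1, h2, h3⟩
    refine ⟨hno, ?_⟩
    intro ε hε
    obtain ⟨u, hu, hadj⟩ := key (N.len b w' c) (by omega) le_rfl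
      (fun i h1 h2 => hno i h1 (by omega))
    have hb := Net.burns hu hadj (hno _ (by omega) le_rfl)
    have he : y + (N.len b w' c - 1) + 1 = y + N.len b w' c := by omega
    rw [he] at hb
    have hadj2 : N.G.Adj (Vtx.chain b w' c (N.len b w' c))
        (Vtx.path b (N.rho w' + Net.dl b c + ε)) := by
      refine Net.adj_of_E ?_
      exact ⟨rfl, hp, hc, rfl, by omega⟩
    by_cases hS : Vtx.path b (N.rho w' + Net.dl b c + ε) ∈ S
    · left
      exact Net.H_mono (by omega) (Net.dues hb hadj2 hS)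
    · right
      have hb2 := Net.burns hb hadj2 hS
      have hdoor := guard_door hV hp.1 hp.2.1 hc hε
      have hadj3 : N.G.Adj (Vtx.path b (N.rho w' + Net.dl b c + ε))
          (Vtx.door b (N.rho w' + Net.dl b c + 1 + ε)) := by
        refine Net.adj_of_E ?_
        exact ⟨rfl, by omega, hdoor⟩
      by_cases hSd : Vtx.door b (N.rho w' + Net.dl b c + 1 + ε) ∈ S
      · exact Net.H_mono (by omega) (Net.dues hb2 hadj3 hSd)
      · exact absurd (Net.F_mono (by omega) (Net.burns hb2 hadj3 hSd)) (hd _ _)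

end Pool.Agent.Lib.MP_711ea9_lc.FH
end

section

set_option autoImplicit false

namespace Pool.Agent.Lib.MP_711ea9_lc.FH

open Finset

private theorem H1_card (f : ℕ → ℕ) (n κ : ℕ) :
    rkn f n κ = ((range n).filter (fun κ' => f κ' < f κ)).card := by
  unfold rkn
  rw [Finset.card_filter]

/-- TASK H1a. `rkn f n κ` is the card of `{κ' < n | f κ' < f κ}`, which does not contain `κ`. -/
theorem rkn_lt {f : ℕ → ℕ} {n κ : ℕ} (h : κ < n) : rkn f n κ < n := by
  rw [H1_card]
  have h1 : ((range n).filter (fun κ' => f κ' < f κ)) ⊂ range n := by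
    rw [Finset.ssubset_iff_of_subset (Finset.filter_subset _ _)]
    exact ⟨κ, Finset.mem_range.mpr h, by simp⟩
  have h2 := Finset.card_lt_card h1
  rwa [Finset.card_range] at h2

/-- TASK H1b. Proof: if `f κ < f κ'` then `{f < f κ} ⊂ {f < f κ'}` (the larger set contains `κ`). If `f κ' ≤ f κ` then `{f < f κ'} ⊆ {f < f κ}`. (`rkn` is a card: `Finset.card_filter`.) -/
theorem rkn_lt_iff {f : ℕ → ℕ} {n κ κ' : ℕ} (h : κ < n) (h' : κ' < n) :
    rkn f n κ < rkn f n κ' ↔ f κ < f κ' := by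
  constructor
  · intro hlt
    by_contra hcon
    rw [not_lt] at hcon
    rw [H1_card, H1_card] at hlt
    refine absurd hlt (not_lt.mpr (Finset.card_le_card ?_))
    intro a ha
    rw [Finset.mem_filter] at ha ⊢
    exact ⟨ha.1, lt_of_lt_of_le ha.2 hcon⟩
  · intro hlt
    rw [H1_card, H1_card]
    refine Finset.card_lt_card ?_
    have hsub : ((range n).filter (fun a => f a < f κ)) ⊆
        ((range n).filter (fun a => f a < f κ')) := by
      intro a ha
      rw [Finset.mem_filter] at ha ⊢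
      exact ⟨ha.1, ha.2.trans hlt⟩
    rw [Finset.ssubset_iff_of_subset hsub]
    exact ⟨κ, Finset.mem_filter.mpr ⟨Finset.mem_range.mpr h, hlt⟩, by simp⟩

/-- TASK H1c. Proof: by `rkn_lt_iff` equal ranks give `¬ f κ < f κ'` and `¬ f κ' < f κ`. -/
theorem rkn_inj {f : ℕ → ℕ} {n κ κ' : ℕ}
    (hf : ∀ a b, a < n → b < n → f a = f b → a = b) (h : κ < n) (h' : κ' < n)
    (he : rkn f n κ = rkn f n κ') : κ = κ' := by
  have h1 : ¬ f κ < f κ' := fun hh => by
    have := (rkn_lt_iff h h').mpr hh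
    omega
  have h2 : ¬ f κ' < f κ := fun hh => by
    have := (rkn_lt_iff h' h).mpr hh
    omega
  exact hf κ κ' h h' (by omega)

/-- TASK H1d. An injective map of a finite set into itself is surjective (`Finset.surj_on_of_inj_on_of_card_le` or `Finset.eq_of_subset_of_card_le` for the image of `range n`). -/
theorem rkn_surj {f : ℕ → ℕ} {n x : ℕ} (hf : ∀ a b, a < n → b < n → f a = f b → a = b)
    (h : x < n) : ∃ κ, κ < n ∧ rkn f n κ = x := by
  have h1 : (range n).image (fun κ => rkn f n κ) = range n := by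
    refine Finset.eq_of_subset_of_card_le ?_ ?_
    · intro a ha
      obtain ⟨κ, hκ, rfl⟩ := Finset.mem_image.mp ha
      exact Finset.mem_range.mpr (rkn_lt (Finset.mem_range.mp hκ))
    · rw [Finset.card_image_of_injOn]
      intro a ha b hb hab
      exact rkn_inj hf (Finset.mem_range.mp (Finset.mem_coe.mp ha))
        (Finset.mem_range.mp (Finset.mem_coe.mp hb)) hab
  have h2 : x ∈ (range n).image (fun κ => rkn f n κ) := by
    rw [h1]
    exact Finset.mem_range.mpr h
  obtain ⟨κ, hκ, hx⟩ := Finset.mem_image.mp h2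
  exact ⟨κ, Finset.mem_range.mp hκ, hx⟩

/-- TASK H1e. Proof: the two sums are equal term by term. -/
theorem rkn_congr {f g : ℕ → ℕ} {n κ : ℕ} (h : κ < n)
    (hfg : ∀ a b, a < n → b < n → (f a < f b ↔ g a < g b)) : rkn f n κ = rkn g n κ := by
  unfold rkn
  refine Finset.sum_congr rfl fun a ha => ?_
  have := hfg a κ (Finset.mem_range.mp ha) h
  by_cases hh : f a < f κ
  · rw [if_pos hh, if_pos (this.mp hh)]
  · rw [if_neg hh, if_neg (fun h' => hh (this.mpr h'))]

/-- TASK H1f. Proof: `{κ' < n | κ' < κ} = range κ`. -/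
theorem rkn_id {n κ : ℕ} (h : κ < n) : rkn (fun x => x) n κ = κ := by
  rw [H1_card]
  have h1 : ((range n).filter (fun κ' => (fun x : ℕ => x) κ' < (fun x : ℕ => x) κ)) = range κ := by
    ext a
    simp only [Finset.mem_filter, Finset.mem_range]
    omega
  rw [h1, Finset.card_range]

end Pool.Agent.Lib.MP_711ea9_lc.FH
end

section

set_option autoImplicit false

namespace Pool.Agent.Lib.MP_711ea9_lc.FH

open Finset

namespace Sn

variable {A : ℕ → ℕ} {M t κ κ' x : ℕ}

/-- TASK H2a. Proof: `κ % (3M)`: `(A κ / 2 * (3 M) + κ) % (3 M) = κ` for `κ < 3 M` (`Nat.mul_add_mod`, `Nat.mod_eq_of_lt`). -/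
theorem ky0_inj (h : κ < 3 * M) (h' : κ' < 3 * M) (he : ky0 A M κ = ky0 A M κ') : κ = κ' := by
  have h1 := congrArg (fun y => y % (3 * M)) he
  simpa [ky0, Nat.mul_add_mod', Nat.mod_eq_of_lt h, Nat.mod_eq_of_lt h'] using h1

/-- TASK H2b. Proof: `t = 0`: `ky0_inj`. Otherwise mod `3 M`: `rkn (ky0) κ = rkn (ky0) κ'` (`rkn_lt`), then `rkn_inj` with `ky0_inj`. -/
theorem ky_inj (h : κ < 3 * M) (h' : κ' < 3 * M) (he : ky A M t κ = ky A M t κ') : κ = κ' := by
  by_cases ht : t = 0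
  · subst ht
    exact ky0_inj h h' (by simpa [ky] using he)
  · have h1 := congrArg (fun y => y % (3 * M)) he
    simp only [ky, if_neg ht, Nat.mul_add_mod'] at h1
    rw [Nat.mod_eq_of_lt (rkn_lt h), Nat.mod_eq_of_lt (rkn_lt h')] at h1
    exact rkn_inj (fun a b ha hb hab => ky0_inj ha hb hab) h h' h1

/-- TASK H2c. Proof: `rkn_lt`. -/
theorem rk_lt (h : κ < 3 * M) : rk A M t κ < 3 * M := by
  exact rkn_lt h

/-- TASK H2d. Proof: `rk_lt`, both parities. -/
theorem ps_lt (h : κ < 3 * M) : ps A M t κ < 3 * M := by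
  have h1 := rk_lt (A := A) (t := t) h
  unfold ps
  split_ifs <;> omega

/-- TASK H2e. Proof: `rk` values are `< 3 M`, so equal positions give equal ranks; `rkn_inj` with `ky_inj`. -/
theorem ps_inj (h : κ < 3 * M) (h' : κ' < 3 * M) (he : ps A M t κ = ps A M t κ') : κ = κ' := by
  have h1 := rk_lt (A := A) (t := t) h
  have h2 := rk_lt (A := A) (t := t) h'
  have h3 : rk A M t κ = rk A M t κ' := by
    unfold ps at he
    split_ifs at he <;> omega
  exact rkn_inj (fun a b ha hb hab => ky_inj ha hb hab) h h' h3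

/-- TASK H2f. Proof: the sum has exactly one nonzero term candidate: `ps κ' = ps κ` iff `κ' = κ` (`ps_inj`); `Finset.sum_eq_single κ`. -/
theorem el_ps (h : κ < 3 * M) : el A M t (ps A M t κ) = κ := by
  unfold el
  rw [Finset.sum_eq_single κ]
  · simp
  · intro b hb hne
    exact if_neg (fun he => hne (ps_inj (mem_range.1 hb) h he))
  · intro hn
    exact absurd (mem_range.2 h) hn

/-- TASK H2g. Proof: surjectivity of `rk` (`rkn_surj` for `x`, or for `3 M - 1 - x` if `t` is odd) gives `κ < 3 M` with `ps κ = x`; then `el_ps`. -/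
theorem ps_el (h : x < 3 * M) : el A M t x < 3 * M ∧ ps A M t (el A M t x) = x := by
  have h1 : ∃ κ, κ < 3 * M ∧ ps A M t κ = x := by
    by_cases ht : t % 2 = 1
    · obtain ⟨κ, hκ, h2⟩ := rkn_surj (f := ky A M t) (n := 3 * M) (x := 3 * M - 1 - x)
        (fun a b ha hb hab => ky_inj ha hb hab) (by omega)
      refine ⟨κ, hκ, ?_⟩
      have h3 : rk A M t κ = 3 * M - 1 - x := h2
      rw [ps, if_pos ht, h3]
      omega
    · obtain ⟨κ, hκ, h2⟩ := rkn_surj (f := ky A M t) (n := 3 * M) (x := x)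
        (fun a b ha hb hab => ky_inj ha hb hab) h
      exact ⟨κ, hκ, by rw [ps, if_neg ht]; exact h2⟩
  obtain ⟨κ, hκ, rfl⟩ := h1
  rw [el_ps hκ]
  exact ⟨hκ, rfl⟩

/-- TASK H2h. Proof: `3 M < 2 ^ (log + 1)` (`Nat.lt_pow_succ_log_self`) and `log + 1 ≤ aa`. -/
theorem lt_two_pow_aa (hM : 1 ≤ M) : 3 * M < 2 ^ aa M := by
  have h1 : 3 * M < 2 ^ (Nat.log 2 (3 * M) + 1) := Nat.lt_pow_succ_log_self (by norm_num) _
  exact h1.trans_le (Nat.pow_le_pow_right (by norm_num) (by unfold aa; omega))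

/-- TASK H2i. `ky 1 κ = rk 0 κ` (`κ % 2 ^ 0 = 0`); `rkn_congr` and `rkn_lt_iff`. -/
theorem rk_one (h : κ < 3 * M) : rk A M 1 κ = rk A M 0 κ := by
  apply rkn_congr h
  intro a b ha hb
  have h1 : ∀ c, ky A M 1 c = rkn (ky0 A M) (3 * M) c := by
    intro c
    simp [ky, Nat.mod_one]
  have h2 : ∀ c, ky A M 0 c = ky0 A M c := by
    intro c
    simp [ky]
  rw [h1, h1, h2, h2]
  exact rkn_lt_iff ha hb

/-- TASK H2j. `κ % 2 ^ aa = κ` (H2h), so `ky (aa + 1) κ = κ * (3 M) + rkn .. κ` with `rkn .. κ < 3 M`, and `ky κ < ky κ' ↔ κ < κ'`; `rkn_congr`, `rkn_id`. -/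
theorem rk_last (hM : 1 ≤ M) (h : κ < 3 * M) : rk A M (aa M + 1) κ = κ := by
  have h0 := lt_two_pow_aa hM
  have h1 : ∀ c, c < 3 * M → ky A M (aa M + 1) c = c * (3 * M) + rkn (ky0 A M) (3 * M) c := by
    intro c hc
    rw [ky, if_neg (Nat.succ_ne_zero _), Nat.add_sub_cancel, Nat.mod_eq_of_lt (hc.trans h0)]
  have h2 : rk A M (aa M + 1) κ = rkn (fun x => x) (3 * M) κ := by
    apply rkn_congr h
    intro a b ha hb
    rw [h1 a ha, h1 b hb]
    have ra : rkn (ky0 A M) (3 * M) a < 3 * M := rkn_lt ha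
    have rb : rkn (ky0 A M) (3 * M) b < 3 * M := rkn_lt hb
    rcases lt_trichotomy a b with hab | hab | hab
    · have : (a + 1) * (3 * M) ≤ b * (3 * M) := Nat.mul_le_mul_right _ hab
      rw [Nat.add_mul, one_mul] at this
      exact ⟨fun _ => hab, fun _ => by omega⟩
    · subst hab
      simp
    · have : (b + 1) * (3 * M) ≤ a * (3 * M) := Nat.mul_le_mul_right _ hab
      rw [Nat.add_mul, one_mul] at this
      exact ⟨fun h3 => by omega, fun h3 => by omega⟩
  rw [h2, rkn_id h]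

/-- TASK H2k. Equal bit `t - 1`: the order in layer `t + 1` is the order in layer `t`.
Proof. `rk t κ < rk t κ' ↔ ky t κ < ky t κ'` (`rkn_lt_iff`). With `q = 2 ^ (t - 1)`, `2 ^ t = 2 q` and `κ % (2 q) = q * (κ / q % 2) + κ % q` (`Nat.mod_mul_right_div_self` / `Nat.mod_mul`): both numbers `κ % (2 q)`, `κ' % (2 q)` arise from `κ % q`, `κ' % q` by adding the same `q * bit`, so
`ky (t+1) κ < ky (t+1) κ' ↔ ky t κ < ky t κ'` (add the constant `q * bit * (3 M)` on both sides). -/
theorem rk_succ (ht : 1 ≤ t) (h : κ < 3 * M) (h' : κ' < 3 * M)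
    (hb : κ / 2 ^ (t - 1) % 2 = κ' / 2 ^ (t - 1) % 2) :
    rk A M (t + 1) κ < rk A M (t + 1) κ' ↔ rk A M t κ < rk A M t κ' := by
  have e1 : rk A M t κ < rk A M t κ' ↔ ky A M t κ < ky A M t κ' := rkn_lt_iff h h'
  have e2 : rk A M (t + 1) κ < rk A M (t + 1) κ' ↔ ky A M (t + 1) κ < ky A M (t + 1) κ' :=
    rkn_lt_iff h h'
  rw [e1, e2]
  have h1 : ∀ c, ky A M (t + 1) c
      = ky A M t c + 2 ^ (t - 1) * (c / 2 ^ (t - 1) % 2) * (3 * M) := by
    intro c
    have h2 : 2 ^ t = 2 ^ (t - 1) * 2 := by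
      rw [← pow_succ]
      congr 1
      omega
    rw [ky, ky, if_neg (Nat.succ_ne_zero _), if_neg (by omega), Nat.add_sub_cancel, h2,
      Nat.mod_mul]
    ring
  rw [h1, h1, hb]
  exact Nat.add_lt_add_iff_right

/-- TASK H2l. Positions are reversed from layer `t ≥ 1` to layer `t + 1` on equal bits. Proof: `rk_succ`, parities of `t` and `t + 1` differ, `rk < 3 M`. -/
theorem ps_rev (ht : 1 ≤ t) (h : κ < 3 * M) (h' : κ' < 3 * M)
    (hb : κ / 2 ^ (t - 1) % 2 = κ' / 2 ^ (t - 1) % 2) (hlt : ps A M t κ < ps A M t κ') :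
    ps A M (t + 1) κ' < ps A M (t + 1) κ := by
  have h1 := rk_lt (A := A) (t := t) h
  have h2 := rk_lt (A := A) (t := t) h'
  have h3 := rk_lt (A := A) (t := t + 1) h
  have h4 := rk_lt (A := A) (t := t + 1) h'
  have h5 := rk_succ (A := A) ht h h' hb
  have h6 := rk_succ (A := A) ht h' h hb.symm
  unfold ps at hlt ⊢
  by_cases hp : t % 2 = 1
  · have hq : ¬ (t + 1) % 2 = 1 := by omega
    rw [if_pos hp, if_pos hp] at hlt
    rw [if_neg hq, if_neg hq]
    exact h6.2 (by omega)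
  · have hq : (t + 1) % 2 = 1 := by omega
    rw [if_neg hp, if_neg hp] at hlt
    rw [if_pos hq, if_pos hq]
    have := h5.2 hlt
    omega

/-- TASK H2m. Proof: `rk_one`; layer 0 is not reversed, layer 1 is. -/
theorem ps_rev0 (h : κ < 3 * M) (h' : κ' < 3 * M) (hlt : ps A M 0 κ < ps A M 0 κ') :
    ps A M 1 κ' < ps A M 1 κ := by
  have h1 := rk_lt (A := A) (t := 0) h
  have h2 := rk_lt (A := A) (t := 0) h'
  have h3 := rk_one (A := A) h
  have h4 := rk_one (A := A) h'
  unfold ps at hlt ⊢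
  rw [if_neg (by norm_num), if_neg (by norm_num)] at hlt
  rw [if_pos (by norm_num), if_pos (by norm_num), h3, h4]
  omega

/-- TASK H2n. Proof: `aa + 1` is even; `rk_last`. -/
theorem ps_last (hM : 1 ≤ M) (h : κ < 3 * M) : ps A M (aa M + 1) κ = κ := by
  have h1 : ¬ (aa M + 1) % 2 = 1 := by unfold aa; omega
  rw [ps, if_neg h1, rk_last hM h]

end Sn

end Pool.Agent.Lib.MP_711ea9_lc.FH
end

section

set_option autoImplicit false

namespace Pool.Agent.Lib.MP_711ea9_lc.FH

open Finset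

namespace Sn

variable {A : ℕ → ℕ} {M t κ w : ℕ}

/-- TASK H3a. Proof: `wn t κ = t (3M+1) + ps`, `ps < 3 M` (`ps_lt`); `Nat.add_mul_div`-type lemmas (write the number as `(3M+1) * t + r`, `r < 3M+1`). -/
theorem tt_wn (h : κ < 3 * M) : tt M (wn A M t κ) = t ∧ xx M (wn A M t κ) = ps A M t κ := by
  have h1 := ps_lt (A := A) (t := t) h
  constructor
  · unfold tt wn
    rw [Nat.mul_comm t, Nat.mul_add_div (by omega), Nat.div_eq_of_lt (by omega), Nat.add_zero]
  · unfold xx wn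
    rw [Nat.mul_comm t, Nat.mul_add_mod, Nat.mod_eq_of_lt (by omega)]

/-- TASK H3b. Proof: `tt_wn`, `el_ps`. -/
theorem kap_wn (h : κ < 3 * M) : kap A M (wn A M t κ) = κ := by
  unfold kap
  rw [(tt_wn h).1, (tt_wn h).2, el_ps h]

/-- TASK H3c. Proof: `t (3M+1) + ps < (t + 1)(3M+1) ≤ (aa + 2)(3M+1)`. -/
theorem wn_lt (ht : t ≤ aa M + 1) (h : κ < 3 * M) : wn A M t κ < c0 M := by
  have h1 := ps_lt (A := A) (t := t) h
  have h2 : (t + 1) * (3 * M + 1) ≤ (aa M + 2) * (3 * M + 1) := Nat.mul_le_mul_right _ (by omega)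
  rw [Nat.add_mul t 1, one_mul] at h2
  unfold wn c0
  omega

/-- TASK H3d. The windows.
Proof. `w ≥ c0`: third case with `c = M - 1 - (w - c0)`. Otherwise `t = w / (3M+1) < aa + 2`, `x = w % (3M+1) ≤ 3M`: `x = 3M`: second case; `x < 3M`: `κ = el t x` (`ps_el`), `wn t κ = t (3M+1) + x = w` (`Nat.div_add_mod`). -/
theorem win_cases (hw : w < nw M) :
    (∃ t κ, t ≤ aa M + 1 ∧ κ < 3 * M ∧ w = wn A M t κ) ∨
    (∃ t, t ≤ aa M + 1 ∧ w = t * (3 * M + 1) + 3 * M) ∨
    ∃ c, c < M ∧ w = c0 M + (M - 1 - c) := by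
  by_cases hc : c0 M ≤ w
  · right
    right
    unfold nw at hw
    exact ⟨M - 1 - (w - c0 M), by omega, by omega⟩
  · have h1 := Nat.div_add_mod w (3 * M + 1)
    have h2 : w % (3 * M + 1) < 3 * M + 1 := Nat.mod_lt _ (by omega)
    have h3 : w / (3 * M + 1) < aa M + 2 := by
      rw [Nat.div_lt_iff_lt_mul (by omega)]
      unfold c0 at hc
      omega
    have h6 : w / (3 * M + 1) * (3 * M + 1) = (3 * M + 1) * (w / (3 * M + 1)) := Nat.mul_comm _ _
    by_cases hx : w % (3 * M + 1) = 3 * M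
    · right
      left
      exact ⟨w / (3 * M + 1), by omega, by omega⟩
    · left
      obtain ⟨h4, h5⟩ := ps_el (A := A) (M := M) (t := w / (3 * M + 1)) (x := w % (3 * M + 1))
        (by omega)
      refine ⟨w / (3 * M + 1), el A M (w / (3 * M + 1)) (w % (3 * M + 1)), by omega, h4, ?_⟩
      unfold wn
      rw [h5, h6]
      exact h1.symm

/-- TASK H3e. The kind of the windows of layer 0. Proof: `wn_lt`, `tt_wn` (`xx = ps < 3 M`), unfold `gate`. -/
theorem gate_zero (h : κ < 3 * M) :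
    gate A M (wn A M 0 κ) = if ps A M 0 κ = 0 then 1 else
      if A κ / 2 = A (el A M 0 (ps A M 0 κ - 1)) / 2 then 2 else 3 := by
  have h1 := wn_lt (A := A) (t := 0) (Nat.zero_le _) h
  have h2 := tt_wn (A := A) (t := 0) h
  have h3 := ps_lt (A := A) (t := 0) h
  unfold gate
  rw [if_neg (by omega), h2.1, h2.2, if_neg (by omega), if_pos rfl, el_ps h]

/-- TASK H3f. Proof: as H3e. -/
theorem gate_pass (ht : 1 ≤ t) (ht' : t ≤ aa M + 1) (h : κ < 3 * M) :
    gate A M (wn A M t κ) = 5 := by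
  have h1 := wn_lt (A := A) ht' h
  have h2 := tt_wn (A := A) (t := t) h
  have h3 := ps_lt (A := A) (t := t) h
  unfold gate
  rw [if_neg (by omega), h2.1, h2.2, if_neg (by omega), if_neg (by omega)]

/-- TASK H3g. Proof: `t (3M+1) + 3M < c0`; quotient `t`, remainder `3M`. -/
theorem gate_end (ht : t ≤ aa M + 1) :
    gate A M (t * (3 * M + 1) + 3 * M) = if t = 0 then 4 else 0 := by
  have h2 : (t + 1) * (3 * M + 1) ≤ (aa M + 2) * (3 * M + 1) := Nat.mul_le_mul_right _ (by omega)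
  rw [Nat.add_mul t 1, one_mul] at h2
  have h3 : ¬ c0 M ≤ t * (3 * M + 1) + 3 * M := by
    unfold c0
    omega
  have h4 : xx M (t * (3 * M + 1) + 3 * M) = 3 * M := by
    unfold xx
    rw [Nat.mul_comm t, Nat.mul_add_mod, Nat.mod_eq_of_lt (by omega)]
  have h5 : tt M (t * (3 * M + 1) + 3 * M) = t := by
    unfold tt
    rw [Nat.mul_comm t, Nat.mul_add_div (by omega), Nat.div_eq_of_lt (by omega), Nat.add_zero]
  unfold gate
  rw [if_neg h3, if_pos h4, h5]

/-- TASK H3h. Proof: unfold `gate`. -/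
theorem gate_clause {c : ℕ} (hc : c < M) : gate A M (c0 M + (M - 1 - c)) = 6 := by
  unfold gate
  rw [if_pos (by omega), if_pos (by omega)]

/-- TASK H3i. Proof: unfold `gate`: `w ≥ c0 + M`. -/
theorem gate_out (hw : nw M ≤ w) : gate A M w = 0 := by
  unfold nw at hw
  unfold gate
  rw [if_pos (by omega), if_neg (by omega)]

/-- TASK H3j. Windows which write are windows of literals. Proof: `gate ∈ {1,2,3,5}` (so `w < nw` by `gate_out`), `win_cases`; the second kind has gate 4 or 0, the third 6. -/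
theorem of_wr {p : ℕ} (h : wr A M w p = true) :
    ∃ t κ, t ≤ aa M + 1 ∧ κ < 3 * M ∧ w = wn A M t κ ∧ p = wpg A M w := by
  unfold wr at h
  obtain ⟨hg, hp⟩ := of_decide_eq_true h
  have hw : w < nw M := by
    by_contra hc
    rw [gate_out (by omega)] at hg
    omega
  rcases win_cases (A := A) hw with ⟨t, κ, ht, hk, he⟩ | ⟨t, ht, he⟩ | ⟨c, hc, he⟩
  · exact ⟨t, κ, ht, hk, he, hp⟩
  · rw [he, gate_end ht] at hg
    by_cases h0 : t = 0
    · rw [if_pos h0] at hg
      omega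
    · rw [if_neg h0] at hg
      omega
  · rw [he, gate_clause hc] at hg
    omega

/-- TASK H3k. The page written by a window of a literal. Proof: `tt_wn`, `kap_wn`, unfold `wpg`. -/
theorem wpg_wn (h : κ < 3 * M) :
    wpg A M (wn A M t κ) = if t = 0 then ps A M 0 κ % 2
      else if t ≤ aa M then 2 * (t % 2) + κ / 2 ^ (t - 1) % 2 else 4 + κ % 3 := by
  unfold wpg
  rw [(tt_wn h).1, (tt_wn h).2, kap_wn h]
  by_cases ht : t = 0
  · subst ht
    rfl
  · rw [if_neg ht, if_neg ht]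

/-- TASK H3l. The page read by a window of a literal. Proof: `tt_wn`, `kap_wn`, unfold `rpg`. -/
theorem rpg_wn (h : κ < 3 * M) :
    rpg A M (wn A M t κ) = if t = 0 then (ps A M 0 κ + 1) % 2
      else if t = 1 then ps A M 0 κ % 2 else 2 * ((t - 1) % 2) + κ / 2 ^ (t - 2) % 2 := by
  unfold rpg
  rw [(tt_wn h).1, (tt_wn h).2, kap_wn h]
  by_cases ht : t = 0
  · subst ht
    rfl
  · rw [if_neg ht, if_neg ht]

/-- TASK H3m. Every window of a literal writes its page. Proof: `gate_zero`, `gate_pass`, unfold `wr`. -/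
theorem wr_wn (ht : t ≤ aa M + 1) (h : κ < 3 * M) {p : ℕ} :
    wr A M (wn A M t κ) p = true ↔ p = wpg A M (wn A M t κ) := by
  unfold wr
  rw [decide_eq_true_eq]
  refine ⟨fun hh => hh.2, fun hp => ⟨?_, hp⟩⟩
  by_cases ht0 : t = 0
  · subst ht0
    rw [gate_zero h]
    split_ifs <;> simp
  · rw [gate_pass (by omega) ht h]
    simp

end Sn

end Pool.Agent.Lib.MP_711ea9_lc.FH
end

section

set_option autoImplicit false

namespace Pool.Agent.Lib.MP_711ea9_lc.FH

open Finset

private theorem H6_l1 {A : ℕ → ℕ} {M s κ p : ℕ} (h : κ < 3 * M) :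
    Sn.l1 A M (Sn.wn A M s κ) p = if s = 0 then Sn.wn A M s κ + 1
      else if s ≤ Sn.aa M then Sn.wn A M (s + 1) κ else Sn.c0 M + (M - 1 - κ / 3) := by
  unfold Sn.l1
  rw [(Sn.tt_wn h).1, Sn.kap_wn h]

private theorem H6_l2 {A : ℕ → ℕ} {M s κ p : ℕ} (h : κ < 3 * M) :
    Sn.l2 A M (Sn.wn A M s κ) p = if s = 0 then Sn.wn A M 1 κ else 0 := by
  unfold Sn.l2
  rw [(Sn.tt_wn h).1, Sn.kap_wn h]

private theorem H6_wn_lt {A : ℕ → ℕ} {M s s' κ : ℕ} (h : κ < 3 * M) (hs : s < s') (x : ℕ) :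
    Sn.wn A M s κ < s' * (3 * M + 1) + x := by
  have h1 := Sn.ps_lt (A := A) (t := s) h
  have h2 := Nat.mul_le_mul_right (3 * M + 1) hs
  unfold Sn.wn
  rw [Nat.succ_mul] at h2
  omega

/-- TASK H6. The links of the net of a 3CNF are laminar.
Proof. `of_wr` for both: `w = wn s κ`, `w' = wn s' κ'`, `w < w'`, so `s ≤ s'` (`ps_lt`), common page `p` (`wpg_wn`). Targets (`tt_wn`, `kap_wn`): `s = 0`: `w + 1` and `wn 1 κ` (= `l2`); `1 ≤ s ≤ aa`: `wn (s+1) κ`; `s = aa + 1`: `c0 + (M - 1 - κ/3)`; `l2 = 0` for `s ≥ 1`.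
`s = s' = 0`: `x = ps 0 κ < x' = ps 0 κ'` of the same parity, `x + 2 ≤ x'`. `t = w + 1`: `t < w'`. `t = wn 1 κ`: `t' = w' + 1 ≤ 3 M < t`, or `t' = wn 1 κ' < wn 1 κ` by `ps_rev0`. `s = 0 < s'`: `p < 2`, so `s'` is even and `≤ aa`, `s' ≥ 2`: `t < 2 (3M+1) ≤ w'`. `1 ≤ s = s' ≤ aa`: equal page gives equal bits `κ / 2^(s-1) % 2`; `ps s κ < ps s κ'`, so `ps_rev`: `t' < t`.
`s = s' = aa + 1`: `κ < κ'` (`ps_last`; here `1 ≤ M` follows from `κ < 3 M`), `κ % 3 = κ' % 3`, so `κ / 3 < κ' / 3 ≤ M - 1`: `t' < t`. `1 ≤ s < s'`: `p < 4` as `s ≤ aa`, so `s' ≤ aa` and `s % 2 = s' % 2` (from `p / 2`), `s + 2 ≤ s'`: `t = wn (s+1) κ < (s+2)(3M+1) ≤ w'`. -/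
theorem sat_laminar (A : ℕ → ℕ) (M : ℕ) : (satNet A M).Laminar := by
  intro p w w' t t' hp hlt hw' hwr hwr' ht ht'
  change Sn.wr A M w p = true at hwr
  change Sn.wr A M w' p = true at hwr'
  change t = Sn.l1 A M w p ∨ (Sn.l2 A M w p ≠ 0 ∧ t = Sn.l2 A M w p) at ht
  change t' = Sn.l1 A M w' p ∨ (Sn.l2 A M w' p ≠ 0 ∧ t' = Sn.l2 A M w' p) at ht'
  obtain ⟨s, κ, hs, hκ, rfl, hpg⟩ := Sn.of_wr hwr
  obtain ⟨s', κ', hs', hκ', rfl, hpg'⟩ := Sn.of_wr hwr'
  rw [H6_l1 hκ, H6_l2 hκ] at ht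
  rw [H6_l1 hκ', H6_l2 hκ'] at ht'
  rw [Sn.wpg_wn hκ] at hpg
  rw [Sn.wpg_wn hκ'] at hpg'
  have hM : 1 ≤ M := by omega
  have hps := Sn.ps_lt (A := A) (t := s) hκ
  have hps' := Sn.ps_lt (A := A) (t := s') hκ'
  have hss : s ≤ s' := by
    by_contra hcon
    have h1 := H6_wn_lt (A := A) hκ' (not_le.mp hcon) (Sn.ps A M s κ)
    have h2 : Sn.wn A M s κ = s * (3 * M + 1) + Sn.ps A M s κ := rfl
    omega
  rcases Nat.eq_zero_or_pos s with rfl | hs0
  · rw [if_pos rfl] at hpg
    rw [if_pos rfl, if_pos rfl] at ht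
    have hw0 : Sn.wn A M 0 κ = Sn.ps A M 0 κ := by unfold Sn.wn; omega
    have hw1 : Sn.wn A M 1 κ = 3 * M + 1 + Sn.ps A M 1 κ := by unfold Sn.wn; omega
    have hp1 := Sn.ps_lt (A := A) (t := 1) hκ
    rcases Nat.eq_zero_or_pos s' with rfl | hs0'
    · rw [if_pos rfl] at hpg'
      rw [if_pos rfl, if_pos rfl] at ht'
      have hw0' : Sn.wn A M 0 κ' = Sn.ps A M 0 κ' := by unfold Sn.wn; omega
      have hw1' : Sn.wn A M 1 κ' = 3 * M + 1 + Sn.ps A M 1 κ' := by unfold Sn.wn; omega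
      have hrev := Sn.ps_rev0 (A := A) hκ hκ' (by omega)
      rcases ht with ht | ⟨_, ht⟩ <;> rcases ht' with ht' | ⟨_, ht'⟩ <;> omega
    · have hs0n : s' ≠ 0 := by omega
      rw [if_neg hs0n] at hpg'
      have hsa' : s' ≤ Sn.aa M := by
        by_contra hcon
        rw [if_neg hcon] at hpg'
        omega
      rw [if_pos hsa'] at hpg'
      generalize κ' / 2 ^ (s' - 1) = y at hpg'
      have hs2 : 2 ≤ s' := by omega
      left
      have h1 : 2 * (3 * M + 1) ≤ s' * (3 * M + 1) := Nat.mul_le_mul_right _ hs2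
      have h2 : Sn.wn A M s' κ' = s' * (3 * M + 1) + Sn.ps A M s' κ' := rfl
      rcases ht with ht | ⟨_, ht⟩ <;> omega
  · have hs0n : s ≠ 0 := by omega
    have hs0n' : s' ≠ 0 := by omega
    rw [if_neg hs0n] at hpg
    rw [if_neg hs0n'] at hpg'
    rw [if_neg hs0n, if_neg hs0n] at ht
    rw [if_neg hs0n', if_neg hs0n'] at ht'
    have ht1 : t = if s ≤ Sn.aa M then Sn.wn A M (s + 1) κ else Sn.c0 M + (M - 1 - κ / 3) := by
      rcases ht with ht | ⟨h0, _⟩
      · exact ht
      · exact absurd rfl h0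
    have ht1' : t' = if s' ≤ Sn.aa M then Sn.wn A M (s' + 1) κ'
        else Sn.c0 M + (M - 1 - κ' / 3) := by
      rcases ht' with ht' | ⟨h0, _⟩
      · exact ht'
      · exact absurd rfl h0
    by_cases hsa : s ≤ Sn.aa M
    · rw [if_pos hsa] at hpg ht1
      by_cases hsa' : s' ≤ Sn.aa M
      · rw [if_pos hsa'] at hpg' ht1'
        rcases Nat.eq_or_lt_of_le hss with rfl | hlt'
        · have hb : κ / 2 ^ (s - 1) % 2 = κ' / 2 ^ (s - 1) % 2 := by
            generalize κ / 2 ^ (s - 1) = y at hpg ⊢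
            generalize κ' / 2 ^ (s - 1) = y' at hpg' ⊢
            omega
          have hlt2 : Sn.ps A M s κ < Sn.ps A M s κ' := by
            unfold Sn.wn at hlt
            omega
          have hrev := Sn.ps_rev hs0 hκ hκ' hb hlt2
          right
          rw [ht1, ht1']
          unfold Sn.wn
          omega
        · have hs2 : s + 1 < s' := by
            generalize κ / 2 ^ (s - 1) = y at hpg
            generalize κ' / 2 ^ (s' - 1) = y' at hpg'
            omega
          left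
          rw [ht1]
          exact H6_wn_lt hκ hs2 _
      · rw [if_neg hsa'] at hpg'
        generalize κ / 2 ^ (s - 1) = y at hpg
        omega
    · have hsa' : ¬ s' ≤ Sn.aa M := by omega
      rw [if_neg hsa] at hpg ht1
      rw [if_neg hsa'] at hpg' ht1'
      have e1 : s = Sn.aa M + 1 := by omega
      have e2 : s' = Sn.aa M + 1 := by omega
      subst e1
      subst e2
      have hlt2 : Sn.ps A M (Sn.aa M + 1) κ < Sn.ps A M (Sn.aa M + 1) κ' := by
        unfold Sn.wn at hlt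
        omega
      rw [Sn.ps_last hM hκ, Sn.ps_last hM hκ'] at hlt2
      right
      rw [ht1, ht1']
      omega

end Pool.Agent.Lib.MP_711ea9_lc.FH
end

section

set_option autoImplicit false

namespace Pool.Agent.Lib.MP_711ea9_lc.FH

open Finset

namespace Sn

variable {A : ℕ → ℕ} {M w p q b c : ℕ}

private lemma h4_aa_pos : 1 ≤ aa M := by unfold aa; omega

/-- TASK H4a. Pages are less than 8, and a window does not read the page which it writes.
Proof. `rpg < 4` and `wpg < 7` from the definitions (`% 2`, `% 3`). Different: `tt = 0`: `(x+1) % 2 ≠ x % 2`. `tt = 1`: `rpg < 2`, `wpg = 2 + ..` (`1 ≤ aa`). `tt ≥ 2`: `rpg = 2 ((tt-1)%2) + ..`; `wpg = 2 (tt % 2) + ..` or `≥ 4`. -/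
theorem pages : rpg A M w < 4 ∧ wpg A M w < 7 ∧ rpg A M w ≠ wpg A M w := by
  have haa : 1 ≤ aa M := h4_aa_pos
  unfold rpg wpg
  by_cases h0 : tt M w = 0
  · rw [if_pos h0, if_pos h0]
    refine ⟨by omega, by omega, by omega⟩
  · rw [if_neg h0, if_neg h0]
    by_cases h1 : tt M w = 1
    · rw [if_pos h1, if_pos (by omega : tt M w ≤ aa M), h1]
      refine ⟨by omega, by omega, by omega⟩
    · rw [if_neg h1]
      by_cases h2 : tt M w ≤ aa M
      · rw [if_pos h2]
        refine ⟨by omega, by omega, by omega⟩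
      · rw [if_neg h2]
        refine ⟨by omega, by omega, by omega⟩

/-- TASK H4b. Proof: unfold `rd`, `wr`; kinds 1 and 6 do not do both; kinds 2, 3, 5: `pages`. -/
theorem excl (h : rd A M w p = true) : wr A M w p = false := by
  have hp := pages (A := A) (M := M) (w := w)
  have h' := of_decide_eq_true h
  apply decide_eq_false
  omega

/-- TASK H4c. Proof: both are `wpg w`. -/
theorem one (h : wr A M w p = true) (h' : wr A M w q = true) : p = q := by
  have h1 := of_decide_eq_true h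
  have h2 := of_decide_eq_true h'
  omega

/-- TASK H4d. Proof: unfold `e`; 7 cases. -/
theorem e_le : e A M w ≤ 7 := by
  unfold e
  split_ifs <;> omega

private lemma h4_gate_le : gate A M w ≤ 6 := by
  unfold gate
  split_ifs <;> omega

private lemma h4_tt_zero (h : gate A M w = 1 ∨ gate A M w = 2 ∨ gate A M w = 3) : tt M w = 0 := by
  by_contra h0
  have key : gate A M w = 6 ∨ gate A M w = 0 ∨ gate A M w = 5 := by
    unfold gate
    rw [if_neg h0, if_neg h0]
    split_ifs <;> simp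
  omega

private lemma h4_tt_five (h : gate A M w = 5) : tt M w ≠ 0 := by
  intro h0
  have key : gate A M w ≠ 5 := by
    unfold gate
    rw [if_pos h0, if_pos h0]
    split_ifs <;> simp
  exact key h

private lemma h4_l2_ne (h : tt M w = 0) : l2 A M w p ≠ 0 := by
  unfold l2 wn
  rw [if_pos h]
  omega

private lemma h4_l2_eq (h : tt M w ≠ 0) : l2 A M w p = 0 := by
  unfold l2
  rw [if_neg h]

/-- TASK H4e. The number of slots.
Proof. Case on the kind (`gate ≤ 6`; for each value unfold `rd`, `wr`, `e` with it: `simp [rd, wr, e, hg]`). The sum over `range 8` of the read part is `2` for kinds 2-5 (`Finset.sum_ite_eq`, `rpg < 8`), `6` for kind 6 (`p = 4, 5, 6`; `decide`/`simp [sum_range_succ]`), else 0; the write part is `4 + [l2 ≠ 0]` for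
kinds 1, 2, 3, 5 (`wpg < 8`). `l2 w p ≠ 0` iff `tt w = 0` (for `tt w = 0`: `wn 1 κ ≥ 3 M + 1 > 0`); kinds 1, 2, 3 have `tt w = 0`, kind 5 has `tt w ≠ 0` (unfold `gate`). -/
theorem e_eq : e A M w = ∑ p ∈ range 8, ((if rd A M w p = true then 2 else 0) +
    (if wr A M w p = true then 4 + (if l2 A M w p ≠ 0 then 1 else 0) else 0)) := by
  obtain ⟨hr, hw, -⟩ := pages (A := A) (M := M) (w := w)
  have hr8 : rpg A M w ∈ range 8 := mem_range.2 (by omega)
  have hw8 : wpg A M w ∈ range 8 := mem_range.2 (by omega)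
  have hg := h4_gate_le (A := A) (M := M) (w := w)
  rw [sum_add_distrib]
  have key : gate A M w = 0 ∨ gate A M w = 1 ∨ gate A M w = 2 ∨ gate A M w = 3 ∨
      gate A M w = 4 ∨ gate A M w = 5 ∨ gate A M w = 6 := by omega
  rcases key with h | h | h | h | h | h | h
  · simp [rd, wr, e, h]
  · have h0 : tt M w = 0 := h4_tt_zero (A := A) (by omega)
    have hl : ∀ p, l2 A M w p ≠ 0 := fun p => h4_l2_ne h0
    simp [rd, wr, e, h, hl]
    omega
  · have h0 : tt M w = 0 := h4_tt_zero (A := A) (by omega)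
    have hl : ∀ p, l2 A M w p ≠ 0 := fun p => h4_l2_ne h0
    simp [rd, wr, e, h, hl]
    rw [if_pos (show rpg A M w < 8 by omega), if_pos (show wpg A M w < 8 by omega)]
  · have h0 : tt M w = 0 := h4_tt_zero (A := A) (by omega)
    have hl : ∀ p, l2 A M w p ≠ 0 := fun p => h4_l2_ne h0
    simp [rd, wr, e, h, hl]
    rw [if_pos (show rpg A M w < 8 by omega), if_pos (show wpg A M w < 8 by omega)]
  · simp [rd, wr, e, h]
    omega
  · have h0 : tt M w ≠ 0 := h4_tt_five h
    have hl : ∀ p, l2 A M w p = 0 := fun p => h4_l2_eq h0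
    simp [rd, wr, e, h, hl]
    rw [if_pos (show rpg A M w < 8 by omega), if_pos (show wpg A M w < 8 by omega)]
  · simp [rd, wr, e, h, sum_range_succ]

/-- TASK H4f. Chains have length at least 2. Proof: unfold `len`, `ab`; all values are `≥ 2`. -/
theorem len_ge : 2 ≤ len A M b w c := by
  unfold len ab
  split_ifs <;> omega

/-- TASK H4g. Chains of a reader. Proof: `p = b / 2` is read: kinds 2, 3, 5 with `b / 2 = rpg`: `ab 4 ≤ 7`, `4 + c ≤ 5 ≤ 7`, `ab 3 ≤ 6`; kind 4: `2 ≤ 2`; kind 6: `≤ 6` (`c < 2`). -/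
theorem len_rd (h : rd A M w (b / 2) = true) (hc : c < 2) : len A M b w c ≤ e A M w := by
  have h1 := of_decide_eq_true h
  unfold len ab e
  split_ifs <;> omega

/-- TASK H4h. Chains of a writer. Proof: kind 1: `3 + c + 1 ≤ 5`; kinds 2, 3, 5: `b / 2 = wpg ≠ rpg` (`pages`): `ab 3 + 1 ≤ 7`, `5 + c + 1 ≤ 7`, `ab 2 + 1 ≤ 6`. -/
theorem len_wr (h : wr A M w (b / 2) = true) (hc : c < 2) : len A M b w c + 1 ≤ e A M w := by
  have hp := pages (A := A) (M := M) (w := w)
  have h1 := of_decide_eq_true h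
  unfold len ab e
  split_ifs <;> omega

end Sn

end Pool.Agent.Lib.MP_711ea9_lc.FH
end

section

set_option autoImplicit false

namespace Pool.Agent.Lib.MP_711ea9_lc.FH

open Finset

namespace Sn

variable {A : ℕ → ℕ} {M w p : ℕ}

private theorem h5_l1 {t κ : ℕ} (h : κ < 3 * M) :
    l1 A M (wn A M t κ) p = if t = 0 then wn A M t κ + 1
      else if t ≤ aa M then wn A M (t + 1) κ else c0 M + (M - 1 - κ / 3) := by
  have h1 := (tt_wn (A := A) (t := t) h).1
  have h2 := kap_wn (A := A) (t := t) h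
  unfold l1
  rw [h1, h2]

private theorem h5_l2 {t κ : ℕ} (h : κ < 3 * M) :
    l2 A M (wn A M t κ) p = if t = 0 then wn A M 1 κ else 0 := by
  have h1 := (tt_wn (A := A) (t := t) h).1
  have h2 := kap_wn (A := A) (t := t) h
  unfold l2
  rw [h1, h2]

private theorem h5_fr {t κ : ℕ} (h : κ < 3 * M) (hg : gate A M (wn A M t κ) ≠ 6) :
    fr A M (wn A M t κ) p = if t = 0 then wn A M t κ - 1 else wn A M (t - 1) κ := by
  have h1 := (tt_wn (A := A) (t := t) h).1
  have h2 := kap_wn (A := A) (t := t) h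
  unfold fr
  rw [if_neg hg, h1, h2]

private theorem h5_wn0 {κ : ℕ} : wn A M 0 κ = ps A M 0 κ := by
  unfold wn; simp

private theorem h5_gate0 {κ : ℕ} (h : κ < 3 * M) (h0 : ps A M 0 κ ≠ 0) :
    gate A M (wn A M 0 κ) = 2 ∨ gate A M (wn A M 0 κ) = 3 := by
  rw [gate_zero h, if_neg h0]
  by_cases hA : A κ / 2 = A (el A M 0 (ps A M 0 κ - 1)) / 2
  · left; rw [if_pos hA]
  · right; rw [if_neg hA]

private theorem h5_c0 : c0 M ≤ nw M := by unfold nw; omega

private theorem h5_wn_succ {t κ : ℕ} (h : κ < 3 * M) : wn A M t κ < wn A M (t + 1) κ := by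
  have h1 := ps_lt (A := A) (t := t) h
  unfold wn
  have : (t + 1) * (3 * M + 1) = t * (3 * M + 1) + (3 * M + 1) := by ring
  omega

/-- TASK H5a. The first link.
Proof. `of_wr`: `w = wn t κ`, `p = wpg w` (`wpg_wn`). `t = 0`: `w = x = ps 0 κ < 3 M`, `l1 = w + 1 ≤ 3 M`, `tt (w+1) = 0`, `xx (w + 1) = x + 1`, `gate (w+1)` is 4 if `x + 1 = 3 M` (`gate_end` with `t = 0`), else 2 or 3 (unfold `gate`; or `w + 1 = wn 0 (el 0 (x+1))`), `rpg (w+1) = (x + 2) % 2 = p`, `fr (w+1) = w`.
`1 ≤ t ≤ aa`: `l1 = wn (t+1) κ > wn t κ`, `< c0 ≤ nw` (`wn_lt`), `gate_pass`, `rpg_wn` (`t + 1 ≥ 2`: `2 (t % 2) + κ / 2^(t-1) % 2 `) `= p`, `fr = wn t κ` (`kap_wn`, `tt_wn`). `t = aa + 1`: `l1 = c0 + (M - 1 - κ/3)`, `w < c0`, `gate_clause` (`κ / 3 < M`), `p = 4 + κ % 3`, `rel = 3 (M - 1 - (M - 1 - κ/3)) + κ % 3 = κ`, `fr = wn (aa+1) κ`. -/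
theorem link1 (h : wr A M w p = true) :
    w < l1 A M w p ∧ l1 A M w p < nw M ∧ rd A M (l1 A M w p) p = true ∧
      fr A M (l1 A M w p) p = w := by
  obtain ⟨t, κ, ht, hκ, rfl, hp⟩ := of_wr h
  have hc0 := h5_c0 (M := M)
  rw [wpg_wn hκ] at hp
  rw [h5_l1 hκ]
  by_cases h0 : t = 0
  · subst h0
    simp only [if_pos] at hp ⊢
    rw [h5_wn0]
    have hps := ps_lt (A := A) (t := 0) hκ
    by_cases hx : ps A M 0 κ + 1 = 3 * M
    · have hend := gate_end (A := A) (M := M) (t := 0) (by omega)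
      simp only [Nat.zero_mul, Nat.zero_add, if_pos] at hend
      have htt : tt M (3 * M) = 0 := by
        unfold tt; exact Nat.div_eq_of_lt (by omega)
      have hxx : xx M (3 * M) = 3 * M := by
        unfold xx; exact Nat.mod_eq_of_lt (by omega)
      have hlt : 3 * M < c0 M := by
        unfold c0
        have : (aa M + 2) * (3 * M + 1) = aa M * (3 * M + 1) + 2 * (3 * M + 1) := by ring
        omega
      rw [hx]
      refine ⟨by omega, by omega, ?_, ?_⟩
      · unfold rd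
        rw [decide_eq_true_eq]
        left
        refine ⟨by omega, by omega, ?_⟩
        unfold rpg
        rw [if_pos htt, hxx]
        omega
      · unfold fr
        rw [if_neg (by omega), if_pos htt]
        omega
    · obtain ⟨hel, hpe⟩ := ps_el (A := A) (M := M) (t := 0) (x := ps A M 0 κ + 1) (by omega)
      have hw' : ps A M 0 κ + 1 = wn A M 0 (el A M 0 (ps A M 0 κ + 1)) := by
        rw [h5_wn0, hpe]
      have hg := h5_gate0 (A := A) hel (by omega)
      have hlt := wn_lt (A := A) (M := M) (t := 0) (by omega) hel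
      rw [← hw'] at hg hlt
      refine ⟨by omega, by omega, ?_, ?_⟩
      · unfold rd
        rw [decide_eq_true_eq]
        left
        refine ⟨by omega, by omega, ?_⟩
        rw [hw', rpg_wn hel, if_pos rfl, hpe]
        omega
      · rw [hw', h5_fr hel (by rw [← hw']; omega), if_pos rfl, ← hw']
        omega
  · rw [if_neg h0] at hp ⊢
    by_cases ha : t ≤ aa M
    · rw [if_pos ha] at hp ⊢
      have hg := gate_pass (A := A) (M := M) (t := t + 1) (by omega) (by omega) hκ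
      have hlt := wn_lt (A := A) (M := M) (t := t + 1) (by omega) hκ
      refine ⟨h5_wn_succ hκ, by omega, ?_, ?_⟩
      · unfold rd
        rw [decide_eq_true_eq]
        left
        refine ⟨by omega, by omega, ?_⟩
        rw [rpg_wn hκ, if_neg (by omega), if_neg (by omega), hp]
        have e1 : t + 1 - 1 = t := by omega
        have e2 : t + 1 - 2 = t - 1 := by omega
        rw [e1, e2]
      · rw [h5_fr hκ (by omega), if_neg (by omega)]
        have e1 : t + 1 - 1 = t := by omega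
        rw [e1]
    · rw [if_neg ha] at hp ⊢
      have hta : t = aa M + 1 := by omega
      subst hta
      have hlt := wn_lt (A := A) (M := M) (t := aa M + 1) (by omega) hκ
      have hc : κ / 3 < M := by omega
      have hg := gate_clause (A := A) hc
      have hrel : rel A M (c0 M + (M - 1 - κ / 3)) p = κ := by
        unfold rel
        rw [if_pos hg]
        omega
      refine ⟨by omega, by unfold nw; omega, ?_, ?_⟩
      · unfold rd
        rw [decide_eq_true_eq]
        right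
        refine ⟨hg, by omega, by omega⟩
      · unfold fr
        rw [if_pos hg, hrel]

/-- TASK H5b. The second link.
Proof. `l2 ≠ 0` gives `tt w = 0`, so `w = wn 0 κ` (`of_wr`, `tt_wn`), `l1 = w + 1 ≤ 3 M < 3 M + 1 ≤ wn 1 κ = l2` (`kap_wn`), `< c0 ≤ nw` (`wn_lt`), `gate_pass`, `rpg_wn` with `t = 1`: `ps 0 κ % 2 = wpg w = p`; `fr = wn 0 κ = w` (`tt_wn`: `tt = 1 ≠ 0`, `kap_wn`). -/
theorem link2 (h : wr A M w p = true) (h0 : l2 A M w p ≠ 0) :
    l1 A M w p < l2 A M w p ∧ l2 A M w p < nw M ∧ rd A M (l2 A M w p) p = true ∧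
      fr A M (l2 A M w p) p = w := by
  obtain ⟨t, κ, ht, hκ, rfl, hp⟩ := of_wr h
  have hc0 := h5_c0 (M := M)
  rw [wpg_wn hκ] at hp
  rw [h5_l2 hκ] at h0
  rw [h5_l1 hκ, h5_l2 hκ]
  have ht0 : t = 0 := by
    by_contra hne
    rw [if_neg hne] at h0
    exact h0 rfl
  subst ht0
  simp only [if_pos] at hp ⊢
  have hps := ps_lt (A := A) (t := 0) hκ
  have ha1 : 1 ≤ aa M := by unfold aa; omega
  have hg := gate_pass (A := A) (M := M) (t := 1) (by omega) (by omega) hκ
  have hlt := wn_lt (A := A) (M := M) (t := 1) (by omega) hκ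
  refine ⟨?_, by omega, ?_, ?_⟩
  · rw [h5_wn0]
    unfold wn
    omega
  · unfold rd
    rw [decide_eq_true_eq]
    left
    refine ⟨by omega, by omega, ?_⟩
    rw [rpg_wn hκ, if_neg (by omega), if_pos rfl, hp]
  · rw [h5_fr hκ (by omega), if_neg (by omega)]

/-- TASK H5c. The source of a reader.
Proof. `win_cases` for `w < nw`. (1) `w = wn t κ`: `t = 0`: the gate is 2 or 3, so `x = ps 0 κ ≥ 1`; `fr = w - 1 = x - 1 = wn 0 κ'` with `κ' = el 0 (x - 1)` (`ps_el`), `wr_wn`, `wpg_wn`: `(x - 1) % 2 = (x + 1) % 2 = rpg = p` (`rpg_wn`); `l1 (x - 1) = x`. `t = 1`: `p = ps 0 κ % 2`, `fr = wn 0 κ` (`kap_wn`), `wr_wn`, `wpg_wn`, `l2 (wn 0 κ) = wn 1 κ = w ≠ 0`.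
`t ≥ 2`: `fr = wn (t-1) κ`, `wpg_wn` with `t - 1 ≤ aa`: `2 ((t-1)%2) + κ / 2^(t-2) % 2 = rpg = p`, `l1 (wn (t-1) κ) = wn t κ`. (2) `w = t (3M+1) + 3M`: gate 4 or 0 (`gate_end`), so `t = 0`, `w = 3 M`; `fr = 3 M - 1 = wn 0 (el 0 (3M - 1))` (here `1 ≤ M`), page `(3M-1) % 2 = (3M+1) % 2`; `l1 = 3 M`.
(3) `w = c0 + (M - 1 - c)`: `gate_clause`; `4 ≤ p ≤ 6`; `κ = rel = 3 c + (p - 4) < 3 M`, `fr = wn (aa+1) κ`, `wpg_wn` (`aa + 1 > aa`): `4 + κ % 3 = p`; `l1 = c0 + (M - 1 - κ/3)`, `κ / 3 = c`. -/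
theorem source (hM : 1 ≤ M) (hw : w < nw M) (h : rd A M w p = true) :
    fr A M w p < nw M ∧ wr A M (fr A M w p) p = true ∧
      (l1 A M (fr A M w p) p = w ∨ (l2 A M (fr A M w p) p ≠ 0 ∧ l2 A M (fr A M w p) p = w)) := by
  have hc0 := h5_c0 (M := M)
  have hrd := h
  unfold rd at hrd
  rw [decide_eq_true_eq] at hrd
  rcases win_cases (A := A) hw with ⟨t, κ, ht, hκ, rfl⟩ | ⟨t, ht, rfl⟩ | ⟨c, hc, rfl⟩
  · rcases Nat.lt_or_ge t 1 with ht1 | ht1
    · have ht0 : t = 0 := by omega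
      subst ht0
      have hps := ps_lt (A := A) (t := 0) hκ
      have hx : ps A M 0 κ ≠ 0 := by
        intro hx
        have hg := gate_zero (A := A) hκ
        rw [if_pos hx] at hg
        rcases hrd with h1 | h1 <;> omega
      have hg := h5_gate0 (A := A) hκ hx
      have hp : p = (ps A M 0 κ + 1) % 2 := by
        rcases hrd with h1 | h1
        · have h2 := h1.2.2
          rw [rpg_wn hκ, if_pos rfl] at h2
          exact h2
        · omega
      obtain ⟨hel, hpe⟩ := ps_el (A := A) (M := M) (t := 0) (x := ps A M 0 κ - 1) (by omega)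
      have hfr : fr A M (wn A M 0 κ) p = wn A M 0 (el A M 0 (ps A M 0 κ - 1)) := by
        rw [h5_fr hκ (by omega), if_pos rfl, h5_wn0, h5_wn0, hpe]
      rw [hfr]
      have hlt := wn_lt (A := A) (M := M) (t := 0) (by omega) hel
      refine ⟨by omega, ?_, ?_⟩
      · rw [wr_wn (by omega) hel, wpg_wn hel, if_pos rfl, hpe, hp]
        omega
      · left
        rw [h5_l1 hel, if_pos rfl, h5_wn0, h5_wn0, hpe]
        omega
    · have hg := gate_pass (A := A) (M := M) (t := t) ht1 ht hκ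
      have hp : p = rpg A M (wn A M t κ) := by
        rcases hrd with h1 | h1
        · exact h1.2.2
        · omega
      rw [rpg_wn hκ, if_neg (by omega)] at hp
      have hfr : fr A M (wn A M t κ) p = wn A M (t - 1) κ := by
        rw [h5_fr hκ (by omega), if_neg (by omega)]
      rw [hfr]
      have hlt := wn_lt (A := A) (M := M) (t := t - 1) (by omega) hκ
      refine ⟨by omega, ?_, ?_⟩
      · rw [wr_wn (by omega) hκ, wpg_wn hκ]
        by_cases h1 : t = 1
        · subst h1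
          rw [if_pos rfl] at hp
          rw [if_pos (by omega)]
          exact hp
        · rw [if_neg h1] at hp
          rw [if_neg (by omega), if_pos (by omega), hp]
          have e2 : t - 1 - 1 = t - 2 := by omega
          rw [e2]
      · by_cases h1 : t = 1
        · right
          subst h1
          have e0 : (1 : ℕ) - 1 = 0 := rfl
          rw [e0, h5_l2 hκ, if_pos rfl]
          refine ⟨?_, rfl⟩
          unfold wn
          omega
        · left
          rw [h5_l1 hκ, if_neg (by omega), if_pos (by omega)]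
          have e2 : t - 1 + 1 = t := by omega
          rw [e2]
  · have hg := gate_end (A := A) (M := M) (t := t) ht
    have ht0 : t = 0 := by
      by_contra hne
      rw [if_neg hne] at hg
      rcases hrd with h1 | h1 <;> omega
    subst ht0
    rw [if_pos rfl] at hg
    have hp : p = rpg A M (0 * (3 * M + 1) + 3 * M) := by
      rcases hrd with h1 | h1
      · exact h1.2.2
      · omega
    have e0 : 0 * (3 * M + 1) + 3 * M = 3 * M := by omega
    rw [e0] at hg hp hw ⊢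
    have htt : tt M (3 * M) = 0 := by
      unfold tt; exact Nat.div_eq_of_lt (by omega)
    have hxx : xx M (3 * M) = 3 * M := by
      unfold xx; exact Nat.mod_eq_of_lt (by omega)
    unfold rpg at hp
    rw [if_pos htt, hxx] at hp
    obtain ⟨hel, hpe⟩ := ps_el (A := A) (M := M) (t := 0) (x := 3 * M - 1) (by omega)
    have hfr : fr A M (3 * M) p = wn A M 0 (el A M 0 (3 * M - 1)) := by
      rw [h5_wn0, hpe]
      unfold fr
      rw [if_neg (by omega), if_pos htt]
    rw [hfr]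
    have hlt := wn_lt (A := A) (M := M) (t := 0) (by omega) hel
    refine ⟨by omega, ?_, ?_⟩
    · rw [wr_wn (by omega) hel, wpg_wn hel, if_pos rfl, hpe, hp]
      omega
    · left
      rw [h5_l1 hel, if_pos rfl, h5_wn0, hpe]
      omega
  · have hg := gate_clause (A := A) hc
    have hp : 4 ≤ p ∧ p ≤ 6 := by
      rcases hrd with h1 | h1
      · omega
      · exact h1.2
    have hrel : rel A M (c0 M + (M - 1 - c)) p = 3 * c + (p - 4) := by
      unfold rel
      rw [if_pos hg]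
      omega
    have hκ : 3 * c + (p - 4) < 3 * M := by omega
    have hfr : fr A M (c0 M + (M - 1 - c)) p = wn A M (aa M + 1) (3 * c + (p - 4)) := by
      unfold fr
      rw [if_pos hg, hrel]
    rw [hfr]
    have hlt := wn_lt (A := A) (M := M) (t := aa M + 1) (by omega) hκ
    refine ⟨by omega, ?_, ?_⟩
    · rw [wr_wn (by omega) hκ, wpg_wn hκ, if_neg (by omega), if_neg (by omega)]
      omega
    · left
      rw [h5_l1 hκ, if_neg (by omega), if_neg (by omega)]
      omega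

end Sn

end Pool.Agent.Lib.MP_711ea9_lc.FH
end

section

set_option autoImplicit false

namespace Pool.Agent.Lib.MP_711ea9_lc.FH

namespace Sn

variable {M : ℕ}

theorem aux_step (P Q R : ℕ) (h1 : R ≤ 2 * Q) (h2 : 1000 + 1800 * Q < P) :
    1000 + 1800 * R < 2 * P := by omega

theorem aux_K (P Q : ℕ) (h : 1000 + 1800 * Q < P) : 14 + 1800 * Q + 900 < P := by omega

theorem aux_k0 (P Q k : ℕ) (h1 : k + 900 < P) (h2 : P ≤ Q) : 22 + k < Q := by omega

/-- TASK H7a. Proof: by induction on `a`: at `a = 0`: `1000 + 1800 * 30 * 61 = 3295000 < 2 ^ 23 = 8388608`; step: `(a + 31)(4 a + 65) ≤ 2 (a + 30)(4 a + 61)` (`nlinarith`/`ring_nf; omega`), `pow_succ`. -/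
theorem poly_lt (a : ℕ) : 1000 + 1800 * ((a + 30) * (4 * a + 61)) < 2 ^ (a + 23) := by
  induction a with
  | zero => norm_num
  | succ a ih =>
    have h1 : (a + 1 + 30) * (4 * (a + 1) + 61) ≤ 2 * ((a + 30) * (4 * a + 61)) := by
      nlinarith
    have h2 : 2 ^ (a + 1 + 23) = 2 * 2 ^ (a + 23) := by
      rw [show a + 1 + 23 = (a + 23) + 1 by ring, pow_succ]
      ring
    rw [h2]
    exact aux_step _ _ _ h1 ih

/-- TASK H7b. Proof: unfold `K`, `k0`, `tau`, `hm`: `K = 14 + (a + 30) * (1800 * (4 a + 61))` with `a = aa M`; `poly_lt`. -/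
theorem K_lt : K M + 900 < 2 ^ (aa M + 23) := by
  have h1 := poly_lt (aa M)
  have h2 : K M = 14 + 1800 * ((aa M + 30) * (4 * aa M + 61)) := by
    unfold K k0 tau hm
    ring
  rw [h2]
  exact aux_K _ _ h1

/-- TASK H7c. Proof: `K_lt`, `2 ^ (a + 23) ≤ 2 ^ (a + 30)`. -/
theorem hk0 : 22 + K M < 2 ^ k0 M := by
  have h1 := K_lt (M := M)
  have h2 : 2 ^ (aa M + 23) ≤ 2 ^ k0 M :=
    Nat.pow_le_pow_right (by norm_num) (by unfold k0; omega)
  exact aux_k0 _ _ _ h1 h2

/-- TASK H7d. Proof. With `a = aa M` and `X = 2 ^ a`: `3 M < X` (`lt_two_pow_aa`), so `nw + 2 = (a + 2)(3 M + 1) + M + 2 ≤ (a + 5) X`; `a + 6 ≤ 8 X` (`a < X`: `Nat.lt_two_pow_self`); `Lam = K + 400 < 2 ^ 23 X`, `T + 1 = Lam (nw + 2) + 1 ≤ 2 ^ 23 X (a + 5) X + 1 ≤ 2 ^ 23 X * (a + 6) X ≤ 2 ^ 26 X ^ 3`, `K + 24 ≤ 2 ^ 23 X`;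
so `kk ≤ 2 ^ 49 X ^ 4 < 2 ^ 60 X ^ 4 = 2 ^ (4 a + 60)`. -/
theorem kk_lt (hM : 1 ≤ M) : kk M < 2 ^ hm M := by
  have h1 := K_lt (M := M)
  have h2 := lt_two_pow_aa hM
  have h3 : aa M < 2 ^ aa M := Nat.lt_two_pow_self
  have h4 : 2 ^ (aa M + 23) = 8388608 * 2 ^ aa M := by rw [pow_add]; norm_num [mul_comm]
  rw [h4] at h1
  have h5 : 2 ^ hm M = 1152921504606846976 * (2 ^ aa M) ^ 4 := by
    unfold hm
    rw [pow_add, ← pow_mul, mul_comm (aa M) 4]
    norm_num [mul_comm]
  rw [h5]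
  unfold kk T Lam nw c0
  generalize 2 ^ aa M = X at *
  generalize aa M = a at *
  generalize K M = k at *
  have hnw : (a + 2) * (3 * M + 1) + M + 2 ≤ (a + 3) * X := by
    have h6 : (a + 2) * (3 * M + 1) ≤ (a + 2) * X := Nat.mul_le_mul_left _ h2
    have h7 : (a + 3) * X = (a + 2) * X + X := by ring
    omega
  have hX : 1 ≤ X := by omega
  have hT : (k + 400) * ((a + 2) * (3 * M + 1) + M + 2) + 1 ≤ 33554432 * X ^ 3 := by
    have h8 : (k + 400) * ((a + 2) * (3 * M + 1) + M + 2) ≤ 8388608 * X * ((a + 3) * X) :=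
      Nat.mul_le_mul (by omega) hnw
    have h9 : 1 ≤ 8388608 * X * X := Nat.mul_pos (Nat.mul_pos (by norm_num) hX) hX
    have h10 : 8388608 * X * X * (a + 4) ≤ 8388608 * X * X * (4 * X) :=
      Nat.mul_le_mul_left _ (by omega)
    have h11 : 8388608 * X * ((a + 3) * X) + 8388608 * X * X = 8388608 * X * X * (a + 4) := by ring
    have h12 : 8388608 * X * X * (4 * X) = 33554432 * X ^ 3 := by ring
    linarith
  have hkk : (k + 24) * ((k + 400) * ((a + 2) * (3 * M + 1) + M + 2) + 1) ≤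
      8388608 * X * (33554432 * X ^ 3) := Nat.mul_le_mul (by omega) hT
  have h13 : 8388608 * X * (33554432 * X ^ 3) = 281474976710656 * X ^ 4 := by ring
  have h14 : 1 ≤ X ^ 4 := Nat.one_le_pow _ _ hX
  linarith

/-- TASK H7e. Proof: `Nat.log 2 (kk M) < hm M` from `kk_lt` (`Nat.log_lt_of_lt_pow`; `kk ≠ 0`), so `h ≤ hm`. -/
theorem htau (hM : 1 ≤ M) : 1800 * (h M + 1) ≤ tau M := by
  have h0 : kk M ≠ 0 := by
    unfold kk
    exact (Nat.mul_pos (Nat.succ_pos _) (Nat.succ_pos _)).ne'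
  have h1 : Nat.log 2 (kk M) < hm M := Nat.log_lt_of_lt_pow h0 (kk_lt hM)
  unfold h tau
  omega

/-- TASK H7f. Proof: `Nat.lt_pow_succ_log_self`. -/
theorem kk_lt_h : kk M < 2 ^ h M := by
  unfold h
  exact Nat.lt_pow_succ_log_self (by norm_num) _

end Sn

end Pool.Agent.Lib.MP_711ea9_lc.FH
end
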