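import Pool.Agent.Lib.MP_711ea9_lc.FH.Plane

section

set_option autoImplicit false

namespace Pool.Agent.Lib.MP_711ea9_lc.FH

/-- Points and arcs of the drawing of a layout. Isolated vertices get private rows. -/
noncomputable def pt {V : Type*} (row' col' : V → ℕ) (v : V) : ℝ × ℝ := ((col' v : ℝ), -(row' v : ℝ))

/-- Segments between rows, parabolas over row 0. -/
noncomputable def crv {V : Type*} (row' col' : V → ℕ) (u v : V) (t : ℝ) : ℝ × ℝ :=
  ((1 - t) * (col' u : ℝ) + t * (col' v : ℝ),
    -((1 - t) * (row' u : ℝ) + t * (row' v : ℝ)) +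
      (if row' u = 0 ∧ row' v = 0 then ((col' u : ℝ) - (col' v : ℝ)) ^ 2 * (t * (1 - t)) else 0))

variable {V : Type*} {G : SimpleGraph V} {row col : V → ℕ} {R : ℕ}

/-- TASK P1a. A point in the relative interior of an edge is not a vertex.
Hypotheses: a layout with injective `(row, col)` on all vertices (`hinj`) and the neighbour property for all vertices (`hedge`).
Proof. Let `t ∈ [0,1]` and `crv u v t = pt w`. If `t = 0` or `t = 1` then `w = u` or `w = v` by `hinj` (casts of naturals). Otherwise `0 < t < 1`. Case `row v = row u + 1`: second coordinates: `row u + t = row w` is impossible for an integer (`row u < row w < row u + 1`); the same for `row u = row v + 1`.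
Case `row u = row v = 0`: `(col u - col v)^2 t (1 - t) = - row w ≤ 0`, but `col u ≠ col v` (`hinj`, `G.ne_of_adj`), so the left side is positive. Case `row u = row v ≠ 0`: `row w = row u` and `col w = (1-t) col u + t col v` lies strictly between `col u` and `col v`: against the neighbour property (cast to ℕ). -/
theorem crv_vertex (hinj : ∀ u v, row u = row v → col u = col v → u = v)
    (hedge : ∀ u v, G.Adj u v →
      (row u = row v ∧ (row u = 0 ∨ ∀ w, row w = row u →
        ¬ (min (col u) (col v) < col w ∧ col w < max (col u) (col v)))) ∨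
      row v = row u + 1 ∨ row u = row v + 1)
    {u v w : V} (h : G.Adj u v) {t : ℝ} (ht : t ∈ Set.Icc (0 : ℝ) 1)
    (he : crv row col u v t = pt row col w) : w = u ∨ w = v := by
  obtain ⟨ht0, ht1⟩ := ht
  have h1 : (1 - t) * (col u : ℝ) + t * (col v : ℝ) = (col w : ℝ) := congrArg Prod.fst he
  have h2 : -((1 - t) * (row u : ℝ) + t * (row v : ℝ)) +
      (if row u = 0 ∧ row v = 0 then ((col u : ℝ) - (col v : ℝ)) ^ 2 * (t * (1 - t)) else 0) =
      -(row w : ℝ) := congrArg Prod.snd he
  rcases eq_or_lt_of_le ht0 with h0 | h0
  · subst h0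
    left
    apply hinj
    · have h3 : (row w : ℝ) = (row u : ℝ) := by
        split_ifs at h2 <;> linarith
      exact_mod_cast h3
    · have h3 : (col w : ℝ) = (col u : ℝ) := by linarith
      exact_mod_cast h3
  rcases eq_or_lt_of_le ht1 with h0' | h0'
  · subst h0'
    right
    apply hinj
    · have h3 : (row w : ℝ) = (row v : ℝ) := by
        split_ifs at h2 <;> linarith
      exact_mod_cast h3
    · have h3 : (col w : ℝ) = (col v : ℝ) := by linarith
      exact_mod_cast h3
  exfalso
  rcases hedge u v h with ⟨hr, hn⟩ | hr | hr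
  · have hc : col u ≠ col v := fun hc => G.ne_of_adj h (hinj u v hr hc)
    by_cases hu : row u = 0
    · have hv : row v = 0 := hr ▸ hu
      rw [if_pos ⟨hu, hv⟩, hu, hv] at h2
      have h3 : (col u : ℝ) - (col v : ℝ) ≠ 0 := by
        intro h4
        apply hc
        have : (col u : ℝ) = (col v : ℝ) := by linarith
        exact_mod_cast this
      have h5 : 0 < ((col u : ℝ) - (col v : ℝ)) ^ 2 * (t * (1 - t)) :=
        mul_pos (by positivity) (mul_pos h0 (by linarith))
      have h6 : (0 : ℝ) ≤ (row w : ℝ) := Nat.cast_nonneg _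
      simp only [Nat.cast_zero] at h2
      linarith
    · rw [if_neg fun hh => hu hh.1, ← hr] at h2
      have h3 : (row w : ℝ) = (row u : ℝ) := by linarith
      have h3' : row w = row u := by exact_mod_cast h3
      refine (hn.resolve_left hu) w h3' ?_
      rcases lt_or_gt_of_ne hc with hlt | hlt
      · have hlt' : (col u : ℝ) < (col v : ℝ) := by exact_mod_cast hlt
        rw [min_eq_left hlt.le, max_eq_right hlt.le]
        have h4 : (col u : ℝ) < (col w : ℝ) := by nlinarith
        have h5 : (col w : ℝ) < (col v : ℝ) := by nlinarith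
        exact ⟨by exact_mod_cast h4, by exact_mod_cast h5⟩
      · have hlt' : (col v : ℝ) < (col u : ℝ) := by exact_mod_cast hlt
        rw [min_eq_right hlt.le, max_eq_left hlt.le]
        have h4 : (col v : ℝ) < (col w : ℝ) := by nlinarith
        have h5 : (col w : ℝ) < (col u : ℝ) := by nlinarith
        exact ⟨by exact_mod_cast h4, by exact_mod_cast h5⟩
  · rw [if_neg (by omega), hr] at h2
    push_cast at h2
    have h3 : (row u : ℝ) < (row w : ℝ) := by nlinarith
    have h4 : (row w : ℝ) < ((row u + 1 : ℕ) : ℝ) := by push_cast; nlinarith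
    have h3' : row u < row w := by exact_mod_cast h3
    have h4' : row w < row u + 1 := by exact_mod_cast h4
    omega
  · rw [if_neg (by omega), hr] at h2
    push_cast at h2
    have h3 : (row v : ℝ) < (row w : ℝ) := by nlinarith
    have h4 : (row w : ℝ) < ((row v + 1 : ℕ) : ℝ) := by push_cast; nlinarith
    have h3' : row v < row w := by exact_mod_cast h3
    have h4' : row w < row v + 1 := by exact_mod_cast h4
    omega

/-- TASK P1b. The curves are simple arcs.
Proof. Continuity: `by unfold crv; fun_prop` (the `if` does not depend on `t`; `split_ifs`). Injectivity: if `row u = row v` then `col u ≠ col v` (`hinj`) and the first coordinate is injective in `t`; if the rows differ by one, then the second coordinate is `-(row u ± t)` (the `if` is false). Ends: `simp [crv, pt]`. Reversal: `ring_nf`-type identity (`row u = 0 ∧ row v = 0` is symmetric). -/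
theorem crv_arc (hinj : ∀ u v, row u = row v → col u = col v → u = v)
    (hedge : ∀ u v, G.Adj u v → row u = row v ∨ row v = row u + 1 ∨ row u = row v + 1)
    {u v : V} (h : G.Adj u v) :
    ContinuousOn (crv row col u v) (Set.Icc 0 1) ∧
      Set.InjOn (crv row col u v) (Set.Icc 0 1) ∧ crv row col u v 0 = pt row col u ∧
      crv row col u v 1 = pt row col v ∧
      ∀ t ∈ Set.Icc (0 : ℝ) 1, crv row col v u t = crv row col u v (1 - t) := by
  refine ⟨?_, ?_, ?_, ?_, ?_⟩
  · apply Continuous.continuousOn
    unfold crv
    split_ifs <;> fun_prop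
  · intro s _ t _ hst
    have h1 : (1 - s) * (col u : ℝ) + s * (col v : ℝ) =
        (1 - t) * (col u : ℝ) + t * (col v : ℝ) := congrArg Prod.fst hst
    have h2 : -((1 - s) * (row u : ℝ) + s * (row v : ℝ)) +
        (if row u = 0 ∧ row v = 0 then ((col u : ℝ) - (col v : ℝ)) ^ 2 * (s * (1 - s)) else 0) =
        -((1 - t) * (row u : ℝ) + t * (row v : ℝ)) +
        (if row u = 0 ∧ row v = 0 then ((col u : ℝ) - (col v : ℝ)) ^ 2 * (t * (1 - t)) else 0) :=
      congrArg Prod.snd hst
    rcases hedge u v h with hr | hr | hr
    · have hc : col u ≠ col v := fun hc => G.ne_of_adj h (hinj u v hr hc)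
      have h3 : (col v : ℝ) - (col u : ℝ) ≠ 0 := by
        intro h4
        apply hc
        have : (col u : ℝ) = (col v : ℝ) := by linarith
        exact_mod_cast this
      have h4 : (s - t) * ((col v : ℝ) - (col u : ℝ)) = 0 := by linarith
      rcases mul_eq_zero.1 h4 with h5 | h5
      · linarith
      · exact absurd h5 h3
    · rw [if_neg (by omega), if_neg (by omega), hr] at h2
      push_cast at h2
      linarith
    · rw [if_neg (by omega), if_neg (by omega), hr] at h2
      push_cast at h2
      linarith
  · simp [crv, pt]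
  · simp [crv, pt]
  · intro t _
    have hsymm : (row v = 0 ∧ row u = 0) ↔ (row u = 0 ∧ row v = 0) := And.comm
    apply Prod.ext
    · simp only [crv]
      ring
    · simp only [crv, hsymm]
      split_ifs <;> ring

end Pool.Agent.Lib.MP_711ea9_lc.FH
end

section

set_option autoImplicit false

namespace Pool.Agent.Lib.MP_711ea9_lc.FH

variable {V : Type*} {G : SimpleGraph V} {row col : V → ℕ} {R : ℕ}

/-- TASK P2a. Two nested parabolas. Proof. The difference of the two sides is linear in `x`: `(x - a)(b - x) - (x - a')(b' - x) = (a + b - a' - b') x - a b + a' b'`; at `x = a'` it is `(a' - a)(b - a') ≥ 0`, at `x = b'` it is `(b' - a)(b - b') ≥ 0`; `x` is strictly between, so both must vanish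
(convex combination: `(b' - a') * difference(x) = (b' - x) * difference(a') + (x - a') * difference(b')`), hence `a = a'` and `b = b'` (`b - a' > 0`, `b' - a > 0`). -/
theorem parabola {a b a' b' x : ℝ} (h1 : a ≤ a') (h2 : a' < b') (h3 : b' ≤ b) (hx : a' < x)
    (hx' : x < b') (h : (x - a) * (b - x) = (x - a') * (b' - x)) : a = a' ∧ b = b' := by
  have e : (a' - a) * (b - x) + (x - a') * (b - b') = 0 := by linarith [h]
  have p1 : 0 ≤ (a' - a) * (b - x) := mul_nonneg (by linarith) (by linarith)
  have p2 : 0 ≤ (x - a') * (b - b') := mul_nonneg (by linarith) (by linarith)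
  have z1 : (a' - a) * (b - x) = 0 := by linarith
  have z2 : (x - a') * (b - b') = 0 := by linarith
  constructor
  · rcases mul_eq_zero.mp z1 with h' | h'
    · linarith
    · linarith
  · rcases mul_eq_zero.mp z2 with h' | h'
    · linarith
    · linarith

private theorem P2_crv_symm (u v : V) (t : ℝ) :
    crv row col u v t = crv row col v u (1 - t) := by
  unfold crv
  refine Prod.ext ?_ ?_
  · simp only; ring
  · simp only
    by_cases h : row u = 0 ∧ row v = 0
    · rw [if_pos h, if_pos ⟨h.2, h.1⟩]; ring
    · rw [if_neg h, if_neg (fun h' => h ⟨h'.2, h'.1⟩)]; ring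

/-- oriented edges -/
private def P2_Ori (row col : V → ℕ) (u v : V) : Prop :=
  row v = row u + 1 ∨ (row u = row v ∧ col u < col v)

private theorem P2_nat_frac {m n : ℕ} {t t' : ℝ} (h0 : 0 < t) (h1 : t < 1) (h0' : 0 < t')
    (h1' : t' < 1) (h : (m : ℝ) + t = n + t') : m = n := by
  rcases lt_trichotomy m n with hlt | heq | hlt
  · have : (m : ℝ) + 1 ≤ n := by exact_mod_cast hlt
    linarith
  · exact heq
  · have : (n : ℝ) + 1 ≤ m := by exact_mod_cast hlt
    linarith

private theorem P2_nat_not {m n : ℕ} {t : ℝ} (h0 : 0 < t) (h1 : t < 1)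
    (h : (m : ℝ) = n + t) : False := by
  rcases lt_or_ge n m with hlt | hge
  · have : (n : ℝ) + 1 ≤ m := by exact_mod_cast hlt
    linarith
  · have : (m : ℝ) ≤ n := by exact_mod_cast hge
    linarith

/-- The three types of oriented edges: the two coordinates. -/
private theorem P2_coord {u v : V} (ho : P2_Ori row col u v) {t : ℝ} (h0 : 0 < t) (h1 : t < 1) :
    ((crv row col u v t).1 = (1 - t) * (col u : ℝ) + t * (col v : ℝ)) ∧
    ((row u = 0 ∧ row v = 0 ∧ col u < col v ∧ 0 < (crv row col u v t).2 ∧
        (crv row col u v t).2 = ((crv row col u v t).1 - col u) * (col v - (crv row col u v t).1)) ∨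
      (row u ≠ 0 ∧ row u = row v ∧ col u < col v ∧ (crv row col u v t).2 = -(row u : ℝ)) ∨
      (row v = row u + 1 ∧ (crv row col u v t).2 = -((row u : ℝ) + t))) := by
  refine ⟨rfl, ?_⟩
  rcases ho with h | ⟨h, hc⟩
  · right; right
    refine ⟨h, ?_⟩
    unfold crv
    simp only
    rw [if_neg (by omega), h]
    push_cast
    ring
  · by_cases hz : row u = 0
    · left
      have hv : row v = 0 := by omega
      have hc' : (col u : ℝ) < col v := by exact_mod_cast hc
      have e : (crv row col u v t).2 = ((col u : ℝ) - col v) ^ 2 * (t * (1 - t)) := by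
        unfold crv
        simp only
        rw [if_pos ⟨hz, hv⟩, hz, hv]
        push_cast
        ring
      refine ⟨hz, hv, hc, ?_, ?_⟩
      · rw [e]
        have : (0 : ℝ) < ((col u : ℝ) - col v) ^ 2 := by
          have : ((col u : ℝ) - col v) ≠ 0 := by linarith
          positivity
        have h2 : 0 < t * (1 - t) := mul_pos h0 (by linarith)
        exact mul_pos this h2
      · rw [e]
        show _ = ((1 - t) * (col u : ℝ) + t * (col v : ℝ) - col u) *
          (col v - ((1 - t) * (col u : ℝ) + t * (col v : ℝ)))
        ring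
    · right; left
      refine ⟨hz, h, hc, ?_⟩
      unfold crv
      simp only
      rw [if_neg (by omega), ← h]
      ring

private theorem P2_core (hinj : ∀ u v, row u = row v → col u = col v → u = v)
    (hedge : ∀ u v, G.Adj u v →
      (row u = row v ∧ (row u = 0 ∨ ∀ w, row w = row u →
        ¬ (min (col u) (col v) < col w ∧ col w < max (col u) (col v)))) ∨
      row v = row u + 1 ∨ row u = row v + 1)
    (hver : ∀ u v u' v', G.Adj u v → G.Adj u' v' → row v = row u + 1 → row v' = row u' + 1 →
      row u = row u' → col u < col u' → col v ≤ col v')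
    (hlam : ∀ u v u' v', G.Adj u v → G.Adj u' v' → row u = 0 → row v = 0 → row u' = 0 →
      row v' = 0 → ¬ (col u < col u' ∧ col u' < col v ∧ col v < col v'))
    {u v u' v' : V} (h : G.Adj u v) (h' : G.Adj u' v') (ho : P2_Ori row col u v)
    (ho' : P2_Ori row col u' v') {t t' : ℝ} (h0 : 0 < t) (h1 : t < 1) (h0' : 0 < t')
    (h1' : t' < 1) (he : crv row col u v t = crv row col u' v' t') : u = u' ∧ v = v' := by
  obtain ⟨ex, hy⟩ := P2_coord ho h0 h1
  obtain ⟨ex', hy'⟩ := P2_coord ho' h0' h1'
  rw [← he] at ex' hy'
  set x := (crv row col u v t).1 with hx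
  set y := (crv row col u v t).2 with hyd
  have cN : ∀ a : ℕ, (0 : ℝ) ≤ a := fun a => Nat.cast_nonneg a
  rcases hy with ⟨r1, r2, c1, p1, q1⟩ | ⟨r1, r2, c1, q1⟩ | ⟨r1, q1⟩
  · rcases hy' with ⟨s1, s2, d1, p2, q2⟩ | ⟨s1, s2, d1, q2⟩ | ⟨s1, q2⟩
    · have c1' : (col u : ℝ) < col v := by exact_mod_cast c1
      have d1' : (col u' : ℝ) < col v' := by exact_mod_cast d1
      have l1 : (col u : ℝ) < x := by rw [ex]; nlinarith
      have l2 : x < col v := by rw [ex]; nlinarith
      have l3 : (col u' : ℝ) < x := by rw [ex']; nlinarith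
      have l4 : x < col v' := by rw [ex']; nlinarith
      have m1 : col u' < col v := by exact_mod_cast l3.trans l2
      have m2 : col u < col v' := by exact_mod_cast l1.trans l4
      have n1 := hlam u v u' v' h h' r1 r2 s1 s2
      have n2 := hlam u' v' u v h' h s1 s2 r1 r2
      have nest : (col u ≤ col u' ∧ col v' ≤ col v) ∨ (col u' ≤ col u ∧ col v ≤ col v') := by
        by_contra hc
        push Not at hc
        rcases lt_trichotomy (col u) (col u') with g | g | g
        · exact n1 ⟨g, m1, hc.1 g.le⟩
        · have a1 := hc.1 g.le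
          have a2 := hc.2 g.ge
          omega
        · exact n2 ⟨g, m2, hc.2 g.le⟩
      have key : (x - col u) * (col v - x) = (x - col u') * (col v' - x) := by
        rw [← q1, ← q2]
      rcases nest with ⟨g1, g2⟩ | ⟨g1, g2⟩
      · obtain ⟨e1, e2⟩ := parabola (a := col u) (b := col v) (a' := col u') (b' := col v')
          (x := x) (by exact_mod_cast g1) d1' (by exact_mod_cast g2) l3 l4 key
        exact ⟨hinj _ _ (by omega) (by exact_mod_cast e1), hinj _ _ (by omega) (by exact_mod_cast e2)⟩
      · obtain ⟨e1, e2⟩ := parabola (a := col u') (b := col v') (a' := col u) (b' := col v)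
          (x := x) (by exact_mod_cast g1) c1' (by exact_mod_cast g2) l1 l2 key.symm
        exact ⟨hinj _ _ (by omega) (by exact_mod_cast e1.symm),
          hinj _ _ (by omega) (by exact_mod_cast e2.symm)⟩
    · exfalso; have := cN (row u'); linarith
    · exfalso; have := cN (row u'); linarith
  · rcases hy' with ⟨s1, s2, d1, p2, q2⟩ | ⟨s1, s2, d1, q2⟩ | ⟨s1, q2⟩
    · exfalso; have := cN (row u); linarith
    · have hr : row u = row u' := by
        have : (row u : ℝ) = row u' := by linarith
        exact_mod_cast this
      have c1' : (col u : ℝ) < col v := by exact_mod_cast c1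
      have d1' : (col u' : ℝ) < col v' := by exact_mod_cast d1
      have l1 : (col u : ℝ) < x := by rw [ex]; nlinarith
      have l2 : x < col v := by rw [ex]; nlinarith
      have l3 : (col u' : ℝ) < x := by rw [ex']; nlinarith
      have l4 : x < col v' := by rw [ex']; nlinarith
      have m1 : col u' < col v := by exact_mod_cast l3.trans l2
      have m2 : col u < col v' := by exact_mod_cast l1.trans l4
      have f1 : ∀ w, row w = row u → ¬ (col u < col w ∧ col w < col v) := by
        rcases hedge u v h with ⟨_, g | g⟩ | g | g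
        · exact absurd g r1
        · intro w hw hcw
          refine g w hw ?_
          rw [min_eq_left c1.le, max_eq_right c1.le]
          exact hcw
        · omega
        · omega
      have f2 : ∀ w, row w = row u' → ¬ (col u' < col w ∧ col w < col v') := by
        rcases hedge u' v' h' with ⟨_, g | g⟩ | g | g
        · exact absurd g s1
        · intro w hw hcw
          refine g w hw ?_
          rw [min_eq_left d1.le, max_eq_right d1.le]
          exact hcw
        · omega
        · omega
      have a1 := f1 u' hr.symm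
      have a2 := f1 v' (by omega)
      have a3 := f2 u hr
      have a4 := f2 v (by omega)
      have e1 : col u = col u' := by omega
      have e2 : col v = col v' := by omega
      exact ⟨hinj _ _ hr e1, hinj _ _ (by omega) e2⟩
    · exact (P2_nat_not h0' h1' (m := row u) (n := row u') (by linarith)).elim
  · rcases hy' with ⟨s1, s2, d1, p2, q2⟩ | ⟨s1, s2, d1, q2⟩ | ⟨s1, q2⟩
    · exfalso; have := cN (row u); linarith
    · exact (P2_nat_not h0 h1 (m := row u') (n := row u) (by linarith)).elim
    · have hr : row u = row u' := P2_nat_frac h0 h1 h0' h1' (by linarith)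
      have ht : t = t' := by
        have : (row u : ℝ) = row u' := by exact_mod_cast hr
        linarith
      subst ht
      have e0 : (1 - t) * ((col u : ℝ) - col u') + t * ((col v : ℝ) - col v') = 0 := by
        have := ex.symm.trans ex'
        linarith
      have hcu : col u = col u' := by
        rcases lt_trichotomy (col u) (col u') with g | g | g
        · exfalso
          have g2 : (col v : ℝ) ≤ col v' := by exact_mod_cast hver u v u' v' h h' r1 s1 hr g
          have g1 : (col u : ℝ) < col u' := by exact_mod_cast g
          nlinarith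
        · exact g
        · exfalso
          have g2 : (col v' : ℝ) ≤ col v := by exact_mod_cast hver u' v' u v h' h s1 r1 hr.symm g
          have g1 : (col u' : ℝ) < col u := by exact_mod_cast g
          nlinarith
      have hcv : col v = col v' := by
        have g1 : (col u : ℝ) = col u' := by exact_mod_cast hcu
        rw [g1, sub_self, mul_zero, zero_add] at e0
        rcases mul_eq_zero.mp e0 with g | g
        · linarith
        · have : (col v : ℝ) = col v' := by linarith
          exact_mod_cast this
      exact ⟨hinj _ _ hr hcu, hinj _ _ (by omega) hcv⟩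

private theorem P2_ori (hinj : ∀ u v, row u = row v → col u = col v → u = v)
    (hedge : ∀ u v, G.Adj u v →
      (row u = row v ∧ (row u = 0 ∨ ∀ w, row w = row u →
        ¬ (min (col u) (col v) < col w ∧ col w < max (col u) (col v)))) ∨
      row v = row u + 1 ∨ row u = row v + 1)
    {u v : V} (h : G.Adj u v) : P2_Ori row col u v ∨ P2_Ori row col v u := by
  rcases hedge u v h with ⟨g, _⟩ | g | g
  · rcases lt_trichotomy (col u) (col v) with c | c | c
    · exact Or.inl (Or.inr ⟨g, c⟩)
    · exact absurd (hinj _ _ g c) h.ne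
    · exact Or.inr (Or.inr ⟨g.symm, c⟩)
  · exact Or.inl (Or.inl g)
  · exact Or.inr (Or.inl g)

/-- TASK P2b. The curves of two different edges meet only in vertices.
Proof. If `t` or `t'` is 0 or 1, the point is `pt u`, `pt v`, `pt u'` or `pt v'` (`crv_arc`). Otherwise `0 < t, t' < 1`. By symmetry (`crv v u t = crv u v (1 - t)`, `Sym2.eq_swap`) we may assume `row u ≤ row v` and, in the case of equality, `col u < col v`; the same for `u' v'`. Types: I: `row u = row v = 0`: second
coordinate `> 0`. II: `row u = row v = r ≥ 1`: second coordinate `-r`. III: `row v = row u + 1`: second coordinate `-(row u + t)`, not an integer, negative. Different types: no common point (II and III: `r = row u' + t'` impossible). III, III: `row u + t = row u' + t'` gives `row u = row u'`, `t = t'`; first coordinates: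
`(1-t)(col u - col u') + t (col v - col v') = 0`; if `col u < col u'`, then `col v ≤ col v'` (`hver`): sum negative; `col u > col u'` similar; `col u = col u'`: `u = u'`, `col v = col v'`, `v = v'`: same edge. II, II: `r = r'`; open intervals `(col u, col v)` and `(col u', col v')` have a common point; no vertex of row `r` lies
strictly inside either (`hedge`), so `col u = col u'`, `col v = col v'`. I, I: `x` in both open intervals; by `hlam` (used twice) neither `col u < col u' < col v < col v'` nor the reverse, so one interval contains the other; the second coordinate is `(x - col u)(col v - x)` (`x - col u = t (col v - col u)`); `parabola`. -/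
theorem crv_cross (hinj : ∀ u v, row u = row v → col u = col v → u = v)
    (hedge : ∀ u v, G.Adj u v →
      (row u = row v ∧ (row u = 0 ∨ ∀ w, row w = row u →
        ¬ (min (col u) (col v) < col w ∧ col w < max (col u) (col v)))) ∨
      row v = row u + 1 ∨ row u = row v + 1)
    (hver : ∀ u v u' v', G.Adj u v → G.Adj u' v' → row v = row u + 1 → row v' = row u' + 1 →
      row u = row u' → col u < col u' → col v ≤ col v')
    (hlam : ∀ u v u' v', G.Adj u v → G.Adj u' v' → row u = 0 → row v = 0 → row u' = 0 →
      row v' = 0 → ¬ (col u < col u' ∧ col u' < col v ∧ col v < col v'))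
    {u v u' v' : V} (h : G.Adj u v) (h' : G.Adj u' v') (hne : s(u, v) ≠ s(u', v')) {t t' : ℝ}
    (ht : t ∈ Set.Icc (0 : ℝ) 1) (ht' : t' ∈ Set.Icc (0 : ℝ) 1)
    (he : crv row col u v t = crv row col u' v' t') : ∃ w, crv row col u v t = pt row col w := by
  have hedge2 : ∀ u v, G.Adj u v → row u = row v ∨ row v = row u + 1 ∨ row u = row v + 1 := by
    intro a b hab
    rcases hedge a b hab with ⟨g, _⟩ | g | g
    · exact Or.inl g
    · exact Or.inr (Or.inl g)
    · exact Or.inr (Or.inr g)
  obtain ⟨-, -, z0, z1, -⟩ := crv_arc hinj hedge2 h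
  obtain ⟨-, -, z0', z1', -⟩ := crv_arc hinj hedge2 h'
  rcases eq_or_lt_of_le ht.1 with g | h0
  · exact ⟨u, by rw [← g]; exact z0⟩
  rcases eq_or_lt_of_le ht.2 with g | h1
  · exact ⟨v, by rw [g]; exact z1⟩
  rcases eq_or_lt_of_le ht'.1 with g | h0'
  · exact ⟨u', by rw [he, ← g]; exact z0'⟩
  rcases eq_or_lt_of_le ht'.2 with g | h1'
  · exact ⟨v', by rw [he, g]; exact z1'⟩
  exfalso
  rcases P2_ori hinj hedge h with o | o
  · rcases P2_ori hinj hedge h' with o' | o'
    · obtain ⟨e1, e2⟩ := P2_core hinj hedge hver hlam h h' o o' h0 h1 h0' h1' he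
      exact hne (by rw [e1, e2])
    · obtain ⟨e1, e2⟩ := P2_core hinj hedge hver hlam h h'.symm o o' h0 h1
        (show 0 < 1 - t' by linarith) (show 1 - t' < 1 by linarith)
        (he.trans (P2_crv_symm u' v' t'))
      exact hne (by rw [e1, e2, Sym2.eq_swap])
  · rcases P2_ori hinj hedge h' with o' | o'
    · obtain ⟨e1, e2⟩ := P2_core hinj hedge hver hlam h.symm h' o o'
        (show 0 < 1 - t by linarith) (show 1 - t < 1 by linarith) h0' h1'
        ((P2_crv_symm u v t).symm.trans he)
      exact hne (by rw [e1, e2, Sym2.eq_swap])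
    · obtain ⟨e1, e2⟩ := P2_core hinj hedge hver hlam h.symm h'.symm o o'
        (show 0 < 1 - t by linarith) (show 1 - t < 1 by linarith)
        (show 0 < 1 - t' by linarith) (show 1 - t' < 1 by linarith)
        ((P2_crv_symm u v t).symm.trans (he.trans (P2_crv_symm u' v' t')))
      exact hne (by rw [e1, e2])

/-- TASK P2c. A layout gives a plane drawing.
Proof. Put `row' v = row v` if `Liv G v`, and `R + idx v` otherwise; the same `col`. Then `(row', col)` is injective (`hL.inj`, `hL.bound`, `hidx`). For adjacent vertices `row' = row`. If `w` has `row' w = row u < R` then `w` is `Liv`, so the neighbour property holds for all vertices. Use `crv_arc`, `crv_vertex`, `crv_cross` for `row'`, `col`. -/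
theorem planar_of_layout (hL : Layout G row col R) (idx : V → ℕ)
    (hidx : Function.Injective idx) : Planar G := by
  classical
  set row' : V → ℕ := fun v => if Liv G v then row v else R + idx v with hrow'
  have rl : ∀ v, Liv G v → row' v = row v := fun v hv => if_pos hv
  have rn : ∀ v, ¬ Liv G v → row' v = R + idx v := fun v hv => if_neg hv
  have hinj : ∀ u v, row' u = row' v → col u = col v → u = v := by
    intro u v h1 h2
    by_cases hu : Liv G u
    · by_cases hv : Liv G v
      · rw [rl u hu, rl v hv] at h1
        exact hL.inj u v hu hv h1 h2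
      · rw [rl u hu, rn v hv] at h1
        have := hL.bound u hu
        omega
    · by_cases hv : Liv G v
      · rw [rn u hu, rl v hv] at h1
        have := hL.bound v hv
        omega
      · rw [rn u hu, rn v hv] at h1
        exact hidx (by omega)
  have hedge : ∀ u v, G.Adj u v →
      (row' u = row' v ∧ (row' u = 0 ∨ ∀ w, row' w = row' u →
        ¬ (min (col u) (col v) < col w ∧ col w < max (col u) (col v)))) ∨
      row' v = row' u + 1 ∨ row' u = row' v + 1 := by
    intro u v h
    have hu : Liv G u := ⟨v, h⟩
    have hv : Liv G v := ⟨u, h.symm⟩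
    rw [rl u hu, rl v hv]
    rcases hL.edge u v h with ⟨g, g' | g'⟩ | g | g
    · exact Or.inl ⟨g, Or.inl g'⟩
    · refine Or.inl ⟨g, Or.inr fun w hw => ?_⟩
      by_cases hwl : Liv G w
      · rw [rl w hwl] at hw
        exact g' w hwl hw
      · rw [rn w hwl] at hw
        have := hL.bound u hu
        omega
    · exact Or.inr (Or.inl g)
    · exact Or.inr (Or.inr g)
  have hedge2 : ∀ u v, G.Adj u v → row' u = row' v ∨ row' v = row' u + 1 ∨ row' u = row' v + 1 := by
    intro a b hab
    rcases hedge a b hab with ⟨g, _⟩ | g | g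
    · exact Or.inl g
    · exact Or.inr (Or.inl g)
    · exact Or.inr (Or.inr g)
  have hver : ∀ u v u' v', G.Adj u v → G.Adj u' v' → row' v = row' u + 1 →
      row' v' = row' u' + 1 → row' u = row' u' → col u < col u' → col v ≤ col v' := by
    intro u v u' v' h h' h1 h2 h3 h4
    rw [rl u ⟨v, h⟩, rl v ⟨u, h.symm⟩] at h1
    rw [rl u' ⟨v', h'⟩, rl v' ⟨u', h'.symm⟩] at h2
    rw [rl u ⟨v, h⟩, rl u' ⟨v', h'⟩] at h3
    exact hL.ver u v u' v' h h' h1 h2 h3 h4
  have hlam : ∀ u v u' v', G.Adj u v → G.Adj u' v' → row' u = 0 → row' v = 0 → row' u' = 0 →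
      row' v' = 0 → ¬ (col u < col u' ∧ col u' < col v ∧ col v < col v') := by
    intro u v u' v' h h' h1 h2 h3 h4
    rw [rl u ⟨v, h⟩] at h1
    rw [rl v ⟨u, h.symm⟩] at h2
    rw [rl u' ⟨v', h'⟩] at h3
    rw [rl v' ⟨u', h'.symm⟩] at h4
    exact hL.lam u v u' v' h h' h1 h2 h3 h4
  refine ⟨pt row' col, crv row' col, ?_, ?_, ?_, ?_⟩
  · intro u v h
    unfold pt at h
    rw [Prod.mk.injEq] at h
    refine hinj u v ?_ (by exact_mod_cast h.1)
    have := neg_injective h.2
    exact_mod_cast this
  · intro u v h
    exact crv_arc hinj hedge2 h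
  · intro u v w h t ht he
    exact crv_vertex hinj hedge h ht he
  · intro u v u' v' h h' hne t ht t' ht' he
    exact crv_cross hinj hedge hver hlam h h' hne ht ht' he

/-- TASK P2d. Layouts can be pulled back. Proof: all conditions are universal; `Liv (G.comap f) v → Liv G (f v)` (`SimpleGraph.comap_adj`). -/
theorem Layout.comap {W : Type*} (hL : Layout G row col R) (f : W → V)
    (hf : Function.Injective f) : Layout (G.comap f) (fun v => row (f v)) (fun v => col (f v)) R := by
  have hl : ∀ v, Liv (G.comap f) v → Liv G (f v) := fun v ⟨a, ha⟩ => ⟨f a, ha⟩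
  refine ⟨?_, ?_, ?_, ?_, ?_⟩
  · intro u v hu hv h1 h2
    exact hf (hL.inj _ _ (hl u hu) (hl v hv) h1 h2)
  · intro u hu
    exact hL.bound _ (hl u hu)
  · intro u v h
    rcases hL.edge (f u) (f v) h with ⟨g, g' | g'⟩ | g | g
    · exact Or.inl ⟨g, Or.inl g'⟩
    · exact Or.inl ⟨g, Or.inr fun w hw hr => g' (f w) (hl w hw) hr⟩
    · exact Or.inr (Or.inl g)
    · exact Or.inr (Or.inr g)
  · intro u v u' v' h h' h1 h2 h3 h4
    exact hL.ver _ _ _ _ h h' h1 h2 h3 h4
  · intro u v u' v' h h' h1 h2 h3 h4
    exact hL.lam _ _ _ _ h h' h1 h2 h3 h4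

end Pool.Agent.Lib.MP_711ea9_lc.FH
end
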