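import Pool.Agent.Lib.MP_711ea9_lc.Mg.G004
import Pool.Agent.Lib.MP_711ea9_lc.FH.E3
import Pool.Agent.Lib.MP_711ea9_lc.FH.E4
import Pool.Agent.Lib.MP_711ea9_lc.FH.G2
import Pool.Agent.Lib.MP_711ea9_lc.Mg.G005
import Pool.Agent.Lib.MP_711ea9_lc.FH.L1
import Pool.Agent.Lib.MP_711ea9_lc.Mg.G008

section

set_option autoImplicit false

namespace Pool.Agent.Lib.MP_711ea9_lc.FH

open Finset

variable {N : Net} {k : ℕ} {S : Set Vtx} {i : ℕ}

/-- TASK F2a. Proof: `good`: `rho w < i` gives `rho w + 14 ≤ i`, then `hI.d`, `hI.e`. -/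
theorem tame_of_inv (hR : N.Run S k) (hg : N.good i) (hI : N.Inv S i) : N.Tame S i := by
  refine ⟨hR.src, hI.c, ?_, ?_⟩
  · intro w hw hlt
    rcases hg w hw with h | h
    · omega
    · exact hI.d w hw h
  · intro w hw hlt
    rcases hg w hw with h | h
    · omega
    · exact hI.e w hw h

/-- TASK F2b. No door burns in the next 14 rounds. Proof: `no_leak` with `i0 = i`: `hp` by `path_burn` (`hI.b`, `i ≤ N.T`), `p1 = hI.a`, `p3` by `due_path`, `due_door`, `due_reg` with `tame_of_inv` (`M = i`). -/
theorem inv_no_leak (hV : N.Valid k) (hR : N.Run S k) (h6 : 6 ≤ i) (hg : N.good i) (hI : N.Inv S i)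
    (hT : i + 14 + N.k0 * N.tau ≤ N.T) (σ t : ℕ) : Vtx.door σ t ∉ N.F S (i + 14) := by
  have ht := tame_of_inv hR hg hI
  refine no_leak hV hR (Or.inr h6) ?_ hI.a ?_ hT σ t
  · intro σ s hσ h1 hs
    exact path_burn hI.b (by omega) hσ h1 hs
  · intro v hv
    refine ⟨?_, ?_, ?_⟩
    · rintro σ j rfl -
      exact due_path hV ht le_rfl hv
    · rintro σ t rfl
      exact due_door hV ht le_rfl hv
    · intro σ
      exact due_reg hV ht le_rfl hv

/-- TASK F2c. At good times exactly `i` vertices are due. `hI.a` and `hR.th i`. -/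
theorem inv_card (hR : N.Run S k) (hI : N.Inv S i) : (N.H S i).encard = i :=
  le_antisymm (hR.th i) hI.a

/-- TASK F2d. Finitely many new due vertices. Proof: `H i ∪ W` is contained in `H i'`; `H i` has encard `i` (`inv_card`), the union is disjoint
(`Set.encard_union_eq`), so `i + W.card ≤ (H i').encard ≤ i'` (`hR.th`); pass to `ℕ` with `Nat.cast_le` (`exact_mod_cast`). -/
theorem new_due (hR : N.Run S k) (hI : N.Inv S i) {i' : ℕ} (hii : i ≤ i') (W : Finset Vtx)
    (hW : ∀ v ∈ W, v ∈ N.H S i' ∧ v ∉ N.H S i) : i + W.card ≤ i' := by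
  have h1 : N.H S i ∪ (W : Set Vtx) ⊆ N.H S i' := by
    rintro v (hv | hv)
    · exact Net.H_mono hii hv
    · exact (hW v (Finset.mem_coe.1 hv)).1
  have h2 : Disjoint (N.H S i) (W : Set Vtx) := by
    rw [Set.disjoint_left]
    intro v hv hv'
    exact (hW v (Finset.mem_coe.1 hv')).2 hv
  have h3 := Set.encard_union_eq h2
  have h4 := Set.encard_le_encard h1
  rw [h3, inv_card hR hI, Set.encard_coe_eq_coe_finsetCard] at h4
  have h5 := h4.trans (hR.th i')
  exact_mod_cast h5

end Pool.Agent.Lib.MP_711ea9_lc.FH
end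

section

set_option autoImplicit false

namespace Pool.Agent.Lib.MP_711ea9_lc.FH

open Finset

variable {N : Net} {k : ℕ} {S : Set Vtx} {i : ℕ}

/-- TASK F4a. In a good step from `i` to `i+1` nothing new is due except one door.
Proof. `i + 1` is no slot: a slot is `rho w + u` with `w = (i+1)/Lam < nw`, `1 ≤ u ≤ e w ≤ 7` (`(i+1) % Lam = 16 + u`), inside the window, against `good (i+1)`. So `isDoor σ (i+1)` with `σ = own (i+1) < 16 + K` (second alternative; `7 ≤ i+1 ≤ T`).
`path σ i ∈ F i` (`path_burn`, `hI.b`, `i ≥ 6`), the door is next to it, and it does not burn (`inv_no_leak`, `Net.F_mono`), so it is in `H (i+1)` (`Net.burn_or_due`); it is not in `H i` by `due_door` (`tame_of_inv`). If `v ∈ H (i+1)`, `v ∉ H i`, `v` not this door,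
then `new_due` with `W = {v, door}` gives `i + 2 ≤ i + 1`. -/
theorem step_due (hV : N.Valid k) (hR : N.Run S k) (h6 : 6 ≤ i) (hg : N.good i)
    (hg' : N.good (i + 1)) (hI : N.Inv S i) (hT : i + 14 + N.k0 * N.tau ≤ N.T) :
    (i + 1 : ℕ∞) ≤ (N.H S (i + 1)).encard ∧
    ∀ v ∈ N.H S (i + 1), (∀ σ t, v ≠ Vtx.door σ t) → v ∈ N.H S i := by
  have hKp : 0 < N.K := by have := hV.hK; omega
  have hns : ¬ N.slot (i + 1) := by
    rintro ⟨h1, h2, h3⟩
    have he := hV.e_le ((i + 1) / N.Lam)
    have hdm := Nat.div_add_mod (i + 1) N.Lam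
    have hrho : N.rho ((i + 1) / N.Lam) = N.Lam * ((i + 1) / N.Lam) + 16 := rfl
    rcases hg' _ h1 with h | h <;> omega
  have hiT : i ≤ N.T := by omega
  have hσ := Net.own_lt (N := N) (i + 1) hKp
  have hdoor : N.isDoor (N.own (i + 1)) (i + 1) := Or.inr ⟨by omega, by omega, hns, rfl⟩
  have hpb := path_burn hI.b hiT hσ (by omega : 1 ≤ i) le_rfl
  have hadj : N.G.Adj (Vtx.path (N.own (i + 1)) i) (Vtx.door (N.own (i + 1)) (i + 1)) := by
    refine Net.adj_of_E ?_
    show _ ∧ _
    exact ⟨rfl, rfl, hdoor⟩
  have hin : Vtx.door (N.own (i + 1)) (i + 1) ∈ N.H S (i + 1) := by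
    rcases Net.burn_or_due hpb hadj with ⟨_, h⟩ | ⟨_, h⟩
    · exact absurd (Net.F_mono (by omega) h) (inv_no_leak hV hR h6 hg hI hT _ _)
    · exact h
  have hout : Vtx.door (N.own (i + 1)) (i + 1) ∉ N.H S i := by
    intro h
    have := due_door hV (tame_of_inv hR hg hI) le_rfl h
    omega
  constructor
  · have h1 : insert (Vtx.door (N.own (i + 1)) (i + 1)) (N.H S i) ⊆ N.H S (i + 1) :=
      Set.insert_subset hin (Net.H_mono (Nat.le_succ i))
    calc ((i : ℕ∞) + 1) ≤ (N.H S i).encard + 1 := by gcongr; exact hI.a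
      _ = (insert (Vtx.door (N.own (i + 1)) (i + 1)) (N.H S i)).encard :=
          (Set.encard_insert_of_notMem hout).symm
      _ ≤ _ := Set.encard_le_encard h1
  · intro v hv hnd
    by_contra hvi
    have hne : v ≠ Vtx.door (N.own (i + 1)) (i + 1) := hnd _ _
    have := new_due hR hI (Nat.le_succ i) {v, Vtx.door (N.own (i + 1)) (i + 1)} (by
      intro u hu
      rw [Finset.mem_insert, Finset.mem_singleton] at hu
      rcases hu with rfl | rfl
      · exact ⟨hv, hvi⟩
      · exact ⟨hin, hout⟩)
    rw [Finset.card_pair hne] at this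
    omega

/-- TASK F4b. The good step.
Proof. `a`, and (*) from F4a: every `v ∈ S` next to a vertex of `F i`, not a door, is in `H i`. `c`: `inv_no_leak`. `b` for `t = i + 1`: `path σ i ∈ F i` (`path_burn`), so if `path σ (i+1) ∈ S` it is in `H (i+1)`, so in `H i`, against `due_path`.
`b'` for `rt + j = i + 3`: `j = 0`: `path b (rt - 3) = path b i ∈ F i`; `j = 1`: `stem b w 0 ∈ F (rt - 2) = F i` (`stem_burn`); so if the stem is in `S`, it is in `H i`, against `due_stem`. `d, e, f, h`: `rho w + 14 ≤ i + 1` and `good i` give `rho w + 14 ≤ i` (otherwise `i ≤ rho w`).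
`g` for `rho w = i + 1` (`rt b w = rho w` as a reader is no writer, `hV.excl`): if `root b w ∈ S`: it is next to `stem b w 1 ∈ F (rt - 1) = F i`, so it is in `H i`, and `due_root` gives `root b (fr ..) ∉ S` (`rt = i + 1 > i`). If `root b w ∉ S` and `root b (fr ..) ∉ S`:
`hV.source`: the window `w' = fr w (b/2)` is a writer and `w` its target `l1` or `l2`, `w' < w` by `hV.link1`/`link2`, so `rho w' + Lam ≤ rho w = i + 1`, `rho w' + 14 ≤ i`, and `hI.e w'` puts `root b w` in `S`, contradiction. For `rho w ≤ i` use `hI.g`. -/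
theorem good_step (hV : N.Valid k) (hR : N.Run S k) (h6 : 6 ≤ i) (hg : N.good i)
    (hg' : N.good (i + 1)) (hI : N.Inv S i) (hT : i + 14 + N.k0 * N.tau ≤ N.T) :
    N.Inv S (i + 1) := by
  obtain ⟨ha, hstar⟩ := step_due hV hR h6 hg hg' hI hT
  have hiT : i ≤ N.T := by omega
  have htame := tame_of_inv hR hg hI
  have hold : ∀ w, w < N.nw → N.rho w + 14 ≤ i + 1 → N.rho w + 14 ≤ i := by
    intro w hw h
    rcases hg w hw with h' | h' <;> omega
  refine ⟨by exact_mod_cast ha, ?_, ?_, ?_, ?_, ?_, ?_, ?_, ?_⟩
  · -- b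
    intro σ t hσ h1 ht hS
    rcases Nat.lt_or_ge i t with hlt | hle
    · have hte : t = i + 1 := by omega
      subst hte
      have hb := path_burn hI.b hiT hσ (by omega : 1 ≤ i) le_rfl
      have hadj : N.G.Adj (Vtx.path σ i) (Vtx.path σ (i + 1)) := by
        refine Net.adj_of_E ?_
        show _ ∧ _
        exact ⟨rfl, by omega, by omega, rfl, by omega⟩
      have h2 := hstar _ (Net.dues hb hadj hS) (by intro a b; simp)
      have := due_path hV htame le_rfl h2
      omega
    · exact hI.b σ t hσ h1 hle hS
  · -- b'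
    intro b w j hp hj hrt hS
    rcases Nat.lt_or_ge (i + 2) (N.rt b w + j) with hlt | hle
    · have hb16 : b < 16 := hp.1
      have hdue : Vtx.stem b w j ∈ N.H S (i + 1) := by
        rcases Nat.lt_or_ge 0 j with hj0 | hj0
        · have hj1 : j = 1 := by omega
          subst hj1
          have hsb := stem_burn hI.b hiT hI.b' hp (by norm_num : 0 < 2) (by omega)
          have he : N.rt b w + 0 - 2 = i := by omega
          rw [he] at hsb
          have hadj : N.G.Adj (Vtx.stem b w 0) (Vtx.stem b w 1) := by
            refine Net.adj_of_E ?_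
            show _ ∧ _
            exact ⟨rfl, rfl, hp, rfl, rfl⟩
          exact Net.dues hsb hadj hS
        · have hj1 : j = 0 := by omega
          subst hj1
          have hb := path_burn hI.b hiT (by omega : b < 16 + N.K) (by omega : 1 ≤ i) le_rfl
          have hadj : N.G.Adj (Vtx.path b i) (Vtx.stem b w 0) := by
            refine Net.adj_of_E ?_
            show _ ∧ _
            exact ⟨rfl, hp, rfl, by omega⟩
          exact Net.dues hb hadj hS
      have h2 := hstar _ hdue (by intro a b; simp)
      have := due_stem hV htame le_rfl h2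
      omega
    · exact hI.b' b w j hp hj hle hS
  · -- c
    intro σ t h
    exact inv_no_leak hV hR h6 hg hI hT σ t (Net.F_mono (by omega) h)
  · intro w hw h; exact hI.d w hw (hold w hw h)
  · intro w hw h; exact hI.e w hw (hold w hw h)
  · intro w p hw h; exact hI.f w p hw (hold w hw h)
  · -- g
    intro w b hw hrw hb16 hrd
    rcases Nat.lt_or_ge i (N.rho w) with hlt | hle
    · have hwr : N.wr w (b / 2) = false := hV.excl w (b / 2) hw (by omega) hrd
      have hrt : N.rt b w = N.rho w := by
        unfold Net.rt; rw [hwr]; simp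
      have hp : N.port b w := ⟨hb16, hw, Or.inl hrd⟩
      constructor
      · intro hS
        have hsb := stem_burn hI.b hiT hI.b' hp (by norm_num : 1 < 2) (by omega)
        have he : N.rt b w + 1 - 2 = i := by omega
        rw [he] at hsb
        have hadj : N.G.Adj (Vtx.stem b w 1) (Vtx.root b w) := by
          refine Net.adj_of_E ?_
          show _ ∧ _
          exact ⟨rfl, rfl, hp, rfl⟩
        have h2 := hstar _ (Net.dues hsb hadj hS) (by intro a b; simp)
        rcases due_root hV htame le_rfl h2 with h3 | ⟨_, h3, _⟩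
        · omega
        · exact h3
      · intro hS
        obtain ⟨h1, h2, h3⟩ := hV.source w (b / 2) hw (by omega) hrd
        have hp' : N.port b (N.fr w (b / 2)) := ⟨hb16, h1, Or.inr h2⟩
        have hLam := hV.hLam'
        have hlt' : N.fr w (b / 2) < w := by
          have l1 := hV.link1 _ (b / 2) h1 (by omega) h2
          rcases h3 with h3 | ⟨h3, h4⟩
          · rw [h3] at l1; exact l1.1
          · have l2 := hV.link2 _ (b / 2) h1 (by omega) h2 h3
            rw [h4] at l2
            exact l1.1.trans l2.1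
        have hrl := Net.rho_lt (N := N) hlt'
        have hWE := hI.e _ h1 (by omega) b hp' h2 hS
        rcases h3 with h3 | ⟨h3, h4⟩
        · rw [h3] at hWE; exact hWE.1
        · have := hWE.2 h3
          rwa [h4] at this
    · exact hI.g w b hw hle hb16 hrd
  · intro w hw h; exact hI.h w hw (hold w hw h)

end Pool.Agent.Lib.MP_711ea9_lc.FH
end

section

set_option autoImplicit false

namespace Pool.Agent.Lib.MP_711ea9_lc.FH

open Finset

variable {N : Net} {k : ℕ} {st : ℕ → ℕ → Prop}

open scoped Classical in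
/-- TASK G3a. The slots up to time `i`.
Proof. The finset of slots in `Ioc 6 i` contains, for every `w < nw`, the image of `Icc 1 (min (i - rho w) (e w))` under `u ↦ rho w + u` (`(rho w + u) / Lam = w`, `% = 16 + u`, since `u ≤ 7`, `400 ≤ Lam`); for different `w` these are disjoint (quotient by `Lam`), and `u ↦ rho w + u` is injective.
So `∑ w` of the cards is at most the card (`Finset.card_biUnion`, `Finset.card_le_card`). -/
theorem slots_ge (hV : N.Valid k) (i : ℕ) :
    ∑ w ∈ range N.nw, min (i - N.rho w) (N.e w) ≤ ((Ioc 6 i).filter (fun t => N.slot t)).card := by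
  have hL := hV.hLam'
  have key : ∀ w u, u ≤ 7 → (N.rho w + u) / N.Lam = w ∧ (N.rho w + u) % N.Lam = 16 + u := by
    intro w u hu
    have h1 : N.rho w + u = N.Lam * w + (16 + u) := by
      unfold Net.rho
      omega
    have h2 : 16 + u < N.Lam := by omega
    rw [h1]
    constructor
    · rw [Nat.mul_add_div (by omega), Nat.div_eq_of_lt h2, Nat.add_zero]
    · rw [Nat.mul_add_mod, Nat.mod_eq_of_lt h2]
  have hc : ∀ w, ((Icc 1 (min (i - N.rho w) (N.e w))).image (fun u => N.rho w + u)).card =
      min (i - N.rho w) (N.e w) := by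
    intro w
    rw [card_image_of_injective _ (fun a b h => by simpa using h), Nat.card_Icc]
    omega
  have hd : Set.PairwiseDisjoint (↑(range N.nw) : Set ℕ)
      (fun w => (Icc 1 (min (i - N.rho w) (N.e w))).image (fun u => N.rho w + u)) := by
    intro w _ w' _ hne
    rw [Function.onFun, disjoint_left]
    intro t h1 h2
    obtain ⟨u, hu, rfl⟩ := mem_image.1 h1
    obtain ⟨u', hu', h3⟩ := mem_image.1 h2
    rw [mem_Icc] at hu hu'
    have e1 := hV.e_le w
    have e2 := hV.e_le w'
    have k1 := (key w u (by omega)).1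
    have k2 := (key w' u' (by omega)).1
    rw [h3] at k2
    exact hne (k1.symm.trans k2)
  calc ∑ w ∈ range N.nw, min (i - N.rho w) (N.e w)
      = ∑ w ∈ range N.nw,
          ((Icc 1 (min (i - N.rho w) (N.e w))).image (fun u => N.rho w + u)).card :=
        sum_congr rfl fun w _ => (hc w).symm
    _ = ((range N.nw).biUnion
          (fun w => (Icc 1 (min (i - N.rho w) (N.e w))).image (fun u => N.rho w + u))).card :=
        (card_biUnion fun w hw w' hw' hne => hd (by simpa using hw) (by simpa using hw') hne).symm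
    _ ≤ _ := by
        apply card_le_card
        intro t ht
        obtain ⟨w, hw, h1⟩ := mem_biUnion.1 ht
        obtain ⟨u, hu, rfl⟩ := mem_image.1 h1
        rw [mem_Icc] at hu
        have e1 := hV.e_le w
        obtain ⟨k1, k2⟩ := key w u (by omega)
        rw [mem_range] at hw
        have h16 : 16 ≤ N.rho w := by
          unfold Net.rho
          omega
        rw [mem_filter, mem_Ioc]
        refine ⟨by omega, ?_⟩
        unfold Net.slot
        rw [k1, k2]
        omega

open scoped Classical in
/-- TASK G3b. The units of a window which are due after `τ` rounds.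
Proof. For `τ ≤ 7`: `hs.ok`. For `τ > 7`: every active unit has `due ≤ e w ≤ 7` (cases of `act`: `hV.len_rd`, `hV.len_wr`; for `j = 2, 3, 4`: `due = 1, 2, 3`, and `e w ≥ 4` for a writer by `hV.e_eq`), so the filter for `τ` is the one for 7, at most `min 7 (e w) = e w`. -/
theorem cnt_le (hV : N.Valid k) (hs : N.IsSol st) {w : ℕ} (hw : w < N.nw) (τ : ℕ) :
    N.cnt st w τ ≤ min τ (N.e w) := by
  have he := hV.e_le w
  rcases Nat.lt_or_ge 7 τ with h | h
  · have h1 : N.cnt st w τ ≤ N.cnt st w 7 := by
      unfold Net.cnt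
      apply card_le_card
      intro x hx
      rw [mem_filter] at hx ⊢
      obtain ⟨h1, h2, -⟩ := hx
      refine ⟨h1, h2, ?_⟩
      obtain ⟨⟨hb, hw', hrw⟩, h3⟩ := h2
      unfold Net.due
      have h4 := mem_product.1 h1
      have h5 := mem_range.1 h4.2
      split_ifs with h6 h7
      · have := hV.len_wr _ _ _ hb hw h7 h6
        omega
      · rcases hrw with h8 | h8
        · have := hV.len_rd _ _ _ hb hw h8 h6
          omega
        · exact absurd h8 h7
      · omega
    have h2 := hs.ok w hw 7 le_rfl
    omega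
  · exact hs.ok w hw τ h

open scoped Classical in
/-- TASK G3c. At most `i` vertices are due by time `i`.
Proof. By `scan_due` `H i` is contained in the finset `A ∪ B ∪ C`: `A` = image of `Ico (16+K) (22+K)` under `σ ↦ door σ 6` if `6 ≤ i` (empty otherwise), `B` = image of the non-slots of `Ioc 6 i` under `t ↦ door (own t) t`, `C = (range nw).biUnion (fun w => image (uv w) (filter (act and due ≤ i - rho w, 16 + .. ≤ i)))`.
`card A ≤ 6`, `card B ≤ card (non-slots)`, `card C ≤ ∑ w, cnt st w (i - rho w) ≤ ∑ w, min (i - rho w) (e w) ≤ card (slots)` (`cnt_le`, `slots_ge`). (A unit with `rho w + due ≤ i` satisfies `due ≤ i - rho w`.) For `i ≥ 6`: total `≤ 6 + (Ioc 6 i).card = i`. For `i < 6`: no doors (`t ≥ 6`), no units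
(`rho w ≥ 16`), so `H i` is empty. -/
theorem scan_th (hV : N.Valid k) (hs : N.IsSol st) (i : ℕ) :
    (N.H (N.Scan st) i).encard ≤ i := by
  have hsub : N.H (N.Scan st) i ⊆
      ↑((if 6 ≤ i then (Ico (16 + N.K) (22 + N.K)).image (fun σ => Vtx.door σ 6) else ∅) ∪
        (((Ioc 6 i).filter (fun t => ¬ N.slot t)).image (fun t => Vtx.door (N.own t) t) ∪
        (range N.nw).biUnion (fun w => ((range 16 ×ˢ range 5).filter
          (fun x => N.act st w x.1 x.2 ∧ N.due w x.1 x.2 ≤ i - N.rho w)).image (N.uv w)))) := by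
    intro v hv
    rw [mem_coe, mem_union, mem_union]
    rcases scan_due hV hs hv with ⟨σ, t, rfl, h1 | h1, h2⟩ | ⟨w, x, hw, hx, h1, h2, rfl⟩
    · obtain ⟨rfl, h3, h4⟩ := h1
      left
      rw [if_pos h2, mem_image]
      exact ⟨σ, mem_Ico.2 ⟨h3, h4⟩, rfl⟩
    · obtain ⟨h3, h4, h5, rfl⟩ := h1
      right; left
      rw [mem_image]
      exact ⟨t, mem_filter.2 ⟨mem_Ioc.2 ⟨by omega, h2⟩, h5⟩, rfl⟩
    · right; right
      rw [mem_biUnion]
      refine ⟨w, mem_range.2 hw, mem_image.2 ⟨x, mem_filter.2 ⟨hx, h1, by omega⟩, rfl⟩⟩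
  have hC : ((range N.nw).biUnion (fun w => ((range 16 ×ˢ range 5).filter
      (fun x => N.act st w x.1 x.2 ∧ N.due w x.1 x.2 ≤ i - N.rho w)).image (N.uv w))).card ≤
      ((Ioc 6 i).filter (fun t => N.slot t)).card := by
    refine card_biUnion_le.trans ((sum_le_sum fun w hw => ?_).trans (slots_ge hV i))
    exact card_image_le.trans (cnt_le hV hs (mem_range.1 hw) _)
  have hB : (((Ioc 6 i).filter (fun t => ¬ N.slot t)).image
      (fun t => Vtx.door (N.own t) t)).card ≤ ((Ioc 6 i).filter (fun t => ¬ N.slot t)).card :=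
    card_image_le
  have hA : (if 6 ≤ i then (Ico (16 + N.K) (22 + N.K)).image (fun σ => Vtx.door σ 6)
      else ∅).card ≤ if 6 ≤ i then 6 else 0 := by
    split_ifs
    · refine card_image_le.trans ?_
      rw [Nat.card_Ico]
      omega
    · simp
  have hBC : ((Ioc 6 i).filter (fun t => N.slot t)).card +
      ((Ioc 6 i).filter (fun t => ¬ N.slot t)).card = i - 6 := by
    rw [card_filter_add_card_filter_not, Nat.card_Ioc]
  refine (Set.encard_le_encard hsub).trans ?_
  rw [Set.encard_coe_eq_coe_finsetCard]
  have h1 := card_union_le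
    (if 6 ≤ i then (Ico (16 + N.K) (22 + N.K)).image (fun σ => Vtx.door σ 6) else ∅)
    (((Ioc 6 i).filter (fun t => ¬ N.slot t)).image (fun t => Vtx.door (N.own t) t) ∪
        (range N.nw).biUnion (fun w => ((range 16 ×ˢ range 5).filter
          (fun x => N.act st w x.1 x.2 ∧ N.due w x.1 x.2 ≤ i - N.rho w)).image (N.uv w)))
  have h2 := card_union_le
    (((Ioc 6 i).filter (fun t => ¬ N.slot t)).image (fun t => Vtx.door (N.own t) t))
    ((range N.nw).biUnion (fun w => ((range 16 ×ˢ range 5).filter
          (fun x => N.act st w x.1 x.2 ∧ N.due w x.1 x.2 ≤ i - N.rho w)).image (N.uv w)))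
  refine Nat.cast_le.2 (h1.trans ?_)
  split_ifs at hA with h6
  · rw [if_pos h6] at *
    omega
  · rw [if_neg h6] at *
    omega

end Pool.Agent.Lib.MP_711ea9_lc.FH
end

section

set_option autoImplicit false

namespace Pool.Agent.Lib.MP_711ea9_lc.FH

/-- The net of a 3CNF is valid. -/
theorem sat_valid (A : ℕ → ℕ) {M : ℕ} (hM : 1 ≤ M) : (satNet A M).Valid (Sn.kk M) where
  len_ge _ _ _ _ _ := Sn.len_ge
  len_rd _ _ _ _ _ h hc := Sn.len_rd h hc
  len_wr _ _ _ _ _ h hc := Sn.len_wr h hc
  excl _ _ _ _ h := Sn.excl h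
  one _ _ _ _ _ _ h h' := Sn.one h h'
  e_eq _ _ := Sn.e_eq
  e_le _ := Sn.e_le
  link1 _ _ _ _ h := Sn.link1 h
  link2 _ _ _ _ h h0 := Sn.link2 h h0
  source _ _ hw _ h := Sn.source hM hw h
  hnw := le_trans hM (Nat.le_add_left _ _)
  htau := Sn.htau hM
  hk0 := Sn.hk0
  hK := le_refl _
  hLam := Nat.le_add_right _ _
  hLam' := Nat.le_add_left _ _
  hT := by
    show Sn.Lam M * Sn.nw M + 16 + 14 + Sn.k0 M * Sn.tau M ≤ Sn.Lam M * (Sn.nw M + 2)
    have h1 : Sn.Lam M = 14 + Sn.k0 M * Sn.tau M + 400 := rfl
    rw [Nat.mul_add]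
    omega
  hh := by
    have h1 : Sn.T M + 1 ≤ Sn.kk M := Nat.le_mul_of_pos_left _ (by omega)
    have h2 : Sn.kk M < 2 ^ Sn.h M := Sn.kk_lt_h
    show Sn.T M < 2 ^ Sn.h M
    omega
  hk := Sn.kk_lt_h
  hk' := le_refl _

end Pool.Agent.Lib.MP_711ea9_lc.FH
end

section

set_option autoImplicit false

namespace Pool.Agent.Lib.MP_711ea9_lc.FH

variable {N : Net} {k : ℕ}

private theorem L2_rho (hV : N.Valid k) {w w' : ℕ} :
    w = w' ∨ N.rho w + 400 ≤ N.rho w' ∨ N.rho w' + 400 ≤ N.rho w := by
  have h4 := hV.hLam'
  rcases lt_trichotomy w w' with h | h | h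
  · have := Net.rho_lt (N := N) h
    omega
  · exact Or.inl h
  · have := Net.rho_lt (N := N) h
    omega

private theorem L2_rho16 (w : ℕ) : 16 ≤ N.rho w := by
  unfold Net.rho
  omega

private theorem L2_strand (hV : N.Valid k) {u v : Vtx} (hu : N.Ex u) (hv : N.Ex v)
    (hu0 : u ≠ Vtx.src 0) (hv0 : v ≠ Vtx.src 0) (hc : N.col u = N.col v) :
    Net.strand u = Net.strand v := by
  rcases lt_trichotomy (Net.strand u) (Net.strand v) with h | h | h
  · have := col_lt_of_strand hV hu hv hv0 h
    omega
  · exact h
  · have := col_lt_of_strand hV hv hu hu0 h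
    omega

/-- TASK L2. Row and column determine an existing vertex.
Proof. If `u = src 0`: `col v = 0`, so `v = src 0` (`col_strand`), and conversely. Otherwise the strands are equal (`col_lt_of_strand` both ways). Now `cases u <;> cases v`, with `simp [Net.row] at hr` and `simp [Net.col, Net.bs] at hc`, the common strand `b` substituted. Use: for `w < w'`: `rho w + 400 ≤ rho w'` (`Net.rho_lt`, `hV.hLam'`), and `rho w ≥ 16`.
Row 0: path 1 (column `+32`), root (`bs + 1`), nod (`bs`), `bs ≥ .. + 32 * 8`. Row 1: path 2 (`+64`), stem 1 (`bs`), chain (`bs + 1 + 15 c + j`, `2 ≤ 1 + 15 c + j ≤ 23`). Row 2: path 3 (`+96`), stem 0, chain. Row 3: path (`t ≥ 4`). Row 4: doors. Row `5 + 300 l + r`, `r < 300`: reg (`l`, `r` are determined).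
For two window vertices of windows `w ≠ w'` the columns differ by at least `32 * 400 - 23`; for the same window compare the small numbers (`15 c + j = 15 c' + j'` with `1 ≤ j, j' ≤ 7` gives `c = c'`, `j = j'`). -/
theorem lay_inj (hV : N.Valid k) {u v : Vtx} (hu : N.Ex u) (hv : N.Ex v)
    (hr : N.row u = N.row v) (hc : N.col u = N.col v) : u = v := by
  by_cases hu0 : u = Vtx.src 0
  · by_cases hv0 : v = Vtx.src 0
    · rw [hu0, hv0]
    · have h1 := (col_strand hV hv hv0).1
      rw [← hc, hu0] at h1
      simp [Net.col] at h1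
  by_cases hv0 : v = Vtx.src 0
  · have h1 := (col_strand hV hu hu0).1
    rw [hc, hv0] at h1
    simp [Net.col] at h1
  have hs := L2_strand hV hu hv hu0 hv0 hc
  have h16 := L2_rho16 (N := N)
  have hrho : ∀ w w' : ℕ, w = w' ∨ N.rho w + 400 ≤ N.rho w' ∨ N.rho w' + 400 ≤ N.rho w :=
    fun w w' => L2_rho hV
  cases u with
  | src q =>
    exact absurd (by rw [show q = 0 from hu]) hu0
  | path σ t =>
    obtain ⟨hu1, hu2, hu3⟩ := hu
    cases v with
    | src q => exact absurd (by rw [show q = 0 from hv]) hv0
    | path σ' t' =>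
      obtain ⟨hv1, hv2, hv3⟩ := hv
      simp only [Net.strand] at hs
      subst hs
      simp only [Net.col] at hc
      have : t = t' := by omega
      rw [this]
    | door σ' t' =>
      simp only [Net.row] at hr
      omega
    | reg σ' l r x =>
      simp only [Net.row] at hr
      omega
    | stem b w j =>
      obtain ⟨hv1, hv2⟩ := hv
      simp only [Net.strand] at hs
      subst hs
      have := h16 w
      simp only [Net.col, Net.bs] at hc
      simp only [Net.row] at hr
      split_ifs at hr <;> omega
    | root b w =>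
      simp only [Net.strand] at hs
      subst hs
      have := h16 w
      simp only [Net.col, Net.bs] at hc
      simp only [Net.row] at hr
      omega
    | nod b w =>
      simp only [Net.strand] at hs
      subst hs
      have := h16 w
      simp only [Net.col, Net.bs] at hc
      simp only [Net.row] at hr
      omega
    | chain b w c j =>
      obtain ⟨hv1, hv2, hv3, hv4, hv5⟩ := hv
      simp only [Net.strand] at hs
      subst hs
      have := h16 w
      simp only [Net.col, Net.bs] at hc
      simp only [Net.row] at hr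
      split_ifs at hr <;> omega
  | door σ t =>
    obtain ⟨hu1, hu2, hu3⟩ := hu
    cases v with
    | src q => exact absurd (by rw [show q = 0 from hv]) hv0
    | path σ' t' =>
      simp only [Net.row] at hr
      omega
    | door σ' t' =>
      simp only [Net.strand] at hs
      subst hs
      simp only [Net.col] at hc
      have : t = t' := by omega
      rw [this]
    | reg σ' l r x =>
      simp only [Net.row] at hr
      omega
    | stem b w j =>
      simp only [Net.row] at hr
      split_ifs at hr <;> omega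
    | root b w =>
      simp only [Net.row] at hr
      omega
    | nod b w =>
      simp only [Net.row] at hr
      omega
    | chain b w c j =>
      simp only [Net.row] at hr
      split_ifs at hr <;> omega
  | reg σ l r x =>
    obtain ⟨hu1, hu2, hu3, hu4⟩ := hu
    cases v with
    | src q => exact absurd (by rw [show q = 0 from hv]) hv0
    | path σ' t' =>
      simp only [Net.row] at hr
      omega
    | door σ' t' =>
      simp only [Net.row] at hr
      omega
    | reg σ' l' r' x' =>
      obtain ⟨hv1, hv2, hv3, hv4⟩ := hv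
      simp only [Net.strand] at hs
      subst hs
      simp only [Net.col] at hc
      simp only [Net.row] at hr
      have e1 : x = x' := by omega
      have e2 : l = l' := by omega
      have e3 : r = r' := by omega
      rw [e1, e2, e3]
    | stem b w j =>
      simp only [Net.row] at hr
      split_ifs at hr <;> omega
    | root b w =>
      simp only [Net.row] at hr
      omega
    | nod b w =>
      simp only [Net.row] at hr
      omega
    | chain b w c j =>
      simp only [Net.row] at hr
      split_ifs at hr <;> omega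
  | stem b w j =>
    obtain ⟨hu1, hu2⟩ := hu
    have hw := h16 w
    cases v with
    | src q => exact absurd (by rw [show q = 0 from hv]) hv0
    | path σ' t' =>
      simp only [Net.strand] at hs
      subst hs
      simp only [Net.col, Net.bs] at hc
      simp only [Net.row] at hr
      split_ifs at hr <;> omega
    | door σ' t' =>
      simp only [Net.row] at hr
      split_ifs at hr <;> omega
    | reg σ' l' r' x' =>
      simp only [Net.row] at hr
      split_ifs at hr <;> omega
    | stem b' w' j' =>
      obtain ⟨hv1, hv2⟩ := hv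
      have hw' := h16 w'
      simp only [Net.strand] at hs
      subst hs
      simp only [Net.col, Net.bs] at hc
      have e1 : w = w' := by
        have := hrho w w'
        omega
      subst e1
      have e2 : j = j' := by
        simp only [Net.row] at hr
        split_ifs at hr <;> omega
      rw [e2]
    | root b' w' =>
      have hw' := h16 w'
      simp only [Net.strand] at hs
      subst hs
      simp only [Net.col, Net.bs] at hc
      omega
    | nod b' w' =>
      simp only [Net.row] at hr
      split_ifs at hr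
    | chain b' w' c j' =>
      obtain ⟨hv1, hv2, hv3, hv4, hv5⟩ := hv
      have hw' := h16 w'
      simp only [Net.strand] at hs
      subst hs
      simp only [Net.col, Net.bs] at hc
      have := hrho w w'
      have h3 : 1 ≤ N.len b w' c := by omega
      have h2 : c = 0 ∨ c = 1 := by omega
      rcases h2 with rfl | rfl
      · rcases this with h | h | h <;> omega
      · rcases this with h | h | h <;> omega
  | root b w =>
    have hw := h16 w
    cases v with
    | src q => exact absurd (by rw [show q = 0 from hv]) hv0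
    | path σ' t' =>
      simp only [Net.strand] at hs
      subst hs
      simp only [Net.col, Net.bs] at hc
      simp only [Net.row] at hr
      omega
    | door σ' t' =>
      simp only [Net.row] at hr
      omega
    | reg σ' l' r' x' =>
      simp only [Net.row] at hr
      omega
    | stem b' w' j' =>
      simp only [Net.row] at hr
      split_ifs at hr
    | root b' w' =>
      have hw' := h16 w'
      simp only [Net.strand] at hs
      subst hs
      simp only [Net.col, Net.bs] at hc
      have e1 : w = w' := by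
        have := hrho w w'
        omega
      rw [e1]
    | nod b' w' =>
      have hw' := h16 w'
      simp only [Net.strand] at hs
      subst hs
      simp only [Net.col, Net.bs] at hc
      omega
    | chain b' w' c j' =>
      simp only [Net.row] at hr
      split_ifs at hr
  | nod b w =>
    have hw := h16 w
    cases v with
    | src q => exact absurd (by rw [show q = 0 from hv]) hv0
    | path σ' t' =>
      simp only [Net.strand] at hs
      subst hs
      simp only [Net.col, Net.bs] at hc
      simp only [Net.row] at hr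
      omega
    | door σ' t' =>
      simp only [Net.row] at hr
      omega
    | reg σ' l' r' x' =>
      simp only [Net.row] at hr
      omega
    | stem b' w' j' =>
      simp only [Net.row] at hr
      split_ifs at hr
    | root b' w' =>
      have hw' := h16 w'
      simp only [Net.strand] at hs
      subst hs
      simp only [Net.col, Net.bs] at hc
      omega
    | nod b' w' =>
      have hw' := h16 w'
      simp only [Net.strand] at hs
      subst hs
      simp only [Net.col, Net.bs] at hc
      have e1 : w = w' := by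
        have := hrho w w'
        omega
      rw [e1]
    | chain b' w' c j' =>
      simp only [Net.row] at hr
      split_ifs at hr
  | chain b w c j =>
    obtain ⟨hu1, hu2, hu3, hu4, hu5⟩ := hu
    have hw := h16 w
    cases v with
    | src q => exact absurd (by rw [show q = 0 from hv]) hv0
    | path σ' t' =>
      simp only [Net.strand] at hs
      subst hs
      simp only [Net.col, Net.bs] at hc
      simp only [Net.row] at hr
      split_ifs at hr <;> omega
    | door σ' t' =>
      simp only [Net.row] at hr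
      split_ifs at hr <;> omega
    | reg σ' l' r' x' =>
      simp only [Net.row] at hr
      split_ifs at hr <;> omega
    | stem b' w' j' =>
      have hw' := h16 w'
      simp only [Net.strand] at hs
      subst hs
      simp only [Net.col, Net.bs] at hc
      have := hrho w w'
      have h3 : 1 ≤ N.len b w c := by omega
      have h2 : c = 0 ∨ c = 1 := by omega
      rcases h2 with rfl | rfl
      · rcases this with h | h | h <;> omega
      · rcases this with h | h | h <;> omega
    | root b' w' =>
      simp only [Net.row] at hr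
      split_ifs at hr
    | nod b' w' =>
      simp only [Net.row] at hr
      split_ifs at hr
    | chain b' w' c' j' =>
      obtain ⟨hv1, hv2, hv3, hv4, hv5⟩ := hv
      have hw' := h16 w'
      simp only [Net.strand] at hs
      subst hs
      simp only [Net.col, Net.bs] at hc
      have e1 : w = w' := by
        have := hrho w w'
        omega
      subst e1
      have e2 : c = c' := by omega
      have e3 : j = j' := by omega
      rw [e2, e3]

end Pool.Agent.Lib.MP_711ea9_lc.FH
end

section

set_option autoImplicit false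

namespace Pool.Agent.Lib.MP_711ea9_lc.FH

variable {N : Net} {k : ℕ}

private theorem L3_row3 {w : Vtx} (h : N.row w = 3) : ∃ σ t, w = Vtx.path σ t ∧ 4 ≤ t := by
  cases w with
  | path σ t =>
    refine ⟨σ, t, rfl, ?_⟩
    simp only [Net.row] at h
    omega
  | src q => simp [Net.row] at h
  | door σ t => simp [Net.row] at h
  | reg σ l r x =>
    simp only [Net.row] at h
    omega
  | stem b w j =>
    simp only [Net.row] at h
    split_ifs at h <;> omega
  | root b w => simp [Net.row] at h
  | nod b w => simp [Net.row] at h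
  | chain b w c j =>
    simp only [Net.row] at h
    split_ifs at h <;> omega

private theorem L3_path (hV : N.Valid k) {σ t : ℕ} (hu : N.Ex (Vtx.path σ t))
    (hv : N.Ex (Vtx.path σ (t + 1))) {w : Vtx} (hw : N.Ex w) (h : N.row w = 3) :
    ¬ (N.col (Vtx.path σ t) < N.col w ∧ N.col w < N.col (Vtx.path σ (t + 1))) := by
  obtain ⟨σ', t', rfl, ht'⟩ := L3_row3 h
  rintro ⟨h1, h2⟩
  rcases lt_trichotomy σ' σ with hs | hs | hs
  · have h3 := col_lt_of_strand hV hw hu (by simp) hs
    omega
  · subst hs
    simp only [Net.col] at h1 h2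
    omega
  · have h3 := col_lt_of_strand hV hv hw (by simp) hs
    omega

private theorem L3_rt (b w : ℕ) : 16 ≤ N.rt b w := by
  have h1 := Net.rho_le_rt (N := N) b w
  have h2 : 16 ≤ N.rho w := by
    unfold Net.rho
    omega
  omega

/-- TASK L3. Every edge joins two vertices of row 0, or neighbours in a row, or vertices in consecutive rows.
Proof. `cases u <;> cases v <;> simp [Net.E] at h`, one edge type after the other (`Net.row`, `Net.col`).
src-path 1, root-root, root-nod, nod-root: both in row 0 (first alternative, `row u = 0`). path `t` - path `t+1`: `t ≤ 3`: rows `t - 1`, `t`; `t ≥ 4`: both in row 3, columns differ by 32; an existing vertex `w'` of row 3 is a path vertex with `t' ≥ 4` (chains, stems are in rows 1, 2); if its strand is another one, its column is not between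
(`col_lt_of_strand`, `ex_of_E`), otherwise `32 t < 32 t' < 32 (t + 1)` is impossible. path-door: `isDoor σ (t+1)` gives `t + 1 ≥ 6`, rows 3, 4. door-reg: rows 4, 5. reg-reg: `x, x+1`: consecutive integers, nothing between (second alternative of the first case: `min`, `max` with `omega`); `r, r+1`: rows `+1`; `(l, 299) - (l+1, 0)`: `5 + 300 l + 299 + 1`.
path-stem 0: `t = rt - 3 ≥ 13`: rows 3, 2. stem 0 - stem 1: rows 2, 1. stem 1 - root: rows 1, 0. root - chain 1: rows 0, 1 (`c = 1`: `1 < len` by `hV.len_ge`). chain `j` - chain `j+1`: `c = 0`: `j = 1`: rows 1, 2; `j ≥ 2`: row 2, consecutive columns. `c = 1`: `j + 1 < len`: row 1, consecutive columns; `j + 1 = len`: rows 1, 2.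
chain `len` - path `t`: `t ≥ rho w + 16`: rows 2, 3 (`len ≥ 2`). -/
theorem lay_edge (hV : N.Valid k) {u v : Vtx} (h : N.E u v) :
    (N.row u = N.row v ∧ (N.row u = 0 ∨ ∀ w, N.Ex w → N.row w = N.row u →
      ¬ (min (N.col u) (N.col v) < N.col w ∧ N.col w < max (N.col u) (N.col v)))) ∨
    N.row v = N.row u + 1 ∨ N.row u = N.row v + 1 := by
  obtain ⟨hu, hv⟩ := ex_of_E hV h
  cases u <;> cases v <;> simp [Net.E] at h
  · -- src-path
    obtain ⟨rfl, rfl, -⟩ := h
    exact Or.inl ⟨by simp [Net.row], Or.inl rfl⟩
  · -- path-path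
    rename_i σ t σ' t'
    obtain ⟨rfl, -, h1, rfl, h2⟩ := h
    by_cases h3 : t ≤ 3
    · right; left
      simp only [Net.row]
      omega
    · left
      have hr : N.row (Vtx.path σ' t) = 3 := by
        simp only [Net.row]
        omega
      have hr' : N.row (Vtx.path σ' (t + 1)) = 3 := by
        simp only [Net.row]
        omega
      refine ⟨by rw [hr, hr'], Or.inr fun w hw hw3 => ?_⟩
      have h4 := L3_path hV hu hv hw (hw3.trans hr)
      have h5 : N.col (Vtx.path σ' t) ≤ N.col (Vtx.path σ' (t + 1)) := by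
        simp only [Net.col]
        omega
      rw [min_eq_left h5, max_eq_right h5]
      exact h4
  · -- path-door
    rename_i σ t σ' t'
    obtain ⟨rfl, rfl, -⟩ := h
    have h1 : 6 ≤ t + 1 := hv.2.1
    right; left
    simp only [Net.row]
    omega
  · -- path-stem
    rename_i σ t b w j
    obtain ⟨rfl, -, rfl, h1⟩ := h
    have h2 := L3_rt (N := N) b w
    right; right
    simp only [Net.row, if_true]
    omega
  · -- door-reg
    rename_i σ t σ' l r x
    obtain ⟨-, -, rfl, rfl, -⟩ := h
    right; left
    simp [Net.row]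
  · -- reg-reg
    rename_i σ l r x σ' l' r' x'
    obtain ⟨rfl, -, -, -, -, -, -, -, h1⟩ := h
    rcases h1 with ⟨rfl, rfl, rfl⟩ | ⟨rfl, rfl, rfl⟩ | ⟨rfl, rfl, rfl, -, -⟩
    · left
      refine ⟨rfl, Or.inr fun w hw hw3 => ?_⟩
      simp only [Net.col]
      omega
    · right; left
      simp only [Net.row]
      omega
    · right; left
      simp only [Net.row]
      omega
  · -- stem-stem
    obtain ⟨rfl, rfl, -, rfl, rfl⟩ := h
    right; right
    simp [Net.row]
  · -- stem-root
    obtain ⟨rfl, rfl, -, rfl⟩ := h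
    right; right
    simp [Net.row]
  · exact Or.inl ⟨rfl, Or.inl rfl⟩
  · exact Or.inl ⟨rfl, Or.inl rfl⟩
  · -- root-chain
    rename_i b w b' w' c j
    obtain ⟨rfl, rfl, hp, hc, rfl⟩ := h
    have h1 := hV.len_ge b' w' c hp (by omega)
    right; left
    by_cases h2 : c = 0
    · simp [Net.row, h2]
    · have h3 : 1 < N.len b' w' c := by omega
      simp [Net.row, h2, h3]
  · exact Or.inl ⟨rfl, Or.inl rfl⟩
  · -- chain-path
    rename_i b w c j σ t
    obtain ⟨rfl, hp, hc, rfl, ht⟩ := h
    have h1 := hV.len_ge σ w c hp (by omega)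
    have h4 : 16 ≤ N.rho w := by
      unfold Net.rho
      omega
    right; left
    by_cases h2 : c = 0
    · have h3 : N.len σ w c ≠ 1 := by omega
      simp only [Net.row, if_pos h2, if_neg h3]
      omega
    · simp only [Net.row, if_neg h2, lt_irrefl, if_false]
      omega
  · -- chain-chain
    rename_i b w c j b' w' c' j'
    obtain ⟨rfl, rfl, rfl, hp, hc, h1, rfl, h2⟩ := h
    by_cases h3 : c' = 0
    · by_cases h4 : j = 1
      · right; left
        simp [Net.row, h3, h4]
      · left
        have h5 : j ≠ 0 := by omega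
        refine ⟨by simp [Net.row, h3, h4, h5], Or.inr fun w hw hw3 => ?_⟩
        simp only [Net.col]
        omega
    · have h4 : j < N.len b' w' c' := by omega
      by_cases h5 : j + 1 < N.len b' w' c'
      · left
        refine ⟨by simp [Net.row, h3, h4, h5], Or.inr fun w hw hw3 => ?_⟩
        simp only [Net.col]
        omega
      · right; left
        simp only [Net.row, if_neg h3, if_pos h4, if_neg h5]

end Pool.Agent.Lib.MP_711ea9_lc.FH
end

section

set_option autoImplicit false

namespace Pool.Agent.Lib.MP_711ea9_lc.FH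

variable {N : Net} {k : ℕ}

private lemma L4_rho_ge (w : ℕ) : 16 ≤ N.rho w := Nat.le_add_left _ _

private lemma L4_len_le (hV : N.Valid k) {b w c : ℕ} (hp : N.port b w) (hc : c < 2) :
    2 ≤ N.len b w c ∧ N.len b w c ≤ 7 := by
  refine ⟨hV.len_ge b w c hp hc, ?_⟩
  obtain ⟨h1, h2, h3⟩ := hp
  have he := hV.e_le w
  rcases h3 with h3 | h3
  · have := hV.len_rd b w c h1 h2 h3 hc
    omega
  · have := hV.len_wr b w c h1 h2 h3 hc
    omega

/-- TASK L4a. The edges from row 0 to row 1. Proof: `Net.adj_iff`, cases on both vertices; the edges with rows 0 and 1 are path 1 - path 2, stem 1 - root, root - chain 1 (column of `v`: `bs` or `bs + 2 + 15 c`). -/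
theorem rows01 (hV : N.Valid k) {u v : Vtx} (h : N.G.Adj u v) (h0 : N.row u = 0)
    (h1 : N.row v = 1) :
    (∃ σ, u = Vtx.path σ 1 ∧ v = Vtx.path σ 2) ∨
    ∃ b w, N.port b w ∧ u = Vtx.root b w ∧ N.bs b w ≤ N.col v ∧ N.col v ≤ N.bs b w + 17 ∧
      Net.strand v = b := by
  have hro := fun w => L4_rho_ge (N := N) w
  have hrt := fun b w => Net.rho_le_rt (N := N) b w
  replace h := Net.adj_iff.1 h
  rcases h with h | h <;> cases u <;> cases v <;>
    simp only [Net.E, Net.row] at h h0 h1 <;> try (exfalso; first | exact h | omega)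
  case inl.path.path =>
    rename_i σ t σ' t'
    obtain ⟨rfl, -, h2, rfl, -⟩ := h
    have : t = 1 := by omega
    subst this
    exact Or.inl ⟨σ', rfl, rfl⟩
  case inl.path.stem =>
    rename_i σ t b w j
    have := hro w
    have := hrt b w
    exfalso; omega
  case inl.stem.stem => exfalso; split_ifs at h0 <;> omega
  case inl.root.chain =>
    rename_i b w b' w' c j
    obtain ⟨rfl, rfl, hp, hc, rfl⟩ := h
    refine Or.inr ⟨b', w', hp, rfl, ?_, ?_, rfl⟩
    · simp only [Net.col]; omega
    · simp only [Net.col]; omega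
  case inl.chain.path =>
    rename_i b w c j σ t
    have := hro w
    exfalso; omega
  case inl.chain.chain => exfalso; split_ifs at h0 <;> omega
  case inr.path.chain =>
    rename_i σ t b w c j
    have := hro w
    exfalso; omega
  case inr.stem.path =>
    rename_i b w j σ t
    have := hro w
    have := hrt b w
    exfalso; omega
  case inr.stem.stem => exfalso; split_ifs at h0 <;> omega
  case inr.root.stem =>
    rename_i b w b' w' j
    obtain ⟨rfl, rfl, hp, rfl⟩ := h
    refine Or.inr ⟨b, w, hp, rfl, ?_, ?_, rfl⟩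
    · simp only [Net.col]; omega
    · simp only [Net.col]; omega
  all_goals first
    | (exfalso; split_ifs at h0 <;> omega)
    | (exfalso; split_ifs at h1 <;> omega)
    | (exfalso; split_ifs at h0 h1 <;> omega)

/-- TASK L4b. The edges from row 1 to row 2: path 2 - path 3, stem 0 - stem 1, chain `c = 0`: `1 - 2`, chain `c = 1`: `len - 1` to `len` (columns `bs + 15 + len` and `bs + 16 + len`; for `c = 0`: `bs + 2`, `bs + 3`). -/
theorem rows12 (hV : N.Valid k) {u v : Vtx} (h : N.G.Adj u v) (h0 : N.row u = 1)
    (h1 : N.row v = 2) :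
    (∃ σ, u = Vtx.path σ 2 ∧ v = Vtx.path σ 3) ∨
    ∃ b w, N.port b w ∧ Net.strand u = b ∧ Net.strand v = b ∧
      ((N.col u = N.bs b w ∧ N.col v = N.bs b w) ∨
       (N.col u = N.bs b w + 2 ∧ N.col v = N.bs b w + 3) ∨
       (N.col u = N.bs b w + 15 + N.len b w 1 ∧ N.col v = N.bs b w + 16 + N.len b w 1 ∧
        2 ≤ N.len b w 1 ∧ N.len b w 1 ≤ 7)) := by
  have hro := fun w => L4_rho_ge (N := N) w
  have hrt := fun b w => Net.rho_le_rt (N := N) b w
  replace h := Net.adj_iff.1 h
  rcases h with h | h <;> cases u <;> cases v <;>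
    simp only [Net.E, Net.row] at h h0 h1 <;> try (exfalso; first | exact h | omega)
  case inl.path.path =>
    rename_i σ t σ' t'
    obtain ⟨rfl, -, h2, rfl, -⟩ := h
    have : t = 2 := by omega
    subst this
    exact Or.inl ⟨σ', rfl, rfl⟩
  case inl.path.stem =>
    rename_i σ t b w j
    have := hro w
    have := hrt b w
    exfalso; omega
  case inl.chain.chain =>
    rename_i b w c j b' w' c' j'
    obtain ⟨rfl, rfl, rfl, hp, hc, hj, rfl, hj'⟩ := h
    have hl := L4_len_le hV hp hc
    refine Or.inr ⟨b', w', hp, rfl, rfl, ?_⟩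
    simp only [Net.col]
    by_cases hc0 : c' = 0
    · subst hc0
      simp only [if_true] at h0 h1
      split_ifs at h0 h1
      right; left
      omega
      all_goals omega
    · have hc1 : c' = 1 := by omega
      subst hc1
      simp only [one_ne_zero, if_false] at h0 h1
      split_ifs at h0 h1
      right; right
      refine ⟨?_, ?_, hl.1, hl.2⟩ <;> omega
      all_goals omega
  case inl.chain.path =>
    rename_i b w c j σ t
    have := hro w
    exfalso; omega
  case inr.path.chain =>
    rename_i σ t b w c j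
    have := hro w
    exfalso; omega
  case inr.stem.stem =>
    rename_i b w j b' w' j'
    obtain ⟨rfl, rfl, hp, rfl, rfl⟩ := h
    exact Or.inr ⟨b, w, hp, rfl, rfl, Or.inl ⟨rfl, rfl⟩⟩
  case inr.chain.chain =>
    rename_i b w c j b' w' c' j'
    obtain ⟨rfl, rfl, rfl, hp, hc, hj, rfl, hj'⟩ := h
    exfalso
    split_ifs at h0 h1 <;> omega
  all_goals first
    | (exfalso; split_ifs at h0 <;> omega)
    | (exfalso; split_ifs at h1 <;> omega)
    | (exfalso; split_ifs at h0 h1 <;> omega)

/-- TASK L4c. The edges from row 2 to row 3: path 3 - path 4, path - stem 0, chain `len` - path (`c = 0`: column `bs + 1 + len`, `c = 1`: `bs + 16 + len`; `2 ≤ len ≤ 7`). -/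
theorem rows23 (hV : N.Valid k) {u v : Vtx} (h : N.G.Adj u v) (h0 : N.row u = 2)
    (h1 : N.row v = 3) :
    (∃ σ, u = Vtx.path σ 3 ∧ v = Vtx.path σ 4) ∨
    ∃ b w t, N.port b w ∧ Net.strand u = b ∧ v = Vtx.path b t ∧
      ((N.col u = N.bs b w ∧ N.rho w ≤ t + 3 ∧ t + 2 ≤ N.rho w) ∨
       (N.col u = N.bs b w + 1 + N.len b w 0 ∧ 2 ≤ N.len b w 0 ∧ N.len b w 0 ≤ 7 ∧
        N.rho w + Net.dl b 0 ≤ t ∧ t ≤ N.rho w + Net.dl b 0 + 1) ∨
       (N.col u = N.bs b w + 16 + N.len b w 1 ∧ 2 ≤ N.len b w 1 ∧ N.len b w 1 ≤ 7 ∧
        N.rho w + Net.dl b 1 ≤ t ∧ t ≤ N.rho w + Net.dl b 1 + 1)) := by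
  have hro := fun w => L4_rho_ge (N := N) w
  have hrt := fun b w => Net.rho_le_rt (N := N) b w
  have hrt' := fun b w => Net.rt_le (N := N) b w
  replace h := Net.adj_iff.1 h
  rcases h with h | h <;> cases u <;> cases v <;>
    simp only [Net.E, Net.row] at h h0 h1 <;> try (exfalso; first | exact h | omega)
  case inl.path.path =>
    rename_i σ t σ' t'
    obtain ⟨rfl, -, h2, rfl, -⟩ := h
    have : t = 3 := by omega
    subst this
    exact Or.inl ⟨σ', rfl, rfl⟩
  case inl.chain.path =>
    rename_i b w c j σ t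
    obtain ⟨rfl, hp, hc, rfl, ht⟩ := h
    have hl := L4_len_le hV hp hc
    refine Or.inr ⟨σ, w, t, hp, rfl, rfl, ?_⟩
    simp only [Net.col]
    by_cases hc0 : c = 0
    · subst hc0
      right; left
      refine ⟨?_, hl.1, hl.2, ?_, ?_⟩ <;> omega
    · have hc1 : c = 1 := by omega
      subst hc1
      right; right
      refine ⟨?_, hl.1, hl.2, ?_, ?_⟩ <;> omega
  case inr.stem.path =>
    rename_i b w j σ t
    obtain ⟨rfl, hp, rfl, ht⟩ := h
    have := hrt b w
    have := hrt' b w
    refine Or.inr ⟨b, w, t, hp, rfl, rfl, Or.inl ⟨rfl, ?_, ?_⟩⟩ <;> omega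
  all_goals first
    | (exfalso; split_ifs at h0 <;> omega)
    | (exfalso; split_ifs at h1 <;> omega)
    | (exfalso; split_ifs at h0 h1 <;> omega)

/-- TASK L4d. The edges from row `r ≥ 3` to row `r + 1`: path - door, door - reg, reg - reg (vertical). -/
theorem rows3 (hV : N.Valid k) {u v : Vtx} (h : N.G.Adj u v) (h0 : 3 ≤ N.row u)
    (h1 : N.row v = N.row u + 1) :
    (∃ σ t, u = Vtx.path σ t ∧ v = Vtx.door σ (t + 1)) ∨
    (∃ σ t x, u = Vtx.door σ t ∧ v = Vtx.reg σ 0 0 x ∧ x / 600 = t ∧ x % 600 < 300) ∨
    (∃ σ l r x, u = Vtx.reg σ l r x ∧ v = Vtx.reg σ l (r + 1) x ∧ r < 299) ∨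
    ∃ σ l x, u = Vtx.reg σ l 299 x ∧ v = Vtx.reg σ (l + 1) 0 (300 * (x / 600) + x % 600) ∧
      x % 600 < 300 := by
  replace h := Net.adj_iff.1 h
  rcases h with h | h <;> cases u <;> cases v <;>
    simp only [Net.E, Net.row] at h h0 h1 <;> try (exfalso; first | exact h | omega)
  case inl.path.door =>
    rename_i σ t σ' t'
    obtain ⟨rfl, rfl, -⟩ := h
    exact Or.inl ⟨σ', t, rfl, rfl⟩
  case inl.door.reg =>
    rename_i σ t σ' l r x
    obtain ⟨rfl, -, rfl, rfl, h2, h3⟩ := h
    exact Or.inr (Or.inl ⟨σ', t, x, rfl, rfl, h2, h3⟩)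
  case inl.reg.reg =>
    rename_i σ l r x σ' l' r' x'
    obtain ⟨rfl, -, -, -, hr, hr', -, -, h2⟩ := h
    rcases h2 with ⟨rfl, rfl, rfl⟩ | ⟨rfl, rfl, rfl⟩ | ⟨rfl, rfl, rfl, h3, rfl⟩
    · exfalso; omega
    · exact Or.inr (Or.inr (Or.inl ⟨σ', l', r, x', rfl, rfl, by omega⟩))
    · exact Or.inr (Or.inr (Or.inr ⟨σ', l, x, rfl, rfl, h3⟩))
  all_goals first
    | (exfalso; split_ifs at h0 <;> omega)
    | (exfalso; split_ifs at h1 <;> omega)
    | (exfalso; split_ifs at h0 h1 <;> omega)

end Pool.Agent.Lib.MP_711ea9_lc.FH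
end

section

set_option autoImplicit false

namespace Pool.Agent.Lib.MP_711ea9_lc.FH

variable {N : Net} {k : ℕ}

private theorem L5_liv {u v : Vtx} (h : N.G.Adj u v) : Liv N.G u := ⟨v, h⟩

private theorem L5_red (hV : N.Valid k) {u v u' v' : Vtx} (h : N.G.Adj u v) (h' : N.G.Adj u' v')
    (hsu : u ≠ Vtx.src 0) (hsv' : v' ≠ Vtx.src 0) (s : Net.strand u = Net.strand v)
    (s' : Net.strand u' = Net.strand v') (hc : N.col u < N.col u')
    (H : Net.strand u = Net.strand u' → N.col v ≤ N.col v') : N.col v ≤ N.col v' := by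
  rcases lt_trichotomy (Net.strand u) (Net.strand u') with h1 | h1 | h1
  · rw [s, s'] at h1
    exact (col_lt_of_strand hV (ex_of_liv hV (L5_liv h.symm)) (ex_of_liv hV (L5_liv h'.symm))
      hsv' h1).le
  · exact H h1
  · have h2 := col_lt_of_strand hV (ex_of_liv hV (L5_liv h')) (ex_of_liv hV (L5_liv h)) hsu h1
    omega

private theorem L5_rho (w : ℕ) : 16 ≤ N.rho w := by
  unfold Net.rho
  omega

private theorem L5_win (hV : N.Valid k) (w w' : ℕ) :
    w = w' ∨ N.rho w + 400 ≤ N.rho w' ∨ N.rho w' + 400 ≤ N.rho w := by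
  have hL := hV.hLam'
  rcases lt_trichotomy w w' with h | h | h
  · have := Net.rho_lt (N := N) h
    omega
  · exact Or.inl h
  · have := Net.rho_lt (N := N) h
    omega

private theorem L5_ne {v : Vtx} (h : 1 ≤ N.row v) : v ≠ Vtx.src 0 := by
  rintro rfl
  simp [Net.row] at h

private theorem L5_port {b w : ℕ} (h : N.port b w) : b < 16 := h.1

/-- TASK L5a. Edges between rows 0 and 1, or 1 and 2, are monotone.
Proof. Let `r = row u = row u' ∈ {0, 1}`. All four vertices exist (`ex_of_liv`). The strands of `u, v` agree, and those of `u', v'`. If `strand u < strand u'` then `col v < col v'` (`col_lt_of_strand`), if `strand u' < strand u` then `col u' < col u`, excluded. Same strand: `rows01` (or `rows12`) for both edges. path and path: same edge, equal columns. path and window: the path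
columns are at most `wid b + 1 + 96`, the window columns at least `wid b + 1 + 256` (`rho w ≥ 16`, unfold `bs`). Two windows `w, w'`: if `w < w'` then `bs b w + 12800 ≤ bs b w'` (`Net.rho_lt`, `hV.hLam'`), so `col v ≤ bs b w + 23 < bs b w' ≤ col v'`; `w' < w` contradicts `col u < col u'`. Same window: row 0: `u = u'`; row 1: compare the three kinds. -/
theorem ver01 (hV : N.Valid k) {u v u' v' : Vtx} (h : N.G.Adj u v) (h' : N.G.Adj u' v')
    (hr : N.row u ≤ 1) (hv : N.row v = N.row u + 1) (hv' : N.row v' = N.row u' + 1)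
    (hu : N.row u = N.row u') (hc : N.col u < N.col u') : N.col v ≤ N.col v' := by
  have hsv' : v' ≠ Vtx.src 0 := L5_ne (N := N) (by omega)
  obtain h0 | h1 : N.row u = 0 ∨ N.row u = 1 := by omega
  · rcases rows01 hV h h0 (by omega) with ⟨σ, rfl, rfl⟩ | ⟨b, w, hp, rfl, a1, a2, a3⟩
    · rcases rows01 hV h' (by omega) (by omega) with ⟨σ', rfl, rfl⟩ | ⟨b', w', hp', rfl, a1', a2', a3'⟩
      · refine L5_red hV h h' (by simp) hsv' rfl rfl hc fun hs => ?_
        simp only [Net.strand] at hs
        subst hs
        exact le_rfl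
      · refine L5_red hV h h' (by simp) hsv' rfl a3'.symm hc fun hs => ?_
        simp only [Net.strand] at hs
        subst hs
        have := L5_rho (N := N) w'
        simp only [Net.col, Net.bs] at *
        omega
    · rcases rows01 hV h' (by omega) (by omega) with ⟨σ', rfl, rfl⟩ | ⟨b', w', hp', rfl, a1', a2', a3'⟩
      · refine L5_red hV h h' (by simp) hsv' a3.symm rfl hc fun hs => ?_
        simp only [Net.strand] at hs
        subst hs
        have := L5_rho (N := N) w
        simp only [Net.col, Net.bs] at *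
        omega
      · refine L5_red hV h h' (by simp) hsv' a3.symm a3'.symm hc fun hs => ?_
        simp only [Net.strand] at hs
        subst hs
        have := L5_rho (N := N) w
        have := L5_rho (N := N) w'
        rcases L5_win hV w w' with rfl | h5
        · exact absurd hc (lt_irrefl _)
        · simp only [Net.col, Net.bs] at *
          omega
  · have hsu : u ≠ Vtx.src 0 := L5_ne (N := N) (by omega)
    rcases rows12 hV h h1 (by omega) with ⟨σ, rfl, rfl⟩ | ⟨b, w, hp, a1, a2, a3⟩
    · rcases rows12 hV h' (by omega) (by omega) with ⟨σ', rfl, rfl⟩ | ⟨b', w', hp', a1', a2', a3'⟩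
      · refine L5_red hV h h' hsu hsv' rfl rfl hc fun hs => ?_
        simp only [Net.strand] at hs
        subst hs
        exact le_rfl
      · refine L5_red hV h h' hsu hsv' rfl (a1'.trans a2'.symm) hc fun hs => ?_
        rw [a1'] at hs
        simp only [Net.strand] at hs
        subst hs
        have := L5_rho (N := N) w'
        simp only [Net.col, Net.bs] at *
        omega
    · rcases rows12 hV h' (by omega) (by omega) with ⟨σ', rfl, rfl⟩ | ⟨b', w', hp', a1', a2', a3'⟩
      · refine L5_red hV h h' hsu hsv' (a1.trans a2.symm) rfl hc fun hs => ?_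
        rw [a1] at hs
        simp only [Net.strand] at hs
        subst hs
        have := L5_rho (N := N) w
        simp only [Net.col, Net.bs] at *
        omega
      · refine L5_red hV h h' hsu hsv' (a1.trans a2.symm) (a1'.trans a2'.symm) hc fun hs => ?_
        rw [a1, a1'] at hs
        subst hs
        have := L5_rho (N := N) w
        have := L5_rho (N := N) w'
        rcases L5_win hV w w' with rfl | h5
        · clear h h' hv hv' hu hsu hsv' h1 hr
          omega
        · clear h h' hv hv' hu hsu hsv' h1 hr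
          simp only [Net.bs] at *
          omega

/-- TASK L5b. Edges between rows 2 and 3 are monotone.
Proof. As L5a with `rows23`; `col (path b t) = wid b + 1 + 32 t`. Same window: the three kinds are ordered: `t ≤ rho w - 2 < rho w + dl b 0 ≤ t ≤ rho w + dl b 0 + 1 < rho w + dl b 1` (`dl b 0 = 16 + 4 b`, `dl b 1 = 18 + 4 b`), and two edges of the same kind have `col u = col u'`, against `hc`.
Different windows `w < w'`: `t ≤ rho w + dl b 1 + 1 ≤ rho w + 79 < rho w' - 3 ≤ t'`. -/
theorem ver2 (hV : N.Valid k) {u v u' v' : Vtx} (h : N.G.Adj u v) (h' : N.G.Adj u' v')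
    (hr : N.row u = 2) (hv : N.row v = N.row u + 1) (hv' : N.row v' = N.row u' + 1)
    (hu : N.row u = N.row u') (hc : N.col u < N.col u') : N.col v ≤ N.col v' := by
  have hsv' : v' ≠ Vtx.src 0 := L5_ne (N := N) (by omega)
  have hsu : u ≠ Vtx.src 0 := L5_ne (N := N) (by omega)
  rcases rows23 hV h hr (by omega) with ⟨σ, rfl, rfl⟩ | ⟨b, w, t, hp, a1, rfl, a3⟩
  · rcases rows23 hV h' (by omega) (by omega) with ⟨σ', rfl, rfl⟩ | ⟨b', w', t', hp', a1', rfl, a3'⟩
    · refine L5_red hV h h' hsu hsv' rfl rfl hc fun hs => ?_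
      simp only [Net.strand] at hs
      subst hs
      exact le_rfl
    · refine L5_red hV h h' hsu hsv' rfl a1' hc fun hs => ?_
      rw [a1'] at hs
      simp only [Net.strand] at hs
      subst hs
      have := L5_rho (N := N) w'
      simp only [Net.col, Net.bs, Net.dl] at *
      omega
  · rcases rows23 hV h' (by omega) (by omega) with ⟨σ', rfl, rfl⟩ | ⟨b', w', t', hp', a1', rfl, a3'⟩
    · refine L5_red hV h h' hsu hsv' a1 rfl hc fun hs => ?_
      rw [a1] at hs
      simp only [Net.strand] at hs
      subst hs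
      have := L5_rho (N := N) w
      simp only [Net.col, Net.bs, Net.dl] at *
      omega
    · refine L5_red hV h h' hsu hsv' a1 a1' hc fun hs => ?_
      rw [a1, a1'] at hs
      subst hs
      have h6 := L5_port hp
      have := L5_rho (N := N) w
      have := L5_rho (N := N) w'
      simp only [Net.dl] at a3 a3'
      change N.wid * b + 1 + 32 * t ≤ N.wid * b + 1 + 32 * t'
      rcases L5_win hV w w' with rfl | h5
      · clear h h' hv hv' hu hsu hsv' hr hp hp' a1 a1'
        omega
      · clear h h' hv hv' hu hsu hsv' hr hp hp' a1 a1'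
        simp only [Net.bs] at a3 a3'
        omega

/-- TASK L5c. Edges between higher rows are monotone.
Proof. As L5a with `rows3`. path-door: `col v = col u + 32`. door-reg: `t < t'` gives `x < 600 (t + 1) ≤ 600 t' ≤ x'`. reg vertical: `col v = col u` for both (same row, so the same kind for both edges: `row = 5 + 300 l + r`, kind 3 has `r < 299`, kind 4 has `r = 299`). Kind 4: `x < x'` with `x % 600, x' % 600 < 300`:
`x / 600 ≤ x' / 600`; if equal then `x % 600 < x' % 600`; if less then `300 (x/600) + x % 600 < 300 (x/600 + 1) ≤ 300 (x'/600)`. -/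
theorem ver3 (hV : N.Valid k) {u v u' v' : Vtx} (h : N.G.Adj u v) (h' : N.G.Adj u' v')
    (hr : 3 ≤ N.row u) (hv : N.row v = N.row u + 1) (hv' : N.row v' = N.row u' + 1)
    (hu : N.row u = N.row u') (hc : N.col u < N.col u') : N.col v ≤ N.col v' := by
  have hsv' : v' ≠ Vtx.src 0 := L5_ne (N := N) (by omega)
  have hsu : u ≠ Vtx.src 0 := L5_ne (N := N) (by omega)
  rcases rows3 hV h hr hv with ⟨σ, t, rfl, rfl⟩ | ⟨σ, t, x, rfl, rfl, a1, a2⟩ |
    ⟨σ, l, r, x, rfl, rfl, a1⟩ | ⟨σ, l, x, rfl, rfl, a1⟩ <;>
  rcases rows3 hV h' (by omega) hv' with ⟨σ', t', rfl, rfl⟩ | ⟨σ', t', x', rfl, rfl, a1', a2'⟩ |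
    ⟨σ', l', r', x', rfl, rfl, a1'⟩ | ⟨σ', l', x', rfl, rfl, a1'⟩
  all_goals
    refine L5_red hV h h' hsu hsv' rfl rfl hc fun hs => ?_
    simp only [Net.strand] at hs
    subst hs
    clear h h' hsu hsv'
    simp only [Net.col, Net.row] at *
    omega

end Pool.Agent.Lib.MP_711ea9_lc.FH
end

section

set_option autoImplicit false

namespace Pool.Agent.Lib.MP_711ea9_lc.FH

variable {N : Net} {k : ℕ}

/-- The graph of a net has a layout. -/
theorem net_layout (hV : N.Valid k) (hLm : N.Laminar) :
    Layout N.G N.row N.col (305 + 300 * N.h) where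
  inj u v hu hv h1 h2 := lay_inj hV (ex_of_liv hV hu) (ex_of_liv hV hv) h1 h2
  bound u hu := row_lt (ex_of_liv hV hu)
  edge u v h := by
    rcases Net.adj_iff.1 h with h | h
    · rcases lay_edge hV h with ⟨h1, h2⟩ | h1 | h1
      · refine Or.inl ⟨h1, ?_⟩
        rcases h2 with h2 | h2
        · exact Or.inl h2
        · exact Or.inr (fun w hw => h2 w (ex_of_liv hV hw))
      · exact Or.inr (Or.inl h1)
      · exact Or.inr (Or.inr h1)
    · rcases lay_edge hV h with ⟨h1, h2⟩ | h1 | h1
      · refine Or.inl ⟨h1.symm, ?_⟩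
        rcases h2 with h2 | h2
        · exact Or.inl (h1 ▸ h2)
        · refine Or.inr (fun w hw hr => ?_)
          have := h2 w (ex_of_liv hV hw) (hr.trans h1.symm)
          rwa [min_comm, max_comm] at this
      · exact Or.inr (Or.inr h1)
      · exact Or.inr (Or.inl h1)
  ver u v u' v' h h' h1 h2 h3 h4 := by
    rcases Nat.lt_or_ge (N.row u) 2 with h5 | h5
    · exact ver01 hV h h' (by omega) h1 h2 h3 h4
    · rcases Nat.eq_or_lt_of_le h5 with h6 | h6
      · exact ver2 hV h h' h6.symm h1 h2 h3 h4
      · exact ver3 hV h h' h6 h1 h2 h3 h4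
  lam u v u' v' h h' h1 h2 h3 h4 := lay_lam hV hLm h h' h1 h2 h3 h4

end Pool.Agent.Lib.MP_711ea9_lc.FH
end
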