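import Pool.Agent.Lib.MP_711ea9_lc.Mg.G001
import Pool.Agent.Lib.MP_711ea9_lc.FH.Adj
import Pool.Agent.Lib.MP_711ea9_lc.FH.L1

section

set_option autoImplicit false

namespace Pool.Agent.Lib.MP_711ea9_lc.FH

open Finset

/-- TASK D4. No door burns.
Proof. Suppose `door σ t ∈ F (i0 + 14)`. `σ < 22 + K` (`Net.isDoor_of_mem`, `Net.own_lt`, `K > 0`), so
`(leaks (i0 + 14)).card ≥ 1`. Claim: `2 ^ j ≤ (N.leaks S (i0 + 14 + j * tau)).card` for all `j ≤ k0`. Induction: the step
uses `growth_ineq` with `i = i0 + 14 + (j + 1) * tau`, `i - tau = i0 + 14 + j * tau`: with `L = card ≥ 1` at time `i - tau`,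
`150 L ≤ L' + 80` gives `L' ≥ 2 L`. The bounds `i ≤ i0 + Lam`, `i ≤ i0 + K`, `i ≤ T` follow from `hV.hLam`, `hV.hK`, `hT`
and `(j+1) * tau ≤ k0 * tau`. For `j = k0`: `2 ^ k0 ≤ card ≤ 22 + K` (a filter of `range (22 + K)`),
against `hV.hk0`. -/
theorem no_leak {N : Net} {k : ℕ} (hV : N.Valid k) {S : Set Vtx} (hR : N.Run S k)
    {i0 : ℕ} (h0 : i0 = 0 ∨ 6 ≤ i0)
    (hp : ∀ σ s, σ < 16 + N.K → 1 ≤ s → s ≤ i0 → Vtx.path σ s ∈ N.F S s)
    (p1 : (i0 : ℕ∞) ≤ (N.H S i0).encard)
    (p3 : ∀ v ∈ N.H S i0, (∀ σ j, v = Vtx.path σ j → 16 ≤ σ → j ≤ i0) ∧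
      (∀ σ t, v = Vtx.door σ t → t ≤ i0) ∧ ∀ σ, v ∉ region σ)
    (hT : i0 + 14 + N.k0 * N.tau ≤ N.T) (σ t : ℕ) :
    Vtx.door σ t ∉ N.F S (i0 + 14) := by
  intro hd
  have hKp : 0 < N.K := by have := hV.hK; omega
  have hσ : σ < 22 + N.K := by
    rcases Net.isDoor_of_mem hd with ⟨_, _, h⟩ | ⟨_, _, _, h⟩
    · exact h
    · have := Net.own_lt (N := N) t hKp
      omega
  have key : ∀ j, j ≤ N.k0 → 2 ^ j ≤ (N.leaks S (i0 + 14 + j * N.tau)).card := by
    intro j
    induction j with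
    | zero =>
      intro _
      rw [pow_zero]
      refine Finset.card_pos.mpr ⟨σ, ?_⟩
      classical
      unfold Net.leaks
      simp only [mem_filter, mem_range]
      refine ⟨hσ, t, ?_⟩
      have : i0 + 14 + 0 * N.tau = i0 + 14 := by ring
      rw [this]
      exact hd
    | succ j ih =>
      intro hj
      have ih' := ih (by omega)
      have h1 : (j + 1) * N.tau ≤ N.k0 * N.tau := Nat.mul_le_mul_right _ hj
      have h2 : (j + 1) * N.tau = j * N.tau + N.tau := by ring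
      have hK' := hV.hK
      have hL' := hV.hLam
      have hg := growth_ineq hV hR (i := i0 + 14 + (j + 1) * N.tau) h0 hp p1 p3 (by omega) (by omega)
        (by omega) (by omega) (by omega)
      have h3 : i0 + 14 + (j + 1) * N.tau - N.tau = i0 + 14 + j * N.tau := by omega
      rw [h3] at hg
      have h4 : 1 ≤ 2 ^ j := Nat.one_le_two_pow
      rw [pow_succ]
      omega
  have hfin := key N.k0 le_rfl
  have hle : (N.leaks S (i0 + 14 + N.k0 * N.tau)).card ≤ 22 + N.K := by
    classical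
    unfold Net.leaks
    refine (Finset.card_filter_le _ _).trans ?_
    rw [Finset.card_range]
  have := hV.hk0
  omega

end Pool.Agent.Lib.MP_711ea9_lc.FH
end

section

set_option autoImplicit false

namespace Pool.Agent.Lib.MP_711ea9_lc.FH

open Finset

variable {N : Net} {k : ℕ} {S : Set Vtx} {i : ℕ}

/-- TASK F1a. Unprotected strands burn in time. Induction on `t`: `path σ 1` is next to `src 0 ∈ F 0`, `path σ (t+1)` next to `path σ t ∈ F t` (edge needs `t + 1 ≤ N.T`); `Net.burns`. -/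
theorem path_burn (hb : ∀ σ t, σ < 16 + N.K → 1 ≤ t → t ≤ i → Vtx.path σ t ∉ S) (hiT : i ≤ N.T)
    {σ t : ℕ} (hσ : σ < 16 + N.K) (h1 : 1 ≤ t) (ht : t ≤ i) : Vtx.path σ t ∈ N.F S t := by
  induction t with
  | zero => omega
  | succ t ih =>
    by_cases h0 : t = 0
    · subst h0
      exact Net.burns (Net.src_mem_F 0) (Net.adj_of_E ⟨rfl, rfl, by omega⟩) (hb σ 1 hσ le_rfl ht)
    · have h2 := ih (by omega) (by omega)
      exact Net.burns h2 (Net.adj_of_E ⟨rfl, by omega, by omega, rfl, by omega⟩)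
        (hb σ (t + 1) hσ h1 ht)

/-- TASK F1b. Stems burn in time. `rt b w ≥ rho w ≥ 16`. `path b (rt - 3) ∈ F (rt - 3)` by `path_burn` (`rt - 3 ≤ i - 1`), `stem b w 0 ∉ S` is next to it, then `stem b w 1`. -/
theorem stem_burn (hb : ∀ σ t, σ < 16 + N.K → 1 ≤ t → t ≤ i → Vtx.path σ t ∉ S) (hiT : i ≤ N.T)
    (hb' : ∀ b w j, N.port b w → j < 2 → N.rt b w + j ≤ i + 2 → Vtx.stem b w j ∉ S)
    {b w j : ℕ} (hp : N.port b w) (hj : j < 2) (hi : N.rt b w + j ≤ i + 2) :
    Vtx.stem b w j ∈ N.F S (N.rt b w + j - 2) := by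
  have hr := N.rho_le_rt b w
  have hr16 : 16 ≤ N.rho w := by unfold Net.rho; omega
  have hbb : b < 16 := hp.1
  have h1 : Vtx.path b (N.rt b w - 3) ∈ N.F S (N.rt b w - 3) :=
    path_burn hb hiT (by omega) (by omega) (by omega)
  have h2 : Vtx.stem b w 0 ∈ N.F S (N.rt b w - 3 + 1) :=
    Net.burns h1 (Net.adj_of_E ⟨rfl, hp, rfl, by omega⟩) (hb' b w 0 hp (by omega) (by omega))
  have e1 : N.rt b w - 3 + 1 = N.rt b w - 2 := by omega
  rw [e1] at h2
  rcases Nat.lt_succ_iff_lt_or_eq.1 hj with h | h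
  · have h0 : j = 0 := by omega
    subst h0
    exact h2
  · subst h
    have h3 : Vtx.stem b w 1 ∈ N.F S (N.rt b w - 2 + 1) :=
      Net.burns h2 (Net.adj_of_E ⟨rfl, rfl, hp, rfl, rfl⟩) (hb' b w 1 hp (by omega) hi)
    have e2 : N.rt b w - 2 + 1 = N.rt b w + 1 - 2 := by omega
    rw [e2] at h3
    exact h3

/-- TASK F1c. Unprotected roots burn in time: `stem b w 1 ∈ F (rt - 1)` by `stem_burn` (`rt + 1 ≤ i + 2`), and the root is next to it. -/
theorem root_burn (hb : ∀ σ t, σ < 16 + N.K → 1 ≤ t → t ≤ i → Vtx.path σ t ∉ S) (hiT : i ≤ N.T)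
    (hb' : ∀ b w j, N.port b w → j < 2 → N.rt b w + j ≤ i + 2 → Vtx.stem b w j ∉ S)
    {b w : ℕ} (hp : N.port b w) (hi : N.rt b w ≤ i + 1) (hS : Vtx.root b w ∉ S) :
    Vtx.root b w ∈ N.F S (N.rt b w) := by
  have hr := N.rho_le_rt b w
  have hr16 : 16 ≤ N.rho w := by unfold Net.rho; omega
  have h1 := stem_burn hb hiT hb' hp (j := 1) (by omega) (by omega)
  have h2 : Vtx.root b w ∈ N.F S (N.rt b w + 1 - 2 + 1) :=
    Net.burns h1 (Net.adj_of_E ⟨rfl, rfl, hp, rfl⟩) hS
  have e : N.rt b w + 1 - 2 + 1 = N.rt b w := by omega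
  rwa [e] at h2

/-- TASK F1d. A protected root is due at its time at the latest (same proof, `Net.dues`). -/
theorem root_due (hb : ∀ σ t, σ < 16 + N.K → 1 ≤ t → t ≤ i → Vtx.path σ t ∉ S) (hiT : i ≤ N.T)
    (hb' : ∀ b w j, N.port b w → j < 2 → N.rt b w + j ≤ i + 2 → Vtx.stem b w j ∉ S)
    {b w : ℕ} (hp : N.port b w) (hi : N.rt b w ≤ i + 1) (hS : Vtx.root b w ∈ S) :
    Vtx.root b w ∈ N.H S (N.rt b w) := by
  have hr := N.rho_le_rt b w
  have hr16 : 16 ≤ N.rho w := by unfold Net.rho; omega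
  have h1 := stem_burn hb hiT hb' hp (j := 1) (by omega) (by omega)
  have h2 : Vtx.root b w ∈ N.H S (N.rt b w + 1 - 2 + 1) :=
    Net.dues h1 (Net.adj_of_E ⟨rfl, rfl, hp, rfl⟩) hS
  have e : N.rt b w + 1 - 2 + 1 = N.rt b w := by omega
  rwa [e] at h2

end Pool.Agent.Lib.MP_711ea9_lc.FH
end

section

set_option autoImplicit false

namespace Pool.Agent.Lib.MP_711ea9_lc.FH

variable {N : Net} {k : ℕ}

private lemma L6_row0 {v : Vtx} (h : N.row v = 0) : (∃ q, v = Vtx.src q) ∨
    (∃ σ t, t ≤ 1 ∧ v = Vtx.path σ t) ∨ (∃ b w, v = Vtx.root b w) ∨ (∃ b w, v = Vtx.nod b w) := by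
  cases v with
  | src q => exact Or.inl ⟨q, rfl⟩
  | path σ t =>
    refine Or.inr (Or.inl ⟨σ, t, ?_, rfl⟩)
    have h' : min (t - 1) 3 = 0 := h
    omega
  | door σ t => exact absurd h (by simp [Net.row])
  | reg σ l r x =>
    exfalso
    have h' : 5 + 300 * l + r = 0 := h
    omega
  | stem b w j =>
    exfalso
    have h' : (if j = 0 then 2 else 1) = 0 := h
    split_ifs at h'
  | root b w => exact Or.inr (Or.inr (Or.inl ⟨b, w, rfl⟩))
  | nod b w => exact Or.inr (Or.inr (Or.inr ⟨b, w, rfl⟩))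
  | chain b w c j =>
    exfalso
    have h' : (if c = 0 then (if j = 1 then 1 else 2)
      else (if j < N.len b w c then 1 else 2)) = 0 := h
    split_ifs at h'

private lemma L6_bs (hV : N.Valid k) (b : ℕ) {w w' : ℕ} (h : w < w') :
    N.bs b w + 2 ≤ N.bs b w' := by
  have h1 := N.rho_lt h
  have h2 := hV.hLam'
  have h3 : 16 ≤ N.rho w := by
    unfold Net.rho
    omega
  unfold Net.bs
  omega

private lemma L6_bs16 (b w : ℕ) : N.wid * b + 257 ≤ N.bs b w := by
  have h3 : 16 ≤ N.rho w := by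
    unfold Net.rho
    omega
  unfold Net.bs
  omega

private lemma L6_root (b w : ℕ) : N.col (Vtx.root b w) = N.bs b w + 1 := rfl

private lemma L6_nod (b w : ℕ) : N.col (Vtx.nod b w) = N.bs b w := rfl

/-- TASK L6a. The edges inside row 0 with `col u < col v`.
Proof. `Net.adj_iff`, cases: src - path 1 (`col src = 0`); root - root: `w < l1 w`, so `col (root b w) < col (root b (l1 w))` (`Net.rho_lt`) and the direction is fixed by `hc`; root - nod: `col nod < col root`, so `u = nod`, `v = root`; nod - root (l2): `w < l2` (`hV.link1`, `hV.link2`). (A path vertex of row 0 has `t = 1`; path - path edges have rows 0, 1.) -/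
theorem rows00 (hV : N.Valid k) {u v : Vtx} (h : N.G.Adj u v) (h0 : N.row u = 0)
    (h1 : N.row v = 0) (hc : N.col u < N.col v) :
    (u = Vtx.src 0 ∧ ∃ σ, σ < 22 + N.K ∧ v = Vtx.path σ 1) ∨
    (∃ b w, N.port b w ∧ N.wr w (b / 2) = true ∧ N.l2 w (b / 2) ≠ 0 ∧ u = Vtx.nod b w ∧
      v = Vtx.root b w) ∨
    ∃ b w t, N.port b w ∧ N.wr w (b / 2) = true ∧ w < t ∧ t < N.nw ∧ v = Vtx.root b t ∧
      ((t = N.l1 w (b / 2) ∧ u = Vtx.root b w) ∨
       (N.l2 w (b / 2) ≠ 0 ∧ t = N.l2 w (b / 2) ∧ u = Vtx.nod b w)) := by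
  rcases L6_row0 h0 with ⟨q, rfl⟩ | ⟨σ, t, ht, rfl⟩ | ⟨b, w, rfl⟩ | ⟨b, w, rfl⟩
  · rcases L6_row0 h1 with ⟨q', rfl⟩ | ⟨σ', t', ht', rfl⟩ | ⟨b', w', rfl⟩ | ⟨b', w', rfl⟩
    · rcases Net.adj_iff.1 h with h | h <;> simp [Net.E] at h
    · rcases Net.adj_iff.1 h with h | h
      · have h2 : q = 0 ∧ t' = 1 ∧ σ' < 22 + N.K := h
        obtain ⟨rfl, rfl, h3⟩ := h2
        exact Or.inl ⟨rfl, σ', h3, rfl⟩
      · simp [Net.E] at h
    · rcases Net.adj_iff.1 h with h | h <;> simp [Net.E] at h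
    · rcases Net.adj_iff.1 h with h | h <;> simp [Net.E] at h
  · rcases L6_row0 h1 with ⟨q', rfl⟩ | ⟨σ', t', ht', rfl⟩ | ⟨b', w', rfl⟩ | ⟨b', w', rfl⟩
    · exfalso
      have h2 : N.col (Vtx.src q') = 0 := rfl
      omega
    · rcases Net.adj_iff.1 h with h | h
      · simp [Net.E] at h
        omega
      · simp [Net.E] at h
        omega
    · rcases Net.adj_iff.1 h with h | h <;> simp [Net.E] at h
    · rcases Net.adj_iff.1 h with h | h <;> simp [Net.E] at h
  · rcases L6_row0 h1 with ⟨q', rfl⟩ | ⟨σ', t', ht', rfl⟩ | ⟨b', w', rfl⟩ | ⟨b', w', rfl⟩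
    · rcases Net.adj_iff.1 h with h | h <;> simp [Net.E] at h
    · rcases Net.adj_iff.1 h with h | h <;> simp [Net.E] at h
    · rcases Net.adj_iff.1 h with h | h
      · have h2 : b' = b ∧ N.port b w ∧ N.wr w (b / 2) = true ∧ w' = N.l1 w (b / 2) ∧ w < w' := h
        obtain ⟨rfl, g1, g2, g3, g4⟩ := h2
        have hp : b' / 2 < 8 := by
          have := g1.1
          omega
        have hl := (hV.link1 w (b' / 2) g1.2.1 hp g2).2.1
        refine Or.inr (Or.inr ⟨b', w, w', g1, g2, g4, ?_, rfl, Or.inl ⟨g3, rfl⟩⟩)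
        rw [g3]
        exact hl
      · have h2 : b = b' ∧ N.port b' w' ∧ N.wr w' (b' / 2) = true ∧ w = N.l1 w' (b' / 2) ∧
          w' < w := h
        obtain ⟨rfl, g1, g2, g3, g4⟩ := h2
        exfalso
        have := L6_bs hV b g4
        rw [L6_root, L6_root] at hc
        omega
    · rcases Net.adj_iff.1 h with h | h
      · have h2 : b' = b ∧ w' = w ∧ N.port b w ∧ N.wr w (b / 2) = true ∧
          N.l2 w (b / 2) ≠ 0 := h
        obtain ⟨rfl, rfl, -⟩ := h2
        exfalso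
        rw [L6_root, L6_nod] at hc
        omega
      · have h2 : b = b' ∧ N.port b' w' ∧ N.wr w' (b' / 2) = true ∧ N.l2 w' (b' / 2) ≠ 0 ∧
          w = N.l2 w' (b' / 2) := h
        obtain ⟨rfl, g1, g2, g3, g4⟩ := h2
        exfalso
        have hp : b / 2 < 8 := by
          have := g1.1
          omega
        have hl := (hV.link1 w' (b / 2) g1.2.1 hp g2).1
        have hl2 := (hV.link2 w' (b / 2) g1.2.1 hp g2 g3).1
        have := L6_bs hV b (show w' < w by omega)
        rw [L6_root, L6_nod] at hc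
        omega
  · rcases L6_row0 h1 with ⟨q', rfl⟩ | ⟨σ', t', ht', rfl⟩ | ⟨b', w', rfl⟩ | ⟨b', w', rfl⟩
    · rcases Net.adj_iff.1 h with h | h <;> simp [Net.E] at h
    · rcases Net.adj_iff.1 h with h | h <;> simp [Net.E] at h
    · rcases Net.adj_iff.1 h with h | h
      · have h2 : b' = b ∧ N.port b w ∧ N.wr w (b / 2) = true ∧ N.l2 w (b / 2) ≠ 0 ∧
          w' = N.l2 w (b / 2) := h
        obtain ⟨rfl, g1, g2, g3, g4⟩ := h2
        have hp : b' / 2 < 8 := by
          have := g1.1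
          omega
        have hl := (hV.link1 w (b' / 2) g1.2.1 hp g2).1
        have hl2 := hV.link2 w (b' / 2) g1.2.1 hp g2 g3
        refine Or.inr (Or.inr ⟨b', w, w', g1, g2, ?_, ?_, rfl, Or.inr ⟨g3, g4, rfl⟩⟩)
        · omega
        · rw [g4]
          exact hl2.2.1
      · have h2 : b = b' ∧ w = w' ∧ N.port b' w' ∧ N.wr w' (b' / 2) = true ∧
          N.l2 w' (b' / 2) ≠ 0 := h
        obtain ⟨rfl, rfl, g1, g2, g3⟩ := h2
        exact Or.inr (Or.inl ⟨b, w, g1, g2, g3, rfl, rfl⟩)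
    · rcases Net.adj_iff.1 h with h | h <;> simp [Net.E] at h

/-- TASK L6b. The edges of row 0 are laminar.
Proof. Suppose `col u < col u' < col v < col v'`; apply `rows00` to both edges. `u' ≠ src 0` as `col u' > 0`. Case `u = src 0`, `v = path σ 1`, `col v = wid σ + 33`: `u'` and `v'` lie in the same strand `b` and have columns `≥ wid b + 257`. `col u' < col v` gives `b < σ` or (`b = σ` and `257 ≤ 33`, false); `b < σ`: `col v' < col v` by
`col_strand`/`col_lt_of_strand` (`ex_of_liv`), contradiction. Case both edges in window kind: strands `b` of `u, v` and `b'` of `u', v'` are equal, because `col u < col u' < col v` (`col_lt_of_strand` for `b < b'` gives `col v < col u'`, for `b' < b` gives `col u' < col u`). Let `u` be at window `w`, `u'` at `w'` (both `root` or `nod`: columns `bs` or `bs + 1`), so `w ≤ w'`.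
`w = w'`: `u = nod`, `u' = root`, so `v' = root b (l1 w)`, and `v` is `root b w` (`col v = col u'`, excluded) or `root b (l2 w)`, `l1 < l2`: `col v' < col v`. `w < w'`: `v = root b w` has `col v < bs b w'` (excluded), so `v = root b t`, `t` a target of `w`; `v' = root b w'` (then `u' = nod b w'`, `col v' = col u' + 1`, nothing strictly between) or `v' = root b t'` with `t'` a target of `w'`:
`hLm` (same page `b / 2`, `w' < nw`): `t < w'` gives `col v < col u'`; `t' < t` gives `col v' < col v`. All contradictions. -/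
theorem lay_lam (hV : N.Valid k) (hLm : N.Laminar) {u v u' v' : Vtx} (h : N.G.Adj u v)
    (h' : N.G.Adj u' v') (hu : N.row u = 0) (hv : N.row v = 0) (hu' : N.row u' = 0)
    (hv' : N.row v' = 0) : ¬ (N.col u < N.col u' ∧ N.col u' < N.col v ∧ N.col v < N.col v') := by
  rintro ⟨c1, c2, c3⟩
  have exv : N.Ex v := ex_of_liv hV ⟨u, h.symm⟩
  have exu : N.Ex u := ex_of_liv hV ⟨v, h⟩
  have exv' : N.Ex v' := ex_of_liv hV ⟨u', h'.symm⟩
  have exu' : N.Ex u' := ex_of_liv hV ⟨v', h'⟩
  have key := rows00 hV h hu hv (c1.trans c2)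
  have key' := rows00 hV h' hu' hv' (c2.trans c3)
  rcases key' with ⟨rfl, -⟩ | ⟨b', w', -, -, -, rfl, rfl⟩ | ⟨b', w', t', p', wr', hwt', ht', rfl, hu''⟩
  · have : N.col (Vtx.src 0) = 0 := rfl
    omega
  · rw [L6_nod] at c2
    rw [L6_root] at c3
    omega
  · -- columns of u'
    have cu' : N.bs b' w' ≤ N.col u' ∧ N.col u' ≤ N.bs b' w' + 1 ∧ Net.strand u' = b' ∧
        u' ≠ Vtx.src 0 := by
      rcases hu'' with ⟨-, rfl⟩ | ⟨-, -, rfl⟩
      · exact ⟨by rw [L6_root]; omega, by rw [L6_root], rfl, by simp⟩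
      · exact ⟨by rw [L6_nod], by rw [L6_nod]; omega, rfl, by simp⟩
    obtain ⟨a1, a2, a3, a4⟩ := cu'
    rcases key with ⟨rfl, σ, hσ, rfl⟩ | ⟨b, w, -, -, -, rfl, rfl⟩ | ⟨b, w, t, p, wr, hwt, ht, rfl, huu⟩
    · have e1 : N.col (Vtx.path σ 1) = N.wid * σ + 1 + 32 * 1 := rfl
      have e2 := L6_bs16 (N := N) b' w'
      rcases Nat.lt_or_ge b' σ with hb | hb
      · have := col_lt_of_strand hV exv' exv (by simp) hb
        omega
      · have : N.wid * σ ≤ N.wid * b' := Nat.mul_le_mul_left _ hb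
        omega
    · rw [L6_nod] at c1
      rw [L6_root] at c2
      omega
    · have cu : N.bs b w ≤ N.col u ∧ N.col u ≤ N.bs b w + 1 ∧ Net.strand u = b ∧
          u ≠ Vtx.src 0 := by
        rcases huu with ⟨-, rfl⟩ | ⟨-, -, rfl⟩
        · exact ⟨by rw [L6_root]; omega, by rw [L6_root], rfl, by simp⟩
        · exact ⟨by rw [L6_nod], by rw [L6_nod]; omega, rfl, by simp⟩
      obtain ⟨d1, d2, d3, d4⟩ := cu
      have hbb : b = b' := by
        rcases Nat.lt_trichotomy b b' with hb | hb | hb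
        · exfalso
          have := col_lt_of_strand hV exv exu' a4 (show Net.strand (Vtx.root b t) < Net.strand u' by
            rw [a3]
            exact hb)
          omega
        · exact hb
        · exfalso
          have := col_lt_of_strand hV exu' exu d4 (by rw [a3, d3]; exact hb)
          omega
      subst hbb
      rw [L6_root] at c2 c3
      rw [L6_root] at c3
      have hp : b / 2 < 8 := by
        have := p.1
        omega
      rcases Nat.lt_trichotomy w w' with hw | hw | hw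
      · have hlam := hLm (b / 2) w w' t t' hp hw p'.2.1 wr wr'
          (by
            rcases huu with ⟨e, -⟩ | ⟨e1, e2, -⟩
            · exact Or.inl e
            · exact Or.inr ⟨e1, e2⟩)
          (by
            rcases hu'' with ⟨e, -⟩ | ⟨e1, e2, -⟩
            · exact Or.inl e
            · exact Or.inr ⟨e1, e2⟩)
        rcases hlam with hl | hl
        · have := L6_bs hV b hl
          omega
        · have := L6_bs hV b hl
          omega
      · subst hw
        rcases huu with ⟨e, rfl⟩ | ⟨e1, e2, rfl⟩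
        · rw [L6_root] at c1
          omega
        · rcases hu'' with ⟨e', rfl⟩ | ⟨e1', e2', rfl⟩
          · have hl := (hV.link2 w (b / 2) p.2.1 hp wr e1).1
            have := L6_bs hV b (show t' < t by omega)
            omega
          · exact absurd c1 (lt_irrefl _)
      · have := L6_bs hV b hw
        omega

end Pool.Agent.Lib.MP_711ea9_lc.FH
end
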