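import Pool.Agent.Lib.MP_711ea9_lc.FH.W3
import Pool.Agent.Lib.MP_711ea9_lc.FH.W2
import Pool.Agent.Lib.MP_711ea9_lc.FH.W6
import Pool.Agent.Lib.MP_711ea9_lc.Mg.G005
import Pool.Agent.Lib.MP_711ea9_lc.Mg.G006
import Pool.Agent.Lib.MP_711ea9_lc.FH.S1

section

set_option autoImplicit false

namespace Pool.Agent.Lib.MP_711ea9_lc.FH

open Finset

variable {N : Net} {k : ℕ} {S : Set Vtx} {w : ℕ}

/-- TASK W4a. A unit which is met in the cheapest way has a witness which is due in time.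
Proof. Cases of `N.act`. `j < 2` (`root b w ∉ S`): `win_root`, `win_chain` with `w' = w`, `y = rt b w`: the second alternative contradicts `hc.1`; the chain vertex is in `H (rt b w + len)` and `rt b w + len = rho w + due w b j` (unfold `Net.rt`, `Net.due`);
its class is `(b, j)`. `j = 2`: `root b w ∈ S` is in `H (rt b w) = H (rho w + 1)` by `root_due` (writer), `due = 1`; fresh by `fresh_root`. `j = 3`: `root b w ∈ F (rho w + 1)` (`win_root`), so `root b l1 ∈ S` (`hc.2.1`) is in `H (rho w + 2)`; `due = 2`; fresh by `fresh_root`; class 3 since `l1 ≠ w`.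
`j = 4`: `nod b w ∉ S` (`hc.2.2`) is in `F (rho w + 2)`, so `root b l2 ∈ S` is in `H (rho w + 3)`; `due = 3`; class 4 since `l2 ≠ w`, `l2 ≠ l1` (`hV.link1`, `hV.link2`). Edges: `Net.adj_of_E` (the edge root - root needs `w < l1`). -/
theorem can_wit (hW : N.Win S k w) {b j : ℕ} (ha : N.act (Net.stS S) w b j)
    (hc : N.Can S w b j) :
    ∃ v, N.Wit S w (N.rho w + N.due w b j) (b, j) v ∧ Net.dat v := by
  have hV := hW.valid
  obtain ⟨hp, h⟩ := ha
  have hb : b / 2 < 8 := by have := hp.1; omega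
  have hw : w < N.nw := hp.2.1
  rcases h with ⟨hj, hS⟩ | ⟨rfl, hwr, hS⟩ | ⟨rfl, hwr, hS⟩ | ⟨rfl, hwr, hS, hl2⟩
  · -- `j < 2`
    have hr := win_root hW hp hS
    obtain ⟨i, hi1, hi2, hiS⟩ := hc.1 hj
    have hy : N.rt b w ≤ N.rho w + 3 := by have := N.rt_le b w; omega
    rcases win_chain hW hp le_rfl hj hr hy with ⟨j', hj1, hj2, hH, hWit⟩ | ⟨h1, -⟩
    · have hdue : N.rt b w + N.len b w j = N.rho w + N.due w b j := by
        unfold Net.rt Net.due
        rw [if_pos hj]
        omega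
      refine ⟨Vtx.chain b w j j', ⟨?_, hWit.2.1, ?_⟩, trivial⟩
      · rw [← hdue]; exact hH
      · show (b, if w = w then j else if w = N.l1 w (b / 2) then 3 else 4) = (b, j)
        rw [if_pos rfl]
    · exact absurd hiS (h1 i hi1 hi2)
  · -- `j = 2`
    have hrt : N.rt b w = N.rho w + 1 := by
      unfold Net.rt
      rw [if_pos hwr]
    have hT := hV.hT
    have hm := Net.rho_mono (N := N) hw.le
    have hd := root_due (i := N.rho w) (N := N) (fun σ t h1 h2 h3 => hW.inv.b σ t h1 h2 h3)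
      (by omega) (fun b' w' j' h1 h2 h3 => hW.inv.b' b' w' j' h1 h2 h3) hp (by omega) hS
    refine ⟨Vtx.root b w, ⟨?_, fresh_root hW hp hwr (Or.inl rfl), ?_⟩, trivial⟩
    · have hdue : N.due w b 2 = 1 := by
        unfold Net.due
        rw [if_neg (by omega)]
      rw [hdue, ← hrt]
      exact hd
    · show (b, if w = w then 2 else if w = N.l1 w (b / 2) then 3 else 4) = (b, 2)
      rw [if_pos rfl]
  · -- `j = 3`
    have hrt : N.rt b w = N.rho w + 1 := by
      unfold Net.rt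
      rw [if_pos hwr]
    have hr := win_root hW hp hS
    rw [hrt] at hr
    obtain ⟨g1, g2, g3, g4⟩ := hV.link1 w (b / 2) hw hb hwr
    have hS' := hc.2.1 rfl
    have hadj : N.G.Adj (Vtx.root b w) (Vtx.root b (N.l1 w (b / 2))) :=
      Net.adj_of_E ⟨rfl, hp, hwr, rfl, g1⟩
    have hd := Net.dues hr hadj hS'
    refine ⟨Vtx.root b (N.l1 w (b / 2)), ⟨?_, fresh_root hW hp hwr (Or.inr (Or.inl rfl)), ?_⟩,
      trivial⟩
    · have hdue : N.due w b 3 = 2 := by
        unfold Net.due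
        rw [if_neg (by omega)]
      rw [hdue]
      exact hd
    · show (b, if N.l1 w (b / 2) = w then 2 else if N.l1 w (b / 2) = N.l1 w (b / 2) then 3 else 4) =
        (b, 3)
      rw [if_neg (by omega), if_pos rfl]
  · -- `j = 4`
    have hrt : N.rt b w = N.rho w + 1 := by
      unfold Net.rt
      rw [if_pos hwr]
    have hr := win_root hW hp hS
    rw [hrt] at hr
    obtain ⟨g1, g2, g3, g4⟩ := hV.link1 w (b / 2) hw hb hwr
    obtain ⟨k1, k2, k3, k4⟩ := hV.link2 w (b / 2) hw hb hwr hl2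
    obtain ⟨hn, hS'⟩ := hc.2.2 rfl
    have hadj : N.G.Adj (Vtx.root b w) (Vtx.nod b w) :=
      Net.adj_of_E ⟨rfl, rfl, hp, hwr, hl2⟩
    have hb1 := Net.burns hr hadj hn
    have hadj' : N.G.Adj (Vtx.nod b w) (Vtx.root b (N.l2 w (b / 2))) :=
      Net.adj_of_E ⟨rfl, hp, hwr, hl2, rfl⟩
    have hd := Net.dues hb1 hadj' hS'
    refine ⟨Vtx.root b (N.l2 w (b / 2)),
      ⟨?_, fresh_root hW hp hwr (Or.inr (Or.inr ⟨hl2, rfl⟩)), ?_⟩, trivial⟩
    · have hdue : N.due w b 4 = 3 := by
        unfold Net.due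
        rw [if_neg (by omega)]
      rw [hdue]
      exact hd
    · show (b, if N.l2 w (b / 2) = w then 2 else if N.l2 w (b / 2) = N.l1 w (b / 2) then 3 else 4) =
        (b, 4)
      rw [if_neg (by omega), if_neg (by omega)]

/-- TASK W4b. Otherwise the unit costs two vertices, or `j = 4` and `nod b w ∈ S` is due by `rho w + 2`.
Proof. `j < 2`: no chain vertex is in `S`; `win_chain` (`w' = w`, `y = rt b w`): second alternative. `j = 2`: `Can` holds. `j = 3`: `root b l1 ∉ S` burns at `rho w + 2`: `win_target` (`port b l1`: `hV.link1`). `j = 4`: `nod b w` is next to `root b w ∈ F (rho w + 1)`: if it is in `S` it is in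
`H (rho w + 2)`, fresh by `fresh_cn`, class `(b, 4)`: first alternative. If not, it is in `F (rho w + 2)`, `root b l2 ∉ S` (as `Can` fails) is in `F (rho w + 3)`: `win_target` (class 4 because `l2 ≠ l1`). -/
theorem non_wit (hW : N.Win S k w) {b j : ℕ} (ha : N.act (Net.stS S) w b j)
    (hc : ¬ N.Can S w b j) :
    (j = 4 ∧ N.Wit S w (N.rho w + 2) (b, 4) (Vtx.nod b w)) ∨
    ∃ v v', v ≠ v' ∧ N.Wit S w (N.rho w + 14) (b, j) v ∧ N.Wit S w (N.rho w + 14) (b, j) v' := by
  have hV := hW.valid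
  obtain ⟨hp, h⟩ := ha
  have hb : b / 2 < 8 := by have := hp.1; omega
  have hw : w < N.nw := hp.2.1
  rcases h with ⟨hj, hS⟩ | ⟨rfl, hwr, hS⟩ | ⟨rfl, hwr, hS⟩ | ⟨rfl, hwr, hS, hl2⟩
  · -- `j < 2`
    have hr := win_root hW hp hS
    have hy : N.rt b w ≤ N.rho w + 3 := by have := N.rt_le b w; omega
    have hz : N.zone w (Vtx.chain b w j 1) = (b, j) := by
      show (b, if w = w then j else if w = N.l1 w (b / 2) then 3 else 4) = (b, j)
      rw [if_pos rfl]
    rcases win_chain hW hp le_rfl hj hr hy with ⟨j', hj1, hj2, hH, hWit⟩ | ⟨-, v, v', hvv, hall⟩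
    · refine absurd ⟨fun _ => ⟨j', hj1, hj2, Net.H_subset _ hH⟩, fun h => ?_, fun h => ?_⟩ hc
      · omega
      · omega
    · rw [hz] at hall
      exact Or.inr ⟨v, v', hvv, (hall v (Or.inl rfl)).1, (hall v' (Or.inr rfl)).1⟩
  · -- `j = 2`
    refine absurd ⟨fun h => ?_, fun h => ?_, fun h => ?_⟩ hc
    · omega
    · omega
    · omega
  · -- `j = 3`
    have hrt : N.rt b w = N.rho w + 1 := by
      unfold Net.rt
      rw [if_pos hwr]
    have hr := win_root hW hp hS
    rw [hrt] at hr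
    obtain ⟨g1, g2, g3, g4⟩ := hV.link1 w (b / 2) hw hb hwr
    have hS' : Vtx.root b (N.l1 w (b / 2)) ∉ S := by
      intro hS'
      refine hc ⟨fun h => ?_, fun _ => hS', fun h => ?_⟩
      · omega
      · omega
    have hadj : N.G.Adj (Vtx.root b w) (Vtx.root b (N.l1 w (b / 2))) :=
      Net.adj_of_E ⟨rfl, hp, hwr, rfl, g1⟩
    have hd := Net.burns hr hadj hS'
    have hp' : N.port b (N.l1 w (b / 2)) := ⟨hp.1, g2, Or.inl g3⟩
    have ht := win_target hW hp' g1 hd (by omega)
    rw [if_pos rfl] at ht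
    exact Or.inr ht
  · -- `j = 4`
    have hrt : N.rt b w = N.rho w + 1 := by
      unfold Net.rt
      rw [if_pos hwr]
    have hr := win_root hW hp hS
    rw [hrt] at hr
    obtain ⟨g1, g2, g3, g4⟩ := hV.link1 w (b / 2) hw hb hwr
    obtain ⟨k1, k2, k3, k4⟩ := hV.link2 w (b / 2) hw hb hwr hl2
    have hadj : N.G.Adj (Vtx.root b w) (Vtx.nod b w) :=
      Net.adj_of_E ⟨rfl, rfl, hp, hwr, hl2⟩
    by_cases hn : Vtx.nod b w ∈ S
    · have hd := Net.dues hr hadj hn
      exact Or.inl ⟨rfl, hd, (fresh_cn hW (b := b) (c := 0) (j := 0) (le_refl w)).2, rfl⟩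
    · have hb1 := Net.burns hr hadj hn
      have hS' : Vtx.root b (N.l2 w (b / 2)) ∉ S := by
        intro hS'
        refine hc ⟨fun h => ?_, fun h => ?_, fun _ => ⟨hn, hS'⟩⟩
        · omega
        · omega
      have hadj' : N.G.Adj (Vtx.nod b w) (Vtx.root b (N.l2 w (b / 2))) :=
        Net.adj_of_E ⟨rfl, hp, hwr, hl2, rfl⟩
      have hd := Net.burns hb1 hadj' hS'
      have hp' : N.port b (N.l2 w (b / 2)) := ⟨hp.1, k2, Or.inl k3⟩
      have ht := win_target hW hp' (lt_trans g1 k1) hd (by omega)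
      rw [if_neg (by omega)] at ht
      exact Or.inr ht

/-- TASK W4c. Due times of active units are at most `e w`, at least 1; `j < 5` and `b < 16`. Proof: cases of `act`; `hV.len_rd`, `hV.len_wr` for `j < 2`; for writers `e w ≥ 4 + [l2 ≠ 0]` by `hV.e_eq` (the summand `p = b / 2`), so `1, 2 ≤ e w`, and `3 ≤ e w`. -/
theorem due_bounds (hW : N.Win S k w) {b j : ℕ} (ha : N.act (Net.stS S) w b j) :
    1 ≤ N.due w b j ∧ N.due w b j ≤ N.e w ∧ b < 16 ∧ j < 5 := by
  have hV := hW.valid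
  obtain ⟨hp, h⟩ := ha
  have hb16 := hp.1
  have hb : b / 2 < 8 := by omega
  have hw : w < N.nw := hp.2.1
  have hsum : N.wr w (b / 2) = true →
      4 + (if N.l2 w (b / 2) ≠ 0 then 1 else 0) ≤ N.e w := by
    intro hwr
    rw [hV.e_eq w hw]
    have h1 := Finset.single_le_sum (s := range 8)
      (f := fun p => (if N.rd w p = true then 2 else 0) +
        (if N.wr w p = true then 4 + (if N.l2 w p ≠ 0 then 1 else 0) else 0))
      (fun _ _ => Nat.zero_le _) (mem_range.2 hb)
    refine le_trans ?_ h1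
    show _ ≤ (if N.rd w (b / 2) = true then 2 else 0) +
        (if N.wr w (b / 2) = true then 4 + (if N.l2 w (b / 2) ≠ 0 then 1 else 0) else 0)
    rw [if_pos hwr]
    omega
  rcases h with ⟨hj, hS⟩ | ⟨rfl, hwr, hS⟩ | ⟨rfl, hwr, hS⟩ | ⟨rfl, hwr, hS, hl2⟩
  · have hge := hV.len_ge b w j hp hj
    have hdue : N.due w b j = N.len b w j + (if N.wr w (b / 2) = true then 1 else 0) := by
      unfold Net.due
      rw [if_pos hj]
    rw [hdue]
    rcases hp.2.2 with hrd | hwr
    · have h1 := hV.len_rd b w j hb16 hw hrd hj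
      have h2 := hV.excl w (b / 2) hw hb hrd
      rw [h2, if_neg (by decide)]
      exact ⟨by omega, by omega, hb16, by omega⟩
    · have h1 := hV.len_wr b w j hb16 hw hwr hj
      rw [if_pos hwr]
      exact ⟨by omega, by omega, hb16, by omega⟩
  · have h1 := hsum hwr
    have hdue : N.due w b 2 = 1 := by
      unfold Net.due
      rw [if_neg (by omega)]
    rw [hdue]
    exact ⟨by omega, by omega, hb16, by omega⟩
  · have h1 := hsum hwr
    have hdue : N.due w b 3 = 2 := by
      unfold Net.due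
      rw [if_neg (by omega)]
    rw [hdue]
    exact ⟨by omega, by omega, hb16, by omega⟩
  · have h1 := hsum hwr
    have hdue : N.due w b 4 = 3 := by
      unfold Net.due
      rw [if_neg (by omega)]
    rw [hdue]
    exact ⟨by omega, by omega, hb16, by omega⟩

end Pool.Agent.Lib.MP_711ea9_lc.FH
end

section

set_option autoImplicit false

namespace Pool.Agent.Lib.MP_711ea9_lc.FH

open Finset

variable {N : Net} {k : ℕ} {S : Set Vtx} {w : ℕ}

/-- TASK W5a. The clock rounds of a window. Proof: `t = rho w + u`, `e w < u ≤ 14`: `t / Lam = w`, `t % Lam = 16 + u` (`400 ≤ Lam`), so no slot (`16 + u > 16 + e w`), no guard round (`16 + u ≤ 30 < 33`), `t ≥ 16 > 6`. -/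
theorem win_clk (hV : N.Valid k) {t : ℕ} (h1 : N.rho w + N.e w < t) (h2 : t ≤ N.rho w + 14) :
    N.clk t ∧ 7 ≤ t := by
  have hL := hV.hLam'
  have he := hV.e_le w
  have hrho : N.rho w = N.Lam * w + 16 := rfl
  obtain ⟨hq, hr⟩ : t / N.Lam = w ∧ t % N.Lam = t - N.Lam * w := by
    have h3 : t = (t - N.Lam * w) + N.Lam * w := by omega
    constructor
    · rw [h3, Nat.add_mul_div_left _ _ (by omega : 0 < N.Lam), Nat.div_eq_of_lt (by omega),
        Nat.zero_add]
    · conv_lhs => rw [h3]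
      rw [Nat.add_mul_mod_self_left, Nat.mod_eq_of_lt (by omega)]
  refine ⟨⟨by omega, Or.inr ⟨?_, ?_⟩⟩, by omega⟩
  · rintro ⟨_, h4, h5⟩
    rw [hq] at h5
    rw [hr] at h4 h5
    omega
  · rintro ⟨h4, h5⟩
    rw [hr] at h4 h5
    omega

/-- TASK W5b. Each clock round of the window has a due vertex on its strand.
Proof. `clk_unit` with `i0 = rho w ≥ 16` (`hp` by `path_burn` from `hW.inv.b`; `rho w ≤ T`), `max t 6 = t`, `t ≤ rho w + 14 ≤ T`; the door does not burn (`hW.nodoor`, `Net.F_mono`). Not due before: `fresh_pd` (`j > rho w`; `t > rho w`). -/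
theorem win_unit (hW : N.Win S k w) {t : ℕ} (h1 : N.rho w + N.e w < t) (h2 : t ≤ N.rho w + 14) :
    ∃ v, v ∈ N.H S t ∧ v ∉ N.H S (N.rho w) ∧ (N.zone w v).1 = N.cs t ∧
      ((∃ j, N.rho w < j ∧ j < t ∧ v = Vtx.path (N.cs t) j) ∨ v = Vtx.door (N.cs t) t) := by
  have hV := hW.valid
  have hL := hV.hLam'
  have hrho : N.rho w = N.Lam * w + 16 := rfl
  have h3 := Net.rho_lt (N := N) hW.hw
  have h4 := hV.hT
  obtain ⟨hc, h7⟩ := win_clk hV h1 h2
  have h := clk_unit hV (S := S) (i0 := N.rho w) (t := t) (Or.inr (by omega))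
    (fun σ s hσ hs1 hs2 => path_burn hW.inv.b (by omega) hσ hs1 hs2) (by omega) (by omega) hc
  rw [max_eq_left (by omega : 6 ≤ t)] at h
  rcases h with h | ⟨v, hv, ⟨j, hj1, hj2, hj⟩ | hj⟩
  · exact absurd (Net.F_mono h2 h) (hW.nodoor _ _)
  · subst hj
    exact ⟨_, hv, (fresh_pd hW hj1).1, rfl, Or.inl ⟨j, hj1, hj2, rfl⟩⟩
  · subst hj
    exact ⟨_, hv, (fresh_pd hW (by omega)).2, rfl, Or.inr rfl⟩

/-- TASK W5c. The counting inequality in a window.
Proof. Choose `v t` by `win_unit` for `t ∈ Ioc (rho w + e w) i`. The finset `W' = W ∪ image v (Ioc (rho w + e w) i)`: `v` is injective (`cs_inj`, `win_clk`; `i - rho w ≤ 14 ≤ K`) and its values have strand `≥ 16` (`cs_bounds`), so the union is disjoint, with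
`W.card + (i - (rho w + e w))` elements, all in `H i` and not in `H (rho w)`. `new_due` (F2d) with `rho w ≤ i`. -/
theorem win_count (hW : N.Win S k w) {i : ℕ} (h1 : N.rho w ≤ i) (h2 : i ≤ N.rho w + 14)
    (W : Finset Vtx)
    (hWf : ∀ v ∈ W, v ∈ N.H S i ∧ v ∉ N.H S (N.rho w) ∧ (N.zone w v).1 < 16) :
    (i - (N.rho w + N.e w)) + W.card ≤ i - N.rho w := by
  have hV := hW.valid
  have hex : ∀ t, ∃ v, N.rho w + N.e w < t → t ≤ N.rho w + 14 →
      v ∈ N.H S t ∧ v ∉ N.H S (N.rho w) ∧ (N.zone w v).1 = N.cs t := by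
    intro t
    by_cases h : N.rho w + N.e w < t ∧ t ≤ N.rho w + 14
    · obtain ⟨v, hv1, hv2, hv3, -⟩ := win_unit hW h.1 h.2
      exact ⟨v, fun _ _ => ⟨hv1, hv2, hv3⟩⟩
    · exact ⟨Vtx.src 0, fun h3 h4 => absurd ⟨h3, h4⟩ h⟩
  choose v hv using hex
  have hK := hV.hK
  have hinj : Set.InjOn v (Ioc (N.rho w + N.e w) i : Finset ℕ) := by
    intro a ha b hb hab
    rw [Finset.mem_coe, Finset.mem_Ioc] at ha hb
    have hva := hv a ha.1 (by omega)
    have hvb := hv b hb.1 (by omega)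
    refine cs_inj hV (i0 := N.rho w) (i := i) (by omega) (Finset.mem_Ioc.2 ⟨by omega, ha.2⟩)
      (Finset.mem_Ioc.2 ⟨by omega, hb.2⟩) (win_clk hV ha.1 (by omega)).1
      (win_clk hV hb.1 (by omega)).1 ?_
    rw [← hva.2.2, ← hvb.2.2, hab]
  have hdisj : Disjoint W ((Ioc (N.rho w + N.e w) i).image v) := by
    rw [Finset.disjoint_left]
    intro u hu hu'
    obtain ⟨t, ht, rfl⟩ := Finset.mem_image.1 hu'
    rw [Finset.mem_Ioc] at ht
    have h3 := (hWf _ hu).2.2
    rw [(hv t ht.1 (by omega)).2.2] at h3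
    have := (cs_bounds hV (win_clk hV ht.1 (by omega)).1).1
    omega
  have hnd := new_due hW.run hW.inv h1 (W ∪ (Ioc (N.rho w + N.e w) i).image v) (by
    intro u hu
    rcases Finset.mem_union.1 hu with hu | hu
    · exact ⟨(hWf u hu).1, (hWf u hu).2.1⟩
    · obtain ⟨t, ht, rfl⟩ := Finset.mem_image.1 hu
      rw [Finset.mem_Ioc] at ht
      have h3 := hv t ht.1 (by omega)
      exact ⟨Net.H_mono ht.2 h3.1, h3.2.1⟩)
  rw [Finset.card_union_of_disjoint hdisj, Finset.card_image_of_injOn hinj, Nat.card_Ioc] at hnd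
  omega

/-- TASK W5d. The same with one more vertex of a clock strand which is blocked for the first time.
Proof. As W5c, with the additional vertex `z = path σ t ∈ H t ⊆ H i` (`t ≤ i`), `16 ≤ σ`. It is not in `W` (class `σ ≥ 16`), not in `H (rho w)` (`fresh_pd`), and different from all `v t'`, `t' ∈ Ioc (rho w + e w) i`: if `v t' = path σ t` then `cs t' = σ`
and `t < t'`, so (as `t' ≤ i = max t (rho w + e w)` and `t < t'`) `t' ≤ rho w + e w`, a contradiction. So `new_due` gives `rho w + (W.card + (i - (rho w + e w)) + 1) ≤ i`. -/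
theorem win_count' (hW : N.Win S k w) {σ t i : ℕ} (h1 : N.rho w < t) (h2 : t ≤ N.rho w + 14)
    (hi : i = max t (N.rho w + N.e w)) (hσ : 16 ≤ σ) (hz : Vtx.path σ t ∈ N.H S t)
    (W : Finset Vtx)
    (hWf : ∀ v ∈ W, v ∈ N.H S i ∧ v ∉ N.H S (N.rho w) ∧ (N.zone w v).1 < 16) :
    (i - (N.rho w + N.e w)) + W.card + 1 ≤ i - N.rho w := by
  have hV := hW.valid
  have he7 := hV.e_le w
  have hi14 : i ≤ N.rho w + 14 := by rw [hi]; exact max_le h2 (by omega)
  have hti : t ≤ i := hi ▸ le_max_left _ _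
  have hcase : ∀ t', N.rho w + N.e w < t' → t' ≤ i → t' ≤ t := by
    intro t' h3 h4
    rw [hi] at h4
    rcases le_max_iff.1 h4 with h4 | h4
    · exact h4
    · omega
  clear hi
  have hex : ∀ t, ∃ v, N.rho w + N.e w < t → t ≤ N.rho w + 14 →
      v ∈ N.H S t ∧ v ∉ N.H S (N.rho w) ∧ (N.zone w v).1 = N.cs t ∧
      ((∃ j, N.rho w < j ∧ j < t ∧ v = Vtx.path (N.cs t) j) ∨ v = Vtx.door (N.cs t) t) := by
    intro t
    by_cases h : N.rho w + N.e w < t ∧ t ≤ N.rho w + 14
    · obtain ⟨v, hv⟩ := win_unit hW h.1 h.2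
      exact ⟨v, fun _ _ => hv⟩
    · exact ⟨Vtx.src 0, fun h3 h4 => absurd ⟨h3, h4⟩ h⟩
  choose v hv using hex
  have hK := hV.hK
  have hinj : Set.InjOn v (Ioc (N.rho w + N.e w) i : Finset ℕ) := by
    intro a ha b hb hab
    rw [Finset.mem_coe, Finset.mem_Ioc] at ha hb
    have hva := hv a ha.1 (by omega)
    have hvb := hv b hb.1 (by omega)
    refine cs_inj hV (i0 := N.rho w) (i := i) (by omega) (Finset.mem_Ioc.2 ⟨by omega, ha.2⟩)
      (Finset.mem_Ioc.2 ⟨by omega, hb.2⟩) (win_clk hV ha.1 (by omega)).1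
      (win_clk hV hb.1 (by omega)).1 ?_
    rw [← hva.2.2.1, ← hvb.2.2.1, hab]
  have hdisj : Disjoint W ((Ioc (N.rho w + N.e w) i).image v) := by
    rw [Finset.disjoint_left]
    intro u hu hu'
    obtain ⟨t, ht, rfl⟩ := Finset.mem_image.1 hu'
    rw [Finset.mem_Ioc] at ht
    have h3 := (hWf _ hu).2.2
    rw [(hv t ht.1 (by omega)).2.2.1] at h3
    have := (cs_bounds hV (win_clk hV ht.1 (by omega)).1).1
    omega
  have hz1 : Vtx.path σ t ∉ W ∪ (Ioc (N.rho w + N.e w) i).image v := by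
    intro hz'
    rcases Finset.mem_union.1 hz' with hz' | hz'
    · have h3 : σ < 16 := (hWf _ hz').2.2
      omega
    · obtain ⟨t', ht', hvt⟩ := Finset.mem_image.1 hz'
      rw [Finset.mem_Ioc] at ht'
      have h3 := hcase t' ht'.1 ht'.2
      rcases (hv t' ht'.1 (by omega)).2.2.2 with ⟨j, hj1, hj2, hj⟩ | hj
      · rw [hvt] at hj
        injection hj with h4 h5
        omega
      · rw [hvt] at hj
        exact absurd hj (by simp)
  have hnd := new_due hW.run hW.inv (by omega : N.rho w ≤ i)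
    (insert (Vtx.path σ t) (W ∪ (Ioc (N.rho w + N.e w) i).image v)) (by
    intro u hu
    rcases Finset.mem_insert.1 hu with rfl | hu
    · exact ⟨Net.H_mono hti hz, (fresh_pd hW h1).1⟩
    rcases Finset.mem_union.1 hu with hu | hu
    · exact ⟨(hWf u hu).1, (hWf u hu).2.1⟩
    · obtain ⟨t, ht, rfl⟩ := Finset.mem_image.1 hu
      rw [Finset.mem_Ioc] at ht
      have h3 := hv t ht.1 (by omega)
      exact ⟨Net.H_mono ht.2 h3.1, h3.2.1⟩)
  rw [Finset.card_insert_of_notMem hz1, Finset.card_union_of_disjoint hdisj,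
    Finset.card_image_of_injOn hinj, Nat.card_Ioc] at hnd
  omega

end Pool.Agent.Lib.MP_711ea9_lc.FH
end

section

set_option autoImplicit false

namespace Pool.Agent.Lib.MP_711ea9_lc.FH

open Finset

variable {N : Net} {k : ℕ} {S : Set Vtx} {w : ℕ}

/-- TASK W7a. Exactly one rail of a page which is read has its root in `S`.
Proof. `hI.g` at window `w` (`rho w ≤ rho w`) for `b = 2p`, `2p+1`: `root b w ∈ S ↔ root b w' ∉ S`, `w' = fr w p`; by `hV.source` `w'` is a writer and `w` a target of it, so `w' < w` (`link1`, `link2`), `rho w' + 14 ≤ rho w`, and `hI.f w' p`. (`(2p)/2 = p = (2p+1)/2`.) -/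
theorem read_rails (hW : N.Win S k w) {p : ℕ} (hp : p < 8) (hrd : N.rd w p = true) :
    (Vtx.root (2 * p) w ∈ S ↔ Vtx.root (2 * p + 1) w ∉ S) := by
  have hV := hW.valid
  have e1 : 2 * p / 2 = p := by omega
  have e2 : (2 * p + 1) / 2 = p := by omega
  have hsrc := hV.source w p hW.hw hp hrd
  obtain ⟨h1, h2, h3⟩ := hsrc
  have hlt : N.fr w p < w := by
    rcases h3 with h3 | ⟨h3, h4⟩
    · have := (hV.link1 (N.fr w p) p h1 hp h2).1
      omega
    · have := (hV.link2 (N.fr w p) p h1 hp h2 h3).1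
      have := (hV.link1 (N.fr w p) p h1 hp h2).1
      omega
  have hrho : N.rho (N.fr w p) + 14 ≤ N.rho w := by
    have := Net.rho_lt (N := N) hlt
    have := hV.hLam'
    omega
  have hf := hW.inv.f (N.fr w p) p h1 hrho hp h2
  have g1 := hW.inv.g w (2 * p) hW.hw le_rfl (by omega) (by rw [e1]; exact hrd)
  have g2 := hW.inv.g w (2 * p + 1) hW.hw le_rfl (by omega) (by rw [e2]; exact hrd)
  rw [e1] at g1
  rw [e2] at g2
  tauto

/-- TASK W7b. Not both roots of a written page are in `S`.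
Proof. Otherwise `W = {root (2p) w, root (2p+1) w}` (both in `H (rho w + 1)` by `root_due`, `rt = rho w + 1`; `fresh_root`; strands `< 16`) and `win_count` at `i = rho w + 1` gives `(1 - e w) + 2 ≤ 1`. -/
theorem write_not_both (hW : N.Win S k w) {p : ℕ} (hp : p < 8) (hwr : N.wr w p = true) :
    ¬ (Vtx.root (2 * p) w ∈ S ∧ Vtx.root (2 * p + 1) w ∈ S) := by
  rintro ⟨h1, h2⟩
  have hV := hW.valid
  have e1 : 2 * p / 2 = p := by omega
  have e2 : (2 * p + 1) / 2 = p := by omega
  have hiT : N.rho w ≤ N.T := by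
    have := Net.rho_mono (N := N) hW.hw.le
    have := hV.hT
    omega
  have key : ∀ b, b < 16 → b / 2 = p → Vtx.root b w ∈ S →
      Vtx.root b w ∈ N.H S (N.rho w + 1) ∧ Vtx.root b w ∉ N.H S (N.rho w) := by
    intro b hb hbp hbS
    have hwb : N.wr w (b / 2) = true := by rw [hbp]; exact hwr
    have hport : N.port b w := ⟨hb, hW.hw, Or.inr hwb⟩
    have hrt : N.rt b w = N.rho w + 1 := by simp [Net.rt, hwb]
    have hd := root_due hW.inv.b hiT hW.inv.b' hport hrt.le hbS
    rw [hrt] at hd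
    exact ⟨hd, fresh_root hW hport hwb (Or.inl rfl)⟩
  have k1 := key (2 * p) (by omega) e1 h1
  have k2 := key (2 * p + 1) (by omega) e2 h2
  have hcard : ({Vtx.root (2 * p) w, Vtx.root (2 * p + 1) w} : Finset Vtx).card = 2 := by
    apply Finset.card_pair
    intro h
    simp at h
  have := win_count hW (i := N.rho w + 1) (by omega) (by omega)
    ({Vtx.root (2 * p) w, Vtx.root (2 * p + 1) w} : Finset Vtx) (by
      intro v hv
      simp only [Finset.mem_insert, Finset.mem_singleton] at hv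
      rcases hv with rfl | rfl
      · exact ⟨k1.1, k1.2, by simp only [Net.zone]; omega⟩
      · exact ⟨k2.1, k2.2, by simp only [Net.zone]; omega⟩)
  rw [hcard] at this
  omega

open scoped Classical in
/-- TASK W7c. There are at most `e w` active units.
Proof. For every active `x = (b, j)` there is `v x` with `Wit S w (rho w + 14) x (v x)`: `can_wit` (`due ≤ e w ≤ 7 ≤ 14`, `due_bounds`, `Net.H_mono`) or `non_wit` (first alternative: `rho w + 2 ≤ rho w + 14`). `v` is injective on the active units because `zone w (v x) = x`.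
`win_count` with `i = rho w + 14` and `W` the image: `(14 - e w) + #active ≤ 14`, and `e w ≤ 7` (`hV.e_le`). (`(zone w v).1 = b < 16`.) -/
theorem act_le (hW : N.Win S k w) :
    ((range 16 ×ˢ range 5).filter (fun x => N.act (Net.stS S) w x.1 x.2)).card ≤ N.e w := by
  have hV := hW.valid
  have he7 := hV.e_le w
  set A := (range 16 ×ˢ range 5).filter (fun x => N.act (Net.stS S) w x.1 x.2) with hA
  have hex : ∀ x ∈ A, ∃ v, N.Wit S w (N.rho w + 14) x v := by
    rintro ⟨b, j⟩ hx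
    have ha : N.act (Net.stS S) w b j := (Finset.mem_filter.1 hx).2
    by_cases hc : N.Can S w b j
    · obtain ⟨v, ⟨h1, h2, h3⟩, -⟩ := can_wit hW ha hc
      obtain ⟨-, hd, -, -⟩ := due_bounds hW ha
      exact ⟨v, Net.H_mono (by omega : N.rho w + N.due w b j ≤ N.rho w + 14) h1, h2, h3⟩
    · rcases non_wit hW ha hc with ⟨rfl, h1, h2, h3⟩ | ⟨v, -, -, hv, -⟩
      · exact ⟨_, Net.H_mono (by omega : N.rho w + 2 ≤ N.rho w + 14) h1, h2, h3⟩
      · exact ⟨v, hv⟩
  have : Nonempty Vtx := ⟨Vtx.src 0⟩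
  choose! v hv using hex
  have hinj : Set.InjOn v (A : Set (ℕ × ℕ)) := by
    intro x hx y hy hxy
    have h1 := (hv x hx).2.2
    have h2 := (hv y hy).2.2
    rw [← h1, ← h2, hxy]
  have hcard : (A.image v).card = A.card := Finset.card_image_of_injOn hinj
  have := win_count hW (i := N.rho w + 14) (by omega) le_rfl (A.image v) (by
    intro u hu
    obtain ⟨x, hx, rfl⟩ := Finset.mem_image.1 hu
    obtain ⟨h1, h2, h3⟩ := hv x hx
    refine ⟨h1, h2, ?_⟩
    rw [h3]
    exact Finset.mem_range.1 (Finset.mem_product.1 (Finset.mem_filter.1 hx).1).1)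
  rw [hcard] at this
  omega

/-- TASK W7d. Exactly one root of a written page is in `S`.
Proof. `write_not_both`; if both are not in `S`: `act_card_gt` (with `st = Net.stS S`, `h` from `read_rails`) against `act_le`. -/
theorem write_rails (hW : N.Win S k w) {p : ℕ} (hp : p < 8) (hwr : N.wr w p = true) :
    (Vtx.root (2 * p) w ∈ S ↔ Vtx.root (2 * p + 1) w ∉ S) := by
  have hnb := write_not_both hW hp hwr
  constructor
  · intro h1 h2
    exact hnb ⟨h1, h2⟩
  · intro h2
    by_contra h1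
    have h := act_card_gt hW.valid hW.hw (Net.stS S)
      (fun q hq hr => read_rails hW hq hr) hp hwr h1 h2
    exact absurd (act_le hW) (by
      have := h
      push Not
      convert this)

open scoped Classical in
/-- TASK W7e. There are exactly `e w` active units. Proof: `act_card_eq` with `read_rails`, `write_rails`. -/
theorem act_eq (hW : N.Win S k w) :
    ((range 16 ×ˢ range 5).filter (fun x => N.act (Net.stS S) w x.1 x.2)).card = N.e w := by
  have := act_card_eq hW.valid hW.hw (Net.stS S) (fun p hp h => by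
    rcases h with h | h
    · exact read_rails hW hp h
    · exact write_rails hW hp h)
  convert this

end Pool.Agent.Lib.MP_711ea9_lc.FH
end

section

set_option autoImplicit false

namespace Pool.Agent.Lib.MP_711ea9_lc.FH

open Finset

variable {N : Net} {k : ℕ} {S : Set Vtx} {w : ℕ}

/-- A witness at time `rho w + 14` for an active unit. -/
private theorem w8_wit (hW : N.Win S k w) {b j : ℕ} (ha : N.act (Net.stS S) w b j) :
    ∃ v, N.Wit S w (N.rho w + 14) (b, j) v := by
  have hd := due_bounds hW ha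
  have he := hW.valid.e_le w
  by_cases hc : N.Can S w b j
  · obtain ⟨v, ⟨h1, h2, h3⟩, -⟩ := can_wit hW ha hc
    exact ⟨v, Net.H_mono (show N.rho w + N.due w b j ≤ N.rho w + 14 by omega) h1, h2, h3⟩
  · rcases non_wit hW ha hc with ⟨rfl, h1, h2, h3⟩ | ⟨v, -, -, h, -⟩
    · exact ⟨_, Net.H_mono (show N.rho w + 2 ≤ N.rho w + 14 by omega) h1, h2, h3⟩
    · exact ⟨v, h⟩

/-- TASK W8a. No active unit costs two vertices.
Proof. Choose witnesses `v x` at time `rho w + 14` for all active units as in `act_le`, and for `x0 = (b, j)` take `v x0 = u`. Then `W = image v ∪ {u'}` has `e w + 1` elements (`act_eq`; `u' ≠ u` has class `x0`, so `u'` is not in the image). `win_count` at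
`i = rho w + 14`: `(14 - e w) + (e w + 1) ≤ 14`, and `e w ≤ 7`: contradiction. -/
theorem no_double (hW : N.Win S k w) {b j : ℕ} (ha : N.act (Net.stS S) w b j) {u u' : Vtx}
    (hu : u ≠ u') (h1 : N.Wit S w (N.rho w + 14) (b, j) u)
    (h2 : N.Wit S w (N.rho w + 14) (b, j) u') : False := by
  classical
  have hd := due_bounds hW ha
  have he := hW.valid.e_le w
  set A : Finset (ℕ × ℕ) := (range 16 ×ˢ range 5).filter (fun x => N.act (Net.stS S) w x.1 x.2)
    with hA
  have hcard : A.card = N.e w := act_eq hW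
  have hex : ∀ x : ℕ × ℕ, ∃ v, x ∈ A → N.Wit S w (N.rho w + 14) x v ∧ v ≠ u' := by
    intro x
    by_cases hx : x ∈ A
    · by_cases hx0 : x = (b, j)
      · exact ⟨u, fun _ => ⟨by rw [hx0]; exact h1, hu⟩⟩
      · obtain ⟨v, hv⟩ := w8_wit (b := x.1) (j := x.2) hW (mem_filter.1 hx).2
        refine ⟨v, fun _ => ⟨hv, fun hvu => hx0 ?_⟩⟩
        have e1 : N.zone w v = x := hv.2.2
        rw [hvu, h2.2.2] at e1
        exact e1.symm
    · exact ⟨u, fun h => absurd h hx⟩
  choose v hv using hex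
  have hinj : Set.InjOn v (A : Set (ℕ × ℕ)) := by
    intro x hx y hy hxy
    have e1 : N.zone w (v x) = x := (hv x hx).1.2.2
    have e2 : N.zone w (v y) = y := (hv y hy).1.2.2
    rw [hxy, e2] at e1
    exact e1.symm
  have hnot : u' ∉ image v A := by
    intro h
    rw [mem_image] at h
    obtain ⟨x, hx, hxu⟩ := h
    exact (hv x hx).2 hxu
  have hc := win_count hW (i := N.rho w + 14) (by omega) le_rfl (insert u' (image v A)) (by
    intro z hz
    rcases mem_insert.1 hz with rfl | hz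
    · exact ⟨h2.1, h2.2.1, by rw [h2.2.2]; exact hd.2.2.1⟩
    · obtain ⟨x, hx, rfl⟩ := mem_image.1 hz
      have hx1 := (hv x hx).1
      refine ⟨hx1.1, hx1.2.1, ?_⟩
      rw [hx1.2.2]
      exact mem_range.1 (mem_product.1 (mem_filter.1 hx).1).1)
  rw [card_insert_of_notMem hnot, card_image_of_injOn hinj, hcard] at hc
  omega

/-- TASK W8b. All active units are met in the cheapest way.
Proof. Suppose not; `non_wit`; the second alternative is excluded by `no_double`. So `j = 4`, and `nod b w` is a witness at time `rho w + 2`; `root b w ∉ S`, `wr w (b/2)`. Let `p = b / 2` and `b'` the other rail (`b' = 2p` or `2p+1`, `b' ≠ b`); `root b' w ∈ S` by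
`write_rails`; it is in `H (rho w + 1)` (`root_due`, `rt = rho w + 1`), fresh (`fresh_root`). The unit `(b, 3)` is active; it is `Can` (else `non_wit` for `j = 3` gives two witnesses, `no_double`), so by `can_wit` it has a witness at `rho w + 2` (`due w b 3 = 2`), of class `(b, 3)`. So
`W = {root b' w, witness, nod b w}` (classes `(b', 2)`, `(b, 3)`, `(b, 4)`: three elements) and `win_count` at `i = rho w + 2`: `(2 - e w) + 3 ≤ 2`. -/
theorem all_can (hW : N.Win S k w) {b j : ℕ} (ha : N.act (Net.stS S) w b j) :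
    N.Can S w b j := by
  classical
  by_contra hc
  rcases non_wit hW ha hc with ⟨rfl, hn⟩ | ⟨v, v', hne, h1, h2⟩
  swap
  · exact no_double hW ha hne h1 h2
  have hb16 : b < 16 := (due_bounds hW ha).2.2.1
  obtain ⟨hp, hcase⟩ := ha
  have hwr : N.wr w (b / 2) = true ∧ ¬ Net.stS S b w ∧ N.l2 w (b / 2) ≠ 0 := by
    rcases hcase with h | h | h | h
    · omega
    · omega
    · omega
    · exact ⟨h.2.1, h.2.2.1, h.2.2.2⟩
  obtain ⟨hwr, hst, hl2⟩ := hwr
  -- the other rail
  obtain ⟨b', hb', hb'2, hbb, hroot⟩ : ∃ b', b' < 16 ∧ b' / 2 = b / 2 ∧ b' ≠ b ∧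
      Vtx.root b' w ∈ S := by
    have hp8 : b / 2 < 8 := by omega
    have hwrr := write_rails hW hp8 hwr
    have hst' : Vtx.root b w ∉ S := hst
    rcases Nat.even_or_odd' b with ⟨m, hm | hm⟩
    · refine ⟨2 * (b / 2) + 1, by omega, by omega, by omega, ?_⟩
      have hb2 : 2 * (b / 2) = b := by omega
      rw [hb2] at hwrr ⊢
      by_contra hcon
      exact hst' (hwrr.2 hcon)
    · refine ⟨2 * (b / 2), by omega, by omega, by omega, ?_⟩
      have hb2 : 2 * (b / 2) + 1 = b := by omega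
      rw [hb2] at hwrr
      exact hwrr.2 hst'
  have hp' : N.port b' w := ⟨hb', hW.hw, Or.inr (by rw [hb'2]; exact hwr)⟩
  have hwr' : N.wr w (b' / 2) = true := by rw [hb'2]; exact hwr
  have hrt : N.rt b' w = N.rho w + 1 := by
    unfold Net.rt
    rw [if_pos hwr']
  have hT : N.rho w ≤ N.T := by
    have h1 := Net.rho_mono (N := N) (le_of_lt hW.hw)
    have h2 := hW.valid.hT
    omega
  have hrd := root_due hW.inv.b hT hW.inv.b' hp' (by omega) hroot
  rw [hrt] at hrd
  have hfr := fresh_root hW hp' hwr' (w' := w) (Or.inl rfl)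
  -- the unit (b, 3)
  have ha3 : N.act (Net.stS S) w b 3 := ⟨hp, Or.inr (Or.inr (Or.inl ⟨rfl, hwr, hst⟩))⟩
  have hc3 : N.Can S w b 3 := by
    by_contra hc3
    rcases non_wit hW ha3 hc3 with ⟨h, -⟩ | ⟨v, v', hne, h1, h2⟩
    · omega
    · exact no_double hW ha3 hne h1 h2
  obtain ⟨v3, ⟨h31, h32, h33⟩, -⟩ := can_wit hW ha3 hc3
  have hd3 : N.due w b 3 = 2 := by unfold Net.due; simp
  rw [hd3] at h31
  have hz1 : N.zone w (Vtx.root b' w) = (b', 2) := by simp [Net.zone]
  have hz3 : N.zone w (Vtx.nod b w) = (b, 4) := hn.2.2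
  have hne1 : Vtx.root b' w ≠ v3 := by
    intro h
    have e := congrArg (N.zone w) h
    rw [hz1, h33, Prod.mk.injEq] at e
    omega
  have hne2 : Vtx.root b' w ≠ Vtx.nod b w := by
    intro h; cases h
  have hne3 : v3 ≠ Vtx.nod b w := by
    intro h
    have e := congrArg (N.zone w) h
    rw [hz3, h33, Prod.mk.injEq] at e
    omega
  have hcount := win_count hW (i := N.rho w + 2) (by omega) (by omega)
    {Vtx.root b' w, v3, Vtx.nod b w} (by
      intro z hz
      simp only [mem_insert, mem_singleton] at hz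
      rcases hz with rfl | rfl | rfl
      · exact ⟨Net.H_mono (show N.rho w + 1 ≤ N.rho w + 2 by omega) hrd, hfr, by
          rw [hz1]; exact hb'⟩
      · exact ⟨h31, h32, by rw [h33]; exact hb16⟩
      · exact ⟨hn.1, hn.2.1, by rw [hz3]; exact hb16⟩)
  have hcard : ({Vtx.root b' w, v3, Vtx.nod b w} : Finset Vtx).card = 3 :=
    card_eq_three.2 ⟨_, _, _, hne1, hne2, hne3, rfl⟩
  rw [hcard] at hcount
  omega

open scoped Classical in
/-- TASK W8c. The witnesses in time: for every `τ` there is a finset of `cnt w τ` data vertices due by `rho w + τ` which are new.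
Proof. Choose `v x` by `can_wit` (`all_can`) for the active units with `due ≤ τ` (`Net.H_mono`); image of the filter in `Net.cnt`; injective as `zone w (v x) = x`; `x.1 < 16` from `range 16`. -/
theorem wit_set (hW : N.Win S k w) (τ : ℕ) :
    ∃ W : Finset Vtx, W.card = N.cnt (Net.stS S) w τ ∧
      ∀ v ∈ W, v ∈ N.H S (N.rho w + τ) ∧ v ∉ N.H S (N.rho w) ∧ (N.zone w v).1 < 16 ∧
        Net.dat v := by
  set A : Finset (ℕ × ℕ) := (range 16 ×ˢ range 5).filter
    (fun x => N.act (Net.stS S) w x.1 x.2 ∧ N.due w x.1 x.2 ≤ τ) with hA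
  have hex : ∀ x : ℕ × ℕ, ∃ v, x ∈ A → N.Wit S w (N.rho w + τ) x v ∧ Net.dat v := by
    intro x
    by_cases hx : x ∈ A
    · have hx2 := (mem_filter.1 hx).2
      obtain ⟨v, ⟨h1, h2, h3⟩, h4⟩ := can_wit hW hx2.1 (all_can hW hx2.1)
      exact ⟨v, fun _ => ⟨⟨Net.H_mono (Nat.add_le_add_left hx2.2 _) h1, h2, h3⟩, h4⟩⟩
    · exact ⟨Vtx.src 0, fun h => absurd h hx⟩
  choose v hv using hex
  have hinj : Set.InjOn v (A : Set (ℕ × ℕ)) := by
    intro x hx y hy hxy
    have e1 : N.zone w (v x) = x := (hv x hx).1.2.2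
    have e2 : N.zone w (v y) = y := (hv y hy).1.2.2
    rw [hxy, e2] at e1
    exact e1.symm
  refine ⟨image v A, ?_, ?_⟩
  · rw [card_image_of_injOn hinj]
    rfl
  · intro z hz
    obtain ⟨x, hx, rfl⟩ := mem_image.1 hz
    have hx1 := (hv x hx).1
    refine ⟨hx1.1, hx1.2.1, ?_, (hv x hx).2⟩
    rw [hx1.2.2]
    exact mem_range.1 (mem_product.1 (mem_filter.1 hx).1).1

/-- TASK W8d. The timetable is met. Proof: `wit_set` and `win_count` at `i = rho w + τ` (`τ ≤ 7`): `(τ - e w) + cnt ≤ τ`; so `cnt ≤ τ`; and if `e w < τ`, `cnt ≤ e w`. -/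
theorem win_ok (hW : N.Win S k w) : N.Ok (Net.stS S) w := by
  intro τ hτ
  obtain ⟨W, h1, h2⟩ := wit_set hW τ
  have h3 := win_count hW (i := N.rho w + τ) (by omega) (by omega) W
    (fun v hv => ⟨(h2 v hv).1, (h2 v hv).2.1, (h2 v hv).2.2.1⟩)
  rw [h1] at h3
  rw [le_min_iff]
  omega

open scoped Classical in
/-- TASK W8e. `cnt w (e w) = e w`. Proof: all active units have `due ≤ e w` (`due_bounds`), so the filter is that of `act_eq`. -/
theorem cnt_e (hW : N.Win S k w) : N.cnt (Net.stS S) w (N.e w) = N.e w := by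
  have h := act_eq hW
  rw [← h]
  unfold Net.cnt
  congr 1
  apply filter_congr
  intro x _
  constructor
  · intro hx; exact hx.1
  · intro hx
    refine ⟨hx, ?_⟩
    rw [h]
    exact (due_bounds hW hx).2.1

end Pool.Agent.Lib.MP_711ea9_lc.FH
end

section

set_option autoImplicit false

namespace Pool.Agent.Lib.MP_711ea9_lc.FH

open Finset

variable {N : Net} {k : ℕ} {S : Set Vtx} {w : ℕ}

private theorem W9_rho_T (hW : N.Win S k w) : N.rho w + 14 ≤ N.T := by
  have h1 := hW.valid.hT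
  have h2 := Net.rho_mono (N := N) hW.hw.le
  omega

/-- TASK W9a. No strand is blocked inside a window.
Proof. Suppose `path σ t ∈ S` with `rho w < t ≤ rho w + 14`, `σ < 16 + K`; take the least `t` with `rho w < t`, `path σ t ∈ S` (`Nat.find`). Then `path σ (t - 1) ∈ F (t - 1)` (`path_burn` with `i = t - 1`; the hypothesis `hb` is needed for this `σ` only, so redo the induction: for `rho w ≤ s < t`,
`path σ s ∈ F s`, starting with `path_burn` at `rho w ≥ 16`), so `path σ t ∈ H t`. Let `i = max t (rho w + e w) ≤ rho w + 14`, `W` the set of `wit_set` for `τ = e w` (card `e w` by `cnt_e`), in `H (rho w + e w) ⊆ H i`.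
If `16 ≤ σ`: `win_count'`: `(i - (rho w + e w)) + e w + 1 ≤ i - rho w`, false. If `σ < 16`: `W ∪ {path σ t}` has `e w + 1` elements (`W` consists of `dat` vertices), `path σ t` is fresh (`fresh_pd`) with class `σ < 16`: `win_count`: `(i - (rho w + e w)) + (e w + 1) ≤ i - rho w`, false. -/
theorem win_path (hW : N.Win S k w) {σ t : ℕ} (hσ : σ < 16 + N.K) (h1 : N.rho w < t)
    (h2 : t ≤ N.rho w + 14) : Vtx.path σ t ∉ S := by
  classical
  intro hmem
  have hV := hW.valid
  have hT := W9_rho_T hW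
  have he := hV.e_le w
  have hex : ∃ t, N.rho w < t ∧ Vtx.path σ t ∈ S := ⟨t, h1, hmem⟩
  obtain ⟨hu1, hu2⟩ := Nat.find_spec hex
  have hmin : ∀ s, s < Nat.find hex → ¬ (N.rho w < s ∧ Vtx.path σ s ∈ S) :=
    fun s hs => Nat.find_min hex hs
  have hle : Nat.find hex ≤ t := Nat.find_min' hex ⟨h1, hmem⟩
  generalize Nat.find hex = u at hu1 hu2 hmin hle
  have h16 : 16 ≤ N.rho w := by
    unfold Net.rho
    omega
  have hburn : ∀ s, N.rho w ≤ s → s < u → Vtx.path σ s ∈ N.F S s := by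
    intro s hs
    induction s, hs using Nat.le_induction with
    | base =>
      intro _
      exact path_burn hW.inv.b (by omega) hσ (by omega) le_rfl
    | succ s hs ih =>
      intro hsu
      have h3 : Vtx.path σ (s + 1) ∉ S := fun h => hmin (s + 1) hsu ⟨by omega, h⟩
      refine Net.burns (ih (by omega)) (Net.adj_of_E ?_) h3
      show _ ∧ _
      refine ⟨rfl, by omega, by omega, rfl, by omega⟩
  have hz : Vtx.path σ u ∈ N.H S u := by
    have h3 := hburn (u - 1) (by omega) (by omega)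
    have h4 : N.G.Adj (Vtx.path σ (u - 1)) (Vtx.path σ u) := by
      refine Net.adj_of_E ?_
      show _ ∧ _
      refine ⟨rfl, by omega, by omega, by omega, by omega⟩
    have h5 := Net.dues h3 h4 hu2
    rwa [show u - 1 + 1 = u by omega] at h5
  obtain ⟨W, hWc, hWf⟩ := wit_set hW (N.e w)
  rw [cnt_e hW] at hWc
  by_cases h16σ : 16 ≤ σ
  · have h3 := win_count' hW (i := max u (N.rho w + N.e w)) hu1 (by omega) rfl h16σ hz W
      (fun v hv => ⟨Net.H_mono (le_max_right _ _) (hWf v hv).1, (hWf v hv).2.1, (hWf v hv).2.2.1⟩)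
    omega
  · have hnot : Vtx.path σ u ∉ W := fun h => (hWf _ h).2.2.2
    have h3 := win_count hW (i := max u (N.rho w + N.e w)) (by omega) (by omega)
      (insert (Vtx.path σ u) W) (by
        intro v hv
        rcases Finset.mem_insert.1 hv with rfl | hv
        · refine ⟨Net.H_mono (le_max_left _ _) hz, (fresh_pd hW hu1).1, ?_⟩
          show σ < 16
          omega
        · exact ⟨Net.H_mono (le_max_right _ _) (hWf v hv).1, (hWf v hv).2.1, (hWf v hv).2.2.1⟩)
    rw [Finset.card_insert_of_notMem hnot] at h3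
    omega

/-- TASK W9b. The number of due vertices at the end of the window.
Proof. `H (rho w + 14)` contains `H (rho w)` (encard `≥ rho w`), the `e w` vertices of `wit_set` (`τ = e w`, `cnt_e`; `e w ≤ 7`) and the `14 - e w` vertices of `win_unit`, `t ∈ Ioc (rho w + e w) (rho w + 14)` (injective by `cs_inj`, strands `≥ 16`), all new and different. -/
theorem win_card (hW : N.Win S k w) :
    ((N.rho w + 14 : ℕ) : ℕ∞) ≤ (N.H S (N.rho w + 14)).encard := by
  classical
  have hV := hW.valid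
  have he := hV.e_le w
  obtain ⟨W, hWc, hWf⟩ := wit_set hW (N.e w)
  rw [cnt_e hW] at hWc
  have hK := hV.hK
  have hch : ∀ t, t ∈ Finset.Ioc (N.rho w + N.e w) (N.rho w + 14) →
      ∃ v, v ∈ N.H S t ∧ v ∉ N.H S (N.rho w) ∧ (N.zone w v).1 = N.cs t := by
    intro t ht
    rw [Finset.mem_Ioc] at ht
    obtain ⟨v, h1, h2, h3, -⟩ := win_unit hW ht.1 ht.2
    exact ⟨v, h1, h2, h3⟩
  haveI : Inhabited Vtx := ⟨Vtx.src 0⟩
  choose! v hv1 hv2 hv3 using hch
  have hinj : Set.InjOn v ((Finset.Ioc (N.rho w + N.e w) (N.rho w + 14) : Finset ℕ) : Set ℕ) := by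
    intro t ht t' ht' h
    rw [Finset.mem_coe] at ht ht'
    have h1 := hv3 t ht
    rw [h, hv3 t' ht'] at h1
    have ht2 := Finset.mem_Ioc.1 ht
    have ht2' := Finset.mem_Ioc.1 ht'
    exact cs_inj hV (i0 := N.rho w + N.e w) (i := N.rho w + 14) (by omega) ht ht'
      (win_clk hV ht2.1 ht2.2).1 (win_clk hV ht2'.1 ht2'.2).1 h1.symm
  have hVc : ((Finset.Ioc (N.rho w + N.e w) (N.rho w + 14)).image v).card = 14 - N.e w := by
    rw [Finset.card_image_of_injOn hinj, Nat.card_Ioc]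
    omega
  have hdis : Disjoint W ((Finset.Ioc (N.rho w + N.e w) (N.rho w + 14)).image v) := by
    rw [Finset.disjoint_left]
    intro x hx hx'
    obtain ⟨t, ht, rfl⟩ := Finset.mem_image.1 hx'
    have h1 := (hWf _ hx).2.2.1
    rw [hv3 t ht] at h1
    have ht2 := Finset.mem_Ioc.1 ht
    have h2 := (cs_bounds hV (win_clk hV ht2.1 ht2.2).1).1
    omega
  set Y : Finset Vtx := W ∪ (Finset.Ioc (N.rho w + N.e w) (N.rho w + 14)).image v with hY
  have hYc : Y.card = 14 := by
    rw [hY, Finset.card_union_of_disjoint hdis, hWc, hVc]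
    omega
  have hYf : ∀ x ∈ Y, x ∈ N.H S (N.rho w + 14) ∧ x ∉ N.H S (N.rho w) := by
    intro x hx
    rcases Finset.mem_union.1 hx with hx | hx
    · exact ⟨Net.H_mono (by omega) (hWf x hx).1, (hWf x hx).2.1⟩
    · obtain ⟨t, ht, rfl⟩ := Finset.mem_image.1 hx
      have ht2 := Finset.mem_Ioc.1 ht
      exact ⟨Net.H_mono ht2.2 (hv1 t ht), hv2 t ht⟩
  have hsub : N.H S (N.rho w) ∪ (Y : Set Vtx) ⊆ N.H S (N.rho w + 14) := by
    rintro x (hx | hx)
    · exact Net.H_mono (by omega) hx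
    · exact (hYf x hx).1
  have hd2 : Disjoint (N.H S (N.rho w)) (Y : Set Vtx) := by
    rw [Set.disjoint_left]
    intro x hx hx'
    exact (hYf x hx').2 hx
  calc ((N.rho w + 14 : ℕ) : ℕ∞) = (N.rho w : ℕ∞) + ((14 : ℕ) : ℕ∞) := by push_cast; rfl
    _ ≤ (N.H S (N.rho w)).encard + (Y : Set Vtx).encard := by
        rw [Set.encard_coe_eq_coe_finsetCard, hYc]
        exact add_le_add hW.inv.a le_rfl
    _ = (N.H S (N.rho w) ∪ (Y : Set Vtx)).encard := (Set.encard_union_eq hd2).symm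
    _ ≤ _ := Set.encard_le_encard hsub

/-- TASK W9c. The window step.
Proof. `a`: `win_card`. `b`: `hW.inv.b` for `t ≤ rho w`, `win_path`. `b'`: `rt b w' + j ≤ rho w + 16`: if `w' ≤ w`, then `rt b w' + j ≤ rho w' + 2 ≤ rho w + 2`: `hW.inv.b'`; if `w < w'` then `rt ≥ rho w' ≥ rho w + 400`. `c`: `hW.nodoor`. `d, e, f, h` for `w' ≠ w`: `rho w' + 14 ≤ rho w + 14` gives
`w' ≤ w` (`Net.rho_lt`), `w' < w`, so `rho w' + 14 ≤ rho w`: `hW.inv`. For `w' = w`: `d`: for `c < 2` the unit `(b, c)` is active (`root b w ∉ S`), `all_can`. `e`: the units `(b, 3)`, and `(b, 4)` if `l2 ≠ 0`. `f`: `write_rails`. `h`: `win_ok`. `g`: `rho w' ≤ rho w + 14` gives `w' ≤ w`, `rho w' ≤ rho w`: `hW.inv.g`. -/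
theorem window_step (hW : N.Win S k w) : N.Inv S (N.rho w + 14) := by
  have hV := hW.valid
  have hL := hV.hLam'
  have hlt : ∀ w', N.rho w' + 14 ≤ N.rho w + 14 → w' ≤ w := by
    intro w' h
    by_contra hcon
    have := Net.rho_lt (N := N) (show w < w' by omega)
    omega
  have hlt2 : ∀ w', N.rho w' + 14 ≤ N.rho w + 14 → w' ≠ w → N.rho w' + 14 ≤ N.rho w := by
    intro w' h hne
    have := Net.rho_lt (N := N) (show w' < w by have := hlt w' h; omega)
    omega
  constructor
  · exact win_card hW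
  · intro σ t hσ h1 h2
    by_cases h : t ≤ N.rho w
    · exact hW.inv.b σ t hσ h1 h
    · exact win_path hW hσ (by omega) h2
  · intro b w' j hp hj h
    by_cases hww : w' ≤ w
    · have h1 := Net.rho_mono (N := N) hww
      have h2 := Net.rt_le (N := N) b w'
      exact hW.inv.b' b w' j hp hj (by omega)
    · have h1 := Net.rho_lt (N := N) (show w < w' by omega)
      have h2 := Net.rho_le_rt (N := N) b w'
      omega
  · exact hW.nodoor
  · intro w' hw' h
    by_cases hww : w' = w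
    · subst hww
      intro b c hp hS hc
      have hact : N.act (Net.stS S) w' b c := ⟨hp, Or.inl ⟨hc, hS⟩⟩
      exact (all_can hW hact).1 hc
    · exact hW.inv.d w' hw' (hlt2 w' h hww)
  · intro w' hw' h
    by_cases hww : w' = w
    · subst hww
      intro b hp hwr hS
      refine ⟨?_, fun h2 => ?_⟩
      · have hact : N.act (Net.stS S) w' b 3 := ⟨hp, Or.inr (Or.inr (Or.inl ⟨rfl, hwr, hS⟩))⟩
        exact (all_can hW hact).2.1 rfl
      · have hact : N.act (Net.stS S) w' b 4 :=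
          ⟨hp, Or.inr (Or.inr (Or.inr ⟨rfl, hwr, hS, h2⟩))⟩
        exact ((all_can hW hact).2.2 rfl).2
    · exact hW.inv.e w' hw' (hlt2 w' h hww)
  · intro w' p hw' h hp hwr
    by_cases hww : w' = w
    · subst hww
      exact write_rails hW hp hwr
    · exact hW.inv.f w' p hw' (hlt2 w' h hww) hp hwr
  · intro w' b hw' h hb hrd
    have h1 : w' ≤ w := by
      by_contra hcon
      have := Net.rho_lt (N := N) (show w < w' by omega)
      omega
    exact hW.inv.g w' b hw' (Net.rho_mono h1) hb hrd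
  · intro w' hw' h
    by_cases hww : w' = w
    · subst hww
      exact win_ok hW
    · exact hW.inv.h w' hw' (hlt2 w' h hww)

end Pool.Agent.Lib.MP_711ea9_lc.FH
end

section

set_option autoImplicit false

namespace Pool.Agent.Lib.MP_711ea9_lc.FH

open Finset

variable {N : Net} {k : ℕ} {S : Set Vtx}

/-- TASK G1a. The invariant from one good time to a later one, all times between being good.
Proof. Induction on `i' ≥ i` (`Nat.le_induction`), `good_step`; `hT` holds for all smaller times. -/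
theorem inv_trans (hV : N.Valid k) (hR : N.Run S k) {i i' : ℕ} (h6 : 6 ≤ i) (hii : i ≤ i')
    (hg : ∀ j, i ≤ j → j ≤ i' → N.good j) (hI : N.Inv S i)
    (hT : i' + 14 + N.k0 * N.tau ≤ N.T) : N.Inv S i' := by
  induction i', hii using Nat.le_induction with
  | base => exact hI
  | succ m hm ih =>
    have hm' := ih (fun j h1 h2 => hg j h1 (by omega)) (by omega)
    exact good_step hV hR (by omega) (hg m hm (by omega)) (hg (m + 1) (by omega) le_rfl) hm'
      (by omega)

private lemma G1_win (hV : N.Valid k) (hR : N.Run S k) {w : ℕ} (hw : w < N.nw)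
    (hI : N.Inv S (N.rho w)) : N.Win S k w := by
  have h1 : N.rho w ≤ N.rho N.nw := Net.rho_mono hw.le
  have h2 := hV.hT
  have h3 : 16 ≤ N.rho w := by
    unfold Net.rho
    omega
  exact ⟨hV, hR, hw, hI, inv_no_leak hV hR (by omega) (good_rho hV w) hI (by omega)⟩

/-- TASK G1b. The invariant at the start of every window.
Proof. Induction on `w`. `w = 0`: `inv_six`, `inv_trans` from 6 to `rho 0 = 16` (times `≤ 16 ≤ rho w'` are good). Step: `Inv (rho w)`, so `Win S k w` (`nodoor` by `inv_no_leak`, `good_rho`, `rho w ≤ rho nw`, `hV.hT`), `window_step`, and `inv_trans` from `rho w + 14` to `rho (w+1)`: a time `j` between is good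
(`rho w' + 14 ≤ j` for `w' ≤ w`, `j ≤ rho w'` for `w' > w`). -/
theorem inv_rho (hV : N.Valid k) (hR : N.Run S k) {w : ℕ} (hw : w < N.nw) :
    N.Inv S (N.rho w) := by
  have hT := hV.hT
  have hL := hV.hLam'
  induction w with
  | zero =>
    have hr : N.rho 0 = 16 := by simp [Net.rho]
    have h0 : N.rho 0 ≤ N.rho N.nw := Net.rho_mono (Nat.zero_le _)
    refine inv_trans hV hR le_rfl (by omega) ?_ (inv_six hV hR) (by omega)
    intro j h1 h2 w' hw'
    left
    have h3 : N.rho 0 ≤ N.rho w' := Net.rho_mono (Nat.zero_le _)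
    omega
  | succ w ih =>
    have hW := G1_win hV hR (by omega) (ih (by omega))
    have h14 := window_step hW
    have h1 : N.rho w + N.Lam ≤ N.rho (w + 1) := Net.rho_lt (Nat.lt_succ_self w)
    have h2 : N.rho (w + 1) ≤ N.rho N.nw := Net.rho_mono hw.le
    refine inv_trans hV hR ?_ (by omega) ?_ h14 (by omega)
    · have h3 : 16 ≤ N.rho w := by
        unfold Net.rho
        omega
      omega
    · intro j h3 h4 w' hw'
      rcases Nat.lt_or_ge w w' with h5 | h5
      · left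
        have h6 : N.rho (w + 1) ≤ N.rho w' := Net.rho_mono h5
        omega
      · right
        have h6 : N.rho w' ≤ N.rho w := Net.rho_mono h5
        omega

/-- TASK G1c. A successful strategy gives a solution of the net: `st b w` is `root b w ∈ S`.
Proof. `Win S k w` as in G1b and `window_step` give `Inv (rho w + 14)`: field `f` gives the first condition (`root (2p) w ∈ S ↔ root (2p+1) w ∉ S`), `g` the second, `h` the third. -/
theorem sol_of_run (hV : N.Valid k) (hR : N.Run S k) : N.Sol := by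
  have hI : ∀ w, w < N.nw → N.Inv S (N.rho w + 14) := fun w hw =>
    window_step (G1_win hV hR hw (inv_rho hV hR hw))
  refine ⟨Net.stS S, ?_, ?_, ?_⟩
  · intro w p hw hp h
    exact (hI w hw).f w p hw le_rfl hp h
  · intro w b hw hb h
    exact (hI w hw).g w b hw (Nat.le_add_right _ _) hb h
  · intro w hw
    exact (hI w hw).h w hw le_rfl

end Pool.Agent.Lib.MP_711ea9_lc.FH
end

section

set_option autoImplicit false

namespace Pool.Agent.Lib.MP_711ea9_lc.FH

open Finset

variable {N : Net} {k : ℕ} {S : Set Vtx} {st : ℕ → ℕ → Prop}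

/-- TASK G4a. `U` is small.
Proof. The set is contained in the union of the images of the following finsets: `{()} ↦ src 0`; `range (22+K) ×ˢ Icc 1 T ↦ path`; `range 16 ×ˢ range nw ×ˢ range 2 ↦ stem`; `range 16 ×ˢ range nw ↦ root`; the same `↦ nod`; `range 16 ×ˢ range nw ×ˢ range 2 ×ˢ range 8 ↦ chain` (`j ≤ len ≤ 7`: `hV.len_rd`, `hV.len_wr`, `hV.e_le`).
Total `1 + (22+K) T + 16 nw (2 + 1 + 1 + 16) = 1 + (22+K) T + 320 nw ≤ (K+24) (T+1) ≤ k`, because `320 nw ≤ 400 nw ≤ Lam nw ≤ T` (`hV.hLam'`, `hV.hT`). -/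
theorem U_card (hV : N.Valid k) (i : ℕ) : {v | N.U S i v}.encard ≤ k := by
  classical
  have hsub : {v | N.U S i v} ⊆
      ↑({Vtx.src 0} ∪
        ((range (22 + N.K) ×ˢ Icc 1 N.T).image (fun x => Vtx.path x.1 x.2) ∪
        ((range 16 ×ˢ (range N.nw ×ˢ range 2)).image (fun x => Vtx.stem x.1 x.2.1 x.2.2) ∪
        ((range 16 ×ˢ range N.nw).image (fun x => Vtx.root x.1 x.2) ∪
        ((range 16 ×ˢ range N.nw).image (fun x => Vtx.nod x.1 x.2) ∪
        (range 16 ×ˢ (range N.nw ×ˢ (range 2 ×ˢ range 8))).image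
          (fun x => Vtx.chain x.1 x.2.1 x.2.2.1 x.2.2.2)))))) := by
    intro v hv
    rw [mem_coe, mem_union, mem_union, mem_union, mem_union, mem_union]
    cases v with
    | src q =>
      left
      rw [mem_singleton]
      exact congrArg Vtx.src hv
    | path σ t =>
      obtain ⟨h1, h2, h3, h4⟩ := hv
      right; left
      exact mem_image.2 ⟨(σ, t), mem_product.2 ⟨mem_range.2 h1, mem_Icc.2 ⟨h2, h4⟩⟩, rfl⟩
    | door σ t => exact absurd hv (fun h => h)
    | reg σ l r x => exact absurd hv (fun h => h)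
    | stem b w j =>
      obtain ⟨h1, h2, h3⟩ := hv
      right; right; left
      exact mem_image.2 ⟨(b, w, j), mem_product.2 ⟨mem_range.2 h1.1,
        mem_product.2 ⟨mem_range.2 h1.2.1, mem_range.2 h2⟩⟩, rfl⟩
    | root b w =>
      obtain ⟨h1, h2⟩ := hv
      right; right; right; left
      exact mem_image.2 ⟨(b, w), mem_product.2 ⟨mem_range.2 h1.1, mem_range.2 h1.2.1⟩, rfl⟩
    | nod b w =>
      obtain ⟨h1, h2⟩ := hv
      right; right; right; right; left
      exact mem_image.2 ⟨(b, w), mem_product.2 ⟨mem_range.2 h1.1, mem_range.2 h1.2.1⟩, rfl⟩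
    | chain b w c j =>
      obtain ⟨h1, h2, h3, h4, h5⟩ := hv
      right; right; right; right; right
      have hl7 : N.len b w c ≤ 7 := by
        obtain ⟨hb, hw, h | h⟩ := h1
        · exact (hV.len_rd b w c hb hw h h2).trans (hV.e_le w)
        · have h6 := hV.len_wr b w c hb hw h h2
          have h7 := hV.e_le w
          omega
      have hj8 : j < 8 := by omega
      exact mem_image.2 ⟨(b, w, c, j), mem_product.2 ⟨mem_range.2 h1.1,
        mem_product.2 ⟨mem_range.2 h1.2.1, mem_product.2 ⟨mem_range.2 h2,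
          mem_range.2 hj8⟩⟩⟩, rfl⟩
  refine (Set.encard_le_encard hsub).trans ?_
  rw [Set.encard_coe_eq_coe_finsetCard]
  refine Nat.cast_le.2 (le_trans ?_ hV.hk')
  have hT := hV.hT
  have hL := hV.hLam'
  have c1 : ((range (22 + N.K) ×ˢ Icc 1 N.T).image (fun x => Vtx.path x.1 x.2)).card ≤
      (22 + N.K) * N.T := by
    refine card_image_le.trans ?_
    rw [card_product, card_range, Nat.card_Icc, Nat.add_sub_cancel]
  have c2 : ((range 16 ×ˢ (range N.nw ×ˢ range 2)).image
      (fun x => Vtx.stem x.1 x.2.1 x.2.2)).card ≤ 16 * (N.nw * 2) := by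
    refine card_image_le.trans ?_
    rw [card_product, card_product, card_range, card_range, card_range]
  have c3 : ((range 16 ×ˢ range N.nw).image (fun x => Vtx.root x.1 x.2)).card ≤ 16 * N.nw := by
    refine card_image_le.trans ?_
    rw [card_product, card_range, card_range]
  have c4 : ((range 16 ×ˢ range N.nw).image (fun x => Vtx.nod x.1 x.2)).card ≤ 16 * N.nw := by
    refine card_image_le.trans ?_
    rw [card_product, card_range, card_range]
  have c5 : ((range 16 ×ˢ (range N.nw ×ˢ (range 2 ×ˢ range 8))).image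
      (fun x => Vtx.chain x.1 x.2.1 x.2.2.1 x.2.2.2)).card ≤ 16 * (N.nw * (2 * 8)) := by
    refine card_image_le.trans ?_
    rw [card_product, card_product, card_product, card_range, card_range, card_range, card_range]
  have h400 : 400 * N.nw ≤ N.T := by
    have h1 : 400 * N.nw ≤ N.Lam * N.nw := Nat.mul_le_mul_right _ hL
    unfold Net.rho at hT
    omega
  refine (card_union_le _ _).trans ?_
  refine (Nat.add_le_add_left ((card_union_le _ _).trans (Nat.add_le_add c1
    ((card_union_le _ _).trans (Nat.add_le_add c2 ((card_union_le _ _).trans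
      (Nat.add_le_add c3 ((card_union_le _ _).trans (Nat.add_le_add c4 c5)))))))) _).trans ?_
  rw [card_singleton]
  nlinarith

/-- TASK G4b. A solution of the net gives a successful strategy `Scan st`. Proof: `src`: clear; `th`: `scan_th`; `fr`: `F_subset_U` (`scan_tame`, `M = i`) and `U_card`. -/
theorem run_of_sol (hV : N.Valid k) (hs : N.IsSol st) : N.Run (N.Scan st) k := by
  refine ⟨fun h => h, fun i => scan_th hV hs i, fun i => ?_⟩
  exact (Set.encard_le_encard fun v hv => F_subset_U hV (scan_tame hV hs i) le_rfl hv).trans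
    (U_card hV i)

/-- The main theorem on nets. -/
theorem ff_iff_sol (hV : N.Valid k) : FF N.G (Vtx.src 0) k ↔ N.Sol := by
  constructor
  · rintro ⟨S, h1, h2, h3⟩
    exact sol_of_run hV ⟨h1, h2, h3⟩
  · rintro ⟨st, h1, h2, h3⟩
    have h := run_of_sol hV (st := st) ⟨h1, h2, h3⟩
    exact ⟨N.Scan st, h.src, h.th, h.fr⟩

end Pool.Agent.Lib.MP_711ea9_lc.FH
end

section

set_option autoImplicit false

namespace Pool.Agent.Lib.MP_711ea9_lc.FH

open Finset

variable {A : ℕ → ℕ} {M w : ℕ} {st : ℕ → ℕ → Prop}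

/-- On every active page of `w` exactly one rail is in the state `st`. -/
def Ex1 (A : ℕ → ℕ) (M : ℕ) (st : ℕ → ℕ → Prop) (w : ℕ) : Prop :=
  ∀ p, p < 8 → (satNet A M).rd w p = true ∨ (satNet A M).wr w p = true →
    (st (2 * p) w ↔ ¬ st (2 * p + 1) w)

private theorem S2_sum (f : ℕ → ℕ) (P : ℕ → Prop) [DecidablePred P] (q : ℕ) (hq : q < 8)
    (hP : ∀ p, P p ↔ p = q) : ∑ p ∈ range 8, (if P p then f p else 0) = f q := by
  rw [Finset.sum_eq_single q]
  · rw [if_pos ((hP q).mpr rfl)]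
  · intro p _ hp
    rw [if_neg (fun h => hp ((hP p).mp h))]
  · intro hn
    exact absurd (Finset.mem_range.mpr hq) hn

private theorem S2_zero (f : ℕ → ℕ) (P : ℕ → Prop) [DecidablePred P]
    (hP : ∀ p, ¬ P p) : ∑ p ∈ range 8, (if P p then f p else 0) = 0 := by
  refine Finset.sum_eq_zero fun p _ => ?_
  rw [if_neg (hP p)]

private theorem S2_rd (hg : 2 ≤ Sn.gate A M w ∧ Sn.gate A M w ≤ 5) (p : ℕ) :
    (satNet A M).rd w p = true ↔ p = Sn.rpg A M w := by
  show Sn.rd A M w p = true ↔ _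
  simp only [Sn.rd, decide_eq_true_eq]
  constructor
  · rintro (⟨_, _, h⟩ | ⟨h6, _⟩)
    · exact h
    · omega
  · intro hp
    exact Or.inl ⟨hg.1, hg.2, hp⟩

private theorem S2_rd0 (hg : Sn.gate A M w < 2) (p : ℕ) :
    ¬ ((satNet A M).rd w p = true) := by
  show ¬ (Sn.rd A M w p = true)
  simp only [Sn.rd, decide_eq_true_eq]
  rintro (⟨_, _, h⟩ | ⟨h6, _⟩) <;> omega

private theorem S2_wr (hg : Sn.gate A M w = 1 ∨ Sn.gate A M w = 2 ∨ Sn.gate A M w = 3 ∨
    Sn.gate A M w = 5) (p : ℕ) : (satNet A M).wr w p = true ↔ p = Sn.wpg A M w := by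
  show Sn.wr A M w p = true ↔ _
  simp only [Sn.wr, decide_eq_true_eq]
  exact ⟨fun h => h.2, fun h => ⟨hg, h⟩⟩

private theorem S2_wr0 (hg : Sn.gate A M w = 0 ∨ Sn.gate A M w = 4 ∨ Sn.gate A M w = 6) (p : ℕ) :
    ¬ ((satNet A M).wr w p = true) := by
  show ¬ (Sn.wr A M w p = true)
  simp only [Sn.wr, decide_eq_true_eq]
  rintro ⟨h, _⟩
  omega

private theorem S2_rd6 (hg : Sn.gate A M w = 6) (p : ℕ) :
    (satNet A M).rd w p = true ↔ 4 ≤ p ∧ p ≤ 6 := by
  show Sn.rd A M w p = true ↔ _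
  simp only [Sn.rd, decide_eq_true_eq]
  constructor
  · rintro (⟨_, _, _⟩ | ⟨_, h⟩)
    · omega
    · exact h
  · intro hp
    exact Or.inr ⟨hg, hp⟩

open scoped Classical in
/-- TASK S2a. The count for a window of kind 2, 3 or 5 (it reads the page `rpg` and writes the page `wpg`).
Proof. `cnt_pages` (`sat_valid`). `rd w p = true ↔ p = rpg`, `wr w p = true ↔ p = wpg` for these kinds (unfold `Sn.rd`, `Sn.wr`; `satNet` fields by `rfl`/`show`); both pages are `< 8` (`Sn.pages`). Split the sum (`Finset.sum_add_distrib`) and use `Finset.sum_ite_eq'` or `Finset.sum_eq_single`. -/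
theorem cnt_rw (hM : 1 ≤ M) (hw : w < Sn.nw M)
    (hg : Sn.gate A M w = 2 ∨ Sn.gate A M w = 3 ∨ Sn.gate A M w = 5) (h : Ex1 A M st w) (τ : ℕ) :
    (satNet A M).cnt st w τ =
      (satNet A M).rcnt (if st (2 * Sn.rpg A M w) w then 2 * Sn.rpg A M w + 1
        else 2 * Sn.rpg A M w) w τ +
      (satNet A M).wcnt (if st (2 * Sn.wpg A M w) w then 2 * Sn.wpg A M w + 1
        else 2 * Sn.wpg A M w) w τ := by
  have key := cnt_pages (sat_valid A hM) hw h τ
  rw [key, Finset.sum_add_distrib]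
  have hpg := Sn.pages (A := A) (M := M) (w := w)
  congr 1
  · exact S2_sum (fun p => (satNet A M).rcnt (if st (2 * p) w then 2 * p + 1 else 2 * p) w τ)
      (fun p => (satNet A M).rd w p = true) (Sn.rpg A M w) (by omega) (S2_rd (by omega))
  · exact S2_sum (fun p => (satNet A M).wcnt (if st (2 * p) w then 2 * p + 1 else 2 * p) w τ)
      (fun p => (satNet A M).wr w p = true) (Sn.wpg A M w) (by omega) (S2_wr (by omega))

open scoped Classical in
/-- TASK S2b. The count for windows of kind 1, 4, 0. Same proof. -/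
theorem cnt_one (hM : 1 ≤ M) (hw : w < Sn.nw M) (h : Ex1 A M st w) (τ : ℕ) :
    (Sn.gate A M w = 1 → (satNet A M).cnt st w τ =
      (satNet A M).wcnt (if st (2 * Sn.wpg A M w) w then 2 * Sn.wpg A M w + 1
        else 2 * Sn.wpg A M w) w τ) ∧
    (Sn.gate A M w = 4 → (satNet A M).cnt st w τ =
      (satNet A M).rcnt (if st (2 * Sn.rpg A M w) w then 2 * Sn.rpg A M w + 1
        else 2 * Sn.rpg A M w) w τ) ∧
    (Sn.gate A M w = 0 → (satNet A M).cnt st w τ = 0) := by
  have key := cnt_pages (sat_valid A hM) hw h τ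
  have hpg := Sn.pages (A := A) (M := M) (w := w)
  refine ⟨fun hg => ?_, fun hg => ?_, fun hg => ?_⟩
  · rw [key, Finset.sum_add_distrib]
    have e1 := S2_zero (fun p => (satNet A M).rcnt (if st (2 * p) w then 2 * p + 1 else 2 * p) w τ)
      (fun p => (satNet A M).rd w p = true) (S2_rd0 (by omega))
    have e2 := S2_sum (fun p => (satNet A M).wcnt (if st (2 * p) w then 2 * p + 1 else 2 * p) w τ)
      (fun p => (satNet A M).wr w p = true) (Sn.wpg A M w) (by omega) (S2_wr (by omega))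
    rw [e1, e2, zero_add]
  · rw [key, Finset.sum_add_distrib]
    have e1 := S2_sum (fun p => (satNet A M).rcnt (if st (2 * p) w then 2 * p + 1 else 2 * p) w τ)
      (fun p => (satNet A M).rd w p = true) (Sn.rpg A M w) (by omega) (S2_rd (by omega))
    have e2 := S2_zero (fun p => (satNet A M).wcnt (if st (2 * p) w then 2 * p + 1 else 2 * p) w τ)
      (fun p => (satNet A M).wr w p = true) (S2_wr0 (by omega))
    rw [e1, e2, add_zero]
  · rw [key, Finset.sum_add_distrib]
    have e1 := S2_zero (fun p => (satNet A M).rcnt (if st (2 * p) w then 2 * p + 1 else 2 * p) w τ)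
      (fun p => (satNet A M).rd w p = true) (S2_rd0 (by omega))
    have e2 := S2_zero (fun p => (satNet A M).wcnt (if st (2 * p) w then 2 * p + 1 else 2 * p) w τ)
      (fun p => (satNet A M).wr w p = true) (S2_wr0 (by omega))
    rw [e1, e2]

open scoped Classical in
/-- TASK S2c. The count for clause windows: the pages 4, 5, 6 are read. Same proof (`Finset.sum_range_succ`). -/
theorem cnt_clause (hM : 1 ≤ M) (hw : w < Sn.nw M) (hg : Sn.gate A M w = 6) (h : Ex1 A M st w)
    (τ : ℕ) :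
    (satNet A M).cnt st w τ =
      (satNet A M).rcnt (if st 8 w then 9 else 8) w τ +
      (satNet A M).rcnt (if st 10 w then 11 else 10) w τ +
      (satNet A M).rcnt (if st 12 w then 13 else 12) w τ := by
  have key := cnt_pages (sat_valid A hM) hw h τ
  rw [key, Finset.sum_add_distrib]
  have e2 := S2_zero (fun p => (satNet A M).wcnt (if st (2 * p) w then 2 * p + 1 else 2 * p) w τ)
    (fun p => (satNet A M).wr w p = true) (S2_wr0 (by omega))
  rw [e2, add_zero]
  have e1 : ∀ p, (if (satNet A M).rd w p = true then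
      (satNet A M).rcnt (if st (2 * p) w then 2 * p + 1 else 2 * p) w τ else 0) =
      if 4 ≤ p ∧ p ≤ 6 then
      (satNet A M).rcnt (if st (2 * p) w then 2 * p + 1 else 2 * p) w τ else 0 := by
    intro p
    by_cases hp : 4 ≤ p ∧ p ≤ 6
    · rw [if_pos hp, if_pos ((S2_rd6 hg p).mpr hp)]
    · rw [if_neg hp, if_neg (fun hh => hp ((S2_rd6 hg p).mp hh))]
  rw [Finset.sum_congr rfl fun p _ => e1 p]
  simp only [Finset.sum_range_succ, Finset.sum_range_zero]
  simp

end Pool.Agent.Lib.MP_711ea9_lc.FH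
end

section

set_option autoImplicit false

namespace Pool.Agent.Lib.MP_711ea9_lc.FH

open Finset

variable {A : ℕ → ℕ} {M w : ℕ} {st : ℕ → ℕ → Prop}

private theorem S3_rcnt (b τ : ℕ) : (satNet A M).rcnt b w τ =
    two (Sn.len A M b w 0) (Sn.len A M b w 1) τ := rfl

private theorem S3_wcnt (b τ : ℕ) : (satNet A M).wcnt b w τ =
    (if 1 ≤ τ then 1 else 0) + (if 2 ≤ τ then 1 else 0) +
    (if Sn.l2 A M w (b / 2) ≠ 0 ∧ 3 ≤ τ then 1 else 0) +
      two (Sn.len A M b w 0 + 1) (Sn.len A M b w 1 + 1) τ := rfl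

private theorem S3_e : (satNet A M).e w = Sn.e A M w := rfl

private theorem S3_d0 (n : ℕ) : 2 * n / 2 = n := by omega

private theorem S3_d1 (n : ℕ) : (2 * n + 1) / 2 = n := by omega

private theorem S3_m0 (n : ℕ) : 2 * n % 2 = 0 := by omega

private theorem S3_m1 (n : ℕ) : (2 * n + 1) % 2 = 1 := by omega

private theorem S3_b {n : ℕ} {P : Prop} [Decidable P] :
    ((if P then 2 * n + 1 else 2 * n) : ℕ) / 2 = n := by
  split_ifs <;> omega


/-- TASK S3a. Windows of kind 0, 1, 3, 4 put no condition.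
Proof. `cnt_one`, `cnt_rw`; `e w` and the lengths from `Sn.e`, `Sn.len` with the kind. Kind 1 (`e = 5`): lengths `3, 4` on both rails, so `wcnt ≤ [1≤τ]+[2≤τ]+[3≤τ]+[4≤τ]+[5≤τ] ≤ min τ 5`. Kind 4 (`e = 2`): lengths 2, 2. Kind 3 (`e = 7`): reader `4, 5`, writer `5, 6`: delays 1, 2, 3, 4, 5, 6, 7 (`(2 * rpg + ε) / 2 = rpg`, `(2 * wpg + ε) / 2 = wpg ≠ rpg` by `Sn.pages`).
Kind 0: 0. For `τ ≤ 7`: `interval_cases τ` and `simp`/`decide`. -/
theorem ok_free (hM : 1 ≤ M) (hw : w < Sn.nw M) (h : Ex1 A M st w)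
    (hg : Sn.gate A M w = 0 ∨ Sn.gate A M w = 1 ∨ Sn.gate A M w = 3 ∨ Sn.gate A M w = 4) :
    (satNet A M).Ok st w := by
  classical
  obtain ⟨h1, h4, h0⟩ : (∀ τ, Sn.gate A M w = 1 → (satNet A M).cnt st w τ =
      (satNet A M).wcnt (if st (2 * Sn.wpg A M w) w then 2 * Sn.wpg A M w + 1
        else 2 * Sn.wpg A M w) w τ) ∧
    (∀ τ, Sn.gate A M w = 4 → (satNet A M).cnt st w τ =
      (satNet A M).rcnt (if st (2 * Sn.rpg A M w) w then 2 * Sn.rpg A M w + 1
        else 2 * Sn.rpg A M w) w τ) ∧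
    (∀ τ, Sn.gate A M w = 0 → (satNet A M).cnt st w τ = 0) := by
    refine ⟨fun τ hh => ?_, fun τ hh => ?_, fun τ hh => ?_⟩
    · convert (cnt_one hM hw h τ).1 hh
    · convert (cnt_one hM hw h τ).2.1 hh
    · exact (cnt_one hM hw h τ).2.2 hh
  intro τ hτ
  rcases hg with hg | hg | hg | hg
  · rw [h0 τ hg]; exact Nat.zero_le _
  · rw [h1 τ hg, S3_wcnt, S3_e]
    simp only [Sn.len, Sn.e, hg, if_true, two]
    by_cases hl : Sn.l2 A M w ((if st (2 * Sn.wpg A M w) w then 2 * Sn.wpg A M w + 1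
        else 2 * Sn.wpg A M w) / 2) = 0
    · simp only [hl, ne_eq, not_true_eq_false, false_and, if_false]
      interval_cases τ <;> decide
    · simp only [hl, ne_eq, not_false_eq_true, true_and]
      interval_cases τ <;> decide
  · have hc : (satNet A M).cnt st w τ =
      (satNet A M).rcnt (if st (2 * Sn.rpg A M w) w then 2 * Sn.rpg A M w + 1
        else 2 * Sn.rpg A M w) w τ +
      (satNet A M).wcnt (if st (2 * Sn.wpg A M w) w then 2 * Sn.wpg A M w + 1
        else 2 * Sn.wpg A M w) w τ := by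
      convert cnt_rw hM hw (Or.inr (Or.inl hg)) h τ
    have hp := (Sn.pages (A := A) (M := M) (w := w)).2.2
    rw [hc, S3_rcnt, S3_wcnt, S3_e]
    simp only [Sn.len, Sn.e, hg, two, S3_b, hp.symm, if_true, if_false,
      Nat.reduceEqDiff, OfNat.ofNat_ne_one]
    by_cases hl : Sn.l2 A M w (Sn.wpg A M w) = 0
    · simp only [hl, ne_eq, not_true_eq_false, false_and, if_false]
      interval_cases τ <;> decide
    · simp only [hl, ne_eq, not_false_eq_true, true_and]
      interval_cases τ <;> decide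
  · rw [h4 τ hg, S3_rcnt, S3_e]
    simp only [Sn.len, Sn.e, hg, if_true, two, Nat.reduceEqDiff, if_false, OfNat.ofNat_ne_one]
    interval_cases τ <;> decide

/-- TASK S3b. Copy windows: the value which is read (burning rail `2 rpg`: true) is written (rail `2 wpg` in the state `st`: true).
Proof. `cnt_rw`, `e = 7`, `l2 ≠ 0` (`tt w = 0`). Reader delays: `4, 7` if the strand `2 rpg` burns (`¬ st (2 rpg) w`), `5, 6` if `2 rpg + 1` burns (`Sn.ab 4`, parity of the strand). Writer: burning strand `2 wpg + 1` (if `st (2 wpg) w`): `ab 3`: `4 + 1 = 5`, `5 + 1 = 6`; burning strand `2 wpg`: `3 + 1 = 4`, `6 + 1 = 7`. Together with 1, 2, 3: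
equal values: `1, ..., 7`: at most `τ` at every `τ ≤ 7`. Different values: `1,2,3,4,4,7,7` (5 units at `τ = 4`) or `1,2,3,5,5,6,6` (7 units at `τ = 6`): violated. -/
theorem ok_copy (hM : 1 ≤ M) (hw : w < Sn.nw M) (h : Ex1 A M st w) (hg : Sn.gate A M w = 2) :
    (satNet A M).Ok st w ↔ (¬ st (2 * Sn.rpg A M w) w ↔ st (2 * Sn.wpg A M w) w) := by
  classical
  have hc : ∀ τ, (satNet A M).cnt st w τ =
      (satNet A M).rcnt (if st (2 * Sn.rpg A M w) w then 2 * Sn.rpg A M w + 1
        else 2 * Sn.rpg A M w) w τ +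
      (satNet A M).wcnt (if st (2 * Sn.wpg A M w) w then 2 * Sn.wpg A M w + 1
        else 2 * Sn.wpg A M w) w τ := by
    intro τ
    convert cnt_rw hM hw (Or.inl hg) h τ
  have hp := (Sn.pages (A := A) (M := M) (w := w)).2.2
  have hlt : w < Sn.c0 M := by
    by_contra hcon
    unfold Sn.gate at hg
    rw [if_pos (not_lt.1 hcon)] at hg
    split_ifs at hg <;> omega
  have ht : Sn.tt M w = 0 := by
    unfold Sn.gate at hg
    rw [if_neg (not_le.2 hlt)] at hg
    by_contra hcon
    split_ifs at hg <;> omega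
  have hl : Sn.l2 A M w (Sn.wpg A M w) ≠ 0 := by
    unfold Sn.l2 Sn.wn
    rw [if_pos ht]
    omega
  have hOk : (satNet A M).Ok st w ↔ ∀ τ, τ ≤ 7 → (two
      (Sn.ab 4 (if st (2 * Sn.rpg A M w) w then 1 else 0) 0)
      (Sn.ab 4 (if st (2 * Sn.rpg A M w) w then 1 else 0) 1) τ) +
      ((if 1 ≤ τ then 1 else 0) + (if 2 ≤ τ then 1 else 0) + (if 3 ≤ τ then 1 else 0) + two
      (Sn.ab 3 (if st (2 * Sn.wpg A M w) w then 1 else 0) 0 + 1)
      (Sn.ab 3 (if st (2 * Sn.wpg A M w) w then 1 else 0) 1 + 1) τ) ≤ min τ 7 := by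
    have hab : ∀ (x n c : ℕ) (P : Prop) [Decidable P],
        Sn.ab x (if P then 2 * n + 1 else 2 * n) c = Sn.ab x (if P then 1 else 0) c := by
      intro x n c P _
      unfold Sn.ab
      by_cases hP : P <;> simp [hP, Nat.add_mod]
    unfold Net.Ok
    refine forall_congr' fun τ => forall_congr' fun hτ => ?_
    rw [hc, S3_rcnt, S3_wcnt, S3_e]
    simp only [Sn.len, Sn.e, hg, S3_b, hp.symm, if_true, if_false,
      Nat.reduceEqDiff, hl, ne_eq, not_false_eq_true, true_and, hab]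
  rw [hOk]
  by_cases hr : st (2 * Sn.rpg A M w) w <;> by_cases hv : st (2 * Sn.wpg A M w) w <;>
    simp only [hr, hv, if_true, if_false, not_true_eq_false, not_false_eq_true, iff_true,
      iff_false, true_iff, false_iff] <;> decide

/-- TASK S3c. Pass windows: the same.
Proof. `cnt_rw`, `e = 6`, `l2 = 0` (`tt w ≠ 0`). Reader: `ab 3`: `3, 6` or `4, 5`; writer `ab 2` plus 1: burning `2 wpg`: `3, 6`; burning `2 wpg + 1`: `4, 5`; and 1, 2. Equal: `1, ..., 6`. Different: `1,2,3,3,6,6` (4 units at `τ = 3`) or `1,2,4,4,5,5` (6 units at `τ = 5`). -/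
theorem ok_pass (hM : 1 ≤ M) (hw : w < Sn.nw M) (h : Ex1 A M st w) (hg : Sn.gate A M w = 5) :
    (satNet A M).Ok st w ↔ (¬ st (2 * Sn.rpg A M w) w ↔ st (2 * Sn.wpg A M w) w) := by
  classical
  have hc : ∀ τ, (satNet A M).cnt st w τ =
      (satNet A M).rcnt (if st (2 * Sn.rpg A M w) w then 2 * Sn.rpg A M w + 1
        else 2 * Sn.rpg A M w) w τ +
      (satNet A M).wcnt (if st (2 * Sn.wpg A M w) w then 2 * Sn.wpg A M w + 1
        else 2 * Sn.wpg A M w) w τ := by
    intro τ
    convert cnt_rw hM hw (Or.inr (Or.inr hg)) h τ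
  have hp := (Sn.pages (A := A) (M := M) (w := w)).2.2
  have hlt : w < Sn.c0 M := by
    by_contra hcon
    unfold Sn.gate at hg
    rw [if_pos (not_lt.1 hcon)] at hg
    split_ifs at hg <;> omega
  have ht : Sn.tt M w ≠ 0 := by
    unfold Sn.gate at hg
    rw [if_neg (not_le.2 hlt)] at hg
    intro hcon
    split_ifs at hg <;> omega
  have hl : Sn.l2 A M w (Sn.wpg A M w) = 0 := by
    unfold Sn.l2
    rw [if_neg ht]
  have hOk : (satNet A M).Ok st w ↔ ∀ τ, τ ≤ 7 → (two
      (Sn.ab 3 (if st (2 * Sn.rpg A M w) w then 1 else 0) 0)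
      (Sn.ab 3 (if st (2 * Sn.rpg A M w) w then 1 else 0) 1) τ) +
      ((if 1 ≤ τ then 1 else 0) + (if 2 ≤ τ then 1 else 0) + 0 + two
      (Sn.ab 2 (if st (2 * Sn.wpg A M w) w then 1 else 0) 0 + 1)
      (Sn.ab 2 (if st (2 * Sn.wpg A M w) w then 1 else 0) 1 + 1) τ) ≤ min τ 6 := by
    have hab : ∀ (x n c : ℕ) (P : Prop) [Decidable P],
        Sn.ab x (if P then 2 * n + 1 else 2 * n) c = Sn.ab x (if P then 1 else 0) c := by
      intro x n c P _
      unfold Sn.ab
      by_cases hP : P <;> simp [hP, Nat.add_mod]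
    unfold Net.Ok
    refine forall_congr' fun τ => forall_congr' fun hτ => ?_
    rw [hc, S3_rcnt, S3_wcnt, S3_e]
    simp only [Sn.len, Sn.e, hg, S3_b, hp.symm, if_true, if_false,
      Nat.reduceEqDiff, hl, ne_eq, not_true_eq_false, false_and, hab]
  rw [hOk]
  by_cases hr : st (2 * Sn.rpg A M w) w <;> by_cases hv : st (2 * Sn.wpg A M w) w <;>
    simp only [hr, hv, if_true, if_false, not_true_eq_false, not_false_eq_true, iff_true,
      iff_false, true_iff, false_iff] <;> decide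

/-- TASK S3d. Clause windows: at least one literal is true.
Proof. `cnt_clause`, `e = 6`. Page `4 + i` (`i < 3`), burning strand `b = 2 (4 + i) + r` with `r = 0` iff `¬ st (2 (4+i)) w`: `b / 2 = 4 + i`, lengths: `5` and (`6` if `(b + A κ) % 2 = 1`, else `5`), `κ = rel w (4 + i)`. `(b + A κ) % 2 = 1` iff (`r = 0 ↔ A κ % 2 = 1`), i.e. the literal is true. So at `τ = 5` there are `3 +` (number of false literals) units
(`≤ 5` iff some literal is true), none for `τ < 5`, 6 for `τ ≥ 6`. -/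
theorem ok_clause (hM : 1 ≤ M) (hw : w < Sn.nw M) (h : Ex1 A M st w) (hg : Sn.gate A M w = 6) :
    (satNet A M).Ok st w ↔
      ∃ i < 3, (¬ st (2 * (4 + i)) w ↔ A (Sn.rel A M w (4 + i)) % 2 = 1) := by
  classical
  have hc : ∀ τ, (satNet A M).cnt st w τ =
      (satNet A M).rcnt (if st 8 w then 9 else 8) w τ +
      (satNet A M).rcnt (if st 10 w then 11 else 10) w τ +
      (satNet A M).rcnt (if st 12 w then 13 else 12) w τ := by
    intro τ
    convert cnt_clause hM hw hg h τ
  have hlen : ∀ i, i < 3 → ∀ c, Sn.len A M (if st (2 * (4 + i)) w then 2 * (4 + i) + 1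
      else 2 * (4 + i)) w c =
      if (¬ st (2 * (4 + i)) w ↔ A (Sn.rel A M w (4 + i)) % 2 = 1) then 5 + c else 5 := by
    intro i hi c
    simp only [Sn.len, hg, Nat.reduceEqDiff, if_false, OfNat.ofNat_ne_one, S3_b]
    by_cases hs : st (2 * (4 + i)) w
    · simp only [hs, if_true, not_true_eq_false, false_iff]
      congr 1
      apply propext
      omega
    · simp only [hs, if_false, not_false_eq_true, true_iff]
      congr 1
      apply propext
      omega
  have hOk : (satNet A M).Ok st w ↔ ∀ τ, τ ≤ 7 →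
      two 5 (if (¬ st (2 * (4 + 0)) w ↔ A (Sn.rel A M w (4 + 0)) % 2 = 1) then 6 else 5) τ +
      two 5 (if (¬ st (2 * (4 + 1)) w ↔ A (Sn.rel A M w (4 + 1)) % 2 = 1) then 6 else 5) τ +
      two 5 (if (¬ st (2 * (4 + 2)) w ↔ A (Sn.rel A M w (4 + 2)) % 2 = 1) then 6 else 5) τ ≤
        min τ 6 := by
    unfold Net.Ok
    refine forall_congr' fun τ => forall_congr' fun hτ => ?_
    have e0 := fun c => hlen 0 (by norm_num) c
    have e1 := fun c => hlen 1 (by norm_num) c
    have e2 := fun c => hlen 2 (by norm_num) c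
    norm_num only at e0 e1 e2
    rw [hc, S3_rcnt, S3_rcnt, S3_rcnt, S3_e]
    norm_num only
    rw [e0 0, e0 1, e1 0, e1 1, e2 0, e2 1]
    simp only [Sn.e, hg, Nat.reduceEqDiff, if_false, if_true, Nat.add_zero, ite_self,
      OfNat.ofNat_ne_one]
  rw [hOk]
  have hex : (∃ i < 3, (¬ st (2 * (4 + i)) w ↔ A (Sn.rel A M w (4 + i)) % 2 = 1)) ↔
      ((¬ st (2 * (4 + 0)) w ↔ A (Sn.rel A M w (4 + 0)) % 2 = 1) ∨
      (¬ st (2 * (4 + 1)) w ↔ A (Sn.rel A M w (4 + 1)) % 2 = 1) ∨
      (¬ st (2 * (4 + 2)) w ↔ A (Sn.rel A M w (4 + 2)) % 2 = 1)) := by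
    constructor
    · rintro ⟨i, hi, h⟩
      interval_cases i
      · exact Or.inl h
      · exact Or.inr (Or.inl h)
      · exact Or.inr (Or.inr h)
    · rintro (h | h | h)
      · exact ⟨0, by norm_num, h⟩
      · exact ⟨1, by norm_num, h⟩
      · exact ⟨2, by norm_num, h⟩
  rw [hex]
  rcases Classical.propComplete (¬ st (2 * (4 + 0)) w ↔ A (Sn.rel A M w (4 + 0)) % 2 = 1)
    with h0 | h0 <;>
  rcases Classical.propComplete (¬ st (2 * (4 + 1)) w ↔ A (Sn.rel A M w (4 + 1)) % 2 = 1)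
    with h1 | h1 <;>
  rcases Classical.propComplete (¬ st (2 * (4 + 2)) w ↔ A (Sn.rel A M w (4 + 2)) % 2 = 1)
    with h2 | h2 <;>
    simp only [h0, h1, h2, if_true, if_false, true_or, or_true, or_false, false_or, iff_true,
      iff_false] <;> decide

end Pool.Agent.Lib.MP_711ea9_lc.FH
end

section

set_option autoImplicit false

namespace Pool.Agent.Lib.MP_711ea9_lc.FH

open Finset

variable {A : ℕ → ℕ} {M : ℕ} {st : ℕ → ℕ → Prop}

/-- The conditions on `st`. -/
structure SolS (A : ℕ → ℕ) (M : ℕ) (st : ℕ → ℕ → Prop) : Prop where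
  wr : ∀ w p, w < Sn.nw M → p < 8 → Sn.wr A M w p = true → (st (2 * p) w ↔ ¬ st (2 * p + 1) w)
  rd : ∀ w b, w < Sn.nw M → b < 16 → Sn.rd A M w (b / 2) = true →
    (st b w ↔ ¬ st b (Sn.fr A M w (b / 2)))
  ok : ∀ w, w < Sn.nw M → (satNet A M).Ok st w

/-- The value of the wire written by the window of `κ` in layer `t`. -/
def Val (A : ℕ → ℕ) (M : ℕ) (st : ℕ → ℕ → Prop) (t κ : ℕ) : Prop :=
  st (2 * Sn.wpg A M (Sn.wn A M t κ)) (Sn.wn A M t κ)

/-- TASK S4a. Proof: written pages: `hs.wr`. Read pages: `Sn.source` gives the window `w' = fr w p < nw` which writes `p`; `hs.rd` for `b = 2p` and `2p + 1` and `hs.wr` for `w'`. -/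
theorem sol_ex1 (hM : 1 ≤ M) (hs : SolS A M st) {w : ℕ} (hw : w < Sn.nw M) :
    Ex1 A M st w := by
  intro p hp hor
  rcases hor with h | h
  · have h' : Sn.rd A M w p = true := h
    obtain ⟨h1, h2, -⟩ := Sn.source hM hw h'
    have e0 : 2 * p / 2 = p := by omega
    have e1 : (2 * p + 1) / 2 = p := by omega
    have r0 := hs.rd w (2 * p) hw (by omega) (by rw [e0]; exact h')
    have r1 := hs.rd w (2 * p + 1) hw (by omega) (by rw [e1]; exact h')
    rw [e0] at r0
    rw [e1] at r1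
    have r2 := hs.wr _ p h1 hp h2
    tauto
  · exact hs.wr w p hw hp h

/-- TASK S4b. Values are passed from layer to layer.
Proof. `w = wn t κ` has kind 5 (`Sn.gate_pass`), `w < nw` (`Sn.wn_lt`), `p = rpg w` is read; `fr w p = wn (t-1) κ` (unfold `Sn.fr`: `tt w = t ≠ 0`, `Sn.kap_wn`) which writes `p` (`Sn.source`, `Sn.wr_wn`: `p = wpg (wn (t-1) κ)`). `hs.rd` with `b = 2 p`: `st (2p) w ↔ ¬ Val (t-1) κ`. `ok_pass`: `¬ st (2p) w ↔ Val t κ`. -/
theorem val_pass (hM : 1 ≤ M) (hs : SolS A M st) {t κ : ℕ} (ht : 1 ≤ t) (ht' : t ≤ Sn.aa M + 1)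
    (h : κ < 3 * M) : Val A M st t κ ↔ Val A M st (t - 1) κ := by
  have hlt : Sn.wn A M t κ < Sn.nw M :=
    lt_of_lt_of_le (Sn.wn_lt ht' h) (Nat.le_add_right _ _)
  have hg := Sn.gate_pass (A := A) ht ht' h
  have hrd : Sn.rd A M (Sn.wn A M t κ) (Sn.rpg A M (Sn.wn A M t κ)) = true := by
    unfold Sn.rd
    rw [decide_eq_true_eq]
    left
    rw [hg]
    exact ⟨by norm_num, le_refl _, rfl⟩
  have hfr : Sn.fr A M (Sn.wn A M t κ) (Sn.rpg A M (Sn.wn A M t κ)) = Sn.wn A M (t - 1) κ := by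
    unfold Sn.fr
    rw [hg, if_neg (by norm_num), (Sn.tt_wn h).1, if_neg (by omega), Sn.kap_wn h]
  obtain ⟨h1, h2, -⟩ := Sn.source hM hlt hrd
  rw [hfr] at h1 h2
  have hp := (Sn.wr_wn (by omega) h).1 h2
  have hpl := (Sn.pages (A := A) (M := M) (w := Sn.wn A M t κ)).1
  have e0 : 2 * Sn.rpg A M (Sn.wn A M t κ) / 2 = Sn.rpg A M (Sn.wn A M t κ) := by omega
  have r0 := hs.rd (Sn.wn A M t κ) (2 * Sn.rpg A M (Sn.wn A M t κ)) hlt (by omega)
    (by rw [e0]; exact hrd)
  rw [e0, hfr] at r0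
  have hok := (ok_pass hM hlt (sol_ex1 hM hs hlt) hg).1 (hs.ok _ hlt)
  unfold Val
  rw [← hp]
  tauto

/-- TASK S4c. Values are copied inside the block of a variable.
Proof. `w = wn 0 κ = x = ps 0 κ ≥ 1` has kind 2 (`Sn.gate_zero`), `p = rpg w`; `fr w p = w - 1 = wn 0 κ'` with `κ' = el 0 (x - 1)` (`Sn.ps_el`), which writes `p`. As S4b with `ok_copy`. -/
theorem val_copy (hM : 1 ≤ M) (hs : SolS A M st) {κ : ℕ} (h : κ < 3 * M)
    (hx : 1 ≤ Sn.ps A M 0 κ) (hv : A κ / 2 = A (Sn.el A M 0 (Sn.ps A M 0 κ - 1)) / 2) :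
    Val A M st 0 κ ↔ Val A M st 0 (Sn.el A M 0 (Sn.ps A M 0 κ - 1)) := by
  have hps := Sn.ps_lt (A := A) (t := 0) h
  obtain ⟨hel, hpe⟩ := Sn.ps_el (A := A) (M := M) (t := 0) (x := Sn.ps A M 0 κ - 1) (by omega)
  have hlt : Sn.wn A M 0 κ < Sn.nw M :=
    lt_of_lt_of_le (Sn.wn_lt (Nat.zero_le _) h) (Nat.le_add_right _ _)
  have hg : Sn.gate A M (Sn.wn A M 0 κ) = 2 := by
    rw [Sn.gate_zero h, if_neg (by omega), if_pos hv]
  have hrd : Sn.rd A M (Sn.wn A M 0 κ) (Sn.rpg A M (Sn.wn A M 0 κ)) = true := by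
    unfold Sn.rd
    rw [decide_eq_true_eq]
    left
    rw [hg]
    exact ⟨le_refl _, by norm_num, rfl⟩
  have hfr : Sn.fr A M (Sn.wn A M 0 κ) (Sn.rpg A M (Sn.wn A M 0 κ)) =
      Sn.wn A M 0 (Sn.el A M 0 (Sn.ps A M 0 κ - 1)) := by
    unfold Sn.fr
    rw [hg, if_neg (by norm_num), (Sn.tt_wn h).1, if_pos rfl]
    unfold Sn.wn
    rw [hpe]
    omega
  obtain ⟨h1, h2, -⟩ := Sn.source hM hlt hrd
  rw [hfr] at h1 h2
  have hp := (Sn.wr_wn (by omega) hel).1 h2
  have hpl := (Sn.pages (A := A) (M := M) (w := Sn.wn A M 0 κ)).1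
  have e0 : 2 * Sn.rpg A M (Sn.wn A M 0 κ) / 2 = Sn.rpg A M (Sn.wn A M 0 κ) := by omega
  have r0 := hs.rd (Sn.wn A M 0 κ) (2 * Sn.rpg A M (Sn.wn A M 0 κ)) hlt (by omega)
    (by rw [e0]; exact hrd)
  rw [e0, hfr] at r0
  have hok := (ok_copy hM hlt (sol_ex1 hM hs hlt) hg).1 (hs.ok _ hlt)
  unfold Val
  rw [← hp]
  tauto

/-- TASK S4d. The order of layer 0 is monotone in the variable. Proof: `ps 0 = rk 0 = rkn (ky 0)`, `rkn_lt_iff`, `ky 0 = ky0`: `A κ / 2 * (3M) + κ < A κ' / 2 * (3M) + κ'` with `κ' < 3M` excludes `A κ' / 2 < A κ / 2`. -/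
theorem var_mono {κ κ' : ℕ} (h : κ < 3 * M) (h' : κ' < 3 * M)
    (hlt : Sn.ps A M 0 κ < Sn.ps A M 0 κ') : A κ / 2 ≤ A κ' / 2 := by
  have e : ∀ k, Sn.ps A M 0 k = rkn (Sn.ky A M 0) (3 * M) k := by
    intro k
    unfold Sn.ps Sn.rk
    rw [if_neg (by norm_num)]
  rw [e, e, rkn_lt_iff h h'] at hlt
  unfold Sn.ky Sn.ky0 at hlt
  rw [if_pos rfl, if_pos rfl] at hlt
  by_contra hcon
  push Not at hcon
  have h2 : (A κ' / 2 + 1) * (3 * M) ≤ A κ / 2 * (3 * M) := Nat.mul_le_mul_right _ hcon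
  rw [Nat.add_mul, Nat.one_mul] at h2
  omega

/-- TASK S4e. Equal variable, equal value.
Proof. Induction on `d`: if `ps 0 κ' = ps 0 κ + d` and the variables agree then the values agree. `d = 0`: `κ = κ'` (`Sn.ps_inj`). Step: `κ'' = el 0 (ps κ' - 1)` has position `ps κ + d` (`Sn.ps_el`); `A κ / 2 ≤ A κ'' / 2 ≤ A κ' / 2` (`var_mono`; or `κ = κ''` if `d = 0`), so all three agree; `val_copy` for `κ'` and the induction hypothesis. Then use `le_total` of the positions. -/
theorem val_var (hM : 1 ≤ M) (hs : SolS A M st) {κ κ' : ℕ} (h : κ < 3 * M) (h' : κ' < 3 * M)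
    (hv : A κ / 2 = A κ' / 2) : Val A M st 0 κ ↔ Val A M st 0 κ' := by
  have key : ∀ d κ κ' : ℕ, κ < 3 * M → κ' < 3 * M → A κ / 2 = A κ' / 2 →
      Sn.ps A M 0 κ' = Sn.ps A M 0 κ + d → (Val A M st 0 κ ↔ Val A M st 0 κ') := by
    intro d
    induction d with
    | zero =>
      intro κ κ' h h' _ hd
      rw [Sn.ps_inj h h' (by omega : Sn.ps A M 0 κ = Sn.ps A M 0 κ')]
    | succ d ih =>
      intro κ κ' h h' hv hd
      have hps := Sn.ps_lt (A := A) (t := 0) h'
      obtain ⟨hel, hpe⟩ := Sn.ps_el (A := A) (M := M) (t := 0) (x := Sn.ps A M 0 κ' - 1)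
        (by omega)
      have hle1 : A κ / 2 ≤ A (Sn.el A M 0 (Sn.ps A M 0 κ' - 1)) / 2 := by
        rcases Nat.eq_zero_or_pos d with hd0 | hd0
        · have : κ = Sn.el A M 0 (Sn.ps A M 0 κ' - 1) := by
            apply Sn.ps_inj (A := A) (t := 0) h hel
            rw [hpe]; omega
          rw [← this]
        · apply var_mono h hel
          rw [hpe]; omega
      have hle2 : A (Sn.el A M 0 (Sn.ps A M 0 κ' - 1)) / 2 ≤ A κ' / 2 := by
        apply var_mono hel h'
        rw [hpe]; omega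
      have h3 : A κ' / 2 = A (Sn.el A M 0 (Sn.ps A M 0 κ' - 1)) / 2 := by omega
      rw [val_copy hM hs h' (by omega) h3]
      exact ih κ _ h hel (by omega) (by rw [hpe]; omega)
  rcases le_total (Sn.ps A M 0 κ) (Sn.ps A M 0 κ') with hle | hle
  · exact key _ κ κ' h h' hv (by rw [Nat.add_sub_cancel' hle])
  · exact (key _ κ' κ h' h hv.symm (by rw [Nat.add_sub_cancel' hle])).symm

/-- TASK S4f. A solution of the net gives a satisfying assignment.
Proof. `Val (aa + 1) κ ↔ Val 0 κ` by induction with `val_pass`. For `c < M`, `w = c0 + (M - 1 - c)` (`Sn.gate_clause`), `ok_clause`: some `i < 3` with `¬ st (2 (4+i)) w ↔ A κ % 2 = 1`, `κ = rel w (4+i) = 3 c + i < 3 M`. `hs.rd` with `b = 2 (4 + i)` (`rd w (4+i)`): `st b w ↔ ¬ st b (fr w (4+i))`, `fr w (4+i) = wn (aa+1) κ`, which writes page `4 + i` (`Sn.source`, `Sn.wr_wn`),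
so `¬ st b w ↔ Val (aa+1) κ ↔ Val 0 κ`. Put `x v = decide (∃ κ < 3 M, A κ / 2 = v ∧ Val 0 κ)` (classical); by `val_var` `x (A κ / 2) = true ↔ Val 0 κ` for `κ < 3 M`. -/
theorem sat_of_sol (hM : 1 ≤ M) (hs : SolS A M st) : Sat3 A M := by
  classical
  have hval : ∀ κ, κ < 3 * M → ∀ t, t ≤ Sn.aa M + 1 → (Val A M st t κ ↔ Val A M st 0 κ) := by
    intro κ h t
    induction t with
    | zero => intro _; exact Iff.rfl
    | succ t ih =>
      intro ht
      rw [val_pass hM hs (Nat.le_add_left _ _) ht h, Nat.add_sub_cancel]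
      exact ih (by omega)
  refine ⟨fun v => decide (∃ κ, κ < 3 * M ∧ A κ / 2 = v ∧ Val A M st 0 κ), ?_⟩
  intro c hc
  have hg := Sn.gate_clause (A := A) hc
  have hw : Sn.c0 M + (M - 1 - c) < Sn.nw M := by
    unfold Sn.nw; omega
  obtain ⟨i, hi, hiff⟩ := (ok_clause hM hw (sol_ex1 hM hs hw) hg).1 (hs.ok _ hw)
  have hrel : Sn.rel A M (Sn.c0 M + (M - 1 - c)) (4 + i) = 3 * c + i := by
    unfold Sn.rel
    rw [if_pos hg]
    omega
  have hk : 3 * c + i < 3 * M := by omega
  have hrd : Sn.rd A M (Sn.c0 M + (M - 1 - c)) (4 + i) = true := by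
    unfold Sn.rd
    rw [decide_eq_true_eq]
    right
    exact ⟨hg, by omega, by omega⟩
  have hfr : Sn.fr A M (Sn.c0 M + (M - 1 - c)) (4 + i) = Sn.wn A M (Sn.aa M + 1) (3 * c + i) := by
    unfold Sn.fr
    rw [if_pos hg, hrel]
  obtain ⟨h1, h2, -⟩ := Sn.source hM hw hrd
  rw [hfr] at h1 h2
  have hp := (Sn.wr_wn (le_refl _) hk).1 h2
  have e0 : 2 * (4 + i) / 2 = 4 + i := by omega
  have r0 := hs.rd _ (2 * (4 + i)) hw (by omega) (by rw [e0]; exact hrd)
  rw [e0, hfr] at r0
  have hv := hval (3 * c + i) hk (Sn.aa M + 1) (le_refl _)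
  unfold Val at hv
  rw [← hp] at hv
  rw [hrel] at hiff
  refine ⟨i, hi, ?_⟩
  have hx : (decide (∃ κ, κ < 3 * M ∧ A κ / 2 = A (3 * c + i) / 2 ∧ Val A M st 0 κ) = true ↔
      Val A M st 0 (3 * c + i)) := by
    rw [decide_eq_true_eq]
    constructor
    · rintro ⟨κ, h3, h4, h5⟩
      exact (val_var hM hs h3 hk h4).1 h5
    · intro h3
      exact ⟨_, hk, rfl, h3⟩
  show (decide (∃ κ, κ < 3 * M ∧ A κ / 2 = A (3 * c + i) / 2 ∧ Val A M st 0 κ) = true ↔ _)
  rw [hx]
  unfold Val
  tauto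

end Pool.Agent.Lib.MP_711ea9_lc.FH
end
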