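import Pool.Agent.Lib.MP_711ea9_lc.Mg.G007
import Pool.Agent.Lib.MP_711ea9_lc.Mg.G001
import Pool.Agent.Lib.MP_711ea9_lc.Mg.G006
import Pool.Agent.Lib.MP_711ea9_lc.Mg.G005
import Pool.Agent.Lib.MP_711ea9_lc.Mg.G003

section

set_option autoImplicit false

namespace Pool.Agent.Lib.MP_711ea9_lc.FH

open Finset

variable {A : ℕ → ℕ} {M : ℕ}

/-- The state of the roots for an assignment. -/
def stX (A : ℕ → ℕ) (M : ℕ) (x : ℕ → Bool) (b w : ℕ) : Prop :=
  if Sn.wr A M w (b / 2) = true then (x (A (Sn.kap A M w) / 2) = true ↔ b % 2 = 0)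
  else ¬ (x (A (Sn.rel A M w (b / 2)) / 2) = true ↔ b % 2 = 0)

private theorem s5_gate2 {w : ℕ} (h : Sn.gate A M w = 2) : Sn.tt M w = 0 ∧
    A (Sn.el A M 0 (Sn.xx M w)) / 2 = A (Sn.el A M 0 (Sn.xx M w - 1)) / 2 := by
  unfold Sn.gate at h
  split_ifs at h <;> omega

private theorem s5_gate5 {w : ℕ} (h : Sn.gate A M w = 5) : Sn.tt M w ≠ 0 := by
  unfold Sn.gate at h
  split_ifs at h <;> omega

private theorem s5_gate_le (A : ℕ → ℕ) (M w : ℕ) : Sn.gate A M w ≤ 6 := by
  unfold Sn.gate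
  split_ifs <;> omega

private theorem s5_gate6 {w : ℕ} (h : Sn.gate A M w = 6) : Sn.c0 M ≤ w ∧ w < Sn.c0 M + M := by
  unfold Sn.gate at h
  split_ifs at h <;> omega

private theorem s5_wr {x : ℕ → Bool} {w p : ℕ} (h : Sn.wr A M w p = true) :
    (stX A M x (2 * p) w ↔ x (A (Sn.kap A M w) / 2) = true) ∧
    (stX A M x (2 * p + 1) w ↔ ¬ x (A (Sn.kap A M w) / 2) = true) := by
  have e1 : 2 * p / 2 = p := by omega
  have e2 : (2 * p + 1) / 2 = p := by omega
  have e3 : 2 * p % 2 = 0 := by omega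
  have e4 : (2 * p + 1) % 2 = 1 := by omega
  unfold stX
  rw [e1, e2, if_pos h, if_pos h, e3, e4]
  constructor
  · simp
  · simp

private theorem s5_rd {x : ℕ → Bool} {w p : ℕ} (h : Sn.wr A M w p = false) :
    (stX A M x (2 * p) w ↔ ¬ x (A (Sn.rel A M w p) / 2) = true) ∧
    (stX A M x (2 * p + 1) w ↔ x (A (Sn.rel A M w p) / 2) = true) := by
  have e1 : 2 * p / 2 = p := by omega
  have e2 : (2 * p + 1) / 2 = p := by omega
  have e3 : 2 * p % 2 = 0 := by omega
  have e4 : (2 * p + 1) % 2 = 1 := by omega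
  have hn : ¬ (Sn.wr A M w p = true) := by rw [h]; simp
  unfold stX
  rw [e1, e2, if_neg hn, if_neg hn, e3, e4]
  constructor
  · simp
  · simp

private theorem s5_ex {x : ℕ → Bool} {w p : ℕ} :
    (stX A M x (2 * p) w ↔ ¬ stX A M x (2 * p + 1) w) := by
  by_cases h : Sn.wr A M w p = true
  · rw [(s5_wr h).1, (s5_wr h).2, not_not]
  · have h' : Sn.wr A M w p = false := by simpa using h
    rw [(s5_rd h').1, (s5_rd h').2]

/-- TASK S5a. The source of a reader carries the same literal.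
Proof. `Sn.win_cases`. `w = wn t κ`, `t = 0`: the gate is 2 or 3, so `ps 0 κ ≥ 1`, `fr = w - 1`, `tt (w-1) = 0`, `xx (w - 1) = xx w - 1`: `kap (w-1) = el 0 (xx w - 1) = rel`. `t ≥ 1`: `fr = wn (t-1) κ`, `kap = κ = kap w = rel` (`Sn.kap_wn`, `Sn.tt_wn`). `w = t (3M+1) + 3M`: gate 4, `t = 0`, `w = 3M`, `fr = 3M - 1`: as the first case. Clause windows (`Sn.gate_clause`):
`fr = wn (aa+1) rel` with `rel = 3 c + (p - 4) < 3 M` (`4 ≤ p ≤ 6`): `Sn.kap_wn`. -/
theorem kap_fr (hM : 1 ≤ M) {w p : ℕ} (hw : w < Sn.nw M) (h : Sn.rd A M w p = true) :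
    Sn.kap A M (Sn.fr A M w p) = Sn.rel A M w p := by
  have hrd := h
  unfold Sn.rd at hrd
  rw [decide_eq_true_eq] at hrd
  rcases Sn.win_cases (A := A) hw with ⟨t, κ, ht, hκ, rfl⟩ | ⟨t, ht, rfl⟩ | ⟨c, hc, rfl⟩
  · rcases Nat.eq_zero_or_pos t with ht0 | ht0
    · subst ht0
      have hps := Sn.ps_lt (A := A) (t := 0) hκ
      have hx : Sn.ps A M 0 κ ≠ 0 := by
        intro hx
        have hg := Sn.gate_zero (A := A) hκ
        rw [if_pos hx] at hg
        rcases hrd with h1 | h1 <;> omega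
      have hg : Sn.gate A M (Sn.wn A M 0 κ) ≠ 6 := by
        rw [Sn.gate_zero hκ, if_neg hx]
        split_ifs <;> omega
      obtain ⟨htt, hxx⟩ := Sn.tt_wn (A := A) (t := 0) hκ
      have hw0 : Sn.wn A M 0 κ = Sn.ps A M 0 κ := by unfold Sn.wn; omega
      unfold Sn.fr Sn.rel
      rw [if_neg hg, if_neg hg, if_pos htt, if_pos htt, hxx, hw0]
      have t1 : Sn.tt M (Sn.ps A M 0 κ - 1) = 0 := by
        unfold Sn.tt; exact Nat.div_eq_of_lt (by omega)
      have t2 : Sn.xx M (Sn.ps A M 0 κ - 1) = Sn.ps A M 0 κ - 1 := by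
        unfold Sn.xx; exact Nat.mod_eq_of_lt (by omega)
      unfold Sn.kap
      rw [t1, t2]
    · have hg := Sn.gate_pass (A := A) (M := M) (t := t) ht0 ht hκ
      obtain ⟨htt, hxx⟩ := Sn.tt_wn (A := A) (t := t) hκ
      have hk := Sn.kap_wn (A := A) (t := t) hκ
      unfold Sn.fr Sn.rel
      rw [if_neg (by omega), if_neg (by omega), if_neg (by omega), if_neg (by omega), hk, htt,
        Sn.kap_wn hκ]
  · have hg := Sn.gate_end (A := A) (M := M) (t := t) ht
    have ht0 : t = 0 := by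
      by_contra hne
      rw [if_neg hne] at hg
      rcases hrd with h1 | h1 <;> omega
    subst ht0
    rw [if_pos rfl] at hg
    have e0 : 0 * (3 * M + 1) + 3 * M = 3 * M := by omega
    rw [e0] at hg ⊢
    have htt : Sn.tt M (3 * M) = 0 := by
      unfold Sn.tt; exact Nat.div_eq_of_lt (by omega)
    have hxx : Sn.xx M (3 * M) = 3 * M := by
      unfold Sn.xx; exact Nat.mod_eq_of_lt (by omega)
    have hn6 : ¬ Sn.gate A M (3 * M) = 6 := by omega
    unfold Sn.fr Sn.rel
    rw [if_neg hn6, if_neg hn6, if_pos htt, if_pos htt, hxx]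
    have t1 : Sn.tt M (3 * M - 1) = 0 := by
      unfold Sn.tt; exact Nat.div_eq_of_lt (by omega)
    have t2 : Sn.xx M (3 * M - 1) = 3 * M - 1 := by
      unfold Sn.xx; exact Nat.mod_eq_of_lt (by omega)
    unfold Sn.kap
    rw [t1, t2]
  · have hg := Sn.gate_clause (A := A) hc
    have hp : 4 ≤ p ∧ p ≤ 6 := by
      rcases hrd with h1 | h1
      · omega
      · exact h1.2
    have hrel : Sn.rel A M (Sn.c0 M + (M - 1 - c)) p = 3 * c + (p - 4) := by
      unfold Sn.rel
      rw [if_pos hg]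
      omega
    have hκ : 3 * c + (p - 4) < 3 * M := by omega
    unfold Sn.fr
    rw [if_pos hg, hrel, Sn.kap_wn hκ]

/-- TASK S5b. A satisfying assignment gives a solution of the net.
Proof. `wr`: `(2p)/2 = (2p+1)/2 = p`; `(X ↔ True) ↔ ¬ (X ↔ False)`. `rd`: `w` does not write `p = b/2` (`Sn.excl`), `w' = fr w p` writes it (`Sn.source`), and `kap w' = rel w p` (`kap_fr`). So `Ex1` holds (as in `sol_ex1`, or use it after proving the first two fields). `ok`: case on the kind. 0, 1, 3, 4: `ok_free`. 2: `ok_copy`: `¬ st (2 rpg) w ↔ x (A (rel) / 2) = true` (`rpg` is not written: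
`Sn.pages`), `st (2 wpg) w ↔ x (A (kap w) / 2) = true`, and for kind 2 `A (el 0 (xx w)) / 2 = A (el 0 (xx w - 1)) / 2` (from `gate = 2`), `kap w = el 0 (xx w)`, `rel = el 0 (xx w - 1)`. 5: `ok_pass`, `rel = kap w`. 6: `ok_clause`: `rel w (4 + i) = 3 c + i` with `c = M - 1 - (w - c0) < M`, and `hx c`. (kinds: `Sn.gate` is at most 6.) -/
theorem sol_of_sat (hM : 1 ≤ M) {x : ℕ → Bool}
    (hx : ∀ c < M, ∃ i < 3, (x (A (3 * c + i) / 2) = true ↔ A (3 * c + i) % 2 = 1)) :
    SolS A M (stX A M x) := by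
  have hex : ∀ w, Ex1 A M (stX A M x) w := fun w p _ _ => s5_ex
  refine ⟨fun w p _ _ _ => s5_ex, ?_, ?_⟩
  · intro w b hw _ h
    have h1 : Sn.wr A M w (b / 2) = false := Sn.excl h
    have h2 : Sn.wr A M (Sn.fr A M w (b / 2)) (b / 2) = true := (Sn.source hM hw h).2.1
    have h3 := kap_fr hM hw h
    have hn : ¬ (Sn.wr A M w (b / 2) = true) := by rw [h1]; simp
    unfold stX
    rw [if_neg hn, if_pos h2, h3]
  · intro w hw
    have hle := s5_gate_le A M w
    have hcase : (Sn.gate A M w = 0 ∨ Sn.gate A M w = 1 ∨ Sn.gate A M w = 3 ∨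
        Sn.gate A M w = 4) ∨ Sn.gate A M w = 2 ∨ Sn.gate A M w = 5 ∨ Sn.gate A M w = 6 := by
      omega
    rcases hcase with hg | hg | hg | hg
    · exact ok_free hM hw (hex w) hg
    · have hr : Sn.rd A M w (Sn.rpg A M w) = true := by
        unfold Sn.rd
        rw [decide_eq_true_eq]
        left
        exact ⟨by omega, by omega, rfl⟩
      have hwr : Sn.wr A M w (Sn.wpg A M w) = true := by
        unfold Sn.wr
        rw [decide_eq_true_eq]
        exact ⟨by omega, rfl⟩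
      obtain ⟨g1, g2⟩ := s5_gate2 hg
      rw [ok_copy hM hw (hex w) hg, (s5_rd (Sn.excl hr)).1, (s5_wr hwr).1, not_not]
      have hrel : Sn.rel A M w (Sn.rpg A M w) = Sn.el A M 0 (Sn.xx M w - 1) := by
        unfold Sn.rel
        rw [if_neg (by omega), if_pos g1]
      have hkap : Sn.kap A M w = Sn.el A M 0 (Sn.xx M w) := by
        unfold Sn.kap
        rw [g1]
      rw [hrel, hkap, g2]
    · have hr : Sn.rd A M w (Sn.rpg A M w) = true := by
        unfold Sn.rd
        rw [decide_eq_true_eq]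
        left
        exact ⟨by omega, by omega, rfl⟩
      have hwr : Sn.wr A M w (Sn.wpg A M w) = true := by
        unfold Sn.wr
        rw [decide_eq_true_eq]
        exact ⟨by omega, rfl⟩
      have g1 := s5_gate5 hg
      rw [ok_pass hM hw (hex w) hg, (s5_rd (Sn.excl hr)).1, (s5_wr hwr).1, not_not]
      have hrel : Sn.rel A M w (Sn.rpg A M w) = Sn.kap A M w := by
        unfold Sn.rel
        rw [if_neg (by omega), if_neg g1]
      rw [hrel]
    · obtain ⟨g1, g2⟩ := s5_gate6 hg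
      rw [ok_clause hM hw (hex w) hg]
      obtain ⟨i, hi, hxi⟩ := hx (M - 1 - (w - Sn.c0 M)) (by omega)
      refine ⟨i, hi, ?_⟩
      have hr : Sn.rd A M w (4 + i) = true := by
        unfold Sn.rd
        rw [decide_eq_true_eq]
        right
        exact ⟨hg, by omega, by omega⟩
      have hrel : Sn.rel A M w (4 + i) = 3 * (M - 1 - (w - Sn.c0 M)) + i := by
        unfold Sn.rel
        rw [if_pos hg]
        omega
      rw [(s5_rd (Sn.excl hr)).1, not_not, hrel]
      exact hxi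

/-- The net of a 3CNF has a solution iff the formula is satisfiable. -/
theorem sol_iff_sat (A : ℕ → ℕ) {M : ℕ} (hM : 1 ≤ M) : (satNet A M).Sol ↔ Sat3 A M := by
  constructor
  · rintro ⟨st, h1, h2, h3⟩
    exact sat_of_sol hM ⟨h1, h2, h3⟩
  · rintro ⟨x, hx⟩
    have h := sol_of_sat hM hx
    exact ⟨stX A M x, h.wr, h.rd, h.ok⟩

end Pool.Agent.Lib.MP_711ea9_lc.FH
end

section

set_option autoImplicit false

namespace Pool.Agent.Lib.MP_711ea9_lc.FH

variable {A : ℕ → ℕ} {M : ℕ}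

/-- Different codes are different vertices. -/
theorem satG_inj (A : ℕ → ℕ) (hM : 1 ≤ M) :
    Function.Injective (fun i : Fin (8 * (satNet A M).Y) => (satNet A M).dec i) :=
  fun i j h => Fin.ext (dec_inj (sat_valid A hM) i.2 j.2 h)

/-- The graph of a 3CNF is planar. -/
theorem satG_planar (A : ℕ → ℕ) (hM : 1 ≤ M) : Planar (satG A M) :=
  planar_of_layout ((net_layout (sat_valid A hM) (sat_laminar A M)).comap _ (satG_inj A hM))
    (fun i => i.val) Fin.val_injective

/-- The reduction is correct. -/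
theorem satG_ff (A : ℕ → ℕ) (hM : 1 ≤ M) (h0 : 0 < 8 * (satNet A M).Y) :
    Firefighter (satG A M) ⟨0, h0⟩ (Sn.kk M) ↔ Sat3 A M := by
  have hV := sat_valid A hM
  have hr : ∀ u v, (satNet A M).G.Adj u v →
      u ∈ Set.range (fun i : Fin (8 * (satNet A M).Y) => (satNet A M).dec i) := by
    intro u v h
    obtain ⟨c, hc, hd⟩ := dec_surj hV (ex_of_liv hV ⟨v, h⟩)
    exact ⟨⟨c, hc⟩, hd⟩
  have h00 : (satNet A M).dec 0 = Vtx.src 0 := by
    simp [Net.dec]
  rw [firefighter_iff_FF, satG, FF_comap _ _ (satG_inj A hM) hr]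
  show FF (satNet A M).G ((satNet A M).dec 0) (Sn.kk M) ↔ Sat3 A M
  rw [h00, ff_iff_sol hV, sol_iff_sat A hM]

end Pool.Agent.Lib.MP_711ea9_lc.FH
end
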