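import Pool.Agent.Lib.MP_711ea9_lc.Mg.G013
import Pool.Agent.Lib.MP_711ea9_lc.TW.Base

section

set_option autoImplicit false

/-!
# Cutting off the fire at time `p`
-/

namespace Pool.Agent.Lib.MP_711ea9_lc

open Finset

section

variable {V : Type*} [Fintype V] [DecidableEq V] {G : SimpleGraph V} {s : V}

/-- Reachability through `M` is symmetric between vertices of `M`. -/
lemma comp_symm {M : Finset V} {x y : V} (hx : x ∈ M) (h : y ∈ comp G M x) : x ∈ comp G M y := by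
  rw [mem_comp] at h ⊢
  induction h with
  | refl => exact Relation.ReflTransGen.refl
  | tail h1 h2 ih =>
    refine Relation.ReflTransGen.head ⟨h2.1.symm, ?_⟩ ih
    rcases comp_mem_or (mem_comp.2 h1) with h3 | h3
    · rw [h3]; exact hx
    · exact h3

lemma comp_trans {M : Finset V} {x y z : V} (h : y ∈ comp G M x) (h' : z ∈ comp G M y) :
    z ∈ comp G M x := by
  rw [mem_comp] at h h' ⊢
  exact Relation.ReflTransGen.trans h h'

lemma comp_mono {M M' : Finset V} (h : M ⊆ M') (x : V) : comp G M x ⊆ comp G M' x := by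
  intro y hy
  rw [mem_comp] at hy ⊢
  exact Rch.mono h hy

lemma comp_conn (M : Finset V) (x : V) : Conn G (comp G M x) :=
  ⟨x, self_mem_comp, fun _ hy => comp_rch hy⟩

namespace Burn

variable (b : Burn G s)

/-- The guards of the alternative strategy: the old ones until time `p`, then all vertices of `H` which
are not burnt. -/
def cut (p : ℕ) (H : Finset V) : Finset V := b.A p ∪ (H \ b.F p)

/-- The new guards that are needed before time `p + i`. -/
noncomputable def TT (p : ℕ) (H : Finset V) (i : ℕ) : Finset V :=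
  thr G s (b.cut p H) (p + i) \ b.A p

/-- The free vertices. -/
def fr (p : ℕ) (H : Finset V) : Finset V := univ \ (b.F p ∪ b.A p ∪ H)

/-- The vertices which catch fire at time `p`. -/
def Nw (p : ℕ) : Finset V := b.F p \ b.F (p - 1)

lemma mem_cut {p : ℕ} {H : Finset V} {v : V} :
    v ∈ b.cut p H ↔ v ∈ b.A p ∨ (v ∈ H ∧ v ∉ b.F p) := by
  simp [cut]

lemma mem_fr {p : ℕ} {H : Finset V} {v : V} :
    v ∈ b.fr p H ↔ v ∉ b.F p ∧ v ∉ b.A p ∧ v ∉ H := by
  simp [fr]

/-- K1. Induction on `i`, with `b.out`, `b.Fstep`, `b.FA`. -/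
lemma cut_fire {p : ℕ} {H : Finset V} {i : ℕ} (hi : i ≤ p) :
    fireF G s (b.cut p H) i = b.F i := by
  induction i with
  | zero => rw [b.F0]; simp [fireF]
  | succ i ih =>
    have ih' := ih (by omega)
    ext w
    rw [mem_fireF_succ, ih', mem_cut]
    constructor
    · rintro (h | ⟨h1, u, hu, huw⟩)
      · exact b.Fmono (Nat.le_succ i) h
      · rcases b.out i u hu w huw with h | h
        · exact h
        · exact (h1 (Or.inl (b.Amono hi h))).elim
    · intro h
      rcases b.Fstep i w h with h1 | h1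
      · exact Or.inl h1
      · refine Or.inr ⟨?_, h1⟩
        rintro (h2 | h2)
        · exact b.FA h h2
        · exact h2.2 (b.Fmono hi h)

/-- K2. `w ∈ thr (i+1)` is adjacent to `b.F i`, so it is in `b.F (i+1) ⊆ b.F p` (impossible) or `b.A (i+1)`. -/
lemma cut_thr {p : ℕ} {H : Finset V} {i : ℕ} (hi : i ≤ p) :
    thr G s (b.cut p H) i ⊆ b.A i := by
  cases i with
  | zero => simp [thr]
  | succ i =>
    intro w hw
    rw [mem_thr_succ, b.cut_fire (by omega), mem_cut] at hw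
    obtain ⟨h1, u, hu, huw⟩ := hw
    rcases b.out i u hu w huw with h | h
    · exfalso
      rcases h1 with h2 | h2
      · exact b.FA h h2
      · exact h2.2 (b.Fmono hi h)
    · exact h

lemma source_notMem_cut {p : ℕ} {H : Finset V} : s ∉ b.cut p H := by
  rw [mem_cut]
  rintro (h | h)
  · exact b.FA (b.s_mem 0) h
  · exact h.2 (b.s_mem p)

/-- K3. Every vertex that catches fire after time `p` in the alternative strategy is free, and its component in
the free region is adjacent to a vertex of `Nw p`. Induction on `a`: the new vertex `v` is adjacent to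
`u ∈ fireF (p+a)`; if `u ∈ b.F p` then `u ∈ Nw p` (`p = (p-1)+1`; `b.out (p-1)` for `u ∈ b.F (p-1)` gives
`v ∈ b.F p` or `v ∈ b.A p`); otherwise `u ∈ comp (fr) v` and `comp (fr) u ⊆ comp (fr) v`. -/
lemma cut_region {p : ℕ} {H : Finset V} (hp : 1 ≤ p) {a : ℕ} {v : V}
    (hv : v ∈ fireF G s (b.cut p H) (p + a)) (hvp : v ∉ b.F p) :
    v ∈ b.fr p H ∧ ∃ c ∈ b.Nw p, ∃ u ∈ comp G (b.fr p H) v, G.Adj c u := by
  induction a generalizing v with
  | zero =>
    rw [Nat.add_zero, b.cut_fire le_rfl] at hv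
    exact (hvp hv).elim
  | succ a ih =>
    rw [← Nat.add_assoc, mem_fireF_succ, mem_cut] at hv
    rcases hv with hv | ⟨h1, u, hu, huv⟩
    · exact ih hv hvp
    · have hA : v ∉ b.A p := fun h => h1 (Or.inl h)
      have hH : v ∉ H := fun h => h1 (Or.inr ⟨h, hvp⟩)
      have hvf : v ∈ b.fr p H := b.mem_fr.2 ⟨hvp, hA, hH⟩
      refine ⟨hvf, ?_⟩
      by_cases hup : u ∈ b.F p
      · refine ⟨u, ?_, v, self_mem_comp, huv⟩
        rw [Nw, Finset.mem_sdiff]
        refine ⟨hup, fun h2 => ?_⟩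
        have hp1 : p - 1 + 1 = p := by omega
        have h3 := b.out (p - 1) u h2 v huv
        rw [hp1] at h3
        exact h3.elim hvp hA
      · obtain ⟨h2, c, hc, u', hu', hcu⟩ := ih hu hup
        exact ⟨c, hc, u', comp_trans (comp_step self_mem_comp huv.symm h2) hu', hcu⟩

/-- K4. From K3: `fr ⊆ univ \ H`. -/
lemma cut_comp {p : ℕ} {H : Finset V} (hp : 1 ≤ p) {a : ℕ} {v : V}
    (hv : v ∈ fireF G s (b.cut p H) (p + a)) :
    v ∈ b.F p ∨ ∃ c ∈ b.Nw p, v ∈ comp G (univ \ H) c := by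
  by_cases hvp : v ∈ b.F p
  · exact Or.inl hvp
  · right
    obtain ⟨h1, c, hc, u, hu, hcu⟩ := b.cut_region hp hv hvp
    refine ⟨c, hc, ?_⟩
    have hsub : b.fr p H ⊆ univ \ H := by
      intro w hw
      rw [mem_fr] at hw
      simp [hw.2.2]
    have huf : u ∈ b.fr p H := by
      rcases comp_mem_or hu with h | h
      · rw [h]; exact h1
      · exact h
    have h2 : u ∈ comp G (univ \ H) c := comp_step self_mem_comp hcu (hsub huf)
    exact comp_trans h2 (comp_mono hsub u (comp_symm h1 hu))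

lemma TT_mono {p : ℕ} {H : Finset V} {i i' : ℕ} (h : i ≤ i') : b.TT p H i ⊆ b.TT p H i' := by
  unfold TT
  exact Finset.sdiff_subset_sdiff (thr_mono (by omega)) le_rfl

lemma TT_mem {p : ℕ} {H : Finset V} {i : ℕ} {h : V} (hh : h ∈ b.TT p H i) :
    h ∈ H ∧ h ∉ b.F p ∧ h ∉ b.A p := by
  rw [TT, Finset.mem_sdiff] at hh
  have h1 := thr_subset _ hh.1
  rw [mem_cut] at h1
  rcases h1 with h1 | h1
  · exact (hh.2 h1).elim
  · exact ⟨h1.1, h1.2, hh.2⟩

/-- K5. `h` is adjacent to some `u ∈ fireF (p + i - 1)` (`i ≥ 1` since `TT 0 = ∅` by K2); if `u ∈ b.F p` then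
`u ∈ Nw p` as in K3 (`v = u = c`); otherwise K4. -/
lemma TT_adj {p : ℕ} {H : Finset V} (hp : 1 ≤ p) {i : ℕ} {h : V} (hh : h ∈ b.TT p H i) :
    ∃ c ∈ b.Nw p, ∃ v ∈ comp G (univ \ H) c, G.Adj v h := by
  obtain ⟨hH, hF, hA⟩ := b.TT_mem hh
  rw [TT, Finset.mem_sdiff] at hh
  rcases Nat.eq_zero_or_pos i with hi | hi
  · subst hi
    exact (hh.2 (b.cut_thr le_rfl hh.1)).elim
  · obtain ⟨m, rfl⟩ : ∃ m, i = m + 1 := ⟨i - 1, by omega⟩
    rw [← Nat.add_assoc, mem_thr_succ] at hh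
    obtain ⟨⟨_, u, hu, huh⟩, _⟩ := hh
    by_cases hup : u ∈ b.F p
    · refine ⟨u, ?_, u, self_mem_comp, huh⟩
      rw [Nw, Finset.mem_sdiff]
      refine ⟨hup, fun h2 => ?_⟩
      have hp1 : p - 1 + 1 = p := by omega
      have h3 := b.out (p - 1) u h2 h huh
      rw [hp1] at h3
      exact h3.elim hF hA
    · rcases b.cut_comp hp hu with h2 | ⟨c, hc, h2⟩
      · exact (hup h2).elim
      · exact ⟨c, hc, u, h2, huh⟩

end Burn

end

end Pool.Agent.Lib.MP_711ea9_lc
end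

section

set_option autoImplicit false

/-!
# Many times with the same pair give a linked pair
-/

namespace Pool.Agent.Lib.MP_711ea9_lc

open Finset

section

variable {V : Type*} [Fintype V] [DecidableEq V] {G : SimpleGraph V} {s : V}

namespace Burn

variable (b : Burn G s)

/-- N1. `b.F P` is connected: every burnt vertex is reached from `s` through `b.F P` (`b.Fstep`, `b.F0`). -/
lemma fire_conn (P : ℕ) : ∀ x ∈ b.F P, Rch G (b.F P) s x :=
  b.F_rch P

/-- N2. Let `P` be the maximum of the `p i`, attained at `i₀`, `D i = comp (fr (p i) H) (w i)`,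
`C = b.F P ∪ ⋃ D i`. `z, z' ∉ b.F P = b.F (p i₀)`, and `z, z' ∈ H` are not in `D i ⊆ fr (p i) H` (`w i ∈ fr`). `C` is
connected (root `s`): `c i ∈ b.F (p i) ⊆ b.F P` is adjacent to a vertex of `D i`. `D i ⊆ comp (univ \ H) (c i)`, and for
`i ≠ j` the two components are different, hence disjoint (`comp_symm`, `comp_trans`; `c i ∉ H`). -/
theorem linked_of_family {M : ℕ} (hM : 1 ≤ M) (H : Finset V) {z z' : V} (hzz : z ≠ z')
    (hz : z ∈ H) (hz' : z' ∈ H) (p : Fin M → ℕ) (w c : Fin M → V)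
    (hzF : ∀ i, z ∉ b.F (p i)) (hzF' : ∀ i, z' ∉ b.F (p i))
    (hw : ∀ i, w i ∈ b.fr (p i) H) (hc : ∀ i, c i ∈ b.Nw (p i)) (hcH : ∀ i, c i ∉ H)
    (hcw : ∀ i, ∃ u ∈ comp G (b.fr (p i) H) (w i), G.Adj (c i) u)
    (hwz : ∀ i, ∃ u ∈ comp G (b.fr (p i) H) (w i), G.Adj u z)
    (hwz' : ∀ i, ∃ u ∈ comp G (b.fr (p i) H) (w i), G.Adj u z')
    (hne : ∀ i j, i ≠ j → comp G (univ \ H) (c i) ≠ comp G (univ \ H) (c j)) :
    Linked G M := by
  classical
  have hne0 : (univ : Finset (Fin M)).Nonempty := ⟨⟨0, hM⟩, Finset.mem_univ _⟩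
  obtain ⟨i₀, -, hmax⟩ := Finset.exists_max_image (univ : Finset (Fin M)) p hne0
  have hDfr : ∀ i, ∀ x ∈ comp G (b.fr (p i) H) (w i), x ∈ b.fr (p i) H := by
    intro i x hx
    rcases comp_mem_or hx with h | h
    · rw [h]; exact hw i
    · exact h
  have hDH : ∀ i, ∀ x ∈ comp G (b.fr (p i) H) (w i), x ∉ H := by
    intro i x hx
    exact (b.mem_fr.1 (hDfr i x hx)).2.2
  have hfrH : ∀ i, b.fr (p i) H ⊆ univ \ H := by
    intro i x hx
    rw [Finset.mem_sdiff]
    exact ⟨Finset.mem_univ _, (b.mem_fr.1 hx).2.2⟩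
  -- every element of `D i` is reached from an adjacent vertex `u`
  have hfrom : ∀ i, ∀ u ∈ comp G (b.fr (p i) H) (w i), ∀ x ∈ comp G (b.fr (p i) H) (w i),
      x ∈ comp G (b.fr (p i) H) u := by
    intro i u hu x hx
    exact comp_trans (comp_symm (hw i) hu) hx
  have hcF : ∀ i, c i ∈ b.F (p i₀) := by
    intro i
    have h1 := hc i
    unfold Nw at h1
    rw [Finset.mem_sdiff] at h1
    exact b.Fmono (hmax i (Finset.mem_univ _)) h1.1
  have hDc : ∀ i, ∀ x ∈ comp G (b.fr (p i) H) (w i), x ∈ comp G (univ \ H) (c i) := by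
    intro i x hx
    obtain ⟨u, hu, hcu⟩ := hcw i
    have h1 : u ∈ comp G (univ \ H) (c i) :=
      comp_step self_mem_comp hcu (hfrH i (hDfr i u hu))
    exact comp_trans h1 (comp_mono (hfrH i) u (hfrom i u hu x hx))
  refine ⟨z, z', b.F (p i₀) ∪ univ.biUnion (fun i => comp G (b.fr (p i) H) (w i)),
    fun i => comp G (b.fr (p i) H) (w i), hzz, ?_, ?_, ?_, ?_, ?_, ?_, ?_, ?_⟩
  · rw [Finset.mem_union, Finset.mem_biUnion, not_or]
    refine ⟨hzF i₀, ?_⟩
    rintro ⟨i, -, hi⟩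
    exact hDH i z hi hz
  · rw [Finset.mem_union, Finset.mem_biUnion, not_or]
    refine ⟨hzF' i₀, ?_⟩
    rintro ⟨i, -, hi⟩
    exact hDH i z' hi hz'
  · refine ⟨s, Finset.mem_union_left _ (b.s_mem _), ?_⟩
    intro x hx
    rcases Finset.mem_union.1 hx with hx | hx
    · exact (b.F_rch _ x hx).mono Finset.subset_union_left
    · obtain ⟨i, -, hi⟩ := Finset.mem_biUnion.1 hx
      obtain ⟨u, hu, hcu⟩ := hcw i
      have h1 : Rch G (b.F (p i₀) ∪ univ.biUnion (fun i => comp G (b.fr (p i) H) (w i))) s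
          (c i) := (b.F_rch _ (c i) (hcF i)).mono Finset.subset_union_left
      have hsub : comp G (b.fr (p i) H) (w i) ⊆
          b.F (p i₀) ∪ univ.biUnion (fun i => comp G (b.fr (p i) H) (w i)) := by
        intro y hy
        exact Finset.mem_union_right _ (Finset.mem_biUnion.2 ⟨i, Finset.mem_univ _, hy⟩)
      have h2 : Rch G (b.F (p i₀) ∪ univ.biUnion (fun i => comp G (b.fr (p i) H) (w i))) s u :=
        Relation.ReflTransGen.tail h1 ⟨hcu, hsub hu⟩
      have h3 : comp G (b.fr (p i) H) u ⊆ comp G (b.fr (p i) H) (w i) := by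
        intro y hy
        exact comp_trans hu hy
      exact Relation.ReflTransGen.trans h2
        ((comp_rch (hfrom i u hu x hi)).mono (h3.trans hsub))
  · intro i y hy
    exact Finset.mem_union_right _ (Finset.mem_biUnion.2 ⟨i, Finset.mem_univ _, hy⟩)
  · intro i
    exact comp_conn _ _
  · intro i j hij
    rw [Finset.disjoint_left]
    intro v hvi hvj
    apply hne i j hij
    have hi := hDc i v hvi
    have hj := hDc j v hvj
    have hci : c i ∈ univ \ H := Finset.mem_sdiff.2 ⟨Finset.mem_univ _, hcH i⟩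
    have hcj : c j ∈ univ \ H := Finset.mem_sdiff.2 ⟨Finset.mem_univ _, hcH j⟩
    have h1 : c i ∈ comp G (univ \ H) (c j) := comp_trans hj (comp_symm hci hi)
    have h2 : c j ∈ comp G (univ \ H) (c i) := comp_trans hi (comp_symm hcj hj)
    apply Finset.Subset.antisymm
    · intro y hy
      exact comp_trans h1 hy
    · intro y hy
      exact comp_trans h2 hy
  · exact hwz
  · exact hwz'

end Burn

/-- N3. Use the first `M` of the `M'` sets. -/
lemma Linked.mono {M M' : ℕ} (h : M ≤ M') (hL : Linked G M') : Linked G M := by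
  obtain ⟨z, z', C, D, h1, h2, h3, h4, h5, h6, h7, h8, h9⟩ := hL
  refine ⟨z, z', C, fun i => D (Fin.castLE h i), h1, h2, h3, h4, fun i => h5 _, fun i => h6 _, ?_,
    fun i => h8 _, fun i => h9 _⟩
  intro i j hij
  exact h7 _ _ (fun hh => hij (Fin.castLE_injective h hh))

/-- N4. The `M` sets `D i` contain different neighbours of `z`. -/
lemma linked_degree {M : ℕ} (hL : Linked G M) : ∃ z, M ≤ (G.neighborSet z).ncard := by
  obtain ⟨z, z', C, D, h1, h2, h3, h4, h5, h6, h7, h8, h9⟩ := hL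
  choose x hx hxz using h8
  have hinj : Function.Injective x := by
    intro i j hij
    by_contra hne
    exact Finset.disjoint_left.1 (h7 i j hne) (hx i) (hij ▸ hx j)
  refine ⟨z, ?_⟩
  have hsub : x '' Set.univ ⊆ G.neighborSet z := by
    rintro _ ⟨i, -, rfl⟩
    exact (hxz i).symm
  have := Set.ncard_le_ncard hsub (Set.toFinite _)
  rw [Set.ncard_image_of_injective _ hinj, Set.ncard_univ, Nat.card_eq_fintype_card,
    Fintype.card_fin] at this
  exact this

end

end Pool.Agent.Lib.MP_711ea9_lc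
end

section

set_option autoImplicit false
set_option linter.unusedSectionVars false

/-!
# Graphs of treewidth two have no linked pairs
-/

namespace Pool.Agent.Lib.MP_711ea9_lc

open Finset

section

variable {V : Type*} [Fintype V] [DecidableEq V] {G : SimpleGraph V} {s : V}

private lemma linkB_rk_up {k : ℕ} (τ : TreeOrd G k) :
    ∀ (n : ℕ) (x u : V), τ.rk x ≤ n → u ∈ τ.up x → τ.rk u < τ.rk x := by
  intro n
  induction n with
  | zero =>
    intro x u hx hu
    obtain ⟨p, hp, _⟩ := τ.up_par x u hu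
    have := τ.rk_par x p hp
    omega
  | succ n ih =>
    intro x u hx hu
    obtain ⟨p, hp, h⟩ := τ.up_par x u hu
    have h1 := τ.rk_par x p hp
    rcases h with h | h
    · rw [h]; exact h1
    · exact (ih p u (by omega) h).trans h1

private lemma linkB_Rc_up {k : ℕ} (τ : TreeOrd G k) :
    ∀ (n : ℕ) (x u : V), τ.rk x ≤ n → u ∈ τ.up x → τ.Rc ∅ x u := by
  intro n
  induction n with
  | zero =>
    intro x u hx hu
    obtain ⟨p, hp, _⟩ := τ.up_par x u hu
    have := τ.rk_par x p hp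
    omega
  | succ n ih =>
    intro x u hx hu
    obtain ⟨p, hp, h⟩ := τ.up_par x u hu
    have h1 := τ.rk_par x p hp
    have h2 : τ.St ∅ x p := ⟨Finset.notMem_empty _, hp⟩
    rcases h with h | h
    · rw [h]; exact Relation.ReflTransGen.single h2
    · exact Relation.ReflTransGen.head h2 (ih p u (by omega) h)

private lemma linkB_Rc_rk {k : ℕ} (τ : TreeOrd G k) {x v : V} (h : τ.Rc ∅ x v) :
    x = v ∨ τ.rk v < τ.rk x := by
  induction h with
  | refl => exact Or.inl rfl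
  | tail _ h2 ih =>
    have h3 := τ.rk_par _ _ h2.2
    rcases ih with ih | ih
    · right; rw [ih]; exact h3
    · right; omega

/-- Climbing. -/
private lemma linkB_climb {k : ℕ} (τ : TreeOrd G k) {v y : V} (hy : ¬ τ.Rc ∅ y v) {a : V}
    (ha : τ.Rc ∅ a v) (hya : y ∈ τ.up a) : y ∈ τ.up v := by
  unfold TreeOrd.Rc at ha
  induction ha using Relation.ReflTransGen.head_induction_on with
  | refl => exact hya
  | head h1 h2 ih =>
    obtain ⟨p, hp, h⟩ := τ.up_par _ y hya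
    have h3 := hp.symm.trans h1.2
    rw [Option.some_inj] at h3
    subst h3
    rcases h with h | h
    · exact absurd (by rw [h]; exact h2) hy
    · exact ih h

private lemma linkB_cross_up {k : ℕ} (τ : TreeOrd G k) {v x y : V} (hx : τ.Rc ∅ x v)
    (hy : ¬ τ.Rc ∅ y v) (hxy : G.Adj x y) : y ∈ τ.up v := by
  rcases τ.adj x y hxy with h | h
  · exact absurd ((linkB_Rc_up τ _ y x le_rfl h).trans hx) hy
  · exact linkB_climb τ hy hx h

private lemma linkB_cross_rch {C : Finset V} {r x : V} (hr : r ∈ C) (h : Rch G C r x) (P : V → Prop)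
    (hP : P r) (hx : ¬ P x) : ∃ a ∈ C, ∃ b ∈ C, P a ∧ ¬ P b ∧ G.Adj a b := by
  induction h with
  | refl => exact absurd hP hx
  | @tail b c h1 h2 ih =>
    by_cases hb : P b
    · refine ⟨b, ?_, c, h2.2, hb, hx, h2.1⟩
      rcases Relation.ReflTransGen.cases_tail h1 with h3 | ⟨d, _, h3⟩
      · rw [h3]; exact hr
      · exact h3.2
    · exact ih hb

private lemma linkB_cross {C : Finset V} (hC : Conn G C) (P : V → Prop) {a b : V} (ha : a ∈ C)
    (hb : b ∈ C) (hPa : P a) (hPb : ¬ P b) : ∃ x ∈ C, ∃ y ∈ C, P x ∧ ¬ P y ∧ G.Adj x y := by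
  obtain ⟨r, hr, h⟩ := hC
  by_cases hPr : P r
  · exact linkB_cross_rch hr (h b hb) P hPr hPb
  · obtain ⟨x, hx, y, hy, h1, h2, h3⟩ :=
      linkB_cross_rch hr (h a ha) (fun v => ¬ P v) hPr (not_not.2 hPa)
    exact ⟨y, hy, x, hx, not_not.1 h2, h1, h3.symm⟩

/-- N5. Helly. Let `t i` be an element of smallest rank of `W i`, and let `i₀` be such that `rk (t i₀)` is largest;
`v = t i₀`. Then the bag of `v` meets every `W i`. Let `D = {x | Rc ∅ x v}` be the descendants of `v`.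
(a) Adjacent vertices are related by `up`, and `u ∈ up x` implies `Rc ∅ x u` (`up_par`, induction on the rank). If
`x ∈ D`, `y ∉ D` are adjacent, then `y ∈ up x` and `y ∈ up v` (climb from `x` to `v`: `y ∈ up a`, `a ≠ v`, `par a = some a'`
gives `y = a'` or `y ∈ up a'`; `y ≠ a'` since `a' ∈ D`). (b) `W i₀ ⊆ D`: otherwise there are adjacent `x ∈ D`, `y ∉ D` in
`W i₀` (connected, `v ∈ D`) and `y ∈ up v` has smaller rank than `v`. (c) For `i ≠ i₀` there are adjacent `x ∈ W i₀ ⊆ D`,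
`y ∈ W i`. If `y ∉ D`, then `y ∈ up v` by (a). If `y ∈ D`: the element `t i` of `W i` has rank `≤ rk v`, so it is `v` or not
in `D`; in the second case the connected set `W i` has adjacent `x' ∈ D`, `y' ∉ D`, and `y' ∈ up v`. So the bag of `v` has
at least `m` elements. -/
theorem helly {k m : ℕ} (τ : TreeOrd G k) (W : Fin m → Finset V) (hm : 1 ≤ m)
    (hW : ∀ i, Conn G (W i)) (hd : ∀ i j, i ≠ j → Disjoint (W i) (W j))
    (ht : ∀ i j, i ≠ j → ∃ x ∈ W i, ∃ y ∈ W j, G.Adj x y) : m ≤ k + 1 := by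
  have h1 : ∀ i, ∃ t ∈ W i, ∀ x ∈ W i, τ.rk t ≤ τ.rk x := by
    intro i
    obtain ⟨r, hr, _⟩ := hW i
    exact Finset.exists_min_image (W i) τ.rk ⟨r, hr⟩
  choose t htW htm using h1
  haveI : Nonempty (Fin m) := ⟨⟨0, hm⟩⟩
  obtain ⟨i₀, hi₀⟩ := Finite.exists_max (fun i => τ.rk (t i))
  have hb : ∀ x ∈ W i₀, τ.Rc ∅ x (t i₀) := by
    intro x hx
    by_contra hcon
    obtain ⟨a, ha, b, hb, h2, h3, h4⟩ := linkB_cross (hW i₀) (fun x => τ.Rc ∅ x (t i₀)) (htW i₀) hx
      Relation.ReflTransGen.refl hcon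
    have h5 := linkB_cross_up τ h2 h3 h4
    have h6 := linkB_rk_up τ _ _ _ le_rfl h5
    have h7 := htm i₀ b hb
    omega
  have hc : ∀ i, ∃ y ∈ W i, y ∈ τ.bag (t i₀) := by
    intro i
    by_cases hi : i = i₀
    · subst hi
      exact ⟨t i, htW i, Finset.mem_insert_self _ _⟩
    · obtain ⟨x, hx, y, hy, hxy⟩ := ht i₀ i (Ne.symm hi)
      by_cases hyD : τ.Rc ∅ y (t i₀)
      · by_cases htD : τ.Rc ∅ (t i) (t i₀)
        · refine ⟨t i, htW i, ?_⟩
          rcases linkB_Rc_rk τ htD with h | h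
          · rw [h]; exact Finset.mem_insert_self _ _
          · have h' : τ.rk (t i) ≤ τ.rk (t i₀) := hi₀ i
            omega
        · obtain ⟨a, ha, b, hb, h2, h3, h4⟩ := linkB_cross (hW i) (fun x => τ.Rc ∅ x (t i₀)) hy
            (htW i) hyD htD
          exact ⟨b, hb, Finset.mem_insert_of_mem (linkB_cross_up τ h2 h3 h4)⟩
      · exact ⟨y, hy, Finset.mem_insert_of_mem (linkB_cross_up τ (hb x hx) hyD hxy)⟩
  choose f hfW hfb using hc
  have hf : Function.Injective f := by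
    intro i j hij
    by_contra hne
    exact Finset.disjoint_left.1 (hd i j hne) (hfW i) (by rw [hij]; exact hfW j)
  have h2 : (Finset.univ.image f).card ≤ (τ.bag (t i₀)).card := by
    refine Finset.card_le_card ?_
    intro y hy
    obtain ⟨i, _, rfl⟩ := Finset.mem_image.1 hy
    exact hfb i
  rw [Finset.card_image_of_injective _ hf, Finset.card_univ, Fintype.card_fin] at h2
  refine h2.trans ?_
  unfold TreeOrd.bag
  exact (Finset.card_insert_le _ _).trans (Nat.add_le_add_right (τ.up_card _) 1)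

private lemma linkB_four (τ : TreeOrd G 2) {z z' : V} {A B E : Finset V} (hzz : z ≠ z')
    (hzA : z ∉ A) (hzB : z ∉ B) (hzE : z ∉ E) (hA' : z' ∉ A) (hE' : z' ∉ E)
    (hA : Conn G A) (hB : Conn G B) (hE : Conn G E) (hAB : Disjoint A B) (hAE : Disjoint A E)
    (hBE : Disjoint B E) (haz : ∃ x ∈ A, G.Adj x z) (haz' : ∃ x ∈ A, G.Adj x z')
    (hbz : ∃ x ∈ B, G.Adj x z) (hbz' : ∃ x ∈ B, G.Adj x z') (hez : ∃ x ∈ E, G.Adj x z)
    (hez' : ∃ x ∈ E, G.Adj x z') (hae : ∃ x ∈ A, ∃ y ∈ E, G.Adj x y) : False := by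
  have h := helly τ (![{z}, insert z' B, A, E] : Fin 4 → Finset V) (by norm_num) ?_ ?_ ?_
  · omega
  · intro i
    fin_cases i
    · refine ⟨z, Finset.mem_singleton_self z, ?_⟩
      intro x hx
      have hx' : x = z := Finset.mem_singleton.1 hx
      rw [hx']
      exact Relation.ReflTransGen.refl
    · obtain ⟨r, hr, h⟩ := hB
      refine ⟨r, Finset.mem_insert_of_mem hr, ?_⟩
      intro x hx
      rcases Finset.mem_insert.1 hx with hx | hx
      · obtain ⟨y, hy, hyz⟩ := hbz'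
        rw [hx]
        exact Relation.ReflTransGen.tail (Rch.mono (Finset.subset_insert _ _) (h y hy))
          ⟨hyz, Finset.mem_insert_self _ _⟩
      · exact Rch.mono (Finset.subset_insert _ _) (h x hx)
    · exact hA
    · exact hE
  · have h01 : Disjoint ({z} : Finset V) (insert z' B) := by
      rw [Finset.disjoint_singleton_left, Finset.mem_insert]; tauto
    have h02 : Disjoint ({z} : Finset V) A := by rwa [Finset.disjoint_singleton_left]
    have h03 : Disjoint ({z} : Finset V) E := by rwa [Finset.disjoint_singleton_left]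
    have h12 : Disjoint (insert z' B) A := by
      rw [Finset.disjoint_insert_left]; exact ⟨hA', hAB.symm⟩
    have h13 : Disjoint (insert z' B) E := by
      rw [Finset.disjoint_insert_left]; exact ⟨hE', hBE⟩
    intro i j hij
    fin_cases i <;> fin_cases j <;>
      first
        | exact absurd rfl hij
        | exact h01
        | exact h01.symm
        | exact h02
        | exact h02.symm
        | exact h03
        | exact h03.symm
        | exact h12
        | exact h12.symm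
        | exact h13
        | exact h13.symm
        | exact hAE
        | exact hAE.symm
  · have h01 : ∃ x ∈ ({z} : Finset V), ∃ y ∈ insert z' B, G.Adj x y := by
      obtain ⟨x, hx, hxz⟩ := hbz
      exact ⟨z, Finset.mem_singleton_self z, x, Finset.mem_insert_of_mem hx, hxz.symm⟩
    have h02 : ∃ x ∈ ({z} : Finset V), ∃ y ∈ A, G.Adj x y := by
      obtain ⟨x, hx, hxz⟩ := haz
      exact ⟨z, Finset.mem_singleton_self z, x, hx, hxz.symm⟩
    have h03 : ∃ x ∈ ({z} : Finset V), ∃ y ∈ E, G.Adj x y := by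
      obtain ⟨x, hx, hxz⟩ := hez
      exact ⟨z, Finset.mem_singleton_self z, x, hx, hxz.symm⟩
    have h12 : ∃ x ∈ insert z' B, ∃ y ∈ A, G.Adj x y := by
      obtain ⟨x, hx, hxz⟩ := haz'
      exact ⟨z', Finset.mem_insert_self _ _, x, hx, hxz.symm⟩
    have h13 : ∃ x ∈ insert z' B, ∃ y ∈ E, G.Adj x y := by
      obtain ⟨x, hx, hxz⟩ := hez'
      exact ⟨z', Finset.mem_insert_self _ _, x, hx, hxz.symm⟩
    have hsym : ∀ {P Q : Finset V}, (∃ x ∈ P, ∃ y ∈ Q, G.Adj x y) → ∃ x ∈ Q, ∃ y ∈ P, G.Adj x y := by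
      rintro P Q ⟨x, hx, y, hy, h⟩
      exact ⟨y, hy, x, hx, h.symm⟩
    intro i j hij
    fin_cases i <;> fin_cases j <;>
      first
        | exact absurd rfl hij
        | exact h01
        | exact hsym h01
        | exact h02
        | exact hsym h02
        | exact h03
        | exact hsym h03
        | exact h12
        | exact hsym h12
        | exact h13
        | exact hsym h13
        | exact hae
        | exact hsym hae

/-- N6. Let `E = comp (C \ (D 1 ∪ D 2)) x₀` for some `x₀ ∈ D 0` (it contains `D 0`, and is contained in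
`C \ (D 1 ∪ D 2)`). As `C` is connected and `E ≠ C`, `E` is adjacent to `D 1` or to `D 2`, say to `D a`; let `D c` be the
other one. Apply `helly` to `{z}`, `{z'} ∪ D c`, `D a`, `E`. -/
theorem not_linked_three (τ : TreeOrd G 2) : ¬ Linked G 3 := by
  rintro ⟨z, z', C, D, hzz, hzC, hzC', hC, hDC, hD, hdis, hz, hz'⟩
  obtain ⟨x₀, hx₀, hx₀D⟩ := hD 0
  obtain ⟨x₁, hx₁, -⟩ := hD 1
  have hd01 := hdis 0 1 (by decide)
  have hd02 := hdis 0 2 (by decide)
  have hd12 := hdis 1 2 (by decide)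
  set M : Finset V := C \ (D 1 ∪ D 2) with hM
  have hDM : D 0 ⊆ M := by
    intro x hx
    rw [hM, Finset.mem_sdiff, Finset.mem_union]
    refine ⟨hDC 0 hx, ?_⟩
    rintro (h | h)
    · exact Finset.disjoint_left.1 hd01 hx h
    · exact Finset.disjoint_left.1 hd02 hx h
  set E : Finset V := comp G M x₀ with hE
  have hEM : E ⊆ M := by
    intro x hx
    rcases comp_mem_or hx with h | h
    · rw [h]; exact hDM hx₀
    · exact h
  have hDE : D 0 ⊆ E := by
    intro x hx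
    rw [hE, mem_comp]
    exact Rch.mono hDM (hx₀D x hx)
  have hEC : Conn G E := comp_conn M x₀
  have hMC : ∀ x ∈ E, x ∈ C ∧ x ∉ D 1 ∧ x ∉ D 2 := by
    intro x hx
    have h := hEM hx
    rw [hM, Finset.mem_sdiff, Finset.mem_union] at h
    tauto
  obtain ⟨a, ha, b, hb, haE, hbE, hab⟩ := linkB_cross hC (fun x => x ∈ E) (hDC 0 hx₀) (hDC 1 hx₁)
    (hDE hx₀) (fun h => (hMC _ h).2.1 hx₁)
  have hb' : b ∈ D 1 ∨ b ∈ D 2 := by
    by_contra hcon
    rw [not_or] at hcon
    refine hbE (comp_step haE hab ?_)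
    rw [hM, Finset.mem_sdiff, Finset.mem_union]
    tauto
  have hzE : z ∉ E := fun h => hzC (hMC z h).1
  have hzE' : z' ∉ E := fun h => hzC' (hMC z' h).1
  have hzD : ∀ i, z ∉ D i := fun i h => hzC (hDC i h)
  have hzD' : ∀ i, z' ∉ D i := fun i h => hzC' (hDC i h)
  have hE1 : Disjoint (D 1) E := Finset.disjoint_left.2 fun x hx hxE => (hMC x hxE).2.1 hx
  have hE2 : Disjoint (D 2) E := Finset.disjoint_left.2 fun x hx hxE => (hMC x hxE).2.2 hx
  have hEz : ∃ x ∈ E, G.Adj x z := by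
    obtain ⟨x, hx, h⟩ := hz 0
    exact ⟨x, hDE hx, h⟩
  have hEz' : ∃ x ∈ E, G.Adj x z' := by
    obtain ⟨x, hx, h⟩ := hz' 0
    exact ⟨x, hDE hx, h⟩
  rcases hb' with hb' | hb'
  · exact linkB_four τ hzz (hzD 1) (hzD 2) hzE (hzD' 1) hzE' (hD 1) (hD 2) hEC hd12 hE1 hE2
      (hz 1) (hz' 1) (hz 2) (hz' 2) hEz hEz' ⟨b, hb', a, haE, hab.symm⟩
  · exact linkB_four τ hzz (hzD 2) (hzD 1) hzE (hzD' 2) hzE' (hD 2) (hD 1) hEC hd12.symm hE2 hE1
      (hz 2) (hz' 2) (hz 1) (hz' 1) hEz hEz' ⟨b, hb', a, haE, hab.symm⟩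

end

end Pool.Agent.Lib.MP_711ea9_lc
end

section

set_option autoImplicit false

/-!
# Long fires are not optimal
-/

namespace Pool.Agent.Lib.MP_711ea9_lc

open Finset

/-- the number of guards that can be needed near one time -/
def cK (k L : ℕ) : ℕ := 8 * L * (k + 1)

/-- the number of scales -/
def cJ (k L : ℕ) : ℕ := (cK k L + 1) ^ cK k L

/-- the first scale -/
def cR (k L : ℕ) : ℕ := 64 * (2 * cK k L + 1) * (k + 1) * L

/-- the quotient of the scales -/
def cρ (k M L : ℕ) : ℕ := 4 + 16 * cJ k L * L * (2 * (k + 1)) ^ 2 * M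

/-- the threshold for the duration of the fire -/
def cT (k M L : ℕ) : ℕ := 8 * (4 * L * (cR k L * cρ k M L ^ cJ k L) + 1)

section

variable {V : Type*} [Fintype V] [DecidableEq V] {G : SimpleGraph V} {s : V}

namespace Burn

variable (b : Burn G s)

/-- the times with a small front, not near the end, near which no vertex of `H₀` burns or becomes threatened -/
def Typ (L K E : ℕ) (H₀ : Finset V) (p : ℕ) : Prop :=
  (1 ≤ p ∧ p ≤ b.T) ∧ (b.Nw p).card ≤ 4 * L ∧ p + E < b.T ∧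
    (∀ h ∈ H₀, (h ∈ b.F (p + K) → h ∈ b.F (p - 1)) ∧ (h ∈ b.A (p + K) → h ∈ b.A p))

private lemma coreA_card (S : Finset ℕ) (K : ℕ) (h : ∀ p ∈ S, ∀ q ∈ S, q < p + K) :
    S.card ≤ K := by
  rcases S.eq_empty_or_nonempty with h0 | h0
  · rw [h0]; simp
  · have hsub : S ⊆ Finset.Ico (S.min' h0) (S.min' h0 + K) := by
      intro q hq
      rw [Finset.mem_Ico]
      exact ⟨Finset.min'_le S q hq, h _ (Finset.min'_mem S h0) q hq⟩
    have h1 := Finset.card_le_card hsub
    rw [Nat.card_Ico] at h1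
    omega

open scoped Classical in
/-- O1. The sets `Nw p`, `1 ≤ p ≤ T`, are disjoint, so the times with `#Nw p ≥ 4 L + 1` number at most
`n/(4L+1) ≤ T/4`. At most `E + 1 ≤ T/8` times have `T ≤ p + E`. For fixed `h` at most `K + 1` times have
`h ∈ F (p+K) \ F (p-1)` (if `p₀` is the first one, then `h ∈ F (p - 1)` for `p ≥ p₀ + K + 1`) and at most `K` have
`h ∈ A (p+K) \ A p`; so at most `#H₀ (2K+1) ≤ T/8` times violate the last condition. -/
theorem typ_card {L K E : ℕ} {H₀ : Finset V} (hL : 1 ≤ L) (hn : Fintype.card V ≤ b.T * L)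
    (hE : 8 * (E + 1) ≤ b.T) (hH : 8 * (H₀.card * (2 * K + 1)) ≤ b.T) :
    b.T ≤ 2 * ((Icc 1 b.T).filter (fun p => b.Typ L K E H₀ p)).card := by
  set B1 : Finset ℕ := (Icc 1 b.T).filter (fun p => 4 * L < (b.Nw p).card) with hB1
  set B2 : Finset ℕ := (Icc 1 b.T).filter (fun p => b.T ≤ p + E) with hB2
  set VF : V → Finset ℕ := fun h => (Icc 1 b.T).filter (fun p => h ∈ b.F (p + K) ∧ h ∉ b.F (p - 1))
    with hVF
  set VA : V → Finset ℕ := fun h => (Icc 1 b.T).filter (fun p => h ∈ b.A (p + K) ∧ h ∉ b.A p)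
    with hVA
  set B3 : Finset ℕ := H₀.biUnion (fun h => VF h ∪ VA h) with hB3
  -- the three cardinalities
  have h1 : 4 * B1.card ≤ b.T := by
    have h2 : B1.card * (4 * L + 1) ≤ ∑ p ∈ B1, (b.Nw p).card := by
      rw [← smul_eq_mul]
      refine Finset.card_nsmul_le_sum _ _ _ ?_
      intro p hp
      rw [hB1, Finset.mem_filter] at hp
      exact hp.2
    have h3 : ∑ p ∈ B1, (b.Nw p).card ≤ Fintype.card V := by
      rw [← Finset.card_biUnion]
      · exact Finset.card_le_univ _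
      · have key : ∀ p ∈ B1, ∀ q ∈ B1, p < q → Disjoint (b.Nw p) (b.Nw q) := by
          intro p hp q hq hpq
          rw [Finset.disjoint_left]
          intro x hx hx'
          unfold Nw at hx hx'
          rw [Finset.mem_sdiff] at hx hx'
          exact hx'.2 (b.Fmono (by omega) hx.1)
        intro p hp q hq hpq
        rcases Nat.lt_or_gt_of_ne hpq with h | h
        · exact key p hp q hq h
        · exact (key q hq p hp h).symm
    have h4 : B1.card * (4 * L + 1) ≤ b.T * L := h2.trans (h3.trans hn)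
    by_contra hcon
    push Not at hcon
    have h5 : (b.T + 1) * (4 * L + 1) ≤ 4 * B1.card * (4 * L + 1) :=
      Nat.mul_le_mul_right _ hcon
    nlinarith
  have h2 : 8 * B2.card ≤ b.T := by
    have h3 : B2.card ≤ E + 1 := by
      refine coreA_card B2 (E + 1) ?_
      intro p hp q hq
      rw [hB2, Finset.mem_filter, Finset.mem_Icc] at hp hq
      omega
    omega
  have h3 : 8 * B3.card ≤ b.T := by
    have hV : ∀ h ∈ H₀, (VF h ∪ VA h).card ≤ 2 * K + 1 := by
      intro h _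
      have h4 : (VF h).card ≤ K + 1 := by
        refine coreA_card _ _ ?_
        intro p hp q hq
        rw [hVF] at hp hq
        simp only [Finset.mem_filter, Finset.mem_Icc] at hp hq
        by_contra hcon
        push Not at hcon
        exact hq.2.2 (b.Fmono (by omega) hp.2.1)
      have h5 : (VA h).card ≤ K := by
        refine coreA_card _ _ ?_
        intro p hp q hq
        rw [hVA] at hp hq
        simp only [Finset.mem_filter, Finset.mem_Icc] at hp hq
        by_contra hcon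
        push Not at hcon
        exact hq.2.2 (b.Amono (by omega) hp.2.1)
      have h6 := Finset.card_union_le (VF h) (VA h)
      omega
    have h4 : B3.card ≤ H₀.card * (2 * K + 1) := Finset.card_biUnion_le_card_mul _ _ _ hV
    omega
  -- the typical times
  have h4 : (Icc 1 b.T) ⊆ ((Icc 1 b.T).filter (fun p => b.Typ L K E H₀ p)) ∪ (B1 ∪ (B2 ∪ B3)) := by
    intro p hp
    by_contra hcon
    simp only [Finset.mem_union, not_or] at hcon
    obtain ⟨c0, c1, c2, c3⟩ := hcon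
    apply c0
    rw [Finset.mem_filter]
    refine ⟨hp, Finset.mem_Icc.1 hp, ?_, ?_, ?_⟩
    · by_contra hc
      exact c1 (Finset.mem_filter.2 ⟨hp, not_le.1 hc⟩)
    · by_contra hc
      exact c2 (Finset.mem_filter.2 ⟨hp, not_lt.1 hc⟩)
    · intro h hh
      constructor
      · intro h5
        by_contra hc
        refine c3 (Finset.mem_biUnion.2 ⟨h, hh, Finset.mem_union_left _ ?_⟩)
        exact Finset.mem_filter.2 ⟨hp, h5, hc⟩
      · intro h5
        by_contra hc
        refine c3 (Finset.mem_biUnion.2 ⟨h, hh, Finset.mem_union_right _ ?_⟩)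
        exact Finset.mem_filter.2 ⟨hp, h5, hc⟩
  have h5 := Finset.card_le_card h4
  have h6 := Finset.card_union_le ((Icc 1 b.T).filter (fun p => b.Typ L K E H₀ p)) (B1 ∪ (B2 ∪ B3))
  have h7 := Finset.card_union_le B1 (B2 ∪ B3)
  have h8 := Finset.card_union_le B2 B3
  rw [Nat.card_Icc] at h5
  omega

end Burn

end

end Pool.Agent.Lib.MP_711ea9_lc
end

section

set_option autoImplicit false

/-!
# The size of the threshold
-/

namespace Pool.Agent.Lib.MP_711ea9_lc

private lemma num_sq_le (h : ℕ) (hh : 4 ≤ h) : h ^ 2 ≤ 2 ^ h := by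
  induction h, hh using Nat.le_induction with
  | base => norm_num
  | succ n hn ih =>
    have h1 : (n + 1) ^ 2 ≤ 2 * n ^ 2 := by nlinarith
    calc (n + 1) ^ 2 ≤ 2 * n ^ 2 := h1
      _ ≤ 2 * 2 ^ n := Nat.mul_le_mul_left _ ih
      _ = 2 ^ (n + 1) := by rw [pow_succ]; ring

/-- Q1. Let `K = cK k L = 8 L (k+1)`, `J = cJ k L`, `M ≤ 2 ^ m`. Then `J ≤ 2 ^ (K ^ 2)` (`K + 1 ≤ 2 ^ K`),
`cR = 8 K (2 K + 1) ≤ 24 K ^ 2 ≤ 2 ^ (5 + 2 K)`, `64 L (k+1)^2 ≤ K ^ 2`, so
`cρ ≤ 4 + J K ^ 2 M ≤ 2 ^ (3 + K ^ 2 + 2 K + m)`, and `cT * L ≤ 40 L ^ 2 cR cρ ^ J ≤ 2 ^ (6 + 2 K) cR cρ ^ J ≤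
2 ^ (J (14 + K ^ 2 + 6 K + m))`. -/
lemma cT_le_pow {k M L m : ℕ} (hL : 1 ≤ L) (hM : 1 ≤ M) (hm : M ≤ 2 ^ m) :
    cT k M L * L ≤ 2 ^ (cJ k L * (14 + cK k L ^ 2 + 6 * cK k L + m)) := by
  set K := cK k L with hK
  set J := cJ k L with hJ
  have hKL : K = 8 * L * (k + 1) := rfl
  have hK1 : 1 ≤ K := by
    rw [hKL]
    have : 1 ≤ L * (k + 1) := Nat.mul_pos hL (Nat.succ_pos k)
    nlinarith
  have hLK : L ≤ K := by
    rw [hKL]
    nlinarith [Nat.zero_le (L * k)]
  have hK2 : K ≤ 2 ^ K := Nat.lt_two_pow_self.le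
  have hKK : K ^ 2 ≤ 2 ^ (2 * K) := by
    calc K ^ 2 ≤ (2 ^ K) ^ 2 := Nat.pow_le_pow_left hK2 2
      _ = 2 ^ (2 * K) := by rw [← pow_mul, mul_comm]
  have hJ2 : J ≤ 2 ^ (K ^ 2) := by
    have h1 : K + 1 ≤ 2 ^ K := Nat.lt_two_pow_self
    calc J = (K + 1) ^ K := rfl
      _ ≤ (2 ^ K) ^ K := Nat.pow_le_pow_left h1 K
      _ = 2 ^ (K ^ 2) := by rw [← pow_mul, pow_two]
  have hJ1 : 1 ≤ J := Nat.one_le_pow _ _ (Nat.succ_pos K)
  have hR : cR k L ≤ 2 ^ (5 + 2 * K) := by
    have h1 : cR k L = 8 * K * (2 * K + 1) := by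
      rw [hKL]
      unfold cR cK
      ring
    calc cR k L = 8 * K * (2 * K + 1) := h1
      _ ≤ 32 * K ^ 2 := by nlinarith
      _ ≤ 32 * 2 ^ (2 * K) := Nat.mul_le_mul_left _ hKK
      _ = 2 ^ (5 + 2 * K) := by rw [pow_add]; norm_num
  have hR1 : 1 ≤ cR k L := by
    unfold cR
    have : 1 ≤ (2 * cK k L + 1) * (k + 1) * L :=
      Nat.mul_pos (Nat.mul_pos (Nat.succ_pos _) (Nat.succ_pos _)) hL
    nlinarith
  have hρ : cρ k M L ≤ 2 ^ (3 + K ^ 2 + 2 * K + m) := by
    have h1 : 64 * L * (k + 1) ^ 2 ≤ K ^ 2 := by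
      rw [hKL]
      have h2 : L ≤ L ^ 2 := Nat.le_self_pow (by norm_num) L
      calc 64 * L * (k + 1) ^ 2 ≤ 64 * L ^ 2 * (k + 1) ^ 2 :=
            Nat.mul_le_mul_right _ (Nat.mul_le_mul_left _ h2)
        _ = (8 * L * (k + 1)) ^ 2 := by ring
    have h2 : cρ k M L = 4 + J * (64 * L * (k + 1) ^ 2) * M := by
      rw [hJ]
      unfold cρ
      ring
    have h3 : J * (64 * L * (k + 1) ^ 2) * M ≤ 2 ^ (K ^ 2 + 2 * K + m) := by
      calc J * (64 * L * (k + 1) ^ 2) * M ≤ 2 ^ (K ^ 2) * 2 ^ (2 * K) * 2 ^ m :=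
            Nat.mul_le_mul (Nat.mul_le_mul hJ2 (h1.trans hKK)) hm
        _ = _ := by rw [← pow_add, ← pow_add]
    have h4 : 1 ≤ 2 ^ (K ^ 2 + 2 * K + m) := Nat.one_le_two_pow
    have h5 : 2 ^ (3 + K ^ 2 + 2 * K + m) = 8 * 2 ^ (K ^ 2 + 2 * K + m) := by
      have h6 : 3 + K ^ 2 + 2 * K + m = 3 + (K ^ 2 + 2 * K + m) := by ring
      rw [h6, pow_add]
      norm_num
    rw [h2, h5]
    omega
  have hρ1 : 1 ≤ cρ k M L := by
    unfold cρ
    omega
  have hρJ : cρ k M L ^ J ≤ 2 ^ ((3 + K ^ 2 + 2 * K + m) * J) := by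
    calc cρ k M L ^ J ≤ (2 ^ (3 + K ^ 2 + 2 * K + m)) ^ J := Nat.pow_le_pow_left hρ J
      _ = _ := by rw [← pow_mul]
  have hL2 : 40 * L ^ 2 ≤ 2 ^ (6 + 2 * K) := by
    calc 40 * L ^ 2 ≤ 64 * K ^ 2 := Nat.mul_le_mul (by norm_num) (Nat.pow_le_pow_left hLK 2)
      _ ≤ 64 * 2 ^ (2 * K) := Nat.mul_le_mul_left _ hKK
      _ = _ := by rw [pow_add]; norm_num
  have hmain : cT k M L * L ≤ 40 * L ^ 2 * (cR k L * cρ k M L ^ J) := by
    have h1 : 1 ≤ L * (cR k L * cρ k M L ^ J) :=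
      Nat.mul_pos hL (Nat.mul_pos hR1 (Nat.pow_pos hρ1))
    have h2 : cT k M L = 8 * (4 * L * (cR k L * cρ k M L ^ J) + 1) := rfl
    rw [h2]
    calc 8 * (4 * L * (cR k L * cρ k M L ^ J) + 1) * L
        = (8 * (4 * (L * (cR k L * cρ k M L ^ J)) + 1)) * L := by ring
      _ ≤ (8 * (5 * (L * (cR k L * cρ k M L ^ J)))) * L := by
          refine Nat.mul_le_mul_right _ (Nat.mul_le_mul_left _ ?_)
          omega
      _ = _ := by ring
  calc cT k M L * L ≤ 40 * L ^ 2 * (cR k L * cρ k M L ^ J) := hmain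
    _ ≤ 2 ^ (6 + 2 * K) * (2 ^ (5 + 2 * K) * 2 ^ ((3 + K ^ 2 + 2 * K + m) * J)) :=
        Nat.mul_le_mul hL2 (Nat.mul_le_mul hR hρJ)
    _ = 2 ^ ((11 + 4 * K) + (3 + K ^ 2 + 2 * K + m) * J) := by
        rw [← pow_add, ← pow_add]
        congr 1
        ring
    _ ≤ 2 ^ (J * (14 + K ^ 2 + 6 * K + m)) := by
        refine Nat.pow_le_pow_right (by norm_num) ?_
        have h1 : 11 + 4 * K ≤ (11 + 4 * K) * J := Nat.le_mul_of_pos_right _ hJ1
        calc (11 + 4 * K) + (3 + K ^ 2 + 2 * K + m) * J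
            ≤ (11 + 4 * K) * J + (3 + K ^ 2 + 2 * K + m) * J := Nat.add_le_add_right h1 _
          _ = _ := by ring

/-- Q2. Let `Λ = Nat.log 2 n`, `y = Nat.log 2 Λ`, `a = 64 (k+1)^2`, so `cK k L ^ 2 = a L ^ 2`, `Λ ≥ 2 ^ (c L ^ 2)`,
`y ≥ c L ^ 2`, `2 ^ y ≤ Λ < 2 ^ (y + 1)`. `M ≤ d + Λ ^ d ≤ 2 ^ m` with `m = 1 + d (y + 2)`. By Q1 it is enough
that `J (14 + K ^ 2 + 6 K) + J m ≤ Λ`. `J ≤ 2 ^ (a L ^ 2)`, `14 + K ^ 2 + 6 K ≤ 2 ^ (5 + a L ^ 2)`, so the first part is
`≤ 2 ^ (2 a L ^ 2 + 5) ≤ 2 ^ (y - 1)` if `c ≥ 2 a + 6`. The second part: `2 ^ (a L ^ 2) (1 + d (y + 2)) ≤ 2 ^ (y - 1)` if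
`y ≥ 4 a L ^ 2` and `1 + d (y + 2) ≤ 2 ^ (y / 2)`, `y ≥ 4`, which holds for `y ≥ c₀(d)`. Take `c` large. -/
theorem cT_le (k d : ℕ) : ∃ c, 1 ≤ c ∧ ∀ L, 1 ≤ L → ∀ n M, 1 ≤ M →
    M ≤ d + (Nat.log 2 n) ^ d → 2 ^ (2 ^ (c * L ^ 2)) ≤ n → cT k M L * L ≤ n := by
  set a := 64 * (k + 1) ^ 2 with ha
  refine ⟨4 * a + 6 * d + 20, by omega, ?_⟩
  intro L hL n M hM hMd hn
  set K := cK k L with hK
  set J := cJ k L with hJ
  set N := a * L ^ 2 with hN
  have hKN : K ^ 2 = N := by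
    rw [hK, hN, ha]
    unfold cK
    ring
  have hn0 : n ≠ 0 := by
    have : 1 ≤ 2 ^ 2 ^ ((4 * a + 6 * d + 20) * L ^ 2) := Nat.one_le_two_pow
    omega
  set Λ := Nat.log 2 n with hΛ
  have hΛ1 : 2 ^ ((4 * a + 6 * d + 20) * L ^ 2) ≤ Λ := Nat.le_log_of_pow_le (by norm_num) hn
  have hΛn : 2 ^ Λ ≤ n := Nat.pow_log_le_self 2 hn0
  have hΛ0 : Λ ≠ 0 := by
    have : 1 ≤ 2 ^ ((4 * a + 6 * d + 20) * L ^ 2) := Nat.one_le_two_pow
    omega
  set y := Nat.log 2 Λ with hy
  have hy1 : (4 * a + 6 * d + 20) * L ^ 2 ≤ y := Nat.le_log_of_pow_le (by norm_num) hΛ1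
  have hyΛ : 2 ^ y ≤ Λ := Nat.pow_log_le_self 2 hΛ0
  have hΛy : Λ < 2 ^ (y + 1) := Nat.lt_pow_succ_log_self (by norm_num) _
  have hL2 : 1 ≤ L ^ 2 := Nat.one_le_pow _ _ hL
  have hy2 : 4 * N + 6 * d + 20 ≤ y := by
    calc 4 * N + 6 * d + 20 = 4 * a * L ^ 2 + (6 * d + 20) * 1 := by rw [hN]; ring
      _ ≤ 4 * a * L ^ 2 + (6 * d + 20) * L ^ 2 :=
          Nat.add_le_add_left (Nat.mul_le_mul_left _ hL2) _
      _ = (4 * a + 6 * d + 20) * L ^ 2 := by ring
      _ ≤ y := hy1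
  -- the bound for `M`
  have hm : M ≤ 2 ^ (1 + d * (y + 2)) := by
    have h1 : Λ ^ d ≤ 2 ^ (d * (y + 2)) := by
      calc Λ ^ d ≤ (2 ^ (y + 1)) ^ d := Nat.pow_le_pow_left hΛy.le d
        _ = 2 ^ ((y + 1) * d) := by rw [← pow_mul]
        _ ≤ _ := Nat.pow_le_pow_right (by norm_num) (by nlinarith)
    have h2 : d ≤ 2 ^ (d * (y + 2)) := by
      calc d ≤ 2 ^ d := Nat.lt_two_pow_self.le
        _ ≤ _ := Nat.pow_le_pow_right (by norm_num) (by nlinarith)
    have h3 : 2 ^ (1 + d * (y + 2)) = 2 * 2 ^ (d * (y + 2)) := by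
      rw [pow_add]
      norm_num
    omega
  refine (cT_le_pow (k := k) hL hM hm).trans (le_trans ?_ hΛn)
  refine Nat.pow_le_pow_right (by norm_num) (le_trans ?_ hyΛ)
  rw [← hK, ← hJ, hKN]
  have hJ2 : J ≤ 2 ^ N := by
    have h1 : K + 1 ≤ 2 ^ K := Nat.lt_two_pow_self
    calc J = (K + 1) ^ K := rfl
      _ ≤ (2 ^ K) ^ K := Nat.pow_le_pow_left h1 K
      _ = 2 ^ (K ^ 2) := by rw [← pow_mul, pow_two]
      _ = 2 ^ N := by rw [hKN]
  have hKN1 : K ≤ N := by
    rw [← hKN]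
    exact Nat.le_self_pow (by norm_num) K
  have hN2 : N < 2 ^ N := Nat.lt_two_pow_self
  have hA : J * (14 + N + 6 * K) ≤ 2 ^ (y - 1) := by
    calc J * (14 + N + 6 * K) ≤ 2 ^ N * (2 ^ (N + 5)) := by
          refine Nat.mul_le_mul hJ2 ?_
          rw [pow_add]
          omega
      _ = 2 ^ (2 * N + 5) := by rw [← pow_add]; congr 1; ring
      _ ≤ _ := Nat.pow_le_pow_right (by norm_num) (by omega)
  have hB : J * (1 + d * (y + 2)) ≤ 2 ^ (y - 1) := by
    set h := y / 2 with hh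
    have h1 : 3 * d + 10 ≤ h := by omega
    have h2 : y + 2 ≤ 3 * h := by omega
    have h3 : 1 + d * (y + 2) ≤ 2 ^ h := by
      calc 1 + d * (y + 2) ≤ 1 + d * (3 * h) :=
            Nat.add_le_add_left (Nat.mul_le_mul_left _ h2) _
        _ ≤ (3 * d + 1) * h := by nlinarith
        _ ≤ h * h := Nat.mul_le_mul_right _ (by omega)
        _ = h ^ 2 := (pow_two h).symm
        _ ≤ 2 ^ h := num_sq_le h (by omega)
    calc J * (1 + d * (y + 2)) ≤ 2 ^ N * 2 ^ h := Nat.mul_le_mul hJ2 h3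
      _ = 2 ^ (N + h) := by rw [← pow_add]
      _ ≤ _ := Nat.pow_le_pow_right (by norm_num) (by omega)
  calc J * (14 + N + 6 * K + (1 + d * (y + 2)))
      = J * (14 + N + 6 * K) + J * (1 + d * (y + 2)) := by ring
    _ ≤ 2 ^ (y - 1) + 2 ^ (y - 1) := Nat.add_le_add hA hB
    _ = 2 ^ y := by
        rw [← two_mul, ← pow_succ']
        congr 1
        omega

end Pool.Agent.Lib.MP_711ea9_lc
end

section

set_option autoImplicit false

/-!
# Pigeonhole
-/

namespace Pool.Agent.Lib.MP_711ea9_lc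

open Finset

section

variable {V : Type*} [Fintype V] [DecidableEq V] {G : SimpleGraph V} {s : V}

namespace Burn

variable (b : Burn G s)

/-- O2. Bound for `TT` at a typical time: by `TT_adj` every element of `TT p (H j) i` is a boundary vertex of
`comp (univ \ H j) c` for some `c ∈ Nw p` (`c ∉ H j` because `c ∈ F p \ F (p-1)` is not in `H 0 ⊇ H j`), so it lies in
`ty j x` for an `x` depending on `c`. So `#TT ≤ 4 L * (2 (k+1)) = cK k L`. -/
theorem TT_card {k L E : ℕ} {H₀ H : Finset V} {X : Finset V} {ty : V → Finset V}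
    (hHH : H ⊆ H₀) {p : ℕ} (hp : b.Typ L (cK k L) E H₀ p)
    (hty : ∀ x, (ty x).card ≤ 2 * (k + 1))
    (hb : ∀ c ∉ H, (∀ h ∈ H, ∀ v ∈ comp G (univ \ H) c, ¬ G.Adj v h) ∨
        ∃ x ∈ X, ∀ h ∈ H, ∀ v ∈ comp G (univ \ H) c, G.Adj v h → h ∈ ty x) (i : ℕ) :
    (b.TT p H i).card ≤ cK k L := by
  classical
  obtain ⟨⟨hp1, -⟩, hN, -, hH⟩ := hp
  have hcH : ∀ c ∈ b.Nw p, c ∉ H := by
    intro c hc hcH
    have h1 : c ∈ b.F p ∧ c ∉ b.F (p - 1) := by
      unfold Nw at hc
      exact Finset.mem_sdiff.1 hc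
    exact h1.2 ((hH c (hHH hcH)).1 (b.Fmono (Nat.le_add_right p (cK k L)) h1.1))
  have h2 : ∀ c ∈ b.Nw p, ∃ x : V, ∀ h ∈ H, ∀ v ∈ comp G (univ \ H) c, G.Adj v h → h ∈ ty x := by
    intro c hc
    rcases hb c (hcH c hc) with h3 | ⟨x, -, h3⟩
    · exact ⟨c, fun h hh v hv hvh => absurd hvh (h3 h hh v hv)⟩
    · exact ⟨x, h3⟩
  choose! f hf using h2
  have h3 : b.TT p H i ⊆ (b.Nw p).biUnion (fun c => ty (f c)) := by
    intro h hh
    obtain ⟨c, hc, v, hv, hvh⟩ := b.TT_adj hp1 hh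
    exact Finset.mem_biUnion.2 ⟨c, hc, hf c hc h (b.TT_mem hh).1 v hv hvh⟩
  calc (b.TT p H i).card ≤ ((b.Nw p).biUnion (fun c => ty (f c))).card := Finset.card_le_card h3
    _ ≤ ∑ c ∈ b.Nw p, (ty (f c)).card := Finset.card_biUnion_le
    _ ≤ ∑ c ∈ b.Nw p, 2 * (k + 1) := Finset.sum_le_sum fun c _ => hty (f c)
    _ = (b.Nw p).card * (2 * (k + 1)) := by rw [Finset.sum_const, smul_eq_mul]
    _ ≤ (4 * L) * (2 * (k + 1)) := Nat.mul_le_mul_right _ hN
    _ = cK k L := by unfold cK; ring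

/-- O3. Pigeonhole. For `p ∈ P` let `(z p, z' p, w p, c p)` be the data. All pairs `(z p, z' p)` lie in
`⋃_{x ∈ X'} ty' x ×ˢ ty' x`, a set of at most `#X' b₀²` elements: `w p ∉ H'`, and `z p, z' p ∈ H'` are adjacent to
`comp (fr p H) (w p) ⊆ comp (univ \ H') (w p)`; so the second alternative of `hb` holds. Hence some pair is attained for a
set `P'` of more than `M r` times. The map `p ↦ comp (univ \ H) (c p)` takes every value at most `r` times on `P'`
(`c p` is in the value, and the `c p` are different, being in disjoint sets `Nw p`), so it takes at least `M` values on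
`P'`; choose `M` times with different values and apply `linked_of_family`. -/
theorem linked_of_times {M r b₀ : ℕ} (hM : 1 ≤ M) {H H' X' : Finset V} {ty' : V → Finset V}
    (hHH : H' ⊆ H) (hr : ∀ c ∉ H, (comp G (univ \ H) c).card ≤ r)
    (hty : ∀ x, (ty' x).card ≤ b₀)
    (hb : ∀ c ∉ H', (∀ h ∈ H', ∀ v ∈ comp G (univ \ H') c, ¬ G.Adj v h) ∨
        ∃ x ∈ X', ∀ h ∈ H', ∀ v ∈ comp G (univ \ H') c, G.Adj v h → h ∈ ty' x)
    (P : Finset ℕ) (hP : X'.card * b₀ ^ 2 * (M * r) < P.card)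
    (hdat : ∀ p ∈ P, ∃ z z' w c : V, z ≠ z' ∧ z ∈ H' ∧ z' ∈ H' ∧ z ∉ b.F p ∧ z' ∉ b.F p ∧
      w ∈ b.fr p H ∧ c ∈ b.Nw p ∧ c ∉ H ∧
      (∃ u ∈ comp G (b.fr p H) w, G.Adj c u) ∧ (∃ u ∈ comp G (b.fr p H) w, G.Adj u z) ∧
      (∃ u ∈ comp G (b.fr p H) w, G.Adj u z')) :
    Linked G M := by
  classical
  have : Nonempty V := ⟨s⟩
  choose! z z' w c hzz hz hz' hzF hzF' hw hc hcH hcw hwz hwz' using hdat
  set Q : Finset (V × V) := X'.biUnion (fun x => ty' x ×ˢ ty' x) with hQ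
  have hQc : Q.card ≤ X'.card * b₀ ^ 2 := by
    calc Q.card ≤ ∑ x ∈ X', (ty' x ×ˢ ty' x).card := Finset.card_biUnion_le
      _ ≤ ∑ x ∈ X', b₀ ^ 2 := by
          refine Finset.sum_le_sum fun x _ => ?_
          rw [Finset.card_product, pow_two]
          exact Nat.mul_le_mul (hty x) (hty x)
      _ = _ := by rw [Finset.sum_const, smul_eq_mul]
  have hmap : ∀ p ∈ P, (z p, z' p) ∈ Q := by
    intro p hp
    have h1 := b.mem_fr.1 (hw p hp)
    have h2 : w p ∉ H' := fun h => h1.2.2 (hHH h)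
    have h3 : comp G (b.fr p H) (w p) ⊆ comp G (univ \ H') (w p) := by
      refine comp_mono ?_ _
      intro v hv
      have h4 := b.mem_fr.1 hv
      exact Finset.mem_sdiff.2 ⟨Finset.mem_univ _, fun h => h4.2.2 (hHH h)⟩
    obtain ⟨u, hu, huz⟩ := hwz p hp
    obtain ⟨u', hu', huz'⟩ := hwz' p hp
    rcases hb (w p) h2 with h5 | ⟨x, hx, h5⟩
    · exact absurd huz (h5 _ (hz p hp) u (h3 hu))
    · exact Finset.mem_biUnion.2 ⟨x, hx, Finset.mem_product.2
        ⟨h5 _ (hz p hp) u (h3 hu) huz, h5 _ (hz' p hp) u' (h3 hu') huz'⟩⟩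
  obtain ⟨q, -, hq⟩ := Finset.exists_lt_card_fiber_of_mul_lt_card_of_maps_to (n := M * r) hmap
    (lt_of_le_of_lt (Nat.mul_le_mul_right _ hQc) hP)
  set P' := P.filter (fun p => (z p, z' p) = q) with hP'
  set φ : ℕ → Finset V := fun p => comp G (univ \ H) (c p) with hφ
  have hcinj : ∀ p ∈ P, ∀ p' ∈ P, c p = c p' → p = p' := by
    have key : ∀ p ∈ P, ∀ p' ∈ P, c p = c p' → ¬ p < p' := by
      intro p hp p' hp' h hlt
      have h1 := hc p hp
      have h2 := hc p' hp'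
      unfold Nw at h1 h2
      rw [Finset.mem_sdiff] at h1 h2
      rw [← h] at h2
      exact h2.2 (b.Fmono (by omega : p ≤ p' - 1) h1.1)
    intro p hp p' hp' h
    rcases lt_trichotomy p p' with h1 | h1 | h1
    · exact absurd h1 (key p hp p' hp' h)
    · exact h1
    · exact absurd h1 (key p' hp' p hp h.symm)
  have hfib : P'.card ≤ (P'.image φ).card * r := by
    rw [mul_comm]
    refine Finset.card_le_mul_card_image P' r ?_
    intro D hD
    obtain ⟨p₀, hp₀, rfl⟩ := Finset.mem_image.1 hD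
    have h1 : (P'.filter (fun p => φ p = φ p₀)).card ≤ (φ p₀).card := by
      refine Finset.card_le_card_of_injOn c ?_ ?_
      · intro p hp
        obtain ⟨h2, h3⟩ := Finset.mem_filter.1 (Finset.mem_coe.1 hp)
        refine Finset.mem_coe.2 ?_
        rw [← h3]
        exact self_mem_comp
      · intro p hp p' hp' h
        have h2 := (Finset.mem_filter.1 (Finset.mem_filter.1 (Finset.mem_coe.1 hp)).1).1
        have h3 := (Finset.mem_filter.1 (Finset.mem_filter.1 (Finset.mem_coe.1 hp')).1).1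
        exact hcinj p h2 p' h3 h
    exact h1.trans (hr _ (hcH p₀ (Finset.mem_filter.1 hp₀).1))
  have hMim : M ≤ (P'.image φ).card := by
    by_contra hcon
    push Not at hcon
    have h1 : (P'.image φ).card * r ≤ M * r := Nat.mul_le_mul_right _ hcon.le
    omega
  obtain ⟨D, hD, hDM⟩ := Finset.exists_subset_card_eq hMim
  have hpre : ∀ d ∈ D, ∃ p ∈ P', φ p = d := fun d hd => Finset.mem_image.1 (hD hd)
  choose! pr hpr1 hpr2 using hpre
  let e := D.equivFinOfCardEq hDM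
  have hmem : ∀ i : Fin M, pr (e.symm i : D) ∈ P' := fun i => hpr1 _ (e.symm i).2
  have hmemP : ∀ i : Fin M, pr (e.symm i : D) ∈ P := fun i => (Finset.mem_filter.1 (hmem i)).1
  have hq1 : ∀ i : Fin M, z (pr (e.symm i : D)) = q.1 ∧ z' (pr (e.symm i : D)) = q.2 := by
    intro i
    have h1 := (Finset.mem_filter.1 (hmem i)).2
    exact ⟨congrArg Prod.fst h1, congrArg Prod.snd h1⟩
  have i₀ : Fin M := ⟨0, hM⟩
  refine b.linked_of_family hM H (z := q.1) (z' := q.2) ?_ ?_ ?_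
    (fun i => pr (e.symm i : D)) (fun i => w (pr (e.symm i : D)))
    (fun i => c (pr (e.symm i : D))) ?_ ?_ ?_ ?_ ?_ ?_ ?_ ?_ ?_
  · rw [← (hq1 i₀).1, ← (hq1 i₀).2]
    exact hzz _ (hmemP i₀)
  · rw [← (hq1 i₀).1]
    exact hHH (hz _ (hmemP i₀))
  · rw [← (hq1 i₀).2]
    exact hHH (hz' _ (hmemP i₀))
  · intro i
    rw [← (hq1 i).1]
    exact hzF _ (hmemP i)
  · intro i
    rw [← (hq1 i).2]
    exact hzF' _ (hmemP i)
  · intro i
    exact hw _ (hmemP i)
  · intro i
    exact hc _ (hmemP i)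
  · intro i
    exact hcH _ (hmemP i)
  · intro i
    exact hcw _ (hmemP i)
  · intro i
    rw [← (hq1 i).1]
    exact hwz _ (hmemP i)
  · intro i
    rw [← (hq1 i).2]
    exact hwz' _ (hmemP i)
  · intro i j hij h
    apply hij
    have h1 : φ (pr (e.symm i : D)) = φ (pr (e.symm j : D)) := h
    rw [hpr2 _ (e.symm i).2, hpr2 _ (e.symm j).2] at h1
    have h2 : e.symm i = e.symm j := Subtype.ext h1
    exact e.symm.injective h2

end Burn

end

end Pool.Agent.Lib.MP_711ea9_lc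
end

section

set_option autoImplicit false

/-!
# Doors
-/

namespace Pool.Agent.Lib.MP_711ea9_lc

open Finset

section

variable {V : Type*} [Fintype V] [DecidableEq V] {G : SimpleGraph V} {s : V}

namespace Burn

variable (b : Burn G s)

/-- K6. Doors. Claim: every `v ∈ fireF (p+a)`, `v ∉ b.F (p+a)`, has a `w ∈ b.A (p+a) \ b.A p` with
`w ∈ fireF (p+a)` and `v ∈ comp (fr) w`; induction on `a`: the new `v` is adjacent to `u ∈ fireF (p+a)`; if
`u ∈ b.F (p+a)`, then `b.out` gives `v ∈ b.F (p+a+1)` or `v ∈ b.A (p+a+1)`, take `w = v`; otherwise take the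
`w` of `u`. Now `z ∈ TT i` (`i ≥ 1`) is adjacent to `u ∈ fireF (p+i-1)`. If `u ∈ b.F (p+i-1)` then `z ∈ b.F (p+i)` or
`z ∈ b.A (p+i)`, against `htyp`. So the claim gives `w`; the last part is K3 for `w` (`w ∉ b.F p` since it is a
guard). -/
lemma doors {p : ℕ} {H : Finset V} {K : ℕ} (hp : 1 ≤ p)
    (htyp : ∀ h ∈ H, h ∉ b.F p → h ∉ b.A p → h ∉ b.F (p + K) ∧ h ∉ b.A (p + K))
    {i : ℕ} (hi : i ≤ K) {z : V} (hz : z ∈ b.TT p H i) :
    ∃ w ∈ b.A (p + i - 1) \ b.A p, w ∈ b.fr p H ∧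
      (∃ u ∈ comp G (b.fr p H) w, G.Adj u z) ∧
      (∃ c ∈ b.Nw p, ∃ u ∈ comp G (b.fr p H) w, G.Adj c u) := by
  -- the claim
  have claim : ∀ a : ℕ, ∀ v ∈ fireF G s (b.cut p H) (p + a), v ∉ b.F (p + a) →
      ∃ w ∈ b.A (p + a) \ b.A p, w ∈ fireF G s (b.cut p H) (p + a) ∧
        v ∈ comp G (b.fr p H) w := by
    intro a
    induction a with
    | zero =>
      intro v hv hv'
      rw [Nat.add_zero, b.cut_fire le_rfl] at hv
      exact (hv' hv).elim
    | succ a ih =>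
      intro v hv hv'
      have hv2 := hv
      rw [← Nat.add_assoc, mem_fireF_succ] at hv
      have hvF : v ∉ b.F (p + a) := fun h => hv' (b.Fmono (by omega) h)
      rcases hv with hv | ⟨hvc, u, hu, huv⟩
      · obtain ⟨w, hw, hw1, hw2⟩ := ih v hv hvF
        rw [Finset.mem_sdiff] at hw
        exact ⟨w, Finset.mem_sdiff.mpr ⟨b.Amono (by omega) hw.1, hw.2⟩,
          fireF_mono (by omega) hw1, hw2⟩
      · by_cases huF : u ∈ b.F (p + a)
        · rcases b.out (p + a) u huF v huv with h | h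
          · exact (hv' h).elim
          · refine ⟨v, Finset.mem_sdiff.mpr ⟨h, ?_⟩, hv2, self_mem_comp⟩
            intro h'
            exact hvc (b.mem_cut.mpr (Or.inl h'))
        · obtain ⟨w, hw, hw1, hw2⟩ := ih u hu huF
          rw [Finset.mem_sdiff] at hw
          refine ⟨w, Finset.mem_sdiff.mpr ⟨b.Amono (by omega) hw.1, hw.2⟩,
            fireF_mono (by omega) hw1, ?_⟩
          have hvp : v ∉ b.F p := fun h => hv' (b.Fmono (by omega) h)
          exact comp_step hw2 huv (b.cut_region hp hv2 hvp).1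
  have hzm := b.TT_mem hz
  have hzt := htyp z hzm.1 hzm.2.1 hzm.2.2
  have hz1 : z ∈ thr G s (b.cut p H) (p + i) := (Finset.mem_sdiff.mp hz).1
  cases i with
  | zero =>
    exact (hzm.2.2 (b.cut_thr le_rfl hz1)).elim
  | succ i =>
    rw [← Nat.add_assoc, mem_thr_succ] at hz1
    obtain ⟨-, u, hu, huz⟩ := hz1
    have huF : u ∉ b.F (p + i) := by
      intro huF
      rcases b.out (p + i) u huF z huz with h | h
      · exact hzt.1 (b.Fmono (by omega) h)
      · exact hzt.2 (b.Amono (by omega) h)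
    obtain ⟨w, hw, hw1, hw2⟩ := claim i u hu huF
    have hwF : w ∉ b.F p := fun h => b.FA h (Finset.mem_sdiff.mp hw).1
    have hreg := b.cut_region hp hw1 hwF
    have he : p + (i + 1) - 1 = p + i := by omega
    rw [he]
    exact ⟨w, hw, hreg.1, ⟨u, hw2, huz⟩, hreg.2⟩

/-- K7. `s ∉ cut`, so some `#thr i' > i'`, and `i' = p + i` with `i ≥ 1` by K2 and `b.Acard`. As
`thr (p+i) ⊆ b.A p ∪ TT i`: `#TT i ≥ p + i + 1 - #b.A p ≥ i + 1`, so `i + 1 ≤ K`. The doors of the elements of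
`TT i` lie in `b.A (p+i-1) \ b.A p`, which has at most `p + i - 1 - #b.A p` elements, so two elements have the same
door (`Finset.exists_ne_map_eq_of_card_lt_of_maps_to`). -/
theorem pair_of_infeasible {p : ℕ} {H : Finset V} {K : ℕ} (hp : 1 ≤ p)
    (htyp : ∀ h ∈ H, h ∉ b.F p → h ∉ b.A p → h ∉ b.F (p + K) ∧ h ∉ b.A (p + K))
    (hK : ∀ i, (b.TT p H i).card ≤ K) (hF : ¬ Feas G s (b.cut p H)) :
    ∃ z ∈ b.TT p H K, ∃ z' ∈ b.TT p H K, z ≠ z' ∧ ∃ w ∈ b.fr p H,
      (∃ u ∈ comp G (b.fr p H) w, G.Adj u z) ∧ (∃ u ∈ comp G (b.fr p H) w, G.Adj u z') ∧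
      (∃ c ∈ b.Nw p, ∃ u ∈ comp G (b.fr p H) w, G.Adj c u) := by
  classical
  have h1 : ∃ i', i' < (thr G s (b.cut p H) i').card := by
    by_contra hcon
    push Not at hcon
    exact hF ⟨b.source_notMem_cut, hcon⟩
  obtain ⟨i', hi'⟩ := h1
  have hpi : p < i' := by
    by_contra hcon
    push Not at hcon
    have h2 := Finset.card_le_card (b.cut_thr (H := H) hcon)
    have h3 := b.Acard i'
    omega
  obtain ⟨i, rfl⟩ : ∃ i, i' = p + i := ⟨i' - p, by omega⟩
  have hi1 : 1 ≤ i := by omega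
  have h2 : (thr G s (b.cut p H) (p + i)).card ≤ (b.TT p H i).card + (b.A p).card := by
    unfold TT
    exact Finset.card_le_card_sdiff_add_card
  have h3 := b.Acard p
  have h4 := hK i
  have hiK : i ≤ K := by omega
  have h5 : (b.A (p + i - 1) \ b.A p).card + (b.A p).card ≤ p + i - 1 := by
    rw [Finset.card_sdiff_add_card_eq_card (b.Amono (by omega))]
    exact b.Acard _
  have hdoor : ∀ z ∈ b.TT p H i, ∃ w ∈ b.A (p + i - 1) \ b.A p, w ∈ b.fr p H ∧
      (∃ u ∈ comp G (b.fr p H) w, G.Adj u z) ∧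
      (∃ c ∈ b.Nw p, ∃ u ∈ comp G (b.fr p H) w, G.Adj c u) :=
    fun z hz => b.doors hp htyp hiK hz
  choose! g hg1 hg2 hg3 hg4 using hdoor
  have h6 : (b.A (p + i - 1) \ b.A p).card < (b.TT p H i).card := by omega
  obtain ⟨z, hz, z', hz', hne, hgz⟩ :=
    Finset.exists_ne_map_eq_of_card_lt_of_maps_to h6 (f := g) (fun z hz => hg1 z hz)
  refine ⟨z, b.TT_mono hiK hz, z', b.TT_mono hiK hz', hne, g z, hg2 z hz, hg3 z hz, ?_, hg4 z hz⟩
  rw [hgz]
  exact hg3 z' hz'

end Burn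

end

end Pool.Agent.Lib.MP_711ea9_lc
end

section

set_option autoImplicit false

/-!
# Improvement and stability
-/

namespace Pool.Agent.Lib.MP_711ea9_lc

open Finset

section

variable {V : Type*} [Fintype V] [DecidableEq V] {G : SimpleGraph V} {s : V}

namespace Burn

variable (b : Burn G s)

/-- K8. `fireF i ⊆ fireF (p+i) ⊆ b.F p ∪ ⋃_{c ∈ Nw p} comp (univ \ H) c` has at most `#b.F p + f * r` elements, and
`#b.F b.T ≥ #b.F p + (b.T - p)` (`late_card` in Count.lean). -/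
theorem improve_of_feasible {p : ℕ} {H : Finset V} {f r : ℕ} (hp : 1 ≤ p)
    (hf : (b.Nw p).card ≤ f) (hr : ∀ c ∈ b.Nw p, (comp G (univ \ H) c).card ≤ r)
    (hT : p + f * r < b.T) (i : ℕ) :
    (fireF G s (b.cut p H) i).card < (b.F b.T).card := by
  classical
  have hsub : fireF G s (b.cut p H) i ⊆
      b.F p ∪ (b.Nw p).biUnion fun c => comp G (univ \ H) c := by
    intro v hv
    have hv2 : v ∈ fireF G s (b.cut p H) (p + i) := fireF_mono (by omega) hv
    rw [Finset.mem_union, Finset.mem_biUnion]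
    exact b.cut_comp hp hv2
  have h1 := Finset.card_le_card hsub
  have h2 := Finset.card_union_le (b.F p) ((b.Nw p).biUnion fun c => comp G (univ \ H) c)
  have h3 : ((b.Nw p).biUnion fun c => comp G (univ \ H) c).card ≤ (b.Nw p).card * r :=
    Finset.card_biUnion_le_card_mul _ _ _ hr
  have h4 : (b.Nw p).card * r ≤ f * r := Nat.mul_le_mul_right r hf
  have h5 := b.late_card p (by omega)
  have h6 : (b.F b.T \ b.F p).card + (b.F p).card = (b.F b.T).card :=
    Finset.card_sdiff_add_card_eq_card (b.FT p)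
  omega

/-- K9. By induction on `a ≤ i`: `fireF G s (cut p H') (p + a) = fireF G s (cut p H) (p + a)`. Step: both are
`b.F p` for `a = 0` (K1). `cut p H' ⊆ cut p H`, so `⊇` is clear; a vertex `w` that catches fire at `p + a + 1` for
`H'` and lies in `cut p H` is in `TT p H (a+1) ⊆ TT p H i ⊆ H'` (`w ∉ b.A p`), and not in `b.F p`, so it lies in
`cut p H'`, a contradiction. Then the statements follow from the definition of `thr`. -/
theorem TT_stable {p : ℕ} {H H' : Finset V} (hH : H' ⊆ H) {i : ℕ} (hi : b.TT p H i ⊆ H') :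
    (∀ a ≤ i, b.TT p H' a = b.TT p H a) ∧ b.TT p H' (i + 1) = b.TT p H (i + 1) ∩ H' := by
  have hcut : b.cut p H' ⊆ b.cut p H := by
    intro v hv
    rw [b.mem_cut] at hv ⊢
    rcases hv with h | h
    · exact Or.inl h
    · exact Or.inr ⟨hH h.1, h.2⟩
  have key : ∀ a ≤ i, fireF G s (b.cut p H') (p + a) = fireF G s (b.cut p H) (p + a) := by
    intro a
    induction a with
    | zero =>
      intro _
      rw [Nat.add_zero, b.cut_fire le_rfl, b.cut_fire le_rfl]
    | succ a ih =>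
      intro ha
      have ih' := ih (by omega)
      ext w
      rw [← Nat.add_assoc, mem_fireF_succ, mem_fireF_succ, ih']
      constructor
      · rintro (h | ⟨h1, u, hu, huw⟩)
        · exact Or.inl h
        · refine Or.inr ⟨?_, u, hu, huw⟩
          intro hw
          have hwA : w ∉ b.A p := fun h => h1 (b.mem_cut.mpr (Or.inl h))
          have hwT : w ∈ b.TT p H (a + 1) := by
            unfold TT
            rw [Finset.mem_sdiff, ← Nat.add_assoc, mem_thr_succ]
            exact ⟨⟨hw, u, hu, huw⟩, hwA⟩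
          have hwH : w ∈ H' := hi (b.TT_mono ha hwT)
          exact h1 (b.mem_cut.mpr (Or.inr ⟨hwH, (b.TT_mem hwT).2.1⟩))
      · rintro (h | ⟨h1, u, hu, huw⟩)
        · exact Or.inl h
        · exact Or.inr ⟨fun h => h1 (hcut h), u, hu, huw⟩
  constructor
  · intro a ha
    cases a with
    | zero =>
      ext w
      constructor
      · intro hw
        have h1 : w ∈ thr G s (b.cut p H') (p + 0) := (Finset.mem_sdiff.mp hw).1
        exact ((Finset.mem_sdiff.mp hw).2 (b.cut_thr le_rfl h1)).elim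
      · intro hw
        have h1 : w ∈ thr G s (b.cut p H) (p + 0) := (Finset.mem_sdiff.mp hw).1
        exact ((Finset.mem_sdiff.mp hw).2 (b.cut_thr le_rfl h1)).elim
    | succ a =>
      ext w
      unfold TT
      rw [Finset.mem_sdiff, Finset.mem_sdiff, ← Nat.add_assoc, mem_thr_succ, mem_thr_succ,
        key a (by omega)]
      constructor
      · rintro ⟨⟨h1, h2⟩, h3⟩
        exact ⟨⟨hcut h1, h2⟩, h3⟩
      · rintro ⟨⟨h1, h2⟩, h3⟩
        have hwT : w ∈ b.TT p H (a + 1) := by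
          unfold TT
          rw [Finset.mem_sdiff, ← Nat.add_assoc, mem_thr_succ]
          exact ⟨⟨h1, h2⟩, h3⟩
        have hwH : w ∈ H' := hi (b.TT_mono ha hwT)
        exact ⟨⟨b.mem_cut.mpr (Or.inr ⟨hwH, (b.TT_mem hwT).2.1⟩), h2⟩, h3⟩
  · ext w
    rw [Finset.mem_inter]
    constructor
    · intro hw
      have hwm := b.TT_mem hw
      unfold TT at hw ⊢
      rw [Finset.mem_sdiff, ← Nat.add_assoc, mem_thr_succ] at hw ⊢
      rw [key i le_rfl] at hw
      exact ⟨⟨⟨hcut hw.1.1, hw.1.2⟩, hw.2⟩, hwm.1⟩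
    · rintro ⟨hw, hwH⟩
      have hwm := b.TT_mem hw
      unfold TT at hw ⊢
      rw [Finset.mem_sdiff, ← Nat.add_assoc, mem_thr_succ] at hw ⊢
      rw [key i le_rfl]
      exact ⟨⟨b.mem_cut.mpr (Or.inr ⟨hwH, hwm.2.1⟩), hw.1.2⟩, hw.2⟩

end Burn

end

end Pool.Agent.Lib.MP_711ea9_lc
end

section

set_option autoImplicit false

/-!
# A stable scale
-/

namespace Pool.Agent.Lib.MP_711ea9_lc

open Finset

/-- L1. The number with digits `t 1, …, t K` in base `K + 1` (`t 1` is the leading digit). -/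
def digits (K : ℕ) (t : ℕ → ℕ) : ℕ := ∑ i ∈ range K, t (i + 1) * (K + 1) ^ (K - 1 - i)

private lemma Lex_geom (K n : ℕ) : (∑ i ∈ range n, K * (K + 1) ^ i) + 1 = (K + 1) ^ n := by
  induction n with
  | zero => simp
  | succ n ih =>
    rw [sum_range_succ, add_right_comm, ih, pow_succ]
    ring

private lemma Lex_tail (K m : ℕ) (u : ℕ → ℕ) (hu : ∀ i, u i ≤ K) :
    (∑ i ∈ range m, u i * (K + 1) ^ (m - 1 - i)) + 1 ≤ (K + 1) ^ m := by
  rw [← Lex_geom K m, ← sum_range_reflect (fun i => K * (K + 1) ^ i) m]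
  refine Nat.add_le_add_right (sum_le_sum fun i _ => ?_) 1
  exact Nat.mul_le_mul_right _ (hu i)

/-- L2. `digits ≤ K ∑ (K+1)^(K-1-i) = (K+1)^K - 1`. -/
lemma digits_lt (K : ℕ) (t : ℕ → ℕ) (ht : ∀ i, t i ≤ K) : digits K t < (K + 1) ^ K := by
  have h1 := Lex_tail K K (fun i => t (i + 1)) (fun i => ht _)
  rw [digits]
  omega

/-- L3. If `t' a = t a` for `1 ≤ a < i`, `t' i < t i`, `1 ≤ i ≤ K`, all `t' a ≤ K`, then
`digits K t' < digits K t`: the tail `∑_{a > i} K (K+1)^(K-a) = (K+1)^(K-i) - 1`. -/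
lemma digits_lex (K : ℕ) (t t' : ℕ → ℕ) (ht' : ∀ a, t' a ≤ K) {i : ℕ} (h1 : 1 ≤ i) (hi : i ≤ K)
    (heq : ∀ a, 1 ≤ a → a < i → t' a = t a) (hlt : t' i < t i) : digits K t' < digits K t := by
  obtain ⟨m, hm⟩ : ∃ m, K = (i - 1) + 1 + m := ⟨K - i, by omega⟩
  have hs : ∀ u : ℕ → ℕ, digits K u = (∑ a ∈ range (i - 1), u (a + 1) * (K + 1) ^ (K - 1 - a)) +
      u i * (K + 1) ^ m + ∑ a ∈ range m, u (i + a + 1) * (K + 1) ^ (m - 1 - a) := by
    intro u
    have h2 : digits K u = ∑ a ∈ range ((i - 1) + 1 + m), u (a + 1) * (K + 1) ^ (K - 1 - a) := by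
      rw [digits, ← hm]
    rw [h2, sum_range_add, sum_range_succ]
    congr 1
    · congr 1
      rw [show i - 1 + 1 = i by omega, show K - 1 - (i - 1) = m by omega]
    · refine sum_congr rfl fun a ha => ?_
      rw [mem_range] at ha
      rw [show i - 1 + 1 + a + 1 = i + a + 1 by omega, show K - 1 - (i - 1 + 1 + a) = m - 1 - a by omega]
  rw [hs t, hs t']
  have h3 : ∑ a ∈ range (i - 1), t' (a + 1) * (K + 1) ^ (K - 1 - a) =
      ∑ a ∈ range (i - 1), t (a + 1) * (K + 1) ^ (K - 1 - a) := by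
    refine sum_congr rfl fun a ha => ?_
    rw [mem_range] at ha
    rw [heq (a + 1) (by omega) (by omega)]
  have h4 := Lex_tail K m (fun a => t' (i + a + 1)) (fun a => ht' _)
  have h5 : (t' i + 1) * (K + 1) ^ m ≤ t i * (K + 1) ^ m := Nat.mul_le_mul_right _ hlt
  rw [add_mul, one_mul] at h5
  rw [h3]
  omega

section

variable {V : Type*} [Fintype V] [DecidableEq V] {G : SimpleGraph V} {s : V}

namespace Burn

variable (b : Burn G s)

/-- L4. Suppose not. For `j < J` let `i` be the smallest number with `TT p (H j) i ⊄ H (j+1)` (`i ≤ K` by assumption,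
`i ≥ 1` since `TT 0 = ∅` by `cut_thr`). By `TT_stable` with `i - 1`: `TT p (H (j+1)) a = TT p (H j) a` for `a < i`
and `TT p (H (j+1)) i = TT p (H j) i ∩ H (j+1)` is smaller. So `digits K (fun i => #TT p (H j) i)` decreases strictly
in `j ≤ J`, but it is `< (K+1)^K ≤ J` for `j = 0`. -/
theorem exists_stable {p K J : ℕ} (H : ℕ → Finset V) (hJ : (K + 1) ^ K ≤ J)
    (hH : ∀ j < J, H (j + 1) ⊆ H j) (hc : ∀ j ≤ J, ∀ i, (b.TT p (H j) i).card ≤ K) :
    ∃ j < J, b.TT p (H j) K ⊆ H (j + 1) := by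
  by_contra hcon
  push Not at hcon
  have h0 : ∀ j, b.TT p (H j) 0 = ∅ := by
    intro j
    rw [TT, add_zero, sdiff_eq_empty_iff_subset]
    exact b.cut_thr le_rfl
  have hdec : ∀ j < J, digits K (fun i => (b.TT p (H (j + 1)) i).card) <
      digits K (fun i => (b.TT p (H j) i).card) := by
    intro j hj
    have hex : ∃ i, ¬ b.TT p (H j) i ⊆ H (j + 1) := ⟨K, hcon j hj⟩
    classical
    obtain ⟨i, hi, hmin, hiK⟩ : ∃ i, ¬ b.TT p (H j) i ⊆ H (j + 1) ∧
        (∀ a < i, b.TT p (H j) a ⊆ H (j + 1)) ∧ i ≤ K :=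
      ⟨Nat.find hex, Nat.find_spec hex, fun a ha => not_not.1 (Nat.find_min hex ha),
        Nat.find_min' hex (hcon j hj)⟩
    have hi1 : 1 ≤ i := by
      by_contra h
      have h2 : i = 0 := by omega
      rw [h2, h0] at hi
      exact hi (empty_subset _)
    obtain ⟨h1, h2⟩ := b.TT_stable (hH j hj) (hmin (i - 1) (by omega))
    rw [show i - 1 + 1 = i by omega] at h2
    refine digits_lex K _ _ (fun a => hc (j + 1) (by omega) a) hi1 hiK (fun a _ ha => ?_) ?_
    · exact congrArg card (h1 a (by omega))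
    · rw [h2]
      refine card_lt_card ⟨inter_subset_left, fun h => hi fun v hv => ?_⟩
      exact (mem_inter.1 (h hv)).2
  have hsum : ∀ j ≤ J, digits K (fun i => (b.TT p (H j) i).card) + j ≤
      digits K (fun i => (b.TT p (H 0) i).card) := by
    intro j
    induction j with
    | zero => intro _; rw [add_zero]
    | succ j ih =>
      intro hj
      have h1 := ih (by omega)
      have h2 := hdec j (by omega)
      omega
  have h1 := hsum J le_rfl
  have h2 := digits_lt K (fun i => (b.TT p (H 0) i).card) (fun i => hc 0 (by omega) i)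
  omega

end Burn

end

end Pool.Agent.Lib.MP_711ea9_lc
end
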