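import Mathlib
import Pool.Agent.Lib.MP_711ea9_lc.LangLemmas

section

set_option autoImplicit false

/-!
# Short codes for small sets of numbers
-/

namespace Pool.Agent.Lib.MP_711ea9_lc

/-- The set coded by the first `len` ternary digits of `y`, starting at position `pos`: the digit
`0` moves by `b`, the digit `1` moves by one, the digit `2` marks the position and moves by one. -/
def dec (b : ℕ) : ℕ → ℕ → ℕ → Finset ℕ
  | 0, _, _ => ∅
  | len + 1, y, pos =>
    if y % 3 = 0 then dec b len (y / 3) (pos + b)
    else if y % 3 = 1 then dec b len (y / 3) (pos + 1)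
    else insert pos (dec b len (y / 3) (pos + 1))

lemma dec_zero (b len pos : ℕ) : dec b len 0 pos = ∅ := by
  induction len generalizing pos with
  | zero => rfl
  | succ len ih => simp [dec, ih]

lemma dec_digit0 (b len x pos : ℕ) : dec b (len + 1) (3 * x) pos = dec b len x (pos + b) := by
  have h1 : 3 * x % 3 = 0 := by omega
  have h2 : 3 * x / 3 = x := by omega
  simp only [dec, h1, h2, if_true]

lemma dec_digit1 (b len x pos : ℕ) :
    dec b (len + 1) (3 * x + 1) pos = dec b len x (pos + 1) := by
  have h1 : (3 * x + 1) % 3 = 1 := by omega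
  have h2 : (3 * x + 1) / 3 = x := by omega
  simp only [dec, h1, h2, if_true]
  norm_num

lemma dec_digit2 (b len x pos : ℕ) :
    dec b (len + 1) (3 * x + 2) pos = insert pos (dec b len x (pos + 1)) := by
  have h1 : (3 * x + 2) % 3 = 2 := by omega
  have h2 : (3 * x + 2) / 3 = x := by omega
  simp only [dec, h1, h2]
  norm_num

lemma dec_jump (b : ℕ) (r : ℕ) : ∀ (len x p : ℕ), x < 3 ^ len →
    ∃ x' < 3 ^ (len + r + 1), dec b (len + r + 1) x' p = insert (p + r) (dec b len x (p + r + 1)) := by
  induction r with
  | zero =>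
    intro len x p hx
    refine ⟨3 * x + 2, ?_, ?_⟩
    · rw [Nat.add_zero, pow_succ]; omega
    · rw [Nat.add_zero, dec_digit2]; simp
  | succ r ih =>
    intro len x p hx
    obtain ⟨x', hx', h⟩ := ih len x (p + 1) hx
    refine ⟨3 * x' + 1, ?_, ?_⟩
    · have : len + (r + 1) + 1 = (len + r + 1) + 1 := by ring
      rw [this, pow_succ]; omega
    · have : len + (r + 1) + 1 = (len + r + 1) + 1 := by ring
      rw [this, dec_digit1, h]
      have e1 : p + 1 + r = p + (r + 1) := by ring
      rw [e1]

/-- Every set of at most `m` numbers below `n` has a code with `n / b + m * b` digits. -/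
lemma dec_complete (b n : ℕ) (hb : 1 ≤ b) : ∀ (len p : ℕ) (S : Finset ℕ),
    (∀ v ∈ S, p ≤ v ∧ v < n) → (n - p) / b + S.card * b ≤ len →
    ∃ x < 3 ^ len, dec b len x p = S := by
  intro len
  induction len using Nat.strong_induction_on with
  | _ len ih =>
    intro p S hS hlen
    rcases S.eq_empty_or_nonempty with rfl | hne
    · exact ⟨0, by positivity, dec_zero _ _ _⟩
    · set v := S.min' hne with hv
      have hvS : v ∈ S := S.min'_mem hne
      obtain ⟨hpv, hvn⟩ := hS v hvS
      by_cases hvb : v < p + b
      · obtain ⟨r, hr⟩ := Nat.exists_eq_add_of_le hpv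
        have hrb : r < b := by omega
        have hcard : (S.erase v).card + 1 = S.card := Finset.card_erase_add_one hvS
        have hcb : S.card * b = (S.erase v).card * b + b := by
          rw [← hcard]; ring
        have hdiv : (n - (v + 1)) / b ≤ (n - p) / b := Nat.div_le_div_right (by omega)
        obtain ⟨len', hlen'⟩ : ∃ len', len = len' + r + 1 := by
          refine ⟨len - (r + 1), ?_⟩
          generalize (n - p) / b = q at hlen
          generalize S.card * b = c1 at hlen hcb
          generalize (S.erase v).card * b = c2 at hcb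
          omega
        have hbudget : (n - (v + 1)) / b + (S.erase v).card * b ≤ len' := by
          generalize (n - p) / b = q at hlen hdiv
          generalize (n - (v + 1)) / b = q' at hdiv ⊢
          generalize S.card * b = c1 at hlen hcb
          generalize (S.erase v).card * b = c2 at hcb ⊢
          omega
        obtain ⟨x, hx, h⟩ := ih len' (by omega) (v + 1) (S.erase v) (by
          intro w hw
          rw [Finset.mem_erase] at hw
          have h1 := S.min'_le w hw.2
          have h2 := hS w hw.2
          rw [← hv] at h1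
          have h3 : w ≠ v := hw.1
          omega) hbudget
        obtain ⟨x', hx', h'⟩ := dec_jump b r len' x p hx
        refine ⟨x', by rw [hlen']; exact hx', ?_⟩
        rw [hlen', h', ← hr, h, Finset.insert_erase hvS]
      · push Not at hvb
        have h1 : (n - p) / b = (n - (p + b)) / b + 1 := by
          have : n - (p + b) = (n - p) - b := by omega
          rw [this, Nat.div_eq_sub_div (by omega) (by omega)]
        obtain ⟨len', rfl⟩ : ∃ len', len = len' + 1 := by
          refine ⟨len - 1, ?_⟩
          generalize (n - (p + b)) / b = q at h1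
          generalize (n - p) / b = q' at h1 hlen
          generalize S.card * b = c1 at hlen
          omega
        obtain ⟨x, hx, h⟩ := ih len' (by omega) (p + b) S (by
          intro w hw
          have h1 := S.min'_le w hw
          have h2 := hS w hw
          rw [← hv] at h1
          omega) (by omega)
        refine ⟨3 * x, by rw [pow_succ]; omega, ?_⟩
        rw [dec_digit0, h]

end Pool.Agent.Lib.MP_711ea9_lc
end

section

set_option autoImplicit false

/-!
# The program

Variables: 0 is `n`, 1 is `s`, 2 a logarithm, 3 scratch, 4 is `b`, 5 is `b ^ 2`, 6 is `m`,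
7 is `m * b`, 8 is the length of the codes, 9 the number of codes, 10 the current code,
11 the rest of the code, 12 the position, 13 the index of a vertex, 14 the index of a matrix entry,
15 a flag, 16 the index of a vertex, 17 a counter, 18 a flag, 19 the number of the round,
20 the number of burnt vertices, 21 the best value.
Arrays: 0 the adjacency matrix, 1 the guards, 2 the burnt vertices, 3 the neighbours of the fire.
-/

namespace Pool.Agent.Lib.MP_711ea9_lc

open Cmd Pool.Agent.Lib.MP_711ea9_lc.Expr

set_option linter.ambiguousOpen false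

/-- Computes the binary logarithm of variable 0 in variable 2. -/
def pLog : Cmd :=
  seq (set 3 (var 0)) (seq (set 2 (const 0))
    (loop (var 0) (ite (sub (var 3) (const 1))
      (seq (set 3 (div (var 3) (const 2))) (set 2 (add (var 2) (const 1)))) skip)))

/-- Computes the root of variable 2 (at least one) in variable 4. -/
def pSqrt : Cmd :=
  seq (set 4 (const 0)) (seq (set 5 (const 0)) (seq
    (loop (var 2)
      (ite (sub (add (var 2) (const 1)) (add (add (var 5) (add (var 4) (var 4))) (const 1)))
        (seq (set 5 (add (add (var 5) (add (var 4) (var 4))) (const 1)))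
          (set 4 (add (var 4) (const 1)))) skip))
    (ite (var 4) skip (seq (set 4 (const 1)) (set 5 (const 1))))))

/-- Computes the length of the codes in variable 8. -/
def pLen : Cmd :=
  seq (set 6 (add (div (var 0) (var 5)) (const 1))) (seq (set 7 (const 0))
    (seq (loop (var 4) (set 7 (add (var 7) (var 6)))) (set 8 (add (div (var 0) (var 4)) (var 7)))))

/-- Computes the number of codes in variable 9. -/
def pPow : Cmd :=
  seq (set 9 (const 1)) (loop (var 8) (set 9 (add (var 9) (add (var 9) (var 9)))))

/-- The preparation. -/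
def pInit (c : ℕ) : Cmd :=
  seq pLog (seq (set 2 (div (var 2) (const c))) (seq pSqrt (seq pLen (seq pPow
    (seq (set 21 (var 0)) (set 10 (const 0)))))))

/-- Clears the arrays 1 and 2, and sets fire to `s`. -/
def pClear : Cmd :=
  seq (set 13 (const 0)) (seq
    (loop (var 0) (seq (put 1 (var 13) (const 0)) (seq (put 2 (var 13) (const 0))
      (set 13 (add (var 13) (const 1))))))
    (put 2 (var 1) (const 1)))

/-- One step of decoding. -/
def pDigit : Cmd :=
  seq (ite (mod (var 11) (const 3))
      (ite (sub (mod (var 11) (const 3)) (const 1))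
        (seq (put 1 (var 12) (const 1)) (set 12 (add (var 12) (const 1))))
        (set 12 (add (var 12) (const 1))))
      (set 12 (add (var 12) (var 4))))
    (set 11 (div (var 11) (const 3)))

/-- Decodes the current code into array 1. -/
def pDecode : Cmd :=
  seq (set 11 (var 10)) (seq (set 12 (const 0)) (loop (var 8) pDigit))

/-- The inner loop of `pHeat`. -/
def pHeat1 : Cmd :=
  seq (ite (get 2 (var 16)) (ite (get 0 (var 14)) (set 15 (const 1)) skip) skip)
    (seq (set 16 (add (var 16) (const 1))) (set 14 (add (var 14) (const 1))))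

/-- The outer loop of `pHeat`. -/
def pHeat2 : Cmd :=
  seq (set 15 (const 0)) (seq (set 16 (const 0)) (seq (loop (var 0) pHeat1)
    (seq (put 3 (var 13) (var 15)) (set 13 (add (var 13) (const 1))))))

/-- Computes the vertices with a burnt neighbour in array 3. -/
def pHeat : Cmd :=
  seq (set 14 (const 0)) (seq (set 13 (const 0)) (loop (var 0) pHeat2))

/-- Counts the threatened guards in variable 17 and spreads the fire. -/
def pSpread : Cmd :=
  seq (set 17 (const 0)) (seq (set 13 (const 0))
    (loop (var 0) (seq
      (ite (get 3 (var 13))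
        (ite (get 1 (var 13)) (set 17 (add (var 17) (const 1))) (put 2 (var 13) (const 1))) skip)
      (set 13 (add (var 13) (const 1))))))

/-- One round. -/
def pRound : Cmd :=
  seq pHeat (seq pSpread (seq (set 19 (add (var 19) (const 1)))
    (ite (sub (var 17) (var 19)) (set 18 (const 1)) skip)))

/-- Counts the burnt vertices in variable 20. -/
def pCount : Cmd :=
  seq (set 20 (const 0)) (seq (set 13 (const 0))
    (loop (var 0) (seq (ite (get 2 (var 13)) (set 20 (add (var 20) (const 1))) skip)
      (set 13 (add (var 13) (const 1))))))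

/-- Simulates the fire for the guards in array 1. -/
def pCheck : Cmd :=
  seq (set 18 (get 1 (var 1))) (seq (set 19 (const 0)) (seq (loop (var 0) pRound) pCount))

/-- The treatment of one code. -/
def pBody : Cmd :=
  seq pClear (seq pDecode (seq pCheck (seq
    (ite (var 18) skip (ite (sub (var 21) (var 20)) (set 21 (var 20)) skip))
    (set 10 (add (var 10) (const 1))))))

/-- The whole program. -/
def pMain (c : ℕ) : Cmd :=
  seq (pInit c) (seq (loop (var 9) pBody) (set 0 (var 21)))

/-! ### Specifications of the preparation -/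

lemma pLog_spec (σ : Store) (n : ℕ) (hn : σ.var 0 = n) (hn0 : n ≠ 0) :
    (pLog.exec σ).var 2 = Nat.log 2 n := by
  have h := loop_rule (e := var 0) (c := ite (sub (var 3) (const 1))
      (seq (set 3 (div (var 3) (const 2))) (set 2 (add (var 2) (const 1)))) skip)
    (σ := (Cmd.set 2 (const 0)).exec ((Cmd.set 3 (var 0)).exec σ)) (N := n)
    (by simp [exec, Expr.eval, Function.update, hn])
    (fun i τ => τ.var 2 = min i (Nat.log 2 n) ∧ τ.var 3 = n / 2 ^ (τ.var 2))
    (by simp [exec, Expr.eval, Function.update, hn])
    (by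
      intro i hi τ _ _ hI
      obtain ⟨h1, h2⟩ := hI
      by_cases hlt : i < Nat.log 2 n
      · have h3 : τ.var 2 = i := by omega
        have h4 : 2 ≤ τ.var 3 := by
          rw [h2, h3, Nat.le_div_iff_mul_le (by positivity), ← pow_succ']
          exact (Nat.le_log_iff_pow_le (by norm_num) hn0).1 hlt
        rw [exec_ite_pos (by simp only [Expr.eval]; omega)]
        simp only [exec_seq, exec_set, Expr.eval, Function.update]
        norm_num
        constructor
        · omega
        · rw [h2, h3, Nat.div_div_eq_div_mul, pow_succ]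
      · have h3 : τ.var 2 = Nat.log 2 n := by omega
        have h4 : ¬ 2 ≤ τ.var 3 := by
          rw [h2, h3, Nat.le_div_iff_mul_le (by positivity), ← pow_succ']
          intro h5
          have := (Nat.le_log_iff_pow_le (by norm_num) hn0).2 h5
          omega
        rw [exec_ite_neg (by simp only [Expr.eval]; omega)]
        constructor
        · rw [exec_skip]; omega
        · exact h2)
  have h5 : Nat.log 2 n ≤ n := Nat.log_le_self 2 n
  have h6 := h.1
  simp only [pLog, exec] at h6 ⊢
  omega

lemma pSqrt_spec (σ : Store) :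
    (pSqrt.exec σ).var 4 = max 1 (Nat.sqrt (σ.var 2)) ∧
    (pSqrt.exec σ).var 5 = (pSqrt.exec σ).var 4 * (pSqrt.exec σ).var 4 := by
  set B := Nat.sqrt (σ.var 2) with hB
  have h := loop_rule (e := var 2) (c := (ite (sub (add (var 2) (const 1))
        (add (add (var 5) (add (var 4) (var 4))) (const 1)))
        (seq (set 5 (add (add (var 5) (add (var 4) (var 4))) (const 1)))
          (set 4 (add (var 4) (const 1)))) skip))
    (σ := (Cmd.set 5 (const 0)).exec ((Cmd.set 4 (const 0)).exec σ)) (N := σ.var 2)
    (by simp [exec, Expr.eval, Function.update])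
    (fun i τ => τ.var 4 = min i B ∧ τ.var 5 = τ.var 4 * τ.var 4)
    (by simp [exec, Expr.eval, Function.update])
    (by
      intro i hi τ hv _ hI
      obtain ⟨h1, h2⟩ := hI
      have hv2 : τ.var 2 = σ.var 2 := by
        rw [hv 2 rfl]; simp [exec, Function.update]
      have e1 : τ.var 4 * τ.var 4 + (τ.var 4 + τ.var 4) + 1 = (τ.var 4 + 1) * (τ.var 4 + 1) := by
        ring
      by_cases hlt : i < B
      · have h3 : τ.var 4 = i := by omega
        have h4 : (τ.var 4 + 1) * (τ.var 4 + 1) ≤ σ.var 2 := by
          rw [h3]; exact Nat.le_sqrt.1 (by omega)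
        rw [exec_ite_pos (by simp only [Expr.eval]; rw [h2, hv2]; omega)]
        simp only [exec_seq, exec_set, Expr.eval, Function.update]
        norm_num
        constructor
        · omega
        · rw [h2]; ring
      · have h3 : τ.var 4 = B := by omega
        have h4 : ¬ (τ.var 4 + 1) * (τ.var 4 + 1) ≤ σ.var 2 := by
          rw [h3]; intro h5
          have := Nat.le_sqrt.2 h5
          omega
        rw [exec_ite_neg (by simp only [Expr.eval]; rw [h2, hv2]; omega)]
        exact ⟨by rw [exec_skip]; omega, h2⟩)
  have h5 : B ≤ σ.var 2 := Nat.sqrt_le_self _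
  set τ := (loop (var 2) (ite (sub (add (var 2) (const 1))
        (add (add (var 5) (add (var 4) (var 4))) (const 1)))
        (seq (set 5 (add (add (var 5) (add (var 4) (var 4))) (const 1)))
          (set 4 (add (var 4) (const 1)))) skip)).exec
      ((Cmd.set 5 (const 0)).exec ((Cmd.set 4 (const 0)).exec σ)) with hτ
  have hfin : pSqrt.exec σ = if τ.var 4 ≠ 0 then τ else
      (Cmd.set 5 (const 1)).exec ((Cmd.set 4 (const 1)).exec τ) := rfl
  rw [hfin]
  obtain ⟨h6, h7⟩ := h
  have h8 : τ.var 4 = B := by omega
  by_cases h9 : τ.var 4 ≠ 0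
  · rw [if_pos h9]
    exact ⟨by omega, h7⟩
  · rw [if_neg h9]
    simp only [exec, Expr.eval, Function.update]
    norm_num
    omega

lemma pLen_spec (σ : Store) :
    (pLen.exec σ).var 8 = σ.var 0 / σ.var 4 + σ.var 4 * (σ.var 0 / σ.var 5 + 1) := by
  have h := loop_rule (e := var 4) (c := set 7 (add (var 7) (var 6)))
    (σ := (Cmd.set 7 (const 0)).exec ((Cmd.set 6 (add (div (var 0) (var 5)) (const 1))).exec σ))
    (N := σ.var 4)
    (by simp [exec, Expr.eval, Function.update])
    (fun i τ => τ.var 7 = i * (σ.var 0 / σ.var 5 + 1))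
    (by simp [exec, Expr.eval, Function.update])
    (by
      intro i hi τ hv _ hI
      have hv6 : τ.var 6 = σ.var 0 / σ.var 5 + 1 := by
        rw [hv 6 rfl]; simp [exec, Expr.eval, Function.update]
      simp only [exec, Expr.eval, Function.update]
      norm_num
      rw [hI, hv6]; ring)
  set τ := (loop (var 4) (set 7 (add (var 7) (var 6)))).exec ((Cmd.set 7 (const 0)).exec
    ((Cmd.set 6 (add (div (var 0) (var 5)) (const 1))).exec σ)) with hτ
  have hfin : pLen.exec σ = (Cmd.set 8 (add (div (var 0) (var 4)) (var 7))).exec τ := rfl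
  rw [hfin]
  have h0 : τ.var 0 = σ.var 0 := by
    rw [hτ, frame_var _ _ _ rfl]; simp [exec, Function.update]
  have h4 : τ.var 4 = σ.var 4 := by
    rw [hτ, frame_var _ _ _ rfl]; simp [exec, Function.update]
  simp only [exec, Expr.eval, Function.update]
  norm_num
  rw [h0, h4, h]

lemma pPow_spec (σ : Store) : (pPow.exec σ).var 9 = 3 ^ (σ.var 8) := by
  have h := loop_rule (e := var 8) (c := set 9 (add (var 9) (add (var 9) (var 9))))
    (σ := (Cmd.set 9 (const 1)).exec σ) (N := σ.var 8)
    (by simp [exec, Expr.eval, Function.update])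
    (fun i τ => τ.var 9 = 3 ^ i)
    (by simp [exec, Expr.eval, Function.update])
    (by
      intro i hi τ hv _ hI
      simp only [exec, Expr.eval, Function.update]
      norm_num
      rw [hI, pow_succ]; ring)
  exact h

/-- The parameter `b`. -/
def bOf (c n : ℕ) : ℕ := max 1 (Nat.sqrt (Nat.log 2 n / c))

/-- The length of the codes. -/
def lenOf (c n : ℕ) : ℕ := n / bOf c n + bOf c n * (n / (bOf c n * bOf c n) + 1)

lemma pInit_spec (c : ℕ) (σ : Store) (n : ℕ) (hn : σ.var 0 = n) (hn0 : n ≠ 0) :
    ((pInit c).exec σ).var 0 = n ∧ ((pInit c).exec σ).var 1 = σ.var 1 ∧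
    ((pInit c).exec σ).var 4 = bOf c n ∧ ((pInit c).exec σ).var 8 = lenOf c n ∧
    ((pInit c).exec σ).var 9 = 3 ^ lenOf c n ∧ ((pInit c).exec σ).var 10 = 0 ∧
    ((pInit c).exec σ).var 21 = n ∧ ((pInit c).exec σ).arr 0 = σ.arr 0 := by
  set σ1 := pLog.exec σ with hσ1
  set σ2 := (Cmd.set 2 (div (var 2) (const c))).exec σ1 with hσ2
  set σ3 := pSqrt.exec σ2 with hσ3
  set σ4 := pLen.exec σ3 with hσ4
  set σ5 := pPow.exec σ4 with hσ5
  have hfin : (pInit c).exec σ = (Cmd.set 10 (const 0)).exec ((Cmd.set 21 (var 0)).exec σ5) := rfl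
  have h1 : σ1.var 2 = Nat.log 2 n := pLog_spec σ n hn hn0
  have h2 : σ2.var 2 = Nat.log 2 n / c := by
    rw [hσ2]; simp [exec, Expr.eval, h1]
  have h3 := pSqrt_spec σ2
  rw [h2] at h3
  have h4 := pLen_spec σ3
  have h5 := pPow_spec σ4
  have e1 : σ1.var 0 = n := by rw [hσ1, frame_var _ _ _ rfl, hn]
  have e2 : σ2.var 0 = n := by rw [hσ2, frame_var _ _ _ rfl, e1]
  have e3 : σ3.var 0 = n := by rw [hσ3, frame_var _ _ _ rfl, e2]
  have e4 : σ4.var 0 = n := by rw [hσ4, frame_var _ _ _ rfl, e3]
  have e5 : σ5.var 0 = n := by rw [hσ5, frame_var _ _ _ rfl, e4]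
  have f4 : σ4.var 4 = bOf c n := by rw [hσ4, frame_var _ _ _ rfl]; exact h3.1
  have f5 : σ5.var 4 = bOf c n := by rw [hσ5, frame_var _ _ _ rfl]; exact f4
  have g4 : σ4.var 8 = lenOf c n := by
    rw [hσ4, h4, e3, h3.2, h3.1]; rfl
  have g5 : σ5.var 8 = lenOf c n := by rw [hσ5, frame_var _ _ _ rfl]; exact g4
  have k5 : σ5.var 9 = 3 ^ lenOf c n := by rw [hσ5, h5, g4]
  have a5 : σ5.arr 0 = σ.arr 0 := by
    rw [hσ5, frame_arr _ _ _ rfl, hσ4, frame_arr _ _ _ rfl, hσ3, frame_arr _ _ _ rfl, hσ2,
      frame_arr _ _ _ rfl, hσ1, frame_arr _ _ _ rfl]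
  have v5 : σ5.var 1 = σ.var 1 := by
    rw [hσ5, frame_var _ _ _ rfl, hσ4, frame_var _ _ _ rfl, hσ3, frame_var _ _ _ rfl, hσ2,
      frame_var _ _ _ rfl, hσ1, frame_var _ _ _ rfl]
  rw [hfin]
  simp only [exec, Expr.eval, Function.update]
  norm_num
  exact ⟨e5, v5, f5, g5, k5, e5, a5⟩

end Pool.Agent.Lib.MP_711ea9_lc
end
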