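import Pool.Agent.Lib.MP_711ea9_lc.Burn
import Pool.Agent.Lib.MP_711ea9_lc.Mg.G012
import Pool.Agent.Lib.MP_711ea9_lc.Statement

section

set_option autoImplicit false
set_option linter.unusedSectionVars false

/-!
# Counting: an optimal fire in a graph without `K_{2,t}` minor is short
-/

namespace Pool.Agent.Lib.MP_711ea9_lc

open Finset

/-- Sum of the powers of two below `J`. -/
lemma sum_pow_le (M J : ℕ) :
    ∑ i ∈ (range M).filter (fun i => 2 ^ i < J), 2 ^ i ≤ 2 * J ∧
    ∑ i ∈ (range M).filter (fun i => 2 ^ i < J), 2 ^ i < 2 ^ M := by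
  induction M with
  | zero => simp
  | succ M ih =>
    obtain ⟨h1, h2⟩ := ih
    rw [Finset.range_add_one, Finset.filter_insert]
    have hp : 2 ^ (M + 1) = 2 * 2 ^ M := by ring
    by_cases h : 2 ^ M < J
    · rw [if_pos h, Finset.sum_insert (by simp)]
      constructor <;> omega
    · rw [if_neg h]
      constructor <;> omega

open scoped Classical in
/-- A maximal inequality for monotone counting functions. -/
lemma rising (g : ℕ → ℕ) (M : ℕ) (hM : ∀ i, g i ≤ M) (hg : Monotone g) (c X : ℕ) :
    ∀ k j, X - j ≤ k →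
      ((Finset.Ico j X).filter (fun i => ∃ y, y < c * (g (i + y) - g i))).card ≤
        c * (M - g j) := by
  classical
  intro k
  induction k using Nat.strong_induction_on with
  | _ k ih =>
    intro j hk
    by_cases hjX : X ≤ j
    · rw [Finset.Ico_eq_empty (by omega)]; simp
    · push Not at hjX
      by_cases hbad : ∃ y, y < c * (g (j + y) - g j)
      · obtain ⟨y, hy⟩ := hbad
        have hy0 : 1 ≤ y := by
          rcases Nat.eq_zero_or_pos y with h | h
          · subst h; simp at hy
          · exact h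
        have hsub : (Finset.Ico j X).filter (fun i => ∃ y, y < c * (g (i + y) - g i)) ⊆
            Finset.Ico j (j + y) ∪
            (Finset.Ico (j + y) X).filter (fun i => ∃ y, y < c * (g (i + y) - g i)) := by
          intro i hi
          rw [Finset.mem_filter, Finset.mem_Ico] at hi
          rw [Finset.mem_union, Finset.mem_filter, Finset.mem_Ico, Finset.mem_Ico]
          by_cases h : i < j + y
          · left; omega
          · right; exact ⟨by omega, hi.2⟩
        have h1 := Finset.card_le_card hsub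
        have h2 := Finset.card_union_le (Finset.Ico j (j + y))
          ((Finset.Ico (j + y) X).filter (fun i => ∃ y, y < c * (g (i + y) - g i)))
        have h3 := ih (k - 1) (by omega) (j + y) (by omega)
        rw [Nat.card_Ico] at h2
        have h4 : c * (g (j + y) - g j) + c * (M - g (j + y)) = c * (M - g j) := by
          rw [← Nat.mul_add]
          congr 1
          have := hM (j + y)
          have := hg (show j ≤ j + y by omega)
          omega
        omega
      · have hsub : (Finset.Ico j X).filter (fun i => ∃ y, y < c * (g (i + y) - g i)) ⊆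
            (Finset.Ico (j + 1) X).filter (fun i => ∃ y, y < c * (g (i + y) - g i)) := by
          intro i hi
          rw [Finset.mem_filter, Finset.mem_Ico] at hi ⊢
          refine ⟨⟨?_, hi.1.2⟩, hi.2⟩
          rcases Nat.lt_or_ge j i with h | h
          · omega
          · exfalso
            have : i = j := by omega
            subst this
            exact hbad hi.2
        have h1 := Finset.card_le_card hsub
        have h3 := ih (k - 1) (by omega) (j + 1) (by omega)
        have h4 : c * (M - g (j + 1)) ≤ c * (M - g j) := by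
          apply Nat.mul_le_mul_left
          have := hg (show j ≤ j + 1 by omega)
          omega
        omega

section

variable {V : Type*} [Fintype V] [DecidableEq V] {G : SimpleGraph V}

namespace Burn

variable {s : V} (b : Burn G s)

/-- The burnt set is connected. -/
lemma F_rch (i : ℕ) : ∀ x ∈ b.F i, Rch G (b.F i) s x := by
  induction i with
  | zero =>
    intro x hx
    rw [b.F0, Finset.mem_singleton] at hx
    subst hx
    exact Relation.ReflTransGen.refl
  | succ i ih =>
    intro x hx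
    rcases b.Fstep i x hx with h | ⟨u, hu, hux⟩
    · exact (ih x h).mono (b.Fmono (Nat.le_succ i))
    · exact Relation.ReflTransGen.tail ((ih u hu).mono (b.Fmono (Nat.le_succ i))) ⟨hux, hx⟩

lemma s_mem (i : ℕ) : s ∈ b.F i := by
  apply b.Fmono (Nat.zero_le i)
  rw [b.F0]; simp

/-- Every later burnt vertex is reached from the layer `p + 1` outside `E p`. -/
lemma late (p : ℕ) : ∀ q, ∀ w ∈ b.F q, w ∉ b.F p →
    ∃ y ∈ b.F (p + 1) \ b.F p, w ∈ comp G (univ \ b.E p) y := by
  intro q
  induction q with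
  | zero =>
    intro w hw hwp
    exact (hwp (b.Fmono (Nat.zero_le p) hw)).elim
  | succ q ih =>
    intro w hw hwp
    rcases b.Fstep q w hw with h | ⟨u, hu, huw⟩
    · exact ih w h hwp
    · by_cases hup : u ∈ b.F p
      · refine ⟨w, ?_, self_mem_comp⟩
        rw [Finset.mem_sdiff]
        refine ⟨?_, hwp⟩
        rcases b.out p u hup w huw with h | h
        · exact h
        · exact (b.FA hw h).elim
      · obtain ⟨y, hy1, hy2⟩ := ih u hu hup
        refine ⟨y, hy1, comp_step hy2 huw ?_⟩
        rw [Finset.mem_sdiff, E, Finset.mem_union]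
        refine ⟨Finset.mem_univ _, ?_⟩
        rintro (h | h)
        · exact hwp h
        · exact b.FA hw h

lemma cr_card {t : ℕ} (hK : ¬ HasK2Minor G (t + 1)) (p : ℕ) :
    (b.Cr p).card ≤ (b.F (p + 1) \ b.F p).card * t := by
  classical
  have hsub : b.Cr p ⊆ (b.F (p + 1) \ b.F p).biUnion (fun y =>
      (b.A (p + 1)).filter (fun u => ∃ w ∈ comp G (univ \ b.E p) y, G.Adj u w)) := by
    intro u hu
    rw [mem_Cr] at hu
    obtain ⟨hu1, x, hx, w, hw, hwE, hxw⟩ := hu
    have hwy : ∃ y ∈ b.F (p + 1) \ b.F p, w ∈ comp G (univ \ b.E p) y := by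
      rw [Full, Finset.mem_union] at hw
      rw [E, Finset.mem_union, not_or] at hwE
      rcases hw with hw | hw
      · exact b.late p b.T w hw hwE.1
      · obtain ⟨v, hv, hvw⟩ := b.Astep b.T w hw
        have hvp : v ∉ b.F p := by
          intro hvp
          rcases b.out p v hvp w hvw with h | h
          · exact b.FA h hw
          · exact hwE.2 h
        obtain ⟨y, hy1, hy2⟩ := b.late p b.T v hv hvp
        refine ⟨y, hy1, comp_step hy2 hvw ?_⟩
        rw [Finset.mem_sdiff, E, Finset.mem_union, not_or]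
        exact ⟨Finset.mem_univ _, hwE⟩
    obtain ⟨y, hy, hwy⟩ := hwy
    rw [Finset.mem_biUnion]
    refine ⟨y, hy, ?_⟩
    rw [Finset.mem_filter]
    refine ⟨hu1, ?_⟩
    refine adj_comp (W := b.W) ?_ hx hxw hwy
    intro v hv
    rw [mem_W] at hv
    rw [Finset.mem_sdiff, E, Finset.mem_union, not_or]
    refine ⟨Finset.mem_univ _, ?_, ?_⟩
    · intro h; exact hv (b.F_mem_full h)
    · intro h; exact hv (b.A_mem_full h)
  refine (Finset.card_le_card hsub).trans ?_
  refine Finset.card_biUnion_le_card_mul _ _ _ ?_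
  intro y hy
  rw [Finset.mem_sdiff] at hy
  have hyE : y ∈ univ \ b.E p := by
    rw [Finset.mem_sdiff, E, Finset.mem_union, not_or]
    exact ⟨Finset.mem_univ _, hy.2, fun h => b.FA hy.1 h⟩
  have hcompE : ∀ x ∈ comp G (univ \ b.E p) y, x ∉ b.E p := by
    intro x hx
    rcases comp_mem_or hx with h | h
    · subst h; exact (Finset.mem_sdiff.1 hyE).2
    · exact (Finset.mem_sdiff.1 h).2
  have hlt := k2_card hK (X := b.F p) (Y := comp G (univ \ b.E p) y)
    (Z := (b.A (p + 1)).filter (fun u => ∃ w ∈ comp G (univ \ b.E p) y, G.Adj u w))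
    (b.s_mem p) (b.F_rch p) self_mem_comp (fun x hx => comp_rch hx) ?_ ?_ ?_ ?_ ?_
  · omega
  · rw [Finset.disjoint_left]
    intro x hx hx'
    exact hcompE x hx' (Finset.mem_union_left _ hx)
  · rw [Finset.disjoint_left]
    intro x hx hx'
    rw [Finset.mem_filter] at hx'
    exact b.FA hx hx'.1
  · rw [Finset.disjoint_left]
    intro x hx hx'
    rw [Finset.mem_filter] at hx'
    exact hcompE x hx (Finset.mem_union_right _ hx'.1)
  · intro z hz
    rw [Finset.mem_filter] at hz
    exact b.Astep p z hz.1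
  · intro z hz
    rw [Finset.mem_filter] at hz
    obtain ⟨w, hw, h⟩ := hz.2
    exact ⟨w, hw, h.symm⟩

lemma sum_C {t : ℕ} (hK : ¬ HasK2Minor G (t + 1)) :
    ∑ u ∈ b.A (b.T + 1), (b.C u).card ≤ (t + 1) * Fintype.card V := by
  classical
  have h1 : ∀ u, (b.C u).card = ∑ q : V, if q ∈ b.C u then 1 else 0 := by
    intro u; simp
  simp_rw [h1]
  rw [Finset.sum_comm]
  have h2 : ∀ q : V, (∑ u ∈ b.A (b.T + 1), if q ∈ b.C u then 1 else 0) ≤ t + 1 := by
    intro q
    rw [← Finset.sum_filter, ← Finset.card_eq_sum_ones]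
    by_cases hq : q ∈ b.W
    · have hcomp : ∀ x ∈ comp G b.W q, x ∈ b.W := by
        intro x hx
        rcases comp_mem_or hx with h | h
        · subst h; exact hq
        · exact h
      have hlt := k2_card hK (X := b.F b.T) (Y := comp G b.W q)
        (Z := (b.A (b.T + 1)).filter (fun u => q ∈ b.C u))
        (b.s_mem b.T) (b.F_rch b.T) self_mem_comp (fun x hx => comp_rch hx) ?_ ?_ ?_ ?_ ?_
      · omega
      · rw [Finset.disjoint_left]
        intro x hx hx'
        exact (b.mem_W.1 (hcomp x hx')) (b.F_mem_full hx)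
      · rw [Finset.disjoint_left]
        intro x hx hx'
        rw [Finset.mem_filter] at hx'
        exact b.FA hx hx'.1
      · rw [Finset.disjoint_left]
        intro x hx hx'
        rw [Finset.mem_filter] at hx'
        exact (b.mem_W.1 (hcomp x hx)) (b.A_mem_full hx'.1)
      · intro z hz
        rw [Finset.mem_filter] at hz
        exact b.Astep b.T z hz.1
      · intro z hz
        rw [Finset.mem_filter] at hz
        obtain ⟨hz1, hz2⟩ := hz
        have hzW : z ∉ b.W := by
          rw [mem_W]; push Not; exact b.A_mem_full hz1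
        rw [C, mem_comp] at hz2
        rcases Relation.ReflTransGen.cases_tail hz2 with h | ⟨c, hc, hcq⟩
        · exact (hzW (h ▸ hq)).elim
        · obtain ⟨w', hw', h⟩ := adj_comp (W := b.W) (M := b.W) (y := q) (Finset.Subset.refl _)
            (mem_comp.2 hc) hcq.1 self_mem_comp
          exact ⟨w', hw', h.symm⟩
    · have : (b.A (b.T + 1)).filter (fun u => q ∈ b.C u) ⊆ {q} := by
        intro u hu
        rw [Finset.mem_filter] at hu
        rw [Finset.mem_singleton]
        rcases comp_mem_or hu.2 with h | h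
        · exact h.symm
        · exact (hq h).elim
      have := Finset.card_le_card this
      simp only [Finset.card_singleton] at this
      omega
  calc ∑ q : V, (∑ u ∈ b.A (b.T + 1), if q ∈ b.C u then 1 else 0) ≤ ∑ q : V, (t + 1) :=
        Finset.sum_le_sum (fun q _ => h2 q)
    _ = (t + 1) * Fintype.card V := by
        rw [Finset.sum_const, smul_eq_mul, Finset.card_univ, Nat.mul_comm]

lemma sum_layers (P : ℕ) :
    ∑ p ∈ range P, (b.F (p + 1) \ b.F p).card + 1 = (b.F P).card := by
  induction P with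
  | zero => rw [b.F0]; simp
  | succ P ih =>
    rw [Finset.sum_range_succ]
    have := Finset.card_sdiff_add_card_eq_card (b.Fmono (Nat.le_succ P))
    simp only [Nat.succ_eq_add_one] at this
    omega

lemma sum_layers_le (P : ℕ) :
    ∑ p ∈ range P, (b.F (p + 1) \ b.F p).card ≤ Fintype.card V := by
  have := b.sum_layers P
  have h := Finset.card_le_univ (b.F P)
  omega

lemma sum_J {t : ℕ} (hK : ¬ HasK2Minor G (t + 1)) :
    ∑ u ∈ b.A (b.T + 1), b.J u ≤ t * Fintype.card V := by
  classical
  have h1 : ∀ u, b.J u = ∑ p ∈ range b.T, if u ∈ b.Cr p then 1 else 0 := by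
    intro u
    rw [← Finset.sum_filter, ← Finset.card_eq_sum_ones]
    simp [J]
  simp_rw [h1]
  rw [Finset.sum_comm]
  calc ∑ p ∈ range b.T, (∑ u ∈ b.A (b.T + 1), if u ∈ b.Cr p then 1 else 0)
      ≤ ∑ p ∈ range b.T, (b.F (p + 1) \ b.F p).card * t := by
        apply Finset.sum_le_sum
        intro p _
        refine le_trans ?_ (b.cr_card hK p)
        rw [← Finset.sum_filter, ← Finset.card_eq_sum_ones]
        apply Finset.card_le_card
        intro u hu
        rw [Finset.mem_filter] at hu
        exact hu.2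
    _ = (∑ p ∈ range b.T, (b.F (p + 1) \ b.F p).card) * t := by rw [Finset.sum_mul]
    _ ≤ Fintype.card V * t := Nat.mul_le_mul_right _ (b.sum_layers_le _)
    _ = t * Fintype.card V := Nat.mul_comm _ _

lemma late_card (p : ℕ) (hp : p ≤ b.T) : b.T - p ≤ (b.F b.T \ b.F p).card := by
  have key : ∀ k, p + k ≤ b.T → (b.F p).card + k ≤ (b.F (p + k)).card := by
    intro k
    induction k with
    | zero => intro _; simp
    | succ k ih =>
      intro hk
      have h1 := ih (by omega)
      have h2 := b.Fne (p + k) (by omega)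
      have h3 := Finset.card_pos.2 h2
      have h4 := Finset.card_sdiff_add_card_eq_card (b.Fmono (Nat.le_succ (p + k)))
      simp only [Nat.succ_eq_add_one] at h4
      have : p + (k + 1) = p + k + 1 := by ring
      rw [this]
      omega
  have h1 := key (b.T - p) (by omega)
  have h2 : p + (b.T - p) = b.T := by omega
  rw [h2] at h1
  have h3 := Finset.card_sdiff_add_card_eq_card (b.FT p)
  omega

lemma sum_windows (l X : ℕ) (f : V → ℕ) :
    ∑ j ∈ range X, ∑ u ∈ b.A (j + l) \ b.A j, f u ≤ l * ∑ u ∈ b.A (b.T + 1), f u := by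
  classical
  have h1 : ∀ j, ∑ u ∈ b.A (j + l) \ b.A j, f u =
      ∑ u ∈ b.A (b.T + 1), if (u ∈ b.A (j + l) ∧ u ∉ b.A j) then f u else 0 := by
    intro j
    rw [← Finset.sum_filter]
    apply Finset.sum_congr _ (fun _ _ => rfl)
    ext u
    rw [Finset.mem_sdiff, Finset.mem_filter]
    constructor
    · intro h; exact ⟨b.AT _ h.1, h⟩
    · intro h; exact h.2
  simp_rw [h1]
  rw [Finset.sum_comm, Finset.mul_sum]
  apply Finset.sum_le_sum
  intro u hu
  rw [← Finset.sum_filter, Finset.sum_const, smul_eq_mul]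
  apply Nat.mul_le_mul_right
  have hex : ∃ d, u ∈ b.A d := ⟨_, hu⟩
  set d := Nat.find hex with hd
  have hd1 : u ∈ b.A d := Nat.find_spec hex
  have hsub : (range X).filter (fun j => u ∈ b.A (j + l) ∧ u ∉ b.A j) ⊆
      Finset.Ico (d - l) d := by
    intro j hj
    rw [Finset.mem_filter] at hj
    rw [Finset.mem_Ico]
    have h2 : d ≤ j + l := Nat.find_min' hex hj.2.1
    have h3 : j < d := by
      by_contra h
      push Not at h
      exact hj.2.2 (b.Amono h hd1)
    omega
  have := Finset.card_le_card hsub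
  rw [Nat.card_Ico] at this
  omega

/-- A fire which lasts long compared with the number of vertices can be improved. -/
theorem improve {t L : ℕ} (hL : 1 ≤ L) (hK : ¬ HasK2Minor G (t + 1))
    (hn : Fintype.card V ≤ b.T * L)
    (hT : 32 * (2 * 2 ^ (64 * (t + 1) * L) * (16 * (t + 1) * L + 1)) * ((t + 1) * L) ≤ b.T) :
    ∃ S' : Finset V, Feas G s S' ∧ ∀ i, (fireF G s S' i).card < (b.F b.T).card := by
  classical
  set n := Fintype.card V with hndef
  set T := b.T with hTdef
  set τ := (t + 1) * L with hτ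
  have hτ1 : 1 ≤ τ := by rw [hτ]; exact Nat.one_le_iff_ne_zero.2 (by positivity)
  have hM : 64 * (t + 1) * L = 64 * τ := by rw [hτ]; ring
  have hW : 16 * (t + 1) * L = 16 * τ := by rw [hτ]; ring
  rw [hM, hW] at hT
  have htn : (t + 1) * n ≤ T * τ := by
    calc (t + 1) * n ≤ (t + 1) * (T * L) := Nat.mul_le_mul_left _ hn
      _ = T * τ := by rw [hτ]; ring
  have hpow1 : 1 ≤ 2 ^ (64 * τ) := Nat.one_le_two_pow
  have hT64 : 64 ≤ T := by
    refine le_trans ?_ hT
    have h1 : 1 ≤ 2 ^ (64 * τ) * (16 * τ + 1) * τ :=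
      Nat.one_le_iff_ne_zero.2 (by positivity)
    calc 64 = 64 * 1 := by norm_num
      _ ≤ 64 * (2 ^ (64 * τ) * (16 * τ + 1) * τ) := Nat.mul_le_mul_left _ h1
      _ = 32 * (2 * 2 ^ (64 * τ) * (16 * τ + 1)) * τ := by ring
  -- the scale
  obtain ⟨i0, hi0, hscale⟩ : ∃ i < 64 * τ,
      32 * 2 ^ i * ((b.A (T + 1)).filter (fun v => 2 ^ i < b.J v)).card ≤ T := by
    by_contra hcon
    push Not at hcon
    have h1 : 64 * τ * (T + 1) ≤
        ∑ i ∈ range (64 * τ), 32 * 2 ^ i * ((b.A (T + 1)).filter (fun v => 2 ^ i < b.J v)).card := by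
      calc 64 * τ * (T + 1) = ∑ i ∈ range (64 * τ), (T + 1) := by
            rw [Finset.sum_const, Finset.card_range, smul_eq_mul]
        _ ≤ _ := by
            apply Finset.sum_le_sum
            intro i hi
            exact hcon i (Finset.mem_range.1 hi)
    have h2 : ∑ i ∈ range (64 * τ),
        32 * 2 ^ i * ((b.A (T + 1)).filter (fun v => 2 ^ i < b.J v)).card ≤
        64 * ∑ u ∈ b.A (T + 1), b.J u := by
      have h3 : ∀ i, 32 * 2 ^ i * ((b.A (T + 1)).filter (fun v => 2 ^ i < b.J v)).card =
          ∑ u ∈ b.A (T + 1), if 2 ^ i < b.J u then 32 * 2 ^ i else 0 := by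
        intro i
        rw [← Finset.sum_filter, Finset.sum_const, smul_eq_mul, Nat.mul_comm]
      simp_rw [h3]
      rw [Finset.sum_comm, Finset.mul_sum]
      apply Finset.sum_le_sum
      intro u _
      rw [← Finset.sum_filter, ← Finset.mul_sum]
      have := (sum_pow_le (64 * τ) (b.J u)).1
      omega
    have h4 := b.sum_J hK
    have h5 : t * n ≤ T * τ := le_trans (Nat.mul_le_mul_right _ (Nat.le_succ t)) htn
    have h6 : 64 * τ * (T + 1) ≤ 64 * (T * τ) := by
      calc _ ≤ _ := h1
        _ ≤ _ := h2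
        _ ≤ 64 * (t * n) := Nat.mul_le_mul_left _ h4
        _ ≤ _ := Nat.mul_le_mul_left _ h5
    have h7 : 64 * τ * (T + 1) = 64 * (T * τ) + 64 * τ := by ring
    omega
  set a := 2 ^ i0 with ha
  have ha1 : 1 ≤ a := Nat.one_le_two_pow
  have haM : a ≤ 2 ^ (64 * τ) := Nat.pow_le_pow_right (by norm_num) hi0.le
  set Wm := 16 * τ with hWm
  set l := 2 * a * (Wm + 1) with hl
  have hlT : 32 * l * τ ≤ T := by
    refine le_trans ?_ hT
    rw [hl]
    gcongr
  have hlT' : 32 * l ≤ T := by
    refine le_trans ?_ hlT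
    exact Nat.le_mul_of_pos_right _ hτ1
  have hl2 : 2 ≤ l := by
    have : 1 ≤ a * (Wm + 1) := Nat.one_le_iff_ne_zero.2 (by positivity)
    calc 2 = 2 * 1 := rfl
      _ ≤ 2 * (a * (Wm + 1)) := Nat.mul_le_mul_left _ this
      _ = l := by rw [hl]; ring
  set X := T / 4 with hX
  -- the three kinds of bad windows
  set bad1 : Finset ℕ := (Finset.Ico 0 X).filter (fun j => ∃ y, y < 2 * a *
    (((b.A (j + y)).filter (fun v => a < b.J v)).card -
      ((b.A j).filter (fun v => a < b.J v)).card)) with hbad1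
  set bad2 : Finset ℕ := (range X).filter (fun j =>
    Wm < (b.Cr (j + l - 1)).card + (b.F (j + l) \ b.F (j + l - 1)).card) with hbad2
  set bad3 : Finset ℕ := (range X).filter (fun j =>
    (b.F T \ b.F (j + l - 1)).card ≤ ∑ u ∈ b.A (j + l) \ b.A j, (b.C u).card) with hbad3
  have hb1 : 16 * bad1.card ≤ T := by
    have h1 := rising (fun i => ((b.A i).filter (fun v => a < b.J v)).card)
      ((b.A (T + 1)).filter (fun v => a < b.J v)).card
      (fun i => Finset.card_le_card (Finset.filter_subset_filter _ (b.AT i)))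
      (fun i j hij => Finset.card_le_card (Finset.filter_subset_filter _ (b.Amono hij)))
      (2 * a) X X 0 (by omega)
    have h2 : bad1.card ≤ 2 * a * ((b.A (T + 1)).filter (fun v => a < b.J v)).card := by
      refine le_trans h1 ?_
      apply Nat.mul_le_mul_left
      omega
    calc 16 * bad1.card ≤ 16 * (2 * a * ((b.A (T + 1)).filter (fun v => a < b.J v)).card) :=
          Nat.mul_le_mul_left _ h2
      _ = 32 * a * ((b.A (T + 1)).filter (fun v => a < b.J v)).card := by ring
      _ ≤ T := hscale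
  have hb2 : 16 * bad2.card ≤ T := by
    have h1 : bad2.card * (Wm + 1) ≤ ∑ j ∈ bad2,
        ((b.Cr (j + l - 1)).card + (b.F (j + l) \ b.F (j + l - 1)).card) := by
      rw [← smul_eq_mul, ← Finset.sum_const]
      apply Finset.sum_le_sum
      intro j hj
      rw [hbad2, Finset.mem_filter] at hj
      exact hj.2
    have h2 : ∑ j ∈ bad2,
        ((b.Cr (j + l - 1)).card + (b.F (j + l) \ b.F (j + l - 1)).card) ≤
        ∑ j ∈ range X, ((b.Cr (j + l - 1)).card + (b.F (j + l) \ b.F (j + l - 1)).card) := by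
      apply Finset.sum_le_sum_of_subset
      rw [hbad2]; exact Finset.filter_subset _ _
    have h3 : ∑ j ∈ range X, ((b.Cr (j + l - 1)).card + (b.F (j + l) \ b.F (j + l - 1)).card) ≤
        ∑ j ∈ range X, (t + 1) * (b.F (j + l) \ b.F (j + l - 1)).card := by
      apply Finset.sum_le_sum
      intro j _
      have := b.cr_card hK (j + l - 1)
      have h4 : j + l - 1 + 1 = j + l := by omega
      rw [h4] at this
      calc _ ≤ (b.F (j + l) \ b.F (j + l - 1)).card * t +
            (b.F (j + l) \ b.F (j + l - 1)).card := Nat.add_le_add_right this _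
        _ = _ := by ring
    have h5 : ∑ j ∈ range X, (b.F (j + l) \ b.F (j + l - 1)).card ≤ n := by
      refine le_trans ?_ (b.sum_layers_le (X + l))
      have : ∑ j ∈ range X, (b.F (j + l) \ b.F (j + l - 1)).card =
          ∑ p ∈ (range X).map (addRightEmbedding (l - 1)), (b.F (p + 1) \ b.F p).card := by
        rw [Finset.sum_map]
        apply Finset.sum_congr rfl
        intro j _
        have e1 : addRightEmbedding (l - 1) j = j + l - 1 := by
          rw [addRightEmbedding_apply]; omega
        rw [e1]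
        have e2 : j + l - 1 + 1 = j + l := by omega
        rw [e2]
      rw [this]
      apply Finset.sum_le_sum_of_subset
      intro p hp
      rw [Finset.mem_map] at hp
      obtain ⟨j, hj, rfl⟩ := hp
      rw [Finset.mem_range] at hj ⊢
      rw [addRightEmbedding_apply]
      omega
    rw [← Finset.mul_sum] at h3
    have h6 : bad2.card * (Wm + 1) ≤ T * τ := by
      calc _ ≤ _ := h1
        _ ≤ _ := h2
        _ ≤ _ := h3
        _ ≤ (t + 1) * n := Nat.mul_le_mul_left _ h5
        _ ≤ T * τ := htn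
    have h7 : (16 * bad2.card) * τ ≤ T * τ := by
      refine le_trans ?_ h6
      calc (16 * bad2.card) * τ = bad2.card * Wm := by rw [hWm]; ring
        _ ≤ bad2.card * (Wm + 1) := Nat.mul_le_mul_left _ (Nat.le_succ _)
    exact Nat.le_of_mul_le_mul_right h7 hτ1
  have hb3 : 16 * bad3.card ≤ T := by
    have h0 : ∀ j ∈ range X, T ≤ 2 * (b.F T \ b.F (j + l - 1)).card := by
      intro j hj
      rw [Finset.mem_range] at hj
      have : T - (j + l - 1) ≤ (b.F T \ b.F (j + l - 1)).card :=
        b.late_card (j + l - 1) (by omega)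
      omega
    have h1 : bad3.card * T ≤ 2 * ∑ j ∈ bad3, ∑ u ∈ b.A (j + l) \ b.A j, (b.C u).card := by
      rw [Finset.mul_sum, ← smul_eq_mul, ← Finset.sum_const]
      apply Finset.sum_le_sum
      intro j hj
      rw [hbad3, Finset.mem_filter] at hj
      have := h0 j hj.1
      omega
    have h2 : ∑ j ∈ bad3, ∑ u ∈ b.A (j + l) \ b.A j, (b.C u).card ≤
        ∑ j ∈ range X, ∑ u ∈ b.A (j + l) \ b.A j, (b.C u).card := by
      apply Finset.sum_le_sum_of_subset
      rw [hbad3]; exact Finset.filter_subset _ _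
    have h3 := b.sum_windows l X (fun u => (b.C u).card)
    have h4 := b.sum_C hK
    have h5 : bad3.card * T ≤ 2 * (l * (T * τ)) := by
      calc _ ≤ _ := h1
        _ ≤ 2 * (l * ∑ u ∈ b.A (T + 1), (b.C u).card) :=
            Nat.mul_le_mul_left _ (le_trans h2 h3)
        _ ≤ 2 * (l * (T * τ)) :=
            Nat.mul_le_mul_left _ (Nat.mul_le_mul_left _ (le_trans h4 htn))
    have h6 : bad3.card * T ≤ (2 * l * τ) * T := by
      calc _ ≤ _ := h5
        _ = _ := by ring
    have h7 : bad3.card ≤ 2 * l * τ := Nat.le_of_mul_le_mul_right h6 (by omega)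
    calc 16 * bad3.card ≤ 16 * (2 * l * τ) := Nat.mul_le_mul_left _ h7
      _ = 32 * l * τ := by ring
      _ ≤ T := hlT
  -- a good window
  obtain ⟨j, hjX, hj1, hj2, hj3⟩ : ∃ j < X, j ∉ bad1 ∧ j ∉ bad2 ∧ j ∉ bad3 := by
    by_contra hcon
    push Not at hcon
    have hsub : range X ⊆ bad1 ∪ (bad2 ∪ bad3) := by
      intro j hj
      rw [Finset.mem_range] at hj
      rw [Finset.mem_union, Finset.mem_union]
      by_cases h1 : j ∈ bad1
      · exact Or.inl h1
      · by_cases h2 : j ∈ bad2
        · exact Or.inr (Or.inl h2)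
        · exact Or.inr (Or.inr (hcon j hj h1 h2))
    have h1 := Finset.card_le_card hsub
    have h2 := Finset.card_union_le bad1 (bad2 ∪ bad3)
    have h3 := Finset.card_union_le bad2 bad3
    rw [Finset.card_range] at h1
    omega
  rw [hbad1, Finset.mem_filter, Finset.mem_Ico] at hj1
  rw [hbad2, Finset.mem_filter, Finset.mem_range] at hj2
  rw [hbad3, Finset.mem_filter, Finset.mem_range] at hj3
  push Not at hj1 hj2 hj3
  have hj1' := hj1 ⟨by omega, hjX⟩
  have hj2' := hj2 hjX
  have hj3' := hj3 hjX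
  have hp : j + l - 1 + 1 = j + l := by omega
  apply b.window (a := a) (Wm := Wm) (j := j) (l := l) (p := j + l - 1) ha1 hl hp
  · intro y
    refine le_trans ?_ (hj1' y)
    apply Nat.mul_le_mul_left
    have h1 : (b.A (j + y) \ b.A j).filter (fun v => a < b.J v) =
        (b.A (j + y)).filter (fun v => a < b.J v) \ (b.A j).filter (fun v => a < b.J v) := by
      ext v
      simp only [Finset.mem_filter, Finset.mem_sdiff]
      tauto
    rw [h1, Finset.card_sdiff_of_subset (Finset.filter_subset_filter _ (b.Amono (by omega)))]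
  · rw [hp]; exact hj2'
  · exact hj3'

end Burn

end

end Pool.Agent.Lib.MP_711ea9_lc
end

section

set_option autoImplicit false
set_option linter.unusedSectionVars false

/-!
# Optimal strategies with few guards
-/

namespace Pool.Agent.Lib.MP_711ea9_lc

open Finset

section

variable {V : Type*} [Fintype V] [DecidableEq V] {G : SimpleGraph V} {s : V} {S : Finset V}

lemma exists_stop (G : SimpleGraph V) (s : V) (S : Finset V) :
    ∃ i, fireF G s S (i + 1) = fireF G s S i := by
  by_contra hcon
  push Not at hcon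
  have key : ∀ i, i + 1 ≤ (fireF G s S i).card := by
    intro i
    induction i with
    | zero => simp [fireF]
    | succ i ih =>
      have h1 : fireF G s S i ⊂ fireF G s S (i + 1) :=
        lt_of_le_of_ne (fireF_mono_succ i) (fun h => hcon i h.symm)
      have := Finset.card_lt_card h1
      omega
  have h1 := key (Fintype.card V)
  have h2 := Finset.card_le_univ (fireF G s S (Fintype.card V))
  omega

/-- The fire belonging to a feasible set of guards. -/
noncomputable def burnOf (hF : Feas G s S) : Burn G s where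
  F := fireF G s S
  A := thr G s S
  T := by classical exact Nat.find (exists_stop G s S)
  F0 := rfl
  A0 := rfl
  Fmono := fireF_mono
  Amono := thr_mono
  FT := by
    classical
    intro i
    have h := Nat.find_spec (exists_stop G s S)
    rcases Nat.le_total i (Nat.find (exists_stop G s S)) with hi | hi
    · convert fireF_mono hi
    · have := fireF_stable_of h i hi
      rw [this]
  AT := by
    classical
    intro i
    have h := Nat.find_spec (exists_stop G s S)
    cases i with
    | zero => simp [thr]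
    | succ i =>
      have hsub : fireF G s S i ⊆ fireF G s S (Nat.find (exists_stop G s S)) := by
        rcases Nat.le_total i (Nat.find (exists_stop G s S)) with hi | hi
        · exact fireF_mono hi
        · have := fireF_stable_of h i hi
          rw [this]
      intro w hw
      rw [mem_thr_succ] at hw ⊢
      obtain ⟨h1, u, hu, h2⟩ := hw
      exact ⟨h1, u, hsub hu, h2⟩
  Fne := by
    classical
    intro i hi
    have h := Nat.find_min (exists_stop G s S) hi
    rw [Finset.sdiff_nonempty]
    intro h'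
    exact h (Finset.Subset.antisymm h' (fireF_mono_succ i))
  Fstep := by
    intro i w hw
    rw [mem_fireF_succ] at hw
    rcases hw with h | h
    · exact Or.inl h
    · exact Or.inr h.2
  Astep := by
    intro i w hw
    rw [mem_thr_succ] at hw
    exact hw.2
  out := by
    intro i x hx w hxw
    by_cases hw : w ∈ S
    · right
      rw [mem_thr_succ]
      exact ⟨hw, x, hx, hxw⟩
    · left
      rw [mem_fireF_succ]
      exact Or.inr ⟨hw, x, hx, hxw⟩
  disj := by
    intro i j
    rw [Finset.disjoint_left]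
    intro w hw hw'
    exact fireF_disj hF.1 i w hw (thr_subset j hw')
  Acard := hF.2

/-- In a graph without `K_{2,t+1}` minor which is large compared with `L`, every strategy can be
replaced by one which is at least as good and has at most `n / L + 1` guards. -/
theorem short_strategy {t L : ℕ} (hL : 1 ≤ L) (hK : ¬ HasK2Minor G (t + 1))
    (hn : (32 * (2 * 2 ^ (64 * (t + 1) * L) * (16 * (t + 1) * L + 1)) * ((t + 1) * L)) * L ≤
      Fintype.card V) (hF : Feas G s S) :
    ∃ S' : Finset V, Feas G s S' ∧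
      (fireF G s S' (Fintype.card V)).card ≤ (fireF G s S (Fintype.card V)).card ∧
      S'.card ≤ Fintype.card V / L + 1 := by
  classical
  obtain ⟨S₀, hS₀, hmin⟩ := Finset.exists_min_image (univ.filter (fun S : Finset V => Feas G s S))
    (fun S => (fireF G s S (Fintype.card V)).card) ⟨S, by simp [hF]⟩
  rw [Finset.mem_filter] at hS₀
  have hF₀ : Feas G s S₀ := hS₀.2
  set b := burnOf hF₀ with hb
  have hbF : b.F = fireF G s S₀ := rfl
  have hbA : b.A = thr G s S₀ := rfl
  set S' : Finset V := b.A (b.T + 1) with hS'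
  have hS'S : S' ⊆ S₀ := thr_subset _
  have hfire : ∀ i, fireF G s S' i = fireF G s S₀ i := by
    intro i
    induction i with
    | zero => rfl
    | succ i ih =>
      ext w
      rw [mem_fireF_succ, mem_fireF_succ, ih]
      constructor
      · rintro (h | ⟨h1, u, hu, h2⟩)
        · exact Or.inl h
        · right
          refine ⟨?_, u, hu, h2⟩
          intro h3
          apply h1
          apply b.AT (i + 1)
          rw [hbA, mem_thr_succ]
          exact ⟨h3, u, hu, h2⟩
      · rintro (h | ⟨h1, u, hu, h2⟩)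
        · exact Or.inl h
        · exact Or.inr ⟨fun h => h1 (hS'S h), u, hu, h2⟩
  have hthr : ∀ i, thr G s S' i ⊆ thr G s S₀ i := by
    intro i
    cases i with
    | zero => simp [thr]
    | succ i =>
      intro w hw
      rw [mem_thr_succ, hfire] at hw
      rw [mem_thr_succ]
      exact ⟨hS'S hw.1, hw.2⟩
  refine ⟨S', ⟨fun h => hF₀.1 (hS'S h), fun i => (Finset.card_le_card (hthr i)).trans (hF₀.2 i)⟩,
    ?_, ?_⟩
  · rw [hfire]
    exact hmin S (by simp [hF])
  · have h1 : S'.card ≤ b.T + 1 := b.Acard _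
    refine h1.trans ?_
    rw [Nat.add_le_add_iff_right]
    by_contra hcon
    push Not at hcon
    have hcon' : Fintype.card V ≤ b.T * L := by
      have := (Nat.div_lt_iff_lt_mul (by omega)).1 hcon
      exact this.le
    have hT : 32 * (2 * 2 ^ (64 * (t + 1) * L) * (16 * (t + 1) * L + 1)) * ((t + 1) * L) ≤ b.T := by
      refine le_trans ?_ hcon.le
      rw [Nat.le_div_iff_mul_le (by omega)]
      exact hn
    obtain ⟨S'', h2, h3⟩ := b.improve hL hK hcon' hT
    have h4 := hmin S'' (by simp [h2])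
    have h5 := h3 (Fintype.card V)
    have h6 : (b.F b.T).card ≤ (fireF G s S₀ (Fintype.card V)).card := by
      have h7 : b.T ≤ Fintype.card V := by
        have h8 := b.late_card 0 (Nat.zero_le _)
        have h9 := Finset.card_le_univ (b.F b.T \ b.F 0)
        omega
      rw [hbF]
      exact Finset.card_le_card (fireF_mono h7)
    omega

/-- The threshold in `short_strategy` is at most `2 ^ (80 (t+1) L)`. -/
lemma threshold_le {t L : ℕ} (hL : 1 ≤ L) :
    (32 * (2 * 2 ^ (64 * (t + 1) * L) * (16 * (t + 1) * L + 1)) * ((t + 1) * L)) * L ≤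
      2 ^ (80 * ((t + 1) * L)) := by
  set τ := (t + 1) * L with hτ
  have hLτ : L ≤ τ := Nat.le_mul_of_pos_left L (by omega)
  have hτ1 : 1 ≤ τ := hL.trans hLτ
  have hlt : τ < 2 ^ τ := Nat.lt_two_pow_self
  have e1 : 64 * (t + 1) * L = 64 * τ := by rw [hτ]; ring
  have e2 : 16 * (t + 1) * L = 16 * τ := by rw [hτ]; ring
  rw [e1, e2]
  have h1 : 16 * τ + 1 ≤ 2 ^ 5 * 2 ^ τ := by omega
  calc (32 * (2 * 2 ^ (64 * τ) * (16 * τ + 1)) * τ) * L
      ≤ (2 ^ 5 * (2 * 2 ^ (64 * τ) * (2 ^ 5 * 2 ^ τ)) * 2 ^ τ) * 2 ^ τ := by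
        apply Nat.mul_le_mul _ (by omega)
        apply Nat.mul_le_mul _ hlt.le
        apply Nat.mul_le_mul (by norm_num)
        apply Nat.mul_le_mul le_rfl h1
    _ = 2 ^ (67 * τ + 11) := by
        have : 67 * τ + 11 = 5 + (1 + 64 * τ + (5 + τ)) + τ + τ := by ring
        rw [this]
        simp only [pow_add, pow_one]
    _ ≤ 2 ^ (80 * τ) := by
        apply Nat.pow_le_pow_right (by norm_num)
        omega

end

end Pool.Agent.Lib.MP_711ea9_lc
end

section

set_option autoImplicit false

/-!
# Specification of the main loop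
-/

namespace Pool.Agent.Lib.MP_711ea9_lc

open Cmd

lemma pClear_spec (σ : Store) (n s : ℕ) (hn : σ.var 0 = n) (hs : σ.var 1 = s) :
    (∀ v < n, v ≠ s → (pClear.exec σ).arr 2 v = 0) ∧ (pClear.exec σ).arr 2 s = 1 ∧
    (∀ v < n, (pClear.exec σ).arr 1 v = 0) := by
  have h := loop_rule (e := .var 0) (c := (seq (put 1 (.var 13) (.const 0))
      (seq (put 2 (.var 13) (.const 0)) (set 13 (.add (.var 13) (.const 1))))))
    (σ := (Cmd.set 13 (.const 0)).exec σ) (N := n)
    (by simp [exec, Expr.eval, Function.update, hn])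
    (fun i τ => τ.var 13 = i ∧ ∀ v < i, τ.arr 1 v = 0 ∧ τ.arr 2 v = 0)
    (by simp [exec, Expr.eval, Function.update])
    (by
      intro i hi τ _ _ hI
      obtain ⟨h1, h2⟩ := hI
      simp only [exec_seq, exec_set, exec_put, Expr.eval]
      refine ⟨by simp [Function.update, h1], ?_⟩
      intro v hv
      simp only [Function.update, h1]
      norm_num
      by_cases hvi : v = i
      · subst hvi; simp
      · have h3 := h2 v (by omega)
        simp [Function.update, hvi, h3.1, h3.2])
  set τ := (loop (.var 0) (seq (put 1 (.var 13) (.const 0))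
      (seq (put 2 (.var 13) (.const 0)) (set 13 (.add (.var 13) (.const 1)))))).exec
      ((Cmd.set 13 (.const 0)).exec σ) with hτ
  have hfin : pClear.exec σ = (put 2 (.var 1) (.const 1)).exec τ := rfl
  have h1 : τ.var 1 = s := by
    rw [hτ, frame_var _ _ _ rfl]; simp [exec, Function.update, hs]
  rw [hfin]
  simp only [exec_put, Expr.eval, h1]
  refine ⟨?_, ?_, ?_⟩
  · intro v hv hvs
    simp only [Function.update]
    simp [hvs, (h.2 v hv).2]
  · simp [Function.update]
  · intro v hv
    simp only [Function.update]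
    simp [(h.2 v hv).1]

lemma pDecode_spec (σ : Store) (n b len x : ℕ) (hb : σ.var 4 = b) (hlen : σ.var 8 = len)
    (hx : σ.var 10 = x) (h0 : ∀ v < n, σ.arr 1 v = 0) :
    ∀ v < n, ((pDecode.exec σ).arr 1 v ≠ 0 ↔ v ∈ dec b len x 0) := by
  have h := loop_rule (e := .var 8) (c := pDigit)
    (σ := (Cmd.set 12 (.const 0)).exec ((Cmd.set 11 (.var 10)).exec σ)) (N := len)
    (by simp [exec, Expr.eval, Function.update, hlen])
    (fun i τ => ∀ v < n, ((τ.arr 1 v ≠ 0 ∨ v ∈ dec b (len - i) (τ.var 11) (τ.var 12)) ↔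
      v ∈ dec b len x 0))
    (by
      intro v hv
      simp [exec, Expr.eval, Function.update, hx, h0 v hv])
    (by
      intro i hi τ hv _ hI v hvn
      have hb' : τ.var 4 = b := by
        rw [hv 4 rfl]; simp [exec, Function.update, hb]
      have hIv := hI v hvn
      have e1 : len - i = (len - (i + 1)) + 1 := by omega
      rw [e1] at hIv
      rw [← hIv]
      unfold pDigit
      rw [exec_seq]
      have h3 : τ.var 11 % 3 < 3 := Nat.mod_lt _ (by norm_num)
      rcases Nat.lt_or_ge 0 (τ.var 11 % 3) with hpos | hz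
      · rcases Nat.lt_or_ge 1 (τ.var 11 % 3) with h2 | h1
        · have e2 : τ.var 11 % 3 = 2 := by omega
          rw [exec_ite_pos (by simp only [Expr.eval]; omega),
            exec_ite_pos (by simp only [Expr.eval]; omega)]
          simp only [exec_seq, exec_set, exec_put, Expr.eval, dec, e2]
          by_cases hvp : v = τ.var 12
          · simp [Function.update, hvp]
          · simp [Function.update, hvp]
        · have e2 : τ.var 11 % 3 = 1 := by omega
          rw [exec_ite_pos (by simp only [Expr.eval]; omega),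
            exec_ite_neg (by simp only [Expr.eval]; omega)]
          simp [exec_set, Expr.eval, dec, e2, Function.update]
      · have e2 : τ.var 11 % 3 = 0 := by omega
        rw [exec_ite_neg (by simp only [Expr.eval]; omega)]
        simp [exec_set, Expr.eval, dec, e2, Function.update, hb'])
  intro v hv
  have h1 := h v hv
  have hfin : pDecode.exec σ = (loop (.var 8) pDigit).exec
    ((Cmd.set 12 (.const 0)).exec ((Cmd.set 11 (.var 10)).exec σ)) := rfl
  rw [hfin, ← h1]
  simp [dec]

lemma pHeat2_spec (σ : Store) (n v : ℕ) (hn : σ.var 0 = n) (hv : σ.var 13 = v)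
    (hr : σ.var 14 = v * n) :
    (pHeat2.exec σ).var 13 = v + 1 ∧ (pHeat2.exec σ).var 14 = (v + 1) * n ∧
    (∀ w, w ≠ v → (pHeat2.exec σ).arr 3 w = σ.arr 3 w) ∧
    ((pHeat2.exec σ).arr 3 v ≠ 0 ↔ ∃ u < n, σ.arr 2 u ≠ 0 ∧ σ.arr 0 (v * n + u) ≠ 0) := by
  set σ1 := (Cmd.set 16 (.const 0)).exec ((Cmd.set 15 (.const 0)).exec σ) with hσ1
  have hpre : σ1.var 0 = n ∧ σ1.var 13 = v ∧ σ1.var 14 = v * n ∧ σ1.var 15 = 0 ∧
      σ1.var 16 = 0 ∧ σ1.arr = σ.arr := by
    rw [hσ1]; simp [exec, Expr.eval, Function.update, hn, hv, hr]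
  obtain ⟨p0, p13, p14, p15, p16, parr⟩ := hpre
  have h := loop_rule (e := .var 0) (c := pHeat1) (σ := σ1) (N := n)
    (by simp [Expr.eval, p0])
    (fun i τ => τ.var 16 = i ∧ τ.var 14 = v * n + i ∧
      (τ.var 15 ≠ 0 ↔ ∃ u < i, σ.arr 2 u ≠ 0 ∧ σ.arr 0 (v * n + u) ≠ 0))
    (by simp [p14, p15, p16])
    (by
      intro i hi τ hvar harr hI
      obtain ⟨h16, h14, h15⟩ := hI
      have ha : τ.arr = σ.arr := by
        funext a
        rw [harr a rfl, parr]
      unfold pHeat1
      rw [exec_seq]
      have hex : (∃ u < i + 1, σ.arr 2 u ≠ 0 ∧ σ.arr 0 (v * n + u) ≠ 0) ↔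
          ((∃ u < i, σ.arr 2 u ≠ 0 ∧ σ.arr 0 (v * n + u) ≠ 0) ∨
            (σ.arr 2 i ≠ 0 ∧ σ.arr 0 (v * n + i) ≠ 0)) := by
        constructor
        · rintro ⟨u, hu, h⟩
          rcases Nat.lt_or_ge u i with hui | hui
          · exact Or.inl ⟨u, hui, h⟩
          · have : u = i := by omega
            subst this
            exact Or.inr h
        · rintro (⟨u, hu, h⟩ | h)
          · exact ⟨u, by omega, h⟩
          · exact ⟨i, by omega, h⟩
      rw [hex, ← h15]
      by_cases hF : σ.arr 2 i = 0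
      · rw [exec_ite_neg (by simp only [Expr.eval]; rw [h16, ha]; exact hF)]
        simp [exec_skip, exec_seq, exec_set, Expr.eval, Function.update, h16, h14, hF]
        ring
      · rw [exec_ite_pos (by simp only [Expr.eval]; rw [h16, ha]; exact hF)]
        by_cases hA : σ.arr 0 (v * n + i) = 0
        · rw [exec_ite_neg (by simp only [Expr.eval]; rw [h14, ha]; exact hA)]
          simp [exec_skip, exec_seq, exec_set, Expr.eval, Function.update, h16, h14, hA]
          ring
        · rw [exec_ite_pos (by simp only [Expr.eval]; rw [h14, ha]; exact hA)]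
          simp [exec_seq, exec_set, Expr.eval, Function.update, h16, h14, hA, hF]
          ring)
  set τ := (loop (.var 0) pHeat1).exec σ1 with hτ
  have hfin : pHeat2.exec σ = (Cmd.set 13 (.add (.var 13) (.const 1))).exec
    ((Cmd.put 3 (.var 13) (.var 15)).exec τ) := rfl
  obtain ⟨h16, h14, h15⟩ := h
  have t13 : τ.var 13 = v := by rw [hτ, frame_var _ _ _ rfl]; exact p13
  have t3 : τ.arr 3 = σ.arr 3 := by rw [hτ, frame_arr _ _ _ rfl, parr]
  rw [hfin]
  simp only [exec_set, exec_put, Expr.eval, t13]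
  refine ⟨by simp, ?_, ?_, ?_⟩
  · simp only [Function.update]
    norm_num
    rw [h14]; ring
  · intro w hw
    simp [Function.update, hw, t3]
  · rw [← h15]
    simp [Function.update]

lemma pHeat_spec (σ : Store) (n : ℕ) (hn : σ.var 0 = n) :
    ∀ v < n, ((pHeat.exec σ).arr 3 v ≠ 0 ↔
      ∃ u < n, σ.arr 2 u ≠ 0 ∧ σ.arr 0 (v * n + u) ≠ 0) := by
  set σ1 := (Cmd.set 13 (.const 0)).exec ((Cmd.set 14 (.const 0)).exec σ) with hσ1
  have hpre : σ1.var 0 = n ∧ σ1.var 13 = 0 ∧ σ1.var 14 = 0 ∧ σ1.arr = σ.arr := by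
    rw [hσ1]; simp [exec, Expr.eval, Function.update, hn]
  obtain ⟨p0, p13, p14, parr⟩ := hpre
  have h := loop_rule (e := .var 0) (c := pHeat2) (σ := σ1) (N := n)
    (by simp [Expr.eval, p0])
    (fun i τ => τ.var 13 = i ∧ τ.var 14 = i * n ∧
      ∀ v < i, (τ.arr 3 v ≠ 0 ↔ ∃ u < n, σ.arr 2 u ≠ 0 ∧ σ.arr 0 (v * n + u) ≠ 0))
    (by simp [p14, p13])
    (by
      intro i hi τ hvar harr hI
      obtain ⟨h13, h14, h3⟩ := hI
      have t0 : τ.var 0 = n := by rw [hvar 0 rfl, p0]
      have ta2 : τ.arr 2 = σ.arr 2 := by rw [harr 2 rfl, parr]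
      have ta0 : τ.arr 0 = σ.arr 0 := by rw [harr 0 rfl, parr]
      obtain ⟨q13, q14, q3, q4⟩ := pHeat2_spec τ n i t0 h13 h14
      refine ⟨q13, q14, ?_⟩
      intro v hv
      rcases Nat.lt_or_ge v i with h | h
      · rw [q3 v (by omega)]; exact h3 v h
      · have : v = i := by omega
        subst this
        rw [q4, ta2, ta0])
  exact h.2.2

lemma pSpread_spec (σ : Store) (n : ℕ) (hn : σ.var 0 = n) :
    (pSpread.exec σ).var 17 =
      ((Finset.range n).filter (fun v => σ.arr 3 v ≠ 0 ∧ σ.arr 1 v ≠ 0)).card ∧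
    ∀ v < n, ((pSpread.exec σ).arr 2 v ≠ 0 ↔
      (σ.arr 2 v ≠ 0 ∨ (σ.arr 3 v ≠ 0 ∧ σ.arr 1 v = 0))) := by
  set σ1 := (Cmd.set 13 (.const 0)).exec ((Cmd.set 17 (.const 0)).exec σ) with hσ1
  have hpre : σ1.var 0 = n ∧ σ1.var 13 = 0 ∧ σ1.var 17 = 0 ∧ σ1.arr = σ.arr := by
    rw [hσ1]; simp [exec, Expr.eval, Function.update, hn]
  obtain ⟨p0, p13, p17, parr⟩ := hpre
  have h := loop_rule (e := .var 0) (c := (seq
      (ite (.get 3 (.var 13))
        (ite (.get 1 (.var 13)) (set 17 (.add (.var 17) (.const 1)))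
          (put 2 (.var 13) (.const 1))) skip)
      (set 13 (.add (.var 13) (.const 1))))) (σ := σ1) (N := n)
    (by simp [Expr.eval, p0])
    (fun i τ => τ.var 13 = i ∧ τ.var 17 =
      ((Finset.range i).filter (fun v => σ.arr 3 v ≠ 0 ∧ σ.arr 1 v ≠ 0)).card ∧
      (∀ v, (τ.arr 2 v ≠ 0 ↔
      (σ.arr 2 v ≠ 0 ∨ (v < i ∧ σ.arr 3 v ≠ 0 ∧ σ.arr 1 v = 0)))))
    (by simp [p17, p13, parr])
    (by
      intro i hi τ hvar harr hI
      obtain ⟨h13, h17, h2⟩ := hI
      have ta3 : τ.arr 3 = σ.arr 3 := by rw [harr 3 rfl, parr]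
      have ta1 : τ.arr 1 = σ.arr 1 := by rw [harr 1 rfl, parr]
      rw [exec_seq, Finset.range_add_one, Finset.filter_insert]
      have hex : ∀ v, (v < i + 1 ∧ σ.arr 3 v ≠ 0 ∧ σ.arr 1 v = 0) ↔
          ((v < i ∧ σ.arr 3 v ≠ 0 ∧ σ.arr 1 v = 0) ∨
            (v = i ∧ σ.arr 3 v ≠ 0 ∧ σ.arr 1 v = 0)) := by
        intro v
        constructor
        · rintro ⟨h1, h2⟩
          rcases Nat.lt_or_ge v i with h | h
          · exact Or.inl ⟨h, h2⟩
          · exact Or.inr ⟨by omega, h2⟩
        · rintro (⟨h1, h2⟩ | ⟨h1, h2⟩)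
          · exact ⟨by omega, h2⟩
          · exact ⟨by omega, h2⟩
      by_cases hH : σ.arr 3 i = 0
      · rw [exec_ite_neg (by simp only [Expr.eval]; rw [h13, ta3]; exact hH),
          if_neg (by simp [hH])]
        simp only [exec_skip, exec_set, Expr.eval]
        refine ⟨by simp [Function.update, h13], by simp [Function.update, h17], ?_⟩
        intro v
        rw [h2 v, hex v]
        constructor
        · tauto
        · rintro (h | h | ⟨h, h', _⟩)
          · exact Or.inl h
          · exact Or.inr h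
          · subst h; exact (h' hH).elim
      · rw [exec_ite_pos (by simp only [Expr.eval]; rw [h13, ta3]; exact hH)]
        by_cases hS : σ.arr 1 i = 0
        · rw [exec_ite_neg (by simp only [Expr.eval]; rw [h13, ta1]; exact hS),
            if_neg (by simp [hS])]
          simp only [exec_put, exec_set, Expr.eval]
          refine ⟨by simp [Function.update, h13], by simp [Function.update, h17], ?_⟩
          intro v
          by_cases hvi : v = i
          · subst hvi
            simp [Function.update, h13, hH, hS]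
          · rw [hex v]
            have : (Function.update τ.arr 2 (Function.update (τ.arr 2) (τ.var 13) 1)) 2 v =
                τ.arr 2 v := by simp [Function.update, h13, hvi]
            rw [this, h2 v]
            tauto
        · rw [exec_ite_pos (by simp only [Expr.eval]; rw [h13, ta1]; exact hS),
            if_pos ⟨hH, hS⟩, Finset.card_insert_of_notMem (by simp)]
          simp only [exec_set, Expr.eval]
          refine ⟨by simp [Function.update, h13], by simp [Function.update, h17], ?_⟩
          intro v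
          rw [h2 v, hex v]
          constructor
          · tauto
          · rintro (h | h | ⟨h, _, h'⟩)
            · exact Or.inl h
            · exact Or.inr h
            · subst h; exact (hS h').elim)
  refine ⟨h.2.1, ?_⟩
  intro v hv
  have h5 := h.2.2 v
  have h6 : (v < n ∧ σ.arr 3 v ≠ 0 ∧ σ.arr 1 v = 0) ↔ (σ.arr 3 v ≠ 0 ∧ σ.arr 1 v = 0) := by
    simp [hv]
  rw [← h6]
  exact h5

lemma pCount_spec (σ : Store) (n : ℕ) (hn : σ.var 0 = n) :
    (pCount.exec σ).var 20 = ((Finset.range n).filter (fun v => σ.arr 2 v ≠ 0)).card := by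
  set σ1 := (Cmd.set 13 (.const 0)).exec ((Cmd.set 20 (.const 0)).exec σ) with hσ1
  have hpre : σ1.var 0 = n ∧ σ1.var 13 = 0 ∧ σ1.var 20 = 0 ∧ σ1.arr = σ.arr := by
    rw [hσ1]; simp [exec, Expr.eval, Function.update, hn]
  obtain ⟨p0, p13, p20, parr⟩ := hpre
  have h := loop_rule (e := .var 0) (c := (seq
      (ite (.get 2 (.var 13)) (set 20 (.add (.var 20) (.const 1))) skip)
      (set 13 (.add (.var 13) (.const 1))))) (σ := σ1) (N := n)
    (by simp [Expr.eval, p0])
    (fun i τ => τ.var 13 = i ∧ τ.var 20 =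
      ((Finset.range i).filter (fun v => σ.arr 2 v ≠ 0)).card)
    (by simp [p20, p13])
    (by
      intro i hi τ hvar harr hI
      obtain ⟨h13, h20⟩ := hI
      have ta2 : τ.arr 2 = σ.arr 2 := by rw [harr 2 rfl, parr]
      rw [exec_seq, Finset.range_add_one, Finset.filter_insert]
      by_cases hH : σ.arr 2 i = 0
      · rw [exec_ite_neg (by simp only [Expr.eval]; rw [h13, ta2]; exact hH),
          if_neg (by simp [hH])]
        simp [exec_skip, exec_set, Expr.eval, Function.update, h13, h20]
      · rw [exec_ite_pos (by simp only [Expr.eval]; rw [h13, ta2]; exact hH),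
          if_pos hH, Finset.card_insert_of_notMem (by simp)]
        simp [exec_set, Expr.eval, Function.update, h13, h20])
  exact h.2

end Pool.Agent.Lib.MP_711ea9_lc
end

section

set_option autoImplicit false

/-!
# Correctness of the program
-/

namespace Pool.Agent.Lib.MP_711ea9_lc

open Cmd

section

variable {n : ℕ} {G : SimpleGraph (Fin n)} {s : Fin n} {S : Finset (Fin n)}

/-- Array 0 holds the adjacency matrix. -/
def AdjOK (G : SimpleGraph (Fin n)) (σ : Store) : Prop :=
  ∀ v u : Fin n, σ.arr 0 ((v : ℕ) * n + u) ≠ 0 ↔ G.Adj v u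

/-- Array `a` holds the set `S`. -/
def SetOK (a : ℕ) (S : Finset (Fin n)) (σ : Store) : Prop :=
  ∀ v : Fin n, σ.arr a v ≠ 0 ↔ v ∈ S

open scoped Classical in
lemma card_range_filter (p : ℕ → Prop) (T : Finset (Fin n)) (h : ∀ v : Fin n, p v ↔ v ∈ T) :
    ((Finset.range n).filter p).card = T.card := by
  have : (Finset.range n).filter p = T.map Fin.valEmbedding := by
    ext v
    rw [Finset.mem_filter, Finset.mem_range, Finset.mem_map]
    constructor
    · rintro ⟨h1, h2⟩
      exact ⟨⟨v, h1⟩, (h ⟨v, h1⟩).1 h2, rfl⟩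
    · rintro ⟨u, hu, rfl⟩
      exact ⟨u.2, (h u).2 hu⟩
  rw [this, Finset.card_map]

lemma pRound_spec (σ : Store) (i : ℕ) (hn : σ.var 0 = n) (hi : σ.var 19 = i)
    (hA : AdjOK G σ) (hS : SetOK 1 S σ) (hF : SetOK 2 (fireF G s S i) σ) :
    SetOK 2 (fireF G s S (i + 1)) (pRound.exec σ) ∧ (pRound.exec σ).var 19 = i + 1 ∧
    ((pRound.exec σ).var 18 = 0 ↔ (σ.var 18 = 0 ∧ (thr G s S (i + 1)).card ≤ i + 1)) := by
  set σ1 := pHeat.exec σ with hσ1
  set σ2 := pSpread.exec σ1 with hσ2
  set σ3 := (Cmd.set 19 (.add (.var 19) (.const 1))).exec σ2 with hσ3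
  have hfin : pRound.exec σ = (ite (.sub (.var 17) (.var 19)) (set 18 (.const 1)) skip).exec σ3 :=
    rfl
  have h1 : ∀ v : Fin n, σ1.arr 3 v ≠ 0 ↔ ∃ u ∈ fireF G s S i, G.Adj u v := by
    intro v
    rw [hσ1, pHeat_spec σ n hn v v.2]
    constructor
    · rintro ⟨u, hu, h2, h3⟩
      exact ⟨⟨u, hu⟩, (hF ⟨u, hu⟩).1 h2, ((hA v ⟨u, hu⟩).1 h3).symm⟩
    · rintro ⟨u, hu, h2⟩
      exact ⟨u, u.2, (hF u).2 hu, (hA v u).2 h2.symm⟩
  have n1 : σ1.var 0 = n := by rw [hσ1, frame_var _ _ _ rfl, hn]
  have a11 : σ1.arr 1 = σ.arr 1 := by rw [hσ1, frame_arr _ _ _ rfl]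
  have a12 : σ1.arr 2 = σ.arr 2 := by rw [hσ1, frame_arr _ _ _ rfl]
  have i2 : σ2.var 19 = i := by rw [hσ2, frame_var _ _ _ rfl, hσ1, frame_var _ _ _ rfl, hi]
  have b2 : σ2.var 18 = σ.var 18 := by rw [hσ2, frame_var _ _ _ rfl, hσ1, frame_var _ _ _ rfl]
  obtain ⟨h17, h2⟩ := pSpread_spec σ1 n n1
  rw [← hσ2] at h17 h2
  have hc : σ2.var 17 = (thr G s S (i + 1)).card := by
    rw [h17]
    convert card_range_filter (n := n) _ (thr G s S (i + 1)) ?_
    intro v
    rw [mem_thr_succ, h1 v, a11, hS v]
    tauto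
  have hfire : SetOK 2 (fireF G s S (i + 1)) σ2 := by
    intro v
    rw [h2 v v.2, mem_fireF_succ, a12, hF v, h1 v, a11]
    have : σ.arr 1 v = 0 ↔ v ∉ S := by rw [← hS v]; simp
    rw [this]
    tauto
  have hfin2 : (pRound.exec σ).arr 2 = σ2.arr 2 := by
    rw [hfin, frame_arr _ _ _ rfl, hσ3, frame_arr _ _ _ rfl]
  have hfin19 : (pRound.exec σ).var 19 = i + 1 := by
    rw [hfin, frame_var _ _ _ rfl, hσ3, exec_set]
    simp [Expr.eval, i2]
  refine ⟨?_, hfin19, ?_⟩
  · intro v
    rw [hfin2]; exact hfire v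
  · have s17 : σ3.var 17 = (thr G s S (i + 1)).card := by
      rw [hσ3, frame_var _ _ _ rfl, hc]
    have s19 : σ3.var 19 = i + 1 := by
      rw [hσ3, exec_set]
      simp [Expr.eval, i2]
    have s18 : σ3.var 18 = σ.var 18 := by
      rw [hσ3, frame_var _ _ _ rfl, b2]
    rw [hfin]
    by_cases hle : (thr G s S (i + 1)).card ≤ i + 1
    · rw [exec_ite_neg (by simp only [Expr.eval]; rw [s17, s19]; omega), exec_skip, s18]
      simp [hle]
    · rw [exec_ite_pos (by simp only [Expr.eval]; rw [s17, s19]; omega), exec_set]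
      simp [Expr.eval, hle]

lemma pCheck_spec (σ : Store) (hn : σ.var 0 = n) (hs : σ.var 1 = s)
    (hA : AdjOK G σ) (hS : SetOK 1 S σ) (hF : SetOK 2 {s} σ) :
    ((pCheck.exec σ).var 18 = 0 ↔ Feas G s S) ∧
    (pCheck.exec σ).var 20 = (fireF G s S n).card := by
  set σ1 := (Cmd.set 19 (.const 0)).exec ((Cmd.set 18 (.get 1 (.var 1))).exec σ) with hσ1
  have hpre : σ1.var 0 = n ∧ σ1.var 19 = 0 ∧ σ1.var 18 = σ.arr 1 s ∧ σ1.arr = σ.arr := by
    rw [hσ1]; simp [exec, Expr.eval, Function.update, hn, hs]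
  obtain ⟨p0, p19, p18, parr⟩ := hpre
  have h := loop_rule (e := .var 0) (c := pRound) (σ := σ1) (N := n)
    (by simp [Expr.eval, p0])
    (fun i τ => SetOK 2 (fireF G s S i) τ ∧ τ.var 19 = i ∧
      (τ.var 18 = 0 ↔ s ∉ S ∧ ∀ j ≤ i, (thr G s S j).card ≤ j))
    (by
      refine ⟨?_, p19, ?_⟩
      · intro v
        rw [parr]; exact hF v
      · rw [p18]
        have : σ.arr 1 s = 0 ↔ s ∉ S := by rw [← hS s]; simp
        rw [this]
        constructor
        · intro h
          refine ⟨h, ?_⟩
          intro j hj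
          have : j = 0 := by omega
          subst this
          simp [thr]
        · intro h; exact h.1)
    (by
      intro i hi τ hvar harr hI
      obtain ⟨h2, h19, h18⟩ := hI
      have t0 : τ.var 0 = n := by rw [hvar 0 rfl, p0]
      have tA : AdjOK G τ := by
        intro v u; rw [harr 0 rfl, parr]; exact hA v u
      have tS : SetOK 1 S τ := by
        intro v; rw [harr 1 rfl, parr]; exact hS v
      obtain ⟨q1, q2, q3⟩ := pRound_spec τ i t0 h19 tA tS h2
      refine ⟨q1, q2, ?_⟩
      rw [q3, h18]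
      constructor
      · rintro ⟨⟨h1, h2⟩, h3⟩
        refine ⟨h1, ?_⟩
        intro j hj
        rcases Nat.lt_or_ge i j with h | h
        · have : j = i + 1 := by omega
          subst this; exact h3
        · exact h2 j h
      · rintro ⟨h1, h2⟩
        exact ⟨⟨h1, fun j hj => h2 j (by omega)⟩, h2 _ le_rfl⟩)
  set τ := (loop (.var 0) pRound).exec σ1 with hτ
  have hfin : pCheck.exec σ = pCount.exec τ := rfl
  obtain ⟨h2, h19, h18⟩ := h
  have t0 : τ.var 0 = n := by rw [hτ, frame_var _ _ _ rfl, p0]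
  constructor
  · rw [hfin, frame_var _ _ _ rfl, h18]
    constructor
    · rintro ⟨h3, h4⟩
      refine ⟨h3, fun j => ?_⟩
      rcases Nat.le_total j n with h | h
      · exact h4 j h
      · calc (thr G s S j).card ≤ (Finset.univ : Finset (Fin n)).card :=
            Finset.card_le_univ _
          _ = n := by simp
          _ ≤ j := h
    · rintro ⟨h3, h4⟩
      exact ⟨h3, fun j _ => h4 j⟩
  · rw [hfin, pCount_spec τ n t0]
    convert card_range_filter (n := n) _ (fireF G s S n) ?_
    intro v
    exact h2 v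

/-- The guards coded by `x`. -/
def codeSet (n b len x : ℕ) : Finset (Fin n) :=
  Finset.univ.filter (fun v : Fin n => (v : ℕ) ∈ dec b len x 0)

lemma pBody_spec (σ : Store) (b len x : ℕ) (hn : σ.var 0 = n) (hs : σ.var 1 = s)
    (hb : σ.var 4 = b) (hlen : σ.var 8 = len) (hx : σ.var 10 = x) (hA : AdjOK G σ) :
    (pBody.exec σ).var 10 = x + 1 ∧
    ((Feas G s (codeSet n b len x) → (pBody.exec σ).var 21 ≤
      (fireF G s (codeSet n b len x) n).card) ∧ (pBody.exec σ).var 21 ≤ σ.var 21 ∧
    ((pBody.exec σ).var 21 = σ.var 21 ∨ (Feas G s (codeSet n b len x) ∧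
      (pBody.exec σ).var 21 = (fireF G s (codeSet n b len x) n).card))) := by
  set S := codeSet n b len x with hSdef
  set σ1 := pClear.exec σ with hσ1
  set σ2 := pDecode.exec σ1 with hσ2
  set σ3 := pCheck.exec σ2 with hσ3
  set σ4 := (ite (.var 18) skip (ite (.sub (.var 21) (.var 20)) (set 21 (.var 20)) skip)).exec σ3
    with hσ4
  have hfin : pBody.exec σ = (Cmd.set 10 (.add (.var 10) (.const 1))).exec σ4 := rfl
  obtain ⟨c1, c2, c3⟩ := pClear_spec σ n s hn hs
  rw [← hσ1] at c1 c2 c3
  have n1 : σ1.var 0 = n := by rw [hσ1, frame_var _ _ _ rfl, hn]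
  have s1 : σ1.var 1 = s := by rw [hσ1, frame_var _ _ _ rfl, hs]
  have b1 : σ1.var 4 = b := by rw [hσ1, frame_var _ _ _ rfl, hb]
  have l1 : σ1.var 8 = len := by rw [hσ1, frame_var _ _ _ rfl, hlen]
  have x1 : σ1.var 10 = x := by rw [hσ1, frame_var _ _ _ rfl, hx]
  have d1 := pDecode_spec σ1 n b len x b1 l1 x1 c3
  rw [← hσ2] at d1
  have n2 : σ2.var 0 = n := by rw [hσ2, frame_var _ _ _ rfl, n1]
  have s2 : σ2.var 1 = s := by rw [hσ2, frame_var _ _ _ rfl, s1]
  have A2 : AdjOK G σ2 := by
    intro v u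
    rw [hσ2, frame_arr _ _ _ rfl, hσ1, frame_arr _ _ _ rfl]
    exact hA v u
  have S2 : SetOK 1 S σ2 := by
    intro v
    rw [d1 v v.2, hSdef, codeSet]
    simp
  have F2 : SetOK 2 {s} σ2 := by
    intro v
    rw [hσ2, frame_arr _ _ _ rfl, Finset.mem_singleton]
    by_cases hvs : v = s
    · subst hvs; rw [c2]; simp
    · have h1 : (v : ℕ) ≠ s := fun h => hvs (Fin.ext h)
      rw [c1 v v.2 h1]
      simp [hvs]
  obtain ⟨k1, k2⟩ := pCheck_spec σ2 n2 s2 A2 S2 F2
  rw [← hσ3] at k1 k2
  have x3 : σ3.var 10 = x := by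
    rw [hσ3, frame_var _ _ _ rfl, hσ2, frame_var _ _ _ rfl, x1]
  have best3 : σ3.var 21 = σ.var 21 := by
    rw [hσ3, frame_var _ _ _ rfl, hσ2, frame_var _ _ _ rfl, hσ1, frame_var _ _ _ rfl]
  have x4 : σ4.var 10 = x := by rw [hσ4, frame_var _ _ _ rfl, x3]
  have f10 : (pBody.exec σ).var 10 = x + 1 := by
    rw [hfin, exec_set]; simp [Expr.eval, x4]
  have f21 : (pBody.exec σ).var 21 = σ4.var 21 := by
    rw [hfin, frame_var _ _ _ rfl]
  refine ⟨f10, ?_⟩
  rw [f21]
  by_cases hFeas : Feas G s S
  · have hz : σ3.var 18 = 0 := k1.2 hFeas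
    have e4 : σ4 = (ite (.sub (.var 21) (.var 20)) (set 21 (.var 20)) skip).exec σ3 := by
      rw [hσ4, exec_ite_neg (by simp only [Expr.eval]; exact hz)]
    by_cases hlt : (fireF G s S n).card < σ.var 21
    · have e5 : σ4 = (Cmd.set 21 (.var 20)).exec σ3 := by
        rw [e4, exec_ite_pos (by simp only [Expr.eval]; rw [best3, k2]; omega)]
      have e6 : σ4.var 21 = (fireF G s S n).card := by
        rw [e5, exec_set]; simp [Expr.eval, k2]
      rw [e6]
      exact ⟨fun _ => le_rfl, hlt.le, Or.inr ⟨hFeas, rfl⟩⟩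
    · have e5 : σ4 = σ3 := by
        rw [e4, exec_ite_neg (by simp only [Expr.eval]; rw [best3, k2]; omega), exec_skip]
      rw [e5, best3]
      exact ⟨fun _ => by omega, le_rfl, Or.inl rfl⟩
  · have hz : σ3.var 18 ≠ 0 := fun h => hFeas (k1.1 h)
    have e5 : σ4 = σ3 := by
      rw [hσ4, exec_ite_pos (by simp only [Expr.eval]; exact hz), exec_skip]
    rw [e5, best3]
    exact ⟨fun h => (hFeas h).elim, le_rfl, Or.inl rfl⟩

lemma adjOK_input : AdjOK G (input G s) := by
  intro v u
  simp only [input]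
  constructor
  · intro h
    by_contra hcon
    apply h
    rw [if_neg]
    rintro ⟨_, u', v', hadj, heq⟩
    apply hcon
    have h1 : (v : ℕ) = u' ∧ (u : ℕ) = v' := by
      have hv := u.2
      have hv' := v'.2
      have e1 : ((v : ℕ) * n + u) / n = v := by
        rw [Nat.mul_comm, Nat.mul_add_div (by omega), Nat.div_eq_of_lt hv, Nat.add_zero]
      have e2 : ((u' : ℕ) * n + v') / n = u' := by
        rw [Nat.mul_comm, Nat.mul_add_div (by omega), Nat.div_eq_of_lt hv', Nat.add_zero]
      have e3 : (v : ℕ) = u' := by rw [← e1, ← e2, heq]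
      refine ⟨e3, ?_⟩
      rw [e3] at heq
      omega
    have h2 : v = u' := Fin.ext h1.1
    have h3 : u = v' := Fin.ext h1.2
    rw [h2, h3]; exact hadj
  · intro h
    rw [if_pos ⟨rfl, v, u, h, rfl⟩]
    norm_num

lemma pMain_spec (c : ℕ) (G : SimpleGraph (Fin n)) (s : Fin n) :
    (∀ x < 3 ^ lenOf c n, Feas G s (codeSet n (bOf c n) (lenOf c n) x) →
      ((pMain c).exec (input G s)).var 0 ≤
        (fireF G s (codeSet n (bOf c n) (lenOf c n) x) n).card) ∧
    (((pMain c).exec (input G s)).var 0 = n ∨ ∃ S, Feas G s S ∧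
      ((pMain c).exec (input G s)).var 0 = (fireF G s S n).card) := by
  have hn0 : n ≠ 0 := by
    rintro rfl
    exact s.elim0
  set σ := input G s with hσ
  set b := bOf c n with hb
  set len := lenOf c n with hlen
  set σ1 := (pInit c).exec σ with hσ1
  obtain ⟨i0, i1, i4, i8, i9, i10, i21, ia⟩ := pInit_spec c σ n (by simp [hσ, input]) hn0
  rw [← hσ1] at i0 i1 i4 i8 i9 i10 i21 ia
  have hA := adjOK_input (G := G) (s := s)
  rw [← hσ] at hA
  have h := loop_rule (e := .var 9) (c := pBody) (σ := σ1) (N := 3 ^ len)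
    (by simp [Expr.eval, i9, hlen])
    (fun i τ => τ.var 10 = i ∧ (∀ x < i, Feas G s (codeSet n b len x) →
      τ.var 21 ≤ (fireF G s (codeSet n b len x) n).card) ∧
      (τ.var 21 = n ∨ ∃ S, Feas G s S ∧ τ.var 21 = (fireF G s S n).card))
    (by simp [i10, i21])
    (by
      intro i hi τ hvar harr hI
      obtain ⟨h10, h1, h2⟩ := hI
      have t0 : τ.var 0 = n := by rw [hvar 0 rfl, i0]
      have t1 : τ.var 1 = s := by rw [hvar 1 rfl, i1]; simp [hσ, input]
      have t4 : τ.var 4 = b := by rw [hvar 4 rfl, i4]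
      have t8 : τ.var 8 = len := by rw [hvar 8 rfl, i8]
      have tA : AdjOK G τ := by
        intro v u; rw [harr 0 rfl, ia]; exact hA v u
      obtain ⟨q1, q2, q3, q4⟩ := pBody_spec τ b len i t0 t1 t4 t8 h10 tA
      refine ⟨q1, ?_, ?_⟩
      · intro x hx hF
        rcases Nat.lt_or_ge x i with hxi | hxi
        · exact q3.trans (h1 x hxi hF)
        · have : x = i := by omega
          subst this
          exact q2 hF
      · rcases q4 with q4 | ⟨q4, q5⟩
        · rw [q4]; exact h2
        · exact Or.inr ⟨_, q4, q5⟩)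
  have hfin : ((pMain c).exec σ).var 0 = ((loop (.var 9) pBody).exec σ1).var 21 := by
    have : (pMain c).exec σ = (Cmd.set 0 (.var 21)).exec ((loop (.var 9) pBody).exec σ1) := rfl
    rw [this, exec_set]; simp [Expr.eval]
  rw [hfin]
  exact h.2

end

end Pool.Agent.Lib.MP_711ea9_lc
end

section

set_option autoImplicit false

/-!
# The output of the program
-/

namespace Pool.Agent.Lib.MP_711ea9_lc

open Cmd

lemma HasK2Minor.of_succ {V : Type*} {G : SimpleGraph V} {t : ℕ} (h : HasK2Minor G (t + 1)) :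
    HasK2Minor G t := by
  obtain ⟨X, Y, Z, h1, h2, h3, h4, h5, h6, h7, h8, h9⟩ := h
  refine ⟨X, Y, fun i => Z i.castSucc, h1, h2, fun i => h3 _, h4, fun i => h5 _, fun i => h6 _,
    ?_, fun i => h8 _, fun i => h9 _⟩
  intro i j hij
  apply h7
  intro h
  exact hij (Fin.castSucc_injective t h)

lemma bOf_pos (c n : ℕ) : 1 ≤ bOf c n := le_max_left _ _

lemma feas_empty {n : ℕ} (G : SimpleGraph (Fin n)) (s : Fin n) : Feas G s ∅ := by
  refine ⟨by simp, fun i => ?_⟩
  have : thr G s ∅ i ⊆ ∅ := thr_subset i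
  have := Finset.card_le_card this
  simp only [Finset.card_empty] at this
  omega

theorem correct {n : ℕ} (G : SimpleGraph (Fin n)) (s : Fin n) (t : ℕ)
    (hK : ¬ HasK2Minor G (t + 1)) (k : ℕ) :
    Firefighter G s k ↔ ((pMain (80 * (t + 1))).exec (input G s)).var 0 ≤ k := by
  have hn0 : n ≠ 0 := by
    rintro rfl
    exact s.elim0
  obtain ⟨h1, h2⟩ := pMain_spec (80 * (t + 1)) G s
  set c := 80 * (t + 1) with hc
  set b := bOf c n with hb
  set len := lenOf c n with hlen
  have hb1 : 1 ≤ b := bOf_pos c n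
  rw [firefighter_iff, Fintype.card_fin]
  constructor
  · rintro ⟨S, hS, hSk⟩
    -- a small set of guards
    obtain ⟨S', hS', h3, h4⟩ : ∃ S' : Finset (Fin n), Feas G s S' ∧
        (fireF G s S' n).card ≤ (fireF G s S n).card ∧ S'.card ≤ n / (b * b) + 1 := by
      by_cases hbb : b = 1
      · refine ⟨S, hS, le_rfl, ?_⟩
        rw [hbb]
        have := Finset.card_le_univ S
        rw [Fintype.card_fin] at this
        simp only [Nat.mul_one, Nat.div_one]
        omega
      · have hb2 : b = Nat.sqrt (Nat.log 2 n / c) := by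
          have : b = max 1 (Nat.sqrt (Nat.log 2 n / c)) := rfl
          omega
        have hL : 1 ≤ b * b := Nat.one_le_iff_ne_zero.2 (by positivity)
        have h5 : b * b ≤ Nat.log 2 n / c := by
          rw [hb2]; exact Nat.sqrt_le _
        have h6 : c * (b * b) ≤ Nat.log 2 n := by
          calc c * (b * b) ≤ c * (Nat.log 2 n / c) := Nat.mul_le_mul_left _ h5
            _ ≤ _ := Nat.mul_div_le _ _
        have h7 : 2 ^ (80 * ((t + 1) * (b * b))) ≤ n := by
          have e1 : 80 * ((t + 1) * (b * b)) = c * (b * b) := by rw [hc]; ring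
          rw [e1]
          calc 2 ^ (c * (b * b)) ≤ 2 ^ Nat.log 2 n := Nat.pow_le_pow_right (by norm_num) h6
            _ ≤ n := Nat.pow_log_le_self 2 hn0
        have h8 := short_strategy (t := t) (L := b * b) hL hK (by
          rw [Fintype.card_fin]
          exact (threshold_le hL).trans h7) hS
        rw [Fintype.card_fin] at h8
        exact h8
    obtain ⟨x, hx, h5⟩ := dec_complete b n hb1 len 0 (S'.map Fin.valEmbedding) (by
      intro v hv
      rw [Finset.mem_map] at hv
      obtain ⟨u, _, rfl⟩ := hv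
      exact ⟨Nat.zero_le _, u.2⟩) (by
      rw [Finset.card_map, Nat.sub_zero]
      have e1 : len = n / b + b * (n / (b * b) + 1) := rfl
      rw [e1]
      have e2 : S'.card * b ≤ b * (n / (b * b) + 1) := by
        rw [Nat.mul_comm]; exact Nat.mul_le_mul_left _ h4
      exact Nat.add_le_add_left e2 _)
    have hcode : codeSet n b len x = S' := by
      ext v
      rw [codeSet, Finset.mem_filter, h5, Finset.mem_map]
      constructor
      · rintro ⟨_, u, hu, huv⟩
        have : u = v := Fin.ext huv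
        rwa [← this]
      · intro hv
        exact ⟨Finset.mem_univ _, v, hv, rfl⟩
    have h6 := h1 x hx (by rw [hcode]; exact hS')
    rw [hcode] at h6
    omega
  · intro hk
    rcases h2 with h2 | ⟨S, hS, h2⟩
    · refine ⟨∅, feas_empty G s, ?_⟩
      have := Finset.card_le_univ (fireF G s ∅ n)
      rw [Fintype.card_fin] at this
      omega
    · exact ⟨S, hS, by omega⟩

end Pool.Agent.Lib.MP_711ea9_lc
end
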