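import Pool.Agent.Lib.MP_711ea9_lc.TW.Base
import Pool.Agent.Lib.MP_711ea9_lc.Mg.G010
import Pool.Agent.Lib.MP_711ea9_lc.Mg.G013

section

set_option autoImplicit false

/-!
# Marked vertices of a tree order
-/

namespace Pool.Agent.Lib.MP_711ea9_lc

open Finset

section

variable {V : Type*} [Fintype V] [DecidableEq V] {G : SimpleGraph V} {k : ℕ} (τ : TreeOrd G k)

namespace TreeOrd

/-- M1. The relation `Rc X` is deterministic: `St X a b` and `St X a b'` imply `b = b'`. -/
lemma Rc_total {X : Finset V} {u v w : V} (h : τ.Rc X u v) (h' : τ.Rc X u w) :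
    τ.Rc X v w ∨ τ.Rc X w v := by
  refine Relation.ReflTransGen.total_of_right_unique ?_ h h'
  intro a b c hb hc
  have h1 := hb.2
  rw [hc.2] at h1
  exact (Option.some.inj h1).symm

/-- M2. From an element of `X` there is no step. -/
lemma Rc_mem {X : Finset V} {u v : V} (h : τ.Rc X u v) (hu : u ∈ X) : u = v := by
  rcases Relation.ReflTransGen.cases_head h with h1 | ⟨c, hc, _⟩
  · exact h1
  · exact absurd hu hc.1

lemma Rc_rk {X : Finset V} {u v : V} (h : τ.Rc X u v) : τ.rk v ≤ τ.rk u := by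
  induction h using Relation.ReflTransGen.head_induction_on with
  | refl => exact le_rfl
  | head h1 _ ih => exact ih.trans (τ.rk_par _ _ h1.2).le

private lemma marksA_Rc {X X' : Finset V} {u v : V} (h : τ.Rc X u v)
    (hX : ∀ w, τ.rk v < τ.rk w → (w ∈ X ↔ w ∈ X')) : τ.Rc X' u v := by
  induction h using Relation.ReflTransGen.head_induction_on with
  | refl => exact Relation.ReflTransGen.refl
  | head h1 h2 ih =>
    refine Relation.ReflTransGen.head ⟨?_, h1.2⟩ ih
    intro hmem
    have h3 := τ.Rc_rk h2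
    have h4 := τ.rk_par _ _ h1.2
    exact h1.1 ((hX _ (lt_of_le_of_lt h3 h4)).2 hmem)

/-- The right side of the rule defining the marked vertices. -/
private def marksARHS (B : Finset V) (r : ℕ) (X : Finset V) (v : V) : Prop :=
  v ∈ B ∨ r ≤ (τ.cell X v).card ∨ ∃ x x', x ≠ x' ∧ τ.Vis X x v ∧ τ.Vis X x' v

private lemma marksA_Vis {X X' : Finset V} {x v : V} (h : τ.Vis X x v)
    (hX : ∀ w, τ.rk v < τ.rk w → (w ∈ X ↔ w ∈ X')) : τ.Vis X' x v := by
  obtain ⟨hx, a, ha, hr⟩ := h
  refine ⟨?_, a, ha, marksA_Rc τ hr hX⟩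
  exact (hX x (lt_of_le_of_lt (τ.Rc_rk hr) (τ.rk_par _ _ ha))).1 hx

private lemma marksA_mem_cell {X : Finset V} {u v : V} : u ∈ τ.cell X v ↔ τ.Rc X u v := by
  classical
  unfold cell
  simp only [Finset.mem_filter, Finset.mem_univ, true_and]

private lemma marksA_RHS {B : Finset V} {r : ℕ} {X X' : Finset V} {v : V}
    (hX : ∀ w, τ.rk v < τ.rk w → (w ∈ X ↔ w ∈ X')) (h : marksARHS τ B r X v) :
    marksARHS τ B r X' v := by
  rcases h with h | h | ⟨x, x', hne, h1, h2⟩
  · exact Or.inl h
  · refine Or.inr (Or.inl (h.trans (Finset.card_le_card ?_)))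
    intro u hu
    rw [marksA_mem_cell] at hu ⊢
    exact marksA_Rc τ hu hX
  · exact Or.inr (Or.inr ⟨x, x', hne, marksA_Vis τ h1 hX, marksA_Vis τ h2 hX⟩)

private lemma marksA_step (B : Finset V) (r N : ℕ) (hN : ∀ v, τ.rk v < N) (t : ℕ) :
    ∃ X : Finset V, (∀ v ∈ X, N ≤ τ.rk v + t) ∧
      ∀ v, N ≤ τ.rk v + t → (v ∈ X ↔ marksARHS τ B r X v) := by
  classical
  induction t with
  | zero =>
    refine ⟨∅, ?_, ?_⟩
    · intro v hv
      exact absurd hv (Finset.notMem_empty v)
    · intro v hv
      have := hN v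
      omega
  | succ t ih =>
    obtain ⟨X, hX1, hX2⟩ := ih
    set X' : Finset V := X ∪ univ.filter (fun v => τ.rk v + t + 1 = N ∧ marksARHS τ B r X v)
      with hX'
    have hmem : ∀ v, v ∈ X' ↔ v ∈ X ∨ (τ.rk v + t + 1 = N ∧ marksARHS τ B r X v) := by
      intro v
      rw [hX', Finset.mem_union, Finset.mem_filter]
      constructor
      · rintro (h | h)
        · exact Or.inl h
        · exact Or.inr h.2
      · rintro (h | h)
        · exact Or.inl h
        · exact Or.inr ⟨Finset.mem_univ v, h⟩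
    have hagree : ∀ w, N ≤ τ.rk w + t → (w ∈ X ↔ w ∈ X') := by
      intro w hw
      rw [hmem w]
      constructor
      · exact Or.inl
      · rintro (h | ⟨h, _⟩)
        · exact h
        · omega
    refine ⟨X', ?_, ?_⟩
    · intro v hv
      rcases (hmem v).1 hv with h | ⟨h, _⟩
      · have := hX1 v h
        omega
      · omega
    · intro v hv
      have hag : ∀ w, τ.rk v < τ.rk w → (w ∈ X ↔ w ∈ X') := fun w hw => hagree w (by omega)
      have hag' : ∀ w, τ.rk v < τ.rk w → (w ∈ X' ↔ w ∈ X) := fun w hw => (hag w hw).symm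
      have hR : marksARHS τ B r X v ↔ marksARHS τ B r X' v :=
        ⟨marksA_RHS τ hag, marksA_RHS τ hag'⟩
      by_cases hvt : N ≤ τ.rk v + t
      · rw [← hagree v hvt, hX2 v hvt, hR]
      · have he : τ.rk v + t + 1 = N := by omega
        rw [hmem v, ← hR]
        constructor
        · rintro (h | h)
          · exact absurd (hX1 v h) hvt
          · exact h.2
        · intro h
          exact Or.inr ⟨he, h⟩

/-- M3. Existence of the marked set. By induction on `t`: there is `X` with `B ⊆ X`... such that the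
equivalence in `Good` holds for all `v` with `N ≤ rk v + t`, where `N` is larger than all ranks, and
`X ⊆ B ∪ {v | N ≤ rk v + t}`. Step: with `X` for `t`, add to `X` all `v` with `rk v + t + 1 = N`
for which the right side (computed with `X`) holds, i.e. let
`X' = X ∪ univ.filter (fun v => rk v + t + 1 = N ∧ (v ∈ B ∨ ...))`. The right side at `v` depends
only on the elements of `X` of rank `> rk v` (except in `Vis`, where `x ∈ X` also has rank `> rk v`, as
`par x = some a`, `Rc X a v`): the vertices from `u` up to `v`, except `v`, have rank `> rk v`. (Elements of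
`B` of smaller rank may be in `X` from the start or not; either way is fine: simplest is to take for `X` in
the step `t` only elements of rank `≥ N - t`.) At `t = N` all `v` are covered. -/
theorem exists_good (B : Finset V) (r : ℕ) : ∃ X : Finset V, τ.Good B r X := by
  classical
  have hN : ∀ v, τ.rk v < (∑ w, τ.rk w) + 1 := by
    intro v
    have := Finset.single_le_sum (f := fun w => τ.rk w) (fun _ _ => Nat.zero_le _)
      (Finset.mem_univ v)
    exact Nat.lt_succ_of_le this
  obtain ⟨X, _, hX⟩ := marksA_step τ B r ((∑ w, τ.rk w) + 1) hN ((∑ w, τ.rk w) + 1)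
  exact ⟨X, fun v => hX v (by omega)⟩

lemma good_base {B : Finset V} {r : ℕ} {X : Finset V} (h : τ.Good B r X) : B ⊆ X :=
  fun v hv => (h v).2 (Or.inl hv)

lemma HH_mono {X X' : Finset V} (h : X ⊆ X') : τ.HH X ⊆ τ.HH X' :=
  Finset.biUnion_subset_biUnion_of_subset_left _ h

lemma HH_card (X : Finset V) : (τ.HH X).card ≤ (k + 1) * X.card := by
  rw [mul_comm]
  refine Finset.card_biUnion_le_card_mul _ _ _ ?_
  intro v _
  have h1 : (τ.bag v).card ≤ (τ.up v).card + 1 := Finset.card_insert_le _ _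
  have h2 := τ.up_card v
  omega

end TreeOrd

end

end Pool.Agent.Lib.MP_711ea9_lc
end

section

set_option autoImplicit false

/-!
# Components outside the marked bags
-/

namespace Pool.Agent.Lib.MP_711ea9_lc

open Finset

section

variable {V : Type*} [Fintype V] [DecidableEq V] {G : SimpleGraph V} {k : ℕ} (τ : TreeOrd G k)

namespace TreeOrd

/-- C1. Induction on `rk v`: `p = par v` is in `X` or not; if not, continue with `p`, and if yes (or if `v` has
no parent), `q = v`. -/
lemma exists_Tp {X : Finset V} {v : V} (hv : v ∉ X) : ∃ q, τ.Tp X v q := by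
  induction hn : τ.rk v using Nat.strong_induction_on generalizing v with
  | _ n ih =>
    subst hn
    cases hp : τ.par v with
    | none => exact ⟨v, Relation.ReflTransGen.refl, hv, fun x hx => by rw [hp] at hx; cases hx⟩
    | some p =>
      by_cases hpX : p ∈ X
      · refine ⟨v, Relation.ReflTransGen.refl, hv, fun x hx => ?_⟩
        rw [hp] at hx
        cases hx
        exact hpX
      · obtain ⟨q, h1, h2, h3⟩ := ih (τ.rk p) (τ.rk_par v p hp) hpX rfl
        exact ⟨q, Relation.ReflTransGen.head ⟨hv, hp⟩ h1, h2, h3⟩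

private lemma compsA_top {X : Finset V} {q w : V}
    (hp : ∀ x, τ.par q = some x → x ∈ X) (hw : w ∉ X) (hr : τ.Rc X q w) : q = w := by
  rcases Relation.ReflTransGen.cases_head hr with h | ⟨b, h1, h2⟩
  · exact h
  · have hb := hp b h1.2
    have := τ.Rc_mem h2 hb
    subst this
    exact absurd hb hw

/-- C2. `Rc_total`, and `q ∉ X` with all parents in `X` has no other `Rc X`-successor. -/
lemma Tp_unique {X : Finset V} {v q q' : V} (h : τ.Tp X v q) (h' : τ.Tp X v q') : q = q' := by
  rcases τ.Rc_total h.1 h'.1 with h1 | h1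
  · exact τ.compsA_top h.2.2 h'.2.1 h1
  · exact (τ.compsA_top h'.2.2 h.2.1 h1).symm

lemma Tp_step {X : Finset V} {v w q : V} (hvw : τ.Rc X v w) (hw : w ∉ X) (h : τ.Tp X v q) :
    τ.Tp X w q := by
  rcases τ.Rc_total hvw h.1 with h1 | h1
  · exact ⟨h1, h.2⟩
  · have h2 := τ.compsA_top h.2.2 hw h1
    subst h2
    exact ⟨Relation.ReflTransGen.refl, h.2⟩

lemma Tp_back {X : Finset V} {v w q : V} (hvw : τ.Rc X v w) (h : τ.Tp X w q) : τ.Tp X v q :=
  ⟨Relation.ReflTransGen.trans hvw h.1, h.2⟩

private lemma compsA_bag_sub {X : Finset V} {v u : V} (hv : v ∈ X) (hu : u ∈ τ.bag v) :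
    u ∈ τ.HH X := Finset.mem_biUnion.2 ⟨v, hv, hu⟩

private lemma compsA_self {X : Finset V} {v : V} (hv : v ∈ X) : v ∈ τ.HH X :=
  τ.compsA_bag_sub hv (Finset.mem_insert_self _ _)

private lemma compsA_up {v u : V} (hu : u ∈ τ.up v) : ∃ p, τ.par v = some p ∧ u ∈ τ.bag p := by
  obtain ⟨p, hp, h⟩ := τ.up_par v u hu
  exact ⟨p, hp, Finset.mem_insert.2 h⟩

/-- C3. Induction on `rk v`. By `up_par`, `par v = some p` and `u = p` (one step, as `v ∉ X`) or `u ∈ up p`; in
the second case `p ∉ X`, since otherwise `u ∈ bag p ⊆ HH X`. -/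
lemma up_Rc {X : Finset V} {v u : V} (hu : u ∈ τ.up v) (hv : v ∉ X) (huH : u ∉ τ.HH X) :
    τ.Rc X v u := by
  induction hn : τ.rk v using Nat.strong_induction_on generalizing v with
  | _ n ih =>
    subst hn
    obtain ⟨p, hp, h⟩ := τ.up_par v u hu
    rcases h with h | h
    · subst h
      exact Relation.ReflTransGen.single ⟨hv, hp⟩
    · have hpX : p ∉ X := fun hpX => huH (τ.compsA_bag_sub hpX (Finset.mem_insert_of_mem h))
      exact Relation.ReflTransGen.head ⟨hv, hp⟩ (ih (τ.rk p) (τ.rk_par v p hp) h hpX rfl)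

/-- C4. Two adjacent vertices outside `HH X` have the same top (`adj`, `up_Rc`, `Tp_step`/`Tp_back`; note
`X ⊆ HH X`), so all vertices reachable from `c` outside `HH X` do. -/
lemma comp_Tp {X : Finset V} {c q : V} (hc : c ∉ τ.HH X) (hq : τ.Tp X c q) {v : V}
    (hv : v ∈ comp G (univ \ τ.HH X) c) : v ∉ τ.HH X ∧ τ.Tp X v q := by
  rw [mem_comp] at hv
  induction hv with
  | refl => exact ⟨hc, hq⟩
  | @tail a b _ h2 ih =>
    obtain ⟨ha, haq⟩ := ih
    have hb : b ∉ τ.HH X := (Finset.mem_sdiff.1 h2.2).2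
    refine ⟨hb, ?_⟩
    rcases τ.adj a b h2.1 with h | h
    · exact τ.Tp_back (τ.up_Rc h (fun hX => hb (τ.compsA_self hX)) ha) haq
    · exact τ.Tp_step (τ.up_Rc h (fun hX => ha (τ.compsA_self hX)) hb)
        (fun hX => hb (τ.compsA_self hX)) haq

/-- C5. `comp ⊆ cell X q`, and `q ∉ X`, so `Good` gives `#cell X q < r`. -/
lemma comp_card {B X : Finset V} {r : ℕ} (hX : τ.Good B r X) {c : V} (hc : c ∉ τ.HH X) :
    (comp G (univ \ τ.HH X) c).card < r := by
  obtain ⟨q, hq⟩ := τ.exists_Tp (X := X) (v := c) (fun hX => hc (τ.compsA_self hX))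
  by_contra hcon
  push Not at hcon
  apply hq.2.1
  refine (hX q).2 (Or.inr (Or.inl (hcon.trans (Finset.card_le_card ?_))))
  intro v hv
  simp only [cell, Finset.mem_filter, Finset.mem_univ, true_and]
  exact (τ.comp_Tp hc hq hv).2.1

/-- C6. Climbing: induction on `rk a`. If `h = a` take the second alternative. Otherwise `par a = some p` with
`h ∈ bag p` (`up_par`). If `p ∈ X` then `a = q` (top) and the first alternative holds; otherwise continue with
`p` (`Tp_step`). -/
lemma climb {X : Finset V} {a q h : V} (ha : a ∉ X) (haq : τ.Tp X a q) (hh : h ∈ τ.bag a) :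
    (∃ x ∈ X, τ.par q = some x ∧ h ∈ τ.bag x) ∨ (h ∉ X ∧ τ.Tp X h q) := by
  induction hn : τ.rk a using Nat.strong_induction_on generalizing a with
  | _ n ih =>
    subst hn
    rcases Finset.mem_insert.1 hh with h1 | h1
    · subst h1
      exact Or.inr ⟨ha, haq⟩
    · obtain ⟨p, hp, h2⟩ := τ.compsA_up h1
      by_cases hpX : p ∈ X
      · have haq2 : a = q := by
          rcases Relation.ReflTransGen.cases_head haq.1 with h3 | ⟨b, h3, h4⟩
          · exact h3
          · have h5 := h3.2
            rw [hp] at h5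
            cases h5
            have h6 := τ.Rc_mem h4 hpX
            subst h6
            exact absurd hpX haq.2.1
        subst haq2
        exact Or.inl ⟨p, hpX, hp, h2⟩
      · exact ih (τ.rk p) (τ.rk_par a p hp) hpX
          (τ.Tp_step (Relation.ReflTransGen.single ⟨ha, hp⟩) hpX haq) h2 rfl

/-- C7. Induction on `rk a`. If `h = a`: first alternative. Otherwise `par a = some p`, `h ∈ bag p`. By induction
for `p`: if `Rc X p h`, then `Rc X a h` when `a ∉ X`, and the second alternative with `x = a` when `a ∈ X`. The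
second alternative for `p` is passed on. -/
lemma climb' {X : Finset V} {a h : V} (hh : h ∈ τ.bag a) :
    τ.Rc X a h ∨ ∃ x ∈ X, h ∈ τ.bag x ∧ ∃ y, τ.par x = some y ∧ τ.Rc X y h := by
  induction hn : τ.rk a using Nat.strong_induction_on generalizing a with
  | _ n ih =>
    subst hn
    rcases Finset.mem_insert.1 hh with h1 | h1
    · subst h1
      exact Or.inl Relation.ReflTransGen.refl
    · obtain ⟨p, hp, h2⟩ := τ.compsA_up h1
      rcases ih (τ.rk p) (τ.rk_par a p hp) h2 rfl with h3 | h3
      · by_cases haX : a ∈ X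
        · exact Or.inr ⟨a, haX, hh, p, hp, h3⟩
        · exact Or.inl (Relation.ReflTransGen.head ⟨haX, hp⟩ h3)
      · exact Or.inr h3

/-- C8. If `h ∈ HH X`, `h ∉ X` has top `q`, then `h` is in the bag of some `x` visible from `q`: `h ∈ bag a` for some
`a ∈ X`, `a ≠ h`; `climb'` (the first alternative contradicts `Rc_mem`). -/
lemma below {X : Finset V} {h q : V} (hH : h ∈ τ.HH X) (hX : h ∉ X) (hq : τ.Tp X h q) :
    ∃ x, τ.Vis X x q ∧ h ∈ τ.bag x := by
  obtain ⟨a, ha, hha⟩ := Finset.mem_biUnion.1 hH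
  rcases τ.climb' (X := X) hha with h1 | ⟨x, hx, hhx, y, hy, hr⟩
  · have h2 := τ.Rc_mem h1 ha
    subst h2
    exact absurd ha hX
  · exact ⟨x, ⟨hx, y, hy, Relation.ReflTransGen.trans hr hq.1⟩, hhx⟩

/-- C9. Boundary. `v ∉ HH X` has top `q`, `h ∈ HH X` is adjacent to `v`. If `h ∈ up v`: `climb` with `a = v`, then
`below`. If `v ∈ up h`: `h ∉ X` (else `v ∈ HH X`), `up_Rc` gives `Rc X h v`, so `Tp X h q`, then `below`. -/
lemma boundary {X : Finset V} {v h q : V} (hv : v ∉ τ.HH X) (hq : τ.Tp X v q)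
    (hh : h ∈ τ.HH X) (hvh : G.Adj v h) :
    (∃ x ∈ X, τ.par q = some x ∧ h ∈ τ.bag x) ∨ ∃ x, τ.Vis X x q ∧ h ∈ τ.bag x := by
  rcases τ.adj v h hvh with h1 | h1
  · have hhX : h ∉ X := fun hX => hv (τ.compsA_bag_sub hX (Finset.mem_insert_of_mem h1))
    exact Or.inr (τ.below hh hhX (τ.Tp_back (τ.up_Rc h1 hhX hv) hq))
  · rcases τ.climb (X := X) (fun hX => hv (τ.compsA_self hX)) hq
      (Finset.mem_insert_of_mem h1) with h2 | ⟨h2, h3⟩
    · exact Or.inl h2
    · exact Or.inr (τ.below hh h2 h3)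

end TreeOrd

end

end Pool.Agent.Lib.MP_711ea9_lc
end

section

set_option autoImplicit false

/-!
# Marked vertices of a tree order
-/

namespace Pool.Agent.Lib.MP_711ea9_lc

open Finset

section

variable {V : Type*} [Fintype V] [DecidableEq V] {G : SimpleGraph V} {k : ℕ} (τ : TreeOrd G k)

namespace TreeOrd

private lemma marksB_eq {X : Finset V} {u v w : V} (h : τ.Rc X u v) (h' : τ.Rc X u w)
    (hv : v ∈ X) (hw : w ∈ X) : v = w := by
  rcases τ.Rc_total h h' with h1 | h1
  · exact τ.Rc_mem h1 hv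
  · exact (τ.Rc_mem h1 hw).symm

/-- M4. Let `X₁ = {v ∈ X | r ≤ #cell X v}`; the cells of different elements of `X` are disjoint (`Rc_total`,
`Rc_mem`), so `#X₁ * r ≤ #V`. Let `X₂ = {v ∈ X | two different visible x, x'}`. For `x ∈ X` there is at most one
`v ∈ X` with `Vis X x v` (`Rc_total`, `Rc_mem`), so counting the pairs `(x, v)`, `v ∈ X₂`, gives
`2 #X₂ ≤ #X`. And `#X ≤ #B + #X₁ + #X₂`. -/
theorem good_card {B : Finset V} {r : ℕ} {X : Finset V} (h : τ.Good B r X) :
    X.card * r ≤ 2 * (B.card * r) + 2 * Fintype.card V := by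
  classical
  set X₁ : Finset V := X.filter (fun v => r ≤ (τ.cell X v).card) with hX₁
  set X₂ : Finset V := X.filter (fun v => ∃ x x', x ≠ x' ∧ τ.Vis X x v ∧ τ.Vis X x' v) with hX₂
  have h1 : X₁.card * r ≤ Fintype.card V := by
    calc X₁.card * r ≤ ∑ v ∈ X₁, (τ.cell X v).card := by
          rw [← smul_eq_mul]
          exact Finset.card_nsmul_le_sum _ _ _ (fun v hv => (Finset.mem_filter.1 hv).2)
      _ = (X₁.biUnion (τ.cell X)).card := by
          symm
          apply Finset.card_biUnion
          intro v hv w hw hvw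
          rw [Function.onFun, Finset.disjoint_left]
          intro u hu hu'
          apply hvw
          simp only [cell, Finset.mem_filter, Finset.mem_univ, true_and] at hu hu'
          exact τ.marksB_eq hu hu' (Finset.mem_filter.1 hv).1 (Finset.mem_filter.1 hw).1
      _ ≤ Fintype.card V := Finset.card_le_univ _
  have h2 : X₂.card * 2 ≤ X.card * 1 := by
    refine Finset.card_mul_le_card_mul (fun v x => τ.Vis X x v) ?_ ?_
    · intro v hv
      obtain ⟨x, x', hne, hx, hx'⟩ := (Finset.mem_filter.1 hv).2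
      refine Nat.succ_le_of_lt (Finset.one_lt_card.2 ⟨x, ?_, x', ?_, hne⟩)
      · exact Finset.mem_filter.2 ⟨hx.1, hx⟩
      · exact Finset.mem_filter.2 ⟨hx'.1, hx'⟩
    · intro x _
      rw [Finset.card_le_one]
      intro a ha b hb
      obtain ⟨ha1, _, c, hc, hca⟩ := Finset.mem_filter.1 ha
      obtain ⟨hb1, _, d, hd, hdb⟩ := Finset.mem_filter.1 hb
      rw [hc] at hd
      cases hd
      exact τ.marksB_eq hca hdb (Finset.mem_filter.1 ha1).1 (Finset.mem_filter.1 hb1).1
  have h3 : X.card ≤ B.card + X₁.card + X₂.card := by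
    calc X.card ≤ (B ∪ X₁ ∪ X₂).card := by
          apply Finset.card_le_card
          intro v hv
          rcases (h v).1 hv with h4 | h4 | h4
          · exact Finset.mem_union_left _ (Finset.mem_union_left _ h4)
          · exact Finset.mem_union_left _ (Finset.mem_union_right _
              (Finset.mem_filter.2 ⟨hv, h4⟩))
          · exact Finset.mem_union_right _ (Finset.mem_filter.2 ⟨hv, h4⟩)
      _ ≤ (B ∪ X₁).card + X₂.card := Finset.card_union_le _ _
      _ ≤ B.card + X₁.card + X₂.card := Nat.add_le_add_right (Finset.card_union_le _ _) _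
  have h4 : X.card ≤ 2 * B.card + 2 * X₁.card := by omega
  calc X.card * r ≤ (2 * B.card + 2 * X₁.card) * r := Nat.mul_le_mul_right _ h4
    _ = 2 * (B.card * r) + 2 * (X₁.card * r) := by ring
    _ ≤ 2 * (B.card * r) + 2 * Fintype.card V := by omega

/-- M5. Scales. Downwards from `j = J`: `X J` from `exists_good` with base `∅` and `r₀ * ρ ^ J`, and
`X j` with base `X (j + 1)` and `r₀ * ρ ^ j`. Bound, by downward induction from `good_card`:
`#X_j r_j ≤ 2 #X_(j+1) r_j + 2 n` and `4 #X_(j+1) r_j ≤ #X_(j+1) r_(j+1) ≤ 4 n`. -/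
theorem exists_scales (r₀ ρ J : ℕ) (hρ : 4 ≤ ρ) : ∃ X : ℕ → Finset V,
    (∀ j < J, X (j + 1) ⊆ X j) ∧
    (∀ j ≤ J, (X j).card * (r₀ * ρ ^ j) ≤ 4 * Fintype.card V) ∧
    (∀ j ≤ J, ∃ B, τ.Good B (r₀ * ρ ^ j) (X j)) := by
  induction J generalizing r₀ with
  | zero =>
    obtain ⟨Y, hY⟩ := τ.exists_good ∅ (r₀ * ρ ^ 0)
    refine ⟨fun _ => Y, fun j hj => absurd hj (Nat.not_lt_zero j), ?_, ?_⟩
    · intro j hj
      obtain rfl : j = 0 := by omega
      have := τ.good_card hY
      rw [Finset.card_empty, Nat.zero_mul] at this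
      show Y.card * (r₀ * ρ ^ 0) ≤ 4 * Fintype.card V
      omega
    · intro j hj
      obtain rfl : j = 0 := by omega
      exact ⟨∅, hY⟩
  | succ J ih =>
    obtain ⟨X', h1, h2, h3⟩ := ih (r₀ * ρ)
    obtain ⟨Y, hY⟩ := τ.exists_good (X' 0) (r₀ * ρ ^ 0)
    refine ⟨fun j => Nat.casesOn j Y X', ?_, ?_, ?_⟩
    · intro j hj
      rcases j with _ | j
      · exact τ.good_base hY
      · exact h1 j (by omega)
    · intro j hj
      rcases j with _ | j
      · have h4 := τ.good_card hY
        have h5 := h2 0 (Nat.zero_le _)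
        have h6 : (X' 0).card * r₀ * 4 ≤ (X' 0).card * (r₀ * ρ * ρ ^ 0) := by
          rw [pow_zero, mul_one, ← mul_assoc]
          exact Nat.mul_le_mul_left _ hρ
        show Y.card * (r₀ * ρ ^ 0) ≤ 4 * Fintype.card V
        simp only [pow_zero, mul_one] at h4 h5 h6 ⊢
        omega
      · have h4 := h2 j (by omega)
        have h5 : r₀ * ρ ^ (j + 1) = r₀ * ρ * ρ ^ j := by rw [pow_succ]; ring
        rw [h5]
        exact h4
    · intro j hj
      rcases j with _ | j
      · exact ⟨X' 0, hY⟩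
      · have h5 : r₀ * ρ ^ (j + 1) = r₀ * ρ * ρ ^ j := by rw [pow_succ]; ring
        rw [h5]
        exact h3 j (by omega)

end TreeOrd

end

end Pool.Agent.Lib.MP_711ea9_lc
end

section

set_option autoImplicit false

/-!
# Components outside the marked bags
-/

namespace Pool.Agent.Lib.MP_711ea9_lc

open Finset

section

variable {V : Type*} [Fintype V] [DecidableEq V] {G : SimpleGraph V} {k : ℕ} (τ : TreeOrd G k)

namespace TreeOrd

/-- C10. The types. For `x ∈ X` let `xp x` be a `y ∈ X` with `par x = some a`, `Rc X a y`, if there is one (it is then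
unique by `Rc_total`, `Rc_mem`), and `x` otherwise; `ty x = bag x ∪ bag (xp x)`. For `c ∉ HH X` with top `q`: by
`Good` (as `q ∉ X`) at most one `x₂` is visible from `q`. If there is one, all boundary vertices are in
`bag x₂ ∪ bag x₁` with `par q = some x₁`, `x₁ ∈ X`, and then `xp x₂ = x₁` (`Rc X a q`, `St X q x₁`). If there is
none but `par q = some x₁`, all are in `bag x₁ ⊆ ty x₁`. If `q` has no parent and nothing is visible there is no
boundary vertex. -/
theorem exists_types {B X : Finset V} {r : ℕ} (hX : τ.Good B r X) : ∃ ty : V → Finset V,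
    (∀ x, (ty x).card ≤ 2 * (k + 1)) ∧
    ∀ c ∉ τ.HH X, (∀ h ∈ τ.HH X, ∀ v ∈ comp G (univ \ τ.HH X) c, ¬ G.Adj v h) ∨
      ∃ x ∈ X, ∀ h ∈ τ.HH X, ∀ v ∈ comp G (univ \ τ.HH X) c, G.Adj v h → h ∈ ty x := by
  classical
  let xp : V → V := fun x =>
    if h : ∃ y, y ∈ X ∧ ∃ a, τ.par x = some a ∧ τ.Rc X a y then h.choose else x
  have hcard : ∀ v, (τ.bag v).card ≤ k + 1 := fun v => by
    unfold bag
    exact (Finset.card_insert_le _ _).trans (Nat.succ_le_succ (τ.up_card v))
  refine ⟨fun x => τ.bag x ∪ τ.bag (xp x), ?_, ?_⟩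
  · intro x
    refine (Finset.card_union_le _ _).trans ?_
    have h1 := hcard x
    have h2 := hcard (xp x)
    omega
  · intro c hc
    have hXH : ∀ x ∈ X, x ∈ τ.HH X := fun x hx => by
      rw [HH, Finset.mem_biUnion]
      exact ⟨x, hx, Finset.mem_insert_self _ _⟩
    have hcX : c ∉ X := fun h => hc (hXH c h)
    obtain ⟨q, hq⟩ := τ.exists_Tp hcX
    have hqX : q ∉ X := hq.2.1
    have huniq : ∀ x x', τ.Vis X x q → τ.Vis X x' q → x = x' := by
      intro x x' h h'
      by_contra hne
      exact hqX ((hX q).2 (Or.inr (Or.inr ⟨x, x', hne, h, h'⟩)))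
    have hbd : ∀ h ∈ τ.HH X, ∀ v ∈ comp G (univ \ τ.HH X) c, G.Adj v h →
        (∃ x ∈ X, τ.par q = some x ∧ h ∈ τ.bag x) ∨ ∃ x, τ.Vis X x q ∧ h ∈ τ.bag x := by
      intro h hh v hv hvh
      obtain ⟨h1, h2⟩ := τ.comp_Tp hc hq hv
      exact τ.boundary h1 h2 hh hvh
    by_cases hvis : ∃ x₂, τ.Vis X x₂ q
    · obtain ⟨x₂, hx₂⟩ := hvis
      right
      refine ⟨x₂, hx₂.1, fun h hh v hv hvh => ?_⟩
      rw [Finset.mem_union]
      rcases hbd h hh v hv hvh with ⟨x₁, hx₁, hpar, hb⟩ | ⟨x, hx, hb⟩
      · right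
        obtain ⟨_, a, ha, haq⟩ := hx₂
        have hRc : τ.Rc X a x₁ := Relation.ReflTransGen.tail haq ⟨hqX, hpar⟩
        have hex : ∃ y, y ∈ X ∧ ∃ a, τ.par x₂ = some a ∧ τ.Rc X a y := ⟨x₁, hx₁, a, ha, hRc⟩
        have hxp : xp x₂ = x₁ := by
          have h0 : xp x₂ = hex.choose := dif_pos hex
          obtain ⟨hy1, a', ha', hy2⟩ := hex.choose_spec
          rw [ha] at ha'
          have haa : a = a' := Option.some.inj ha'
          subst haa
          rw [h0]
          rcases τ.Rc_total hy2 hRc with h3 | h3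
          · exact τ.Rc_mem h3 hy1
          · exact (τ.Rc_mem h3 hx₁).symm
        rw [hxp]
        exact hb
      · left
        rw [huniq x₂ x hx₂ hx]
        exact hb
    · by_cases hpar : ∃ x₁, τ.par q = some x₁
      · obtain ⟨x₁, hx₁⟩ := hpar
        right
        refine ⟨x₁, hq.2.2 x₁ hx₁, fun h hh v hv hvh => ?_⟩
        rw [Finset.mem_union]
        left
        rcases hbd h hh v hv hvh with ⟨x, _, hpx, hb⟩ | ⟨x, hx, _⟩
        · rw [hx₁] at hpx
          rw [Option.some.inj hpx]
          exact hb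
        · exact (hvis ⟨x, hx⟩).elim
      · left
        intro h hh v hv hvh
        rcases hbd h hh v hv hvh with ⟨x, _, hpx, _⟩ | ⟨x, hx, _⟩
        · exact hpar ⟨x, hpx⟩
        · exact hvis ⟨x, hx⟩

include τ in
/-- C11. From `exists_scales`, `HH_mono`, `HH_card`, `comp_card`, `exists_types`, with `H j = HH (X j)`. -/
theorem exists_division (r₀ ρ J : ℕ) (hρ : 4 ≤ ρ) :
    ∃ (H X : ℕ → Finset V) (ty : ℕ → V → Finset V),
      (∀ j < J, H (j + 1) ⊆ H j) ∧
      (∀ j ≤ J, (X j).card * (r₀ * ρ ^ j) ≤ 4 * Fintype.card V) ∧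
      (∀ j ≤ J, (H j).card ≤ (k + 1) * (X j).card) ∧
      (∀ j x, (ty j x).card ≤ 2 * (k + 1)) ∧
      (∀ j ≤ J, ∀ c ∉ H j, (comp G (univ \ H j) c).card < r₀ * ρ ^ j) ∧
      (∀ j ≤ J, ∀ c ∉ H j, (∀ h ∈ H j, ∀ v ∈ comp G (univ \ H j) c, ¬ G.Adj v h) ∨
        ∃ x ∈ X j, ∀ h ∈ H j, ∀ v ∈ comp G (univ \ H j) c, G.Adj v h → h ∈ ty j x) := by
  classical
  obtain ⟨X, hX1, hX2, hX3⟩ := τ.exists_scales r₀ ρ J hρ
  have hty : ∀ j, ∃ ty : V → Finset V, (∀ x, (ty x).card ≤ 2 * (k + 1)) ∧
      (j ≤ J → ∀ c ∉ τ.HH (X j),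
        (∀ h ∈ τ.HH (X j), ∀ v ∈ comp G (univ \ τ.HH (X j)) c, ¬ G.Adj v h) ∨
        ∃ x ∈ X j, ∀ h ∈ τ.HH (X j), ∀ v ∈ comp G (univ \ τ.HH (X j)) c, G.Adj v h → h ∈ ty x) := by
    intro j
    by_cases hj : j ≤ J
    · obtain ⟨B, hB⟩ := hX3 j hj
      obtain ⟨ty, h1, h2⟩ := τ.exists_types hB
      exact ⟨ty, h1, fun _ => h2⟩
    · exact ⟨fun _ => ∅, fun _ => by simp, fun h => (hj h).elim⟩
  choose ty hty1 hty2 using hty
  refine ⟨fun j => τ.HH (X j), X, ty, ?_, hX2, ?_, hty1, ?_, fun j hj => hty2 j hj⟩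
  · intro j hj
    exact τ.HH_mono (hX1 j hj)
  · intro j _
    exact τ.HH_card (X j)
  · intro j hj c hc
    obtain ⟨B, hB⟩ := hX3 j hj
    exact τ.comp_card hB hc

end TreeOrd

end

end Pool.Agent.Lib.MP_711ea9_lc
end

section

set_option autoImplicit false

/-!
# Long fires are not optimal
-/

namespace Pool.Agent.Lib.MP_711ea9_lc

open Finset

section

variable {V : Type*} [Fintype V] [DecidableEq V] {G : SimpleGraph V} {s : V}

namespace Burn

variable (b : Burn G s)

/-- O4. Suppose no improvement exists. `exists_division` with `cR`, `cρ`, `cJ`; `K = cK`, `E = 4 L * (cR * cρ ^ cJ)`. By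
`typ_card` at least half of all times are typical (`#H 0 * cR ≤ (k+1) #X_0 cR ≤ 4 (k+1) n ≤ 4 (k+1) T L`). At a typical
time `p` the set `cut p (H j)` is infeasible for every `j ≤ J` (`improve_of_feasible`), some `j < J` is stable
(`exists_stable`, `TT_card`), and `pair_of_infeasible` gives the data for `linked_of_times` (`z, z' ∈ TT p (H j) K ⊆
H (j+1)`). Some `j` is stable for a set `P` of typical times with `#P * J ≥ #typical`, so `2 J #P ≥ T`. As
`#X_(j+1) r_j cρ ≤ 4 n ≤ 4 T L`, `#X_(j+1) b₀² M r_j < #P` (`b₀ = 2 (k+1)`, `cρ > 16 J L b₀² M`). So `Linked G M`. -/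
theorem improve_linked {k M L : ℕ} (τ : TreeOrd G k) (hL : 1 ≤ L) (hM : 1 ≤ M)
    (hlink : ¬ Linked G M) (hn : Fintype.card V ≤ b.T * L) (hT : cT k M L ≤ b.T) :
    ∃ S' : Finset V, Feas G s S' ∧ ∀ i, (fireF G s S' i).card < (b.F b.T).card := by
  classical
  by_contra hno
  have hρ4 : 4 ≤ cρ k M L := by unfold cρ; omega
  have hJ0 : 0 < cJ k L := by unfold cJ; exact pow_pos (Nat.succ_pos _) _
  have hρ0 : 0 < cρ k M L := by omega
  obtain ⟨H, X, ty, hH, hX, hHc, hty, hcomp, hb⟩ :=
    τ.exists_division (cR k L) (cρ k M L) (cJ k L) hρ4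
  set E : ℕ := 4 * L * (cR k L * cρ k M L ^ cJ k L) with hEdef
  have hET : 8 * (E + 1) ≤ b.T := by
    rw [hEdef]; exact hT
  have hT0 : 0 < b.T := by omega
  have hH0 : 8 * ((H 0).card * (2 * cK k L + 1)) ≤ b.T := by
    have h1 := hX 0 (Nat.zero_le _)
    have h2 := hHc 0 (Nat.zero_le _)
    rw [pow_zero, mul_one] at h1
    have h3 : (H 0).card * cR k L ≤ 4 * (k + 1) * (b.T * L) := by
      calc (H 0).card * cR k L ≤ (k + 1) * (X 0).card * cR k L := Nat.mul_le_mul_right _ h2
        _ = (k + 1) * ((X 0).card * cR k L) := by ring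
        _ ≤ (k + 1) * (4 * Fintype.card V) := Nat.mul_le_mul_left _ h1
        _ ≤ (k + 1) * (4 * (b.T * L)) := Nat.mul_le_mul_left _ (Nat.mul_le_mul_left _ hn)
        _ = 4 * (k + 1) * (b.T * L) := by ring
    have h4 : (4 * (k + 1) * L) * (16 * ((H 0).card * (2 * cK k L + 1))) ≤
        (4 * (k + 1) * L) * b.T := by
      calc _ = (H 0).card * cR k L := by unfold cR; ring
        _ ≤ _ := h3
        _ = _ := by ring
    have h5 := Nat.le_of_mul_le_mul_left h4 (by positivity)
    omega
  have hsub : ∀ j, j ≤ cJ k L → H j ⊆ H 0 := by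
    intro j
    induction j with
    | zero => intro _; exact Finset.Subset.refl _
    | succ j ih => intro hj; exact (hH j (by omega)).trans (ih (by omega))
  set P0 : Finset ℕ := (Icc 1 b.T).filter (fun p => b.Typ L (cK k L) E (H 0) p) with hP0
  have hcard : b.T ≤ 2 * P0.card := b.typ_card hL hn hET hH0
  have hNw : ∀ p, b.Typ L (cK k L) E (H 0) p → ∀ j, j ≤ cJ k L → ∀ c ∈ b.Nw p, c ∉ H j := by
    intro p hp j hj c hc hcH
    unfold Nw at hc
    rw [Finset.mem_sdiff] at hc
    exact hc.2 ((hp.2.2.2 c (hsub j hj hcH)).1 (b.Fmono (Nat.le_add_right _ _) hc.1))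
  have hdata : ∀ p ∈ P0, ∃ j, j < cJ k L ∧ ∃ z z' w c : V, z ≠ z' ∧ z ∈ H (j + 1) ∧
      z' ∈ H (j + 1) ∧ z ∉ b.F p ∧ z' ∉ b.F p ∧
      w ∈ b.fr p (H j) ∧ c ∈ b.Nw p ∧ c ∉ H j ∧
      (∃ u ∈ comp G (b.fr p (H j)) w, G.Adj c u) ∧
      (∃ u ∈ comp G (b.fr p (H j)) w, G.Adj u z) ∧
      (∃ u ∈ comp G (b.fr p (H j)) w, G.Adj u z') := by
    intro p hp
    rw [hP0, Finset.mem_filter] at hp
    have htyp := hp.2
    have hp1 : 1 ≤ p := htyp.1.1
    have hinf : ∀ j, j ≤ cJ k L → ¬ Feas G s (b.cut p (H j)) := by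
      intro j hj hfeas
      apply hno
      refine ⟨b.cut p (H j), hfeas, fun i => ?_⟩
      refine b.improve_of_feasible (f := 4 * L) (r := cR k L * cρ k M L ^ j) hp1 htyp.2.1 ?_ ?_ i
      · intro c hc
        exact (hcomp j hj c (hNw p htyp j hj c hc)).le
      · have h1 : 4 * L * (cR k L * cρ k M L ^ j) ≤ E := by
          rw [hEdef]
          exact Nat.mul_le_mul_left _ (Nat.mul_le_mul_left _ (Nat.pow_le_pow_right hρ0 hj))
        have := htyp.2.2.1
        omega
    have hTT : ∀ j ≤ cJ k L, ∀ i, (b.TT p (H j) i).card ≤ cK k L := by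
      intro j hj i
      exact b.TT_card (hsub j hj) htyp (hty j) (hb j hj) i
    obtain ⟨j, hj, hst⟩ := b.exists_stable (p := p) H (le_of_eq rfl) hH hTT
    obtain ⟨z, hz, z', hz', hne, w, hw, hwz, hwz', c, hc, hcw⟩ :=
      b.pair_of_infeasible (p := p) (H := H j) (K := cK k L) hp1 (by
        intro h hh hF hA
        have h1 := htyp.2.2.2 h (hsub j hj.le hh)
        exact ⟨fun h2 => hF (b.Fmono (Nat.sub_le _ _) (h1.1 h2)), fun h2 => hA (h1.2 h2)⟩)
        (hTT j hj.le) (hinf j hj.le)
    exact ⟨j, hj, z, z', w, c, hne, hst hz, hst hz', (b.TT_mem hz).2.1, (b.TT_mem hz').2.1, hw, hc,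
      hNw p htyp j hj.le c hc, hcw, hwz, hwz'⟩
  choose! jf hjf hjdat using hdata
  have hpig : ∃ j ∈ Finset.range (cJ k L), b.T / (4 * cJ k L) <
      (P0.filter fun p => jf p = j).card := by
    apply Finset.exists_lt_card_fiber_of_mul_lt_card_of_maps_to
    · intro p hp
      exact Finset.mem_range.mpr (hjf p hp)
    · rw [Finset.card_range]
      have h1 : cJ k L * (b.T / (4 * cJ k L)) * 4 ≤ b.T := by
        calc cJ k L * (b.T / (4 * cJ k L)) * 4 = (4 * cJ k L) * (b.T / (4 * cJ k L)) := by ring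
          _ ≤ b.T := Nat.mul_div_le _ _
      omega
  obtain ⟨j, hj, hjc⟩ := hpig
  rw [Finset.mem_range] at hj
  apply hlink
  refine b.linked_of_times (M := M) (r := cR k L * cρ k M L ^ j) (b₀ := 2 * (k + 1)) hM
    (H := H j) (H' := H (j + 1)) (X' := X (j + 1)) (ty' := ty (j + 1)) (hH j hj)
    (fun c hc => (hcomp j hj.le c hc).le) (hty (j + 1)) (hb (j + 1) hj)
    (P0.filter fun p => jf p = j) ?_ ?_
  · refine lt_of_le_of_lt ?_ hjc
    rw [Nat.le_div_iff_mul_le (by positivity)]
    have h1 := hX (j + 1) hj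
    have h2 : (X (j + 1)).card * (cR k L * cρ k M L ^ j) * cρ k M L ≤ 4 * (b.T * L) := by
      calc _ = (X (j + 1)).card * (cR k L * cρ k M L ^ (j + 1)) := by rw [pow_succ]; ring
        _ ≤ 4 * Fintype.card V := h1
        _ ≤ 4 * (b.T * L) := Nat.mul_le_mul_left _ hn
    have h3 : 16 * cJ k L * L * (2 * (k + 1)) ^ 2 * M ≤ cρ k M L := by unfold cρ; omega
    have h4 : (4 * L) * ((X (j + 1)).card * (2 * (k + 1)) ^ 2 * (M * (cR k L * cρ k M L ^ j)) *
        (4 * cJ k L)) ≤ (4 * L) * b.T := by
      calc _ = (X (j + 1)).card * (cR k L * cρ k M L ^ j) *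
            (16 * cJ k L * L * (2 * (k + 1)) ^ 2 * M) := by ring
        _ ≤ (X (j + 1)).card * (cR k L * cρ k M L ^ j) * cρ k M L := Nat.mul_le_mul_left _ h3
        _ ≤ 4 * (b.T * L) := h2
        _ = _ := by ring
    exact Nat.le_of_mul_le_mul_left h4 (by positivity)
  · intro p hp
    rw [Finset.mem_filter] at hp
    have := hjdat p hp.1
    rw [hp.2] at this
    exact this

end Burn

end

end Pool.Agent.Lib.MP_711ea9_lc
end

section

set_option autoImplicit false

/-!
# Optimal strategies with few guards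
-/

namespace Pool.Agent.Lib.MP_711ea9_lc

open Finset

section

variable {V : Type*} [Fintype V] [DecidableEq V] {G : SimpleGraph V} {s : V} {S : Finset V}

/-- P1. Word for word as `short_strategy` in Structure.lean, with `improve_linked` instead of `Burn.improve`
(`cT k M L ≤ #V / L < b.T`, and `#V ≤ b.T * L`). -/
theorem short_linked {k M L : ℕ} (τ : TreeOrd G k) (hL : 1 ≤ L) (hM : 1 ≤ M)
    (hlink : ¬ Linked G M) (hn : cT k M L * L ≤ Fintype.card V) (hF : Feas G s S) :
    ∃ S' : Finset V, Feas G s S' ∧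
      (fireF G s S' (Fintype.card V)).card ≤ (fireF G s S (Fintype.card V)).card ∧
      S'.card ≤ Fintype.card V / L + 1 := by
  classical
  obtain ⟨S₀, hS₀, hmin⟩ := Finset.exists_min_image (univ.filter (fun S : Finset V => Feas G s S))
    (fun S => (fireF G s S (Fintype.card V)).card) ⟨S, by simp [hF]⟩
  rw [Finset.mem_filter] at hS₀
  have hF₀ : Feas G s S₀ := hS₀.2
  set b := burnOf hF₀ with hb
  have hbF : b.F = fireF G s S₀ := rfl
  have hbA : b.A = thr G s S₀ := rfl
  set S' : Finset V := b.A (b.T + 1) with hS'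
  have hS'S : S' ⊆ S₀ := thr_subset _
  have hfire : ∀ i, fireF G s S' i = fireF G s S₀ i := by
    intro i
    induction i with
    | zero => rfl
    | succ i ih =>
      ext w
      rw [mem_fireF_succ, mem_fireF_succ, ih]
      constructor
      · rintro (h | ⟨h1, u, hu, h2⟩)
        · exact Or.inl h
        · right
          refine ⟨?_, u, hu, h2⟩
          intro h3
          apply h1
          apply b.AT (i + 1)
          rw [hbA, mem_thr_succ]
          exact ⟨h3, u, hu, h2⟩
      · rintro (h | ⟨h1, u, hu, h2⟩)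
        · exact Or.inl h
        · exact Or.inr ⟨fun h => h1 (hS'S h), u, hu, h2⟩
  have hthr : ∀ i, thr G s S' i ⊆ thr G s S₀ i := by
    intro i
    cases i with
    | zero => simp [thr]
    | succ i =>
      intro w hw
      rw [mem_thr_succ, hfire] at hw
      rw [mem_thr_succ]
      exact ⟨hS'S hw.1, hw.2⟩
  refine ⟨S', ⟨fun h => hF₀.1 (hS'S h), fun i => (Finset.card_le_card (hthr i)).trans (hF₀.2 i)⟩,
    ?_, ?_⟩
  · rw [hfire]
    exact hmin S (by simp [hF])
  · have h1 : S'.card ≤ b.T + 1 := b.Acard _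
    refine h1.trans ?_
    rw [Nat.add_le_add_iff_right]
    by_contra hcon
    push Not at hcon
    have hcon' : Fintype.card V ≤ b.T * L := by
      have := (Nat.div_lt_iff_lt_mul (by omega)).1 hcon
      exact this.le
    have hT : cT k M L ≤ b.T := by
      refine le_trans ?_ hcon.le
      rw [Nat.le_div_iff_mul_le (by omega)]
      exact hn
    obtain ⟨S'', h2, h3⟩ := b.improve_linked τ hL hM hlink hcon' hT
    have h4 := hmin S'' (by simp [h2])
    have h5 := h3 (Fintype.card V)
    have h6 : (b.F b.T).card ≤ (fireF G s S₀ (Fintype.card V)).card := by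
      have h7 : b.T ≤ Fintype.card V := by
        have h8 := b.late_card 0 (Nat.zero_le _)
        have h9 := Finset.card_le_univ (b.F b.T \ b.F 0)
        omega
      rw [hbF]
      exact Finset.card_le_card (fireF_mono h7)
    omega

end

end Pool.Agent.Lib.MP_711ea9_lc
end

section

set_option autoImplicit false

/-!
# From tree decompositions to tree orders
-/

namespace Pool.Agent.Lib.MP_711ea9_lc

open Finset

/-- Tr1. Root the tree at any node `r`; `dep i = T.dist r i`; `π i` is a neighbour of `i` with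
`dist r (π i) + 1 = dist r i` (for `i ≠ r`). An edge `i j` has `dist r i ≠ dist r j` (tree, no odd cycle;
see `SimpleGraph.IsTree.dist_ne_of_adj` or similar), so the distances differ by one, say
`dist r j + 1 = dist r i`, and `j = π i` since otherwise there are two different paths from `r` to `i`
(acyclic: `IsAcyclic.path_unique`). -/
theorem tree_rooted {m : ℕ} (T : SimpleGraph (Fin m)) (hT : T.IsTree) :
    ∃ (r : Fin m) (π : Fin m → Fin m) (dep : Fin m → ℕ),
      (∀ i, i ≠ r → T.Adj i (π i) ∧ dep (π i) < dep i) ∧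
      (∀ i j, T.Adj i j → (i ≠ r ∧ π i = j) ∨ (j ≠ r ∧ π j = i)) := by
  classical
  obtain ⟨r⟩ := hT.connected.nonempty
  have hex : ∀ i, ∃ p : T.Walk r i, p.IsPath ∧ p.length = T.dist r i :=
    fun i => (hT.connected r i).exists_path_of_dist
  choose P hP hPl using hex
  refine ⟨r, fun i => (P i).penultimate, fun i => T.dist r i, ?_, ?_⟩
  · intro i hi
    have hnil : ¬ (P i).Nil := SimpleGraph.Walk.not_nil_of_ne (Ne.symm hi)
    have hadj : T.Adj (P i).penultimate i := (P i).adj_penultimate hnil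
    refine ⟨hadj.symm, ?_⟩
    have h1 : T.dist r (P i).penultimate ≤ (P i).dropLast.length := T.dist_le _
    have h2 : (P i).dropLast.length + 1 = (P i).length :=
      SimpleGraph.Walk.length_dropLast_add_one hnil
    have h3 := hPl i
    show T.dist r (P i).penultimate < T.dist r i
    omega
  · have key : ∀ i j, T.Adj i j → T.dist r i = T.dist r j + 1 →
        i ≠ r ∧ (P i).penultimate = j := by
      intro i j hij hd
      have hir : i ≠ r := by
        rintro rfl
        rw [SimpleGraph.dist_self] at hd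
        omega
      refine ⟨hir, ?_⟩
      by_cases hj : j ∈ (P i).support
      · have h4 := hT.isAcyclic.path_concat (hP j) (hP i) hij.symm hj
        rw [h4]
        simp
      · exfalso
        have h5 := hT.isAcyclic.mem_support_of_ne_mem_support_of_adj_of_isPath (hP j) (hP i)
          hij.symm hj
        have h6 := hT.isAcyclic.path_concat (hP i) (hP j) hij h5
        have h7 : (P j).length = (P i).length + 1 := by
          conv_lhs => rw [h6]
          exact SimpleGraph.Walk.length_concat _ _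
        have h8 := hPl i
        have h9 := hPl j
        omega
    intro i j hij
    rcases hT.dist_eq_dist_add_one_of_adj r hij with h | h
    · exact Or.inl (key i j hij h)
    · exact Or.inr (key j i hij.symm h)

/-- Tr2. `t` = an element of `S` with smallest `dep`. Let `i ∈ S`, `i ≠ t`, and suppose that `i = r` or
`π i ∉ S`. Let `D` be the set of descendants of `i` (those `x` with `π^[j] x = i`, never passing `r`
before; e.g. `Relation.ReflTransGen (fun a b => a ≠ r ∧ π a = b) x i`). A step along an edge of `T` inside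
`S` which starts in `D` stays in `D`: a step to a child is clear, and a step from `x` to its parent stays
in `D` if `x ≠ i`, and is impossible for `x = i`. So all of `S` is in `D` (connectedness), `t ∈ D`, and
`t ≠ i` gives `dep t > dep i`, a contradiction. Hence `i ≠ r`, `π i ∈ S`. Iterating (induction on `dep i`)
gives `dep t < dep i` as well. -/
theorem conn_top {m : ℕ} (T : SimpleGraph (Fin m)) (r : Fin m) (π : Fin m → Fin m)
    (dep : Fin m → ℕ) (h1 : ∀ i, i ≠ r → T.Adj i (π i) ∧ dep (π i) < dep i)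
    (h2 : ∀ i j, T.Adj i j → (i ≠ r ∧ π i = j) ∨ (j ≠ r ∧ π j = i))
    (S : Set (Fin m)) (hS : (T.induce S).Connected) :
    ∃ t ∈ S, ∀ i ∈ S, i ≠ t → i ≠ r ∧ π i ∈ S ∧ dep t < dep i := by
  classical
  obtain ⟨s0⟩ := hS.nonempty
  obtain ⟨t, htS, htmin⟩ := Set.exists_min_image S dep (Set.toFinite S) ⟨s0.1, s0.2⟩
  have key : ∀ i ∈ S, i ≠ t → i ≠ r ∧ π i ∈ S := by
    intro i hi hit
    by_contra hcon
    set R : Fin m → Fin m → Prop := fun a b => a ≠ r ∧ π a = b with hR
    have hdep : ∀ a b, Relation.ReflTransGen R a b → dep b ≤ dep a ∧ (a ≠ b → dep b < dep a) := by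
      intro a b hab
      induction hab using Relation.ReflTransGen.head_induction_on with
      | refl => exact ⟨le_refl _, fun h => absurd rfl h⟩
      | head h1' _ ih =>
        rename_i a c _
        have h3 : dep (π a) < dep a := (h1 a h1'.1).2
        rw [h1'.2] at h3
        exact ⟨by omega, fun _ => by omega⟩
    have hstep : ∀ a b : S, (T.induce S).Adj a b → Relation.ReflTransGen R a.1 i →
        Relation.ReflTransGen R b.1 i := by
      intro a b hab ha
      have hab' : T.Adj a.1 b.1 := by simpa using hab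
      rcases h2 a.1 b.1 hab' with h | h
      · rcases Relation.ReflTransGen.cases_head ha with h3 | ⟨c, hc1, hc2⟩
        · exfalso
          apply hcon
          rw [← h3]
          refine ⟨h.1, ?_⟩
          rw [h.2]
          exact b.2
        · have : c = b.1 := by rw [← hc1.2]; exact h.2
          rw [← this]
          exact hc2
      · exact Relation.ReflTransGen.head (show R b.1 a.1 from h) ha
    have hwalk : ∀ (a b : S), (T.induce S).Walk a b → Relation.ReflTransGen R a.1 i →
        Relation.ReflTransGen R b.1 i := by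
      intro a b w
      induction w with
      | nil => exact fun h => h
      | cons hadj _ ih => exact fun h => ih (hstep _ _ hadj h)
    obtain ⟨w⟩ := hS.preconnected ⟨i, hi⟩ ⟨t, htS⟩
    have htD : Relation.ReflTransGen R t i := hwalk _ _ w Relation.ReflTransGen.refl
    have h4 := (hdep t i htD).2 (Ne.symm hit)
    have h5 := htmin i hi
    omega
  refine ⟨t, htS, fun i hi hit => ?_⟩
  obtain ⟨hir, hpi⟩ := key i hi hit
  refine ⟨hir, hpi, ?_⟩
  have h6 := (h1 i hir).2
  have h7 := htmin (π i) hpi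
  omega

end Pool.Agent.Lib.MP_711ea9_lc
end

section

set_option autoImplicit false

/-!
# From tree decompositions to tree orders
-/

namespace Pool.Agent.Lib.MP_711ea9_lc

open Finset

private lemma treeB_claim {n m : ℕ} {r : Fin m} {π : Fin m → Fin m} {dep : Fin m → ℕ}
    {bag : Fin m → Finset (Fin n)} {top : Fin n → Fin m}
    (hdep : ∀ i, i ≠ r → dep (π i) < dep i)
    (hp : ∀ v i, v ∈ bag i → i ≠ top v → i ≠ r ∧ v ∈ bag (π i) ∧ dep (top v) < dep i) :
    ∀ (N : ℕ) (i : Fin m), dep i ≤ N → ∀ u p, u ∈ bag i → p ∈ bag i →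
      dep (top u) ≤ dep (top p) → u ∈ bag (top p) := by
  intro N
  induction N with
  | zero =>
    intro i hi u p hu hpi _
    by_cases h : i = top p
    · rw [← h]; exact hu
    · have := (hp p i hpi h).2.2
      omega
  | succ N ih =>
    intro i hi u p hu hpi hle
    by_cases h : i = top p
    · rw [← h]; exact hu
    · obtain ⟨hr, hpπ, hlt⟩ := hp p i hpi h
      have hne : i ≠ top u := by
        rintro rfl
        omega
      obtain ⟨_, huπ, _⟩ := hp u i hu hne
      have hd := hdep i hr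
      exact ih (π i) (by omega) u p huπ hpπ hle

private lemma treeB_le {n a b : ℕ} {u v : Fin n} (h : a * n + (u : ℕ) < b * n + (v : ℕ)) :
    a ≤ b := by
  by_contra hc
  have h1 : b + 1 ≤ a := by omega
  have h2 : (b + 1) * n ≤ a * n := Nat.mul_le_mul_right n h1
  have h3 := v.2
  have h4 : (b + 1) * n = b * n + n := by ring
  omega

private lemma treeB_inj {n a b : ℕ} {u v : Fin n} (h : a * n + (u : ℕ) = b * n + (v : ℕ)) :
    u = v := by
  have hab : a = b := by
    rcases lt_trichotomy a b with hlt | heq | hgt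
    · exfalso
      have h2 : (a + 1) * n ≤ b * n := Nat.mul_le_mul_right n hlt
      have h3 := u.2
      have h4 : (a + 1) * n = a * n + n := by ring
      omega
    · exact heq
    · exfalso
      have h2 : (b + 1) * n ≤ a * n := Nat.mul_le_mul_right n hgt
      have h3 := v.2
      have h4 : (b + 1) * n = b * n + n := by ring
      omega
  subst hab
  exact Fin.ext (by omega)

/-- Tr3. Let `top v` be the node given by `conn_top` for `S v = {i | v ∈ bag i}`. Put
`rk v = dep (top v) * n + v` (injective), `up v = (bag (top v)).filter (fun u => rk u < rk v)`,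
`par v` = the element of `up v` with the largest rank, if `up v` is nonempty.
Claim: if `u, p ∈ bag i` and `dep (top u) ≤ dep (top p)`, then `u ∈ bag (top p)`: induction on `dep i`;
if `i = top p` clear; otherwise `dep (top u) ≤ dep (top p) < dep i`, so `i ≠ top u`, and `u, p ∈ bag (π i)`.
`up_card`: `up v ⊆ (bag (top v)).erase v`. `up_par`: `u ∈ up v`, `p = par v`, `u ≠ p`: then `rk u < rk p`,
so `dep (top u) ≤ dep (top p)`, and both are in `bag (top v)`, so `u ∈ bag (top p)` by the claim.
`adj`: `u, v ∈ bag i`, say `rk u < rk v`; the claim gives `u ∈ bag (top v)`. -/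
theorem exists_treeOrd {n k : ℕ} {G : SimpleGraph (Fin n)} (h : TreewidthLE G k) :
    Nonempty (TreeOrd G k) := by
  classical
  obtain ⟨m, T, bag, hT, hcard, hcov, hadj, hconn⟩ := h
  obtain ⟨r, π, dep, h1, h2⟩ := tree_rooted T hT
  choose top htop hprop using fun v => conn_top T r π dep h1 h2 {i | v ∈ bag i} (hconn v)
  have hp : ∀ v i, v ∈ bag i → i ≠ top v → i ≠ r ∧ v ∈ bag (π i) ∧ dep (top v) < dep i :=
    fun v i hv hi => hprop v i hv hi
  have hmem : ∀ v, v ∈ bag (top v) := fun v => htop v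
  have hclaim := treeB_claim (n := n) (fun i hi => (h1 i hi).2) hp
  set rk : Fin n → ℕ := fun v => dep (top v) * n + (v : ℕ) with hrk
  set up : Fin n → Finset (Fin n) := fun v => (bag (top v)).filter (fun u => rk u < rk v) with hup
  have hmax : ∀ v, (up v).Nonempty → ∃ p ∈ up v, ∀ u ∈ up v, rk u ≤ rk p :=
    fun v hv => Finset.exists_max_image (up v) rk hv
  set par : Fin n → Option (Fin n) := fun v =>
    if hv : (up v).Nonempty then some (hmax v hv).choose else none with hpar
  have hpar_some : ∀ v p, par v = some p → p ∈ up v ∧ ∀ u ∈ up v, rk u ≤ rk p := by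
    intro v p hvp
    by_cases hv : (up v).Nonempty
    · simp only [hpar, dif_pos hv, Option.some.injEq] at hvp
      subst hvp
      exact (hmax v hv).choose_spec
    · simp only [hpar, dif_neg hv] at hvp
      exact absurd hvp (by simp)
  have hpar_ne : ∀ v, (up v).Nonempty → ∃ p, par v = some p := by
    intro v hv
    exact ⟨(hmax v hv).choose, by simp only [hpar, dif_pos hv]⟩
  have hkey : ∀ i u p, u ∈ bag i → p ∈ bag i → rk u < rk p → u ∈ up p := by
    intro i u p hu hpi hlt
    have hle : dep (top u) ≤ dep (top p) := treeB_le hlt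
    exact Finset.mem_filter.2 ⟨hclaim (dep i) i le_rfl u p hu hpi hle, hlt⟩
  refine ⟨{
    par := par
    up := up
    rk := rk
    rk_par := ?_
    up_card := ?_
    up_par := ?_
    adj := ?_ }⟩
  · intro v p hvp
    exact (Finset.mem_filter.1 (hpar_some v p hvp).1).2
  · intro v
    have hsub : up v ⊆ (bag (top v)).erase v := by
      intro u hu
      obtain ⟨hu1, hu2⟩ := Finset.mem_filter.1 hu
      refine Finset.mem_erase.2 ⟨?_, hu1⟩
      rintro rfl
      exact lt_irrefl _ hu2
    have h3 := Finset.card_le_card hsub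
    rw [Finset.card_erase_of_mem (hmem v)] at h3
    have h4 := hcard (top v)
    omega
  · intro v u hu
    obtain ⟨p, hvp⟩ := hpar_ne v ⟨u, hu⟩
    obtain ⟨hpu, hpm⟩ := hpar_some v p hvp
    refine ⟨p, hvp, ?_⟩
    by_cases hup' : u = p
    · exact Or.inl hup'
    · refine Or.inr ?_
      have hle := hpm u hu
      have hne : rk u ≠ rk p := fun he => hup' (treeB_inj he)
      exact hkey (top v) u p (Finset.mem_filter.1 hu).1 (Finset.mem_filter.1 hpu).1
        (lt_of_le_of_ne hle hne)
  · intro u v huv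
    obtain ⟨i, hui, hvi⟩ := hadj u v huv
    have hne : u ≠ v := huv.ne
    rcases lt_trichotomy (rk u) (rk v) with hlt | heq | hgt
    · exact Or.inl (hkey i u v hui hvi hlt)
    · exact absurd (treeB_inj heq) hne
    · exact Or.inr (hkey i v u hvi hui hgt)

end Pool.Agent.Lib.MP_711ea9_lc
end
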